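import Pool.Agent.Lib.MP_8865d3_nt.FaDefs

/-! Heights of points and points of small height. -/

namespace Pool.Agent.Lib.MP_8865d3_nt.Fa

open MvPolynomial Finset Height Pool.Agent.Lib.Common.Subspace Pool.Agent.Lib.MP_e97e2b_nt
  Pool.Agent.Lib.MP_651af7_nt.Iv Pool.Agent.Lib.MP_651af7_nt.Vj

variable {K : Type} [Field K] [NumberField K]

theorem onE_pt {a b : ℤ} {P : Pt (a : K) (b : K)} (hP : P ≠ 0) : OnE a b (xc P) (yc P) := by
  rcases P.cases with rfl | ⟨x, y, h, rfl⟩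
  · exact absurd rfl hP
  · exact h.1

theorem yc_ne_zero {a b : ℤ} {P : Pt (a : K) (b : K)} (hP : 2 ^ 1 • P ≠ 0) : yc P ≠ 0 := by
  rcases P.cases with rfl | ⟨x, y, h, rfl⟩
  · exact absurd (smul_zero _) hP
  · intro hy
    apply hP
    rw [yc_pt] at hy
    rw [pow_one, two_smul]
    exact add_neg_case h h rfl (by rw [hy, neg_zero])

/-- `mulP_pt`. -/
theorem mulP_ne_zero {a b : ℤ} {P : Pt (a : K) (b : K)} {s : ℕ} (hP : 2 ^ s • P ≠ 0) :
    (mulP (a : K) (b : K) (xc P) (yc P) s).2.1 ≠ 0 := by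
  rcases P.cases with rfl | ⟨x, y, h, rfl⟩
  · exact absurd (smul_zero _) hP
  · exact (mulP_pt h s hP).1

theorem faHt_zero {A B : K} : ht (0 : Pt A B) = 0 := logHeight₁_zero

theorem faHt_one {A B : K} (hD : 4 * A ^ 3 + 27 * B ^ 2 ≠ 0) : ∃ C : ℝ, 0 ≤ C ∧
    (∀ (P Q : Pt A B) (j : ℕ),
      2 * ht P + 2 * (4 ^ j * ht Q) ≤ ht (P + 2 ^ j • Q) + ht (P - 2 ^ j • Q) + C * 4 ^ j) ∧
    (∀ P : Pt A B, C < ht P → ∀ j : ℕ, 2 ^ j • P ≠ 0) ∧
    ∀ P : Pt A B, logHeight₁ (2 * yc P)⁻¹ ≤ 2 * ht P + C := by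
  obtain ⟨C₀, hC⟩ := ht_par hD
  have h0 : 0 ≤ C₀ := (abs_nonneg _).trans (hC 0 0)
  have hpar : ∀ P Q : Pt A B, 2 * ht P + 2 * ht Q ≤ ht (P + Q) + ht (P - Q) + C₀ := by
    intro P Q
    have := (abs_le.1 (hC P Q)).1
    linarith
  have hpow : ∀ (P : Pt A B) (j : ℕ), 4 ^ j * (ht P - C₀) ≤ ht (2 ^ j • P) - C₀ := by
    intro P j
    induction j with
    | zero => simp
    | succ j ih =>
      have e : 2 ^ (j + 1) • P = 2 ^ j • P + 2 ^ j • P := by
        rw [pow_succ, mul_comm, mul_smul, two_smul]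
      have h1 := hpar (2 ^ j • P) (2 ^ j • P)
      rw [sub_self, faHt_zero, ← e] at h1
      rw [pow_succ]
      nlinarith
  set E : ℝ := logHeight₁ (2 : K) + totalWeight K * Real.log 3 + logHeight₁ A + logHeight₁ B
    with hE
  have hE0 : 0 ≤ E := by
    have := zero_le_logHeight₁ (2 : K)
    have := zero_le_logHeight₁ A
    have := zero_le_logHeight₁ B
    have : 0 ≤ (totalWeight K : ℝ) * Real.log 3 :=
      mul_nonneg (Nat.cast_nonneg _) (Real.log_nonneg (by norm_num))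
    linarith
  refine ⟨3 * C₀ + E, by linarith, ?_, ?_, ?_⟩
  · intro P Q j
    have h1 := hpar P (2 ^ j • Q)
    have h2 := hpow Q j
    have h3 : (1 : ℝ) ≤ 4 ^ j := one_le_pow₀ (by norm_num)
    nlinarith [mul_nonneg hE0 (zero_le_one.trans h3), mul_le_mul_of_nonneg_left h3 h0]
  · intro P hP j h
    have h2 := hpow P j
    rw [h, faHt_zero] at h2
    have h3 : (0 : ℝ) < 4 ^ j := by positivity
    have h4 : 0 < 4 ^ j * (ht P - C₀) := mul_pos h3 (by linarith)
    linarith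
  · intro P
    rw [logHeight₁_inv]
    rcases P.cases with rfl | ⟨x, y, h, rfl⟩
    · rw [yc_zero, mul_zero, logHeight₁_zero, faHt_zero]
      linarith
    · have h1 := logHeight₁_mul_le (2 : K) y
      have h2 := height_y_le h.1
      show logHeight₁ (2 * y) ≤ 2 * logHeight₁ x + _
      linarith

/-- `ht_par` with `Q = P` gives `4 * ht P - C ≤ ht (2 • P)`, so `4 ^ j * (ht P - C) ≤ ht (2 ^ j • P)`;
one constant for finitely many curves; `height_y_le`, `logHeight₁_inv`, `logHeight₁_mul_le`. -/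
theorem exists_ht_const {κ : Type} [Fintype κ] (a b : κ → ℤ)
    (hD : ∀ k, 4 * a k ^ 3 + 27 * b k ^ 2 ≠ 0) : ∃ C : ℝ, 0 ≤ C ∧
      (∀ (k : κ) (P Q : Pt (a k : K) (b k : K)) (j : ℕ),
        2 * ht P + 2 * (4 ^ j * ht Q) ≤ ht (P + 2 ^ j • Q) + ht (P - 2 ^ j • Q) + C * 4 ^ j) ∧
      (∀ (k : κ) (P : Pt (a k : K) (b k : K)), C < ht P → ∀ j : ℕ, 2 ^ j • P ≠ 0) ∧
      ∀ (k : κ) (P : Pt (a k : K) (b k : K)), logHeight₁ (2 * yc P)⁻¹ ≤ 2 * ht P + C := by
  have hD' : ∀ k, 4 * (a k : K) ^ 3 + 27 * (b k : K) ^ 2 ≠ 0 := fun k => by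
    exact_mod_cast hD k
  choose C h0 h1 h2 h3 using fun k => faHt_one (hD' k)
  have hle : ∀ k, C k ≤ ∑ k, C k := fun k =>
    Finset.single_le_sum (f := C) (fun k _ => h0 k) (Finset.mem_univ k)
  refine ⟨∑ k, C k, Finset.sum_nonneg fun k _ => h0 k, ?_, ?_, ?_⟩
  · intro k P Q j
    have h4 := h1 k P Q j
    have h5 : C k * 4 ^ j ≤ (∑ k, C k) * 4 ^ j :=
      mul_le_mul_of_nonneg_right (hle k) (by positivity)
    linarith
  · intro k P hP
    exact h2 k P ((hle k).trans_lt hP)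
  · intro k P
    have h4 := h3 k P
    have h5 := hle k
    linarith

theorem faHt_poly (p : Polynomial ℤ) (hp : p ≠ 0) {κ : Type} (k : κ) :
    (Polynomial.aeval (X k : MvPolynomial κ ℚ) p) ≠ 0 ∧
      IL (Polynomial.aeval (X k : MvPolynomial κ ℚ) p)
        (∑ i ∈ range (p.natDegree + 1), |(p.coeff i : ℝ)|) ∧
      ∀ μ ∈ (Polynomial.aeval (X k : MvPolynomial κ ℚ) p).support,
        ∃ i ≤ p.natDegree, μ = Finsupp.single k i := by
  classical
  refine ⟨?_, ?_, ?_⟩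
  · intro h
    have h1 := Polynomial.aeval_algHom_apply
      ((aeval (fun _ : κ => (Polynomial.X : Polynomial ℚ))).restrictScalars ℤ)
      (X k : MvPolynomial κ ℚ) p
    rw [h, map_zero] at h1
    simp only [AlgHom.restrictScalars_apply, aeval_X] at h1
    rw [Polynomial.aeval_X_left_eq_map] at h1
    exact hp ((Polynomial.map_eq_zero_iff (algebraMap ℤ ℚ).injective_int).1 h1)
  · rw [Polynomial.aeval_eq_sum_range]
    refine il_sum _ fun i _ => ?_
    have := ((il_X k).pow i).zsmul (p.coeff i)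
    rwa [one_pow, mul_one] at this
  · intro μ hμ
    rw [Polynomial.aeval_eq_sum_range] at hμ
    obtain ⟨i, hi, h⟩ := Finset.mem_biUnion.1 (support_sum hμ)
    refine ⟨i, Nat.lt_succ_iff.1 (Finset.mem_range.1 hi), ?_⟩
    have h2 := support_smul h
    rw [X_pow_eq_monomial] at h2
    exact Finset.mem_singleton.1 (support_monomial_subset h2)

/-- `NumberField.finite_setOfPred_logHeight₁_le`; each of the finitely many numbers is a root of a
nonzero integer polynomial (`IsAlgebraic`, clear denominators, or `exists_clear` of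
`Common/ZeroLemma/Main`); `Polynomial.aeval (X k)` of it. -/
theorem small_of_low (C : ℝ) : ∃ (D : ℕ) (c : ℝ), ∀ (κ : Type) (z : κ → K) (k : κ),
    logHeight₁ (z k) ≤ C → ∃ g : MvPolynomial κ ℚ, Small D c g ∧ aeval z g = 0 ∧
      ∀ μ ∈ g.support, ∀ s, s ≠ k → μ s = 0 := by
  classical
  have hfin := NumberField.finite_setOfPred_logHeight₁_le (K := K) C
  have halg : ∀ w : K, ∃ p : Polynomial ℤ, p ≠ 0 ∧ Polynomial.aeval w p = 0 := fun w =>
    (IsFractionRing.isAlgebraic_iff ℤ ℚ K).2 (Algebra.IsAlgebraic.isAlgebraic w)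
  choose p hp0 hp using halg
  let L : K → ℝ := fun w => ∑ i ∈ range ((p w).natDegree + 1), |((p w).coeff i : ℝ)|
  have hL : ∀ w, 0 ≤ L w := fun w => Finset.sum_nonneg fun _ _ => abs_nonneg _
  refine ⟨∑ w ∈ hfin.toFinset, (p w).natDegree, ∑ w ∈ hfin.toFinset, L w, ?_⟩
  intro κ z k hz
  have hm : z k ∈ hfin.toFinset := hfin.mem_toFinset.2 hz
  obtain ⟨g1, g2, g3⟩ := faHt_poly (p (z k)) (hp0 _) k
  have hD : (p (z k)).natDegree ≤ ∑ w ∈ hfin.toFinset, (p w).natDegree :=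
    Finset.single_le_sum (f := fun w => (p w).natDegree) (fun _ _ => Nat.zero_le _) hm
  have hc : L (z k) ≤ ∑ w ∈ hfin.toFinset, L w :=
    Finset.single_le_sum (f := L) (fun w _ => hL w) hm
  refine ⟨_, ⟨g1, g2.mono ?_, ?_⟩, ?_, ?_⟩
  · have := Real.add_one_le_exp (∑ w ∈ hfin.toFinset, L w)
    show L (z k) ≤ _
    linarith
  · intro μ hμ s
    obtain ⟨i, hi, rfl⟩ := g3 μ hμ
    rw [Finsupp.single_apply]
    split_ifs
    · exact hi.trans hD
    · exact Nat.zero_le _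
  · have h1 := Polynomial.aeval_algHom_apply ((aeval z).restrictScalars ℤ)
      (X k : MvPolynomial κ ℚ) (p (z k))
    simp only [AlgHom.restrictScalars_apply, aeval_X] at h1
    rw [← h1]
    exact hp _
  · intro μ hμ s hs
    obtain ⟨i, -, rfl⟩ := g3 μ hμ
    exact Finsupp.single_eq_of_ne hs

end Pool.Agent.Lib.MP_8865d3_nt.Fa
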