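import Pool.Agent.Lib.MP_8865d3_nt.FaDefs

/-! Heights: one place against all places, and heights of points. -/

namespace Pool.Agent.Lib.MP_8865d3_nt.Fa

open MvPolynomial Finset Height Pool.Agent.Lib.Common.Subspace Pool.Agent.Lib.MP_e97e2b_nt
  Pool.Agent.Lib.MP_651af7_nt.Iv Pool.Agent.Lib.MP_651af7_nt.Vj

section place

variable {K : Type*} [Field K] [AdmissibleAbsValues K] {v : AbsoluteValue K ℝ}

open Classical in
/-- All terms are nonnegative and the term of `v` occurs at least once
(`Multiset.single_le_sum`, `single_le_finsum` or `finsum_eq_single`). -/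
theorem le_gsum_ite (hv : Adm v) {Γ : ℝ} (hΓ : 0 ≤ Γ) :
    FinS (fun w : AbsoluteValue K ℝ => if w = v then Γ else 0) ∧
      Γ ≤ gsum (fun w : AbsoluteValue K ℝ => if w = v then Γ else 0) := by
  have hfin : FinS (fun w : AbsoluteValue K ℝ => if w = v then Γ else 0) := by
    refine Set.Finite.subset (Set.Subsingleton.finite (s := {w | w.val = v}) ?_) ?_
    · intro a ha b hb
      exact Subtype.ext (ha.trans hb.symm)
    · intro w hw
      by_contra hne
      exact hw (if_neg hne)
  have hnn : ∀ w : AbsoluteValue K ℝ, 0 ≤ (if w = v then Γ else 0) := fun w => by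
    split_ifs
    · exact hΓ
    · exact le_rfl
  refine ⟨hfin, ?_⟩
  have hA : ∀ a ∈ (AdmissibleAbsValues.archAbsVal (K := K)).map
      (fun w : AbsoluteValue K ℝ => if w = v then Γ else 0), 0 ≤ a := fun a ha => by
    obtain ⟨w, -, rfl⟩ := Multiset.mem_map.mp ha
    exact hnn w
  unfold gsum
  rcases hv with hv | hv
  · have h1 := Multiset.single_le_sum hA Γ (Multiset.mem_map.mpr ⟨v, hv, if_pos rfl⟩)
    have h2 : 0 ≤ ∑ᶠ w : AdmissibleAbsValues.nonarchAbsVal (K := K),
        (if w.val = v then Γ else 0) := finsum_nonneg fun w => hnn w.val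
    linarith
  · have h1 := Multiset.sum_nonneg hA
    have h2 : ∑ᶠ w : AdmissibleAbsValues.nonarchAbsVal (K := K),
        (if w.val = v then Γ else 0) = Γ := by
      rw [finsum_eq_single _ (⟨v, hv⟩ : AdmissibleAbsValues.nonarchAbsVal (K := K))]
      · exact if_pos rfl
      · intro w hw
        exact if_neg fun e => hw (Subtype.ext e)
    linarith

/-- `pf_gen` with one more factor `exp (if w = v then Γ else 0)` on the left. -/
theorem pf_gain (hv : Adm v) {I J : Type*} [Fintype I] [Fintype J] {g : K} (hg : g ≠ 0) (α : I → K)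
    (n : I → ℕ) (β : J → K) (m : J → ℕ) {C Γ : ℝ} (hC : 0 < C) (hΓ : 0 ≤ Γ)
    (h : ∀ L : Loc K, L.v g * ∏ i, max (L.v (α i)) 1 ^ n i ≤
      C ^ L.e * ∏ j, max (L.v (β j)) 1 ^ m j)
    (h' : ∀ L : Loc K, L.v = v → L.v g * (∏ i, max (L.v (α i)) 1 ^ n i) * Real.exp Γ ≤
      C ^ L.e * ∏ j, max (L.v (β j)) 1 ^ m j) :
    ∑ i, n i * logHeight₁ (α i) + Γ ≤
      totalWeight K * Real.log C + ∑ j, m j * logHeight₁ (β j) := by
  classical
  obtain ⟨hfin, hle⟩ := le_gsum_ite hv hΓ
  have key := pf_gen (I := Option I) hg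
    (fun i w => i.elim (Real.exp (if w = v then Γ else 0)) fun i => max (w (α i)) 1)
    (fun i => by
      cases i with
      | none => simpa only [Option.elim, Real.log_exp] using hfin
      | some i => exact finS_max _)
    (fun i w => by
      cases i with
      | none => exact Real.exp_pos _
      | some i => exact lt_max_of_lt_right one_pos)
    (fun i => i.elim 1 n) (fun j w => max (w (β j)) 1) (fun j => finS_max _)
    (fun j w => lt_max_of_lt_right one_pos) m hC fun L => by
      rw [Fintype.prod_option]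
      simp only [Option.elim, pow_one]
      by_cases e : L.v = v
      · rw [if_pos e]
        have := h' L e
        linarith [mul_comm (Real.exp Γ) (∏ i, max (L.v (α i)) 1 ^ n i),
          mul_assoc (L.v g) (∏ i, max (L.v (α i)) 1 ^ n i) (Real.exp Γ),
          congrArg (L.v g * ·) (mul_comm (Real.exp Γ) (∏ i, max (L.v (α i)) 1 ^ n i))]
      · rw [if_neg e, Real.exp_zero, one_mul]
        exact h L
  rw [Fintype.sum_option] at key
  simp only [Option.elim, Real.log_exp, gsum_max, Nat.cast_one, one_mul] at key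
  linarith

theorem log_max_le (hv : Adm v) (x : K) : Real.log (max (v x) 1) ≤ logHeight₁ x := by
  classical
  obtain ⟨hfin, hle⟩ := le_gsum_ite hv (pf_log_max_nonneg (v x))
  rw [← gsum_max]
  refine hle.trans (pf_gsum_mono hfin (finS_max x) fun w => ?_)
  split_ifs with e
  · rw [e]
  · exact pf_log_max_nonneg _

/-- `log_max_le` for `γ⁻¹`, `logHeight₁_inv`. -/
theorem liouville (hv : Adm v) {γ : K} (hγ : γ ≠ 0) : Real.exp (-logHeight₁ γ) ≤ v γ := by
  have h1 := log_max_le hv γ⁻¹
  rw [logHeight₁_inv, map_inv₀] at h1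
  have h0 : 0 < v γ := v.pos hγ
  have h2 : Real.log (v γ)⁻¹ ≤ Real.log (max (v γ)⁻¹ 1) :=
    Real.log_le_log (inv_pos.2 h0) (le_max_left _ _)
  rw [Real.log_inv] at h2
  calc Real.exp (-logHeight₁ γ) ≤ Real.exp (Real.log (v γ)) := Real.exp_le_exp.2 (by linarith)
    _ = v γ := Real.exp_log h0

end place

/-- `Nrm.aeval_wd` for `Loc.nv ⟨v, 1, Or.inl rfl⟩` and the weights `Pi.single s 1`. -/
theorem v_aeval_le {K σ : Type*} [Field K] [CharZero K] [Fintype σ] (v : AbsoluteValue K ℝ)
    {p : MvPolynomial σ ℚ} {T : ℝ} (hp : IL p T) (D : σ → ℕ) (hD : ∀ μ ∈ p.support, ∀ s, μ s ≤ D s)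
    (z : σ → K) : v (aeval z p) ≤ T * ∏ s, max (v (z s)) 1 ^ D s := by
  classical
  have h := (Loc.nv (⟨v, 1, Or.inl rfl⟩ : Loc K)).aeval_wd (fun s => Pi.single s 1) D
    (fun s => max (v (z s)) 1) (fun s => le_max_right _ _) hp
    (fun s => (wd_single_iff s).2 fun μ hμ => hD μ hμ s) z fun s => by
      rw [Finset.prod_eq_single s]
      · simp [Loc.nv]
      · intro j _ hj
        rw [Pi.single_eq_of_ne hj.symm, pow_zero]
      · intro hs
        exact absurd (Finset.mem_univ s) hs
  simpa [Loc.nv] using h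

end Pool.Agent.Lib.MP_8865d3_nt.Fa
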