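import Pool.Agent.Lib.MP_651af7_nt.VjIface
import Pool.Agent.Lib.MP_651af7_nt.Vj.Exit
import Pool.Agent.Lib.MP_651af7_nt.Vj.AddSub

/-! Vocabulary for the approximation theorem on a product of elliptic curves. -/

namespace Pool.Agent.Lib.MP_8865d3_nt.Fa

open MvPolynomial Finset Height Pool.Agent.Lib.Common.Subspace Pool.Agent.Lib.MP_e97e2b_nt
  Pool.Agent.Lib.MP_651af7_nt.Iv Pool.Agent.Lib.MP_651af7_nt.Vj

/-- One of the normalised absolute values. -/
def Adm {K : Type*} [Field K] [AdmissibleAbsValues K] (v : AbsoluteValue K ℝ) : Prop :=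
  v ∈ AdmissibleAbsValues.archAbsVal ∨ v ∈ AdmissibleAbsValues.nonarchAbsVal

/-- A nonzero integer polynomial of degrees at most `B` and length at most `exp c`. -/
structure Small {κ : Type*} (B : ℕ) (c : ℝ) (R : MvPolynomial κ ℚ) : Prop where
  ne : R ≠ 0
  il : IL R (Real.exp c)
  deg : ∀ μ ∈ R.support, ∀ s, μ s ≤ B

theorem Small.mono {κ : Type*} {B B' : ℕ} {c c' : ℝ} {R : MvPolynomial κ ℚ} (h : Small B c R)
    (hB : B ≤ B') (hc : c ≤ c') : Small B' c' R :=
  ⟨h.ne, h.il.mono (Real.exp_le_exp.2 hc), fun μ hμ s => (h.deg μ hμ s).trans hB⟩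

/-- The point `x` is close to the divisor of `R`, seen as a form of degree `B` in each variable. -/
def Near {K κ : Type*} [Field K] [CharZero K] [Fintype κ] (v : AbsoluteValue K ℝ) (B : ℕ) (c : ℝ)
    (x : κ → K) (R : MvPolynomial κ ℚ) : Prop :=
  v (aeval x R) ≤ Real.exp (-c) * ∏ k, max (v (x k)) 1 ^ B

/-- Points of the product of the curves. -/
abbrev Pts (K : Type) [Field K] {κ : Type} (a b : κ → ℤ) : Type := ∀ k, Pt (a k : K) (b k : K)

section points

variable {K : Type} [Field K] [NumberField K] {κ : Type} [Fintype κ] {a b : κ → ℤ}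

/-- The height of a point of the product. -/
noncomputable def HS (X : Pts K a b) : ℝ := ∑ k, ht (X k)

/-- The first coordinates. -/
def xs (X : Pts K a b) : κ → K := fun k => xc (X k)

/-- The point lies on a hypersurface of bounded degree and small height. -/
def Spec (D : ℕ) (ε : ℝ) (X : Pts K a b) : Prop :=
  ∃ g : MvPolynomial κ ℚ, Small D (ε * HS X) g ∧ aeval (xs X) g = 0

/-- `2 ^ j • X` is close to `Y`. -/
def Cls (θ : ℝ) (j : ℕ) (X Y : Pts K a b) : Prop :=
  HS (Y - 2 ^ j • X) ≤ θ * HS Y ∧ HS Y ≤ 2 * (4 ^ j * HS X) ∧ 4 ^ j * HS X ≤ 2 * HS Y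

theorem HS_nonneg (X : Pts K a b) : 0 ≤ HS X := Finset.sum_nonneg fun _ _ => ht_nonneg _

theorem ht_le_HS (X : Pts K a b) (k : κ) : ht (X k) ≤ HS X :=
  Finset.single_le_sum (f := fun k => ht (X k)) (fun _ _ => ht_nonneg _) (Finset.mem_univ k)

theorem Spec.mono {D D' : ℕ} {ε ε' : ℝ} {X : Pts K a b} (h : Spec D ε X) (hD : D ≤ D')
    (hε : ε ≤ ε') : Spec D' ε' X := by
  obtain ⟨g, h1, h2⟩ := h
  exact ⟨g, h1.mono hD (mul_le_mul_of_nonneg_right hε (HS_nonneg X)), h2⟩

end points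

/-- The weight attached to one curve: `1` for its first coordinate, `2` for the second. -/
def wt {τ : Type*} [DecidableEq τ] (p : τ) : τ ⊕ τ → ℕ :=
  Sum.elim (fun q => if q = p then 1 else 0) (fun q => if q = p then 2 else 0)

section aux

variable {J κ : Type} [Fintype J] [Fintype κ]

/-- The exponent bounds of the basic sections. -/
def nn (N : ℕ) (n : J → ℕ) : Option J × κ → ℕ := fun p => p.1.elim N n

/-- The weights of the basic sections. -/
def DD (N : ℕ) (n : J → ℕ) : Option J × κ → ℕ :=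
  fun p => p.1.elim ((2 * Fintype.card J + 1) * N) fun j => 2 * n j

/-- A basic section in the presentation `e`. -/
def sec {R : Type*} [CommRing R] (a b : κ → ℤ) (s n : J → ℕ) (x y : Option J × κ → R)
    (e : J × κ → Bool) (i : Option J × κ → ℕ) : R :=
  (∏ p : J × κ, fac (a p.2 : R) (b p.2 : R) (x (some p.1, p.2)) (y (some p.1, p.2))
    (mulP (a p.2 : R) (b p.2 : R) (x (none, p.2)) (y (none, p.2)) (s p.1)) (n p.1) (e p)
      (i (some p.1, p.2))) * ∏ k, x (none, k) ^ i (none, k)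

/-- The basic section as a polynomial. -/
noncomputable def secP (a b : κ → ℤ) (s n : J → ℕ) (e : J × κ → Bool) (i : Option J × κ → ℕ) :
    MvPolynomial ((Option J × κ) ⊕ (Option J × κ)) ℚ :=
  sec a b s n (fun p => X (Sum.inl p)) (fun p => X (Sum.inr p)) e i

end aux

/-- The equation of the curve. -/
def OnE {R : Type*} [CommRing R] (a b : ℤ) (x y : R) : Prop := y ^ 2 = x ^ 3 + (a : R) * x + (b : R)

/-- The first coordinates of the formal points. -/
noncomputable def xser {K τ : Type} [Field K] (x₀ : τ → K) : τ → MvPowerSeries τ K :=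
  fun p => MvPowerSeries.C (x₀ p) + MvPowerSeries.X p

/-- The series `y p` are branches over `x₀ p + X p` whose sizes are controlled by `c`. -/
def Branch {K τ : Type} [Field K] [Fintype τ] (c : ℝ) (x₀ y₀ : τ → K)
    (y : τ → MvPowerSeries τ K) : Prop :=
  ∀ (L : Loc K) (κ : τ →₀ ℕ) (r : τ → ℝ), (∀ p, 0 < r p) → (∀ p, r p ≤ 1) →
    ∃ n : Nrm (MvPowerSeries τ K), n.e = L.e ∧
      (∀ u, L.v (MvPowerSeries.coeff κ u) * ∏ p, r p ^ κ p ≤ n.N u *
        ∏ p, (c ^ L.e * max (L.v (x₀ p)) 1 ^ 18 * max (L.v (2 * y₀ p)⁻¹) 1 ^ 2) ^ κ p) ∧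
      (∀ z, n.N (MvPowerSeries.C z) ≤ L.v z) ∧
      ∀ p, n.N (MvPowerSeries.X p) ≤ r p ∧
        n.N (xser x₀ p) ≤ c ^ L.e * max (L.v (x₀ p)) 1 ∧
        n.N (y p) ≤ (c ^ L.e * max (L.v (x₀ p)) 1) ^ 2

end Pool.Agent.Lib.MP_8865d3_nt.Fa
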