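import Pool.Agent.Lib.MP_8865d3_nt.Q1Defs
import Pool.Agent.Lib.MP_651af7_nt.P1Norm
import Pool.Agent.Lib.MP_651af7_nt.P1Exit

/-! Nonvanishing along formal branches, and the curve equations as relations. -/

namespace Pool.Agent.Lib.MP_8865d3_nt.Gm

open Finset MvPolynomial Pool.Agent.Lib.MP_651af7_nt.Vj.P1 Pool.Agent.Lib.Common.Subspace
  Pool.Agent.Lib.Common.ZeroLemma

section norm

variable {V O : Type}

/-- The factor by which a sign change multiplies a variable. -/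
def Q1Norm_S (sg : O → ℤˣ) : V ⊕ O → ℚ := Sum.elim (fun _ => 1) fun p => ((sg p : ℤ) : ℚ)

/-- The sign change. -/
noncomputable def Q1Norm_T (sg : O → ℤˣ) : MvPolynomial (V ⊕ O) ℚ →ₐ[ℚ] MvPolynomial (V ⊕ O) ℚ :=
  aeval fun q => C (Q1Norm_S sg q) * X q

lemma Q1Norm_S_mul (s t : O → ℤˣ) (q : V ⊕ O) :
    Q1Norm_S (s * t) q = Q1Norm_S s q * Q1Norm_S t q := by
  rcases q with q | q <;> simp [Q1Norm_S]

lemma Q1Norm_T_mul (s t : O → ℤˣ) (G : MvPolynomial (V ⊕ O) ℚ) :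
    Q1Norm_T s (Q1Norm_T t G) = Q1Norm_T (s * t) G := by
  have : (Q1Norm_T (V := V) s).comp (Q1Norm_T t) = Q1Norm_T (s * t) := by
    apply MvPolynomial.algHom_ext
    intro q
    simp only [Q1Norm_T, AlgHom.comp_apply, aeval_X, map_mul, aeval_C, algebraMap_eq, Q1Norm_S_mul]
    ring
  exact AlgHom.congr_fun this G

lemma Q1Norm_T_one (G : MvPolynomial (V ⊕ O) ℚ) : Q1Norm_T (1 : O → ℤˣ) G = G := by
  have : Q1Norm_T (V := V) (1 : O → ℤˣ) = AlgHom.id ℚ _ := by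
    apply MvPolynomial.algHom_ext
    rintro (q | q) <;> simp [Q1Norm_T, Q1Norm_S]
  rw [this]
  rfl

lemma Q1Norm_T_monomial (s : O → ℤˣ) (μ : V ⊕ O →₀ ℕ) (c : ℚ) :
    Q1Norm_T s (monomial μ c) = monomial μ ((μ.prod fun q n => Q1Norm_S s q ^ n) * c) := by
  rw [Q1Norm_T, aeval_monomial, monomial_eq, algebraMap_eq]
  simp only [mul_pow, Finsupp.prod, prod_mul_distrib, map_mul, map_prod, map_pow]
  ring

lemma Q1Norm_coeff (s : O → ℤˣ) (μ : V ⊕ O →₀ ℕ) (G : MvPolynomial (V ⊕ O) ℚ) :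
    coeff μ (Q1Norm_T s G) = (μ.prod fun q n => Q1Norm_S s q ^ n) * coeff μ G := by
  classical
  induction G using MvPolynomial.induction_on' with
  | monomial ν c =>
    rw [Q1Norm_T_monomial, coeff_monomial, coeff_monomial]
    split_ifs with h
    · rw [h]
    · simp
  | add p q hp hq => rw [map_add, coeff_add, coeff_add, hp, hq, mul_add]

lemma Q1Norm_even [DecidableEq O] {N : MvPolynomial (V ⊕ O) ℚ} (h : ∀ s, Q1Norm_T s N = N)
    {μ : V ⊕ O →₀ ℕ} (hμ : μ ∈ N.support) (v : O) : Even (μ (.inr v)) := by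
  have h1 := Q1Norm_coeff (Function.update 1 v (-1)) μ N
  rw [h] at h1
  have h2 : (μ.prod fun q n => Q1Norm_S (Function.update (1 : O → ℤˣ) v (-1)) q ^ n) =
      (-1) ^ μ (.inr v) := by
    rw [Finsupp.prod_eq_single (.inr v)]
    · simp [Q1Norm_S]
    · rintro (w | w) _ hw
      · simp [Q1Norm_S]
      · have : w ≠ v := fun e => hw (by rw [e])
        simp [Q1Norm_S, Function.update_of_ne this]
    · simp
  rw [h2] at h1
  by_contra hodd
  rw [Nat.not_even_iff_odd] at hodd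
  rw [hodd.neg_one_pow] at h1
  exact (mem_support_iff.1 hμ) (by linarith)

lemma Q1Norm_reduced [Fintype V] [Fintype O] (ι : O → V) (a b : ℤ) {N0 : MvPolynomial (V ⊕ O) ℚ}
    (h : ∀ s, Q1Norm_T s N0 = N0) : ∃ N : MvPolynomial V ℚ, ∀ (R : Type) [CommRing R]
      (φ : MvPolynomial (V ⊕ O) ℚ →+* R),
      (∀ p, φ (X (.inr p)) ^ 2 = fc (a : R) b (φ (X (.inl (ι p))))) →
      φ N0 = eval₂Hom (φ.comp C) (fun p => φ (X (.inl p))) N := by
  classical
  refine ⟨∑ μ ∈ N0.support, C (coeff μ N0) * ((∏ v, X v ^ μ (.inl v)) *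
    ∏ p, fc (a : MvPolynomial V ℚ) b (X (ι p)) ^ (μ (.inr p) / 2)), fun R _ φ hφ => ?_⟩
  conv_lhs => rw [N0.as_sum]
  rw [map_sum, map_sum]
  refine sum_congr rfl fun μ hμ => ?_
  rw [monomial_eq, Finsupp.prod_fintype _ _ (by simp), Fintype.prod_sum_type]
  simp only [map_mul, map_prod, map_pow, map_fc, map_intCast, eval₂Hom_C, eval₂Hom_X',
    RingHom.comp_apply]
  congr 2
  refine prod_congr rfl fun v _ => ?_
  obtain ⟨k, hk⟩ := Q1Norm_even h hμ v
  rw [← hφ, ← pow_mul, hk]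
  congr 1
  omega

end norm

/- Sketch. As ev_ne_zero in P1Norm (product of the sign conjugates, even exponents, shift_ne_zero). -/
theorem ev_ne_zeroT {V O : Type} [Fintype V] [Fintype O] (ι : O → V) (a b : ℤ)
    (G : MvPolynomial (V ⊕ O) ℚ) (x : V → ℂ) (y : O → ℂ)
    (hxy : ∀ p, y p ^ 2 = fc (a : ℂ) b (x (ι p)))
    (hG : ∀ sg : O → ℤˣ,
      eval₂Hom (algebraMap ℚ ℂ) (Sum.elim x fun p => ((sg p : ℤ) : ℂ) * y p) G ≠ 0)
    {K : Type} [Field K] [CharZero K] (ξ : V → K)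
    (ev : MvPolynomial (V ⊕ O) ℚ →+* MvPowerSeries V K)
    (h1 : ∀ p, ev (X (.inl p)) = MvPowerSeries.C (ξ p) + MvPowerSeries.X p)
    (h2 : ∀ p, ev (X (.inr p)) ^ 2 = fc (a : MvPowerSeries V K) b (ev (X (.inl (ι p))))) :
    ev G ≠ 0 := by
  classical
  have hinv : ∀ s, Q1Norm_T s (∏ t : O → ℤˣ, Q1Norm_T t G) = ∏ t : O → ℤˣ, Q1Norm_T t G := by
    intro s
    rw [map_prod]
    simp only [Q1Norm_T_mul]
    exact Equiv.prod_comp (Equiv.mulLeft s) fun t => Q1Norm_T t G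
  obtain ⟨N, hN⟩ := Q1Norm_reduced ι a b hinv
  have hN0 : N ≠ 0 := by
    intro h0
    have h3 := hN ℂ (eval₂Hom (algebraMap ℚ ℂ) (Sum.elim x y)) (by
        intro p
        simp [hxy])
    rw [h0, map_zero, map_prod, prod_eq_zero_iff] at h3
    obtain ⟨t, -, ht⟩ := h3
    apply hG t
    rw [← ht]
    have e : eval₂Hom (algebraMap ℚ ℂ) (Sum.elim x fun p => ((t p : ℤ) : ℂ) * y p) =
        (eval₂Hom (algebraMap ℚ ℂ) (Sum.elim x y)).comp (Q1Norm_T t).toRingHom := by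
      apply MvPolynomial.ringHom_ext'
      · exact Subsingleton.elim _ _
      · rintro (p | p)
        · simp [Q1Norm_T, Q1Norm_S]
        · simp only [Q1Norm_T, Q1Norm_S, AlgHom.toRingHom_eq_coe, RingHom.comp_apply,
            RingHom.coe_coe, aeval_X, map_mul, eval₂Hom_X', Sum.elim_inr, map_intCast]
    rw [e]
    rfl
  intro h0
  have h3 := hN _ ev h2
  simp only [h1] at h3
  apply shift_ne_zero ξ hN0 (ev.comp C)
  rw [← h3, map_prod]
  exact prod_eq_zero (mem_univ 1) (by rw [Q1Norm_T_one, h0])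

/-- The equation of the curve attached to `p`. -/
noncomputable def eqnT {V O : Type} (ι : O → V) (a b : ℤ) (p : O) : MvPolynomial (V ⊕ O) ℚ :=
  X (.inr p) ^ 2 - fc (a : MvPolynomial (V ⊕ O) ℚ) b (X (.inl (ι p)))

section eqn

variable {V O : Type} (ι : O → V) (a b : ℤ) (p : O)

lemma Q1Norm_isInt : IsInt (eqnT ι a b p) := by
  have h1 : ∀ z : ℤ, IsInt (z : MvPolynomial (V ⊕ O) ℚ) := fun z => by
    simpa using isInt_C (σ := V ⊕ O) z
  have h2 := isInt_X (σ := V ⊕ O) (.inr p)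
  have h3 := isInt_X (σ := V ⊕ O) (.inl (ι p))
  have := (h2.mul h2).add ((((h3.mul h3).mul h3).add ((h1 a).mul h3)).add (h1 b)).neg
  convert this using 1
  simp only [eqnT, fc]; ring

lemma Q1Norm_len : len (eqnT ι a b p) ≤ 2 + |(a : ℝ)| + |(b : ℝ)| := by
  have hX : ∀ q : V ⊕ O, (lenSN (V ⊕ O)).N (X q) ≤ 1 := fun q => (nrm_X q).le
  have h1 := (lenSN (V ⊕ O)).pow_le (hX (.inr p)) 2
  have h2 := (lenSN (V ⊕ O)).pow_le (hX (.inl (ι p))) 3
  have h3 := (lenSN (V ⊕ O)).int_mul_le a (hX (.inl (ι p)))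
  have h4 := (lenSN (V ⊕ O)).intCast_le b
  rw [E_neg_case not_false] at h3 h4
  have h5 := (lenSN (V ⊕ O)).add (X (.inl (ι p)) ^ 3) ((a : MvPolynomial _ ℚ) * X (.inl (ι p)))
  have h6 := (lenSN (V ⊕ O)).add (X (.inl (ι p)) ^ 3 + (a : MvPolynomial _ ℚ) * X (.inl (ι p))) b
  have h7 := (lenSN (V ⊕ O)).add (X (.inr p) ^ 2) (-fc (a : MvPolynomial _ ℚ) b (X (.inl (ι p))))
  rw [SN.neg, ← sub_eq_add_neg] at h7
  change (lenSN (V ⊕ O)).N _ ≤ _
  unfold eqnT
  unfold fc at h7 ⊢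
  linarith

lemma Q1Norm_degreeOf [DecidableEq V] [DecidableEq O] (q : V ⊕ O) : (eqnT ι a b p).degreeOf q ≤
    max (if q = .inr p then 2 else 0) (if q = .inl (ι p) then 3 else 0) := by
  have hC : ∀ z : ℤ, (z : MvPolynomial (V ⊕ O) ℚ).degreeOf q = 0 := fun z => by
    simpa using degreeOf_C (z : ℚ) q
  have hX : ∀ (q' : V ⊕ O) (n : ℕ), (X q' ^ n : MvPolynomial (V ⊕ O) ℚ).degreeOf q ≤
      if q = q' then n else 0 := fun q' n => by
    refine (degreeOf_pow_le _ _ _).trans ?_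
    rw [degreeOf_X]
    split_ifs <;> simp
  refine (degreeOf_sub_le _ _ _).trans (max_le_max (hX _ _) ?_)
  refine (degreeOf_add_le _ _ _).trans (max_le ((degreeOf_add_le _ _ _).trans
    (max_le (hX _ _) ?_)) (by simp [hC]))
  refine (degreeOf_mul_le _ _ _).trans ?_
  rw [hC, degreeOf_X]
  split_ifs <;> simp

end eqn

/- Sketch. As eqn_rel in P1Exit. -/
theorem eqnT_rel {V O S : Type} [CommRing S] [IsDomain S] [CharZero S] (ι : O → V) (a b : ℤ) (p : O)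
    (ev : MvPolynomial (V ⊕ O) ℚ →+* S) (w : V ⊕ O → ℝ) (ε : ℝ)
    (hw : w (.inl (ι p)) = w (.inr p))
    (hl : 2 + |(a : ℝ)| + |(b : ℝ)| ≤ Real.exp (ε * w (.inr p)))
    (h0 : ev (X (.inr p)) ^ 2 = fc (a : S) b (ev (X (.inl (ι p))))) (h1 : ev (X (.inr p)) ≠ 0) :
    Rel ev w ε 3 (.inr p) (eqnT ι a b p) := by
  classical
  refine ⟨Q1Norm_isInt ι a b p, fun μ hμ q => ?_, fun μ hμ q hq => ?_,
    (Q1Norm_len ι a b p).trans hl, ?_, ?_⟩
  · refine (monomial_le_degreeOf q hμ).trans ((Q1Norm_degreeOf ι a b p q).trans ?_)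
    split_ifs <;> simp
  · have h2 := (monomial_le_degreeOf q hμ).trans (Q1Norm_degreeOf ι a b p q)
    rw [if_neg, if_neg] at h2
    · simpa using h2
    · rintro rfl; exact lt_irrefl _ (hw ▸ hq)
    · rintro rfl; exact lt_irrefl _ hq
  · simp [eqnT, map_fc, h0]
  · have hz : ∀ z : ℤ, pderiv (.inr p) (z : MvPolynomial (V ⊕ O) ℚ) = 0 := fun z => by
      simp
    simpa [eqnT, fc, hz, pderiv_X, Pi.single_apply, map_ofNat] using h1

theorem eqnT_pairwise {V O : Type} [Fintype O] (ι : O → V) (a b : ℤ) :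
    ((univ : Finset O).toList.map (Sum.inr : O → V ⊕ O)).Pairwise fun q q' =>
      ∀ μ ∈ (Sum.elim (fun _ => 0) (eqnT ι a b) q').support, μ q = 0 := by
  classical
  rw [List.pairwise_map]
  refine (Finset.nodup_toList univ).imp fun {p p'} hne μ hμ => ?_
  have h2 := (monomial_le_degreeOf (.inr p) hμ).trans (Q1Norm_degreeOf ι a b p' (.inr p))
  simpa [hne] using h2

end Pool.Agent.Lib.MP_8865d3_nt.Gm
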