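import Pool.Agent.Lib.MP_8865d3_nt.FaDefs

/-! Reduction modulo the equations of the curves. -/

namespace Pool.Agent.Lib.MP_8865d3_nt.Fa

open MvPolynomial Finset Height Pool.Agent.Lib.Common.Subspace Pool.Agent.Lib.MP_e97e2b_nt
  Pool.Agent.Lib.MP_651af7_nt.Iv Pool.Agent.Lib.MP_651af7_nt.Vj

section red

variable {τ : Type} [Fintype τ] [DecidableEq τ]

/-- The cubic of the curve `p`. -/
noncomputable def redF (a b : τ → ℤ) (p : τ) : MvPolynomial (τ ⊕ τ) ℚ :=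
  X (Sum.inl p) ^ 3 + C (a p : ℚ) * X (Sum.inl p) + C (b p : ℚ)

/-- The reduced monomial. -/
noncomputable def redM (a b : τ → ℤ) (μ : (τ ⊕ τ) →₀ ℕ) : MvPolynomial (τ ⊕ τ) ℚ :=
  ∏ p, X (Sum.inl p) ^ μ (Sum.inl p) * X (Sum.inr p) ^ (μ (Sum.inr p) % 2) *
    redF a b p ^ (μ (Sum.inr p) / 2)

omit [Fintype τ] [DecidableEq τ] in
theorem red_il_F (a b : τ → ℤ) (p : τ) : IL (redF a b p) (1 + |(a p : ℝ)| + |(b p : ℝ)|) :=
  ((((il_X _).pow 3).add ((il_intCast _).mul (il_X _))).add (il_intCast _)).mono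
    (le_of_eq (by ring))

omit [Fintype τ] [DecidableEq τ] in
theorem red_wd_F (w : τ ⊕ τ → ℕ) (a b : τ → ℤ) (p : τ) :
    WD w (redF a b p) (3 * w (Sum.inl p)) :=
  (((wd_X w _).pow 3).add (((wd_C w _).mul (wd_X w _)).mono (by omega))).add
    ((wd_C w _).mono (Nat.zero_le _))

omit [DecidableEq τ] in
theorem red_il_M (a b : τ → ℤ) {Λ : ℝ} (hΛ1 : 1 ≤ Λ)
    (hΛ : ∀ p, 1 + |(a p : ℝ)| + |(b p : ℝ)| ≤ Λ) (μ : (τ ⊕ τ) →₀ ℕ) (D : τ → ℕ)
    (hD : ∀ p, μ (Sum.inr p) ≤ D p) : IL (redM a b μ) (Λ ^ (∑ p, D p)) := by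
  rw [← Finset.prod_pow_eq_pow_sum]
  refine il_prod _ fun p _ => ?_
  refine ((((il_X _).pow _).mul ((il_X _).pow _)).mul
    (((red_il_F a b p).mono (hΛ p)).pow _)).mono ?_
  rw [one_pow, one_pow, one_mul, one_mul]
  exact pow_le_pow_right₀ hΛ1 ((Nat.div_le_self _ _).trans (hD p))

omit [DecidableEq τ] in
theorem red_wd_M (w : τ ⊕ τ → ℕ) (a b : τ → ℤ) (μ : (τ ⊕ τ) →₀ ℕ) :
    WD w (redM a b μ) (∑ p, (μ (Sum.inl p) * w (Sum.inl p) + μ (Sum.inr p) % 2 * w (Sum.inr p) +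
      μ (Sum.inr p) / 2 * (3 * w (Sum.inl p)))) :=
  wd_prod _ fun p _ => (((wd_X w _).pow _).mul ((wd_X w _).pow _)).mul ((red_wd_F w a b p).pow _)

theorem red_weight (p : τ) (μ : (τ ⊕ τ) →₀ ℕ) :
    Finsupp.weight (wt p) μ = μ (Sum.inl p) + 2 * μ (Sum.inr p) := by
  rw [Finsupp.weight_apply, Finsupp.sum_fintype _ _ (by simp), Fintype.sum_sum_type]
  simp [wt, mul_comm]

omit [DecidableEq τ] in
theorem red_aeval (a b : τ → ℤ) (μ : (τ ⊕ τ) →₀ ℕ) {S : Type} [CommRing S] [Algebra ℚ S]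
    (x y : τ → S) (h : ∀ p, OnE (a p) (b p) (x p) (y p)) :
    aeval (Sum.elim x y) (redM a b μ) = aeval (Sum.elim x y) (monomial μ (1 : ℚ)) := by
  rw [aeval_monomial, map_one, one_mul, Finsupp.prod_fintype _ _ (by simp),
    Fintype.prod_sum_type, ← Finset.prod_mul_distrib, redM, map_prod]
  refine Finset.prod_congr rfl fun p _ => ?_
  have e : aeval (Sum.elim x y) (redF a b p) = y p ^ 2 := by
    rw [h p]
    simp [redF]
  rw [map_mul, map_mul, map_pow, map_pow, map_pow, e, aeval_X, aeval_X, ← pow_mul, mul_assoc,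
    Sum.elim_inl, Sum.elim_inr, ← pow_add, Nat.mod_add_div]

end red

/-- Replace each monomial `μ` by
`∏ p, X (inl p) ^ μ (inl p) * X (inr p) ^ (μ (inr p) % 2) * f p ^ (μ (inr p) / 2)`, `f p` the cubic.
The degree in one variable `s` is `WD (Pi.single s 1)` (`wd_single_iff`, `wd_prod`). -/
theorem exists_red {τ : Type} [Fintype τ] [DecidableEq τ] (a b : τ → ℤ) {Λ : ℝ} (hΛ1 : 1 ≤ Λ)
    (hΛ : ∀ p, 1 + |(a p : ℝ)| + |(b p : ℝ)| ≤ Λ) {P : MvPolynomial (τ ⊕ τ) ℚ} {T : ℝ}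
    (hP : IL P T) (D : τ → ℕ) (hD : ∀ p, WD (wt p) P (D p)) :
    ∃ P' : MvPolynomial (τ ⊕ τ) ℚ, IL P' (Λ ^ (∑ p, D p) * T) ∧
      (∀ μ ∈ P'.support, ∀ p, μ (Sum.inl p) ≤ D p ∧ μ (Sum.inr p) ≤ 1) ∧
      ∀ (S : Type) [CommRing S] [Algebra ℚ S] (x y : τ → S),
        (∀ p, OnE (a p) (b p) (x p) (y p)) →
        aeval (Sum.elim x y) P' = aeval (Sum.elim x y) P := by
  have hw : ∀ μ ∈ P.support, ∀ p, μ (Sum.inl p) + 2 * μ (Sum.inr p) ≤ D p := fun μ hμ p => by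
    rw [← red_weight]
    exact hD p μ hμ
  refine ⟨∑ μ ∈ P.support, C (coeff μ P) * redM a b μ, ?_, ?_, ?_⟩
  · refine (il_sum (t := fun μ => |((coeff μ P : ℚ) : ℝ)| * Λ ^ (∑ p, D p)) _
      fun μ hμ => ?_).mono ?_
    · obtain ⟨z, hz⟩ := hP.1 μ
      have h1 : IL (C (coeff μ P) : MvPolynomial (τ ⊕ τ) ℚ) |((coeff μ P : ℚ) : ℝ)| := by
        have h2 := il_intCast (σ := τ ⊕ τ) z
        have h3 : coeff μ P = (z : ℚ) := by simpa using hz
        rw [h3]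
        simpa using h2
      exact h1.mul (red_il_M a b hΛ1 hΛ μ D fun p => by have := hw μ hμ p; omega)
    · rw [← Finset.sum_mul, ← len_eq, mul_comm]
      exact mul_le_mul_of_nonneg_left hP.2 (by positivity)
  · intro ν hν p
    constructor
    · refine (wd_single_iff (Sum.inl p)).1 (wd_sum _ fun μ hμ => ?_) ν hν
      refine ((wd_C _ _).mul (red_wd_M _ a b μ)).mono ?_
      rw [zero_add, Finset.sum_eq_single p (fun q _ hq => by simp [hq]) (by simp)]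
      have := hw μ hμ p
      simp only [Pi.single_eq_same, ne_eq, reduceCtorEq, not_false_eq_true, Pi.single_eq_of_ne]
      omega
    · refine (wd_single_iff (Sum.inr p)).1 (wd_sum _ fun μ hμ => ?_) ν hν
      refine ((wd_C _ _).mul (red_wd_M _ a b μ)).mono ?_
      rw [zero_add, Finset.sum_eq_single p (fun q _ hq => by simp [hq]) (by simp)]
      simp only [Pi.single_eq_same, ne_eq, reduceCtorEq, not_false_eq_true, Pi.single_eq_of_ne]
      omega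
  · intro S _ _ x y h
    conv_rhs => rw [P.as_sum]
    rw [map_sum, map_sum]
    refine Finset.sum_congr rfl fun μ _ => ?_
    rw [map_mul, red_aeval a b μ x y h, ← map_mul, C_mul_monomial, mul_one]

end Pool.Agent.Lib.MP_8865d3_nt.Fa
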