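import Pool.Agent.Lib.MP_8865d3_nt.FaT4
import Pool.Agent.Lib.MP_651af7_nt.FinCore

/-! Two-sided local bounds on a product of two Weierstrass curves, and heights on blow-ups. -/

namespace Pool.Agent.Lib.MP_8865d3_nt.Fa

open MvPolynomial Finset Height Pool.Agent.Lib.MP_e97e2b_nt
  Pool.Agent.Lib.MP_651af7_nt.Iv Pool.Agent.Lib.MP_651af7_nt.Vj Pool.Agent.MP_651af7_nt.Final

variable {K : Type} [Field K] [NumberField K]

theorem fa_abs {κ : Type} [Fintype κ] (a b : κ → ℤ) (hD : ∀ k, 4 * a k ^ 3 + 27 * b k ^ 2 ≠ 0)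
    {v : AbsoluteValue K ℝ} (hv : Adm v) (g : MvPolynomial (κ ⊕ κ) K) {ε : ℝ} (hε : 0 < ε) :
    ∃ C : ℝ, ∀ X : Pts K a b, (∀ k, X k ≠ 0) →
      eval (Sum.elim (fun k => xc (X k)) fun k => yc (X k)) g ≠ 0 →
      |Real.log (v (eval (Sum.elim (fun k => xc (X k)) fun k => yc (X k)) g))| ≤ ε * HS X + C := by
  obtain ⟨C₁, h₁⟩ := fa_fixed a b hD hv g hε
  have hε' : 0 < ε / (2 * (g.totalDegree + 1)) := by positivity
  obtain ⟨C₂, h₂⟩ := siegel_pi a b hD hv hε'
  obtain ⟨C₃, h₃⟩ := siegel_y a b hD hv hε'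
  obtain ⟨c, -, -, hc⟩ := exists_poly_bound g
  refine ⟨max C₁ (c v + g.totalDegree * (C₂ + C₃)), fun X hX h0 => abs_le.2 ⟨?_, ?_⟩⟩
  · linarith [h₁ X hX h0, le_max_left C₁ (c v + g.totalDegree * (C₂ + C₃))]
  · set z : κ ⊕ κ → K := Sum.elim (fun k => xc (X k)) fun k => yc (X k) with hz
    have hp : ∀ s, 0 < max (v (z s)) 1 := fun s => max_pos' _
    have h4 := hc v z (∏ s, max (v (z s)) 1 ^ g.totalDegree) (by positivity) fun μ hμ => by
      have h5 : ∏ i ∈ μ.support, v (z i) ^ μ i = ∏ i, v (z i) ^ μ i :=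
        Finset.prod_subset (subset_univ _) fun i _ hi => by
          rw [Finsupp.notMem_support_iff.1 hi, pow_zero]
      rw [h5]
      exact Finset.prod_le_prod (fun _ _ => by positivity) fun i _ =>
        (pow_le_pow_left₀ (v.nonneg _) (le_max_left _ 1) _).trans (pow_le_pow_right₀
          (le_max_right _ _) ((monomial_le_degreeOf i hμ).trans (degreeOf_le_totalDegree g i)))
    have h5 := log_le_of_le_exp_mul (v.pos h0) (by positivity) h4
    rw [Real.log_prod (fun s _ => (pow_pos (hp s) _).ne')] at h5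
    simp only [Real.log_pow, ← Finset.mul_sum, Fintype.sum_sum_type, hz, Sum.elim_inl,
      Sum.elim_inr] at h5
    have h6 := mul_le_mul_of_nonneg_left (add_le_add (h₂ X) (h₃ X))
      (Nat.cast_nonneg (α := ℝ) g.totalDegree)
    have h7 : ε / (2 * (g.totalDegree + 1)) * (2 * (g.totalDegree + 1)) = ε :=
      div_mul_cancel₀ _ (by positivity)
    have h8 := mul_nonneg hε'.le (HS_nonneg X)
    have h9 : ε * HS X = ε / (2 * (g.totalDegree + 1)) * (2 * (g.totalDegree + 1)) * HS X := by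
      rw [h7]
    linarith [le_max_right C₁ (c v + g.totalDegree * (C₂ + C₃))]

open WeierstrassCurve in
theorem exists_short_inv (W : WeierstrassCurve ℚ) [W.IsElliptic] :
    ∃ (a b : ℤ) (C : ℝ) (φ : Fin 3 → MvPolynomial (Fin 2) K), 4 * a ^ 3 + 27 * b ^ 2 ≠ 0 ∧
      ∀ x y : K, (W.map (algebraMap ℚ K)).toAffine.Equation x y →
        ∃ P : Pt (a : K) (b : K), P ≠ 0 ∧ ht P ≤ logHeight₁ x + C ∧
          ∀ i, eval ![xc P, yc P] (φ i) = ![x, y, 1] i := by
  obtain ⟨a, b, u, hu, hD, ha, hb⟩ := exists_short W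
  set V := W.map (algebraMap ℚ K) with hV
  set z := algebraMap ℚ K u with hz
  have hz0 : z ≠ 0 := (map_ne_zero _).mpr hu
  have ha' : (a : K) = z ^ 4 * (-V.c₄ / 48) := by
    have := congrArg (algebraMap ℚ K) ha
    simpa [hV, hz] using this
  have hb' : (b : K) = z ^ 6 * (-V.c₆ / 864) := by
    have := congrArg (algebraMap ℚ K) hb
    simpa [hV, hz] using this
  refine ⟨a, b, totalWeight K * Real.log 2 + logHeight₁ (z ^ 2) + logHeight₁ (z ^ 2 * (V.b₂ / 12)),
    ![C (z ^ 2)⁻¹ * X 0 - C (V.b₂ / 12), C (z ^ 3)⁻¹ * X 1 -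
      C (V.a₁ / 2) * (C (z ^ 2)⁻¹ * X 0 - C (V.b₂ / 12)) - C (V.a₃ / 2), 1], hD, fun x y he => ?_⟩
  have he' := (V.toAffine.equation_iff x y).mp he
  have h1 : NS (a : K) (b : K) (z ^ 2 * x + z ^ 2 * (V.b₂ / 12))
      (z ^ 3 * (y + (V.a₁ * x + V.a₃) / 2)) := by
    refine ns_of_eq two_ne_zero (by exact_mod_cast hD) ?_
    rw [ha', hb']
    simp only [c₄, c₆, b₂, b₄, b₆]
    linear_combination z ^ 6 * he'
  refine ⟨pt _ _ h1, pt_ne_zero _, ?_, fun i => ?_⟩
  · have h2 := logHeight₁_add_le (z ^ 2 * x) (z ^ 2 * (V.b₂ / 12))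
    have h3 := logHeight₁_mul_le (z ^ 2) x
    rw [ht, xc_pt]
    linarith
  · fin_cases i
    · simp
      field_simp
      ring
    · simp
      field_simp
      ring
    · simp

omit [NumberField K] in
theorem fin_eval_aeval {σ τ : Type*} (z : τ → K) (ψ : σ → MvPolynomial τ K)
    (g : MvPolynomial σ K) : eval z (aeval ψ g) = eval (fun i => eval z (ψ i)) g := by
  induction g using MvPolynomial.induction_on with
  | C c => simp
  | add p q hp hq => simp only [map_add, hp, hq]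
  | mul_X p i hp => simp only [map_mul, hp, aeval_X, eval_X]

theorem fa_weier (W W' : WeierstrassCurve ℚ) [W.IsElliptic] [W'.IsElliptic]
    {v : AbsoluteValue K ℝ} (hv : Adm v) (g : MvPolynomial (Fin 3 ⊕ Fin 3) K) {ε : ℝ}
    (hε : 0 < ε) : ∃ C : ℝ, ∀ x y x' y' : K, (W.map (algebraMap ℚ K)).toAffine.Equation x y →
      (W'.map (algebraMap ℚ K)).toAffine.Equation x' y' →
      eval (Sum.elim ![x, y, 1] ![x', y', 1]) g ≠ 0 →
      |Real.log (v (eval (Sum.elim ![x, y, 1] ![x', y', 1]) g))| ≤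
        ε * (logHeight₁ x + logHeight₁ x') + C := by
  obtain ⟨a, b, C, φ, hD, h⟩ := exists_short_inv (K := K) W
  obtain ⟨a', b', C', φ', hD', h'⟩ := exists_short_inv (K := K) W'
  let ψ : Fin 3 ⊕ Fin 3 → MvPolynomial (Bool ⊕ Bool) K :=
    Sum.elim (fun i => rename ![Sum.inl true, Sum.inr true] (φ i))
      fun i => rename ![Sum.inl false, Sum.inr false] (φ' i)
  obtain ⟨C₁, h₁⟩ := fa_abs (fun k : Bool => cond k a a') (fun k => cond k b b')
    (fun k => by cases k; exacts [hD', hD]) hv (aeval ψ g) hε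
  refine ⟨ε * (C + C') + C₁, fun x y x' y' he he' h0 => ?_⟩
  obtain ⟨P, p1, p2, p3⟩ := h x y he
  obtain ⟨Q, q1, q2, q3⟩ := h' x' y' he'
  let Z : Pts K (fun k : Bool => cond k a a') (fun k => cond k b b') := fun k =>
    Bool.rec (motive := fun k => Pt ((cond k a a' : ℤ) : K) ((cond k b b' : ℤ) : K)) Q P k
  have e : eval (Sum.elim (fun k => xc (Z k)) fun k => yc (Z k)) (aeval ψ g) =
      eval (Sum.elim ![x, y, 1] ![x', y', 1]) g := by
    rw [fin_eval_aeval]
    refine congrArg (fun z => eval z g) (funext ?_)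
    rintro (i | i)
    · rw [Sum.elim_inl, ← p3 i]
      refine (eval_rename _ _ _).trans (congrArg (fun z => eval z (φ i)) (funext fun j => ?_))
      fin_cases j <;> rfl
    · rw [Sum.elim_inr, ← q3 i]
      refine (eval_rename _ _ _).trans (congrArg (fun z => eval z (φ' i)) (funext fun j => ?_))
      fin_cases j <;> rfl
  have h2 := h₁ Z (fun k => by cases k; exacts [q1, p1]) (e ▸ h0)
  have h3 : HS Z = ht P + ht Q := Fintype.sum_bool _
  rw [e, h3] at h2
  have h4 := mul_le_mul_of_nonneg_left (add_le_add p2 q2) hε.le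
  linarith

theorem fa_sup (W W' : WeierstrassCurve ℚ) [W.IsElliptic] [W'.IsElliptic]
    {v : AbsoluteValue K ℝ} (hv : Adm v) {ι : Type*} [Fintype ι]
    (g : ι → MvPolynomial (Fin 3 ⊕ Fin 3) K) {ε : ℝ} (hε : 0 < ε) :
    ∃ C : ℝ, ∀ x y x' y' : K, (W.map (algebraMap ℚ K)).toAffine.Equation x y →
      (W'.map (algebraMap ℚ K)).toAffine.Equation x' y' →
      (fun i => eval (Sum.elim ![x, y, 1] ![x', y', 1]) (g i)) ≠ 0 →
      |Real.log (⨆ i, v (eval (Sum.elim ![x, y, 1] ![x', y', 1]) (g i)))| ≤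
        ε * (logHeight₁ x + logHeight₁ x') + C := by
  choose C hC using fun i => fa_weier W W' hv (g i) hε
  refine ⟨∑ i, |C i|, fun x y x' y' he he' h0 => ?_⟩
  have : Nonempty ι := by
    by_contra hι
    exact h0 (funext fun i => absurd ⟨i⟩ hι)
  obtain ⟨i, hi⟩ := exists_nm_eq (fun i => eval (Sum.elim ![x, y, 1] ![x', y', 1]) (g i)) v
  have h1 := nm_pos h0 v
  rw [← hi] at h1
  have h2 := hC i x y x' y' he he' fun h => by simp [h] at h1
  rw [hi] at h2
  have h3 := Finset.single_le_sum (f := fun i => |C i|) (fun _ _ => abs_nonneg _) (mem_univ i)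
  exact h2.trans (by linarith [le_abs_self (C i)])

omit [NumberField K] in
theorem homog_aeval {σ τ M N : Type*} [AddCommMonoid M] [AddCommMonoid N] {w : σ → M} {w' : τ → N}
    (f : M →+ N) {g : σ → MvPolynomial τ K} (hg : ∀ s, (g s).IsWeightedHomogeneous w' (f (w s)))
    {p : MvPolynomial σ K} {n : M} (hp : p.IsWeightedHomogeneous w n) :
    (aeval g p).IsWeightedHomogeneous w' (f n) := by
  rw [p.as_sum, map_sum]
  refine IsWeightedHomogeneous.sum _ _ _ fun μ hμ => ?_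
  rw [aeval_monomial, ← hp (mem_support_iff.1 hμ), Finsupp.weight_apply, Finsupp.sum, map_sum,
    Finsupp.prod]
  refine IsWeightedHomogeneous.C_mul (IsWeightedHomogeneous.prod _ _ _ fun s _ => ?_) _
  rw [map_nsmul]
  exact (hg s).pow _

theorem height_forms_le {ι : Type*} [Fintype ι] {G : ι → MvPolynomial (Fin 3 ⊕ Fin 3) K}
    {d d' : ℕ} (hG : ∀ j, (G j).IsWeightedHomogeneous bw (d, d')) :
    ∃ C : ℝ, ∀ P Q : Fin 3 → K, P ≠ 0 → Q ≠ 0 → (fun j => eval (Sum.elim P Q) (G j)) ≠ 0 →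
      logHeight (fun j => eval (Sum.elim P Q) (G j)) ≤ d * logHeight P + d' * logHeight Q + C := by
  obtain ⟨c, c1, c2, c3⟩ := exists_unif (α := ι) (P := fun j v t => ∀ P Q : Fin 3 → K,
      v (eval (Sum.elim P Q) (G j)) ≤ Real.exp t * (nm P v ^ d * nm Q v ^ d'))
    (fun j v t t' ht h P Q => (h P Q).trans (mul_le_mul_of_nonneg_right (Real.exp_le_exp.2 ht)
      (mul_nonneg (pow_nonneg ((v.nonneg _).trans (le_nm P v 0)) _)
        (pow_nonneg ((v.nonneg _).trans (le_nm Q v 0)) _))))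
    fun j => by
      obtain ⟨c, c1, c2, c3⟩ := exists_poly_bound (G j)
      exact ⟨c, c1, c2, fun v P Q => c3 v _ _
        (mul_nonneg (pow_nonneg ((v.nonneg _).trans (le_nm P v 0)) _)
          (pow_nonneg ((v.nonneg _).trans (le_nm Q v 0)) _)) (monomial_le_bw (hG j) v P Q)⟩
  refine ⟨Gl c, fun P Q hP hQ h0 => ?_⟩
  have : Nonempty ι := by
    by_contra hι
    exact h0 (funext fun i => absurd ⟨i⟩ hι)
  have f1 := (FS_ln hP).const_mul d
  have f2 := (FS_ln hQ).const_mul d'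
  rw [← Gl_ln h0, ← Gl_ln hP, ← Gl_ln hQ, ← Gl_const_mul, ← Gl_const_mul, ← Gl_add f1 f2,
    ← Gl_add (f1.add f2) c1]
  refine Gl_mono (FS_ln h0) ((f1.add f2).add c1) fun v => ?_
  have h1 := log_le_of_le_exp_mul (nm_pos h0 v)
    (mul_pos (pow_pos (nm_pos hP v) d) (pow_pos (nm_pos hQ v) d')) (nm_le fun j => c3 j v P Q)
  rw [Real.log_mul (pow_pos (nm_pos hP v) d).ne' (pow_pos (nm_pos hQ v) d').ne', Real.log_pow,
    Real.log_pow] at h1
  simp only [ln]
  linarith

end Pool.Agent.Lib.MP_8865d3_nt.Fa
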