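import Pool.Agent.Lib.MP_8865d3_nt.GmCells
import Pool.Agent.Lib.MP_651af7_nt.FinGl

/-! The counting function under finite extensions and its relation to sums over all places. -/

namespace Pool.Agent.Lib.MP_8865d3_nt.Gm

open Height NumberField Finset IsDedekindDomain Pool.Agent.MP_651af7_nt.Final

variable {k L : Type} [Field k] [NumberField k] [Field L] [NumberField L] [Algebra k L]

variable (k) in
/-- The place of `k` below a finite place of `L`. -/
noncomputable def und (w : FinitePlace L) : FinitePlace k :=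
  FinitePlace.mk (w.maximalIdeal.under (𝓞 k))

variable (k) in
/-- The local degree. -/
noncomputable def ldeg (P : Ideal (𝓞 L)) : ℕ :=
  (P.under (𝓞 k)).ramificationIdx' P * (P.under (𝓞 k)).inertiaDeg' P

lemma log_und (w : FinitePlace L) {x : k} (hx : x ≠ 0) :
    Real.log (w (algebraMap k L x)) = ldeg k w.maximalIdeal.asIdeal * Real.log (und k w x) := by
  set P := w.maximalIdeal
  set p := P.under (𝓞 k)
  have : P.asIdeal.LiesOver p.asIdeal := ⟨rfl⟩
  have h1 := HeightOneSpectrum.valuation_liesOver L p P x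
  have h2 := Ideal.absNorm_eq_pow_inertiaDeg'_of_liesOver P.asIdeal p.asIdeal p.isPrime p.ne_bot
  have h3 : p.valuation k x ≠ 0 := (Valuation.ne_zero_iff _).2 hx
  obtain ⟨m, hm⟩ : ∃ m : ℤ, p.valuation k x = WithZero.exp m := ⟨_, (WithZero.exp_log h3).symm⟩
  have h4 : ∀ (e : NNReal) (he : e ≠ 0) (n : ℤ),
      WithZeroMulInt.toNNReal he (WithZero.exp n) = e ^ n := fun e he n => by
    rw [WithZeroMulInt.toNNReal_neg_apply he WithZero.exp_ne_zero]
    rfl
  rw [← FinitePlace.norm_embedding_eq, und, FinitePlace.mk_apply, FinitePlace.norm_embedding,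
    FinitePlace.norm_embedding, NumberField.HeightOneSpectrum.adicAbv_def,
    NumberField.HeightOneSpectrum.adicAbv_def, ← h1, hm, ← WithZero.exp_nsmul, h4, h4, h2]
  push_cast
  rw [Real.log_zpow, Real.log_zpow, Real.log_pow, ldeg]
  push_cast [nsmul_eq_mul]
  change _ = (p.asIdeal.ramificationIdx' P.asIdeal : ℝ) * (p.asIdeal.inertiaDeg' P.asIdeal) * _
  ring

variable (L) in
lemma exists_fib (v : FinitePlace k) : ∃ F : Finset (FinitePlace L), (∀ w, w ∈ F ↔ und k w = v) ∧
    ∑ w ∈ F, ldeg k w.maximalIdeal.asIdeal ≤ Module.finrank k L := by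
  classical
  have inj : Function.Injective fun w : FinitePlace L => w.maximalIdeal.asIdeal :=
    HeightOneSpectrum.asIdeal_injective.comp FinitePlace.maximalIdeal_injective
  have := v.maximalIdeal.isMaximal
  have mem : ∀ w : FinitePlace L, w.maximalIdeal.asIdeal ∈
      IsDedekindDomain.primesOverFinset v.maximalIdeal.asIdeal (𝓞 L) ↔ und k w = v := fun w => by
    rw [IsDedekindDomain.mem_primesOverFinset_iff v.maximalIdeal.ne_bot,
      ← FinitePlace.maximalIdeal_inj, und,
      FinitePlace.maximalIdeal_mk]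
    exact ⟨fun h => HeightOneSpectrum.ext h.2.1.symm,
      fun h => ⟨w.maximalIdeal.isPrime, ⟨(congrArg HeightOneSpectrum.asIdeal h).symm⟩⟩⟩
  refine ⟨(IsDedekindDomain.primesOverFinset v.maximalIdeal.asIdeal (𝓞 L)).preimage _ inj.injOn,
    fun w => mem_preimage.trans (mem w), ?_⟩
  rw [← Ideal.sum_ramification_inertia (𝓞 L) k L v.maximalIdeal.ne_bot]
  rw [← sum_image (f := ldeg k) inj.injOn]
  refine (sum_le_sum_of_subset (t := IsDedekindDomain.primesOverFinset v.maximalIdeal.asIdeal
    (𝓞 L)) fun P hP => ?_).trans (sum_le_sum fun P hP => le_of_eq ?_)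
  · obtain ⟨w, hw, rfl⟩ := mem_image.1 hP
    rwa [mem_preimage] at hw
  · rw [ldeg, ← ((IsDedekindDomain.mem_primesOverFinset_iff v.maximalIdeal.ne_bot _).1 hP).2.1]

variable (L) in
theorem cnt_ext (S : Finset (FinitePlace k)) : ∃ S' : Finset (FinitePlace L), ∀ u : k, u ≠ 0 →
    cnt S' (algebraMap k L u) ≤ Module.finrank k L * cnt S u := by
  classical
  choose F hF hs using exists_fib (k := k) L
  refine ⟨S.biUnion F, fun u hu => ?_⟩
  obtain ⟨T, hT⟩ := exists_supp hu
  have hT' : ∀ w, w ∉ T.biUnion F → w (algebraMap k L u) = 1 := fun w hw => by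
    have h1 := log_und w hu
    rw [hT _ fun h => hw (mem_biUnion.2 ⟨_, h, (hF _ _).2 rfl⟩), Real.log_one, mul_zero] at h1
    exact Real.eq_one_of_pos_of_log_eq_zero (FinitePlace.pos_iff.2 ((map_ne_zero _).2 hu)) h1
  rw [cnt_eq _ hT', cnt_eq _ hT, mul_sum]
  refine (sum_le_sum_of_subset_of_nonneg (t := (T \ S).biUnion F) (fun w hw => ?_)
    fun _ _ _ => abs_nonneg _).trans ?_
  · simp only [mem_sdiff, mem_biUnion, hF, exists_eq_right'] at hw ⊢
    exact hw
  · rw [sum_biUnion fun v _ v' _ h => disjoint_left.2 fun w h1 h2 =>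
      h (((hF _ _).1 h1).symm.trans ((hF _ _).1 h2))]
    refine sum_le_sum fun v _ => ?_
    rw [sum_congr rfl fun w hw => by rw [log_und w hu, (hF _ _).1 hw, abs_mul, Nat.abs_cast],
      ← sum_mul]
    exact mul_le_mul_of_nonneg_right (by exact_mod_cast hs v) (abs_nonneg _)

lemma Gl_eq (f : AbsoluteValue k ℝ → ℝ) :
    Gl f = ∑ w : InfinitePlace k, w.mult * f w.1 + ∑ᶠ v : FinitePlace k, f v.1 := by
  simp only [Gl, sum_archAbsVal_eq, nsmul_eq_mul]
  rfl

omit [NumberField k] in
lemma lp_add_lp_inv {u : k} (hu : u ≠ 0) (v : AbsoluteValue k ℝ) :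
    lp u v + lp u⁻¹ v = |Real.log (v u)| := by
  have h0 := v.pos hu
  simp only [MP_651af7_nt.Final.lp, map_inv₀]
  rcases le_total (v u) 1 with h | h
  · rw [max_eq_right h, max_eq_left ((one_le_inv₀ h0).2 h), abs_of_nonpos (Real.log_nonpos h0.le h)]
    simp
  · rw [max_eq_left h, max_eq_right (inv_le_one_of_one_le₀ h), abs_of_nonneg (Real.log_nonneg h)]
    simp

theorem Gl_min_le (S : Finset (FinitePlace k)) (x : k) {u : k} (hu : u ≠ 0) :
    Gl (fun v => min (lp x v) (lp u v + lp u⁻¹ v)) ≤ prox S x + cnt S u := by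
  classical
  obtain ⟨T, hT⟩ := exists_supp hu
  have h1 : ∀ v, v ∉ T ∪ S → v u = 1 := fun v hv => hT v fun h => hv (mem_union_left _ h)
  rw [Gl_eq, prox, cnt_eq S h1, add_assoc, finsum_eq_sum_of_support_subset _ (s := T ∪ S)
    fun v hv => by
      by_contra h
      refine hv ?_
      have h2 : v.1 u = 1 := h1 v h
      simp only [lp_add_lp_inv hu, h2, Real.log_one, abs_zero]
      exact min_eq_right (lp_nonneg _ _), ← sum_sdiff (subset_union_right (s₁ := T) (s₂ := S)),
    add_comm (∑ v ∈ S, _)]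
  refine add_le_add (sum_le_sum fun w _ => mul_le_mul_of_nonneg_left (min_le_left _ _)
    (Nat.cast_nonneg _)) (add_le_add (sum_le_sum fun v _ => ?_) (sum_le_sum fun v _ =>
      min_le_left _ _))
  rw [lp_add_lp_inv hu]
  exact min_le_right _ _

end Pool.Agent.Lib.MP_8865d3_nt.Gm
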