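import Pool.Agent.Lib.MP_8865d3_nt.FaT3

/-! The approximation theorem for a fixed divisor. -/

namespace Pool.Agent.Lib.MP_8865d3_nt.Fa

open MvPolynomial Finset Height Pool.Agent.Lib.Common.Subspace Pool.Agent.Lib.MP_e97e2b_nt
  Pool.Agent.Lib.MP_651af7_nt.Iv Pool.Agent.Lib.MP_651af7_nt.Vj

variable {K κ : Type} [Field K] [NumberField K] [Fintype κ]

open Pool.Agent.Lib.Common.ZeroLemma

theorem faT4_wd_X {σ : Type} [DecidableEq σ] {s t : σ} (h : s ≠ t) :
    WD (Pi.single s 1) (X t : MvPolynomial σ ℚ) 0 := by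
  have := wd_X (Pi.single s 1) t
  rwa [Pi.single_eq_of_ne' h] at this

theorem faT4_uni {σ : Type} [DecidableEq σ] (t : σ) (p : Polynomial ℤ) :
    IsInt (Polynomial.aeval (X t : MvPolynomial σ ℚ) (p.map (Int.castRingHom ℚ))) ∧
      ∀ s, s ≠ t → WD (Pi.single s 1)
        (Polynomial.aeval (X t : MvPolynomial σ ℚ) (p.map (Int.castRingHom ℚ))) 0 := by
  induction p using Polynomial.induction_on' with
  | add p q hp hq =>
    rw [Polynomial.map_add, map_add]
    exact ⟨hp.1.add hq.1, fun s hs => (hp.2 s hs).add (hq.2 s hs)⟩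
  | monomial n c =>
    rw [Polynomial.map_monomial, Polynomial.aeval_monomial, algebraMap_eq, eq_intCast]
    refine ⟨((il_intCast c).mul ((il_X t).pow n)).1, fun s hs => ?_⟩
    simpa using (wd_C _ (c : ℚ)).mul ((faT4_wd_X hs).pow n)

theorem faT4_el {σ L : Type} [DecidableEq σ] [Field L] [CharZero L] (t : σ) (z : σ → L)
    {p : Polynomial ℤ} (hp : p ≠ 0) :
    (elToP t (Polynomial.aeval (X t : MvPolynomial σ ℚ) (p.map (Int.castRingHom ℚ)))).map
      (aeval z : MvPolynomial σ ℚ →ₐ[ℚ] L).toRingHom ≠ 0 := by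
  rw [← Polynomial.aeval_algHom_apply, elToP, aeval_X, if_pos rfl, Polynomial.aeval_X_left_eq_map,
    Polynomial.map_map, Polynomial.map_map]
  exact (Polynomial.map_ne_zero_iff (RingHom.injective_int _)).2 hp

/-- `Nrm.y_le` for `Loc.nv ⟨v, 1, Or.inl rfl⟩`, `onE_pt`, `siegel_pi`. -/
theorem siegel_y (a b : κ → ℤ) (hD : ∀ k, 4 * a k ^ 3 + 27 * b k ^ 2 ≠ 0) {v : AbsoluteValue K ℝ}
    (hv : Adm v) {η : ℝ} (hη : 0 < η) :
    ∃ C : ℝ, ∀ X : Pts K a b, ∑ k, Real.log (max (v (yc (X k))) 1) ≤ η * HS X + C := by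
  obtain ⟨C, hC⟩ := siegel_pi a b hD hv (half_pos hη)
  refine ⟨∑ k, Real.log (3 * max (max (v (a k : K)) (v (b k : K))) 1) + 2 * C, fun X => ?_⟩
  have h : ∀ k, Real.log (max (v (yc (X k))) 1) ≤
      Real.log (3 * max (max (v (a k : K)) (v (b k : K))) 1) +
        2 * Real.log (max (v (xc (X k))) 1) := fun k => by
    have hA : 1 ≤ max (max (v (a k : K)) (v (b k : K))) 1 := le_max_right _ _
    have hM : 1 ≤ max (v (xc (X k))) 1 := le_max_right _ _
    have h1 : 1 ≤ 3 * max (max (v (a k : K)) (v (b k : K))) 1 * max (v (xc (X k))) 1 ^ 2 :=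
      one_le_mul_of_one_le_of_one_le (by linarith) (one_le_pow₀ hM)
    have h2 : v (yc (X k)) ≤
        3 * max (max (v (a k : K)) (v (b k : K))) 1 * max (v (xc (X k))) 1 ^ 2 := by
      by_cases h0 : X k = 0
      · rw [h0, yc_zero, map_zero]
        positivity
      · have := (Loc.nv ⟨v, 1, Or.inl rfl⟩).y_le (onE_pt h0) (v.map_pow _ _) hA hM
          ((le_max_left _ _).trans (le_max_left _ _)) ((le_max_right _ _).trans (le_max_left _ _))
          (le_max_left _ _)
        simpa only [Loc.nv, pow_one] using this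
    refine (Real.log_le_log (by positivity) (max_le h2 h1)).trans_eq ?_
    rw [Real.log_mul (by positivity) (by positivity), Real.log_pow, Nat.cast_ofNat]
  have h3 := Finset.sum_le_sum fun k (_ : k ∈ Finset.univ) => h k
  rw [Finset.sum_add_distrib, ← Finset.mul_sum] at h3
  linarith [hC X]

/-- Variables `σ = (κ ⊕ κ) ⊕ g.support`, `G = ∑ μ : g.support, X (inr μ) * rename inl (monomial μ 1)`,
`z = (x, y, coefficients)`.  Eliminate the variables `inl (inr k)` with `y ^ 2 - cubic` (the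
coefficient of index `2` of `elToP` is `1`) and `inr μ` with an integer polynomial in one variable
that vanishes at the coefficient (`small_of_low` or directly) by `elim_list_small`;
`exists_rename_small`, `fa_moving` with `H = max (HS X) H₁`, `siegel_pi`, `siegel_y`. -/
theorem fa_fixed (a b : κ → ℤ) (hD : ∀ k, 4 * a k ^ 3 + 27 * b k ^ 2 ≠ 0) {v : AbsoluteValue K ℝ}
    (hv : Adm v) (g : MvPolynomial (κ ⊕ κ) K) {ε : ℝ} (hε : 0 < ε) :
    ∃ C : ℝ, ∀ X : Pts K a b, (∀ k, X k ≠ 0) →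
      eval (Sum.elim (fun k => xc (X k)) fun k => yc (X k)) g ≠ 0 →
      -Real.log (v (eval (Sum.elim (fun k => xc (X k)) fun k => yc (X k)) g)) ≤ ε * HS X + C := by
  classical
  choose p hp0 hp using fun μ : g.support =>
    (IsFractionRing.isAlgebraic_iff ℤ ℚ K).2 (Algebra.IsAlgebraic.isAlgebraic (coeff μ.1 g))
  let e : κ → (κ ⊕ κ) ⊕ g.support := fun k => Sum.inl (Sum.inl k)
  have he : Function.Injective e := fun k k' h => Sum.inl_injective (Sum.inl_injective h)
  let φ : (κ ⊕ κ) ⊕ g.support → MvPolynomial ((κ ⊕ κ) ⊕ g.support) ℚ :=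
    Sum.elim (Sum.elim (fun _ => 0) fun k => MvPolynomial.X (Sum.inl (Sum.inr k)) ^ 2 -
      (MvPolynomial.X (e k) ^ 3 + C (a k : ℚ) * MvPolynomial.X (e k) + C (b k : ℚ)))
      fun μ => Polynomial.aeval (MvPolynomial.X (Sum.inr μ)) ((p μ).map (Int.castRingHom ℚ))
  let l := (Finset.univ.filter fun s => s ∉ Set.range e).toList
  have hl : ∀ s, s ∈ l ↔ s ∉ Set.range e := fun s => by
    simp only [l, Finset.mem_toList, Finset.mem_filter, Finset.mem_univ, true_and]
  have hpair : l.Pairwise fun s t => ∀ μ ∈ (φ t).support, μ s = 0 := by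
    refine (Finset.nodup_toList _).pairwise_of_forall_ne fun s hs t _ hst μ hμ => ?_
    refine Nat.le_zero.1 ((wd_single_iff s).1 ?_ μ hμ)
    rcases t with (k | k) | ν
    · exact wd_zero _ _
    · have h1 := faT4_wd_X hst
      have h2 := faT4_wd_X (s := s) (t := e k) fun h => (hl s).1 hs ⟨k, h.symm⟩
      exact (h1.pow 2).sub (((h2.pow 3).add ((wd_C _ _).mul h2)).add (wd_C _ _))
    · exact (faT4_uni _ (p ν)).2 s hst
  have hint : ∀ t ∈ l, IsInt (φ t) := by
    rintro ((k | k) | ν) _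
    · exact isInt_zero
    · exact (((il_X _).pow 2).sub ((((il_X _).pow 3).add ((il_intCast _).mul (il_X _))).add
        (il_intCast _))).1
    · exact (faT4_uni _ (p ν)).1
  let G : MvPolynomial ((κ ⊕ κ) ⊕ g.support) ℚ :=
    ∑ μ : g.support, MvPolynomial.X (Sum.inr μ) * rename Sum.inl (monomial μ.1 1)
  have hG : IsInt G :=
    (il_sum _ fun μ _ => (il_X _).mul ((il_monomial_one μ.1).rename Sum.inl)).1
  obtain ⟨B, c, hB⟩ := elim_list_small (K := K) φ l hpair hint G.totalDegree (len G)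
  obtain ⟨δ, H₀, hδ, hmov⟩ := fa_moving hv _ κ rfl a b hD (ε / 2) (half_pos hε) B
  have hη : 0 < ε / (4 * (B + 1)) := by positivity
  obtain ⟨C₁, hC₁⟩ := siegel_pi a b hD hv hη
  obtain ⟨C₂, hC₂⟩ := siegel_y a b hD hv hη
  refine ⟨ε / 2 * max (max H₀ (c / δ)) 0 + c +
    B * (C₁ + C₂ + ∑ μ : g.support, Real.log (max (v (coeff μ.1 g)) 1)), fun X hX hne => ?_⟩
  let z : (κ ⊕ κ) ⊕ g.support → K :=
    Sum.elim (Sum.elim (fun k => xc (X k)) fun k => yc (X k)) fun μ => coeff μ.1 g
  have hz : aeval z G = eval (Sum.elim (fun k => xc (X k)) fun k => yc (X k)) g := by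
    rw [eval_eq, ← Finset.sum_coe_sort g.support, map_sum]
    refine Finset.sum_congr rfl fun μ _ => ?_
    rw [map_mul, aeval_X, aeval_rename, aeval_monomial, map_one, one_mul]
    rfl
  rw [← hz] at hne ⊢
  obtain ⟨N, hN, hN0, hNl, hNv⟩ := hB v z (by
    rintro ((k | k) | ν) ht
    · exact absurd ⟨k, rfl⟩ ((hl _).1 ht)
    · refine ⟨?_, fun h => ?_⟩
      · have := onE_pt (hX k)
        simp only [φ, z, e, Sum.elim_inl, Sum.elim_inr, map_sub, map_add, map_mul, map_pow, aeval_X,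
          map_intCast]
        exact sub_eq_zero.2 this
      · have h2 := faT4_wd_X (s := Sum.inl (Sum.inr k)) (t := e k) (by simp [e])
        have h3 := el_toP_free (Sum.inl (Sum.inr k)) fun μ hμ => Nat.le_zero.1 ((wd_single_iff _).1
          (((h2.pow 3).add ((wd_C _ (a k : ℚ)).mul h2)).add (wd_C _ (b k : ℚ))) μ hμ)
        simp only [φ, Sum.elim_inl, Sum.elim_inr] at h
        rw [map_sub, h3, map_pow, elToP, aeval_X, if_pos rfl, Polynomial.map_sub, Polynomial.map_pow,
          Polynomial.map_X, Polynomial.map_C] at h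
        exact Polynomial.X_pow_sub_C_ne_zero two_pos _ h
    · refine ⟨?_, ?_⟩
      · simp only [φ, Sum.elim_inr]
        rw [← Polynomial.aeval_algHom_apply, aeval_X, ← algebraMap_int_eq,
          Polynomial.aeval_map_algebraMap]
        exact hp ν
      · exact faT4_el _ z (hp0 ν)) G
    ⟨fun h => hne (by rw [h, map_zero]), ⟨hG, by linarith [Real.add_one_le_exp (len G)]⟩,
      fun μ hμ s => (monomial_le_degreeOf s hμ).trans (degreeOf_le_totalDegree _ _)⟩ hne
  obtain ⟨N', hN', rfl⟩ := exists_rename_small he hN fun μ hμ s hs => hNl s ((hl s).2 hs) μ hμ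
  rw [aeval_rename] at hN0 hNv
  have hH := HS_nonneg X
  have m1 : H₀ ≤ max (max H₀ (c / δ)) 0 := (le_max_left _ _).trans (le_max_left _ _)
  have m2 : c / δ ≤ max (max H₀ (c / δ)) 0 := (le_max_right _ _).trans (le_max_left _ _)
  have m3 : 0 ≤ max (max H₀ (c / δ)) 0 := le_max_right _ _
  generalize max (max H₀ (c / δ)) 0 = H₁ at m1 m2 m3 ⊢
  have h1 := (hmov (HS X + H₁) X N' (by linarith) (by linarith) (hN'.mono le_rfl (by
    rw [div_le_iff₀ hδ] at m2
    nlinarith)) hN0).trans hNv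
  have hpos : ∀ s, 0 < max (v (z s)) 1 := fun s => lt_max_of_lt_right one_pos
  have h2 := Real.log_le_log (Real.exp_pos _) h1
  rw [Real.log_exp, Real.log_mul (mul_pos (v.pos hne) (Real.exp_pos _)).ne'
    (Finset.prod_pos fun s _ => pow_pos (hpos s) _).ne', Real.log_mul (v.pos hne).ne'
    (Real.exp_pos _).ne', Real.log_exp, Real.log_prod fun s _ => (pow_pos (hpos s) _).ne'] at h2
  simp only [Real.log_pow, ← Finset.mul_sum, Fintype.sum_sum_type, z, Sum.elim_inl,
    Sum.elim_inr] at h2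
  have hB0 : (0 : ℝ) ≤ B := Nat.cast_nonneg B
  have h3 := mul_le_mul_of_nonneg_left (add_le_add (hC₁ X) (hC₂ X)) hB0
  have h4 : B * (ε / (4 * (B + 1))) ≤ ε / 4 := by
    rw [← mul_div_assoc, div_le_div_iff₀ (by positivity) (by norm_num)]
    nlinarith
  have h5 := mul_le_mul_of_nonneg_right h4 hH
  nlinarith

end Pool.Agent.Lib.MP_8865d3_nt.Fa
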