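import Pool.Agent.Lib.MP_8865d3_nt.Tri

/-! The valuative criterion deduced from local integrability. -/

namespace Pool.Agent.Lib.MP_8865d3_nt

open Finset Matrix MvPolynomial Filter Topology MeasureTheory

section Scale

variable {τ : Type} [Fintype τ]

/-- All monomials of `P` have weight at least `ν`. -/
def Low (W : τ → ℝ) (ν : ℝ) (P : MvPolynomial τ ℤ) : Prop :=
  ∀ μ ∈ P.support, ν ≤ Finsupp.weight W μ

/-- The least weight of a monomial of `P` is `ν`. -/
def Att (W : τ → ℝ) (ν : ℝ) (P : MvPolynomial τ ℤ) : Prop :=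
  Low W ν P ∧ ∃ μ ∈ P.support, Finsupp.weight W μ = ν

omit [Fintype τ] in
theorem exists_att (W : τ → ℝ) {P : MvPolynomial τ ℤ} (hP : P ≠ 0) : ∃ ν, Att W ν P := by
  obtain ⟨μ, h1, h2⟩ := exists_min_image P.support (Finsupp.weight W) (support_nonempty.2 hP)
  exact ⟨_, h2, μ, h1, rfl⟩

/-- The rescaled polynomial. -/
noncomputable def psi (W : τ → ℝ) (ν : ℝ) (P : MvPolynomial τ ℤ) (p : ℝ × (τ → ℂ)) : ℂ :=
  ∑ μ ∈ P.support, (coeff μ P : ℤ) * ((p.1 ^ (Finsupp.weight W μ - ν) : ℝ) * ∏ k, p.2 k ^ μ k)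

theorem aeval_eq_sum {R : Type} [CommRing R] [Algebra ℤ R] (y : τ → R) (P : MvPolynomial τ ℤ) :
    aeval y P = ∑ μ ∈ P.support, (coeff μ P : ℤ) * ∏ k, y k ^ μ k := by
  rw [aeval_def, eval₂_eq']
  simp

theorem psi_scale (W : τ → ℝ) (ν : ℝ) (P : MvPolynomial τ ℤ) {t : ℝ} (ht : 0 < t) (y : τ → ℂ) :
    ‖aeval (fun k => ((t ^ W k : ℝ) : ℂ) * y k) P‖ = t ^ ν * ‖psi W ν P (t, y)‖ := by
  have h1 : aeval (fun k => ((t ^ W k : ℝ) : ℂ) * y k) P = (t ^ ν : ℝ) * psi W ν P (t, y) := by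
    rw [aeval_eq_sum, psi, mul_sum]
    refine sum_congr rfl fun μ _ => ?_
    have h2 : ∏ k, (t ^ W k) ^ μ k = t ^ ν * t ^ (Finsupp.weight W μ - ν) := by
      rw [← Real.rpow_add ht, add_sub_cancel, Finsupp.weight_eq_sum, Real.rpow_sum_of_pos ht]
      refine prod_congr rfl fun k _ => ?_
      rw [nsmul_eq_mul, mul_comm, Real.rpow_mul_natCast ht.le]
    have h3 := congrArg (fun r : ℝ => (r : ℂ)) h2
    simp only [Complex.ofReal_prod, Complex.ofReal_pow, Complex.ofReal_mul] at h3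
    simp only [mul_pow, prod_mul_distrib, h3]
    ring
  rw [h1, norm_mul, Complex.norm_real, Real.norm_of_nonneg (by positivity)]

theorem psi_cont {W : τ → ℝ} {ν : ℝ} {P : MvPolynomial τ ℤ} (h : Low W ν P) :
    Continuous (psi W ν P) := by
  refine continuous_finsetSum _ fun μ hμ => continuous_const.mul (Continuous.mul ?_ ?_)
  · exact Complex.continuous_ofReal.comp
      ((Real.continuous_rpow_const (sub_nonneg.2 (h μ hμ))).comp continuous_fst)
  · fun_prop

theorem psi_zero {W : τ → ℝ} {ν : ℝ} {P : MvPolynomial τ ℤ} (h : Att W ν P) :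
    ∃ Q : MvPolynomial τ ℂ, Q ≠ 0 ∧ ∀ y, eval y Q = psi W ν P (0, y) := by
  classical
  refine ⟨∑ μ ∈ P.support, monomial μ ((coeff μ P : ℤ) *
    (((0 : ℝ) ^ (Finsupp.weight W μ - ν) : ℝ) : ℂ)), fun h0 => ?_, fun y => ?_⟩
  · obtain ⟨μ, h1, h2⟩ := h.2
    have h3 := congrArg (coeff μ) h0
    rw [coeff_sum, sum_eq_single μ (fun κ _ hκ => by rw [coeff_monomial, if_neg hκ])
      (fun h => absurd h1 h), coeff_monomial, if_pos rfl, h2, sub_self] at h3
    exact mem_support_iff.1 h1 (by simpa using h3)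
  · rw [map_sum, psi]
    refine sum_congr rfl fun μ _ => ?_
    rw [eval_monomial, Finsupp.prod_fintype _ _ (fun _ => pow_zero _), mul_assoc]

theorem low_ev {W : τ → ℝ} {ν : ℝ} {P : MvPolynomial τ ℤ} (h : Low W ν P) (y : τ → ℂ) :
    ∀ᶠ C : ℝ in atTop, ∀ᶠ p in 𝓝 ((0 : ℝ), y), ‖psi W ν P p‖ ≤ C := by
  filter_upwards [eventually_gt_atTop ‖psi W ν P (0, y)‖] with C hC
  exact ((psi_cont h).norm.continuousAt.eventually (gt_mem_nhds hC)).mono fun p hp => hp.le

theorem att_ev {W : τ → ℝ} {ν : ℝ} {P : MvPolynomial τ ℤ} (h : Low W ν P) {y : τ → ℂ}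
    (hy : psi W ν P (0, y) ≠ 0) :
    ∀ᶠ C : ℝ in atTop, ∀ᶠ p in 𝓝 ((0 : ℝ), y), C⁻¹ ≤ ‖psi W ν P p‖ := by
  filter_upwards [tendsto_inv_atTop_zero.eventually (gt_mem_nhds (norm_pos_iff.2 hy))] with C hC
  exact ((psi_cont h).norm.continuousAt.eventually (lt_mem_nhds hC)).mono fun p hp => hp.le

/-- Uniform two-sided bounds on a small rescaled polydisc. -/
theorem exists_disc (W : τ → ℝ) {J₁ J₂ : Type} [Fintype J₁] [Fintype J₂] (ν₁ : J₁ → ℝ)
    (P₁ : J₁ → MvPolynomial τ ℤ) (h₁ : ∀ j, Att W (ν₁ j) (P₁ j)) (ν₂ : J₂ → ℝ)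
    (P₂ : J₂ → MvPolynomial τ ℤ) (h₂ : ∀ j, Low W (ν₂ j) (P₂ j)) :
    ∃ (y₀ : τ → ℂ) (δ C : ℝ), 0 < δ ∧ 1 ≤ C ∧ ∀ t, 0 < t → t ≤ δ → ∀ z : τ → ℂ,
      (∀ k, z k ∈ Metric.closedBall (((t ^ W k : ℝ) : ℂ) * y₀ k) (t ^ W k * δ)) →
      (∀ j, C⁻¹ * t ^ ν₁ j ≤ ‖aeval z (P₁ j)‖) ∧ ∀ j, ‖aeval z (P₂ j)‖ ≤ C * t ^ ν₂ j := by
  choose Q hQ0 hQ using fun j => psi_zero (h₁ j)
  have h3 : ∃ y, eval y (∏ j, Q j) ≠ 0 := by
    by_contra h
    push Not at h
    exact prod_ne_zero_iff.2 (fun j (_ : j ∈ univ) => hQ0 j)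
      (MvPolynomial.funext fun y => by rw [h y, map_zero])
  obtain ⟨y₀, hy₀⟩ := h3
  rw [map_prod] at hy₀
  obtain ⟨C, hC1, hC2, hC3⟩ := ((eventually_ge_atTop (1 : ℝ)).and ((eventually_all.2 fun j =>
    att_ev (h₁ j).1 (hQ j y₀ ▸ prod_ne_zero_iff.1 hy₀ j (mem_univ j))).and
      (eventually_all.2 fun j => low_ev (h₂ j) y₀))).exists
  obtain ⟨δ, hδ, hball⟩ := Metric.nhds_basis_closedBall.eventually_iff.1
    ((eventually_all.2 hC2).and (eventually_all.2 hC3))
  refine ⟨y₀, δ, C, hδ, hC1, fun t ht htδ z hz => ?_⟩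
  have hpos : ∀ k, 0 < t ^ W k := fun k => Real.rpow_pos_of_pos ht _
  have h4 : z = fun k => ((t ^ W k : ℝ) : ℂ) * (z k / (t ^ W k : ℝ)) := funext fun k => by
    rw [mul_div_cancel₀]
    exact_mod_cast (hpos k).ne'
  have h5 := hball (x := (t, fun k => z k / (t ^ W k : ℝ))) (by
    rw [Metric.mem_closedBall, Prod.dist_eq, max_le_iff, dist_pi_le_iff hδ.le]
    refine ⟨by simpa [abs_of_pos ht] using htδ, fun k => ?_⟩
    have h6 := hz k
    rw [Metric.mem_closedBall, dist_eq_norm] at h6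
    have h7 : z k / (t ^ W k : ℝ) - y₀ k = (z k - (t ^ W k : ℝ) * y₀ k) / (t ^ W k : ℝ) := by
      have : ((t ^ W k : ℝ) : ℂ) ≠ 0 := by exact_mod_cast (hpos k).ne'
      field_simp
    rw [dist_eq_norm, h7, norm_div, Complex.norm_real, Real.norm_of_nonneg (hpos k).le,
      div_le_iff₀' (hpos k)]
    exact h6)
  refine ⟨fun j => ?_, fun j => ?_⟩
  · rw [h4, psi_scale W (ν₁ j) _ ht, mul_comm]
    exact mul_le_mul_of_nonneg_left (h5.1 j) (by positivity)
  · rw [h4, psi_scale W (ν₂ j) _ ht, mul_comm]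
    exact mul_le_mul_of_nonneg_right (h5.2 j) (by positivity)

theorem volume_disc (c : τ → ℂ) (r : τ → ℝ) (hr : ∀ k, 0 ≤ r k) :
    volume (Set.pi Set.univ fun k => Metric.closedBall (c k) (r k)) =
      ENNReal.ofReal (∏ k, r k ^ 2 * Real.pi) := by
  rw [volume_pi_pi, ENNReal.ofReal_prod_of_nonneg fun k _ => by positivity]
  refine prod_congr rfl fun k _ => ?_
  rw [Complex.volume_closedBall, ENNReal.ofReal_mul (by positivity), ENNReal.ofReal_pow (hr k),
    ← NNReal.coe_real_pi, ENNReal.ofReal_coe_nnreal]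

end Scale

variable {σ ι : Type} [Fintype σ] [Fintype ι] [DecidableEq ι]

/-- The polynomial `P` in the coordinates `z = G x`, with denominators cleared. -/
noncomputable def hat (G : Matrix ι ι (MvPolynomial σ ℤ)) (P : MvPolynomial (σ ⊕ ι) ℤ) :
    MvPolynomial (σ ⊕ ι) ℤ :=
  aeval (Sum.elim (fun t => X (Sum.inl t))
    fun i => ∑ r, rename Sum.inl (G.adjugate i r) * X (Sum.inr r)) P

/-- Homogeneous of degree `β` in the fibre variables. -/
def XHom (P : MvPolynomial (σ ⊕ ι) ℤ) (β : ℕ) : Prop :=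
  ∀ μ ∈ P.support, ∑ i, μ (Sum.inr i) = β

theorem hat_eval {R : Type} [CommRing R] (G : Matrix ι ι (MvPolynomial σ ℤ))
    {P : MvPolynomial (σ ⊕ ι) ℤ} {β : ℕ} (hP : XHom P β) (u : σ → R) (x : ι → R) :
    aeval (Sum.elim u (G.map (aeval u) *ᵥ x)) (hat G P) =
      aeval u G.det ^ β * aeval (Sum.elim u x) P := by
  have h1 : (fun k => aeval (Sum.elim u (G.map (aeval u) *ᵥ x)) (Sum.elim (fun t => X (Sum.inl t))
      (fun i => ∑ r, rename Sum.inl (G.adjugate i r) * X (Sum.inr r)) k :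
        MvPolynomial (σ ⊕ ι) ℤ)) = Sum.elim u fun i => aeval u G.det * x i := by
    funext k
    rcases k with t | i
    · simp
    · have h2 : (G.map (aeval u)).adjugate *ᵥ (G.map (aeval u) *ᵥ x) =
          (G.map (aeval u)).det • x := by
        rw [mulVec_mulVec, adjugate_mul, smul_mulVec, one_mulVec]
      have h3 : (G.map (aeval u)).adjugate = G.adjugate.map (aeval u) :=
        ((aeval u : MvPolynomial σ ℤ →ₐ[ℤ] R).map_adjugate G).symm
      have h4 : (G.map (aeval u)).det = aeval u G.det :=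
        ((aeval u : MvPolynomial σ ℤ →ₐ[ℤ] R).map_det G).symm
      have h5 := congrFun h2 i
      rw [h3, h4, Pi.smul_apply, smul_eq_mul] at h5
      simp only [Sum.elim_inr, map_sum, map_mul, aeval_rename, aeval_X, ← h5]
      rfl
  rw [hat, ← AlgHom.comp_apply, comp_aeval, h1, aeval_eq_sum _ P, aeval_eq_sum _ P, mul_sum]
  refine sum_congr rfl fun μ hμ => ?_
  simp only [Fintype.prod_sum_type, Sum.elim_inl, Sum.elim_inr, mul_pow, prod_mul_distrib,
    prod_pow_eq_pow_sum, hP μ hμ]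
  ring

theorem volume_region (G : Matrix ι ι (MvPolynomial σ ℤ)) {A : Set (σ → ℂ)} {B : Set (ι → ℂ)}
    (hA : IsClosed A) (hB : IsClosed B) {d : ℝ}
    (hd : ∀ u ∈ A, aeval u G.det ≠ 0 ∧ ‖aeval u G.det‖ ≤ d) :
    ENNReal.ofReal (d ^ 2)⁻¹ * volume B * volume A ≤
      volume {z : (σ → ℂ) × (ι → ℂ) | z.1 ∈ A ∧ G.map (aeval z.1) *ᵥ z.2 ∈ B} := by
  have hc : Continuous fun z : (σ → ℂ) × (ι → ℂ) => G.map (aeval z.1) *ᵥ z.2 := by
    refine continuous_pi fun r => continuous_finsetSum _ fun i _ => Continuous.mul ?_ (by fun_prop)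
    simp only [map_apply, aeval_eq_sum]
    fun_prop
  have hm : MeasurableSet {z : (σ → ℂ) × (ι → ℂ) | z.1 ∈ A ∧ G.map (aeval z.1) *ᵥ z.2 ∈ B} :=
    ((hA.preimage continuous_fst).inter (hB.preimage hc)).measurableSet
  rw [Measure.volume_eq_prod, Measure.prod_apply hm, ← setLIntegral_const]
  refine le_trans (setLIntegral_mono' hA.measurableSet fun u hu => ?_)
    (setLIntegral_le_lintegral A _)
  obtain ⟨h1, h2⟩ := hd u hu
  have h3 : LinearMap.det ((Matrix.toLin' (G.map (aeval u))).restrictScalars ℝ) =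
      ‖aeval u G.det‖ ^ 2 := by
    rw [LinearMap.det_restrictScalars, LinearMap.det_toLin', Algebra.norm_complex_apply,
      Complex.normSq_eq_norm_sq]
    congr 2
    exact ((aeval u : MvPolynomial σ ℤ →ₐ[ℤ] ℂ).map_det G).symm
  have h4 : 0 < ‖aeval u G.det‖ := norm_pos_iff.2 h1
  have h5 : Prod.mk u ⁻¹' {z : (σ → ℂ) × (ι → ℂ) | z.1 ∈ A ∧ G.map (aeval z.1) *ᵥ z.2 ∈ B} =
      (Matrix.toLin' (G.map (aeval u))).restrictScalars ℝ ⁻¹' B := by
    ext x
    simp [hu]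
  rw [h5, Measure.addHaar_preimage_linearMap _ (by rw [h3]; positivity), h3]
  refine mul_le_mul_left (ENNReal.ofReal_le_ofReal ?_) _
  rw [abs_of_pos (by positivity)]
  gcongr

/-- `f` lies in the left limit multiplier ideal of the ideal generated by the `Gs m`, on the
open set where neither block of coordinates vanishes. -/
def InMult {M : Type} [Fintype M] (Gs : M → MvPolynomial (σ ⊕ ι) ℤ)
    (f : MvPolynomial (σ ⊕ ι) ℤ) : Prop :=
  ∀ c : ℝ, 0 < c → c < 1 → LocallyIntegrableOn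
    (fun z : (σ → ℂ) × (ι → ℂ) => ‖aeval (Sum.elim z.1 z.2) f‖ ^ 2 /
      (∑ m, ‖aeval (Sum.elim z.1 z.2) (Gs m)‖ ^ 2) ^ c) {z | z.1 ≠ 0 ∧ z.2 ≠ 0} volume

omit [Fintype σ] [DecidableEq ι] in
theorem xhom_X (i : ι) : XHom (X (Sum.inr i) : MvPolynomial (σ ⊕ ι) ℤ) 1 := by
  classical
  intro μ hμ
  rw [support_X, mem_singleton] at hμ
  simp [hμ, Finsupp.single_apply]

theorem val_crit {M : Type} [Fintype M] {Gs : M → MvPolynomial (σ ⊕ ι) ℤ}
    {f : MvPolynomial (σ ⊕ ι) ℤ} (hf : InMult Gs f) (G : Matrix ι ι (MvPolynomial σ ℤ))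
    {β : ℕ} (hβ : XHom f β) {βm : M → ℕ} (hβm : ∀ m, XHom (Gs m) (βm m))
    (W : σ ⊕ ι → ℝ) (hW : ∀ t, 0 ≤ W (Sum.inl t)) {s : σ} (hs : W (Sum.inl s) = 0)
    {νΔ νf νI : ℝ} (hΔ : Att W νΔ (rename Sum.inl G.det)) (hνf : Att W νf (hat G f))
    (hx : ∀ i, Low W νΔ (hat G (X (Sum.inr i)))) {i₀ : ι} (hi₀ : Att W νΔ (hat G (X (Sum.inr i₀))))
    (hI : ∀ m, Low W (νI + βm m * νΔ) (hat G (Gs m))) {m₀ : M} (hm₀ : hat G (Gs m₀) ≠ 0) :
    νI ≤ νf - β * νΔ + ∑ k, W k - νΔ := by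
  classical
  have hXl : ∀ t, Low W 0 (X (Sum.inl t) : MvPolynomial (σ ⊕ ι) ℤ) := fun t μ hμ => by
    rw [support_X, mem_singleton] at hμ
    simpa [hμ, Finsupp.weight_single] using hW t
  have hXs : Att W 0 (X (Sum.inl s) : MvPolynomial (σ ⊕ ι) ℤ) :=
    ⟨hXl s, Finsupp.single (Sum.inl s) 1, by simp [support_X], by
      simpa [Finsupp.weight_single] using hs⟩
  obtain ⟨ν₀, hν₀⟩ := exists_att W hm₀
  obtain ⟨y₀, δ, C, hδ, hC, H⟩ := exists_disc W ![νΔ, νf, νΔ, ν₀, 0]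
    ![rename Sum.inl G.det, hat G f, hat G (X (Sum.inr i₀)), hat G (Gs m₀), X (Sum.inl s)]
    (fun j => by fin_cases j; exacts [hΔ, hνf, hi₀, hν₀, hXs])
    (J₂ := Option (ι ⊕ M ⊕ σ))
    (fun j => j.elim νΔ (Sum.elim (fun _ => νΔ) (Sum.elim (fun m => νI + βm m * νΔ) fun _ => 0)))
    (fun j => j.elim (rename Sum.inl G.det) (Sum.elim (fun i => hat G (X (Sum.inr i)))
      (Sum.elim (fun m => hat G (Gs m)) fun t => X (Sum.inl t))))
    (by rintro (_ | i | m | t); exacts [hΔ.1, hx i, hI m, hXl t])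
  have hC0 : 0 < C := by linarith
  have key : ∀ c : ℝ, 0 < c → c < 1 → c * νI ≤ νf - β * νΔ + ∑ k, W k - νΔ := by
    intro c hc0 hc1
    set K : Set ((σ → ℂ) × (ι → ℂ)) := Metric.closedBall 0 (C * C) ∩
      ({z | C⁻¹ ≤ ‖z.1 s‖} ∩ {z | (C * C)⁻¹ ≤ ‖z.2 i₀‖}) with hK
    have hKc : IsCompact K := (isCompact_closedBall _ _).inter_right
      ((isClosed_le continuous_const (by fun_prop)).inter
        (isClosed_le continuous_const (by fun_prop)))
    have hint := (hf c hc0 hc1).integrableOn_compact_subset (t := K) (by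
      rintro z ⟨-, h1, h2⟩
      refine ⟨fun h => ?_, fun h => ?_⟩
      · simp only [Set.mem_ofPred_eq, h, Pi.zero_apply, norm_zero] at h1
        exact absurd h1 (not_le.2 (by positivity))
      · simp only [Set.mem_ofPred_eq, h, Pi.zero_apply, norm_zero] at h2
        exact absurd h2 (not_le.2 (by positivity))) hKc
    set F := fun z : (σ → ℂ) × (ι → ℂ) => ‖aeval (Sum.elim z.1 z.2) f‖ ^ 2 /
      (∑ m, ‖aeval (Sum.elim z.1 z.2) (Gs m)‖ ^ 2) ^ c with hF
    set B : ℝ := ∑ m, (C * C ^ βm m) ^ 2 with hB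
    have hB0 : 0 < B := sum_pos (fun m _ => by positivity) ⟨m₀, mem_univ _⟩
    set c₁ : ℝ := (C⁻¹ / C ^ β) ^ 2 / B ^ c * ((C ^ 2)⁻¹ * ∏ _k : σ ⊕ ι, δ ^ 2 * Real.pi) with hc₁
    have hc₁0 : 0 < c₁ := by
      have : 0 < ∏ _k : σ ⊕ ι, δ ^ 2 * Real.pi := prod_pos fun _ _ => by positivity
      positivity
    have hbd : ∀ t, 0 < t → t ≤ δ → c₁ * t ^ (2 * (νf - β * νΔ + ∑ k, W k - νΔ - c * νI)) ≤
        (∫⁻ z in K, ‖F z‖ₑ).toReal := by
      intro t ht htδ
      have hp : ∀ e : ℝ, 0 < t ^ e := fun e => Real.rpow_pos_of_pos ht e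
      set A := Set.pi Set.univ fun k => Metric.closedBall
        (((t ^ W (Sum.inl k) : ℝ) : ℂ) * y₀ (Sum.inl k)) (t ^ W (Sum.inl k) * δ) with hA
      set B' := Set.pi Set.univ fun k => Metric.closedBall
        (((t ^ W (Sum.inr k) : ℝ) : ℂ) * y₀ (Sum.inr k)) (t ^ W (Sum.inr k) * δ) with hB'
      have H' : ∀ u ∈ A, ∀ z ∈ B', _ := fun u hu z hz => H t ht htδ (Sum.elim u z) (by
        rintro (k | k); exacts [hu k trivial, hz k trivial])
      have hΔt : ∀ u ∈ A, C⁻¹ * t ^ νΔ ≤ ‖aeval u G.det‖ ∧ ‖aeval u G.det‖ ≤ C * t ^ νΔ := by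
        intro u hu
        obtain ⟨h1, h2⟩ := H' u hu (fun k => ((t ^ W (Sum.inr k) : ℝ) : ℂ) * y₀ (Sum.inr k))
          fun k _ => Metric.mem_closedBall_self (mul_pos (hp _) hδ).le
        have h3 := h1 0
        have h4 := h2 none
        simp only [Matrix.cons_val_zero, Option.elim, aeval_rename] at h3 h4
        exact ⟨h3, h4⟩
      have hvol := volume_region G (A := A) (B := B') (d := C * t ^ νΔ)
        (isClosed_set_pi fun _ _ => Metric.isClosed_closedBall)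
        (isClosed_set_pi fun _ _ => Metric.isClosed_closedBall) fun u hu =>
          ⟨norm_pos_iff.1 ((mul_pos (inv_pos.2 hC0) (hp _)).trans_le (hΔt u hu).1), (hΔt u hu).2⟩
      rw [hA, hB', volume_disc _ _ fun k => (mul_pos (hp _) hδ).le,
        volume_disc _ _ fun k => (mul_pos (hp _) hδ).le, ← hA, ← hB'] at hvol
      set E := {z : (σ → ℂ) × (ι → ℂ) | z.1 ∈ A ∧ G.map (aeval z.1) *ᵥ z.2 ∈ B'} with hE
      set m₁ : ℝ := (C⁻¹ / C ^ β) ^ 2 / B ^ c * t ^ (2 * (νf - β * νΔ - c * νI)) with hm₁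
      have hEK : ∀ z ∈ E, z ∈ K ∧ m₁ ≤ F z := by
        rintro ⟨u, x⟩ ⟨hu, hz⟩
        obtain ⟨h1, h2⟩ := H' u hu _ hz
        obtain ⟨h3, h4⟩ := hΔt u hu
        have hd0 : 0 < ‖aeval u G.det‖ := (mul_pos (inv_pos.2 hC0) (hp _)).trans_le h3
        have e1 := h1 1
        have e2 := h1 2
        have e3 := h1 3
        have e4 := h1 4
        have e5 := fun i => h2 (some (Sum.inl i))
        have e6 := fun m => h2 (some (Sum.inr (Sum.inl m)))
        have e7 := fun k => h2 (some (Sum.inr (Sum.inr k)))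
        simp only [Matrix.cons_val, Option.elim, Sum.elim_inl, Sum.elim_inr, hat_eval G hβ,
          hat_eval G (hβm _), hat_eval G (xhom_X _), aeval_X, norm_mul, norm_pow, pow_one,
          Real.rpow_zero, mul_one] at e1 e2 e3 e4 e5 e6 e7
        refine ⟨⟨?_, e4, ?_⟩, ?_⟩
        · rw [mem_closedBall_zero_iff, Prod.norm_def, max_le_iff,
            pi_norm_le_iff_of_nonneg (by positivity), pi_norm_le_iff_of_nonneg (by positivity)]
          refine ⟨fun k => (e7 k).trans (by nlinarith), fun i => ?_⟩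
          have h5 := (mul_le_mul_of_nonneg_right h3 (norm_nonneg (x i))).trans (e5 i)
          rw [mul_right_comm, mul_le_mul_iff_left₀ (hp _), inv_mul_le_iff₀ hC0] at h5
          exact h5
        · have h5 := e2.trans (mul_le_mul_of_nonneg_right h4 (norm_nonneg (x i₀)))
          rw [mul_right_comm, mul_le_mul_iff_left₀ (hp _), ← inv_mul_le_iff₀ hC0, ← mul_inv] at h5
          exact h5
        · have h5 : C⁻¹ / C ^ β * t ^ (νf - β * νΔ) ≤ ‖aeval (Sum.elim u x) f‖ := by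
            have h6 := e1.trans (mul_le_mul_of_nonneg_right
              (pow_le_pow_left₀ hd0.le h4 β) (norm_nonneg _))
            rw [Real.rpow_sub ht, mul_comm (β : ℝ), Real.rpow_mul_natCast ht.le,
              div_mul_div_comm, ← mul_pow, div_le_iff₀' (pow_pos (mul_pos hC0 (hp _)) _)]
            exact h6
          have h6 : ∀ m, ‖aeval (Sum.elim u x) (Gs m)‖ ≤ C * C ^ βm m * t ^ νI := fun m => by
            have h7 := (mul_le_mul_of_nonneg_right (pow_le_pow_left₀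
              (mul_pos (inv_pos.2 hC0) (hp _)).le h3 (βm m)) (norm_nonneg _)).trans (e6 m)
            rw [Real.rpow_add ht, mul_comm (βm m : ℝ), Real.rpow_mul_natCast ht.le, mul_pow,
              mul_right_comm, ← mul_assoc, mul_le_mul_iff_left₀ (pow_pos (hp _) _), inv_pow,
              inv_mul_le_iff₀ (pow_pos hC0 _)] at h7
            exact h7.trans (le_of_eq (by ring))
          have h7 : 0 < ‖aeval (Sum.elim u x) (Gs m₀)‖ := by
            have := (mul_pos (inv_pos.2 hC0) (hp _)).trans_le e3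
            exact pos_of_mul_pos_right this (by positivity)
          have h8 : 0 < ∑ m, ‖aeval (Sum.elim u x) (Gs m)‖ ^ 2 :=
            sum_pos' (fun _ _ => by positivity) ⟨m₀, mem_univ _, by positivity⟩
          have h9 : ∑ m, ‖aeval (Sum.elim u x) (Gs m)‖ ^ 2 ≤ B * (t ^ νI) ^ 2 := by
            rw [hB, sum_mul]
            refine sum_le_sum fun m _ => ?_
            rw [← mul_pow]
            exact pow_le_pow_left₀ (norm_nonneg _) (h6 m) 2
          refine le_trans (le_of_eq ?_) (div_le_div₀ (by positivity)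
            (pow_le_pow_left₀ (by have := hp (νf - β * νΔ); positivity) h5 2)
            (Real.rpow_pos_of_pos h8 c) (Real.rpow_le_rpow h8.le h9 hc0.le))
          rw [hm₁, Real.mul_rpow hB0.le (by positivity), mul_pow, ← Real.rpow_mul_natCast ht.le,
            ← Real.rpow_mul_natCast ht.le, ← Real.rpow_mul ht.le, mul_div_mul_comm,
            ← Real.rpow_sub ht]
          congr 2
          push_cast
          ring
      have h1 : ENNReal.ofReal m₁ * volume E ≤ ∫⁻ z in K, ‖F z‖ₑ := by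
        refine le_trans ?_ (lintegral_mono_set fun z hz => (hEK z hz).1)
        rw [← setLIntegral_const]
        have hc : Continuous fun z : (σ → ℂ) × (ι → ℂ) => G.map (aeval z.1) *ᵥ z.2 := by
          refine continuous_pi fun r => continuous_finsetSum _ fun i _ =>
            Continuous.mul ?_ (by fun_prop)
          simp only [map_apply, aeval_eq_sum]
          fun_prop
        refine setLIntegral_mono' (((isClosed_set_pi fun _ _ => Metric.isClosed_closedBall).preimage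
          continuous_fst).inter ((isClosed_set_pi fun _ _ => Metric.isClosed_closedBall).preimage
            hc)).measurableSet fun z hz => ?_
        rw [← ofReal_norm]
        exact ENNReal.ofReal_le_ofReal ((hEK z hz).2.trans (le_abs_self _))
      have h2 := (mul_le_mul_right hvol _).trans h1
      have hm₁0 : 0 ≤ m₁ := by have := hp (2 * (νf - β * νΔ - c * νI)); positivity
      rw [← ENNReal.ofReal_mul (by positivity), ← ENNReal.ofReal_mul (mul_nonneg (by positivity)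
        (prod_nonneg fun _ _ => by positivity)), ← ENNReal.ofReal_mul hm₁0,
        ENNReal.ofReal_le_iff_le_toReal hint.2.ne] at h2
      refine le_trans (le_of_eq ?_) h2
      have h3 : ∏ k : σ ⊕ ι, (t ^ W k * δ) ^ 2 * Real.pi =
          t ^ (2 * ∑ k, W k) * ∏ _k : σ ⊕ ι, δ ^ 2 * Real.pi := by
        rw [mul_sum, Real.rpow_sum_of_pos ht, ← prod_mul_distrib]
        refine prod_congr rfl fun k _ => ?_
        rw [mul_comm 2, mul_pow, ← Real.rpow_mul_natCast ht.le]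
        push_cast
        ring
      rw [mul_assoc (_⁻¹), mul_comm (∏ _k : ι, _), ← Fintype.prod_sum_type
        (fun k => (t ^ W k * δ) ^ 2 * Real.pi), h3, hc₁, hm₁, mul_pow, ← Real.rpow_mul_natCast ht.le,
        show 2 * (νf - β * νΔ + ∑ k, W k - νΔ - c * νI) =
          2 * (νf - β * νΔ - c * νI) + 2 * ∑ k, W k - νΔ * (2 : ℕ) by push_cast; ring,
        Real.rpow_sub ht, Real.rpow_add ht]
      have := hp (νΔ * (2 : ℕ))
      field_simp
    by_contra hneg
    have h1 := ((tendsto_rpow_neg_nhdsGT_zero (y := 2 * (νf - β * νΔ + ∑ k, W k - νΔ - c * νI))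
      (by linarith)).const_mul_atTop hc₁0).eventually_gt_atTop (∫⁻ z in K, ‖F z‖ₑ).toReal
    obtain ⟨t, h2, h3⟩ := (h1.and (Ioc_mem_nhdsGT hδ)).exists
    exact absurd (hbd t h3.1 h3.2) (not_le.2 h2)
  have h1 : Tendsto (fun c : ℝ => c * νI) (𝓝[<] 1) (𝓝 (1 * νI)) :=
    ((continuous_id.mul continuous_const).tendsto 1).mono_left nhdsWithin_le_nhds
  rw [one_mul] at h1
  refine le_of_tendsto h1 ?_
  filter_upwards [Ioo_mem_nhdsLT one_pos] with c hc using key c hc.1 hc.2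

end Pool.Agent.Lib.MP_8865d3_nt
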