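import Mathlib

/-! Orders of vanishing and local integrability. -/

namespace Pool.Agent.Lib.MP_8865d3_nt.Ft

open MeasureTheory Topology

/-- Suppose `b + 2 ≤ a` and take `c = (b + 1) / a`.  On a closed polydisc of radius `r` around `(x₀, 0)`
the function is integrable and, for `p.2 ≠ 0`, at least `m * ‖p.2‖ ^ (-2)` with `0 < m`.  On the set
`closedBall x₀ r ×ˢ (closedBall 0 ρ \ closedBall 0 (ρ / 2))` the integral is then at least a positive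
constant independent of `ρ`, while the volume of the set tends to `0` with `ρ`
(`Integrable.tendsto_setIntegral_nhds_zero` or `exists_pos_setLIntegral_lt_of_measure_lt`,
`Complex.volume_closedBall`, `Measure.prod_prod`). -/
theorem an_order {M : Type} [Fintype M] (x₀ : ℂ) {Ω : Set (ℂ × ℂ)} (hΩ : Ω ∈ 𝓝 (x₀, (0 : ℂ)))
    (f f₁ : ℂ × ℂ → ℂ) (g g₁ : M → ℂ × ℂ → ℂ) {a b : ℕ} (hf : ∀ p ∈ Ω, f p = p.2 ^ b * f₁ p)
    (hg : ∀ l, ∀ p ∈ Ω, g l p = p.2 ^ a * g₁ l p) (cf : ContinuousAt f₁ (x₀, 0))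
    (cg : ∀ l, ContinuousAt (g₁ l) (x₀, 0)) (hf₁ : f₁ (x₀, 0) ≠ 0) (hg₁ : ∃ l, g₁ l (x₀, 0) ≠ 0)
    (h : ∀ c : ℝ, 0 < c → c < 1 →
      LocallyIntegrableOn (fun p => ‖f p‖ ^ 2 / (∑ l, ‖g l p‖ ^ 2) ^ c) Ω volume) : a ≤ b + 1 := by
  by_contra hab
  have ha : (0 : ℝ) < a := by exact_mod_cast (by omega : 0 < a)
  set c : ℝ := (b + 1) / a with hc
  have hc0 : 0 < c := by positivity
  have hc1 : c < 1 := by
    rw [hc, div_lt_one ha]
    exact_mod_cast (by omega : b + 1 < a)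
  obtain ⟨N, hN, hint⟩ := h c hc0 hc1 _ (mem_of_mem_nhds hΩ)
  rw [nhdsWithin_eq_nhds.2 hΩ] at hN
  have hG : 0 < ∑ l, ‖g₁ l (x₀, 0)‖ ^ 2 := by
    obtain ⟨l, hl⟩ := hg₁
    exact Finset.sum_pos' (fun _ _ => by positivity) ⟨l, Finset.mem_univ _, by positivity⟩
  have cG : ContinuousAt (fun p => ∑ l, ‖g₁ l p‖ ^ 2) (x₀, 0) :=
    tendsto_finsetSum _ fun l _ => ((cg l).norm.pow 2)
  have cφ : ContinuousAt (fun p => ‖f₁ p‖ ^ 2 / (∑ l, ‖g₁ l p‖ ^ 2) ^ c) (x₀, 0) :=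
    (cf.norm.pow 2).div (cG.rpow_const (Or.inl hG.ne')) (Real.rpow_pos_of_pos hG c).ne'
  obtain ⟨m, hm0, hm⟩ := exists_between
    (show 0 < ‖f₁ (x₀, 0)‖ ^ 2 / (∑ l, ‖g₁ l (x₀, 0)‖ ^ 2) ^ c from
      div_pos (by positivity) (Real.rpow_pos_of_pos hG c))
  obtain ⟨r, hr, hball⟩ := Metric.mem_nhds_iff.1
    (Filter.inter_mem (Filter.inter_mem hΩ hN) (cφ.eventually (lt_mem_nhds hm)))
  rw [← ball_prod_same] at hball
  have hms : MeasurableSet (Metric.ball x₀ r ×ˢ Metric.ball (0 : ℂ) r) :=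
    measurableSet_ball.prod measurableSet_ball
  have h1 : IntegrableOn (fun p : ℂ × ℂ => m * (‖p.2‖ ^ 2)⁻¹)
      (Metric.ball x₀ r ×ˢ Metric.ball (0 : ℂ) r) volume := by
    refine Integrable.mono' (hint.mono_set fun p hp => (hball hp).1.2)
      (Measurable.aestronglyMeasurable (by fun_prop)) ((ae_restrict_iff' hms).2 (.of_forall ?_))
    intro p hp
    obtain ⟨⟨h1, -⟩, h2⟩ := hball hp
    rw [Real.norm_of_nonneg (by positivity)]
    rcases eq_or_ne p.2 0 with h0 | h0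
    · rw [h0, norm_zero, zero_pow two_ne_zero, inv_zero, mul_zero]
      positivity
    · have h3 : 0 < ‖p.2‖ := norm_pos_iff.2 h0
      have e1 : ∑ l, ‖g l p‖ ^ 2 = (‖p.2‖ ^ 2) ^ a * ∑ l, ‖g₁ l p‖ ^ 2 := by
        rw [Finset.mul_sum]
        refine Finset.sum_congr rfl fun l _ => ?_
        rw [hg l p h1, norm_mul, norm_pow]
        ring
      have e2 : ((‖p.2‖ ^ 2) ^ a) ^ c = (‖p.2‖ ^ 2) ^ (b + 1) := by
        rw [← Real.rpow_natCast _ a, ← Real.rpow_mul (by positivity), hc, mul_div_cancel₀ _ ha.ne',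
          ← Real.rpow_natCast _ (b + 1)]
        norm_cast
      rw [e1, Real.mul_rpow (by positivity) (by positivity), e2, hf p h1, norm_mul, norm_pow]
      refine (mul_le_mul_of_nonneg_right (le_of_lt h2) (by positivity)).trans (le_of_eq ?_)
      rw [div_mul_eq_mul_div, div_eq_mul_inv, div_eq_mul_inv, mul_inv]
      generalize ((∑ l, ‖g₁ l p‖ ^ 2) ^ c)⁻¹ = z
      field_simp
      ring
  rw [IntegrableOn, Measure.volume_eq_prod, ← Measure.prod_restrict] at h1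
  have hne : (ae (volume.restrict (Metric.ball x₀ r))).NeBot := by
    rw [ae_neBot, Ne, Measure.restrict_eq_zero]
    exact (Metric.measure_ball_pos _ _ hr).ne'
  obtain ⟨x, hx⟩ := h1.prod_right_ae.exists
  have h2 := (integrableOn_fun_norm_addHaar (E := ℂ) volume (f := fun t => m * (t ^ 2)⁻¹)).1 hx
  have h3 : IntegrableOn (fun y : ℝ => y⁻¹) (Set.Ioo 0 r) := by
    refine (IntegrableOn.congr_fun (h2.const_mul m⁻¹) (fun y hy => ?_) measurableSet_Ioo)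
    have := hy.1.ne'
    simp only [Complex.finrank_real_complex, smul_eq_mul]
    field_simp
    norm_num
  rw [← intervalIntegrable_iff_integrableOn_Ioo_of_le hr.le, intervalIntegrable_inv_iff] at h3
  rcases h3 with h3 | h3
  · exact hr.ne h3
  · exact h3 Set.left_mem_uIcc

/-- Let `Δ x = (a₁ x + a₃) ^ 2 + 4 * (x ^ 3 + a₂ x ^ 2 + a₄ x + a₆)`, `Z` its zeros.  For `x₀ ∉ Z` take
`r ^ 2 = Δ x₀`, `U = {x | Δ x / Δ x₀ ∈ slitPlane}`, `y x = (r * (Δ x / Δ x₀) ^ (1 / 2 : ℂ) - (a₁ x + a₃)) / 2`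
(`ContinuousOn.cpow`, `Complex.isOpen_slitPlane`, `Complex.cpow_nat_inv_pow`). -/
theorem exists_cx_branch (V : WeierstrassCurve ℂ) : ∃ Z : Set ℂ, Z.Finite ∧ ∀ x₀ ∉ Z,
    ∃ (U : Set ℂ) (y : ℂ → ℂ), IsOpen U ∧ x₀ ∈ U ∧ ContinuousOn y U ∧
      ∀ x ∈ U, V.toAffine.Equation x (y x) := by
  let Δ : ℂ → ℂ := fun x => (V.a₁ * x + V.a₃) ^ 2 + 4 * (x ^ 3 + V.a₂ * x ^ 2 + V.a₄ * x + V.a₆)
  have hΔ : Continuous Δ := by fun_prop
  let P : Polynomial ℂ := Polynomial.C 4 * Polynomial.X ^ 3 +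
    Polynomial.C (V.a₁ ^ 2 + 4 * V.a₂) * Polynomial.X ^ 2 +
    Polynomial.C (2 * V.a₁ * V.a₃ + 4 * V.a₄) * Polynomial.X + Polynomial.C (V.a₃ ^ 2 + 4 * V.a₆)
  have hP : P ≠ 0 := fun h => by
    have : P.degree = 3 := Polynomial.degree_cubic (a := (4 : ℂ)) (b := V.a₁ ^ 2 + 4 * V.a₂)
      (c := 2 * V.a₁ * V.a₃ + 4 * V.a₄) (d := V.a₃ ^ 2 + 4 * V.a₆) (by norm_num)
    rw [h] at this
    simp at this
  refine ⟨{x | P.IsRoot x}, Polynomial.finite_setOfPred_isRoot hP, fun x₀ hx₀ => ?_⟩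
  have h0 : Δ x₀ ≠ 0 := fun h => hx₀ (by
    simp only [Set.mem_ofPred_eq, Polynomial.IsRoot, P, Polynomial.eval_add, Polynomial.eval_mul,
      Polynomial.eval_C, Polynomial.eval_pow, Polynomial.eval_X]
    rw [← h]
    ring)
  obtain ⟨r, hr⟩ := IsAlgClosed.exists_pow_nat_eq (Δ x₀) two_pos
  refine ⟨{x | Δ x / Δ x₀ ∈ Complex.slitPlane},
    fun x => (r * (Δ x / Δ x₀) ^ ((2 : ℕ) : ℂ)⁻¹ - (V.a₁ * x + V.a₃)) / 2,
    Complex.isOpen_slitPlane.preimage (hΔ.div_const _), ?_, ?_, fun x _ => ?_⟩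
  · simp [div_self h0]
  · refine ((continuousOn_const.mul (ContinuousOn.cpow (hΔ.div_const _).continuousOn
      continuousOn_const fun x hx => hx)).sub (by fun_prop)).div_const _
  · have h1 := Complex.cpow_nat_inv_pow (Δ x / Δ x₀) two_ne_zero
    have h2 : (r * (Δ x / Δ x₀) ^ ((2 : ℕ) : ℂ)⁻¹) ^ 2 = Δ x := by
      rw [mul_pow, h1, hr, mul_div_cancel₀ _ h0]
    rw [WeierstrassCurve.Affine.equation_iff]
    beta_reduce
    generalize r * (Δ x / Δ x₀) ^ ((2 : ℕ) : ℂ)⁻¹ = w at h2 ⊢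
    simp only [Δ] at h2
    linear_combination h2 / 4

end Pool.Agent.Lib.MP_8865d3_nt.Ft
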