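import Mathlib

/-! Bases of a box of polynomials adapted to the powers of given polynomials. -/

namespace Pool.Agent.Lib.MP_8865d3_nt.Fa

open MvPolynomial Finset

/-- the level of the exponent `i` of one variable -/
def lev (μ B d i : ℕ) : ℕ := Nat.findGreatest (fun k => k * μ ≤ i ∧ i + k * (B - μ) ≤ d) d

theorem lev_spec {μ B d i k : ℕ} (hi : i ≤ d) (hk : k ≤ lev μ B d i) :
    k * μ ≤ i ∧ i + k * (B - μ) ≤ d := by
  have h : lev μ B d i * μ ≤ i ∧ i + lev μ B d i * (B - μ) ≤ d :=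
    Nat.findGreatest_spec (P := fun k => k * μ ≤ i ∧ i + k * (B - μ) ≤ d) (Nat.zero_le d)
      (by simpa using hi)
  exact ⟨(Nat.mul_le_mul_right _ hk).trans h.1,
    (Nat.add_le_add_left (Nat.mul_le_mul_right _ hk) _).trans h.2⟩

theorem card_lev {μ B : ℕ} (hμ : μ ≤ B) (hB : 1 ≤ B) (d k : ℕ) :
    ((range (d + 1)).filter (fun i => lev μ B d i = k)).card ≤ B := by
  have hsub : (range (d + 1)).filter (fun i => lev μ B d i = k) ⊆
      Ico (k * μ) (k * μ + μ) ∪
        Ico (d + 1 - k * (B - μ) - (B - μ)) (d + 1 - k * (B - μ)) := by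
    intro i hi
    obtain ⟨h1, h2⟩ := Finset.mem_filter.mp hi
    have h3 : i ≤ d := Nat.lt_succ_iff.mp (Finset.mem_range.mp h1)
    obtain ⟨h4, h5⟩ := lev_spec (μ := μ) (B := B) h3 h2.ge
    have h6 : ¬((k + 1) * μ ≤ i ∧ i + (k + 1) * (B - μ) ≤ d) := by
      intro h7
      have h8 : k + 1 ≤ d := by
        have h9 : (k + 1) * μ + (k + 1) * (B - μ) = (k + 1) * B := by
          rw [← mul_add, Nat.add_sub_cancel' hμ]
        have h10 : k + 1 ≤ (k + 1) * B := Nat.le_mul_of_pos_right _ hB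
        omega
      have h9 := Nat.le_findGreatest (P := fun k => k * μ ≤ i ∧ i + k * (B - μ) ≤ d) h8 h7
      unfold lev at h2
      omega
    rw [add_mul, add_mul, one_mul, one_mul] at h6
    rw [Finset.mem_union, Finset.mem_Ico, Finset.mem_Ico]
    omega
  refine (Finset.card_le_card hsub).trans ((Finset.card_union_le _ _).trans ?_)
  rw [Nat.card_Ico, Nat.card_Ico]
  omega

theorem sum_pow_lev {μ B : ℕ} (hμ : μ ≤ B) (hB : 1 ≤ B) (d : ℕ) {u : ℝ} (h0 : 0 ≤ u) (h1 : u < 1) :
    ∑ i ∈ range (d + 1), u ^ lev μ B d i ≤ B / (1 - u) := by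
  rw [← Finset.sum_fiberwise_of_maps_to (s := range (d + 1)) (t := range (d + 1))
    (g := lev μ B d) (fun i _ => Finset.mem_range.mpr (Nat.lt_succ_of_le (Nat.findGreatest_le d)))]
  have h2 : ∀ k ∈ range (d + 1), ∑ i ∈ (range (d + 1)).filter (fun i => lev μ B d i = k),
      u ^ lev μ B d i ≤ B * u ^ k := by
    intro k _
    rw [Finset.sum_congr rfl (fun i hi => by rw [(Finset.mem_filter.mp hi).2]), Finset.sum_const,
      nsmul_eq_mul]
    exact mul_le_mul_of_nonneg_right (by exact_mod_cast card_lev hμ hB d k) (pow_nonneg h0 _)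
  refine (Finset.sum_le_sum h2).trans ?_
  rw [← Finset.mul_sum, div_eq_mul_inv]
  refine mul_le_mul_of_nonneg_left ?_ (Nat.cast_nonneg _)
  rw [← tsum_geometric_of_lt_one h0 h1]
  exact (summable_geometric_of_lt_one h0 h1).sum_le_tsum _ fun i _ => pow_nonneg h0 _

theorem linearIndependent_of_degree {σ ι A : Type*} [CommRing A] [IsDomain A] (m : MonomialOrder σ)
    (f : ι → MvPolynomial σ A) (h0 : ∀ i, f i ≠ 0)
    (hinj : Function.Injective fun i => m.degree (f i)) : LinearIndependent A f := by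
  classical
  rw [linearIndependent_iff']
  intro s c hc
  by_contra hne
  push Not at hne
  obtain ⟨i, hi, hci⟩ := hne
  obtain ⟨j, hj, hmax⟩ := Finset.exists_max_image (s.filter fun i => c i ≠ 0)
    (fun i => m.toSyn (m.degree (f i))) ⟨i, Finset.mem_filter.mpr ⟨hi, hci⟩⟩
  obtain ⟨hjs, hcj⟩ := Finset.mem_filter.mp hj
  have h1 := congrArg (coeff (m.degree (f j))) hc
  rw [coeff_sum, Finset.sum_eq_single j, coeff_smul, coeff_zero, smul_eq_mul] at h1
  · exact mul_ne_zero hcj (m.coeff_degree_ne_zero_iff.mpr (h0 j)) h1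
  · intro l hl hlj
    rw [coeff_smul, smul_eq_mul]
    by_cases hcl : c l = 0
    · rw [hcl, zero_mul]
    · rw [m.coeff_eq_zero_of_lt, mul_zero]
      refine lt_of_le_of_ne (hmax l (Finset.mem_filter.mpr ⟨hl, hcl⟩)) fun h => hlj ?_
      exact hinj (m.toSyn.injective h)
  · exact fun h => absurd hjs h

/-- the box of exponents -/
def box {σ : Type*} [Fintype σ] [DecidableEq σ] (d : σ → ℕ) : Finset (σ → ℕ) :=
  Fintype.piFinset fun s => range (d s + 1)

theorem mem_box {σ : Type*} [Fintype σ] [DecidableEq σ] {d ν : σ → ℕ} :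
    ν ∈ box d ↔ ∀ s, ν s ≤ d s := by
  simp [box]

theorem card_box {σ : Type*} [Fintype σ] [DecidableEq σ] (d : σ → ℕ) :
    (box d).card = ∏ s, (d s + 1) := by
  simp [box]

/-- Adapted basis.  `R j` is a polynomial in the variables `e (j, k)`. -/
theorem exists_cols {σ J κ A : Type*} [Fintype σ] [DecidableEq σ] [Fintype J] [DecidableEq J]
    [Fintype κ] [Nonempty κ] [CommRing A] [IsDomain A] {e : J × κ → σ} (he : Function.Injective e)
    (d : σ → ℕ) (dd : J → ℕ) (hd : ∀ j k, d (e (j, k)) = dd j) {B : ℕ} (hB : 1 ≤ B)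
    (R : J → MvPolynomial σ A) (hR0 : ∀ j, R j ≠ 0)
    (hRB : ∀ j, ∀ μ ∈ (R j).support, ∀ s, μ s ≤ B)
    (hRs : ∀ j, ∀ μ ∈ (R j).support, ∀ s, (∀ k, s ≠ e (j, k)) → μ s = 0) :
    ∃ (l : (σ → ℕ) → J → ℕ) (rest : (σ → ℕ) → (σ →₀ ℕ)),
      (∀ ν ∈ box d, (∀ s, rest ν s ≤ d s) ∧ ∀ j k, rest ν (e (j, k)) + l ν j * B ≤ dd j) ∧
      LinearIndependent A (fun ν : box d => (∏ j, R j ^ l ν j) * monomial (rest ν) (1 : A)) ∧
      ∀ u : J → ℝ, (∀ j, 0 ≤ u j) → (∀ j, u j < 1) →
        ∑ ν ∈ box d, ∏ j, u j ^ l ν j ≤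
          (box d).card * ∏ j, (Fintype.card κ * (B / ((dd j + 1) * (1 - u j)))) := by
  classical
  let : LinearOrder σ := LinearOrder.lift' (Fintype.equivFin σ) (Fintype.equivFin σ).injective
  let m : MonomialOrder σ := MonomialOrder.lex
  set μ : J → σ →₀ ℕ := fun j => m.degree (R j) with hμ
  have hμs : ∀ j, μ j ∈ (R j).support := fun j => m.degree_mem_support (hR0 j)
  set l : (σ → ℕ) → J → ℕ := fun ν j => Finset.univ.inf' Finset.univ_nonempty
    (fun k => lev (μ j (e (j, k))) B (dd j) (ν (e (j, k)))) with hl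
  have hsum : ∀ (ν : σ → ℕ) j k, (∑ i, l ν i • μ i) (e (j, k)) = l ν j * μ j (e (j, k)) := by
    intro ν j k
    rw [Finsupp.finsetSum_apply, Finset.sum_eq_single j]
    · simp
    · intro i _ hij
      rw [Finsupp.smul_apply, hRs i _ (hμs i) _ fun k' h => hij (congrArg Prod.fst (he h)).symm,
        smul_zero]
    · simp
  have hsum0 : ∀ (ν : σ → ℕ) s, (∀ j k, s ≠ e (j, k)) → (∑ i, l ν i • μ i) s = 0 := by
    intro ν s hs
    rw [Finsupp.finsetSum_apply]
    exact Finset.sum_eq_zero fun i _ => by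
      rw [Finsupp.smul_apply, hRs i _ (hμs i) _ (hs i), smul_zero]
  have hspec : ∀ ν ∈ box d, ∀ j k, l ν j * μ j (e (j, k)) ≤ ν (e (j, k)) ∧
      ν (e (j, k)) + l ν j * (B - μ j (e (j, k))) ≤ dd j := fun ν hν j k =>
    lev_spec (hd j k ▸ mem_box.mp hν _) (Finset.inf'_le _ (Finset.mem_univ k))
  have hle : ∀ ν ∈ box d, ∑ i, l ν i • μ i ≤ Finsupp.equivFunOnFinite.symm ν := by
    intro ν hν s
    by_cases hs : ∃ j k, s = e (j, k)
    · obtain ⟨j, k, rfl⟩ := hs
      rw [hsum]
      exact (hspec ν hν j k).1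
    · push Not at hs
      rw [hsum0 ν s hs]
      exact Nat.zero_le _
  refine ⟨l, fun ν => Finsupp.equivFunOnFinite.symm ν - ∑ i, l ν i • μ i,
    fun ν hν => ⟨fun s => ?_, fun j k => ?_⟩, ?_, ?_⟩
  · rw [Finsupp.tsub_apply]
    exact (Nat.sub_le _ _).trans (mem_box.mp hν s)
  · rw [Finsupp.tsub_apply, hsum]
    obtain ⟨h1, h2⟩ := hspec ν hν j k
    have h3 : l ν j * μ j (e (j, k)) + l ν j * (B - μ j (e (j, k))) = l ν j * B := by
      rw [← mul_add, Nat.add_sub_cancel' (hRB j _ (hμs j) _)]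
    simp only [Finsupp.equivFunOnFinite_symm_apply_apply]
    omega
  · have hP : ∀ ν : σ → ℕ, ∏ j, R j ^ l ν j ≠ 0 := fun ν =>
      Finset.prod_ne_zero_iff.mpr fun j _ => pow_ne_zero _ (hR0 j)
    have hM : ∀ ρ : σ →₀ ℕ, (monomial ρ (1 : A) : MvPolynomial σ A) ≠ 0 := fun ρ => by simp
    refine linearIndependent_of_degree m _ (fun ν => mul_ne_zero (hP ν) (hM _)) ?_
    have hdeg : ∀ ν : box d, m.degree ((∏ j, R j ^ l ν j) *
        monomial (Finsupp.equivFunOnFinite.symm ν - ∑ i, l ν i • μ i) (1 : A)) =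
        Finsupp.equivFunOnFinite.symm ν.1 := by
      intro ν
      rw [m.degree_mul (hP ν) (hM _), m.degree_prod fun j _ => pow_ne_zero _ (hR0 j),
        m.degree_monomial, if_neg one_ne_zero]
      simp only [m.degree_pow]
      exact add_tsub_cancel_of_le (hle ν ν.2)
    intro ν ν' h
    simp only [hdeg] at h
    exact Subtype.ext (Finsupp.equivFunOnFinite.symm.injective h)
  · intro u h0 h1
    have h2 : ∀ ν : σ → ℕ, ∏ j, u j ^ l ν j ≤ ∑ f : J → κ, ∏ s, ∏ j,
        (if s = e (j, f j) then u j ^ lev (μ j s) B (dd j) (ν s) else 1) := by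
      intro ν
      have h3 : ∀ f : J → κ, ∏ s, ∏ j,
          (if s = e (j, f j) then u j ^ lev (μ j s) B (dd j) (ν s) else 1) =
          ∏ j, u j ^ lev (μ j (e (j, f j))) B (dd j) (ν (e (j, f j))) := by
        intro f
        rw [Finset.prod_comm]
        exact Finset.prod_congr rfl fun j _ => by rw [Finset.prod_ite_eq', if_pos (mem_univ _)]
      choose f _ hf using fun j => Finset.exists_mem_eq_inf' Finset.univ_nonempty
        (fun k => lev (μ j (e (j, k))) B (dd j) (ν (e (j, k))))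
      refine le_trans (le_of_eq ?_) (Finset.single_le_sum (f := fun f : J → κ => ∏ s, ∏ j,
        (if s = e (j, f j) then u j ^ lev (μ j s) B (dd j) (ν s) else 1))
        (fun f _ => ?_) (Finset.mem_univ f))
      · rw [h3]
        exact Finset.prod_congr rfl fun j _ => by rw [← hf j]
      · rw [h3]
        exact Finset.prod_nonneg fun j _ => pow_nonneg (h0 j) _
    refine (Finset.sum_le_sum fun ν _ => h2 ν).trans ?_
    rw [Finset.sum_comm]
    have hq : ∀ j, (0 : ℝ) ≤ B / ((dd j + 1) * (1 - u j)) := fun j =>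
      div_nonneg (Nat.cast_nonneg _) (mul_nonneg (by positivity) (by linarith [h1 j]))
    have h4 : ∀ f : J → κ, ∑ ν ∈ box d, ∏ s, ∏ j,
        (if s = e (j, f j) then u j ^ lev (μ j s) B (dd j) (ν s) else 1) ≤
        (box d).card * ∏ j, (B / ((dd j + 1) * (1 - u j)) : ℝ) := by
      intro f
      rw [box, ← Finset.prod_univ_sum (fun s => range (d s + 1)) (fun s i => ∏ j,
        (if s = e (j, f j) then u j ^ lev (μ j s) B (dd j) i else 1))]
      have h5 : ∀ s, ∑ i ∈ range (d s + 1), ∏ j,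
          (if s = e (j, f j) then u j ^ lev (μ j s) B (dd j) i else 1) ≤
          ((d s + 1 : ℕ) : ℝ) * ∏ j,
            (if s = e (j, f j) then (B / ((dd j + 1) * (1 - u j)) : ℝ) else 1) := by
        intro s
        by_cases hs : ∃ j, s = e (j, f j)
        · obtain ⟨j, rfl⟩ := hs
          have h6 : ∀ g : J → ℝ, ∏ i, (if e (j, f j) = e (i, f i) then g i else 1) = g j := by
            intro g
            rw [Finset.prod_eq_single j, if_pos rfl]
            · exact fun i _ hij => if_neg fun h => hij (congrArg Prod.fst (he h)).symm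
            · simp
          simp only [h6, hd]
          refine (sum_pow_lev (hRB j _ (hμs j) _) hB _ (h0 j) (h1 j)).trans (le_of_eq ?_)
          have h7 : 1 - u j ≠ 0 := by linarith [h1 j]
          push_cast
          field_simp
        · push Not at hs
          simp [hs]
      refine (Finset.prod_le_prod (fun s _ => Finset.sum_nonneg fun i _ =>
        Finset.prod_nonneg fun j _ => ?_) fun s _ => h5 s).trans (le_of_eq ?_)
      · split_ifs
        · exact pow_nonneg (h0 j) _
        · exact zero_le_one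
      · rw [Finset.prod_mul_distrib, ← Nat.cast_prod, ← card_box, Finset.prod_comm, box]
        congr 1
        exact Finset.prod_congr rfl fun j _ => by rw [Finset.prod_ite_eq', if_pos (mem_univ _)]
    refine (Finset.sum_le_sum fun f _ => h4 f).trans (le_of_eq ?_)
    rw [Finset.sum_const, Finset.card_univ, Fintype.card_fun, nsmul_eq_mul, Finset.prod_mul_distrib,
      Finset.prod_const, Finset.card_univ]
    push_cast
    ring

/-- few exponents have a small index -/
theorem card_low_le {α J : Type*} [Fintype J] (S : Finset α) (l : α → J → ℕ) (n : J → ℕ)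
    {s t c : ℝ} (hs : 0 < s) (hn : ∀ j, s ≤ n j) (hc : 0 ≤ c)
    (h : ∀ u : J → ℝ, (∀ j, 0 ≤ u j) → (∀ j, u j < 1) →
      ∑ ν ∈ S, ∏ j, u j ^ l ν j ≤ S.card * ∏ j, (c / ((2 * n j + 1) * (1 - u j))))
    (T : Finset α) (hT : T ⊆ S) (hlow : ∀ ν ∈ T, ∑ j, (l ν j : ℝ) / n j ≤ t) :
    (T.card : ℝ) ≤ Real.exp (s * t) * (S.card * (c / s) ^ Fintype.card J) := by
  have hn0 : ∀ j, (0 : ℝ) < n j := fun j => hs.trans_le (hn j)
  have h1 := h (fun j => Real.exp (-(s / n j))) (fun j => (Real.exp_pos _).le)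
    fun j => Real.exp_lt_one_iff.mpr (neg_lt_zero.mpr (div_pos hs (hn0 j)))
  have h2 : ∀ j, c / ((2 * n j + 1) * (1 - Real.exp (-(s / n j)))) ≤ c / s := by
    intro j
    refine div_le_div_of_nonneg_left hc hs ?_
    have h3 : s / n j ≤ 1 := (div_le_one (hn0 j)).mpr (hn j)
    have h4 : 0 < s / n j := div_pos hs (hn0 j)
    have h5 : Real.exp (-(s / n j)) * (1 + s / n j) ≤ 1 := by
      have h6 := mul_le_mul_of_nonneg_left (Real.add_one_le_exp (s / n j))
        (Real.exp_pos (-(s / n j))).le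
      rw [← Real.exp_add, neg_add_cancel, Real.exp_zero] at h6
      linarith
    have h6 : s / n j / 2 ≤ 1 - Real.exp (-(s / n j)) := by
      by_contra h7
      push Not at h7
      nlinarith
    have h7 : s = 2 * n j * (s / n j / 2) := by
      have := (hn0 j).ne'
      field_simp
    nlinarith [hn0 j]
  have h3 : ∏ j, (c / ((2 * n j + 1) * (1 - Real.exp (-(s / n j))))) ≤
      (c / s) ^ Fintype.card J := by
    refine (Finset.prod_le_prod (fun j _ => div_nonneg hc (mul_nonneg (by positivity) ?_))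
      fun j _ => h2 j).trans (by rw [Finset.prod_const, Finset.card_univ])
    linarith [Real.exp_lt_one_iff.mpr (neg_lt_zero.mpr (div_pos hs (hn0 j)))]
  have h4 : (T.card : ℝ) * Real.exp (-(s * t)) ≤ ∑ ν ∈ S, ∏ j, Real.exp (-(s / n j)) ^ l ν j := by
    refine le_trans ?_ (Finset.sum_le_sum_of_subset_of_nonneg hT fun ν _ _ =>
      Finset.prod_nonneg fun j _ => pow_nonneg (Real.exp_pos _).le _)
    rw [← nsmul_eq_mul, ← Finset.sum_const]
    refine Finset.sum_le_sum fun ν hν => ?_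
    simp only [← Real.exp_nat_mul]
    rw [← Real.exp_sum, Real.exp_le_exp]
    have h5 := mul_le_mul_of_nonneg_left (hlow ν hν) hs.le
    rw [Finset.mul_sum] at h5
    have h6 : ∑ j, (l ν j : ℝ) * -(s / n j) = -∑ j, s * ((l ν j : ℝ) / n j) := by
      rw [← Finset.sum_neg_distrib]
      exact Finset.sum_congr rfl fun j _ => by ring
    linarith
  have h5 := h4.trans (h1.trans (mul_le_mul_of_nonneg_left h3 (Nat.cast_nonneg _)))
  have h6 := mul_le_mul_of_nonneg_left h5 (Real.exp_pos (s * t)).le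
  rwa [mul_left_comm, ← Real.exp_add, add_neg_cancel, Real.exp_zero, mul_one] at h6

end Pool.Agent.Lib.MP_8865d3_nt.Fa
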