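import Pool.Agent.Lib.MP_8865d3_nt.FaDefs
import Pool.Agent.Lib.MP_8865d3_nt.FaCol
import Pool.Agent.Lib.MP_651af7_nt.Vj.Sieg

/-! A small combination of large index. -/

namespace Pool.Agent.Lib.MP_8865d3_nt.Fa

open MvPolynomial Finset Height Pool.Agent.Lib.Common.Subspace Pool.Agent.Lib.MP_e97e2b_nt
  Pool.Agent.Lib.MP_651af7_nt.Iv Pool.Agent.Lib.MP_651af7_nt.Vj

/-- As `sieg` in `Vj/Sieg.lean`, the exponent `m / (n - m)` being at most `k`. -/
theorem sieg_exp {σ V : Type*} [Fintype V] (q : V → MvPolynomial σ ℚ) (Mon : Finset (σ →₀ ℕ))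
    (hq : ∀ v, (q v).support ⊆ Mon) {T : ℝ} (hT : 1 ≤ T) (hl : ∀ v, IL (q v) T) (k : ℕ)
    (hcard : (k + 1) * Mon.card ≤ k * Fintype.card V) (hV : 0 < Fintype.card V) :
    ∃ c : V → ℤ, c ≠ 0 ∧ ∑ v, c v • q v = 0 ∧ ∀ v, |(c v : ℝ)| ≤ (Fintype.card V * T) ^ k := by
  classical
  have hV1 : (1 : ℝ) ≤ Fintype.card V := by exact_mod_cast hV
  have hVT : (1 : ℝ) ≤ Fintype.card V * T := one_le_mul_of_one_le_of_one_le hV1 hT
  choose a ha using fun v ν => (hl v).1 ν
  have key : ∀ c : V → ℤ, (∀ ν : Mon, ∑ v, a v ν * c v = 0) → ∑ v, c v • q v = 0 := by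
    intro c hc
    ext ν
    rw [coeff_sum, coeff_zero]
    by_cases hν : ν ∈ Mon
    · have h1 : ((∑ v, a v ν * c v : ℤ) : ℚ) = 0 := by exact_mod_cast hc ⟨ν, hν⟩
      rw [← h1, Int.cast_sum]
      refine sum_congr rfl fun v _ => ?_
      rw [coeff_smul, ha, zsmul_eq_mul, Int.cast_mul, mul_comm]
    · refine sum_eq_zero fun v _ => ?_
      rw [coeff_smul, notMem_support_iff.1 fun h => hν (hq v h), smul_zero]
  rw [← Fintype.card_coe] at hcard
  rcases Nat.eq_zero_or_pos (Fintype.card Mon) with h0 | h0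
  · obtain ⟨v⟩ := Fintype.card_pos_iff.mp hV
    have := Fintype.card_eq_zero_iff.mp h0
    refine ⟨fun _ => 1, fun h => one_ne_zero (congrFun h v),
      key _ fun ν => this.elim ν, fun _ => ?_⟩
    rw [Int.cast_one, abs_one]
    exact one_le_pow₀ hVT
  · let _ := Matrix.seminormedAddCommGroup (m := Mon) (n := V) (α := ℤ)
    let A : Matrix Mon V ℤ := Matrix.of fun r v => a v r
    have hlt : Fintype.card Mon < Fintype.card V := by
      refine lt_of_mul_lt_mul_left (a := k) (lt_of_lt_of_le ?_ hcard) k.zero_le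
      rw [add_mul, one_mul]
      omega
    obtain ⟨c, hc0, hc1, hc2⟩ := Int.Matrix.exists_ne_zero_int_vec_norm_le A hlt h0
    refine ⟨c, hc0, key c fun ν => congrFun hc1 ν, fun v => ?_⟩
    have hA : ‖A‖ ≤ T := by
      refine (Matrix.norm_le_iff (zero_le_one.trans hT)).mpr fun r v => ?_
      have h1 := (abs_coeff_le_len (q v) r).trans (hl v).2
      rw [ha, Rat.cast_intCast] at h1
      rw [Int.norm_eq_abs]
      exact h1
    have h1 : (Fintype.card V : ℝ) * max 1 ‖A‖ ≤ Fintype.card V * T :=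
      mul_le_mul_of_nonneg_left (max_le hT hA) (Nat.cast_nonneg _)
    have h2 : (1 : ℝ) ≤ Fintype.card V * max 1 ‖A‖ :=
      one_le_mul_of_one_le_of_one_le hV1 (le_max_left _ _)
    have h3 : ((k : ℝ) + 1) * Fintype.card Mon ≤ k * Fintype.card V := by exact_mod_cast hcard
    have h4 : (Fintype.card Mon : ℝ) < Fintype.card V := by exact_mod_cast hlt
    have h5 : (Fintype.card Mon : ℝ) / (Fintype.card V - Fintype.card Mon) ≤ k :=
      (div_le_iff₀ (by linarith)).2 (by linarith)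
    rw [← Int.norm_eq_abs]
    refine (norm_le_pi_norm c v).trans (hc2.trans ?_)
    refine (Real.rpow_le_rpow_of_exponent_le h2 h5).trans ?_
    rw [Real.rpow_natCast]
    exact pow_le_pow_left₀ (zero_le_one.trans h2) h1 k

/-- `exists_cols` (with `dd j = 2 * n j`) gives `l`, `rest`.  Call `ν ∈ box d` good if
`t < ∑ j, l ν j / n j`.  By `card_low_le` (`c = card κ * B`) at most `card (box d) / (2 q) ≤ card V / 2`
exponents are not good.  Apply `sieg_exp` with `k = 2 q` to the family indexed by `V ⊕ good` made of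
the `G i` and the columns `(∏ j, R j ^ l ν j) * monomial (rest ν) 1`; `Mon` is the image of `box d`
(`exists_box`).  `Q = - ∑ ν good, c ν • monomial (Finsupp.sumElim (l ν) (rest ν)) 1`.  If `c`
vanished on `V` the independence of the columns would give `c = 0`. -/
theorem exists_aux {σ J κ V : Type} [Fintype σ] [DecidableEq σ] [Fintype J] [DecidableEq J]
    [Fintype κ] [Nonempty κ] [Fintype V] {e : J × κ → σ} (he : Function.Injective e) (d : σ → ℕ)
    (n : J → ℕ) (hd : ∀ j k, d (e (j, k)) = 2 * n j) {B : ℕ} (hB : 1 ≤ B)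
    (R : J → MvPolynomial σ ℚ) (hR0 : ∀ j, R j ≠ 0) (hRB : ∀ j, ∀ μ ∈ (R j).support, ∀ s, μ s ≤ B)
    (hRs : ∀ j, ∀ μ ∈ (R j).support, ∀ s, (∀ k, s ≠ e (j, k)) → μ s = 0) (Λ : J → ℝ)
    (hΛ : ∀ j, IL (R j) (Λ j)) (G : V → MvPolynomial σ ℚ)
    (hG : ∀ i, ∀ μ ∈ (G i).support, ∀ s, μ s ≤ d s) {T : ℝ} (hT : 1 ≤ T) (hGT : ∀ i, IL (G i) T)
    {s t : ℝ} (hs : 0 < s) (hn : ∀ j, s ≤ n j) {q : ℕ} (hq : (box d).card ≤ q * Fintype.card V)
    (hlow : 2 * q * (Real.exp (s * t) * (Fintype.card κ * B / s) ^ Fintype.card J) ≤ 1) {M : ℝ}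
    (hM : ((Fintype.card V + (box d).card) * (T * ∏ j, Λ j ^ (2 * n j))) ^ (2 * q) ≤ M) :
    ∃ (c : V → ℤ) (Q : MvPolynomial (J ⊕ σ) ℚ), c ≠ 0 ∧ (∀ i, |(c i : ℝ)| ≤ M) ∧
      IL Q ((box d).card * M) ∧ aeval (Sum.elim R X) Q = ∑ i, c i • G i ∧
      ∀ μ ∈ Q.support, t ≤ ∑ j, (μ (Sum.inl j) : ℝ) / n j ∧ (∀ s, μ (Sum.inr s) ≤ d s) ∧
        ∀ j k, μ (Sum.inr (e (j, k))) + μ (Sum.inl j) * B ≤ 2 * n j := by
  classical
  obtain ⟨l, rest, h1, h2, h3⟩ := exists_cols he d (fun j => 2 * n j) hd hB R hR0 hRB hRs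
  obtain ⟨gd, hgd⟩ : ∃ gd, gd = (box d).filter fun ν => t < ∑ j, (l ν j : ℝ) / n j := ⟨_, rfl⟩
  have hmem : ∀ ν : gd, ν.1 ∈ box d ∧ t < ∑ j, (l ν j : ℝ) / n j := fun ν =>
    mem_filter.1 (hgd.subset ν.2)
  have hbad := card_low_le (box d) l n hs hn (c := Fintype.card κ * B) (by positivity)
    (fun u u0 u1 => by simpa only [mul_div_assoc, Nat.cast_mul, Nat.cast_ofNat] using h3 u u0 u1)
    ((box d).filter fun ν => ¬t < ∑ j, (l ν j : ℝ) / n j) (filter_subset _ _)
    fun ν hν => not_lt.1 (mem_filter.1 hν).2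
  have hsplit := card_filter_add_card_filter_not (s := box d)
    fun ν => t < ∑ j, (l ν j : ℝ) / n j
  rw [← hgd] at hsplit
  generalize ((box d).filter fun ν => ¬t < ∑ j, (l ν j : ℝ) / n j).card = bad at hbad hsplit
  have hbad' : 2 * q * bad ≤ (box d).card := by
    have h4 := mul_le_mul_of_nonneg_left hbad (show (0 : ℝ) ≤ 2 * q by positivity)
    have h5 := mul_le_mul_of_nonneg_left hlow (Nat.cast_nonneg (α := ℝ) (box d).card)
    have h6 : (2 * q * bad : ℝ) ≤ (box d).card := by linarith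
    exact_mod_cast h6
  have hbox : 0 < (box d).card := card_pos.2 ⟨0, mem_box.2 fun _ => Nat.zero_le _⟩
  have hV : 0 < Fintype.card V := Nat.pos_of_mul_pos_left (hbox.trans_le hq)
  obtain ⟨Mon, hM1, hM2⟩ := exists_box fun s => range (d s + 1)
  simp only [card_range, ← card_box] at hM1
  simp only [mem_range, Nat.lt_succ_iff] at hM2
  have hΛ1 : ∀ j, 1 ≤ Λ j := fun j => (one_le_len (hΛ j).1 (hR0 j)).trans (hΛ j).2
  have hP : 1 ≤ ∏ j, Λ j ^ (2 * n j) :=
    (prod_const_one (s := univ)).ge.trans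
      (prod_le_prod (fun _ _ => zero_le_one) fun j _ => one_le_pow₀ (hΛ1 j))
  obtain ⟨k₀⟩ := ‹Nonempty κ›
  obtain ⟨c, hc0, hc1, hc2⟩ := sieg_exp (V := V ⊕ gd)
    (Sum.elim G fun ν => (∏ j, R j ^ l ν j) * monomial (rest ν) 1) Mon
    (T := T * ∏ j, Λ j ^ (2 * n j))
    (by
      rintro (i | ν) μ hμ
      · exact (hM2 μ).2 (hG i μ hμ)
      refine (hM2 μ).2 fun s => ?_
      have h4 : ∀ w : J → ℕ, (∀ j, ∀ μ ∈ (R j).support, μ s ≤ w j) →
          μ s ≤ ∑ j, l ν j * w j + rest ν s := fun w hw =>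
        (wd_single_iff s).1 ((wd_prod univ fun j _ => ((wd_single_iff s).2 (hw j)).pow _).mul
          (wd_monomial (weight_single_one s _).le 1)) μ hμ
      by_cases h5 : ∃ j k, s = e (j, k)
      · obtain ⟨j, k, rfl⟩ := h5
        have h6 := h4 (Pi.single j B) fun j' η hη => by
          by_cases hj : j' = j
          · rw [hj, Pi.single_eq_same]
            exact hRB _ η hη _
          · exact (hRs j' η hη _ fun k' h => hj (congrArg Prod.fst (he h)).symm).trans_le
              (Nat.zero_le _)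
        rw [sum_eq_single j (fun j' _ hj => by simp [hj]) (by simp), Pi.single_eq_same] at h6
        have h7 := (h1 ν (hmem ν).1).2 j k
        rw [hd]
        omega
      · have h6 := h4 0 fun j η hη => (hRs j η hη _ fun k h => h5 ⟨j, k, h⟩).le
        simp only [Pi.zero_apply, mul_zero, sum_const_zero, zero_add] at h6
        exact h6.trans ((h1 ν (hmem ν).1).1 s))
    (one_le_mul_of_one_le_of_one_le hT hP)
    (by
      rintro (i | ν)
      · exact (hGT i).mono (le_mul_of_one_le_right (zero_le_one.trans hT) hP)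
      refine ((il_prod univ fun j _ => (hΛ j).pow (l ν j)).mul (il_monomial_one _)).mono ?_
      rw [mul_one]
      refine le_trans (prod_le_prod (fun j _ => pow_nonneg (hΛ j).nonneg _) fun j _ =>
        pow_le_pow_right₀ (hΛ1 j) ?_) (le_mul_of_one_le_left (zero_le_one.trans hP) hT)
      exact (Nat.le_mul_of_pos_right _ hB).trans
        ((Nat.le_add_left _ _).trans ((h1 ν (hmem ν).1).2 j k₀)))
    (2 * q)
    (by
      rw [hM1, Fintype.card_sum, Fintype.card_coe, add_mul, one_mul, mul_add]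
      have h4 : 2 * q * gd.card + 2 * q * bad = 2 * q * (box d).card := by rw [← mul_add, hsplit]
      rw [mul_assoc 2 q (Fintype.card V)]
      omega)
    (by rw [Fintype.card_sum]; omega)
  have hgb : (gd.card : ℝ) ≤ (box d).card := by exact_mod_cast Nat.le.intro hsplit
  have hc3 : ∀ v, |(c v : ℝ)| ≤ M := fun v => by
    refine (hc2 v).trans (le_trans ?_ hM)
    rw [Fintype.card_sum, Fintype.card_coe, Nat.cast_add]
    have := zero_le_one.trans hT
    have := zero_le_one.trans hP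
    gcongr
  rw [Fintype.sum_sum_type] at hc1
  simp only [Sum.elim_inl, Sum.elim_inr] at hc1
  refine ⟨fun i => c (Sum.inl i), -∑ ν : gd, c (Sum.inr ν) •
    monomial (Finsupp.equivFunOnFinite.symm (Sum.elim (l ν) (rest ν))) 1, fun h => hc0 ?_,
    fun i => hc3 _, ?_, ?_, fun μ hμ => ?_⟩
  · have h4 : ∀ i, c (Sum.inl i) = 0 := congrFun h
    simp only [h4, zero_smul, sum_const_zero, zero_add] at hc1
    simp only [← Int.cast_smul_eq_zsmul ℚ] at hc1
    have h5 := Fintype.linearIndependent_iff.1 (h2.comp (fun ν : gd => ⟨ν.1, (hmem ν).1⟩)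
      fun ν ν' h => Subtype.ext (Subtype.mk.inj h)) _ hc1
    funext v
    rcases v with i | ν
    · exact h4 i
    · exact_mod_cast h5 ν
  · refine (il_sum univ fun ν _ => ((il_monomial_one _).zsmul _).mono
      ((mul_one _).trans_le (hc3 _))).neg.mono ?_
    rw [sum_const, card_univ, Fintype.card_coe, nsmul_eq_mul]
    exact mul_le_mul_of_nonneg_right hgb ((abs_nonneg _).trans (hc3 (Sum.inl
      (Fintype.card_pos_iff.1 hV).some)))
  · rw [eq_neg_of_add_eq_zero_left hc1, map_neg, map_sum]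
    refine congrArg _ (sum_congr rfl fun ν _ => ?_)
    rw [map_zsmul, aeval_monomial, map_one, one_mul, Finsupp.prod_fintype _ _ fun _ => pow_zero _,
      Fintype.prod_sum_type, monomial_eq, C_1, one_mul,
      Finsupp.prod_fintype _ _ fun _ => pow_zero _]
    rfl
  · rw [support_neg] at hμ
    obtain ⟨ν, -, h4⟩ := mem_biUnion.1 (support_sum hμ)
    rw [← Int.cast_smul_eq_zsmul ℚ] at h4
    rw [mem_singleton.1 (support_monomial_subset (support_smul h4))]
    exact ⟨(hmem ν).2.le, h1 ν (hmem ν).1⟩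

end Pool.Agent.Lib.MP_8865d3_nt.Fa
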