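import Pool.Agent.Lib.MP_8865d3_nt.FaMs
import Pool.Agent.Lib.MP_651af7_nt.Vj.Hensel

/-! Formal branches of the curves through given points. -/

namespace Pool.Agent.Lib.MP_8865d3_nt.Fa

open MvPolynomial Finset Height Pool.Agent.Lib.Common.Subspace Pool.Agent.Lib.MP_e97e2b_nt
  Pool.Agent.Lib.MP_651af7_nt.Iv Pool.Agent.Lib.MP_651af7_nt.Vj

theorem fabr_one {K : Type} [Field K] [CharZero K] (L : Loc K) {a b : ℤ} {Λ : ℝ} (hΛ : 1 ≤ Λ)
    (ha : |(a : ℝ)| ≤ Λ) (hb : |(b : ℝ)| ≤ Λ) {x₀ y₀ : K} (h : OnE a b x₀ y₀) (hy : y₀ ≠ 0)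
    {u : PowerSeries K} (hu0 : PowerSeries.constantCoeff u = y₀)
    (hu : u ^ 2 = (PowerSeries.C x₀ + PowerSeries.X) ^ 3 +
      PowerSeries.C (a : K) * (PowerSeries.C x₀ + PowerSeries.X) + PowerSeries.C (b : K))
    (k : ℕ) {ρ : ℝ} (hρ : 0 ≤ ρ) (hρ' : ρ * (((5832 * Λ ^ 3) ^ 2) ^ L.e * max (L.v x₀) 1 ^ 18 *
      max (L.v (2 * y₀)⁻¹) 1 ^ 2) ≤ 1) :
    L.N k ρ (PowerSeries.C x₀ + PowerSeries.X) ≤ ((5832 * Λ ^ 3) ^ 2) ^ L.e * max (L.v x₀) 1 ∧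
      L.N k ρ u ≤ (((5832 * Λ ^ 3) ^ 2) ^ L.e * max (L.v x₀) 1) ^ 2 := by
  set M := max (L.v x₀) 1 with hM
  set M' := max (L.v (2 * y₀)⁻¹) 1 with hM'
  have hM1 : 1 ≤ M := le_max_right _ _
  have hM1' : 1 ≤ M' := le_max_right _ _
  have hA : 1 ≤ Λ ^ L.e := one_le_pow₀ hΛ
  have ha' : L.v (a : K) ≤ Λ ^ L.e :=
    (L.nv.intCast_le a).trans (pow_le_pow_left₀ (abs_nonneg _) ha _)
  have hb' : L.v (b : K) ≤ Λ ^ L.e :=
    (L.nv.intCast_le b).trans (pow_le_pow_left₀ (abs_nonneg _) hb _)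
  set E := 3 ^ L.e * Λ ^ L.e * M ^ 2 with hE
  have hyE : L.v y₀ ≤ E := L.nv.y_le h (L.v.map_pow _ _) hA hM1 ha' hb' (le_max_left _ _)
  have h3 : (1 : ℝ) ≤ 3 ^ L.e := one_le_pow₀ (by norm_num)
  have hM2 : M ≤ M ^ 2 := le_self_pow₀ hM1 two_ne_zero
  have hAE : Λ ^ L.e ≤ E := (le_mul_of_one_le_left (by positivity) h3).trans
    (le_mul_of_one_le_right (by positivity) (hM1.trans hM2))
  have hME : M ≤ E := hM2.trans (le_mul_of_one_le_left (by positivity)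
    (one_le_mul_of_one_le_of_one_le h3 hA))
  have hE1 : 1 ≤ E := hM1.trans hME
  set Q := 216 ^ L.e * E ^ 3 * M' with hQ
  have hQ1 : 1 ≤ Q := one_le_mul_of_one_le_of_one_le (one_le_mul_of_one_le_of_one_le
    (one_le_pow₀ (by norm_num)) (one_le_pow₀ hE1)) hM1'
  have hQ0 : 0 < Q := zero_lt_one.trans_le hQ1
  have hΛ3 : Λ ≤ Λ ^ 3 := le_self_pow₀ hΛ three_ne_zero
  have hc : 5832 * Λ ^ 3 ≤ (5832 * Λ ^ 3) ^ 2 := le_self_pow₀ (by linarith) two_ne_zero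
  have hQ2 : Q ^ 2 ≤ ((5832 * Λ ^ 3) ^ 2) ^ L.e * M ^ 18 * M' ^ 2 := by
    have e1 : Q ^ 2 = ((5832 * Λ ^ 3) ^ 2) ^ L.e * M ^ 12 * M' ^ 2 := by
      rw [hQ, hE]
      rcases Nat.le_one_iff_eq_zero_or_eq_one.1 L.e_le with he | he <;> rw [he] <;> ring
    rw [e1]
    exact mul_le_mul_of_nonneg_right (mul_le_mul_of_nonneg_left
      (pow_le_pow_right₀ hM1 (by norm_num)) (by positivity)) (by positivity)
  have hρQ : ρ * Q ^ 2 ≤ 1 := (mul_le_mul_of_nonneg_left hQ2 hρ).trans hρ'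
  have hρ1 : ρ ≤ 1 := (le_mul_of_one_le_right hρ (one_le_pow₀ hQ1)).trans hρQ
  have hx0 : PowerSeries.constantCoeff (PowerSeries.C x₀ + PowerSeries.X : PowerSeries K) =
      x₀ := by simp
  have key := L.sqrt_est (κ := k) hρ hu (hu0 ▸ hy) (τ := ρ) (t' := 1 / Q) (Q := Q) hE1
    (ha'.trans hAE) (hb'.trans hAE) (by rw [hx0]; exact (le_max_left _ _).trans hME)
    (hu0 ▸ hyE) (by
      rw [hu0]
      exact mul_le_mul_of_nonneg_left (le_max_left _ _) (by positivity)) hQ1 hρ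
    (by rw [one_div, inv_mul_cancel₀ hQ0.ne']) (by
      rw [le_div_iff₀ hQ0]
      linarith [show ρ * Q * Q = ρ * Q ^ 2 by ring]) (by
      rw [hx0, add_sub_cancel_left]
      exact L.N_X hρ)
  constructor
  · refine ((L.ser k hρ).add_le_two (M := M) ((L.N_C hρ _).le.trans (le_max_left _ _))
      ((L.N_X hρ).trans (hρ1.trans hM1))).trans ?_
    exact mul_le_mul_of_nonneg_right (pow_le_pow_left₀ zero_le_two (by linarith) _)
      (by positivity)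
  · have e1 : u = PowerSeries.C y₀ + (u - PowerSeries.C (PowerSeries.constantCoeff u)) := by
      rw [hu0]
      ring
    have e2 : 1 / Q ≤ E := ((div_le_one hQ0).2 hQ1).trans hE1
    rw [e1]
    refine ((L.ser k hρ).add_le_two (M := E) ((L.N_C hρ _).le.trans hyE) (key.trans e2)).trans ?_
    have e3 : (2 : ℝ) ^ L.e * E = (6 * Λ) ^ L.e * M ^ 2 := by
      rw [hE]
      rcases Nat.le_one_iff_eq_zero_or_eq_one.1 L.e_le with he | he <;> rw [he] <;> ring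
    change (2 : ℝ) ^ L.e * E ≤ _
    rw [e3, mul_pow _ M]
    refine mul_le_mul_of_nonneg_right ((pow_le_pow_left₀ (by positivity) (by linarith) _).trans
      (le_self_pow₀ (one_le_pow₀ (by linarith)) two_ne_zero)) (by positivity)

/-- `y p = emb p (branch)` with `exists_sqrt_branch` for `x = C (x₀ p) + X`.  Let `1 + |a p| + |b p| ≤ Λ`,
`M = max (v x₀) 1`, `M' = max (v (2 y₀)⁻¹) 1`, `E = (3 Λ) ^ e * M ^ 2` (`L.nv.y_le`, `intCast_le`),
`Q = 216 ^ e * E ^ 3 * M'`, `t' = 1 / Q`, `τ = 1 / Q ^ 2`, `ρ p = r p / Q ^ 2`, `c = (5832 Λ ^ 3) ^ 2`;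
`Loc.sqrt_est` gives `N (y - C y₀) ≤ 1`, then `add_le_two`; `exists_mser`. -/
theorem exists_branch {K τ : Type} [Field K] [CharZero K] [Fintype τ] (a b : τ → ℤ) :
    ∃ c : ℝ, 1 ≤ c ∧ ∀ x₀ y₀ : τ → K, (∀ p, OnE (a p) (b p) (x₀ p) (y₀ p)) →
      (∀ p, y₀ p ≠ 0) → ∃ y : τ → MvPowerSeries τ K,
        (∀ p, OnE (a p) (b p) (xser x₀ p) (y p)) ∧
        (∀ p, MvPowerSeries.constantCoeff (y p) = y₀ p) ∧ Branch c x₀ y₀ y := by
  obtain ⟨Λ, hΛ, hab⟩ : ∃ Λ : ℝ, 1 ≤ Λ ∧ ∀ p, |(a p : ℝ)| ≤ Λ ∧ |(b p : ℝ)| ≤ Λ := by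
    have h0 : ∀ p ∈ (univ : Finset τ), 0 ≤ |(a p : ℝ)| + |(b p : ℝ)| := fun p _ => by positivity
    refine ⟨1 + ∑ p, (|(a p : ℝ)| + |(b p : ℝ)|), by linarith [sum_nonneg h0], fun p => ?_⟩
    have h1 := single_le_sum h0 (mem_univ p)
    constructor <;> linarith [abs_nonneg (a p : ℝ), abs_nonneg (b p : ℝ)]
  have hc : 1 ≤ (5832 * Λ ^ 3) ^ 2 := one_le_pow₀ (by linarith [one_le_pow₀ (n := 3) hΛ])
  refine ⟨(5832 * Λ ^ 3) ^ 2, hc, fun x₀ y₀ h hy => ?_⟩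
  have h1 : ∀ p, ∃ u : PowerSeries K, PowerSeries.constantCoeff u = y₀ p ∧
      u ^ 2 = (PowerSeries.C (x₀ p) + PowerSeries.X) ^ 3 + PowerSeries.C (a p : K) *
        (PowerSeries.C (x₀ p) + PowerSeries.X) + PowerSeries.C (b p : K) := fun p =>
    exists_sqrt_branch _ (by simpa [OnE] using h p) (hy p)
  choose u hu0 hu using h1
  have hx : ∀ p, xser x₀ p = emb p (PowerSeries.C (x₀ p) + PowerSeries.X) := fun p => by
    rw [map_add, emb_C, emb_X, xser]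
  refine ⟨fun p => emb p (u p), fun p => ?_, fun p => (constantCoeff_emb p _).trans (hu0 p), ?_⟩
  · have h2 := congrArg (emb p) (hu p)
    rw [map_intCast, map_intCast] at h2
    simp only [map_pow, map_add (emb p) _ (b p : PowerSeries K), map_add (emb p) (_ ^ 3), map_mul,
      map_intCast, ← hx] at h2
    exact h2
  · intro L κ r hr hr1
    set P : τ → ℝ := fun p => ((5832 * Λ ^ 3) ^ 2) ^ L.e * max (L.v (x₀ p)) 1 ^ 18 *
      max (L.v (2 * y₀ p)⁻¹) 1 ^ 2 with hP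
    have hP1 : ∀ p, 1 ≤ P p := fun p => one_le_mul_of_one_le_of_one_le
      (one_le_mul_of_one_le_of_one_le (one_le_pow₀ hc) (one_le_pow₀ (le_max_right _ _)))
      (one_le_pow₀ (le_max_right _ _))
    have hP0 : ∀ p, 0 < P p := fun p => zero_lt_one.trans_le (hP1 p)
    have hρ : ∀ p, 0 ≤ r p / P p := fun p => (div_pos (hr p) (hP0 p)).le
    obtain ⟨n, hn, n1, n2, n3⟩ := exists_mser L κ (fun p => r p / P p) hρ
    refine ⟨n, hn, fun w => ?_, n2, fun p => ?_⟩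
    · have h2 := n1 w
      simp only [div_pow, prod_div_distrib] at h2
      rw [← mul_div_assoc, div_le_iff₀ (prod_pos fun p _ => pow_pos (hP0 p) _)] at h2
      exact h2
    · obtain ⟨k1, k2⟩ := fabr_one L hΛ (hab p).1 (hab p).2 (h p) (hy p) (hu0 p) (hu p) (κ p) (hρ p)
        (((div_mul_cancel₀ (r p) (hP0 p).ne').le).trans (hr1 p))
      refine ⟨?_, ?_, (n3 p _).trans k2⟩
      · rw [← emb_X]
        exact (n3 p _).trans ((L.N_X (hρ p)).trans (div_le_self (hr p).le (hP1 p)))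
      · rw [hx]
        exact (n3 p _).trans k1

/-- The plain estimate: `r = 1`, `Nrm.aeval_wd` with the weights `wt p` and
`E p = c ^ e * max (v (x₀ p)) 1`. -/
theorem Branch.coeff_le {K τ : Type} [Field K] [CharZero K] [Fintype τ] [DecidableEq τ] {c : ℝ}
    {x₀ y₀ : τ → K} {y : τ → MvPowerSeries τ K} (h : Branch c x₀ y₀ y) (hc : 1 ≤ c) (L : Loc K)
    (κ : τ →₀ ℕ) {F : MvPolynomial (τ ⊕ τ) ℚ} {T : ℝ} (hF : IL F T) (D : τ → ℕ)
    (hD : ∀ p, WD (wt p) F (D p)) :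
    L.v (MvPowerSeries.coeff κ (aeval (Sum.elim (xser x₀) y) F)) ≤
      (T * c ^ ∑ p, (D p + κ p)) ^ L.e * ((∏ p, max (L.v (x₀ p)) 1 ^ (D p + 18 * κ p)) *
        ∏ p, max (L.v (2 * y₀ p)⁻¹) 1 ^ (2 * κ p)) := by
  obtain ⟨n, hn, n1, -, n3⟩ := h L κ (fun _ => 1) (fun _ => one_pos) (fun _ => le_rfl)
  have h1 := n.aeval_wd wt D (fun p => c ^ L.e * max (L.v (x₀ p)) 1)
    (fun p => one_le_mul_of_one_le_of_one_le (one_le_pow₀ hc) (le_max_right _ _)) hF hD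
    (Sum.elim (xser x₀) y) (by
      rintro (p | p)
      · simpa [wt] using (n3 p).2.1
      · simpa [wt] using (n3 p).2.2)
  have h2 := n1 (aeval (Sum.elim (xser x₀) y) F)
  simp only [one_pow, prod_const_one, mul_one] at h2
  have hc0 : 0 ≤ c := zero_le_one.trans hc
  refine h2.trans ((mul_le_mul_of_nonneg_right h1 (prod_nonneg fun p _ => by positivity)).trans
    (le_of_eq ?_))
  rw [hn, mul_pow, ← prod_pow_eq_pow_sum, ← prod_pow, mul_assoc, mul_assoc, ← prod_mul_distrib,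
    ← prod_mul_distrib, ← prod_mul_distrib]
  congr 1
  exact prod_congr rfl fun p _ => by ring

end Pool.Agent.Lib.MP_8865d3_nt.Fa
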