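import Pool.Agent.Lib.MP_8865d3_nt.FaDefs

/-! Degrees, lengths and presentations of the basic sections. -/

namespace Pool.Agent.Lib.MP_8865d3_nt.Fa

open MvPolynomial Finset Height Pool.Agent.Lib.Common.Subspace Pool.Agent.Lib.MP_e97e2b_nt
  Pool.Agent.Lib.MP_651af7_nt.Iv Pool.Agent.Lib.MP_651af7_nt.Vj

variable {J κ : Type} [Fintype J] [Fintype κ]

/-- `map_fac`, `map3_mulP`. -/
theorem map_sec {R S : Type*} [CommRing R] [CommRing S] (f : R →+* S) (a b : κ → ℤ) (s n : J → ℕ)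
    (x y : Option J × κ → R) (e : J × κ → Bool) (i : Option J × κ → ℕ) :
    f (sec a b s n x y e i) = sec a b s n (fun p => f (x p)) (fun p => f (y p)) e i := by
  simp only [sec, map_mul, map_prod, map_pow, map_fac, map3_mulP, map_intCast]

theorem aeval_secP {S : Type*} [CommRing S] [Algebra ℚ S] (a b : κ → ℤ) (s n : J → ℕ)
    (x y : Option J × κ → S) (e : J × κ → Bool) (i : Option J × κ → ℕ) :
    aeval (Sum.elim x y) (secP a b s n e i) = sec a b s n x y e i := by
  refine (map_sec (aeval (Sum.elim x y) : MvPolynomial _ ℚ →ₐ[ℚ] S).toRingHom a b s n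
    (fun p => X (Sum.inl p)) (fun p => X (Sum.inr p)) e i).trans ?_
  simp

/-- `wd_prod`, `wd_fac`, `wd_mulP` with `c = 0`.  For `p = (some j, k)` only the factor `(j, k)` has
positive weight `2 * n j`; for `p = (none, k)` the factors `(j, k)` have weight
`n j * (2 * 4 ^ s j) = 2 * N` and the last product has weight at most `N`. -/
theorem wd_secP [DecidableEq J] [DecidableEq κ] (a b : κ → ℤ) {s n : J → ℕ} {N : ℕ}
    (hN : ∀ j, n j * 4 ^ s j = N) (e : J × κ → Bool) {i : Option J × κ → ℕ}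
    (hi : ∀ p, i p ≤ nn N n p) (p : Option J × κ) : WD (wt p) (secP a b s n e i) (DD N n p) := by
  have hc : ∀ z : ℤ, WD (wt p) (z : MvPolynomial ((Option J × κ) ⊕ (Option J × κ)) ℚ) 0 := by
    intro z
    simpa using wd_C (wt p) (z : ℚ)
  have hx : ∀ q, WD (wt p) (X (Sum.inl q) : MvPolynomial ((Option J × κ) ⊕ (Option J × κ)) ℚ)
      (if q = p then 1 else 0) := fun q => wd_X (wt p) (Sum.inl q)
  have hy : ∀ q, WD (wt p) (X (Sum.inr q) : MvPolynomial ((Option J × κ) ⊕ (Option J × κ)) ℚ)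
      (2 * if q = p then 1 else 0) := by
    intro q
    refine (wd_X (wt p) (Sum.inr q)).mono (le_of_eq ?_)
    simp only [wt, Sum.elim_inr]
    split_ifs <;> rfl
  unfold secP sec
  refine ((wd_prod (univ : Finset (J × κ)) (d := fun q => n q.1 *
    (2 * ((if ((some q.1, q.2) : Option J × κ) = p then 1 else 0) +
      4 ^ s q.1 * ((if ((none, q.2) : Option J × κ) = p then 1 else 0) + 0) + 0))) ?_).mul
    (wd_prod (univ : Finset κ)
      (d := fun k => i (none, k) * if ((none, k) : Option J × κ) = p then 1 else 0) ?_)).mono ?_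
  · intro q _
    obtain ⟨k1, k2, k3⟩ := wd_mulP (hc (a q.2)) (hc (b q.2)) (hx (none, q.2)) (hy (none, q.2))
      (s q.1)
    exact wd_fac (hc _) (hc _) (hx _) (hy _) k1 k2 k3 (hi (some q.1, q.2)) _
  · intro k _
    exact (hx _).pow _
  · obtain ⟨_ | j, k⟩ := p
    · have h1 : i (none, k) ≤ N := hi (none, k)
      have h2 : ∀ j, n j * (2 * 4 ^ s j) = 2 * N := by
        intro j
        rw [← hN j]
        ring
      simp only [DD, Option.elim, Prod.mk.injEq, reduceCtorEq, false_and, true_and, if_false,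
        add_zero, zero_add, mul_ite, mul_one, mul_zero, Fintype.sum_prod_type, Finset.sum_ite_eq',
        Finset.mem_univ, if_true, h2, Finset.sum_const, Finset.card_univ, smul_eq_mul]
      nlinarith
    · rw [Finset.sum_eq_single (j, k)]
      · simp [DD, mul_comm]
      · rintro ⟨j', k'⟩ _ hq
        have : ¬((some j', k') : Option J × κ) = (some j, k) := by
          intro h
          apply hq
          simpa using h
        simp [this]
      · simp

/-- `il_prod`, `il_fac`, `il_mulP`: `12 Λ ^ 2 * ((3 Λ) ^ 4 ^ s) ^ 2 ≤ (108 Λ ^ 4) ^ 4 ^ s`. -/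
theorem il_secP (a b : κ → ℤ) {Λ : ℝ} (hΛ : 1 ≤ Λ) (ha : ∀ k, |(a k : ℝ)| ≤ Λ)
    (hb : ∀ k, |(b k : ℝ)| ≤ Λ) {s n : J → ℕ} {N : ℕ} (hN : ∀ j, n j * 4 ^ s j = N)
    (e : J × κ → Bool) {i : Option J × κ → ℕ} (hi : ∀ p, i p ≤ nn N n p) :
    IL (secP a b s n e i) ((108 * Λ ^ 4) ^ (N * (Fintype.card J * Fintype.card κ))) := by
  have hc : ∀ z : ℤ, |(z : ℝ)| ≤ Λ →
      IL (z : MvPolynomial ((Option J × κ) ⊕ (Option J × κ)) ℚ) Λ := by
    intro z hz
    have := (il_intCast (σ := (Option J × κ) ⊕ (Option J × κ)) z).mono hz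
    simpa using this
  unfold secP sec
  refine ((il_prod (univ : Finset (J × κ)) (t := fun _ => (108 * Λ ^ 4) ^ N) ?_).mul
    (il_prod (univ : Finset κ) (t := fun _ => 1) ?_)).mono ?_
  · intro q _
    obtain ⟨k1, k2, k3⟩ := il_mulP hΛ (hc _ (ha q.2)) (hc _ (hb q.2))
      (il_X (Sum.inl ((none, q.2) : Option J × κ))) (il_X (Sum.inr ((none, q.2) : Option J × κ)))
      (s q.1)
    refine (il_fac hΛ (hc _ (ha q.2)) (hc _ (hb q.2)) (il_X _) (il_X _) k1 k2 k3
      (hi (some q.1, q.2)) _).mono ?_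
    rw [← hN q.1, mul_comm (n q.1), pow_mul]
    refine pow_le_pow_left₀ (by positivity) ?_ _
    have h1 : (1 : ℝ) ≤ 12 * Λ ^ 2 := by nlinarith
    have h2 : 12 * Λ ^ 2 ≤ (12 * Λ ^ 2) ^ 4 ^ s q.1 :=
      le_self_pow₀ h1 (pow_ne_zero _ (by norm_num))
    have h3 : (108 * Λ ^ 4) ^ 4 ^ s q.1 =
        (12 * Λ ^ 2) ^ 4 ^ s q.1 * ((3 * Λ) ^ 4 ^ s q.1) ^ 2 := by
      rw [← pow_mul, mul_comm (4 ^ s q.1) 2, pow_mul, ← mul_pow]
      congr 1
      ring
    rw [h3]
    exact mul_le_mul_of_nonneg_right h2 (sq_nonneg _)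
  · intro k _
    simpa using (il_X (Sum.inl ((none, k) : Option J × κ))).pow (i (none, k))
  · simp only [Finset.prod_const, Finset.card_univ, Fintype.card_prod, one_pow, mul_one,
      ← pow_mul, le_refl]

/-- `fac_true`. -/
theorem sec_eq_mul {R : Type*} [CommRing R] (a b : κ → ℤ) (s n : J → ℕ) (x y : Option J × κ → R)
    (e : J × κ → Bool) (w : J × κ → R)
    (hw : ∀ p : J × κ, e p = true →
      aP (a p.2 : R) (b p.2 : R) (x (some p.1, p.2)) (y (some p.1, p.2))
        (mulP (a p.2 : R) (b p.2 : R) (x (none, p.2)) (y (none, p.2)) (s p.1)) =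
        w p * aD (x (some p.1, p.2))
          (mulP (a p.2 : R) (b p.2 : R) (x (none, p.2)) (y (none, p.2)) (s p.1)) ∧
      aT (a p.2 : R) (b p.2 : R) (x (some p.1, p.2))
        (mulP (a p.2 : R) (b p.2 : R) (x (none, p.2)) (y (none, p.2)) (s p.1)) =
        w p * aM (a p.2 : R) (b p.2 : R) (x (some p.1, p.2)) (y (some p.1, p.2))
          (mulP (a p.2 : R) (b p.2 : R) (x (none, p.2)) (y (none, p.2)) (s p.1)))
    {i : Option J × κ → ℕ} (hi : ∀ j k, i (some j, k) ≤ n j) :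
    sec a b s n x y e i =
      (∏ p : J × κ, if e p = true then w p ^ n p.1 else 1) * sec a b s n x y (fun _ => false) i := by
  unfold sec
  rw [← mul_assoc, ← Finset.prod_mul_distrib]
  congr 1
  refine Finset.prod_congr rfl fun p _ => ?_
  by_cases hp : e p = true
  · rw [if_pos hp, hp]
    exact fac_true (hw p hp).1 (hw p hp).2 (hi _ _)
  · rw [if_neg hp, one_mul, Bool.not_eq_true _ |>.mp hp]

/-- `mulP_pt` and `add_pt` in `F` (with `map3_mulP`, `map_aD`, ..); one of `aD`, `aM` is a unit of `R`;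
divide and use `aT_mul_aD`, `onC_mulP`, as in `exists_series_quot`. -/
theorem exists_plus {F R : Type} [Field F] [CharZero F] [CommRing R] (π : R →+* F)
    (hπ : ∀ f, π f ≠ 0 → IsUnit f) {a b : ℤ} {x y u w : R} (e : OnE a b x y)
    (e' : OnE a b u w) {P Q : Pt (a : F) (b : F)} (hx : π x = xc P) (hy : π y = yc P)
    (hu : π u = xc Q) (hw : π w = yc Q) (s : ℕ) (hP : P ≠ 0) (hQ : 2 ^ s • Q ≠ 0)
    (h1 : P + 2 ^ s • Q ≠ 0) :
    ∃ ξ : R, π ξ = xc (P + 2 ^ s • Q) ∧
      aP (a : R) (b : R) x y (mulP (a : R) (b : R) u w s) = ξ * aD x (mulP (a : R) (b : R) u w s) ∧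
      aT (a : R) (b : R) x (mulP (a : R) (b : R) u w s) =
        ξ * aM (a : R) (b : R) x y (mulP (a : R) (b : R) u w s) := by
  obtain rfl | ⟨x₀, y₀, h, rfl⟩ := P.cases
  · exact absurd rfl hP
  obtain rfl | ⟨u₀, w₀, h', rfl⟩ := Q.cases
  · exact absurd (smul_zero _) hQ
  rw [xc_pt] at hx hu
  rw [yc_pt] at hy hw
  obtain ⟨hB, h₂, e₂⟩ := mulP_pt h' s hQ
  obtain h0 | ⟨x', y', h₃, e₃⟩ := (pt x₀ y₀ h + 2 ^ s • pt u₀ w₀ h').cases
  · exact absurd h0 h1
  rw [e₃, xc_pt]
  rw [e₂] at e₃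
  obtain ⟨k1, k2, k3⟩ := add_pt h hB h₂ e₃
  have m : map3 π (mulP (a : R) (b : R) u w s) = mulP (a : F) (b : F) u₀ w₀ s := by
    rw [map3_mulP, map_intCast, map_intCast, hu, hw]
  have mD : π (aD x (mulP (a : R) (b : R) u w s)) = aD x₀ (mulP (a : F) (b : F) u₀ w₀ s) := by
    rw [map_aD, m, hx]
  have mM : π (aM (a : R) (b : R) x y (mulP (a : R) (b : R) u w s)) =
      aM (a : F) (b : F) x₀ y₀ (mulP (a : F) (b : F) u₀ w₀ s) := by
    rw [map_aM, m, hx, hy, map_intCast, map_intCast]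
  have mP : π (aP (a : R) (b : R) x y (mulP (a : R) (b : R) u w s)) =
      aP (a : F) (b : F) x₀ y₀ (mulP (a : F) (b : F) u₀ w₀ s) := by
    rw [map_aP, m, hx, hy, map_intCast, map_intCast]
  have mT : π (aT (a : R) (b : R) x (mulP (a : R) (b : R) u w s)) =
      aT (a : F) (b : F) x₀ (mulP (a : F) (b : F) u₀ w₀ s) := by
    rw [map_aT, m, hx, map_intCast, map_intCast]
  have key := aT_mul_aD (a := (a : R)) (b := (b : R)) (x := x) (y := y) e (onC_mulP e' s)
  rw [← mD, ← mP] at k1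
  rw [← mT, ← mM] at k2
  rw [← mD, ← mM] at k3
  generalize aD x (mulP (a : R) (b : R) u w s) = d at *
  generalize aM (a : R) (b : R) x y (mulP (a : R) (b : R) u w s) = g at *
  generalize aP (a : R) (b : R) x y (mulP (a : R) (b : R) u w s) = q at *
  generalize aT (a : R) (b : R) x (mulP (a : R) (b : R) u w s) = t at *
  rcases k3 with k3 | k3
  · obtain ⟨d', hd⟩ := (hπ d k3).exists_right_inv
    have hd' : π d * π d' = 1 := by rw [← map_mul, hd, map_one]
    refine ⟨q * d', ?_, ?_, ?_⟩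
    · rw [map_mul, k1, mul_assoc, hd', mul_one]
    · linear_combination (-q) * hd
    · linear_combination d' * key - t * hd
  · obtain ⟨g', hg⟩ := (hπ g k3).exists_right_inv
    have hg' : π g * π g' = 1 := by rw [← map_mul, hg, map_one]
    refine ⟨t * g', ?_, ?_, ?_⟩
    · rw [map_mul, k2, mul_assoc, hg', mul_one]
    · linear_combination (-g') * key - q * hg
    · linear_combination (-t) * hg

end Pool.Agent.Lib.MP_8865d3_nt.Fa
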