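import Pool.Agent.Lib.MP_8865d3_nt.FaBr
import Pool.Agent.Lib.MP_8865d3_nt.FaSec
import Pool.Agent.Lib.MP_8865d3_nt.FaPF
import Pool.Agent.Lib.MP_8865d3_nt.FaCol

/-! The product formula applied to the leading coefficient. -/

namespace Pool.Agent.Lib.MP_8865d3_nt.Fa

open MvPolynomial Finset Height Pool.Agent.Lib.Common.Subspace Pool.Agent.Lib.MP_e97e2b_nt
  Pool.Agent.Lib.MP_651af7_nt.Iv Pool.Agent.Lib.MP_651af7_nt.Vj

variable {K J κ : Type} [Field K] [NumberField K] [Fintype J] [Fintype κ] [DecidableEq J]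
  [DecidableEq κ] {a b : κ → ℤ}

open Classical in
/-- The presentation adapted to the absolute value `v`. -/
noncomputable def pres (v : AbsoluteValue K ℝ) (X : Option J → Pts K a b) (s : J → ℕ) :
    J × κ → Bool :=
  fun p => decide (1 < v (xc (X (some p.1) p.2 + 2 ^ s p.1 • X none p.2)))

/-- `exists_min_coeff` gives `κ'` and `γ`, the coefficient for `fun _ => false`.  Choose `w p` by
`exists_plus` (`π = constantCoeff`, `MvPowerSeries.isUnit_iff_constantCoeff`) when the sum is not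
`0`.  For every `L`, `sec_eq_mul` and `aeval_secP` give that the coefficient for `pres L.v X s` has
absolute value `L.v γ * ∏ p, max (L.v (xc (sum p))) 1 ^ n p.1`.  `Branch.coeff_le` with
`D p = DD N n p + 2` (`wd_secP`, `wd_sum`, `WD.zsmul`, `WD.mono`), then `pf_gain` with the index type
`τ ⊕ τ` on the right. -/
theorem core_ineq {v : AbsoluteValue K ℝ} (hv : Adm v) (X : Option J → Pts K a b)
    (hX : ∀ j k i, 2 ^ i • X j k ≠ 0) {c₀ : ℝ} (hc₀ : 1 ≤ c₀)
    {y : Option J × κ → MvPowerSeries (Option J × κ) K}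
    (hy : ∀ p, OnE (a p.2) (b p.2) (xser (fun p => xc (X p.1 p.2)) p) (y p))
    (hy₀ : ∀ p, MvPowerSeries.constantCoeff (y p) = yc (X p.1 p.2))
    (hbr : Branch c₀ (fun p => xc (X p.1 p.2)) (fun p => yc (X p.1 p.2)) y) {s n : J → ℕ} {N : ℕ}
    (hN : ∀ j, n j * 4 ^ s j = N) (c : box (nn (κ := κ) N n) → ℤ) {T : ℝ} (hT0 : 0 < T)
    (hT : ∀ e, IL (∑ i, c i • secP a b s n e i) T) {κ₀ : Option J × κ →₀ ℕ}
    (h₀ : MvPowerSeries.coeff κ₀ (aeval (Sum.elim (xser fun p => xc (X p.1 p.2)) y)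
      (∑ i, c i • secP a b s n (fun _ => false) i)) ≠ 0) (Γ : (Option J × κ →₀ ℕ) → ℝ)
    (hΓ : ∀ κ' ≤ κ₀, 0 ≤ Γ κ')
    (hgain : ∀ L : Loc K, L.v = v → ∀ κ' : Option J × κ →₀ ℕ,
      L.v (MvPowerSeries.coeff κ' (aeval (Sum.elim (xser fun p => xc (X p.1 p.2)) y)
        (∑ i, c i • secP a b s n (pres v X s) i))) * Real.exp (Γ κ') ≤
      (T * c₀ ^ ∑ p, (DD N n p + 2 + κ' p)) ^ L.e *
        ((∏ p, max (L.v (xc (X p.1 p.2))) 1 ^ (DD N n p + 2 + 18 * κ' p)) *
          ∏ p, max (L.v (2 * yc (X p.1 p.2))⁻¹) 1 ^ (2 * κ' p))) :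
    ∃ κ' ≤ κ₀, ∑ p : J × κ, n p.1 * ht (X (some p.1) p.2 + 2 ^ s p.1 • X none p.2) + Γ κ' ≤
      totalWeight K * (Real.log T + (∑ p, (DD N n p + 2 + κ' p) : ℕ) * Real.log c₀) +
        ∑ p, (DD N n p + 2 + 18 * κ' p : ℕ) * ht (X p.1 p.2) +
        ∑ p, (2 * κ' p : ℕ) * logHeight₁ (2 * yc (X p.1 p.2))⁻¹ := by
  obtain ⟨κ', hκ', hγ, hmul⟩ := exists_min_coeff h₀
  refine ⟨κ', hκ', ?_⟩
  have hw : ∀ p : J × κ, ∃ w : MvPowerSeries (Option J × κ) K,
      X (some p.1) p.2 + 2 ^ s p.1 • X none p.2 ≠ 0 →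
      MvPowerSeries.constantCoeff w = xc (X (some p.1) p.2 + 2 ^ s p.1 • X none p.2) ∧
      aP (a p.2 : MvPowerSeries (Option J × κ) K) (b p.2)
        (xser (fun p => xc (X p.1 p.2)) (some p.1, p.2)) (y (some p.1, p.2))
        (mulP (a p.2 : MvPowerSeries (Option J × κ) K) (b p.2)
          (xser (fun p => xc (X p.1 p.2)) (none, p.2)) (y (none, p.2)) (s p.1)) =
        w * aD (xser (fun p => xc (X p.1 p.2)) (some p.1, p.2))
          (mulP (a p.2 : MvPowerSeries (Option J × κ) K) (b p.2)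
            (xser (fun p => xc (X p.1 p.2)) (none, p.2)) (y (none, p.2)) (s p.1)) ∧
      aT (a p.2 : MvPowerSeries (Option J × κ) K) (b p.2)
        (xser (fun p => xc (X p.1 p.2)) (some p.1, p.2))
        (mulP (a p.2 : MvPowerSeries (Option J × κ) K) (b p.2)
          (xser (fun p => xc (X p.1 p.2)) (none, p.2)) (y (none, p.2)) (s p.1)) =
        w * aM (a p.2 : MvPowerSeries (Option J × κ) K) (b p.2)
          (xser (fun p => xc (X p.1 p.2)) (some p.1, p.2)) (y (some p.1, p.2))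
          (mulP (a p.2 : MvPowerSeries (Option J × κ) K) (b p.2)
            (xser (fun p => xc (X p.1 p.2)) (none, p.2)) (y (none, p.2)) (s p.1)) := by
    intro p
    by_cases h1 : X (some p.1) p.2 + 2 ^ s p.1 • X none p.2 = 0
    · exact ⟨0, fun h => absurd h1 h⟩
    · have hP : X (some p.1) p.2 ≠ 0 := by simpa using hX (some p.1) p.2 0
      obtain ⟨ξ, hξ⟩ := exists_plus (MvPowerSeries.constantCoeff (σ := Option J × κ) (R := K))
        (fun f hf => MvPowerSeries.isUnit_iff_constantCoeff.2 (isUnit_iff_ne_zero.2 hf))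
        (hy (some p.1, p.2)) (hy (none, p.2)) (P := X (some p.1) p.2) (Q := X none p.2)
        (by simp [xser]) (hy₀ (some p.1, p.2)) (by simp [xser]) (hy₀ (none, p.2)) (s p.1) hP
        (hX none p.2 (s p.1)) h1
      exact ⟨ξ, fun _ => hξ⟩
  choose w hw using hw
  have hval : ∀ u : AbsoluteValue K ℝ,
      u (MvPowerSeries.coeff κ' (aeval (Sum.elim (xser fun p => xc (X p.1 p.2)) y)
        (∑ i, c i • secP a b s n (pres u X s) i))) =
      u (MvPowerSeries.coeff κ' (aeval (Sum.elim (xser fun p => xc (X p.1 p.2)) y)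
        (∑ i, c i • secP a b s n (fun _ => false) i))) *
        ∏ p : J × κ, max (u (xc (X (some p.1) p.2 + 2 ^ s p.1 • X none p.2))) 1 ^ n p.1 := by
    intro u
    have hne : ∀ p : J × κ, pres u X s p = true →
        X (some p.1) p.2 + 2 ^ s p.1 • X none p.2 ≠ 0 := by
      intro p hp h0
      simp only [pres, h0, xc_zero, map_zero, decide_eq_true_eq] at hp
      exact absurd hp (by norm_num)
    have e1 : aeval (Sum.elim (xser fun p => xc (X p.1 p.2)) y)
        (∑ i, c i • secP a b s n (pres u X s) i) =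
        (∏ p : J × κ, if pres u X s p = true then w p ^ n p.1 else 1) *
          aeval (Sum.elim (xser fun p => xc (X p.1 p.2)) y)
            (∑ i, c i • secP a b s n (fun _ => false) i) := by
      rw [map_sum, map_sum, Finset.mul_sum]
      refine Finset.sum_congr rfl fun i _ => ?_
      rw [map_zsmul, map_zsmul, aeval_secP, aeval_secP,
        sec_eq_mul a b s n _ y (pres u X s) w (fun p hp => (hw p (hne p hp)).2)
          (fun j k => mem_box.1 i.2 (some j, k)), mul_smul_comm]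
    rw [e1, hmul, map_mul, mul_comm, map_prod, map_prod]
    congr 1
    refine Finset.prod_congr rfl fun p _ => ?_
    by_cases hp : pres u X s p = true
    · rw [if_pos hp, map_pow, map_pow, (hw p (hne p hp)).1]
      have h2 : 1 < u (xc (X (some p.1) p.2 + 2 ^ s p.1 • X none p.2)) := by
        simpa only [pres, decide_eq_true_eq] using hp
      rw [max_eq_left h2.le]
    · rw [if_neg hp, map_one, map_one]
      have h2 : u (xc (X (some p.1) p.2 + 2 ^ s p.1 • X none p.2)) ≤ 1 := by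
        simpa only [pres, decide_eq_true_eq, not_lt] using hp
      rw [max_eq_right h2, one_pow]
  have hC : 0 < T * c₀ ^ ∑ p, (DD N n p + 2 + κ' p) := by positivity
  have key := pf_gain hv hγ (fun p : J × κ => xc (X (some p.1) p.2 + 2 ^ s p.1 • X none p.2))
    (fun p => n p.1)
    (Sum.elim (fun p : Option J × κ => xc (X p.1 p.2))
      (fun p : Option J × κ => (2 * yc (X p.1 p.2))⁻¹))
    (Sum.elim (fun p => DD N n p + 2 + 18 * κ' p) (fun p => 2 * κ' p)) hC (hΓ κ' hκ')
    (fun L => by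
      rw [← hval L.v, Fintype.prod_sum_type]
      refine hbr.coeff_le hc₀ L κ' (hT _) (fun p => DD N n p + 2) fun p => ?_
      exact (wd_sum _ fun i _ =>
        (wd_secP a b hN _ (mem_box.1 i.2) p).zsmul (c i)).mono (Nat.le_add_right _ _))
    (fun L hL => by
      rw [← hval L.v, Fintype.prod_sum_type]
      have := hgain L hL κ'
      rw [← hL] at this
      exact this)
  rw [Real.log_mul hT0.ne' (by positivity), Real.log_pow, Fintype.sum_sum_type] at key
  simp only [Sum.elim_inl, Sum.elim_inr] at key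
  unfold ht
  linarith

end Pool.Agent.Lib.MP_8865d3_nt.Fa
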