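import Pool.Agent.Lib.MP_8865d3_nt.FaPF

/-! Elimination of variables with control of one absolute value. -/

namespace Pool.Agent.Lib.MP_8865d3_nt.Fa

open MvPolynomial Finset Height Pool.Agent.Lib.Common.Subspace Pool.Agent.Lib.MP_e97e2b_nt
  Pool.Agent.Lib.MP_651af7_nt.Iv Pool.Agent.Lib.MP_651af7_nt.Vj

open Pool.Agent.Lib.Common.ZeroLemma

variable {K σ : Type} [Field K] [CharZero K] [Fintype σ] [DecidableEq σ]

omit [CharZero K] in
theorem faElim_low (v : AbsoluteValue K ℝ) {χ : Polynomial K} (h0 : χ ≠ 0) {γ : K} (hγ : γ ≠ 0)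
    (h1 : v γ ≤ 1) (h : χ.eval γ = 0) :
    ∃ (k : ℕ) (T : Finset ℕ), χ.coeff k ≠ 0 ∧ v (χ.coeff k) ≤ v γ * ∑ j ∈ T, v (χ.coeff j) := by
  have hne : χ.support.Nonempty := Polynomial.support_nonempty.2 h0
  have hk := χ.support.min'_mem hne
  have hmin : ∀ j ∈ χ.support, χ.support.min' hne ≤ j := fun j hj => χ.support.min'_le j hj
  generalize χ.support.min' hne = k at hk hmin
  refine ⟨k, χ.support.erase k, Polynomial.mem_support_iff.1 hk, ?_⟩
  rw [Polynomial.eval_eq_sum, Polynomial.sum_def, ← Finset.add_sum_erase _ _ hk] at h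
  have hv : 0 < v γ := v.pos hγ
  refine le_of_mul_le_mul_right ?_ (pow_pos hv k)
  rw [← map_pow, ← map_mul, eq_neg_of_add_eq_zero_left h, v.map_neg, Finset.mul_sum,
    Finset.sum_mul]
  refine (v.sum_le _ _).trans (Finset.sum_le_sum fun j hj => ?_)
  have hj' : k + 1 ≤ j :=
    lt_of_le_of_ne (hmin j (Finset.mem_of_mem_erase hj)) (Finset.ne_of_mem_erase hj).symm
  rw [map_mul, map_pow, map_pow, mul_comm (v γ), mul_assoc, ← pow_succ']
  exact mul_le_mul_of_nonneg_left (pow_le_pow_of_le_one hv.le h1 hj') (v.nonneg _)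

omit [CharZero K] [DecidableEq σ] in
theorem faElim_one_le (v : AbsoluteValue K ℝ) (z : σ → K) (d : σ → ℕ) :
    1 ≤ ∏ s, max (v (z s)) 1 ^ d s :=
  Finset.one_le_prod fun _ _ => one_le_pow₀ (le_max_right _ _)

/-- If `1 < v γ` take `N = 1`.  Otherwise `elim_core` gives `χ`; let `N k = (elToP t χ).coeff k` and
`k₀` least with `aeval z (N k) ≠ 0`; then `aeval z (N k₀) = - ∑ k > k₀, aeval z (N k) * γ ^ (k - k₀)`;
`v_aeval_le`, `el_sum_len`, `el_coeff_bounds`, `el_isInt`. -/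
theorem elim_small (v : AbsoluteValue K ℝ) (z : σ → K) (t : σ) {φ G : MvPolynomial σ ℚ}
    {Tφ TG : ℝ} (hφ : IL φ Tφ) (hG : IL G TG) (dφ dG : σ → ℕ)
    (hdφ : ∀ μ ∈ φ.support, ∀ s, μ s ≤ dφ s) (hdG : ∀ μ ∈ G.support, ∀ s, μ s ≤ dG s)
    (h0 : aeval z φ = 0) (h1 : (elToP t φ).map (aeval z : MvPolynomial σ ℚ →ₐ[ℚ] K).toRingHom ≠ 0)
    (hG0 : aeval z G ≠ 0) :
    ∃ N : MvPolynomial σ ℚ, IL N (Tφ ^ dG t * (TG + 1) ^ dφ t) ∧ aeval z N ≠ 0 ∧
      (∀ μ ∈ N.support, μ t = 0) ∧ (∀ μ ∈ N.support, ∀ s, μ s ≤ dφ t * dG s + dG t * dφ s) ∧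
      v (aeval z N) ≤ v (aeval z G) * (Tφ ^ dG t * (TG + 1) ^ dφ t) *
        ∏ s, max (v (z s)) 1 ^ (dφ t * dG s + dG t * dφ s) := by
  have hφ0 : φ ≠ 0 := by
    rintro rfl
    exact h1 (by rw [map_zero, Polynomial.map_zero])
  have hT : 1 ≤ Tφ ^ dG t * (TG + 1) ^ dφ t :=
    one_le_mul_of_one_le_of_one_le (one_le_pow₀ ((one_le_len hφ.1 hφ0).trans hφ.2))
      (one_le_pow₀ (by linarith [hG.nonneg]))
  have hP := faElim_one_le v z fun s => dφ t * dG s + dG t * dφ s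
  rcases lt_or_ge 1 (v (aeval z G)) with hv | hv
  · have hs : ∀ μ ∈ (1 : MvPolynomial σ ℚ).support, μ = 0 := fun μ hμ =>
      Finset.mem_singleton.1 (support_monomial_subset (a := (1 : ℚ)) hμ)
    refine ⟨1, il_one.mono hT, by simp, fun μ hμ => by simp [hs μ hμ],
      fun μ hμ s => by simp [hs μ hμ], ?_⟩
    rw [map_one, map_one]
    exact one_le_mul_of_one_le_of_one_le (one_le_mul_of_one_le_of_one_le hv.le hT) hP
  obtain ⟨χ, k1, k2, k3, k4, k5⟩ := elim_core (aeval z : MvPolynomial σ ℚ →ₐ[ℚ] K).toRingHom t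
    hφ.1 hG.1 dφ dG hdφ hdG h0 h1
  have k6 : len χ ≤ Tφ ^ dG t * (TG + 1) ^ dφ t :=
    k5.trans (mul_le_mul (pow_le_pow_left₀ (len_nonneg _) hφ.2 _)
      (pow_le_pow_left₀ (by linarith [len_nonneg G]) (by linarith [hG.2]) _)
      (pow_nonneg (by linarith [len_nonneg G]) _) (pow_nonneg hφ.nonneg _))
  obtain ⟨k, T, k7, k8⟩ := faElim_low v k2 hG0 hv k3
  simp only [Polynomial.coeff_map] at k7 k8
  obtain ⟨b1, b2, b3⟩ := el_coeff_bounds t k4 k
  refine ⟨(elToP t χ).coeff k, ⟨el_isInt t k1 k, b3.trans k6⟩, k7, b1, b2, k8.trans ?_⟩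
  rw [mul_assoc]
  refine mul_le_mul_of_nonneg_left ?_ (v.nonneg _)
  refine (Finset.sum_le_sum fun j _ => v_aeval_le v ⟨el_isInt t k1 j, le_rfl⟩ _
    (el_coeff_bounds t k4 j).2.1 z).trans ?_
  rw [← Finset.sum_mul]
  exact mul_le_mul_of_nonneg_right ((el_sum_len t χ T).trans k6) (by linarith)

omit [Fintype σ] in
theorem faElim_coeff (t : σ) (g : MvPolynomial σ ℚ) {μ : σ →₀ ℕ} (hμ : μ ∈ g.support) :
    coeff (μ.erase t) ((elToP t g).coeff (μ t)) = coeff μ g := by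
  rw [el_coeff_eq, coeff_sum, Finset.sum_eq_single μ]
  · rw [coeff_monomial, if_pos rfl]
  · intro ν hν hne
    rw [coeff_monomial, if_neg]
    intro e
    apply hne
    rw [← Finsupp.erase_add_single t ν, ← Finsupp.erase_add_single t μ, e,
      (Finset.mem_filter.1 hν).2]
  · intro h
    exact (h (Finset.mem_filter.2 ⟨hμ, rfl⟩)).elim

/-- Strong induction on the total degree: `g` is not constant; take `t` with `1 ≤ degreeOf t g`; if
all the coefficients of `elToP t g` vanish at `z`, pass to the coefficient of index `degreeOf t g`. -/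
theorem exists_good_rel (z : σ → K) {D : ℕ} {c : ℝ} {g : MvPolynomial σ ℚ} (hg : Small D c g)
    (h0 : aeval z g = 0) : ∃ (φ : MvPolynomial σ ℚ) (t : σ), Small D c φ ∧ aeval z φ = 0 ∧
      (elToP t φ).map (aeval z : MvPolynomial σ ℚ →ₐ[ℚ] K).toRingHom ≠ 0 := by
  induction hn : g.vars.card using Nat.strong_induction_on generalizing g with
  | _ n ih =>
  obtain ⟨t, ht⟩ : g.vars.Nonempty := by
    rw [Finset.nonempty_iff_ne_empty]
    intro h
    rw [vars_eq_empty_iff_eq_C] at h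
    rw [h, aeval_C, map_eq_zero] at h0
    exact hg.ne (by rw [h, h0, map_zero])
  by_cases h : (elToP t g).map (aeval z : MvPolynomial σ ℚ →ₐ[ℚ] K).toRingHom = 0
  · obtain ⟨μ, hμ, -⟩ := (mem_vars_iff_mem_support t).1 ht
    obtain ⟨b1, b2, b3⟩ := el_coeff_bounds t (d := fun _ => D) (fun ν hν s _ => hg.deg ν hν s) (μ t)
    refine ih _ ?_ (g := (elToP t g).coeff (μ t))
      ⟨fun e => mem_support_iff.1 hμ ?_, ⟨el_isInt t hg.il.1 _, b3.trans hg.il.2⟩, b2⟩ ?_ rfl
    · rw [← hn]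
      refine Finset.card_lt_card ⟨fun s hs => ?_, fun hs => ?_⟩
      · obtain ⟨ν, hν, h2⟩ := (mem_vars_iff_mem_support s).1 hs
        obtain ⟨ν', hν', -, rfl⟩ := el_supp t g _ ν hν
        rw [Finsupp.support_erase] at h2
        exact (mem_vars_iff_mem_support s).2 ⟨ν', hν', Finset.mem_of_mem_erase h2⟩
      · obtain ⟨ν, hν, h2⟩ := (mem_vars_iff_mem_support t).1 (hs ht)
        exact Finsupp.mem_support_iff.1 h2 (b1 ν hν)
    · rw [← faElim_coeff t g hμ, e, coeff_zero]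
    · have h2 := congrArg (fun q => Polynomial.coeff q (μ t)) h
      simp only [Polynomial.coeff_map, Polynomial.coeff_zero] at h2
      exact h2
  · exact ⟨g, t, hg, h0, h⟩

/-- `exists_rename_eq_of_vars_subset_range`, then as in `nv_rename` of `Common/ZeroLemma/NV`. -/
theorem exists_rename_small {τ σ' : Type*} {e : τ → σ'} (he : Function.Injective e) {B : ℕ} {c : ℝ}
    {N : MvPolynomial σ' ℚ} (hN : Small B c N)
    (hs : ∀ μ ∈ N.support, ∀ s, s ∉ Set.range e → μ s = 0) :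
    ∃ N' : MvPolynomial τ ℚ, Small B c N' ∧ rename e N' = N := by
  classical
  obtain ⟨P, rfl⟩ := exists_rename_eq_of_vars_subset_range N e he (by
    intro s h
    obtain ⟨μ, hμ, h5⟩ := (mem_vars_iff_mem_support s).1 (Finset.mem_coe.1 h)
    by_contra h6
    exact Finsupp.mem_support_iff.1 h5 (hs μ hμ s h6))
  refine ⟨P, ⟨?_, ⟨fun μ => ?_, le_trans ?_ hN.il.2⟩, fun μ hμ a => ?_⟩, rfl⟩
  · rintro rfl
    exact hN.ne (map_zero _)
  · rw [← coeff_rename_mapDomain e he]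
    exact hN.il.1 _
  · exact len_le_of_injOn _ _ (Finsupp.mapDomain e) (Finsupp.mapDomain_injective he).injOn
      fun μ _ => (coeff_rename_mapDomain e he P μ).symm
  · have h1 : Finsupp.mapDomain e μ ∈ (rename e P).support := by
      rw [mem_support_iff, coeff_rename_mapDomain e he]
      exact mem_support_iff.1 hμ
    have h2 := hN.deg _ h1 (e a)
    rwa [Finsupp.mapDomain_apply he] at h2

theorem Small.rename {τ σ' : Type*} {e : τ → σ'} (he : Function.Injective e) {B : ℕ} {c : ℝ}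
    {R : MvPolynomial τ ℚ} (h : Small B c R) : Small B c (rename e R) ∧
      ∀ μ ∈ (rename e R).support, ∀ s, s ∉ Set.range e → μ s = 0 := by
  have h1 : ∀ μ ∈ (MvPolynomial.rename e R).support, ∀ s, s ∉ Set.range e → μ s = 0 := by
    intro μ hμ s hs
    obtain ⟨ν, -, rfl⟩ := supp_rename e R μ hμ
    exact Finsupp.mapDomain_of_notMem_range ν s hs
  refine ⟨⟨fun h0 => h.ne (rename_injective e he (h0.trans (map_zero _).symm)), h.il.rename e,
    fun μ hμ s => ?_⟩, h1⟩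
  by_cases hs : s ∈ Set.range e
  · obtain ⟨a, rfl⟩ := hs
    obtain ⟨ν, hν, rfl⟩ := supp_rename e R μ hμ
    rw [Finsupp.mapDomain_apply he]
    exact h.deg ν hν a
  · rw [h1 μ hμ s hs]
    exact Nat.zero_le _

theorem faElim_list (φ : σ → MvPolynomial σ ℚ) (l : List σ)
    (hl : l.Pairwise fun s t => ∀ μ ∈ (φ t).support, μ s = 0) (hφ : ∀ t ∈ l, IsInt (φ t))
    (B : ℕ) (c : ℝ) : ∃ (B' : ℕ) (c' : ℝ), ∀ (v : AbsoluteValue K ℝ) (z : σ → K),
      (∀ t ∈ l, aeval z (φ t) = 0 ∧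
        (elToP t (φ t)).map (aeval z : MvPolynomial σ ℚ →ₐ[ℚ] K).toRingHom ≠ 0) →
      ∀ G : MvPolynomial σ ℚ, Small B c G → aeval z G ≠ 0 →
      ∃ N : MvPolynomial σ ℚ, Small B' c' N ∧ aeval z N ≠ 0 ∧ (∀ t ∈ l, ∀ μ ∈ N.support, μ t = 0) ∧
        v (aeval z N) ≤ v (aeval z G) * Real.exp c' * ∏ s, max (v (z s)) 1 ^ B' ∧
        ∀ s, (∀ μ ∈ G.support, μ s = 0) → (∀ t ∈ l, ∀ μ ∈ (φ t).support, μ s = 0) →
          ∀ μ ∈ N.support, μ s = 0 := by
  induction l generalizing B c with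
  | nil =>
    refine ⟨B, max c 0, fun v z _ G hG h0 => ⟨G, hG.mono le_rfl (le_max_left _ _), h0, by simp, ?_,
      fun s hs _ => hs⟩⟩
    rw [mul_assoc]
    exact le_mul_of_one_le_right (v.nonneg _) (one_le_mul_of_one_le_of_one_le
      (Real.one_le_exp (le_max_right _ _)) (faElim_one_le v z fun _ => B))
  | cons t l ih =>
    rw [List.pairwise_cons] at hl
    have hT : 1 ≤ max (len (φ t)) 1 ^ B * (Real.exp c + 1) ^ (φ t).totalDegree :=
      one_le_mul_of_one_le_of_one_le (one_le_pow₀ (le_max_right _ _))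
        (one_le_pow₀ (by linarith [Real.exp_pos c]))
    obtain ⟨c₁, hc₁, e₁⟩ : ∃ c₁ : ℝ, 0 ≤ c₁ ∧
        Real.exp c₁ = max (len (φ t)) 1 ^ B * (Real.exp c + 1) ^ (φ t).totalDegree :=
      ⟨_, Real.log_nonneg hT, Real.exp_log (by linarith)⟩
    obtain ⟨B₂, c₂, H⟩ := ih hl.2 (fun s hs => hφ s (List.mem_cons_of_mem _ hs))
      ((φ t).totalDegree * B + B * (φ t).totalDegree) c₁
    refine ⟨(φ t).totalDegree * B + B * (φ t).totalDegree + B₂, c₁ + c₂,
      fun v z hz G hG h0 => ?_⟩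
    obtain ⟨N, h1, h2, h3, h4, h5⟩ := elim_small v z t (φ := φ t) (Tφ := max (len (φ t)) 1)
      ⟨hφ t List.mem_cons_self, le_max_left _ _⟩ hG.il (fun s => degreeOf s (φ t))
      (fun s => degreeOf s G) (fun μ hμ s => monomial_le_degreeOf s hμ)
      (fun μ hμ s => monomial_le_degreeOf s hμ) (hz t List.mem_cons_self).1
      (hz t List.mem_cons_self).2 h0
    have dG : ∀ s, degreeOf s G ≤ B := fun s => degreeOf_le_iff.2 fun μ hμ => hG.deg μ hμ s
    have dN : ∀ s, degreeOf t (φ t) * degreeOf s G + degreeOf t G * degreeOf s (φ t) ≤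
        (φ t).totalDegree * B + B * (φ t).totalDegree := fun s =>
      Nat.add_le_add (Nat.mul_le_mul (degreeOf_le_totalDegree _ _) (dG s))
        (Nat.mul_le_mul (dG t) (degreeOf_le_totalDegree _ _))
    have lN : max (len (φ t)) 1 ^ degreeOf t G * (Real.exp c + 1) ^ degreeOf t (φ t) ≤
        Real.exp c₁ := by
      rw [e₁]
      exact mul_le_mul (pow_le_pow_right₀ (le_max_right _ _) (dG t))
        (pow_le_pow_right₀ (by linarith [Real.exp_pos c]) (degreeOf_le_totalDegree _ _))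
        (by positivity) (by positivity)
    have hN0 : N ≠ 0 := by
      rintro rfl
      exact h2 (map_zero _)
    obtain ⟨N', k1, k2, k3, k4, k5⟩ := H v z (fun s hs => hz s (List.mem_cons_of_mem _ hs)) N
      ⟨hN0, h1.mono lN, fun μ hμ s => (h4 μ hμ s).trans (dN s)⟩ h2
    refine ⟨N', k1.mono (Nat.le_add_left _ _) (by linarith), k2, fun s hs => ?_, k4.trans ?_,
      fun s hs hs' => k5 s (fun μ hμ => ?_) fun a ha => hs' a (List.mem_cons_of_mem _ ha)⟩
    · rcases List.mem_cons.1 hs with rfl | hs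
      · exact k5 _ h3 hl.1
      · exact k3 s hs
    · have h6 : v (aeval z N) ≤ v (aeval z G) * Real.exp c₁ *
          ∏ s, max (v (z s)) 1 ^ ((φ t).totalDegree * B + B * (φ t).totalDegree) :=
        h5.trans (mul_le_mul (mul_le_mul_of_nonneg_left lN (v.nonneg _))
          (Finset.prod_le_prod (fun s _ => by positivity) fun s _ =>
            pow_le_pow_right₀ (le_max_right _ _) (dN s)) (by positivity) (by positivity))
      refine (mul_le_mul_of_nonneg_right (mul_le_mul_of_nonneg_right h6 (Real.exp_pos _).le)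
        (by positivity)).trans (le_of_eq ?_)
      simp only [Real.exp_add, pow_add _ _ B₂, Finset.prod_mul_distrib]
      ring
    · have h7 : degreeOf s G = 0 := Nat.le_zero.1 (degreeOf_le_iff.2 fun μ hμ => (hs μ hμ).le)
      have h8 : degreeOf s (φ t) = 0 := Nat.le_zero.1 (degreeOf_le_iff.2 fun μ hμ =>
        (hs' t List.mem_cons_self μ hμ).le)
      have h9 := h4 μ hμ s
      simp only [h7, h8, mul_zero, add_zero] at h9
      omega

/-- Induction on the list with `elim_small` (take `dφ s = degreeOf s (φ t)`, `dG s = degreeOf s G` to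
keep the eliminated variables out), as `elim_list` in `Common/ZeroLemma/NV`. -/
theorem elim_list_small (φ : σ → MvPolynomial σ ℚ) (l : List σ)
    (hl : l.Pairwise fun s t => ∀ μ ∈ (φ t).support, μ s = 0) (hφ : ∀ t ∈ l, IsInt (φ t))
    (B : ℕ) (c : ℝ) : ∃ (B' : ℕ) (c' : ℝ), ∀ (v : AbsoluteValue K ℝ) (z : σ → K),
      (∀ t ∈ l, aeval z (φ t) = 0 ∧
        (elToP t (φ t)).map (aeval z : MvPolynomial σ ℚ →ₐ[ℚ] K).toRingHom ≠ 0) →
      ∀ G : MvPolynomial σ ℚ, Small B c G → aeval z G ≠ 0 →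
      ∃ N : MvPolynomial σ ℚ, Small B' c' N ∧ aeval z N ≠ 0 ∧ (∀ t ∈ l, ∀ μ ∈ N.support, μ t = 0) ∧
        v (aeval z N) ≤ v (aeval z G) * Real.exp c' * ∏ s, max (v (z s)) 1 ^ B' := by
  obtain ⟨B', c', H⟩ := faElim_list (K := K) φ l hl hφ B c
  refine ⟨B', c', fun v z hz G hG h0 => ?_⟩
  obtain ⟨N, h1, h2, h3, h4, -⟩ := H v z hz G hG h0
  exact ⟨N, h1, h2, h3, h4⟩

end Pool.Agent.Lib.MP_8865d3_nt.Fa
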