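import Pool.Agent.Lib.MP_651af7_nt.IvDefs

/-! Algebraic independence of the coordinates of the differences of generic points. -/

namespace Pool.Agent.Lib.MP_8865d3_nt.Fa

open Pool.Agent.Lib.MP_e97e2b_nt Pool.Agent.Lib.MP_651af7_nt.Iv

theorem algInd_of_algebraic {F L ι : Type*} [Field F] [Field L] [Algebra F L] [Finite ι]
    {u z : ι → L} (hu : AlgebraicIndependent F u)
    (h : ∀ i, IsAlgebraic (Algebra.adjoin F (Set.range z)) (u i)) : AlgebraicIndependent F z := by
  have h1 : (AlgebraicIndependent.matroid F L).Indep (Set.range u) :=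
    AlgebraicIndependent.matroid_indep_iff.mpr hu.to_subtype_range
  have h2 : Set.range u ⊆ (AlgebraicIndependent.matroid F L).closure (Set.range z) := by
    rintro _ ⟨i, rfl⟩
    rw [AlgebraicIndependent.matroid_closure_eq]
    exact h i
  have h3 := hu.injective.encard_range.trans (h1.encard_le_eRk_of_subset h2)
  rw [Matroid.eRk_closure_eq] at h3
  have h4 := (AlgebraicIndependent.matroid F L).eRk_le_encard (Set.range z)
  have h5 : (Set.range z).encard ≤ ENat.card ι := by
    rw [← Set.image_univ, ← Set.encard_univ]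
    exact Set.encard_image_le _ _
  have h6 : (AlgebraicIndependent.matroid F L).Indep (Set.range z) :=
    (Matroid.indep_iff_eRk_eq_encard_of_finite (Set.finite_range z)).mpr
      (le_antisymm h4 (h5.trans h3))
  refine AlgebraicIndependent.of_subtype_range ?_ (AlgebraicIndependent.matroid_indep_iff.mp h6)
  rw [← Set.injOn_univ]
  refine Set.Finite.injOn_of_encard_image_eq Set.finite_univ ?_
  rw [Set.image_univ, Set.encard_univ]
  exact le_antisymm h5 (h3.trans h4)

/-- The first coordinates of the base points and of the differences are independent. -/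
theorem algInd_sub {L : Type} [Field L] [CharZero L] {J κ : Type*} [Finite J] [Finite κ]
    (a b : κ → ℤ) (P : Option J → ∀ k, Pt (a k : L) (b k : L)) (r : J → ℕ)
    (h : AlgebraicIndependent ℚ fun s : Option J × κ => xc (P s.1 s.2)) :
    AlgebraicIndependent ℚ fun s : Option J × κ =>
      xc (s.1.elim (P none s.2) fun j => P (some j) s.2 - r j • P none s.2) := by
  set z : Option J × κ → L := fun s =>
    xc (s.1.elim (P none s.2) fun j => P (some j) s.2 - r j • P none s.2) with hz
  refine algInd_of_algebraic h ?_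
  let F : Subfield L := (algebraicClosure (IntermediateField.adjoin ℚ (Set.range z)) L).toSubfield
  have hF : ∀ x : L, x ∈ F ↔ IsAlgebraic (IntermediateField.adjoin ℚ (Set.range z)) x :=
    fun x => mem_algebraicClosure_iff
  have hzF : ∀ s, z s ∈ F := fun s => (hF _).2 (isAlgebraic_algebraMap
    (⟨z s, IntermediateField.subset_adjoin _ _ ⟨s, rfl⟩⟩ : IntermediateField.adjoin ℚ (Set.range z)))
  have hrange : ∀ k (Q : Pt (a k : L) (b k : L)), Q ∈ (fmap (A := (a k : F)) (B := (b k : F))
      F.subtype (map_intCast _ _) (map_intCast _ _)).range ↔ xc Q ∈ F := by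
    intro k Q
    rw [mem_range_fmap]
    simp only [Subfield.subtype, RingHom.mem_range]
    constructor
    · intro H
      rcases Q.cases with rfl | ⟨x, y, hxy, rfl⟩
      · exact F.zero_mem
      · obtain ⟨⟨w, hw⟩, -⟩ := H x y hxy rfl
        rw [xc_pt, ← hw]
        exact w.2
    · rintro H x y hxy rfl
      rw [xc_pt] at H
      refine ⟨⟨⟨x, H⟩, rfl⟩, ⟨⟨y, ?_⟩, rfl⟩⟩
      have h1 : y ^ 2 ∈ F := by
        rw [hxy.1]
        exact F.add_mem (F.add_mem (F.pow_mem H 3) (F.mul_mem (intCast_mem F _) H))
          (intCast_mem F _)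
      exact (hF _).2 (IsAlgebraic.of_pow two_pos ((hF _).1 h1))
  rintro ⟨j, k⟩
  refine IntermediateField.isAlgebraic_adjoin_iff.mp ((hF _).1 ?_)
  cases j with
  | none => exact hzF (none, k)
  | some j =>
    have h1 := (hrange k _).2 (hzF (none, k))
    have h2 := (hrange k _).2 (hzF (some j, k))
    have h3 := AddSubgroup.add_mem _ h2 (AddSubgroup.nsmul_mem _ h1 (r j))
    simp only [Option.elim, sub_add_cancel] at h3
    exact (hrange k _).1 h3

end Pool.Agent.Lib.MP_8865d3_nt.Fa
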