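import Pool.Agent.Lib.MP_8865d3_nt.FaSec
import Pool.Agent.Lib.MP_8865d3_nt.FaInd
import Pool.Agent.Lib.MP_8865d3_nt.FaCol

/-! The basic sections are independent along the formal branches. -/

namespace Pool.Agent.Lib.MP_8865d3_nt.Fa

open MvPolynomial Finset Height Pool.Agent.Lib.Common.Subspace Pool.Agent.Lib.MP_e97e2b_nt
  Pool.Agent.Lib.MP_651af7_nt.Iv Pool.Agent.Lib.MP_651af7_nt.Vj

/-- `aeval (xser x₀)` is the composition of the injective maps `map`, translation and
the coercion to power series; or `MvPolynomial` over `K` first and `AlgebraicIndependent.restrictScalars`. -/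
theorem algInd_shift {K τ : Type} [Field K] [CharZero K] (x₀ : τ → K) :
    AlgebraicIndependent ℚ (xser x₀) := by
  have h1 : ∀ f : MvPolynomial τ K, aeval (xser x₀) f =
      ((aeval (fun p => C (x₀ p) + X p : τ → MvPolynomial τ K) f : MvPolynomial τ K) :
        MvPowerSeries τ K) := by
    intro f
    induction f using MvPolynomial.induction_on with
    | C a =>
      rw [aeval_C, aeval_C, algebraMap_eq, coe_C]
      rfl
    | add p q hp hq => rw [map_add, map_add, hp, hq, MvPolynomial.coe_add]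
    | mul_X p s hp =>
      rw [map_mul, map_mul, hp, aeval_X, aeval_X, MvPolynomial.coe_mul, MvPolynomial.coe_add,
        coe_C, coe_X]
      rfl
  have h2 : ∀ f : MvPolynomial τ K, aeval (fun p => X p - C (x₀ p) : τ → MvPolynomial τ K)
      (aeval (fun p => C (x₀ p) + X p : τ → MvPolynomial τ K) f) = f := by
    intro f
    induction f using MvPolynomial.induction_on with
    | C a => simp
    | add p q hp hq => rw [map_add, map_add, hp, hq]
    | mul_X p s hp =>
      rw [map_mul, map_mul, hp]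
      simp
  have h3 : AlgebraicIndependent K (xser x₀) := by
    rw [algebraicIndependent_iff]
    intro f hf
    rw [h1, coe_eq_zero_iff] at hf
    rw [← h2 f, hf, map_zero]
  exact h3.restrictScalars (algebraMap ℚ K).injective

/-- As in the proof of `algInd_sub`: `xc (r • Q)` lies in the algebraic closure `F` of `ℚ (xc Q)`
(`mem_range_fmap`), and `xc P` does not. -/
theorem xc_ne_smul {L : Type} [Field L] [CharZero L] {a b : ℤ} {P Q : Pt (a : L) (b : L)}
    (h : AlgebraicIndependent ℚ ![xc P, xc Q]) (r : ℕ) : xc P ≠ xc (r • Q) := by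
  intro e
  set z : Fin 2 → L := fun _ => xc Q with hz
  let F : Subfield L := (algebraicClosure (IntermediateField.adjoin ℚ (Set.range z)) L).toSubfield
  have hF : ∀ x : L, x ∈ F ↔ IsAlgebraic (IntermediateField.adjoin ℚ (Set.range z)) x :=
    fun x => mem_algebraicClosure_iff
  have hzF : xc Q ∈ F := (hF _).2 (isAlgebraic_algebraMap
    (⟨z 0, IntermediateField.subset_adjoin _ _ ⟨0, rfl⟩⟩ : IntermediateField.adjoin ℚ (Set.range z)))
  have hrange : ∀ T : Pt (a : L) (b : L), T ∈ (fmap (A := (a : F)) (B := (b : F))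
      F.subtype (map_intCast _ _) (map_intCast _ _)).range ↔ xc T ∈ F := by
    intro T
    rw [mem_range_fmap]
    simp only [Subfield.subtype, RingHom.mem_range]
    constructor
    · intro H
      rcases T.cases with rfl | ⟨x, y, hxy, rfl⟩
      · exact F.zero_mem
      · obtain ⟨⟨w, hw⟩, -⟩ := H x y hxy rfl
        rw [xc_pt, ← hw]
        exact w.2
    · rintro H x y hxy rfl
      rw [xc_pt] at H
      refine ⟨⟨⟨x, H⟩, rfl⟩, ⟨⟨y, ?_⟩, rfl⟩⟩
      have h1 : y ^ 2 ∈ F := by
        rw [hxy.1]
        exact F.add_mem (F.add_mem (F.pow_mem H 3) (F.mul_mem (intCast_mem F _) H))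
          (intCast_mem F _)
      exact (hF _).2 (IsAlgebraic.of_pow two_pos ((hF _).1 h1))
  have h1 : xc P ∈ F := by
    rw [e]
    exact (hrange _).1 (AddSubgroup.nsmul_mem _ ((hrange _).2 hzF) r)
  have h2 : AlgebraicIndependent ℚ z := by
    refine algInd_of_algebraic h fun i => IntermediateField.isAlgebraic_adjoin_iff.mp ((hF _).1 ?_)
    fin_cases i
    · exact h1
    · exact hzF
  exact zero_ne_one (h2.injective (a₁ := 0) (a₂ := 1) rfl)

theorem sec_indep_field {L J κ : Type} [Field L] [CharZero L] [Fintype J] [Fintype κ]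
    [DecidableEq J] [DecidableEq κ] (a b : κ → ℤ) (hD : ∀ k, 4 * a k ^ 3 + 27 * b k ^ 2 ≠ 0)
    (s n : J → ℕ) (N : ℕ) (x w : Option J × κ → L) (hxi : AlgebraicIndependent ℚ x)
    (hy : ∀ p, OnE (a p.2) (b p.2) (x p) (w p))
    (hB : ∀ j k, (mulP (a k : L) (b k : L) (x (none, k)) (w (none, k)) (s j)).2.1 ≠ 0)
    (c : box (nn (κ := κ) N n) → ℤ) (hc : c ≠ 0) :
    ∑ i, c i • sec a b s n x w (fun _ => false) i ≠ 0 := by
  intro h0
  have hns : ∀ p, NS (a p.2 : L) (b p.2 : L) (x p) (w p) := fun p =>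
    ns_of_eq two_ne_zero (by exact_mod_cast hD p.2) (hy p)
  let P : Option J → ∀ k, Pt (a k : L) (b k : L) := fun j k => pt _ _ (hns (j, k))
  set T : J × κ → L × L × L := fun p =>
    mulP (a p.2 : L) (b p.2 : L) (x (none, p.2)) (w (none, p.2)) (s p.1) with hT
  have hB' : ∀ p, (T p).2.1 ≠ 0 := fun p => hB p.1 p.2
  set z : Option J × κ → L := fun q =>
    xc (q.1.elim (P none q.2) fun j => P (some j) q.2 - 2 ^ s j • P none q.2) with hz
  have hzi : AlgebraicIndependent ℚ z := algInd_sub a b P (fun j => 2 ^ s j) hxi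
  have hD' : ∀ p : J × κ, aD (x (some p.1, p.2)) (T p) ≠ 0 ∧
      aM (a p.2 : L) (b p.2 : L) (x (some p.1, p.2)) (w (some p.1, p.2)) (T p) =
        z (some p.1, p.2) * aD (x (some p.1, p.2)) (T p) := by
    rintro ⟨j, k⟩
    obtain ⟨-, h', e'⟩ := mulP_pt (hns (none, k)) (s j)
      (smul_pt_ne_zero (hns (none, k)) (s j) (hB' (j, k)))
    have h1 : AlgebraicIndependent ℚ ![xc (P (some j) k), xc (P none k)] := by
      have h2 := hxi.comp ![(some j, k), (none, k)] (by
        intro u v huv
        fin_cases u <;> fin_cases v <;> simp at huv ⊢)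
      have h3 : x ∘ ![(some j, k), (none, k)] = ![xc (P (some j) k), xc (P none k)] := by
        funext u
        fin_cases u <;> rfl
      rwa [h3] at h2
    have h2 := xc_ne_smul h1 (2 ^ s j)
    have h3 : xc (2 ^ s j • P none k) = (T (j, k)).1 / (T (j, k)).2.1 := congrArg xc e'
    rw [h3] at h2
    have h4 : aD (x (some j, k)) (T (j, k)) ≠ 0 := by
      refine pow_ne_zero 2 fun e => h2 ?_
      rw [eq_div_iff (hB' (j, k))]
      exact sub_eq_zero.1 e
    refine ⟨h4, ?_⟩
    obtain ⟨y', h'', e''⟩ := sub_pt (hns (some j, k)) (hB' (j, k)) h' h4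
    have h5 : z (some j, k) = _ := (congrArg (fun t => xc (P (some j) k - t)) e').trans
      (congrArg xc e'')
    rw [h5, xc_pt, div_mul_cancel₀ _ h4]
  set U : L := ∏ p : J × κ, aD (x (some p.1, p.2)) (T p) ^ n p.1 with hU
  have hU0 : U ≠ 0 := Finset.prod_ne_zero_iff.2 fun p _ => pow_ne_zero _ (hD' p).1
  have hsec : ∀ i : box (nn (κ := κ) N n),
      sec a b s n x w (fun _ => false) i = U * ∏ q, z q ^ i.1 q := by
    intro i
    have h2 : ∀ p : J × κ, i.1 (some p.1, p.2) ≤ n p.1 := fun p => mem_box.1 i.2 (some p.1, p.2)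
    have h3 : sec a b s n x w (fun _ => false) i =
        (∏ p : J × κ, z (some p.1, p.2) ^ i.1 (some p.1, p.2) *
          aD (x (some p.1, p.2)) (T p) ^ n p.1) * ∏ k, z (none, k) ^ i.1 (none, k) :=
      congrArg₂ (· * ·) (Finset.prod_congr rfl fun p _ => fac_false (hD' p).2 (h2 p)) rfl
    rw [h3, Finset.prod_mul_distrib, Fintype.prod_prod_type (fun q => z q ^ i.1 q),
      Fintype.prod_option,
      Fintype.prod_prod_type (fun p : J × κ => z (some p.1, p.2) ^ i.1 (some p.1, p.2))]
    ring
  have h1 : ∑ i : box (nn (κ := κ) N n), (c i : ℚ) • ∏ q, z q ^ i.1 q = 0 := by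
    refine (mul_eq_zero.1 (Eq.trans ?_ h0)).resolve_left hU0
    rw [Finset.mul_sum]
    refine Finset.sum_congr rfl fun i _ => ?_
    rw [hsec, Int.cast_smul_eq_zsmul, mul_smul_comm]
  have h2 : LinearIndependent ℚ fun i : box (nn (κ := κ) N n) => ∏ q, z q ^ i.1 q := by
    have h3 := ((basisMonomials (Option J × κ) ℚ).linearIndependent.map' (aeval z).toLinearMap
      (LinearMap.ker_eq_bot.2 hzi)).comp
      (fun i : box (nn (κ := κ) N n) => Finsupp.equivFunOnFinite.symm i.1)
      (fun i i' e => Subtype.ext (Finsupp.equivFunOnFinite.symm.injective e))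
    refine (congrArg (fun v => LinearIndependent ℚ v) ?_).mp h3
    funext i
    simp [aeval_monomial, Finsupp.prod_fintype]
  apply hc
  funext i
  exact_mod_cast Fintype.linearIndependent_iff.1 h2 _ h1 i

theorem algInd_map_ind2 {R L τ : Type} [CommRing R] [Algebra ℚ R] [Field L] [CharZero L]
    (ι : R →+* L) (hι : Function.Injective ι) {x : τ → R} (hx : AlgebraicIndependent ℚ x) :
    AlgebraicIndependent ℚ fun p => ι (x p) :=
  hx.map' (f := ι.toRatAlgHom) hι

/-- Work in `L = FractionRing (MvPowerSeries _ K)` with the points `P j k = pt (x (j, k)) (y (j, k)) _`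
(`ns_of_eq`).  `smul_pt_ne_zero`, `mulP_pt` describe `2 ^ s j • P none k`, `xc_ne_smul` gives
`aD ≠ 0`, `sub_pt` and `fac_false` give `sec .. i = U * ∏ p, z p ^ i p` with `U ≠ 0` independent of
`i` and `z` the family of `algInd_sub` for `r j = 2 ^ s j`. -/
theorem sec_indep {K J κ : Type} [Field K] [CharZero K] [Fintype J] [Fintype κ] [DecidableEq J]
    [DecidableEq κ] (a b : κ → ℤ) (hD : ∀ k, 4 * a k ^ 3 + 27 * b k ^ 2 ≠ 0) (s n : J → ℕ) (N : ℕ)
    (x₀ : Option J × κ → K) (y : Option J × κ → MvPowerSeries (Option J × κ) K)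
    (hy : ∀ p, OnE (a p.2) (b p.2) (xser x₀ p) (y p))
    (hB : ∀ j k, (mulP (a k : K) (b k : K) (x₀ (none, k))
      (MvPowerSeries.constantCoeff (y (none, k))) (s j)).2.1 ≠ 0)
    (c : box (nn (κ := κ) N n) → ℤ) (hc : c ≠ 0) :
    ∑ i, c i • sec a b s n (xser x₀) y (fun _ => false) i ≠ 0 := by
  intro h0
  have : CharZero (MvPowerSeries (Option J × κ) K) := algebraRat.charZero _
  have : IsDomain (MvPowerSeries (Option J × κ) K) := NoZeroDivisors.to_isDomain _
  have : CharZero (FractionRing (MvPowerSeries (Option J × κ) K)) := IsFractionRing.charZero _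
  obtain ⟨ι, hι⟩ : ∃ ι : MvPowerSeries (Option J × κ) K →+*
      FractionRing (MvPowerSeries (Option J × κ) K), Function.Injective ι :=
    ⟨algebraMap _ _, IsFractionRing.injective _ _⟩
  refine sec_indep_field a b hD s n N (fun p => ι (xser x₀ p)) (fun p => ι (y p))
    (algInd_map_ind2 ι hι (algInd_shift x₀)) (fun p => ?_) (fun j k e => ?_) c hc ?_
  · have h1 := congrArg ι (hy p)
    rwa [map_add, map_add, map_mul, map_pow, map_pow, map_intCast ι, map_intCast ι] at h1
  · have h1 := congrArg (fun t => t.2.1)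
      (map3_mulP ι (a k) (b k) (xser x₀ (none, k)) (y (none, k)) (s j))
    have h2 := congrArg (fun t => t.2.1)
      (map3_mulP (MvPowerSeries.constantCoeff : MvPowerSeries (Option J × κ) K →+* K)
        (a k) (b k) (xser x₀ (none, k)) (y (none, k)) (s j))
    rw [map_intCast ι, map_intCast ι] at h1
    rw [map_intCast, map_intCast] at h2
    have h3 := hι ((h1.trans e).trans (map_zero ι).symm)
    have h4 : MvPowerSeries.constantCoeff (xser x₀ (none, k)) = x₀ (none, k) := by
      simp [xser]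
    rw [h4] at h2
    refine hB j k (h2.symm.trans ?_)
    exact (congrArg MvPowerSeries.constantCoeff h3).trans (map_zero _)
  · have h2 := congrArg ι h0
    rw [map_sum, map_zero] at h2
    rw [← h2]
    exact Finset.sum_congr rfl fun i _ => by rw [map_zsmul, map_sec]

end Pool.Agent.Lib.MP_8865d3_nt.Fa
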