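import Pool.Agent.Lib.MP_8865d3_nt.FaBr
import Pool.Agent.Lib.MP_651af7_nt.Vj.NrmT

/-! The gain at the distinguished place. -/

namespace Pool.Agent.Lib.MP_8865d3_nt.Fa

open MvPolynomial Finset Height Pool.Agent.Lib.Common.Subspace Pool.Agent.Lib.MP_e97e2b_nt
  Pool.Agent.Lib.MP_651af7_nt.Iv Pool.Agent.Lib.MP_651af7_nt.Vj

/-- Write the value at `xser` as `C (aeval x₀ R)` plus a difference, bounded monomial by monomial with
`Nrm.monomial_sub` (`E = exp H`, `τ = r`, degree at most `card κ * B`, `3 ≤ exp H`, `m ^ e ≤ m`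
for `1 ≤ m`) by `exp H * exp H ^ (g B) * exp H ^ (g B) * r ≤ exp (- η H)`; `Nrm.add_le_add` and
`2 ≤ exp (η H / 2)`. -/
theorem N_target_le {K τ κ : Type} [Field K] [CharZero K] [Fintype κ] (L : Loc K)
    (n : Nrm (MvPowerSeries τ K)) (hC : ∀ z, n.N (MvPowerSeries.C z) ≤ L.v z) (x₀ : τ → K)
    (f : κ → τ) {B : ℕ} {η H : ℝ} (hH : 2 ≤ H) (hη : 2 ≤ η * H) {R : MvPolynomial κ ℚ}
    (hR : Small B H R) (hnear : Near L.v B (η * H) (fun k => x₀ (f k)) R)
    (hx : ∀ k, L.v (x₀ (f k)) ≤ Real.exp H)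
    (hX : ∀ k, n.N (MvPowerSeries.X (f k)) ≤ Real.exp (-((η + 1 + 2 * (Fintype.card κ * B)) * H))) :
    n.N (aeval (fun k => xser x₀ (f k)) R) ≤
      Real.exp (-(η * H / 2)) * ∏ k, max (L.v (x₀ (f k))) 1 ^ B := by
  have hH0 : 0 < H := by linarith
  have hη0 : 0 < η := pos_of_mul_pos_left (b := H) (by linarith) hH0.le
  set d : ℕ := Fintype.card κ * B with hd
  have hdR : (Fintype.card κ : ℝ) * B = d := by rw [hd, Nat.cast_mul]
  rw [hdR] at hX
  set r : ℝ := Real.exp (-((η + 1 + 2 * d) * H)) with hr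
  have hr1 : r ≤ 1 := Real.exp_le_one_iff.2 (neg_nonpos.2 (by positivity))
  have hE : 1 ≤ Real.exp H := Real.one_le_exp hH0.le
  have h3 : 3 ≤ Real.exp H := by linarith [Real.add_one_le_exp H]
  set z₀ : κ → MvPowerSeries τ K := fun k => MvPowerSeries.C (x₀ (f k)) with hz₀
  set z : κ → MvPowerSeries τ K := fun k => xser x₀ (f k) with hz
  have e0 : aeval z₀ R = MvPowerSeries.C (aeval (fun k => x₀ (f k)) R) :=
    (comp_aeval_apply (fun k => x₀ (f k))
      (MvPowerSeries.C : K →+* MvPowerSeries τ K).toRatAlgHom R).symm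
  have e : aeval z R - aeval z₀ R = ∑ μ ∈ R.support, algebraMap ℚ _ (coeff μ R) *
      ((μ.prod fun s k => z s ^ k) - μ.prod fun s k => z₀ s ^ k) := by
    conv_lhs => rw [R.as_sum]
    rw [map_sum, map_sum, ← sum_sub_distrib]
    refine sum_congr rfl fun μ _ => ?_
    rw [aeval_monomial, aeval_monomial]
    ring
  have hM : 0 ≤ Real.exp H ^ d * r := by positivity
  have h1 : n.N (aeval z R - aeval z₀ R) ≤ Real.exp (-(η * H)) := by
    rw [e]
    refine (n.sum_le _ (m := fun μ => |((coeff μ R : ℚ) : ℝ)| * 3 ^ d) hM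
      (fun μ hμ => ?_)).trans ?_
    · have a1 : n.N (algebraMap ℚ (MvPowerSeries τ K) (coeff μ R)) ≤
          |((coeff μ R : ℚ) : ℝ)| ^ n.e := by
        obtain ⟨c, hc⟩ := hR.il.1 μ
        rw [hc, map_intCast, Rat.cast_intCast]
        exact n.intCast_le c
      have a2 : μ.degree ≤ d := by
        rw [Finsupp.degree_eq_sum, hd]
        exact (sum_le_card_nsmul _ _ _ fun s _ => hR.deg μ hμ s).trans (by simp)
      have a3 := n.monomial_sub z z₀ hE (Real.exp_pos _).le hr1 μ fun s _ =>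
        ⟨(hC _).trans (hx s), by simpa [hz, hz₀, xser] using hX s⟩
      refine (n.mul_le a1 a3).trans ?_
      rw [mul_pow _ ((3 : ℝ) ^ d), mul_assoc]
      have a4 : (3 : ℝ) ^ μ.degree ≤ 3 ^ d := pow_le_pow_right₀ (by norm_num) a2
      have a5 : Real.exp H ^ μ.degree ≤ Real.exp H ^ d := pow_le_pow_right₀ hE a2
      gcongr
    · rw [← sum_mul, ← len_eq]
      have a1 : len R * 3 ^ d ≤ Real.exp H * Real.exp H ^ d :=
        mul_le_mul hR.il.2 (pow_le_pow_left₀ (by norm_num) h3 _) (by positivity) (by positivity)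
      have a2 : 1 ≤ Real.exp H * Real.exp H ^ d :=
        one_le_mul_of_one_le_of_one_le hE (one_le_pow₀ hE)
      have a3 : (len R * 3 ^ d) ^ n.e ≤ Real.exp H * Real.exp H ^ d :=
        (n.pow_e_mono (mul_nonneg (len_nonneg R) (by positivity)) a1).trans
          ((pow_le_pow_right₀ a2 n.e_le).trans (pow_one _).le)
      refine (mul_le_mul_of_nonneg_right a3 hM).trans (le_of_eq ?_)
      rw [hr, ← Real.exp_nat_mul, ← Real.exp_add, ← Real.exp_add, ← Real.exp_add]
      congr 1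
      ring
  have hP : (1 : ℝ) ≤ ∏ k, max (L.v (x₀ (f k))) 1 ^ B :=
    Finset.one_le_prod fun k _ => one_le_pow₀ (le_max_right _ _)
  have h2 : n.N (aeval z₀ R) ≤ Real.exp (-(η * H)) * ∏ k, max (L.v (x₀ (f k))) 1 ^ B := by
    rw [e0]
    exact (hC _).trans hnear
  have h4 := n.add_le_add (aeval z R - aeval z₀ R) (aeval z₀ R)
  rw [sub_add_cancel] at h4
  have h5 : 2 * Real.exp (-(η * H)) ≤ Real.exp (-(η * H / 2)) := by
    have a1 : Real.exp (-(η * H / 2)) = Real.exp (η * H / 2) * Real.exp (-(η * H)) := by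
      rw [← Real.exp_add]
      congr 1
      ring
    rw [a1]
    exact mul_le_mul_of_nonneg_right (by linarith [Real.add_one_le_exp (η * H / 2)])
      (Real.exp_pos _).le
  have h6 := mul_le_mul_of_nonneg_left hP (Real.exp_pos (-(η * H))).le
  have h7 := mul_le_mul_of_nonneg_right h5 (zero_le_one.trans hP)
  linarith

/-- Use `Branch` with `r p = exp (- c' * H p.1)`, `c' = η + 1 + 2 * (card κ * B)`.  The series is
`aeval (Sum.elim (fun j => aeval (fun k => xser x₀ (some j, k)) (R j)) (Sum.elim (xser x₀) y)) Q`;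
`Nrm.aeval_le` with `M = exp (- η t W / 4) * ∏ p, E p ^ (DD N n p + 2)`, `E p = c ^ e * max (v (x₀ p)) 1`:
for a monomial `μ` of `Q`, with `l j = μ (inl j)`, `∑ j, l j * H j = ∑ j, (l j / n j) * (n j * H j)` is
at least `t * W / 2`. -/
theorem Branch.gain_le {K J κ : Type} [Field K] [CharZero K] [Fintype J] [Fintype κ] [DecidableEq J]
    [DecidableEq κ] {c : ℝ} {x₀ y₀ : Option J × κ → K}
    {y : Option J × κ → MvPowerSeries (Option J × κ) K} (h : Branch c x₀ y₀ y) (hc : 1 ≤ c)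
    (L : Loc K) (κ' : Option J × κ →₀ ℕ) {B N : ℕ} {n : J → ℕ} (hn : ∀ j, 0 < n j) {η t W T : ℝ}
    (hη : 0 < η) (hW : 0 ≤ W) (H : Option J → ℝ) (hH : ∀ j, 2 ≤ H j) (hηH : ∀ j, 2 ≤ η * H j)
    (hnH : ∀ j, W ≤ 2 * (n j * H (some j))) (R : J → MvPolynomial κ ℚ)
    (hR : ∀ j, Small B (H (some j)) (R j))
    (hnear : ∀ j, Near L.v B (η * H (some j)) (fun k => x₀ (some j, k)) (R j))
    (hx : ∀ p, L.v (x₀ p) ≤ Real.exp (H p.1))
    {Q : MvPolynomial (J ⊕ ((Option J × κ) ⊕ (Option J × κ))) ℚ} (hQ : IL Q T)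
    (hs : ∀ μ ∈ Q.support, t ≤ ∑ j, (μ (Sum.inl j) : ℝ) / n j ∧
      (∀ p, μ (Sum.inr (Sum.inl p)) ≤ DD N n p ∧ μ (Sum.inr (Sum.inr p)) ≤ 1) ∧
      ∀ j k, μ (Sum.inr (Sum.inl (some j, k))) + μ (Sum.inl j) * B ≤ 2 * n j) :
    L.v (MvPowerSeries.coeff κ' (aeval (Sum.elim (fun j => aeval (fun k => xser x₀ (some j, k)) (R j))
        (Sum.elim (xser x₀) y)) Q)) *
      Real.exp (η * t * W / 4 - (η + 1 + 2 * (Fintype.card κ * B)) * ∑ p, κ' p * H p.1) ≤
      (T * c ^ ∑ p, (DD N n p + 2 + κ' p)) ^ L.e *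
        ((∏ p, max (L.v (x₀ p)) 1 ^ (DD N n p + 2 + 18 * κ' p)) *
          ∏ p, max (L.v (2 * y₀ p)⁻¹) 1 ^ (2 * κ' p)) := by
  set c' : ℝ := η + 1 + 2 * (Fintype.card κ * B) with hc'
  have hc'0 : 0 < c' := by positivity
  obtain ⟨m, hme, hco, hC, hb⟩ := h L κ' (fun p => Real.exp (-(c' * H p.1)))
    (fun _ => Real.exp_pos _) fun p => Real.exp_le_one_iff.2
      (neg_nonpos.2 (mul_nonneg hc'0.le (by linarith [hH p.1])))
  set E : Option J × κ → ℝ := fun p => c ^ L.e * max (L.v (x₀ p)) 1 with hE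
  have hce : 1 ≤ c ^ L.e := one_le_pow₀ hc
  have hE1 : ∀ p, 1 ≤ E p := fun p => one_le_mul_of_one_le_of_one_le hce (le_max_right _ _)
  have hE0 : ∀ p, 0 ≤ E p := fun p => zero_le_one.trans (hE1 p)
  have hmE : ∀ p, max (L.v (x₀ p)) 1 ≤ E p := fun p =>
    le_mul_of_one_le_left (zero_le_one.trans (le_max_right _ _)) hce
  have hRj : ∀ j, m.N (aeval (fun k => xser x₀ (some j, k)) (R j)) ≤
      Real.exp (-(η * H (some j) / 2)) * ∏ k, E (some j, k) ^ B := fun j => by
    refine (N_target_le L m hC x₀ (fun k => (some j, k)) (hH _) (hηH _) (hR j) (hnear j)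
      (fun k => hx (some j, k)) fun k => (hb (some j, k)).1).trans ?_
    refine mul_le_mul_of_nonneg_left (prod_le_prod (fun k _ => by positivity) fun k _ => ?_)
      (Real.exp_pos _).le
    exact pow_le_pow_left₀ (by positivity) (hmE _) _
  have hM : 0 ≤ Real.exp (-(η * t * W / 4)) * ∏ p, E p ^ (DD N n p + 2) :=
    mul_nonneg (Real.exp_pos _).le (prod_nonneg fun p _ => pow_nonneg (hE0 p) _)
  have key := m.aeval_le hQ (Sum.elim (fun j => aeval (fun k => xser x₀ (some j, k)) (R j))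
      (Sum.elim (xser x₀) y)) hM fun μ hμ => by
    obtain ⟨h1, h2, h3⟩ := hs μ hμ
    rw [Finsupp.prod_fintype _ _ fun _ => pow_zero _, Fintype.prod_sum_type,
      Fintype.prod_sum_type]
    simp only [Sum.elim_inl, Sum.elim_inr]
    refine (m.mul_le (m.prod_le _ fun j _ => m.pow_le (hRj j) _)
      (m.mul_le (m.prod_le _ fun p _ => m.pow_le (hb p).2.1 _)
        (m.prod_le _ fun p _ => m.pow_le (hb p).2.2 _))).trans ?_
    have a1 : ∏ j, (Real.exp (-(η * H (some j) / 2)) * ∏ k, E (some j, k) ^ B) ^ μ (Sum.inl j) =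
        Real.exp (-(η * (∑ j, μ (Sum.inl j) * H (some j)) / 2)) *
          ∏ p : Option J × κ, E p ^ (p.1.elim 0 fun j => μ (Sum.inl j) * B) := by
      rw [Fintype.prod_prod_type, Fintype.prod_option]
      simp only [Option.elim_none, Option.elim_some, pow_zero, prod_const_one, one_mul, mul_pow,
        prod_mul_distrib, ← Real.exp_nat_mul, ← Real.exp_sum, ← prod_pow, ← pow_mul]
      congr 1
      · congr 1
        rw [mul_sum, sum_div, ← sum_neg_distrib]
        exact sum_congr rfl fun j _ => by ring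
      · exact prod_congr rfl fun j _ => prod_congr rfl fun k _ => by rw [mul_comm]
    have a2 : t * W / 2 ≤ ∑ j, μ (Sum.inl j) * H (some j) := by
      have b1 := mul_le_mul_of_nonneg_right h1 (by positivity : 0 ≤ W / 2)
      rw [sum_mul] at b1
      refine (le_of_eq (by ring)).trans (b1.trans (sum_le_sum fun j _ => ?_))
      have b2 : (0 : ℝ) < n j := Nat.cast_pos.2 (hn j)
      have b3 : (0 : ℝ) ≤ μ (Sum.inl j) / n j := by positivity
      calc _ ≤ (μ (Sum.inl j) : ℝ) / n j * (n j * H (some j)) :=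
            mul_le_mul_of_nonneg_left (by linarith [hnH j]) b3
        _ = _ := by field_simp
    rw [a1, mul_assoc, ← prod_mul_distrib, ← prod_mul_distrib]
    refine mul_le_mul (Real.exp_le_exp.2 (by nlinarith))
      (prod_le_prod (fun p _ => ?_) fun p _ => ?_) (prod_nonneg fun p _ => ?_) (Real.exp_pos _).le
    · have := hE0 p
      positivity
    · change E p ^ _ * (E p ^ _ * (E p ^ 2) ^ _) ≤ _
      rw [← pow_mul, ← pow_add, ← pow_add]
      refine pow_le_pow_right₀ (hE1 p) ?_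
      have b1 := h2 p
      obtain ⟨_ | j, k⟩ := p
      · simp only [Option.elim_none]
        omega
      · have b2 := h3 j k
        simp only [Option.elim_some, DD] at b1 ⊢
        omega
    · have := hE0 p
      positivity
  have a1 : ∏ p : Option J × κ, Real.exp (-(c' * H p.1)) ^ κ' p =
      Real.exp (-(c' * ∑ p, κ' p * H p.1)) := by
    simp only [← Real.exp_nat_mul, ← Real.exp_sum]
    congr 1
    rw [mul_sum, ← sum_neg_distrib]
    exact sum_congr rfl fun p _ => by ring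
  have a2 := (hco _).trans (mul_le_mul_of_nonneg_right key (prod_nonneg fun p _ => by positivity))
  rw [a1, hme] at a2
  have a3 := mul_le_mul_of_nonneg_right a2 (Real.exp_pos (η * t * W / 4)).le
  rw [mul_assoc, ← Real.exp_add, neg_add_eq_sub] at a3
  refine a3.trans (le_of_eq ?_)
  have a4 : Real.exp (-(η * t * W / 4)) * Real.exp (η * t * W / 4) = 1 := by
    rw [← Real.exp_add, neg_add_cancel, Real.exp_zero]
  have a5 : (∏ p, E p ^ (DD N n p + 2)) * ∏ p, (c ^ L.e * max (L.v (x₀ p)) 1 ^ 18 *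
      max (L.v (2 * y₀ p)⁻¹) 1 ^ 2) ^ κ' p = (c ^ ∑ p, (DD N n p + 2 + κ' p)) ^ L.e *
        ((∏ p, max (L.v (x₀ p)) 1 ^ (DD N n p + 2 + 18 * κ' p)) *
          ∏ p, max (L.v (2 * y₀ p)⁻¹) 1 ^ (2 * κ' p)) := by
    rw [← prod_pow_eq_pow_sum, ← prod_pow, ← prod_mul_distrib, ← prod_mul_distrib,
      ← prod_mul_distrib]
    refine prod_congr rfl fun p _ => ?_
    simp only [hE, mul_pow, ← pow_mul]
    ring
  rw [mul_pow, mul_assoc (T ^ L.e) ((c ^ _) ^ L.e), ← a5]
  linear_combination (T ^ L.e * (∏ p, E p ^ (DD N n p + 2)) *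
    ∏ p, (c ^ L.e * max (L.v (x₀ p)) 1 ^ 18 * max (L.v (2 * y₀ p)⁻¹) 1 ^ 2) ^ κ' p) * a4

end Pool.Agent.Lib.MP_8865d3_nt.Fa
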