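import Pool.Agent.Lib.MP_8865d3_nt.FaElim

/-! The zero estimate along the formal branches. -/

namespace Pool.Agent.Lib.MP_8865d3_nt.Fa

open MvPolynomial Finset Height Pool.Agent.Lib.Common.Subspace Pool.Agent.Lib.MP_e97e2b_nt
  Pool.Agent.Lib.MP_651af7_nt.Iv Pool.Agent.Lib.MP_651af7_nt.Vj

open Pool.Agent.Lib.Common.ZeroLemma

/-- The curve equation in the variables `inl p`, `inr p`. -/
noncomputable def nvCub {τ : Type} (a b : ℤ) (p : τ) : MvPolynomial (τ ⊕ τ) ℚ :=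
  X (Sum.inr p) ^ 2 - (X (Sum.inl p) ^ 3 + C (a : ℚ) * X (Sum.inl p) + C (b : ℚ))

theorem nvCub_wd {τ : Type} (a b : ℤ) (p : τ) (w : τ ⊕ τ → ℕ) {D : ℕ}
    (h1 : 2 * w (Sum.inr p) ≤ D) (h2 : 3 * w (Sum.inl p) ≤ D) : WD w (nvCub a b p) D :=
  (((wd_X w _).pow 2).mono h1).sub (((((wd_X w _).pow 3).mono h2).add
    (((wd_C w _).mul (wd_X w _)).mono (by omega))).add ((wd_C w _).mono (Nat.zero_le _)))

theorem nvCub_il {τ : Type} (a b : ℤ) (p : τ) :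
    IL (nvCub a b p) (2 + |(a : ℝ)| + |(b : ℝ)|) :=
  (((il_X _).pow 2).sub ((((il_X _).pow 3).add ((il_intCast a).mul (il_X _))).add
    (il_intCast b))).mono (le_of_eq (by ring))

theorem nvCub_deg {τ : Type} (a b : ℤ) (p : τ) : ∀ μ ∈ (nvCub a b p).support, ∀ s, μ s ≤ 3 := by
  classical
  intro μ hμ s
  have h : ∀ t, (Pi.single s 1 : τ ⊕ τ → ℕ) t ≤ 1 := fun t => by
    rw [Pi.single_apply]
    split_ifs <;> omega
  refine (wd_single_iff s).1 (nvCub_wd a b p _ ?_ ?_) μ hμ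
  · have := h (Sum.inr p)
    omega
  · have := h (Sum.inl p)
    omega

theorem nvCub_zero {τ : Type} (a b : ℤ) (p : τ) : ∀ μ ∈ (nvCub a b p).support, ∀ s,
    s ≠ Sum.inl p → s ≠ Sum.inr p → μ s = 0 := by
  classical
  intro μ hμ s h1 h2
  refine Nat.le_zero.1 ((wd_single_iff s).1 (nvCub_wd a b p _ ?_ ?_) μ hμ)
  · rw [Pi.single_eq_of_ne h2.symm, mul_zero]
  · rw [Pi.single_eq_of_ne h1.symm, mul_zero]

theorem nvCub_aeval {τ R : Type} [CommRing R] [Algebra ℚ R] (a b : ℤ) (p : τ) (z : τ ⊕ τ → R) :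
    aeval z (nvCub a b p) =
      z (Sum.inr p) ^ 2 - (z (Sum.inl p) ^ 3 + (a : R) * z (Sum.inl p) + (b : R)) := by
  simp [nvCub]

theorem nvCub_pderiv {τ R : Type} [CommRing R] [Algebra ℚ R] (a b : ℤ) (p : τ) (z : τ ⊕ τ → R) :
    aeval z (pderiv (Sum.inr p) (nvCub a b p)) = 2 * z (Sum.inr p) := by
  classical
  simp [nvCub, pderiv_X]

/-- `nonvanishing` with `e = Sum.inl`, `blk = Prod.fst`, `B₀ = 3`, `l` the list of the variables
`inr p`, `φ (inr p) = X (inr p) ^ 2 - cubic`, `w = Sum.elim (ω ·.1) (ω ·.1)`, `lam = 1 / η`;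
`ω₀` is such that `1 ≤ ε ω₀` and `2 + |a k| + |b k| ≤ exp (ε ω₀)`; `exists_rename_small` with
`fun k => (i, k)`. -/
theorem nv_step {K I κ : Type} [Field K] [CharZero K] [Fintype I] [Fintype κ] (a b : κ → ℤ) {θ : ℝ}
    (hθ : 0 < θ) : ∃ (D : ℕ) (lam : ℝ), 0 < lam ∧ ∀ ε : ℝ, 0 < ε → ∃ ω₀ : ℝ, ∀ ω : I → ℝ,
      (∀ i, ω₀ ≤ ω i) → (∀ i i', i ≠ i' → lam * ω i ≤ ω i' ∨ lam * ω i' ≤ ω i) →
      ∀ (x₀ : I × κ → K) (y : I × κ → MvPowerSeries (I × κ) K),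
      (∀ p, OnE (a p.2) (b p.2) (xser x₀ p) (y p)) → (∀ p, y p ≠ 0) →
      ∀ (W : ℝ) (F : MvPolynomial ((I × κ) ⊕ (I × κ)) ℚ), 1 ≤ ε * W → IL F (Real.exp (ε * W)) →
      (∀ μ ∈ F.support, ∀ p, ω p.1 * μ (Sum.inl p) ≤ W ∧ ω p.1 * μ (Sum.inr p) ≤ W) →
      aeval (Sum.elim (xser x₀) y) F ≠ 0 →
      (∃ κ' : I × κ →₀ ℕ, ∑ p, κ' p * ω p.1 ≤ θ * W ∧
        MvPowerSeries.coeff κ' (aeval (Sum.elim (xser x₀) y) F) ≠ 0) ∨
      ∃ (i : I) (g : MvPolynomial κ ℚ), Small D (D * ε * ω i) g ∧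
        aeval (fun k => x₀ (i, k)) g = 0 := by
  classical
  obtain ⟨B, η, hη, H⟩ := nonvanishing (τ := I × κ) (σ := (I × κ) ⊕ (I × κ)) (K := K)
    (e := Sum.inl) Sum.inl_injective Prod.fst 3 (Fintype.card (I × κ)) θ hθ
  refine ⟨B, η⁻¹, inv_pos.2 hη, fun ε hε => ⟨(1 + ∑ k, (2 + |(a k : ℝ)| + |(b k : ℝ)|)) / ε,
    fun ω hω hsep x₀ y hE hy W F hW hF hdeg h0 => ?_⟩⟩
  have hS : 0 ≤ ∑ k, (2 + |(a k : ℝ)| + |(b k : ℝ)|) := sum_nonneg fun k _ => by positivity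
  have hω' : ∀ i, 1 + ∑ k, (2 + |(a k : ℝ)| + |(b k : ℝ)|) ≤ ε * ω i := fun i => by
    have := (div_le_iff₀ hε).1 (hω i)
    linarith
  have hdom : IsDomain (MvPowerSeries (I × κ) K) := NoZeroDivisors.to_isDomain _
  have key := H ε (Sum.elim (fun p => ω p.1) (fun p => ω p.1)) hε ?_ ?_ ?_ x₀
    (aeval (Sum.elim (xser x₀) y) : MvPolynomial ((I × κ) ⊕ (I × κ)) ℚ →ₐ[ℚ] _).toRingHom ?_
    ((univ : Finset (I × κ)).toList.map Sum.inr)
    (Sum.elim (fun _ => 0) (fun p => nvCub (a p.2) (b p.2) p)) ?_ ?_ ?_ ?_ W hW F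
    ⟨hF.1, ?_, hF.2⟩ h0
  · rcases key with ⟨κ', h1, h2⟩ | ⟨p, g, h1, h2, h3, h4, h5⟩
    · refine Or.inl ⟨κ', le_of_eq_of_le ?_ h1.le, h2⟩
      rw [Finsupp.weight_apply, Finsupp.sum_fintype _ _ (by simp)]
      simp
    · obtain ⟨g', k1, k2⟩ := exists_rename_small (e := fun k : κ => (p.1, k))
        (fun k k' h => (Prod.ext_iff.1 h).2) (B := B) (c := B * ε * ω p.1) (N := g)
        ⟨h1.ne_zero, ⟨h2, h4⟩, fun μ hμ s => (h3 μ hμ s).2⟩
        fun μ hμ s hs => (h3 μ hμ s).1 fun h => hs ⟨s.2, Prod.ext h.symm rfl⟩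
      refine Or.inr ⟨p.1, g', k1, ?_⟩
      rw [← k2, aeval_rename] at h5
      exact h5
  · rintro (p | p)
    · exact le_trans (by linarith) (hω' p.1)
    · exact le_trans (by linarith) (hω' p.1)
  · intro p q h
    exact congrArg ω h
  · intro p q h
    rcases hsep _ _ h with h1 | h1
    · exact Or.inl ((inv_mul_le_iff₀ hη).1 h1)
    · exact Or.inr ((inv_mul_le_iff₀ hη).1 h1)
  · intro p
    simp [xser]
  · simp
  · rintro (p | p)
    · exact Or.inr ⟨p, rfl⟩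
    · exact Or.inl (List.mem_map.2 ⟨p, mem_toList.2 (mem_univ p), rfl⟩)
  · rw [List.pairwise_map]
    refine (nodup_toList _).imp fun {p q} hpq μ hμ => ?_
    exact nvCub_zero _ _ q μ hμ _ Sum.inr_ne_inl fun h => hpq (Sum.inr_injective h)
  · intro t ht
    obtain ⟨p, -, rfl⟩ := List.mem_map.1 ht
    refine ⟨(nvCub_il _ _ p).1, nvCub_deg _ _ p, fun μ hμ s hs => ?_,
      (nvCub_il _ _ p).2.trans ?_, ?_, ?_⟩
    · refine nvCub_zero _ _ p μ hμ s ?_ ?_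
      · rintro rfl
        exact lt_irrefl _ hs
      · rintro rfl
        exact lt_irrefl _ hs
    · have h1 := single_le_sum (f := fun k => 2 + |(a k : ℝ)| + |(b k : ℝ)|)
        (fun k _ => by positivity) (mem_univ p.2)
      have h2 := Real.add_one_le_exp (ε * ω p.1)
      have h3 := hω' p.1
      show _ ≤ Real.exp (ε * ω p.1)
      linarith
    · exact (nvCub_aeval _ _ p _).trans (sub_eq_zero.2 (hE p))
    · intro h
      have h1 := (nvCub_pderiv (a p.2) (b p.2) p (Sum.elim (xser x₀) y)).symm.trans h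
      rcases mul_eq_zero.1 h1 with h2 | h2
      · have h3 := congrArg MvPowerSeries.constantCoeff h2
        rw [map_ofNat, map_zero] at h3
        exact two_ne_zero h3
      · exact hy p h2
  · rintro μ hμ (p | p)
    · exact (hdeg μ hμ p).1
    · exact (hdeg μ hμ p).2

end Pool.Agent.Lib.MP_8865d3_nt.Fa
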