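import Pool.Agent.Lib.MP_8865d3_nt.FaAux
import Pool.Agent.Lib.MP_8865d3_nt.FaSec
import Pool.Agent.Lib.MP_8865d3_nt.FaRedY
import Pool.Agent.Lib.MP_8865d3_nt.FaElim

/-! The auxiliary section. -/

namespace Pool.Agent.Lib.MP_8865d3_nt.Fa

open MvPolynomial Finset Height Pool.Agent.Lib.Common.Subspace Pool.Agent.Lib.MP_e97e2b_nt
  Pool.Agent.Lib.MP_651af7_nt.Iv Pool.Agent.Lib.MP_651af7_nt.Vj

private theorem two_mul_add_one_le (m : ℕ) : 2 * m + 1 ≤ 3 ^ m := by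
  induction m with
  | zero => simp
  | succ m ih => rw [pow_succ]; omega

/-- Counting: `g = card κ`, `d = Sum.elim (DD N n) (fun _ => 1)`, `q = 12 ^ (m * g) * 2 ^ g`
(`card_box`, `2 * n + 1 ≤ 2 * (n + 1)`, `(2 m + 1) N + 1 ≤ 3 ^ m * (N + 1)`). -/
theorem card_box_le {κ : Type} [Fintype κ] [DecidableEq κ] {m : ℕ} (N : ℕ) (n : Fin m → ℕ) :
    (box (Sum.elim (DD (κ := κ) N n) fun _ : Option (Fin m) × κ => 1)).card ≤
      12 ^ (m * Fintype.card κ) * 2 ^ Fintype.card κ * (box (nn (κ := κ) N n)).card := by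
  rw [card_box, card_box, Fintype.prod_sum_type, ← Finset.prod_mul_distrib]
  have h1 : 12 ^ (m * Fintype.card κ) * 2 ^ Fintype.card κ =
      ∏ p : Option (Fin m) × κ, (p.1.elim (2 * 3 ^ m) fun _ => 4 : ℕ) := by
    rw [Fintype.prod_prod_type, Fintype.prod_option]
    simp only [Option.elim, Finset.prod_const, Finset.card_univ, Fintype.card_fin]
    rw [show (12 : ℕ) = 3 * 4 from rfl, mul_pow, mul_pow, ← pow_mul, ← pow_mul,
      mul_comm (Fintype.card κ) m]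
    ring
  rw [h1, ← Finset.prod_mul_distrib]
  refine Finset.prod_le_prod' fun p _ => ?_
  obtain ⟨_ | j, k⟩ := p
  · have h3 := Nat.mul_le_mul_right (N + 1) (two_mul_add_one_le m)
    simp only [Sum.elim_inl, Sum.elim_inr, DD, nn, Option.elim, Fintype.card_fin]
    nlinarith
  · simp only [Sum.elim_inl, Sum.elim_inr, DD, nn, Option.elim]
    omega

/-- `D + 1 ≤ exp D`; `n j ≤ N`. -/
theorem card_box_le_exp {κ : Type} [Fintype κ] [DecidableEq κ] {m N : ℕ} (hN1 : 1 ≤ N)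
    {n : Fin m → ℕ} (hn : ∀ j, n j ≤ N) :
    ∑ p, DD (κ := κ) N n p ≤ (m + 1) * Fintype.card κ * (2 * m + 1) * N ∧
    (box (nn (κ := κ) N n)).card ≤
      (box (Sum.elim (DD (κ := κ) N n) fun _ : Option (Fin m) × κ => 1)).card ∧
    ((box (Sum.elim (DD (κ := κ) N n) fun _ : Option (Fin m) × κ => 1)).card : ℝ) ≤
      Real.exp (((m + 1) * Fintype.card κ * (2 * m + 2) : ℕ) * N) := by
  have h1 : ∀ p, DD (κ := κ) N n p ≤ (2 * m + 1) * N := by
    rintro ⟨_ | j, k⟩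
    · simp [DD]
    · have h2 := hn j
      have h3 : 2 * N ≤ (2 * m + 1) * N := Nat.mul_le_mul_right _ (by have := j.2; omega)
      simp only [DD, Option.elim]
      omega
  have hc : Fintype.card (Option (Fin m) × κ) = (m + 1) * Fintype.card κ := by simp
  refine ⟨?_, ?_, ?_⟩
  · refine (Finset.sum_le_card_nsmul _ _ _ fun p _ => h1 p).trans (le_of_eq ?_)
    rw [Finset.card_univ, hc, smul_eq_mul]
    ring
  · rw [card_box, card_box, Fintype.prod_sum_type, ← Finset.prod_mul_distrib]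
    refine Finset.prod_le_prod' fun p _ => ?_
    obtain ⟨_ | j, k⟩ := p
    · simp only [Sum.elim_inl, Sum.elim_inr, DD, nn, Option.elim, Fintype.card_fin]
      nlinarith
    · simp only [Sum.elim_inl, Sum.elim_inr, DD, nn, Option.elim]
      omega
  · rw [card_box, Fintype.prod_sum_type, ← Finset.prod_mul_distrib, Nat.cast_prod]
    refine (Finset.prod_le_prod (g := fun _ => Real.exp ((2 * m + 2 : ℕ) * N))
      (fun _ _ => Nat.cast_nonneg _) fun p _ => ?_).trans (le_of_eq ?_)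
    · have h2 : (DD (κ := κ) N n p : ℝ) ≤ ((2 * m + 1) * N : ℕ) := by exact_mod_cast h1 p
      have h3 : (1 : ℝ) ≤ N := by exact_mod_cast hN1
      have h4 := Real.add_one_le_exp (((2 * m + 1) * N : ℕ) : ℝ)
      have h5 := Real.add_one_le_exp (N : ℝ)
      have h6 : ((2 * m + 2 : ℕ) : ℝ) * N = ((2 * m + 1) * N : ℕ) + N := by push_cast; ring
      rw [h6, Real.exp_add]
      simp only [Sum.elim_inl, Sum.elim_inr]
      rw [Nat.cast_mul]
      refine mul_le_mul ?_ ?_ (Nat.cast_nonneg _) (Real.exp_pos _).le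
      · rw [Nat.cast_add, Nat.cast_one]
        linarith
      · push_cast
        linarith
    · rw [Finset.prod_const, Finset.card_univ, hc, ← Real.exp_nat_mul]
      congr 1
      push_cast
      ring

/-- Take `s₀ = 2 * 12 ^ g * (g * B)`, `m ≥ 1` with `2 * 2 ^ g * exp (s₀ * t) ≤ 2 ^ m`, `n₀ ≥ s₀`.
`G i` is the reduction (`exists_red`) of `secP a b s n e i`; `exists_aux` with
`e (j, k) = inl (some j, k)`, `R j` renamed (`Small.rename`), `Λ j = exp (l j)`; note `0 ≤ l j`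
(`one_le_len`).  All the sizes are at most `exp (c₁ * (N + ∑ j, n j * l j))`. -/
theorem exists_aux_sec {κ : Type} [Fintype κ] [DecidableEq κ] [Nonempty κ] (a b : κ → ℤ) {B : ℕ}
    (hB : 1 ≤ B) (t : ℝ) : ∃ (m n₀ : ℕ) (c₁ : ℝ), 1 ≤ m ∧ 0 ≤ c₁ ∧
      ∀ (s n : Fin m → ℕ) (N : ℕ), (∀ j, n j * 4 ^ s j = N) → (∀ j, n₀ ≤ n j) → 1 ≤ N →
      ∀ (R : Fin m → MvPolynomial κ ℚ) (l : Fin m → ℝ), (∀ j, Small B (l j) (R j)) →
      ∀ e : Fin m × κ → Bool, ∃ (c : box (nn (κ := κ) N n) → ℤ)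
        (Q : MvPolynomial (Fin m ⊕ ((Option (Fin m) × κ) ⊕ (Option (Fin m) × κ))) ℚ), c ≠ 0 ∧
        (∀ e', IL (∑ i, c i • secP a b s n e' i) (Real.exp (c₁ * (N + ∑ j, n j * l j)))) ∧
        IL Q (Real.exp (c₁ * (N + ∑ j, n j * l j))) ∧
        (∀ (S : Type) [CommRing S] [Algebra ℚ S] (x y : Option (Fin m) × κ → S),
          (∀ p, OnE (a p.2) (b p.2) (x p) (y p)) →
          aeval (Sum.elim (fun j => aeval (fun k => x (some j, k)) (R j)) (Sum.elim x y)) Q =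
            aeval (Sum.elim x y) (∑ i, c i • secP a b s n e i)) ∧
        ∀ μ ∈ Q.support, t ≤ ∑ j, (μ (Sum.inl j) : ℝ) / n j ∧
          (∀ p, μ (Sum.inr (Sum.inl p)) ≤ DD N n p ∧ μ (Sum.inr (Sum.inr p)) ≤ 1) ∧
          ∀ j k, μ (Sum.inr (Sum.inl (some j, k))) + μ (Sum.inl j) * B ≤ 2 * n j := by
  obtain ⟨g, hg⟩ : ∃ g, Fintype.card κ = g := ⟨_, rfl⟩
  have hg1 : 1 ≤ g := hg ▸ Fintype.card_pos
  obtain ⟨s₀, hs₀⟩ : ∃ s₀ : ℕ, s₀ = 2 * 12 ^ g * (g * B) := ⟨_, rfl⟩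
  have hs₀0 : (0 : ℝ) < s₀ := by
    rw [hs₀]
    have : 0 < g * B := Nat.mul_pos hg1 hB
    positivity
  obtain ⟨m₀, hm₀⟩ := pow_unbounded_of_one_lt (2 * 2 ^ g * Real.exp (s₀ * t)) (one_lt_two (α := ℝ))
  obtain ⟨m, hm1, hm⟩ : ∃ m : ℕ, 1 ≤ m ∧ 2 * 2 ^ g * Real.exp (s₀ * t) ≤ 2 ^ m :=
    ⟨m₀ + 1, by omega, hm₀.le.trans (pow_le_pow_right₀ one_le_two (by omega))⟩
  obtain ⟨Λ, hΛ1, hΛ⟩ : ∃ Λ : ℝ, 1 ≤ Λ ∧ ∀ k, 1 + |(a k : ℝ)| + |(b k : ℝ)| ≤ Λ := by
    refine ⟨1 + ∑ k, (|(a k : ℝ)| + |(b k : ℝ)|), ?_, fun k => ?_⟩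
    · have : 0 ≤ ∑ k, (|(a k : ℝ)| + |(b k : ℝ)|) := Finset.sum_nonneg fun _ _ => by positivity
      linarith
    · have := Finset.single_le_sum (f := fun k => |(a k : ℝ)| + |(b k : ℝ)|)
        (fun _ _ => by positivity) (Finset.mem_univ k)
      linarith
  obtain ⟨q, hq⟩ : ∃ q : ℕ, q = 12 ^ (m * g) * 2 ^ g := ⟨_, rfl⟩
  obtain ⟨c₂, hc₂⟩ : ∃ c₂ : ℝ, c₂ = 108 * Λ ^ 4 * (m * g : ℕ) := ⟨_, rfl⟩
  obtain ⟨c₃, hc₃⟩ : ∃ c₃ : ℝ, c₃ = ((m + 1) * g * (2 * m + 2) : ℕ) := ⟨_, rfl⟩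
  obtain ⟨c₄, hc₄⟩ : ∃ c₄ : ℝ, c₄ = Λ * ((m + 1) * g * (2 * m + 1) : ℕ) := ⟨_, rfl⟩
  have h₂ : 0 ≤ c₂ := by rw [hc₂]; positivity
  have h₃ : 0 ≤ c₃ := by rw [hc₃]; positivity
  have h₄ : 0 ≤ c₄ := by rw [hc₄]; positivity
  obtain ⟨c₅, hc₅⟩ : ∃ c₅ : ℝ, c₅ = (2 * q : ℕ) * (c₂ + c₃ + c₄ + 3) := ⟨_, rfl⟩
  have h₅ : 0 ≤ c₅ := by rw [hc₅]; positivity
  refine ⟨m, s₀, c₅ + c₂ + c₃, hm1, by positivity, ?_⟩
  intro s n N hN hn hN1 R l hR e
  have hl : ∀ j, 0 ≤ l j := fun j =>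
    Real.one_le_exp_iff.1 ((one_le_len (hR j).il.1 (hR j).ne).trans (hR j).il.2)
  have hS : 0 ≤ ∑ j, n j * l j :=
    Finset.sum_nonneg fun j _ => mul_nonneg (Nat.cast_nonneg _) (hl j)
  have hN' : (1 : ℝ) ≤ N := by exact_mod_cast hN1
  have hnN : ∀ j, n j ≤ N := fun j => by
    rw [← hN j]
    exact Nat.le_mul_of_pos_right _ (by positivity)
  obtain ⟨hb1, hb2, hb3⟩ := card_box_le_exp (κ := κ) hN1 hnN
  have hb0 := card_box_le (κ := κ) N n
  rw [hg] at hb0 hb1 hb3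
  rw [← hq] at hb0
  rw [← hc₃] at hb3
  have hsec : ∀ e' (i : box (nn (κ := κ) N n)), IL (secP a b s n e' i) (Real.exp (c₂ * N)) := by
    intro e' i
    refine (il_secP a b hΛ1 (fun k => ?_) (fun k => ?_) hN e' (mem_box.1 i.2)).mono ?_
    · linarith [hΛ k, abs_nonneg (b k : ℝ)]
    · linarith [hΛ k, abs_nonneg (a k : ℝ)]
    · refine (pow_le_pow_left₀ (by positivity)
        (show 108 * Λ ^ 4 ≤ Real.exp (108 * Λ ^ 4) by linarith [Real.add_one_le_exp (108 * Λ ^ 4)])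
        _).trans (le_of_eq ?_)
      rw [← Real.exp_nat_mul, hc₂, Fintype.card_fin, hg]
      congr 1
      push_cast
      ring
  have hred := fun i : box (nn (κ := κ) N n) =>
    exists_red (fun p : Option (Fin m) × κ => a p.2) (fun p => b p.2) hΛ1 (fun p => hΛ p.2)
      (hsec e i) (DD N n) (wd_secP a b hN e (mem_box.1 i.2))
  choose G hG1 hG2 hG3 using hred
  have hGT : ∀ i, IL (G i) (Real.exp ((c₂ + c₄) * N)) := by
    intro i
    refine (hG1 i).mono ?_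
    rw [add_mul, add_comm, Real.exp_add]
    refine mul_le_mul_of_nonneg_right ?_ (Real.exp_pos _).le
    refine (pow_le_pow_right₀ hΛ1 hb1).trans ((pow_le_pow_left₀ (by linarith)
      (show Λ ≤ Real.exp Λ by linarith [Real.add_one_le_exp Λ]) _).trans (le_of_eq ?_))
    rw [← Real.exp_nat_mul, hc₄]
    congr 1
    push_cast
    ring
  have hinj : ∀ j : Fin m, Function.Injective fun k : κ =>
      (Sum.inl (some j, k) : (Option (Fin m) × κ) ⊕ (Option (Fin m) × κ)) := fun j k k' h => by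
    simpa using h
  have hV : (Fintype.card (box (nn (κ := κ) N n)) : ℝ) ≤ Real.exp (c₃ * N) := by
    rw [Fintype.card_coe]
    exact le_trans (by exact_mod_cast hb2) hb3
  obtain ⟨c, Q, h1, h2, h3, h4, h5⟩ := exists_aux
    (σ := (Option (Fin m) × κ) ⊕ (Option (Fin m) × κ))
    (e := fun p : Fin m × κ => Sum.inl (some p.1, p.2))
    (fun p p' h => by
      have h' : p.1 = p'.1 ∧ p.2 = p'.2 := by simpa using h
      exact Prod.ext h'.1 h'.2)
    (Sum.elim (DD (κ := κ) N n) fun _ : Option (Fin m) × κ => 1) n (fun j k => rfl) hB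
    (fun j => rename (fun k : κ => Sum.inl (some j, k)) (R j))
    (fun j => ((hR j).rename (hinj j)).1.ne) (fun j => ((hR j).rename (hinj j)).1.deg)
    (fun j μ hμ s' hs' => ((hR j).rename (hinj j)).2 μ hμ s' (by
      rintro ⟨k, hk⟩
      exact hs' k hk.symm))
    (fun j => Real.exp (l j)) (fun j => ((hR j).rename (hinj j)).1.il) G
    (fun i μ hμ s' => by
      rcases s' with p | p
      · exact (hG2 i μ hμ p).1
      · exact (hG2 i μ hμ p).2)
    (Real.one_le_exp (by positivity)) hGT (s := s₀) (t := t) hs₀0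
    (fun j => by exact_mod_cast hn j) (q := q) (by rwa [Fintype.card_coe])
    (by
      have h6 : (g : ℝ) * B / s₀ = (2 * 12 ^ g)⁻¹ := by
        have h7 : (0 : ℝ) < g := by exact_mod_cast hg1
        have h8 : (0 : ℝ) < B := by exact_mod_cast hB
        rw [hs₀]
        push_cast
        field_simp
      rw [hg, h6, Fintype.card_fin, hq, inv_pow, mul_pow, ← pow_mul, mul_comm g m]
      push_cast
      have h9 : (2 : ℝ) * (12 ^ (m * g) * 2 ^ g) *
          (Real.exp (s₀ * t) * (2 ^ m * 12 ^ (m * g))⁻¹) =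
          2 * 2 ^ g * Real.exp (s₀ * t) / 2 ^ m := by field_simp
      rw [h9, div_le_one (by positivity)]
      exact hm)
    (M := Real.exp (c₅ * (N + ∑ j, n j * l j)))
    (by
      have h6 : ∏ j, Real.exp (l j) ^ (2 * n j) = Real.exp (2 * ∑ j, n j * l j) := by
        rw [Finset.mul_sum, Real.exp_sum]
        refine Finset.prod_congr rfl fun j _ => ?_
        rw [← Real.exp_nat_mul]
        congr 1
        push_cast
        ring
      have h7 : (Fintype.card (box (nn (κ := κ) N n)) : ℝ) +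
          (box (Sum.elim (DD (κ := κ) N n) fun _ : Option (Fin m) × κ => 1)).card ≤
          Real.exp ((c₃ + 1) * N) := by
        have h8 := Real.add_one_le_exp (N : ℝ)
        rw [add_mul, one_mul, Real.exp_add]
        have h9 := mul_le_mul_of_nonneg_left (show 2 ≤ Real.exp N by linarith only [h8, hN'])
          (Real.exp_pos (c₃ * N)).le
        linarith only [h9, hV, hb3]
      rw [h6]
      refine (pow_le_pow_left₀ (by positivity) (mul_le_mul_of_nonneg_right h7 (by positivity))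
        _).trans ?_
      rw [← Real.exp_add, ← Real.exp_add, ← Real.exp_nat_mul, Real.exp_le_exp, hc₅, mul_assoc]
      refine mul_le_mul_of_nonneg_left ?_ (Nat.cast_nonneg _)
      linarith only [mul_nonneg h₂ hS, mul_nonneg h₃ hS, mul_nonneg h₄ hS, hS, hN'])
  refine ⟨c, Q, h1, fun e' => ?_, h3.mono ?_, fun S _ _ x y hxy => ?_, fun μ hμ => ?_⟩
  · refine (il_sum _ fun i _ => (hsec e' i).zsmul (c i)).mono ?_
    refine (Finset.sum_le_card_nsmul _ _ _ fun i _ =>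
      mul_le_mul_of_nonneg_right (h2 i) (Real.exp_pos _).le).trans ?_
    rw [Finset.card_univ, nsmul_eq_mul]
    refine (mul_le_mul_of_nonneg_right hV (by positivity)).trans ?_
    rw [← Real.exp_add, ← Real.exp_add, Real.exp_le_exp]
    linarith only [mul_nonneg h₂ hS, mul_nonneg h₃ hS]
  · refine (mul_le_mul_of_nonneg_right hb3 (Real.exp_pos _).le).trans ?_
    rw [← Real.exp_add, Real.exp_le_exp]
    linarith only [mul_nonneg h₂ hS, mul_nonneg h₃ hS, mul_nonneg h₂ (zero_le_one.trans hN')]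
  · have h6 := congrArg (aeval (Sum.elim x y) : _ →ₐ[ℚ] S) h4
    rw [comp_aeval_apply, map_sum] at h6
    rw [map_sum]
    simp only [map_zsmul] at h6 ⊢
    simp only [hG3 _ S x y hxy] at h6
    rw [← h6]
    refine congrArg (fun f => aeval (R := ℚ) f Q) (funext fun z => ?_)
    rcases z with j | z
    · simp only [Sum.elim_inl, aeval_rename]
      rfl
    · simp only [Sum.elim_inr, aeval_X]
  · obtain ⟨h6, h7, h8⟩ := h5 μ hμ
    exact ⟨h6, fun p => ⟨h7 (Sum.inl p), h7 (Sum.inr p)⟩, h8⟩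

end Pool.Agent.Lib.MP_8865d3_nt.Fa
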