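import Pool.Agent.Lib.MP_8865d3_nt.FaCore
import Pool.Agent.Lib.MP_8865d3_nt.FaSieg
import Pool.Agent.Lib.MP_8865d3_nt.FaNV
import Pool.Agent.Lib.MP_8865d3_nt.FaLoc
import Pool.Agent.Lib.MP_8865d3_nt.FaInd2
import Pool.Agent.Lib.MP_8865d3_nt.FaHt

/-! The main inequality for a chain of points. -/

namespace Pool.Agent.Lib.MP_8865d3_nt.Fa

open MvPolynomial Finset Height Pool.Agent.Lib.Common.Subspace Pool.Agent.Lib.MP_e97e2b_nt
  Pool.Agent.Lib.MP_651af7_nt.Iv Pool.Agent.Lib.MP_651af7_nt.Vj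

variable {K κ : Type} [Field K] [NumberField K] [Fintype κ]

theorem eng_sum {J : Type} [Fintype J] {a b : κ → ℤ} (X : Option J → Pts K a b) (f : Option J → ℝ) :
    ∑ p : Option J × κ, f p.1 * ht (X p.1 p.2) =
      f none * HS (X none) + ∑ j, f (some j) * HS (X (some j)) := by
  rw [Fintype.sum_prod_type, Fintype.sum_option]
  simp only [HS, Finset.mul_sum]

theorem eng_plus {J : Type} [Fintype J] {a b : κ → ℤ} (X : Option J → Pts K a b) {s n : J → ℕ}
    {N : ℕ} (hN : ∀ j, n j * 4 ^ s j = N) {C θ : ℝ} (hθ : 0 ≤ θ)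
    (hC : ∀ (k : κ) (P Q : Pt (a k : K) (b k : K)) (j : ℕ),
      2 * ht P + 2 * (4 ^ j * ht Q) ≤ ht (P + 2 ^ j • Q) + ht (P - 2 ^ j • Q) + C * 4 ^ j)
    (hcls : ∀ j, Cls θ (s j) (X none) (X (some j))) :
    ∑ j, 2 * n j * HS (X (some j)) + Fintype.card J * (2 * (N * HS (X none))) ≤
      ∑ p : J × κ, n p.1 * ht (X (some p.1) p.2 + 2 ^ s p.1 • X none p.2) +
        Fintype.card J * (θ * (2 * (N * HS (X none))) + Fintype.card κ * (C * N)) := by
  have h1 : ∀ j, 2 * n j * HS (X (some j)) + 2 * (N * HS (X none)) ≤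
      ∑ k, n j * ht (X (some j) k + 2 ^ s j • X none k) +
        (θ * (2 * (N * HS (X none))) + Fintype.card κ * (C * N)) := by
    intro j
    have hn : (0 : ℝ) ≤ n j := Nat.cast_nonneg _
    have hN' : (N : ℝ) = n j * 4 ^ s j := by exact_mod_cast (hN j).symm
    have h2 := Finset.sum_le_sum fun k (_ : k ∈ Finset.univ) =>
      hC k (X (some j) k) (X none k) (s j)
    simp only [Finset.sum_add_distrib, ← Finset.mul_sum, Finset.sum_const, Finset.card_univ,
      nsmul_eq_mul] at h2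
    have h3 : ∑ k, ht (X (some j) k - 2 ^ s j • X none k) ≤ θ * (2 * (4 ^ s j * HS (X none))) :=
      (hcls j).1.trans (mul_le_mul_of_nonneg_left (hcls j).2.1 hθ)
    have h4 := mul_le_mul_of_nonneg_left (h2.trans (add_le_add_left (add_le_add_right h3 _) _)) hn
    rw [← Finset.mul_sum, hN']
    unfold HS at h4 ⊢
    linarith
  have h2 := Finset.sum_le_sum fun j (_ : j ∈ Finset.univ) => h1 j
  simp only [Finset.sum_add_distrib, Finset.sum_const, Finset.card_univ, nsmul_eq_mul] at h2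
  rw [Fintype.sum_prod_type]
  linarith

theorem eng_num {J : Type} [Fintype J] {a b : κ → ℤ} (X : Option J → Pts K a b) {s n : J → ℕ}
    {N : ℕ} (hN : ∀ j, n j * 4 ^ s j = N) {C θ d lT lc c' W Z : ℝ} (hθ : 0 ≤ θ)
    (κ' : Option J × κ →₀ ℕ)
    (hC : ∀ (k : κ) (P Q : Pt (a k : K) (b k : K)) (j : ℕ),
      2 * ht P + 2 * (4 ^ j * ht Q) ≤ ht (P + 2 ^ j • Q) + ht (P - 2 ^ j • Q) + C * 4 ^ j)
    (hC' : ∀ (k : κ) (P : Pt (a k : K) (b k : K)), logHeight₁ (2 * yc P)⁻¹ ≤ 2 * ht P + C)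
    (hcls : ∀ j, Cls θ (s j) (X none) (X (some j))) (hW : W = N * HS (X none)) (hW0 : 0 < W)
    (hdl : 0 ≤ d * lc) (hH1 : ∀ j, 1 ≤ HS (X j)) (hHC : ∀ j, C ≤ HS (X j))
    (hZ : Z = ∑ p, κ' p * HS (X p.1)) (e1 : (c' + d * lc + 24) * Z ≤ W / 2) (e2 : d * lT ≤ W / 4)
    (e3 : d * lc * (∑ p : Option J × κ, (DD N n p + 2) : ℕ) ≤ W / 4)
    (e4 : 2 * (HS (X none) + ∑ j, HS (X (some j))) ≤ W / 4) (e5 : Fintype.card J * θ ≤ 1 / 4)
    (e6 : Fintype.card J * (Fintype.card κ * (C * N)) ≤ W / 4)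
    (core : ∑ p : J × κ, n p.1 * ht (X (some p.1) p.2 + 2 ^ s p.1 • X none p.2) +
      (4 * W - c' * Z) ≤ d * (lT + (∑ p, (DD N n p + 2 + κ' p) : ℕ) * lc) +
        ∑ p, (DD N n p + 2 + 18 * κ' p : ℕ) * ht (X p.1 p.2) +
        ∑ p, (2 * κ' p : ℕ) * logHeight₁ (2 * yc (X p.1 p.2))⁻¹) : False := by
  have h1 := eng_plus X hN hθ hC hcls
  have hκ : ∀ p, (0 : ℝ) ≤ κ' p := fun p => Nat.cast_nonneg _
  have h2 : ∑ p, (2 * κ' p : ℕ) * logHeight₁ (2 * yc (X p.1 p.2))⁻¹ ≤ 6 * Z := by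
    rw [hZ, Finset.mul_sum]
    refine Finset.sum_le_sum fun p _ => ?_
    have h3 := hC' p.2 (X p.1 p.2)
    have h4 := ht_le_HS (X p.1) p.2
    have h5 := hHC p.1
    have h6 := mul_le_mul_of_nonneg_left
      (show logHeight₁ (2 * yc (X p.1 p.2))⁻¹ ≤ 3 * HS (X p.1) by linarith) (hκ p)
    push_cast
    linarith
  have h3 : ∑ p, (DD N n p + 2 + 18 * κ' p : ℕ) * ht (X p.1 p.2) ≤
      ((2 * Fintype.card J + 1) * N + 2) * HS (X none) +
        ∑ j, (2 * n j + 2) * HS (X (some j)) + 18 * Z := by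
    have h4 := eng_sum X (fun j => j.elim ((2 * Fintype.card J + 1) * N + 2) fun j => 2 * n j + 2)
    simp only [Option.elim] at h4
    rw [← h4, hZ, Finset.mul_sum, ← Finset.sum_add_distrib]
    refine Finset.sum_le_sum fun p _ => ?_
    have h5 := mul_le_mul_of_nonneg_left (ht_le_HS (X p.1) p.2) (hκ p)
    obtain ⟨_ | j, k⟩ := p
    · simp only [DD, Option.elim] at h5 ⊢
      push_cast
      linarith
    · simp only [DD, Option.elim] at h5 ⊢
      push_cast
      linarith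
  have h4 : ((∑ p, (DD N n p + 2 + κ' p) : ℕ) : ℝ) ≤
      (∑ p : Option J × κ, (DD N n p + 2) : ℕ) + Z := by
    rw [Finset.sum_add_distrib, Nat.cast_add, hZ, Nat.cast_sum _ κ']
    exact add_le_add_right (Finset.sum_le_sum fun p _ =>
      le_mul_of_one_le_right (hκ p) (hH1 p.1)) _
  have h5 := mul_le_mul_of_nonneg_left h4 hdl
  have h6 : ∑ j, (2 * n j + 2) * HS (X (some j)) =
      ∑ j, 2 * n j * HS (X (some j)) + 2 * ∑ j, HS (X (some j)) := by
    rw [Finset.mul_sum, ← Finset.sum_add_distrib]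
    exact Finset.sum_congr rfl fun j _ => by ring
  have h7 := mul_le_mul_of_nonneg_right e5 hW0.le
  rw [← hW] at h1
  have h8 : ((2 * Fintype.card J + 1) * N + 2) * HS (X none) =
      (2 * Fintype.card J + 1) * W + 2 * HS (X none) := by
    rw [hW]
    ring
  linarith

theorem Near.mono {K κ : Type*} [Field K] [CharZero K] [Fintype κ] {v : AbsoluteValue K ℝ}
    {B B' : ℕ} {c : ℝ} {x : κ → K} {R : MvPolynomial κ ℚ} (h : Near v B c x R) (hB : B ≤ B') :
    Near v B' c x R :=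
  le_trans h (mul_le_mul_of_nonneg_left (Finset.prod_le_prod (fun _ _ => by positivity)
    fun _ _ => pow_le_pow_right₀ (le_max_right _ _) hB) (Real.exp_pos _).le)

theorem eng_exists_le (l : List ℝ) : ∃ H : ℝ, ∀ x ∈ l, x ≤ H :=
  (l.finite_toSet.bddAbove).imp fun _ h _ hx => h hx

theorem engine_pos [Nonempty κ] (a b : κ → ℤ) (hD : ∀ k, 4 * a k ^ 3 + 27 * b k ^ 2 ≠ 0)
    {v : AbsoluteValue K ℝ} (hv : Adm v) {η : ℝ} (hη : 0 < η) {B : ℕ} (hB : 1 ≤ B) :
    ∃ (m D : ℕ) (θ lam : ℝ), 0 < θ ∧ ∀ ε : ℝ, 0 < ε → ∃ δ H₀ : ℝ, 0 < δ ∧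
      ∀ (X : Option (Fin m) → Pts K a b) (s : Fin m → ℕ) (R : Fin m → MvPolynomial κ ℚ),
        H₀ ≤ HS (X none) → (∀ i, lam * HS (X none) ≤ HS (X (some i))) →
        (∀ i i', i < i' → lam * HS (X (some i)) ≤ HS (X (some i'))) →
        (∀ i, Cls θ (s i) (X none) (X (some i))) →
        (∀ i, Small B (δ * HS (X (some i))) (R i)) →
        (∀ i, Near v B (η * HS (X (some i))) (xs (X (some i))) (R i)) → ∃ i, Spec D ε (X i) := by
  classical
  obtain ⟨m, n₀, c₁, hm, hc₁, Haux⟩ := exists_aux_sec a b hB (16 / η)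
  obtain ⟨c₀, hc₀, Hbr⟩ := exists_branch (K := K) (τ := Option (Fin m) × κ) (fun p => a p.2)
    (fun p => b p.2)
  obtain ⟨C, hC0, hC1, hC2, hC3⟩ := exists_ht_const (K := K) a b hD
  obtain ⟨D₂, c₂, Hlow⟩ := small_of_low (K := K) C
  set d : ℝ := ((totalWeight K : ℕ) : ℝ) with hd
  set g : ℝ := ((Fintype.card κ : ℕ) : ℝ) with hg
  set c' : ℝ := η + 1 + 2 * (g * B) with hc'
  set A : ℝ := c' + d * Real.log c₀ + 24 with hA
  have hd0 : 0 ≤ d := Nat.cast_nonneg _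
  have hg0 : 0 ≤ g := Nat.cast_nonneg _
  have hdl : 0 ≤ d * Real.log c₀ := mul_nonneg hd0 (Real.log_nonneg hc₀)
  have hc'0 : 0 < c' := by positivity
  have hA0 : 0 < A := by positivity
  have hm' : (1 : ℝ) ≤ m := by exact_mod_cast hm
  obtain ⟨D₁, lam₁, hlam₁, Hnv⟩ := nv_step (K := K) (I := Option (Fin m)) a b
    (θ := 1 / (4 * (2 * m + 1) * A)) (by positivity)
  refine ⟨m, max D₁ D₂, 1 / (4 * m), 4 * lam₁ + 1, by positivity, fun ε hε => ?_⟩
  set ε' : ℝ := ε / (2 * (D₁ + 1)) with hε'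
  have hε'0 : 0 < ε' := by positivity
  obtain ⟨ω₀, Hnv⟩ := Hnv ε' hε'0
  set μ : ℝ := min ε' (1 / (4 * (d + 1))) with hμ
  have hμ0 : 0 < μ := lt_min hε'0 (by positivity)
  obtain ⟨H₀, hH₀⟩ := eng_exists_le [2, 2 / η, C, 2 * ω₀, c₂ / ε, 1 / ε', 2 * c₁ / μ,
    4 * (d * Real.log c₀ * ((m + 1) * g * (2 * m + 3))), 4 * (m * (g * C))]
  refine ⟨min 1 (μ / (4 * m * (c₁ + 1))), H₀, lt_min one_pos (by positivity), ?_⟩
  intro X s R hX0 hl0 hl hcls hR hnear
  set δ : ℝ := min 1 (μ / (4 * m * (c₁ + 1))) with hδ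
  have hδ0 : 0 < δ := lt_min one_pos (by positivity)
  by_contra hcon
  push Not at hcon
  have hH : ∀ j, H₀ ≤ HS (X j) := by
    rintro (_ | j)
    · exact hX0
    · refine hX0.trans (le_trans ?_ (hl0 j))
      exact le_mul_of_one_le_left (HS_nonneg _) (by linarith)
  simp only [List.mem_cons, List.not_mem_nil, or_false, forall_eq_or_imp, forall_eq] at hH₀
  obtain ⟨b1, b2, b3, b4, b5, b6, b7, b8, b9⟩ := hH₀
  have hH2 : ∀ j, 2 ≤ HS (X j) := fun j => b1.trans (hH j)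
  have hX : ∀ j k i, 2 ^ i • X j k ≠ 0 := by
    intro j k
    refine hC2 k _ (lt_of_not_ge fun h => hcon j ?_)
    obtain ⟨p, h1, h2, -⟩ := Hlow κ (xs (X j)) k h
    refine ⟨p, h1.mono (le_max_right _ _) ?_, h2⟩
    rw [mul_comm]
    exact (div_le_iff₀ hε).1 (b5.trans (hH j))
  obtain ⟨y, hy, hy₀, hbr⟩ := Hbr (fun p => xc (X p.1 p.2)) (fun p => yc (X p.1 p.2))
    (fun p => onE_pt (by simpa using hX p.1 p.2 0)) (fun p => yc_ne_zero (hX p.1 p.2 1))
  obtain ⟨n₁, hn₁, hn₂⟩ : ∃ n₁ : ℕ, n₀ ≤ n₁ ∧ 8 * (2 * m + 1) ≤ n₁ :=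
    ⟨max _ _, le_max_left _ _, le_max_right _ _⟩
  set S : ℕ := ∑ j, s j with hS
  set n : Fin m → ℕ := fun j => n₁ * 4 ^ (S - s j) with hn
  set N : ℕ := n₁ * 4 ^ S with hNdef
  have hN : ∀ j, n j * 4 ^ s j = N := fun j => by
    rw [hn, hNdef, mul_assoc, ← pow_add, Nat.sub_add_cancel
      (Finset.single_le_sum (f := s) (fun _ _ => Nat.zero_le _) (Finset.mem_univ j))]
  have hnn : ∀ j, n₁ ≤ n j := fun j => Nat.le_mul_of_pos_right _ (by positivity)
  have hnN : n₁ ≤ N := Nat.le_mul_of_pos_right _ (by positivity)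
  have hN1 : 1 ≤ N := by omega
  have hN' : ∀ j, (N : ℝ) = n j * 4 ^ s j := fun j => by exact_mod_cast (hN j).symm
  have hN1' : (1 : ℝ) ≤ N := by exact_mod_cast hN1
  clear_value n N S
  set W : ℝ := N * HS (X none) with hW
  have hW1 : HS (X none) ≤ W := le_mul_of_one_le_left (HS_nonneg _) hN1'
  have hW0 : 0 < W := by linarith [hH2 none]
  have hWl : ∀ j, W ≤ 2 * (n j * HS (X (some j))) := fun j => by
    have := mul_le_mul_of_nonneg_left (hcls j).2.2 (Nat.cast_nonneg (α := ℝ) (n j))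
    rw [hW, hN' j]
    linarith
  have hWu : ∀ j, n j * HS (X (some j)) ≤ 2 * W := fun j => by
    have := mul_le_mul_of_nonneg_left (hcls j).2.1 (Nat.cast_nonneg (α := ℝ) (n j))
    rw [hW, hN' j]
    linarith
  obtain ⟨c, Q, hc, hF, hQ, hev, hs⟩ := Haux s n N hN (fun j => hn₁.trans (hnn j)) hN1 R
    (fun j => δ * HS (X (some j))) hR (pres v X s)
  set lT : ℝ := c₁ * (N + ∑ j, n j * (δ * HS (X (some j)))) with hlT
  have hlT1 : lT ≤ μ * W := by
    have h1 : ∑ j, n j * (δ * HS (X (some j))) ≤ m * (δ * (2 * W)) := by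
      refine (Finset.sum_le_card_nsmul _ _ (δ * (2 * W)) fun j _ => ?_).trans (by simp)
      rw [mul_left_comm]
      exact mul_le_mul_of_nonneg_left (hWu j) hδ0.le
    have h2 : δ * (4 * m * (c₁ + 1)) ≤ μ := (le_div_iff₀ (by positivity)).1 (min_le_right _ _)
    have h3 : 2 * c₁ ≤ HS (X none) * μ := (div_le_iff₀ hμ0).1 (b7.trans hX0)
    have h4 := mul_le_mul_of_nonneg_left h3 (zero_le_one.trans hN1')
    have h5 := mul_le_mul_of_nonneg_right h2 hW0.le
    have h6 := mul_le_mul_of_nonneg_left h1 hc₁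
    have h7 : 0 ≤ δ * m * W := by positivity
    have h8 : N * (HS (X none) * μ) = μ * W := by rw [hW]; ring
    rw [hlT]
    linarith
  set ω : Option (Fin m) → ℝ := fun j => j.elim (HS (X none)) fun j => 4 ^ s j * HS (X none)
    with hω
  have hω1 : ∀ j, HS (X j) ≤ 2 * ω j := by
    rintro (_ | j)
    · simp only [hω, Option.elim]
      linarith [hH2 none]
    · exact (hcls j).2.1
  have hω2 : ∀ j, ω j ≤ 2 * HS (X j) := by
    rintro (_ | j)
    · simp only [hω, Option.elim]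
      linarith [hH2 none]
    · exact (hcls j).2.2
  have hsep : ∀ i i', (4 * lam₁ + 1) * HS (X i) ≤ HS (X i') → lam₁ * ω i ≤ ω i' := by
    intro i i' h
    have h1 := mul_le_mul_of_nonneg_left (hω2 i) hlam₁.le
    linarith [hω1 i', HS_nonneg (X i)]
  have hwd : ∀ e p, WD (wt p) (∑ i, c i • secP a b s n e i) (DD N n p) := fun e p =>
    wd_sum _ fun i _ => (wd_secP a b hN e (mem_box.1 i.2) p).zsmul _
  have hωD : ∀ p : Option (Fin m) × κ, ω p.1 * DD N n p ≤ (2 * m + 1) * W := by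
    rintro ⟨_ | j, k⟩
    · simp only [hω, DD, Option.elim, Fintype.card_fin, hW]
      push_cast
      linarith
    · simp only [hω, DD, Option.elim]
      have h1 : 4 ^ s j * HS (X none) * (2 * n j) = 2 * W := by rw [hW, hN' j]; ring
      have h2 := mul_le_mul_of_nonneg_right hm' hW0.le
      push_cast
      linarith
  have hω0 : ∀ j, 0 ≤ ω j := fun j => by linarith [hω1 j, hH2 j]
  rcases Hnv ω (fun i => by linarith [hω1 i, hH i]) (by
      rintro (_ | i) (_ | i') hi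
      · exact absurd rfl hi
      · exact Or.inl (hsep _ _ (hl0 i'))
      · exact Or.inr (hsep _ _ (hl0 i))
      · rcases lt_or_gt_of_ne (fun h : i = i' => hi (congrArg some h)) with h | h
        · exact Or.inl (hsep _ _ (hl _ _ h))
        · exact Or.inr (hsep _ _ (hl _ _ h)))
      (fun p => xc (X p.1 p.2)) y hy (fun p h => yc_ne_zero (hX p.1 p.2 1) (by
        rw [← hy₀ p, h, map_zero])) ((2 * m + 1) * W)
      (∑ i, c i • secP a b s n (fun _ => false) i) (by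
        have h1 : 1 ≤ HS (X none) * ε' := (div_le_iff₀ hε'0).1 (b6.trans hX0)
        have h2 := mul_le_mul_of_nonneg_right hW1 hε'0.le
        have h3 : 0 ≤ m * (W * ε') := by positivity
        linarith)
      ((hF _).mono (Real.exp_le_exp.2 (hlT1.trans (by
        have h1 := mul_le_mul_of_nonneg_right (min_le_left ε' (1 / (4 * (d + 1)))) hW0.le
        have h3 : 0 ≤ m * (W * ε') := by positivity
        linarith))))
      (fun ν hν p => by
        have h1 := (apply_mul_le_weight (wt p) ν (Sum.inl p)).trans (hwd _ p ν hν)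
        have h2 := (apply_mul_le_weight (wt p) ν (Sum.inr p)).trans (hwd _ p ν hν)
        simp only [wt, Sum.elim_inl, Sum.elim_inr, if_true] at h1 h2
        exact ⟨(mul_le_mul_of_nonneg_left (by exact_mod_cast (by omega)) (hω0 _)).trans (hωD p),
          (mul_le_mul_of_nonneg_left (by exact_mod_cast (by omega)) (hω0 _)).trans (hωD p)⟩)
      (by
        simp only [map_sum, map_zsmul, aeval_secP]
        exact sec_indep a b hD s n N _ y hy
          (fun j k => by rw [hy₀]; exact mulP_ne_zero (hX none k (s j))) c hc) with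
    ⟨κ₀, h1, h2⟩ | ⟨i, p, h1, h2⟩
  swap
  · refine hcon i ⟨p, h1.mono (le_max_left _ _) ?_, h2⟩
    have h3 : ε' * (2 * (D₁ + 1)) = ε := div_mul_cancel₀ _ (by positivity)
    have h4 := mul_le_mul_of_nonneg_left (hω2 i) (by positivity : 0 ≤ D₁ * ε')
    have h5 := mul_nonneg hε'0.le (HS_nonneg (X i))
    rw [← h3]
    linarith
  have hZ : ∀ κ' ≤ κ₀, A * ∑ p, κ' p * HS (X p.1) ≤ W / 2 := by
    intro κ' hκ
    have h3 : ∑ p, κ' p * HS (X p.1) ≤ 2 * ∑ p, κ₀ p * ω p.1 := by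
      rw [Finset.mul_sum]
      refine Finset.sum_le_sum fun p _ => ?_
      have h4 : (κ' p : ℝ) ≤ κ₀ p := by exact_mod_cast hκ p
      rw [mul_left_comm]
      exact mul_le_mul h4 (hω1 _) (HS_nonneg _) (Nat.cast_nonneg _)
    have h4 : A * (2 * (1 / (4 * (2 * m + 1) * A) * ((2 * m + 1) * W))) = W / 2 := by
      field_simp
      ring
    rw [← h4]
    exact mul_le_mul_of_nonneg_left (h3.trans (by linarith)) hA0.le
  have hZ0 : ∀ κ' : Option (Fin m) × κ →₀ ℕ, 0 ≤ ∑ p, κ' p * HS (X p.1) := fun κ' =>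
    Finset.sum_nonneg fun p _ => mul_nonneg (Nat.cast_nonneg _) (HS_nonneg _)
  obtain ⟨κ', h3, h4⟩ := core_ineq hv X hX hc₀ hy hy₀ hbr hN c (Real.exp_pos lT) hF h2
    (fun κ' => 4 * W - c' * ∑ p, κ' p * HS (X p.1)) (fun κ' hκ => by
      have h3 := hZ κ' hκ
      have h4 := mul_le_mul_of_nonneg_right (show c' ≤ A by linarith) (hZ0 κ')
      linarith) (fun L hL κ' => by
      have h3 := hbr.gain_le hc₀ L κ' (fun j => by have := hnn j; omega) hη hW0.le
        (fun j => HS (X j)) hH2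
        (fun j => by rw [mul_comm]; exact (div_le_iff₀ hη).1 (b2.trans (hH j))) hWl R
        (fun j => (hR j).mono le_rfl (mul_le_of_le_one_left (HS_nonneg _) (min_le_left _ _)))
        (fun j => hL ▸ hnear j) (fun p => by
          rw [hL]
          refine (le_max_left _ 1).trans ((Real.log_le_iff_le_exp (by positivity)).1 ?_)
          exact (log_max_le hv _).trans (ht_le_HS (X p.1) p.2)) hQ hs
      rw [hev _ _ y hy, show η * (16 / η) * W / 4 = 4 * W by field_simp; ring] at h3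
      exact h3)
  rw [Real.log_exp] at h4
  have hn8 : (8 * (2 * m + 1) : ℝ) ≤ n₁ := by exact_mod_cast hn₂
  refine eng_num X hN (by positivity) κ' hC1 hC3 hcls hW hW0 hdl
    (fun j => one_le_two.trans (hH2 j)) (fun j => b3.trans (hH j)) rfl (hZ κ' h3) ?_ ?_ ?_ ?_ ?_ h4
  · have h5 : μ * (4 * (d + 1)) ≤ 1 := (le_div_iff₀ (by positivity)).1 (min_le_right _ _)
    have h6 := mul_le_mul_of_nonneg_left hlT1 hd0
    have h7 := mul_le_mul_of_nonneg_right h5 hW0.le
    have h8 := mul_pos hμ0 hW0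
    linarith
  · have h5 := (card_box_le_exp (κ := κ) hN1 (n := n) fun j =>
      hN j ▸ Nat.le_mul_of_pos_right _ (by positivity)).1
    have h6 : ((∑ p : Option (Fin m) × κ, (DD N n p + 2) : ℕ) : ℝ) ≤
        (m + 1) * g * (2 * m + 3) * N := by
      have h7 : ∑ p : Option (Fin m) × κ, (DD N n p + 2) ≤
          (m + 1) * Fintype.card κ * (2 * m + 3) * N := by
        rw [Finset.sum_add_distrib, Finset.sum_const, Finset.card_univ, Fintype.card_prod,
          Fintype.card_option, Fintype.card_fin, smul_eq_mul]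
        have h8 := Nat.mul_le_mul_left ((m + 1) * Fintype.card κ * 2) hN1
        linarith
      rw [hg]
      exact_mod_cast h7
    have h7 := mul_le_mul_of_nonneg_left h6 hdl
    have h8 := mul_le_mul_of_nonneg_left (b8.trans hX0) (zero_le_one.trans hN1')
    linarith
  · have h5 : ∑ j, HS (X (some j)) ≤ m * (2 * W / n₁) := by
      refine (Finset.sum_le_card_nsmul _ _ (2 * W / n₁) fun j _ => ?_).trans (by simp)
      rw [le_div_iff₀ (by linarith), mul_comm]
      exact (mul_le_mul_of_nonneg_right (by exact_mod_cast hnn j) (HS_nonneg _)).trans (hWu j)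
    have h6 : HS (X none) ≤ W / n₁ := by
      rw [le_div_iff₀ (by linarith), mul_comm]
      exact mul_le_mul_of_nonneg_right (by exact_mod_cast hnN) (HS_nonneg _)
    have h7 : W / n₁ * (8 * (2 * m + 1)) ≤ W := by
      rw [div_mul_eq_mul_div, div_le_iff₀ (by linarith)]
      exact mul_le_mul_of_nonneg_left hn8 hW0.le
    rw [mul_div_assoc] at h5
    linarith
  · rw [Fintype.card_fin]
    exact le_of_eq (by field_simp)
  · rw [Fintype.card_fin, ← hg]
    have h8 := mul_le_mul_of_nonneg_left (b9.trans hX0) (zero_le_one.trans hN1')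
    linarith

theorem engine [Nonempty κ] (a b : κ → ℤ) (hD : ∀ k, 4 * a k ^ 3 + 27 * b k ^ 2 ≠ 0)
    {v : AbsoluteValue K ℝ} (hv : Adm v) {η : ℝ} (hη : 0 < η) (B : ℕ) :
    ∃ (m D : ℕ) (θ lam : ℝ), 0 < θ ∧ ∀ ε : ℝ, 0 < ε → ∃ δ H₀ : ℝ, 0 < δ ∧
      ∀ (X₀ : Pts K a b) (X : Fin m → Pts K a b) (s : Fin m → ℕ) (R : Fin m → MvPolynomial κ ℚ),
        H₀ ≤ HS X₀ → (∀ i, lam * HS X₀ ≤ HS (X i)) →
        (∀ i i', i < i' → lam * HS (X i) ≤ HS (X i')) → (∀ i, Cls θ (s i) X₀ (X i)) →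
        (∀ i, Small B (δ * HS (X i)) (R i)) → (∀ i, Near v B (η * HS (X i)) (xs (X i)) (R i)) →
        Spec D ε X₀ ∨ ∃ i, Spec D ε (X i) := by
  obtain ⟨m, D, θ, lam, hθ, H⟩ := engine_pos a b hD hv hη (B := B + 1) (by omega)
  refine ⟨m, D, θ, lam, hθ, fun ε hε => ?_⟩
  obtain ⟨δ, H₀, hδ, H⟩ := H ε hε
  refine ⟨δ, H₀, hδ, fun X₀ X s R h1 h2 h3 h4 h5 h6 => ?_⟩
  obtain ⟨_ | i, hi⟩ := H (fun j => j.elim X₀ X) s R h1 h2 h3 h4
    (fun i => (h5 i).mono (Nat.le_succ B) le_rfl) fun i => (h6 i).mono (Nat.le_succ B)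
  · exact Or.inl hi
  · exact Or.inr ⟨i, hi⟩

end Pool.Agent.Lib.MP_8865d3_nt.Fa
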