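import Pool.Agent.Lib.MP_8865d3_nt.FaDefs

/-! The truncated norm on power series in several variables. -/

namespace Pool.Agent.Lib.MP_8865d3_nt.Fa

open MvPolynomial Finset Height Pool.Agent.Lib.Common.Subspace Pool.Agent.Lib.MP_e97e2b_nt
  Pool.Agent.Lib.MP_651af7_nt.Iv Pool.Agent.Lib.MP_651af7_nt.Vj

/-- A series in one variable, seen as a series in the variable `p`. -/
noncomputable def emb {K τ : Type} [Field K] (p : τ) : PowerSeries K →ₐ[K] MvPowerSeries τ K :=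
  MvPowerSeries.rename (⟨fun _ => p, fun _ _ _ => rfl⟩ : Unit ↪ τ)

theorem emb_X {K τ : Type} [Field K] (p : τ) :
    emb p (PowerSeries.X : PowerSeries K) = MvPowerSeries.X p := by
  exact MvPowerSeries.rename_X _ ()

theorem emb_C {K τ : Type} [Field K] (p : τ) (z : K) :
    emb p (PowerSeries.C z) = MvPowerSeries.C z := by
  exact MvPowerSeries.rename_C _ z

theorem constantCoeff_emb {K τ : Type} [Field K] (p : τ) (u : PowerSeries K) :
    MvPowerSeries.constantCoeff (emb p u) = PowerSeries.constantCoeff u := by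
  exact MvPowerSeries.constantCoeff_rename _ u

namespace FaMsAux

variable {K τ : Type} [Field K]

theorem coeff_emb_single (p : τ) (l : ℕ) (u : PowerSeries K) :
    MvPowerSeries.coeff (Finsupp.single p l) (emb p u) = PowerSeries.coeff l u := by
  have := MvPowerSeries.coeff_embDomain_rename (⟨fun _ => p, fun _ _ _ => rfl⟩ : Unit ↪ τ) u
    (Finsupp.single () l)
  rw [Finsupp.embDomain_single] at this
  exact this

theorem coeff_emb_zero (p : τ) (u : PowerSeries K) {μ : τ →₀ ℕ}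
    (h : ∀ l, Finsupp.single p l ≠ μ) : MvPowerSeries.coeff μ (emb p u) = 0 := by
  refine MvPowerSeries.coeff_rename_eq_zero _ u ?_
  rintro ⟨x, hx⟩
  refine h (x ()) ?_
  rw [← hx, Finsupp.unique_single x, Finsupp.mapDomain_single, Finsupp.single_eq_same]
  rfl

variable [Fintype τ] (L : Loc K) (κ : τ →₀ ℕ) (ρ : τ → ℝ)

/-- One term of the norm. -/
noncomputable def tm (u : MvPowerSeries τ K) (μ : τ →₀ ℕ) : ℝ :=
  L.v (MvPowerSeries.coeff μ u) * ∏ p, ρ p ^ μ p

open Classical in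
/-- The truncated norm. -/
noncomputable def mN (u : MvPowerSeries τ K) : ℝ :=
  if L.e = 0 then (Iic κ).sup' nonempty_Iic (tm L ρ u) else ∑ μ ∈ Iic κ, tm L ρ u μ

variable {L κ ρ}

open Classical in
theorem mN_one (he : L.e = 1) (u : MvPowerSeries τ K) :
    mN L κ ρ u = ∑ μ ∈ Iic κ, tm L ρ u μ := by
  rw [mN, if_neg (by omega)]

theorem mN_le (he : L.e = 0) {u : MvPowerSeries τ K} {M : ℝ} (h : ∀ μ ≤ κ, tm L ρ u μ ≤ M) :
    mN L κ ρ u ≤ M := by
  classical
  rw [mN, if_pos he]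
  exact sup'_le _ _ fun μ hμ => h μ (mem_Iic.1 hμ)

theorem pr_nonneg (hρ : ∀ p, 0 ≤ ρ p) (μ : τ →₀ ℕ) : 0 ≤ ∏ p, ρ p ^ μ p :=
  prod_nonneg fun p _ => pow_nonneg (hρ p) _

theorem tm_nonneg (hρ : ∀ p, 0 ≤ ρ p) (u : MvPowerSeries τ K) (μ : τ →₀ ℕ) : 0 ≤ tm L ρ u μ :=
  mul_nonneg (L.v.nonneg _) (pr_nonneg hρ μ)

theorem le_mN (hρ : ∀ p, 0 ≤ ρ p) (u : MvPowerSeries τ K) {μ : τ →₀ ℕ} (h : μ ≤ κ) :
    tm L ρ u μ ≤ mN L κ ρ u := by
  classical
  rcases L.h with he | ⟨he, -⟩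
  · rw [mN_one he]
    exact single_le_sum (fun μ _ => tm_nonneg hρ u μ) (mem_Iic.2 h)
  · rw [mN, if_pos he]
    exact le_sup' (tm L ρ u) (mem_Iic.2 h)

theorem mN_nonneg (hρ : ∀ p, 0 ≤ ρ p) (u : MvPowerSeries τ K) : 0 ≤ mN L κ ρ u :=
  (tm_nonneg hρ u κ).trans (le_mN hρ u le_rfl)

theorem mN_C (z : K) : mN L κ ρ (MvPowerSeries.C z) ≤ L.v z := by
  classical
  have h1 : ∀ μ : τ →₀ ℕ, tm L ρ (MvPowerSeries.C z) μ = if μ = 0 then L.v z else 0 := fun μ => by
    rw [tm, MvPowerSeries.coeff_C]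
    split_ifs with h
    · simp [h]
    · simp
  rcases L.h with he | ⟨he, -⟩
  · rw [mN_one he]
    simp only [h1, sum_ite_eq']
    split_ifs
    exacts [le_rfl, L.v.nonneg _]
  · refine mN_le he fun μ _ => ?_
    rw [h1]
    split_ifs
    exacts [le_rfl, L.v.nonneg _]

theorem mN_mul (hρ : ∀ p, 0 ≤ ρ p) (u u' : MvPowerSeries τ K) :
    mN L κ ρ (u * u') ≤ mN L κ ρ u * mN L κ ρ u' := by
  classical
  have hab : ∀ a b : τ →₀ ℕ, L.v (MvPowerSeries.coeff a u * MvPowerSeries.coeff b u') *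
      ∏ p, ρ p ^ (a + b) p = tm L ρ u a * tm L ρ u' b := fun a b => by
    simp only [tm, map_mul, Finsupp.add_apply, pow_add, prod_mul_distrib]
    ring
  rcases L.h with he | ⟨he, hn⟩
  · rw [mN_one he, mN_one he, mN_one he, sum_mul_sum, ← sum_product']
    have h1 : ∀ μ, tm L ρ (u * u') μ ≤ ∑ q ∈ antidiagonal μ, tm L ρ u q.1 * tm L ρ u' q.2 := by
      intro μ
      rw [tm, MvPowerSeries.coeff_mul]
      refine (mul_le_mul_of_nonneg_right (L.v.sum_le _ _) (pr_nonneg hρ μ)).trans ?_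
      rw [sum_mul]
      refine sum_le_sum fun q hq => le_of_eq ?_
      rw [← hab, mem_antidiagonal.1 hq]
    refine (sum_le_sum fun μ _ => h1 μ).trans ?_
    rw [← sum_biUnion]
    · refine sum_le_sum_of_subset_of_nonneg (fun q hq => ?_)
        fun q _ _ => mul_nonneg (tm_nonneg hρ _ _) (tm_nonneg hρ _ _)
      obtain ⟨μ, hμ, hq⟩ := mem_biUnion.1 hq
      have h2 := mem_Iic.1 hμ
      rw [← mem_antidiagonal.1 hq] at h2
      exact mem_product.2 ⟨mem_Iic.2 (le_self_add.trans h2), mem_Iic.2 (le_add_self.trans h2)⟩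
    · intro l _ l' _ hll
      refine disjoint_left.2 fun q hq hq' => hll ?_
      rw [← mem_antidiagonal.1 hq, ← mem_antidiagonal.1 hq']
  · refine mN_le he fun μ hμ => ?_
    rw [tm, MvPowerSeries.coeff_mul]
    refine Finset.sum_induction _ (fun x => L.v x * ∏ p, ρ p ^ μ p ≤ mN L κ ρ u * mN L κ ρ u')
      (fun x y hx hy => ?_) ?_ fun q hq => ?_
    · refine (mul_le_mul_of_nonneg_right (hn x y) (pr_nonneg hρ μ)).trans ?_
      rw [max_mul_of_nonneg _ _ (pr_nonneg hρ μ)]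
      exact max_le hx hy
    · rw [L.v.map_zero, zero_mul]
      exact mul_nonneg (mN_nonneg hρ _) (mN_nonneg hρ _)
    · rw [← mem_antidiagonal.1 hq] at hμ ⊢
      rw [hab]
      exact mul_le_mul (le_mN hρ u (le_self_add.trans hμ)) (le_mN hρ u' (le_add_self.trans hμ))
        (tm_nonneg hρ _ _) (mN_nonneg hρ _)

theorem mN_add (hρ : ∀ p, 0 ≤ ρ p) (u u' : MvPowerSeries τ K) (m m' M : ℝ)
    (h : mN L κ ρ u ≤ m ^ L.e * M) (h' : mN L κ ρ u' ≤ m' ^ L.e * M) :
    mN L κ ρ (u + u') ≤ (m + m') ^ L.e * M := by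
  rcases L.h with he | ⟨he, hn⟩
  · simp only [he, pow_one] at h h' ⊢
    rw [add_mul]
    refine le_trans ?_ (add_le_add h h')
    rw [mN_one he, mN_one he, mN_one he, ← sum_add_distrib]
    refine sum_le_sum fun μ _ => ?_
    rw [tm, tm, tm, map_add, ← add_mul]
    exact mul_le_mul_of_nonneg_right (L.v.add_le _ _) (pr_nonneg hρ μ)
  · simp only [he, pow_zero] at h h' ⊢
    refine mN_le he fun μ hμ => ?_
    rw [tm, map_add]
    refine (mul_le_mul_of_nonneg_right (hn _ _) (pr_nonneg hρ μ)).trans ?_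
    rw [max_mul_of_nonneg _ _ (pr_nonneg hρ μ)]
    exact max_le ((le_mN hρ u hμ).trans h) ((le_mN hρ u' hμ).trans h')

theorem tm_emb (p : τ) (u : PowerSeries K) (l : ℕ) :
    tm L ρ (emb p u) (Finsupp.single p l) = L.v (PowerSeries.coeff l u) * ρ p ^ l := by
  classical
  rw [tm, coeff_emb_single, prod_eq_single p (fun q _ hq => by
    rw [Finsupp.single_eq_of_ne hq, pow_zero]) (by simp), Finsupp.single_eq_same]

theorem mN_emb (hρ : ∀ p, 0 ≤ ρ p) (p : τ) (u : PowerSeries K) :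
    mN L κ ρ (emb p u) ≤ L.N (κ p) (ρ p) u := by
  classical
  rcases L.h with he | ⟨he, -⟩
  · rw [mN_one he, L.ser_N_one he, ← sum_subset
      (s₁ := (range (κ p + 1)).image (Finsupp.single p)), sum_image
      fun a _ b _ h => Finsupp.single_injective p h]
    · exact le_of_eq (sum_congr rfl fun l _ => tm_emb p u l)
    · intro μ hμ
      obtain ⟨l, hl, rfl⟩ := mem_image.1 hμ
      exact mem_Iic.2 (Finsupp.single_le_iff.2 (by have := mem_range.1 hl; omega))
    · intro μ hμ hμ'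
      rw [tm, coeff_emb_zero p u fun l hl => hμ' (mem_image.2 ⟨l, ?_, hl⟩), map_zero, zero_mul]
      rw [← hl, mem_Iic, Finsupp.single_le_iff] at hμ
      exact mem_range.2 (by omega)
  · refine mN_le he fun μ hμ => ?_
    by_cases h : ∃ l, Finsupp.single p l = μ
    · obtain ⟨l, rfl⟩ := h
      rw [tm_emb]
      exact L.ser_le_N_zero he u (Finsupp.single_le_iff.1 hμ)
    · rw [tm, coeff_emb_zero p u fun l hl => h ⟨l, hl⟩, map_zero, zero_mul]
      exact L.N_nonneg (hρ p) u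

end FaMsAux

open FaMsAux

/-- `N u` is the maximum (`L.e = 0`) or the sum (`L.e = 1`) over `μ ∈ Finset.Iic κ` of
`L.v (coeff μ u) * ∏ p, ρ p ^ μ p`; same proofs as in `Vj/Ser.lean` with `MvPowerSeries.coeff_mul`.
The coefficients of `emb p u`: `coeff_embDomain_rename`, `coeff_rename_eq_zero`. -/
theorem exists_mser {K τ : Type} [Field K] [Fintype τ] (L : Loc K) (κ : τ →₀ ℕ) (ρ : τ → ℝ)
    (hρ : ∀ p, 0 ≤ ρ p) : ∃ n : Nrm (MvPowerSeries τ K), n.e = L.e ∧
      (∀ u, L.v (MvPowerSeries.coeff κ u) * ∏ p, ρ p ^ κ p ≤ n.N u) ∧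
      (∀ z, n.N (MvPowerSeries.C z) ≤ L.v z) ∧
      ∀ (p : τ) (u : PowerSeries K), n.N (emb p u) ≤ L.N (κ p) (ρ p) u := by
  refine ⟨{ N := mN L κ ρ
            e := L.e
            e_le := L.e_le
            nonneg := mN_nonneg hρ
            zero := le_antisymm (by simpa using mN_C (L := L) (κ := κ) (ρ := ρ) 0) (mN_nonneg hρ _)
            one := by simpa using mN_C (L := L) (κ := κ) (ρ := ρ) 1
            neg := fun u => ?_
            mul := mN_mul hρ
            add := mN_add hρ }, rfl, fun u => le_mN hρ u le_rfl, mN_C, mN_emb hρ⟩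
  have : tm L ρ (-u) = tm L ρ u := funext fun μ => by rw [tm, tm, map_neg, AbsoluteValue.map_neg]
  rw [mN, mN, this]

/-- Take `κ'` of least degree among the `μ ≤ κ` with nonzero coefficient. -/
theorem exists_min_coeff {K τ : Type} [Field K] {f : MvPowerSeries τ K} {κ : τ →₀ ℕ}
    (h : MvPowerSeries.coeff κ f ≠ 0) : ∃ κ' ≤ κ, MvPowerSeries.coeff κ' f ≠ 0 ∧
      ∀ u, MvPowerSeries.coeff κ' (u * f) =
        MvPowerSeries.constantCoeff u * MvPowerSeries.coeff κ' f := by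
  classical
  obtain ⟨κ', ⟨h1, h2⟩, hmin⟩ := (wellFounded_lt (α := τ →₀ ℕ)).has_min
    {μ | μ ≤ κ ∧ MvPowerSeries.coeff μ f ≠ 0} ⟨κ, le_rfl, h⟩
  refine ⟨κ', h1, h2, fun u => ?_⟩
  rw [MvPowerSeries.coeff_mul, sum_eq_single (0, κ'), MvPowerSeries.coeff_zero_eq_constantCoeff_apply]
  · intro q hq hne
    have h3 := mem_antidiagonal.1 hq
    have h4 : q.2 < κ' := lt_of_le_of_ne (h3 ▸ le_add_self) fun h5 => hne (Prod.ext (by
      rw [h5] at h3
      simpa using h3) h5)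
    have h5 : MvPowerSeries.coeff q.2 f = 0 := by
      by_contra h6
      exact hmin _ ⟨h4.le.trans h1, h6⟩ h4
    rw [h5, mul_zero]
  · simp

end Pool.Agent.Lib.MP_8865d3_nt.Fa
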