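import Pool.Agent.Lib.MP_8865d3_nt.FaEng
import Pool.Agent.Lib.MP_651af7_nt.VjAsm

/-! Points close to a small divisor are special; the case of one curve. -/

namespace Pool.Agent.Lib.MP_8865d3_nt.Fa

open MvPolynomial Finset Height Pool.Agent.Lib.Common.Subspace Pool.Agent.Lib.MP_e97e2b_nt
  Pool.Agent.Lib.MP_651af7_nt.Iv Pool.Agent.Lib.MP_651af7_nt.Vj

variable {K κ : Type} [Field K] [NumberField K] [Fintype κ]

/-- `cells_abs` with `V = PiLp 2 (fun k => EuclideanSpace ℝ (Fin (r k)))`, `ht_euclid`. -/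
theorem cells_pi (a b : κ → ℤ) (hD : ∀ k, 4 * a k ^ 3 + 27 * b k ^ 2 ≠ 0) {θ : ℝ} (hθ : 0 < θ) :
    ∃ (n : ℕ) (cell : Pts K a b → Fin n) (H₀ : ℝ), ∀ X Y, cell X = cell Y → H₀ ≤ HS X →
      8 * HS X ≤ HS Y → ∃ j, Cls θ j X Y := by
  have hD' : ∀ k, 4 * (a k : K) ^ 3 + 27 * (b k : K) ^ 2 ≠ 0 := fun k => by
    exact_mod_cast hD k
  choose r φ C hC using fun k => ht_euclid (hD' k)
  let ψ : Pts K a b →+ PiLp 2 (fun k => EuclideanSpace ℝ (Fin (r k))) :=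
    AddMonoidHom.mk' (fun X => WithLp.toLp 2 (fun k => φ k (X k))) fun X Y => by
      rw [← WithLp.toLp_add]
      congr 1
      funext k
      simp
  refine cells_abs ψ HS (∑ k, C k) (fun X => ?_) θ hθ
  have e : ‖ψ X‖ ^ 2 = ∑ k, ‖φ k (X k)‖ ^ 2 := PiLp.norm_sq_eq_of_L2 _ _
  rw [e, HS, ← Finset.sum_sub_distrib]
  exact (Finset.abs_sum_le_sum_abs _ _).trans (Finset.sum_le_sum fun k _ => hC k (X k))

/-- As `c₁` in `main_of_phases` (`VjAsm`): in each cell the points that have a small near target and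
are not special have bounded height (`exists_chain`, `X₀ = s 0`, `X i = s (i + 1)`). -/
theorem nonspecial [Nonempty κ] (a b : κ → ℤ) (hD : ∀ k, 4 * a k ^ 3 + 27 * b k ^ 2 ≠ 0)
    {v : AbsoluteValue K ℝ} (hv : Adm v) {η : ℝ} (hη : 0 < η) (B : ℕ) :
    ∃ D : ℕ, ∀ ε : ℝ, 0 < ε → ∃ δ H₀ : ℝ, 0 < δ ∧ ∀ (X : Pts K a b) (R : MvPolynomial κ ℚ),
      H₀ ≤ HS X → Small B (δ * HS X) R → Near v B (η * HS X) (xs X) R → Spec D ε X := by
  obtain ⟨m, D, θ, lam, hθ, h₁⟩ := engine a b hD hv hη B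
  refine ⟨D, fun ε hε => ?_⟩
  obtain ⟨δ, H₁, hδ, h₁⟩ := h₁ ε hε
  obtain ⟨n, cell, H₀, hc⟩ := cells_pi (K := K) a b hD hθ
  have c₁ : ∀ c, ∃ t : ℝ, ∀ Y : Pts K a b, cell Y = c →
      (∃ R, Small B (δ * HS Y) R ∧ Near v B (η * HS Y) (xs Y) R) → ¬Spec D ε Y → HS Y < t := by
    intro c
    by_contra hcon
    push Not at hcon
    obtain ⟨s, s₁, s₂, s₃⟩ := exists_chain HS HS_nonneg
      {Y : Pts K a b | cell Y = c ∧
        (∃ R, Small B (δ * HS Y) R ∧ Near v B (η * HS Y) (xs Y) R) ∧ ¬Spec D ε Y}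
      (fun t => by
        obtain ⟨Y, a₁, a₂, a₃, a₄⟩ := hcon t
        exact ⟨Y, ⟨a₁, a₂, a₃⟩, a₄⟩) (max H₀ H₁) (max lam 8)
      (le_max_of_le_right (by norm_num))
    have l₁ : ∀ i i', i < i' → lam * HS (s i) ≤ HS (s i') := fun i i' hi =>
      (mul_le_mul_of_nonneg_right (le_max_left _ _) (HS_nonneg _)).trans (s₃ i i' hi)
    have l₂ : ∀ i : Fin m, ∃ j, Cls θ j (s 0) (s (i + 1)) := fun i =>
      hc _ _ ((s₁ 0).1.trans (s₁ (i + 1)).1.symm) ((le_max_left _ _).trans (s₂ 0))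
        ((mul_le_mul_of_nonneg_right (le_max_right _ _) (HS_nonneg _)).trans
          (s₃ 0 (i + 1) (Nat.succ_pos _)))
    choose j hj using l₂
    choose R hR₁ hR₂ using fun i : ℕ => (s₁ i).2.1
    rcases h₁ (s 0) (fun i => s (i + 1)) j (fun i => R (i + 1)) ((le_max_right _ _).trans (s₂ 0))
      (fun i => l₁ 0 (i + 1) (Nat.succ_pos _))
      (fun i i' hi => l₁ (i + 1) (i' + 1) (Nat.succ_lt_succ hi)) hj
      (fun i => hR₁ (i + 1)) (fun i => hR₂ (i + 1)) with hi | ⟨i, hi⟩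
    · exact (s₁ 0).2.2 hi
    · exact (s₁ (i + 1)).2.2 hi
  choose t ht using c₁
  refine ⟨δ, ∑ c, |t c|, hδ, fun X R hX h₂ h₃ => ?_⟩
  by_contra hs
  have p : |t (cell X)| ≤ ∑ c, |t c| :=
    Finset.single_le_sum (f := fun c => |t c|) (fun c _ => abs_nonneg _) (Finset.mem_univ _)
  have := ht _ X rfl ⟨R, h₂, h₃⟩ hs
  linarith [le_abs_self (t (cell X))]

/-- `nonspecial` with `κ = Unit`, `B = 1`, `R = 1`, `ε = 1 / (totalWeight K + 1)`; a special point has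
`ht P ≤ totalWeight K * ε * ht P` (`height_root_le`); for small height use `log_max_le`. -/
theorem siegel_pt {a b : ℤ} (hD : 4 * a ^ 3 + 27 * b ^ 2 ≠ 0) {v : AbsoluteValue K ℝ} (hv : Adm v)
    {η : ℝ} (hη : 0 < η) :
    ∃ C : ℝ, ∀ P : Pt (a : K) (b : K), Real.log (max (v (xc P)) 1) ≤ η * ht P + C := by
  obtain ⟨D, hN⟩ := nonspecial (K := K) (κ := Unit) (fun _ => a) (fun _ => b) (fun _ => hD) hv hη 1
  have w0 : (0 : ℝ) ≤ totalWeight K := Nat.cast_nonneg _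
  obtain ⟨δ, H₀, hδ, hN⟩ := hN (1 / ((totalWeight K : ℝ) + 1)) (by positivity)
  refine ⟨max H₀ 0, fun P => ?_⟩
  have h1 : Real.log (max (v (xc P)) 1) ≤ ht P := log_max_le hv _
  have h0 := ht_nonneg P
  have h2 := mul_nonneg hη.le h0
  have m1 := le_max_left H₀ 0
  have m2 := le_max_right H₀ 0
  by_contra hcon
  push Not at hcon
  let X : Pts K (fun _ : Unit => a) (fun _ => b) := fun _ => P
  have eX : HS X = ht P := by simp [HS, X]
  have hM : 0 < max (v (xc P)) 1 := lt_max_of_lt_right one_pos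
  have hS : Small 1 (δ * HS X) (1 : MvPolynomial Unit ℚ) := by
    refine ⟨one_ne_zero, il_one.mono (Real.one_le_exp (mul_nonneg hδ.le (HS_nonneg X))), ?_⟩
    intro μ hμ s
    rw [support_one, Finset.mem_singleton] at hμ
    simp [hμ]
  have hNear : Near v 1 (η * HS X) (xs X) 1 := by
    unfold Near
    simp only [map_one, Finset.univ_unique, Finset.prod_singleton, pow_one, xs, eX]
    show 1 ≤ Real.exp (-(η * ht P)) * max (v (xc P)) 1
    rw [← Real.exp_log hM, ← Real.exp_add]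
    exact Real.one_le_exp (by linarith)
  obtain ⟨g, hg, hz⟩ := hN X 1 (by rw [eX]; linarith) hS hNear
  have h3 := height_root_le hg.ne hg.il () (fun _ _ t ht => (ht rfl).elim) (xs X) hz
  rw [Real.log_exp, eX] at h3
  have h4 : ht P ≤ totalWeight K * (1 / ((totalWeight K : ℝ) + 1) * ht P) := h3
  have h5 : (totalWeight K : ℝ) * (1 / ((totalWeight K : ℝ) + 1) * ht P) =
      ht P - ht P / ((totalWeight K : ℝ) + 1) := by
    field_simp
    ring
  have h6 : ht P / ((totalWeight K : ℝ) + 1) ≤ 0 := by linarith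
  rw [div_le_iff₀ (by positivity), zero_mul] at h6
  linarith

theorem siegel_pi (a b : κ → ℤ) (hD : ∀ k, 4 * a k ^ 3 + 27 * b k ^ 2 ≠ 0) {v : AbsoluteValue K ℝ}
    (hv : Adm v) {η : ℝ} (hη : 0 < η) :
    ∃ C : ℝ, ∀ X : Pts K a b, ∑ k, Real.log (max (v (xc (X k))) 1) ≤ η * HS X + C := by
  choose C hC using fun k => siegel_pt (hD k) hv hη
  refine ⟨∑ k, C k, fun X => ?_⟩
  rw [HS, Finset.mul_sum, ← Finset.sum_add_distrib]
  exact Finset.sum_le_sum fun k _ => hC k (X k)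

end Pool.Agent.Lib.MP_8865d3_nt.Fa
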