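import Pool.Agent.Lib.MP_8865d3_nt.FaT1

/-! The approximation theorem for moving targets. -/

namespace Pool.Agent.Lib.MP_8865d3_nt.Fa

open MvPolynomial Finset Height Pool.Agent.Lib.Common.Subspace Pool.Agent.Lib.MP_e97e2b_nt
  Pool.Agent.Lib.MP_651af7_nt.Iv Pool.Agent.Lib.MP_651af7_nt.Vj

variable {K : Type} [Field K] [NumberField K]

private theorem t3_liou {v : AbsoluteValue K ℝ} (hv : Adm v) {κ : Type} [Fintype κ] {a b : κ → ℤ}
    (X : Pts K a b) {B : ℕ} {c : ℝ} (hc : 0 ≤ c) {R : MvPolynomial κ ℚ} (hR : Small B c R)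
    (h : aeval (xs X) R ≠ 0) :
    Real.exp (-(totalWeight K * c + B * HS X)) ≤ v (aeval (xs X) R) := by
  refine le_trans (Real.exp_le_exp.2 (neg_le_neg ?_)) (liouville hv h)
  have h1 := height_aeval_le (Real.one_le_exp hc) hR.il (fun _ => B) hR.deg (xs X)
  rw [Real.log_exp, ← Finset.mul_sum] at h1
  exact h1

private theorem t3_len {x y M : ℝ} (hy : 0 ≤ y) (B D : ℕ) (h : B * x + D * (y + 1) ≤ M) :
    Real.exp x ^ B * (Real.exp y + 1) ^ D ≤ Real.exp M := by
  have h1 : Real.exp y + 1 ≤ Real.exp (y + 1) := by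
    have h2 : 1 ≤ Real.exp y := Real.one_le_exp hy
    have h3 : 1 + 1 ≤ Real.exp 1 := Real.add_one_le_exp 1
    rw [Real.exp_add]
    nlinarith
  calc Real.exp x ^ B * (Real.exp y + 1) ^ D ≤ Real.exp x ^ B * Real.exp (y + 1) ^ D := by gcongr
    _ = Real.exp (B * x + D * (y + 1)) := by
        rw [← Real.exp_nat_mul, ← Real.exp_nat_mul, ← Real.exp_add]
    _ ≤ Real.exp M := Real.exp_le_exp.2 h

private theorem t3_prod {κ : Type} [Fintype κ] (f : κ → ℝ) (E : ℕ) :
    ∏ s, max (f s) 1 ^ E = Real.exp (E * ∑ s, Real.log (max (f s) 1)) := by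
  rw [Finset.mul_sum, Real.exp_sum]
  refine Finset.prod_congr rfl fun s _ => ?_
  rw [Real.exp_nat_mul, Real.exp_log (lt_of_lt_of_le one_pos (le_max_right _ _))]

private theorem t3_div {η : ℝ} (hη : 0 < η) {x : ℝ} (hx : 0 ≤ x) :
    ∃ δ : ℝ, 0 < δ ∧ x * δ ≤ η := by
  refine ⟨η / (x + 1), by positivity, ?_⟩
  rw [← mul_div_assoc, div_le_iff₀ (by positivity)]
  nlinarith

/-- Induction on `n = card κ`.  Suppose `v γ < exp (- η H)`, `γ = aeval (xs X) R`.  `liouville` and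
`height_aeval_le` give `η H ≤ d δ H + B * HS X` (`d = totalWeight K`), so with `d δ ≤ η / 2`:
`η H ≤ 2 B * HS X` (this settles `n = 0`).  Hence `R` is `Small B (δ (2 B / η) HS X)` and
`Near v B (η HS X)`; `nonspecial` gives `Spec D ε X`; `exists_good_rel` gives `φ, t`; `elim_small`
with `dφ = D`, `dG = B` gives `N` free of `t`, of degrees `≤ 2 D B`, length at most
`exp (B ε H) * (exp (δ H) + 1) ^ D`, and `v N ≤ exp (- η H / 2)` by `siegel_pi`;
`exists_rename_small` with `Subtype.val : {k // k ≠ t} → κ` and the induction hypothesis for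
`η / 3`, `2 D B` (finitely many `t`: choose the constants for each `t`, take minimum and maximum). -/
theorem fa_moving {v : AbsoluteValue K ℝ} (hv : Adm v) (n : ℕ) :
    ∀ (κ : Type) [Fintype κ], Fintype.card κ = n → ∀ a b : κ → ℤ,
      (∀ k, 4 * a k ^ 3 + 27 * b k ^ 2 ≠ 0) → ∀ η : ℝ, 0 < η → ∀ B : ℕ, ∃ δ H₀ : ℝ, 0 < δ ∧
      ∀ (H : ℝ) (X : Pts K a b) (R : MvPolynomial κ ℚ), H₀ ≤ H → HS X ≤ H → Small B (δ * H) R →
        aeval (xs X) R ≠ 0 → Real.exp (-(η * H)) ≤ v (aeval (xs X) R) := by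
  induction n with
  | zero =>
    intro κ _ hκ a b _ η hη B
    have : IsEmpty κ := Fintype.card_eq_zero_iff.1 hκ
    obtain ⟨δ, hδ, hδ1⟩ := t3_div hη (Nat.cast_nonneg (totalWeight K))
    refine ⟨δ, 0, hδ, fun H X R hH _ hR h => ?_⟩
    refine le_trans (Real.exp_le_exp.2 (neg_le_neg ?_)) (t3_liou hv X (by positivity) hR h)
    have h0 : HS X = 0 := by simp [HS]
    rw [h0, mul_zero, add_zero, ← mul_assoc]
    exact mul_le_mul_of_nonneg_right hδ1 hH
  | succ n ih =>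
    intro κ _ hκ a b hD η hη B
    classical
    have : Nonempty κ := Fintype.card_pos_iff.1 (by omega)
    obtain ⟨D, hns⟩ := nonspecial a b hD hv hη B
    have hI := fun t : κ => ih {k // k ≠ t} (by simp [Fintype.card_subtype_compl, hκ])
      (fun k => a k) (fun k => b k) (fun k => hD k) (η / 3) (by positivity) (D * B + B * D)
    choose δf Hf hδf hf using hI
    obtain ⟨t₁, ht₁⟩ := Finite.exists_min δf
    obtain ⟨t₂, ht₂⟩ := Finite.exists_max Hf
    obtain ⟨m, hm, hm1, hm2⟩ : ∃ m : ℝ, 0 < m ∧ m ≤ δf t₁ ∧ m ≤ η / 6 :=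
      ⟨min (δf t₁) (η / 6), lt_min (hδf t₁) (by positivity), min_le_left _ _, min_le_right _ _⟩
    obtain ⟨ε, hε, hε1⟩ := t3_div (η := m / 3) (by positivity) (Nat.cast_nonneg B)
    obtain ⟨δ₂, H₂, hδ₂, hsp⟩ := hns ε hε
    obtain ⟨η', hη', hη1⟩ := t3_div (η := η / 6) (by positivity) (Nat.cast_nonneg (D * B + B * D))
    obtain ⟨C, hC⟩ := siegel_pi a b hD hv hη'
    obtain ⟨δa, hδa, ha⟩ := t3_div (η := η / 2) (by positivity) (Nat.cast_nonneg (totalWeight K))
    obtain ⟨δb, hδb, hb⟩ := t3_div (η := δ₂ * η) (by positivity)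
      (x := 2 * ((B : ℝ) + 1)) (by positivity)
    obtain ⟨δc, hδc, hc⟩ := t3_div (η := m / 3) (by positivity) (Nat.cast_nonneg D)
    obtain ⟨δ, hδ, hδ1, hδ2, hδ3⟩ : ∃ δ : ℝ, 0 < δ ∧ totalWeight K * δ ≤ η / 2 ∧
        2 * ((B : ℝ) + 1) * δ ≤ δ₂ * η ∧ D * δ ≤ m / 3 := by
      refine ⟨min δa (min δb δc), lt_min hδa (lt_min hδb hδc), ?_, ?_, ?_⟩
      · exact le_trans (mul_le_mul_of_nonneg_left (min_le_left _ _) (by positivity)) ha
      · exact le_trans (mul_le_mul_of_nonneg_left ((min_le_right _ _).trans (min_le_left _ _))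
          (by positivity)) hb
      · exact le_trans (mul_le_mul_of_nonneg_left ((min_le_right _ _).trans (min_le_right _ _))
          (by positivity)) hc
    obtain ⟨H₀, hH₀⟩ : ∃ H₀ : ℝ, ∀ H, H₀ ≤ H → Hf t₂ ≤ H ∧ 0 < H ∧ (D : ℝ) ≤ m / 3 * H ∧
        2 * ((B : ℝ) + 1) * H₂ ≤ η * H ∧ ((D * B + B * D : ℕ) : ℝ) * C ≤ η / 6 * H := by
      refine ⟨max (max (Hf t₂) 1) (max (D / (m / 3)) (max (2 * ((B : ℝ) + 1) * H₂ / η)
        (((D * B + B * D : ℕ) : ℝ) * C / (η / 6)))), fun H hH => ?_⟩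
      simp only [max_le_iff] at hH
      obtain ⟨⟨h1, h2⟩, h3, h4, h5⟩ := hH
      rw [div_le_iff₀' (by positivity)] at h3 h4 h5
      exact ⟨h1, by linarith, h3, h4, h5⟩
    refine ⟨δ, H₀, hδ, fun H X R hH hX hR h => ?_⟩
    obtain ⟨g1, g2, g3, g4, g5⟩ := hH₀ H hH
    by_contra hlt
    rw [not_le] at hlt
    have hS := HS_nonneg X
    have hB0 : (0 : ℝ) ≤ B := Nat.cast_nonneg B
    have k1 : η * H ≤ 2 * ((B : ℝ) + 1) * HS X := by
      have h1 := Real.exp_lt_exp.1 ((t3_liou hv X (by positivity) hR h).trans_lt hlt)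
      have h2 : totalWeight K * δ * H ≤ η / 2 * H := mul_le_mul_of_nonneg_right hδ1 g2.le
      nlinarith
    have hB1 : (0 : ℝ) < 2 * ((B : ℝ) + 1) := by positivity
    have k2 : H₂ ≤ HS X := le_of_mul_le_mul_left (g4.trans k1) hB1
    have k3 : δ * H ≤ δ₂ * HS X := by
      refine le_of_mul_le_mul_left ?_ hB1
      have h1 : 2 * ((B : ℝ) + 1) * δ * H ≤ δ₂ * η * H := mul_le_mul_of_nonneg_right hδ2 g2.le
      have h2 : δ₂ * (η * H) ≤ δ₂ * (2 * ((B : ℝ) + 1) * HS X) :=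
        mul_le_mul_of_nonneg_left k1 hδ₂.le
      nlinarith
    have k4 : Near v B (η * HS X) (xs X) R := by
      unfold Near
      have h1 : (1 : ℝ) ≤ ∏ k, max (v (xs X k)) 1 ^ B :=
        Finset.prod_induction _ (fun x => (1 : ℝ) ≤ x) (fun _ _ => one_le_mul_of_one_le_of_one_le)
          le_rfl fun k _ => one_le_pow₀ (le_max_right _ _)
      have h2 : Real.exp (-(η * H)) ≤ Real.exp (-(η * HS X)) :=
        Real.exp_le_exp.2 (neg_le_neg (mul_le_mul_of_nonneg_left hX hη.le))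
      exact (hlt.le.trans h2).trans (le_mul_of_one_le_right (Real.exp_pos _).le h1)
    obtain ⟨g, hg, hg0⟩ := hsp X R k2 (hR.mono le_rfl k3) k4
    obtain ⟨φ, t, hφ, hφ0, hφ1⟩ := exists_good_rel (xs X) hg hg0
    obtain ⟨N, n1, n2, n3, n4, n5⟩ := elim_small v (xs X) t hφ.il hR.il (fun _ => D) (fun _ => B)
      hφ.deg hR.deg hφ0 hφ1 h
    have k5 : Real.exp (ε * HS X) ^ B * (Real.exp (δ * H) + 1) ^ D ≤ Real.exp (m * H) := by
      refine t3_len (by positivity) B D ?_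
      have h1 : B * ε * HS X ≤ m / 3 * H :=
        mul_le_mul hε1 hX hS (by positivity)
      have h2 : D * δ * H ≤ m / 3 * H := mul_le_mul_of_nonneg_right hδ3 g2.le
      nlinarith
    have k6 : ∏ s, max (v (xs X s)) 1 ^ (D * B + B * D) ≤ Real.exp (η / 3 * H) := by
      rw [t3_prod]
      refine Real.exp_le_exp.2 ?_
      have h1 : ((D * B + B * D : ℕ) : ℝ) * ∑ s, Real.log (max (v (xs X s)) 1) ≤
          ((D * B + B * D : ℕ) : ℝ) * (η' * HS X + C) :=
        mul_le_mul_of_nonneg_left (hC X) (Nat.cast_nonneg _)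
      have h2 : ((D * B + B * D : ℕ) : ℝ) * η' * HS X ≤ η / 6 * H :=
        mul_le_mul hη1 hX hS (by positivity)
      nlinarith
    have hN : Small (D * B + B * D) (δf t * H) N :=
      ⟨fun e => n2 (by rw [e, map_zero]), n1.mono (k5.trans (Real.exp_le_exp.2
        (mul_le_mul_of_nonneg_right (hm1.trans (ht₁ t)) g2.le))), n4⟩
    obtain ⟨N', hN', rfl⟩ := exists_rename_small (e := (Subtype.val : {k // k ≠ t} → κ))
      Subtype.val_injective hN (fun μ hμ s hs => by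
        have : s = t := by
          by_contra hst
          exact hs ⟨⟨s, hst⟩, rfl⟩
        rw [this]
        exact n3 μ hμ)
    have k7 : HS (K := K) (a := fun k : {k // k ≠ t} => a k) (b := fun k => b k)
        (fun k => X k) ≤ H := by
      refine le_trans ?_ hX
      unfold HS
      rw [← Finset.sum_subtype (univ.filter (· ≠ t)) (by simp) (fun k => ht (X k))]
      exact Finset.sum_le_sum_of_subset_of_nonneg (Finset.filter_subset _ _)
        fun _ _ _ => ht_nonneg _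
    rw [aeval_rename] at n2 n5
    have k8 := hf t H (fun k => X k) N' ((ht₂ t).trans g1) k7 hN' n2
    have k9 : v (aeval (xs X) R) * (Real.exp (ε * HS X) ^ B * (Real.exp (δ * H) + 1) ^ D) *
        ∏ s, max (v (xs X s)) 1 ^ (D * B + B * D) ≤
        Real.exp (-(η * H)) * Real.exp (m * H) * Real.exp (η / 3 * H) := by
      gcongr
    rw [← Real.exp_add, ← Real.exp_add] at k9
    have k10 := Real.exp_le_exp.1 ((k8.trans n5).trans k9)
    have k11 : m * H ≤ η / 6 * H := mul_le_mul_of_nonneg_right hm2 g2.le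
    have k12 : 0 < η * H := by positivity
    linarith

end Pool.Agent.Lib.MP_8865d3_nt.Fa
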