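import Pool.Agent.Lib.MP_8865d3_nt.GmFinKey

/-! Functions on a Weierstrass curve and expansions along the toric boundary. -/

namespace Pool.Agent.Lib.MP_8865d3_nt.Ft

open MvPolynomial Pool.Agent.MP_651af7_nt.Final Pool.Agent.Lib.MP_8865d3_nt.Gm

variable {k : Type} [Field k]

/-- The polynomial `g` vanishes at all the affine points of the curve. -/
def Van (W : WeierstrassCurve ℚ) (g : MvPolynomial (Fin 3) k) : Prop :=
  ∀ (L : Type) [Field L] (f : ℚ →+* L) (σ : k →+* L) (x y : L), (W.map f).toAffine.Equation x y →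
    eval₂ σ ![x, y, 1] g = 0

private theorem alg_eq [CharZero k] (W : WeierstrassCurve ℚ) {L : Type} [Field L] (f : ℚ →+* L)
    (σ : k →+* L) {x y : L} (h : (W.map f).toAffine.Equation x y) :
    y ^ 2 + (Polynomial.C (W.map (algebraMap ℚ k)).a₁ * Polynomial.X +
      Polynomial.C (W.map (algebraMap ℚ k)).a₃).eval₂ σ x * y =
      (Polynomial.X ^ 3 + Polynomial.C (W.map (algebraMap ℚ k)).a₂ * Polynomial.X ^ 2 +
        Polynomial.C (W.map (algebraMap ℚ k)).a₄ * Polynomial.X +
        Polynomial.C (W.map (algebraMap ℚ k)).a₆).eval₂ σ x := by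
  obtain rfl : σ.comp (algebraMap ℚ k) = f := RingHom.ext_rat _ _
  have h1 := (WeierstrassCurve.Affine.equation_iff x y).1 h
  simp only [WeierstrassCurve.map_a₁, WeierstrassCurve.map_a₂, WeierstrassCurve.map_a₃,
    WeierstrassCurve.map_a₄, WeierstrassCurve.map_a₆, RingHom.comp_apply] at h1
  simp only [Polynomial.eval₂_add, Polynomial.eval₂_mul, Polynomial.eval₂_pow, Polynomial.eval₂_C,
    Polynomial.eval₂_X, WeierstrassCurve.map_a₁, WeierstrassCurve.map_a₂, WeierstrassCurve.map_a₃,
    WeierstrassCurve.map_a₄, WeierstrassCurve.map_a₆]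
  linear_combination h1

private theorem alg_red [CharZero k] (W : WeierstrassCurve ℚ) (g : MvPolynomial (Fin 3) k) :
    ∃ α β : Polynomial k, ∀ (L : Type) [Field L] (f : ℚ →+* L) (σ : k →+* L) (x y : L),
      (W.map f).toAffine.Equation x y →
        eval₂ σ ![x, y, 1] g = α.eval₂ σ x + β.eval₂ σ x * y := by
  induction g using MvPolynomial.induction_on with
  | C a => exact ⟨Polynomial.C a, 0, fun L _ f σ x y _ => by simp⟩
  | add p q hp hq =>
    obtain ⟨α, β, h⟩ := hp
    obtain ⟨α', β', h'⟩ := hq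
    refine ⟨α + α', β + β', fun L _ f σ x y e => ?_⟩
    rw [eval₂_add, h L f σ x y e, h' L f σ x y e, Polynomial.eval₂_add, Polynomial.eval₂_add]
    ring
  | mul_X p i hp =>
    obtain ⟨α, β, h⟩ := hp
    fin_cases i
    · refine ⟨α * Polynomial.X, β * Polynomial.X, fun L _ f σ x y e => ?_⟩
      rw [eval₂_mul, eval₂_X, h L f σ x y e, Polynomial.eval₂_mul_X, Polynomial.eval₂_mul_X]
      change _ * x = _
      ring
    · refine ⟨β * (Polynomial.X ^ 3 + Polynomial.C (W.map (algebraMap ℚ k)).a₂ * Polynomial.X ^ 2 +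
        Polynomial.C (W.map (algebraMap ℚ k)).a₄ * Polynomial.X +
        Polynomial.C (W.map (algebraMap ℚ k)).a₆), α - β *
        (Polynomial.C (W.map (algebraMap ℚ k)).a₁ * Polynomial.X +
        Polynomial.C (W.map (algebraMap ℚ k)).a₃), fun L _ f σ x y e => ?_⟩
      rw [eval₂_mul, eval₂_X, h L f σ x y e, Polynomial.eval₂_sub, Polynomial.eval₂_mul,
        Polynomial.eval₂_mul, ← alg_eq W f σ e]
      change _ * y = _
      ring
    · refine ⟨α, β, fun L _ f σ x y e => ?_⟩
      rw [eval₂_mul, eval₂_X, h L f σ x y e]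
      exact mul_one _

/-- Write `g (x, y, 1) = α (x) + β (x) * y` on the curve with `α β : Polynomial k` (induction on `g`, using
`y ^ 2 = c (x) - l (x) * y`, `l = a₁ X + a₃`, `c` the monic cubic; `σ.comp (algebraMap ℚ k) = f` by
`RingHom.ext_rat`).  If `α = β = 0` then `Van W g`.  Otherwise `N = α ^ 2 - α * β * l - β ^ 2 * c` is not
`0` (degrees: `2 deg α` is even, `2 deg β + 3` is odd, the middle term has smaller degree than the larger
of the two; or `WeierstrassCurve.Affine.CoordinateRing.degree_norm_smul_basis`) and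
`N (x) = (α + β y) * (α - β (y + l))`. -/
theorem exists_norm [CharZero k] (W : WeierstrassCurve ℚ) {g : MvPolynomial (Fin 3) k}
    (h : ¬Van W g) : ∃ N : Polynomial k, N ≠ 0 ∧ ∀ (L : Type) [Field L] (f : ℚ →+* L) (σ : k →+* L)
      (x y : L), (W.map f).toAffine.Equation x y → eval₂ σ ![x, y, 1] g = 0 → N.eval₂ σ x = 0 := by
  obtain ⟨α, β, hg⟩ := alg_red W g
  refine ⟨α ^ 2 - α * β * (Polynomial.C (W.map (algebraMap ℚ k)).a₁ * Polynomial.X +
    Polynomial.C (W.map (algebraMap ℚ k)).a₃) - β ^ 2 * (Polynomial.X ^ 3 +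
      Polynomial.C (W.map (algebraMap ℚ k)).a₂ * Polynomial.X ^ 2 +
      Polynomial.C (W.map (algebraMap ℚ k)).a₄ * Polynomial.X +
      Polynomial.C (W.map (algebraMap ℚ k)).a₆), fun h0 => h fun L _ f σ x y e => ?_,
    fun L _ f σ x y e h0 => ?_⟩
  · have h1 := WeierstrassCurve.Affine.CoordinateRing.degree_norm_smul_basis
      (W' := (W.map (algebraMap ℚ k)).toAffine) α β
    rw [WeierstrassCurve.Affine.CoordinateRing.norm_smul_basis, h0, Polynomial.degree_zero,
      eq_comm, max_eq_bot, two_nsmul, two_nsmul] at h1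
    have h2 : α = 0 := by simpa using h1.1
    have h3 : β = 0 := by simpa using h1.2
    rw [hg L f σ x y e, h2, h3, Polynomial.eval₂_zero, zero_mul, add_zero]
  · rw [hg L f σ x y e] at h0
    rw [Polynomial.eval₂_sub, Polynomial.eval₂_sub, Polynomial.eval₂_mul, Polynomial.eval₂_mul,
      Polynomial.eval₂_mul, Polynomial.eval₂_pow, Polynomial.eval₂_pow, ← alg_eq W f σ e]
    linear_combination (α.eval₂ σ x - β.eval₂ σ x * (y + (Polynomial.C
      (W.map (algebraMap ℚ k)).a₁ * Polynomial.X +
      Polynomial.C (W.map (algebraMap ℚ k)).a₃).eval₂ σ x)) * h0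

/-- The form `F` as a polynomial in the coordinate `t` of the line, the other one being `1`. -/
noncomputable def toP (t : Fin 2) (F : MvPolynomial (Fin 3 ⊕ Fin 2) k) :
    Polynomial (MvPolynomial (Fin 3) k) :=
  aeval (Sum.elim (fun s => Polynomial.C (X s)) (Function.update 1 t Polynomial.X)) F

/-- Induction on `F`. -/
theorem toP_eval₂ {L : Type*} [CommRing L] (σ : k →+* L) (P : Fin 3 → L) (u : L) (t : Fin 2)
    (F : MvPolynomial (Fin 3 ⊕ Fin 2) k) : (toP t F).eval₂ (eval₂Hom σ P) u =
      eval₂ σ (Sum.elim P (Function.update 1 t u)) F := by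
  induction F using MvPolynomial.induction_on with
  | C a =>
    rw [toP, aeval_C, Polynomial.algebraMap_apply, Polynomial.eval₂_C, algebraMap_eq, eval₂Hom_C,
      eval₂_C]
  | add p q hp hq => rw [toP, map_add, Polynomial.eval₂_add, eval₂_add, ← hp, ← hq, toP, toP]
  | mul_X p i hp =>
    rw [toP, map_mul, Polynomial.eval₂_mul, eval₂_mul, ← hp, toP, aeval_X, eval₂_X]
    refine congrArg _ ?_
    rcases i with i | i
    · rw [Sum.elim_inl, Sum.elim_inl, Polynomial.eval₂_C, eval₂Hom_X']
    · rw [Sum.elim_inr, Sum.elim_inr]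
      by_cases e : i = t
      · rw [e, Function.update_self, Function.update_self, Polynomial.eval₂_X]
      · rw [Function.update_of_ne e, Function.update_of_ne e, Pi.one_apply, Pi.one_apply,
          Polynomial.eval₂_one]

theorem toP_eval (P : Fin 3 → k) (u : k) (t : Fin 2) (F : MvPolynomial (Fin 3 ⊕ Fin 2) k) :
    (toP t F).eval₂ (eval P) u = eval (Sum.elim P (Function.update 1 t u)) F := by
  exact toP_eval₂ (RingHom.id k) P u t F

/-- Otherwise, over the algebraic closure, for every `x` there is `y` with `Equation x y`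
(`IsAlgClosed.exists_root` for the monic quadratic; `equation_iff_nonsingular`), and the point
`(some x y _, T)` lies in the set, `T = some 0` for `t = 0` and `T = none` for `t = 1`
(`toP_eval₂` with `u = 0`, `Polynomial.eval₂_at_zero`); `Set.infinite_of_injective_forall_mem`. -/
theorem exists_not_van [CharZero k] (W : WeierstrassCurve ℚ) [W.IsElliptic] {ι : Type}
    (G : ι → MvPolynomial (Fin 3 ⊕ Fin 2) k) (f : ℚ →+* AlgebraicClosure k)
    (hfin : {R : (W.map f).toAffine.Point × Option (AlgebraicClosure k) |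
      ∀ j, aeval (Sum.elim (pr R.1) (pr1 R.2)) (G j) = 0}.Finite) (t : Fin 2) :
    ∃ j, ¬Van W ((toP t (G j)).coeff 0) := by
  by_contra hno
  have h1 : ∀ x : AlgebraicClosure k, ∃ y, (W.map f).toAffine.Equation x y := by
    intro x
    obtain ⟨y, hy⟩ := IsAlgClosed.exists_root (Polynomial.X ^ 2 +
      Polynomial.C ((W.map f).a₁ * x + (W.map f).a₃) * Polynomial.X -
      Polynomial.C (x ^ 3 + (W.map f).a₂ * x ^ 2 + (W.map f).a₄ * x + (W.map f).a₆)) (by
        have h2 : (Polynomial.X ^ 2 +
          Polynomial.C ((W.map f).a₁ * x + (W.map f).a₃) * Polynomial.X -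
          Polynomial.C (x ^ 3 + (W.map f).a₂ * x ^ 2 + (W.map f).a₄ * x +
            (W.map f).a₆)).degree = 2 := by compute_degree!
        rw [h2]
        decide)
    refine ⟨y, (WeierstrassCurve.Affine.equation_iff x y).2 ?_⟩
    simp only [Polynomial.IsRoot, Polynomial.eval_sub, Polynomial.eval_add, Polynomial.eval_mul,
      Polynomial.eval_pow, Polynomial.eval_X, Polynomial.eval_C] at hy
    linear_combination hy
  choose y hy using h1
  obtain ⟨T, hT⟩ : ∃ T : Option (AlgebraicClosure k), pr1 T =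
      Function.update (1 : Fin 2 → AlgebraicClosure k) t 0 := by
    fin_cases t
    · exact ⟨some 0, by funext i; fin_cases i <;> rfl⟩
    · exact ⟨none, by funext i; fin_cases i <;> rfl⟩
  refine hfin.not_infinite <| Set.infinite_of_injective_forall_mem
    (f := fun x => (WeierstrassCurve.Affine.Point.some x (y x)
      (WeierstrassCurve.Affine.equation_iff_nonsingular.1 (hy x)), T)) (fun x x' e => ?_)
    fun x j => ?_
  · exact (WeierstrassCurve.Affine.Point.some.inj (congrArg Prod.fst e)).1
  · have h2 := not_not.1 (fun e => hno ⟨j, e⟩) (AlgebraicClosure k) f (algebraMap k _) x (y x) (hy x)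
    rw [← coe_eval₂Hom, ← Polynomial.eval₂_at_zero, toP_eval₂, ← hT] at h2
    exact h2

end Pool.Agent.Lib.MP_8865d3_nt.Ft
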