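import Pool.Agent.Lib.MP_8865d3_nt.FtDefs
import Pool.Agent.Lib.MP_8865d3_nt.FaBr

/-! Formal branches with torus coordinates. -/

namespace Pool.Agent.Lib.MP_8865d3_nt.Ft

open MvPolynomial Finset Height Pool.Agent.Lib.Common.Subspace Pool.Agent.Lib.MP_e97e2b_nt
  Pool.Agent.Lib.MP_651af7_nt.Iv Pool.Agent.Lib.MP_651af7_nt.Vj Pool.Agent.Lib.MP_8865d3_nt.Fa

private theorem ftbr_torus {K : Type} [Field K] [CharZero K] (L : Loc K) {c : ℝ} (hc : 2 ≤ c) {ξ : K}
    (hξ : ξ ≠ 0) (k : ℕ) {ρ : ℝ} (hρ : 0 ≤ ρ)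
    (hρ' : ρ * (c ^ L.e * max (L.v ξ) 1 ^ 18 * max (L.v ξ⁻¹) 1 ^ 2) ≤ 1) :
    L.N k ρ (PowerSeries.C ξ + PowerSeries.X) ≤ c ^ L.e * L.v ξ ∧
      L.N k ρ (PowerSeries.C ξ + PowerSeries.X)⁻¹ ≤ c ^ L.e * L.v ξ⁻¹ := by
  have h2 : (2 : ℝ) ^ L.e ≤ c ^ L.e := pow_le_pow_left₀ zero_le_two hc _
  have h1 : (1 : ℝ) ≤ 2 ^ L.e := one_le_pow₀ one_le_two
  have hv : 0 < L.v ξ := L.v.pos hξ
  have h3 : 2 ^ L.e * L.v ξ⁻¹ ≤ c ^ L.e * max (L.v ξ) 1 ^ 18 * max (L.v ξ⁻¹) 1 ^ 2 :=
    mul_le_mul (h2.trans (le_mul_of_one_le_right (by linarith) (one_le_pow₀ (le_max_right _ _))))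
      ((le_max_left _ _).trans (le_self_pow₀ (le_max_right _ _) two_ne_zero)) (L.v.nonneg _)
      (mul_nonneg (by linarith) (by positivity))
  have h4 : 2 ^ L.e * ρ ≤ L.v ξ := by
    have h5 := (mul_le_mul_of_nonneg_left h3 hρ).trans hρ'
    rw [map_inv₀, ← mul_assoc, ← div_eq_mul_inv, div_le_one hv] at h5
    linarith
  have hx0 : PowerSeries.constantCoeff (PowerSeries.C ξ + PowerSeries.X : PowerSeries K) = ξ := by
    simp
  constructor
  · refine ((L.ser k hρ).add_le_two (M := L.v ξ) (L.N_C hρ _).le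
      ((L.N_X hρ).trans ((le_mul_of_one_le_left hρ h1).trans h4))).trans ?_
    exact mul_le_mul_of_nonneg_right h2 hv.le
  · have h5 := L.inv_est (κ := k) hρ
      (PowerSeries.inv_mul_cancel (PowerSeries.C ξ + PowerSeries.X) (by rwa [hx0])) (by
        rw [hx0, add_sub_cancel_left]
        exact (mul_le_mul_of_nonneg_left (L.N_X hρ) (by linarith)).trans h4)
    rw [hx0] at h5
    exact h5.trans (mul_le_mul_of_nonneg_right h2 (L.v.nonneg _))

private theorem ftbr_prod {J κ M : Type} [Fintype J] [Fintype κ] [CommMonoid M]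
    (f : Option J × Option κ → M) :
    ∏ p, f p = (∏ p : Option J × κ, f (ie p)) * ((∏ j, f (some j, none)) * f (none, none)) := by
  calc ∏ p, f p = ∏ j, (f (j, none) * ∏ k, f (j, some k)) := by
        rw [Fintype.prod_prod_type]
        exact prod_congr rfl fun j _ => Fintype.prod_option _
    _ = (∏ j, f (j, none)) * ∏ j, ∏ k, f (j, some k) := prod_mul_distrib
    _ = _ := by
        rw [Fintype.prod_option fun j => f (j, none),
          Fintype.prod_prod_type fun p : Option J × κ => f (ie p), mul_comm,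
          mul_comm (f (none, none))]
        rfl

private theorem ftbr_sum {J κ : Type} [Fintype J] [Fintype κ] (f : Option J × Option κ → ℕ) :
    ∑ p, f p = (∑ p : Option J × κ, f (ie p)) + ((∑ j, f (some j, none)) + f (none, none)) :=
  ftbr_prod (M := Multiplicative ℕ) f

/-- As `exists_branch` (`FaBr`, same `c`, `fabr_one`, `exists_mser`), with `y (i, none) = 0` and
`w i = emb (i, none) (C ξ + X)⁻¹`, `ξ = x₀ (i, none)`.  The radius `ρ = r / P` satisfies
`2 ^ e * ρ ≤ min 1 (v ξ)` because `P ≥ c ^ e * max (v ξ⁻¹) 1`; `Loc.inv_est`, `add_le_two`. -/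
theorem exists_branchT {K I κ : Type} [Field K] [CharZero K] [Fintype I] [Fintype κ] (a b : κ → ℤ) :
    ∃ c : ℝ, 1 ≤ c ∧ ∀ x₀ y₀ : I × Option κ → K,
      (∀ i k, OnE (a k) (b k) (x₀ (i, some k)) (y₀ (i, some k))) → (∀ i k, y₀ (i, some k) ≠ 0) →
      (∀ i, x₀ (i, none) ≠ 0) → (∀ i, 2 * y₀ (i, none) = x₀ (i, none)) →
      ∃ (y : I × Option κ → MvPowerSeries (I × Option κ) K)
        (w : I → MvPowerSeries (I × Option κ) K),
        (∀ i k, OnE (a k) (b k) (xser x₀ (i, some k)) (y (i, some k))) ∧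
        (∀ i k, MvPowerSeries.constantCoeff (y (i, some k)) = y₀ (i, some k)) ∧
        (∀ i, y (i, none) = 0) ∧ (∀ i, w i * xser x₀ (i, none) = 1) ∧ BranchT c x₀ y₀ y w := by
  obtain ⟨Λ, hΛ, hab⟩ : ∃ Λ : ℝ, 1 ≤ Λ ∧ ∀ p, |(a p : ℝ)| ≤ Λ ∧ |(b p : ℝ)| ≤ Λ := by
    have h0 : ∀ p ∈ (univ : Finset κ), 0 ≤ |(a p : ℝ)| + |(b p : ℝ)| := fun p _ => by positivity
    refine ⟨1 + ∑ p, (|(a p : ℝ)| + |(b p : ℝ)|), by linarith [sum_nonneg h0], fun p => ?_⟩
    have h1 := single_le_sum h0 (mem_univ p)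
    constructor <;> linarith [abs_nonneg (a p : ℝ), abs_nonneg (b p : ℝ)]
  have hc2 : 2 ≤ (5832 * Λ ^ 3) ^ 2 :=
    le_trans (by linarith [one_le_pow₀ (n := 3) hΛ])
      (le_self_pow₀ (by linarith [one_le_pow₀ (n := 3) hΛ]) two_ne_zero)
  have hc : 1 ≤ (5832 * Λ ^ 3) ^ 2 := by linarith
  refine ⟨(5832 * Λ ^ 3) ^ 2, hc, fun x₀ y₀ h hy hx0 hxy => ?_⟩
  have h1 : ∀ i k, ∃ u : PowerSeries K, PowerSeries.constantCoeff u = y₀ (i, some k) ∧
      u ^ 2 = (PowerSeries.C (x₀ (i, some k)) + PowerSeries.X) ^ 3 + PowerSeries.C (a k : K) *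
        (PowerSeries.C (x₀ (i, some k)) + PowerSeries.X) + PowerSeries.C (b k : K) := fun i k =>
    exists_sqrt_branch _ (by simpa [OnE] using h i k) (hy i k)
  choose u hu0 hu using h1
  have hx : ∀ p, xser x₀ p = emb p (PowerSeries.C (x₀ p) + PowerSeries.X) := fun p => by
    rw [map_add, emb_C, emb_X, xser]
  refine ⟨fun p => p.2.elim 0 fun k => emb p (u p.1 k),
    fun i => emb (i, none) (PowerSeries.C (x₀ (i, none)) + PowerSeries.X)⁻¹, fun i k => ?_,
    fun i k => (constantCoeff_emb (i, some k) _).trans (hu0 i k), fun i => rfl, fun i => ?_, ?_⟩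
  · have h2 := congrArg (emb (i, some k)) (hu i k)
    rw [map_intCast, map_intCast] at h2
    simp only [map_pow, map_add (emb (i, some k)) _ (b k : PowerSeries K),
      map_add (emb (i, some k)) (_ ^ 3), map_mul, map_intCast, ← hx] at h2
    exact h2
  · rw [hx, ← map_mul, PowerSeries.inv_mul_cancel _ (by simpa using hx0 i), map_one]
  · intro L κ' r hr hr1
    set P : I × Option κ → ℝ := fun p => ((5832 * Λ ^ 3) ^ 2) ^ L.e * max (L.v (x₀ p)) 1 ^ 18 *
      max (L.v (2 * y₀ p)⁻¹) 1 ^ 2 with hP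
    have hP1 : ∀ p, 1 ≤ P p := fun p => one_le_mul_of_one_le_of_one_le
      (one_le_mul_of_one_le_of_one_le (one_le_pow₀ hc) (one_le_pow₀ (le_max_right _ _)))
      (one_le_pow₀ (le_max_right _ _))
    have hP0 : ∀ p, 0 < P p := fun p => zero_lt_one.trans_le (hP1 p)
    have hρ : ∀ p, 0 ≤ r p / P p := fun p => (div_pos (hr p) (hP0 p)).le
    have hρ1 : ∀ p, r p / P p * P p ≤ 1 := fun p =>
      ((div_mul_cancel₀ (r p) (hP0 p).ne').le).trans (hr1 p)
    obtain ⟨n, hn, n1, n2, n3⟩ := exists_mser L κ' (fun p => r p / P p) hρ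
    have ht : ∀ i, n.N (xser x₀ (i, none)) ≤ ((5832 * Λ ^ 3) ^ 2) ^ L.e * L.v (x₀ (i, none)) ∧
        n.N (emb (i, none) (PowerSeries.C (x₀ (i, none)) + PowerSeries.X)⁻¹) ≤
          ((5832 * Λ ^ 3) ^ 2) ^ L.e * L.v (x₀ (i, none))⁻¹ := fun i => by
      obtain ⟨k1, k2⟩ := ftbr_torus L hc2 (hx0 i) (κ' (i, none)) (hρ (i, none)) (by
        have h2 := hρ1 (i, none)
        simp only [hP, hxy i] at h2 ⊢
        exact h2)
      rw [hx]
      exact ⟨(n3 _ _).trans k1, (n3 _ _).trans k2⟩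
    refine ⟨n, hn, fun w => ?_, n2, fun p => ⟨?_, ?_⟩, ht⟩
    · have h2 := n1 w
      simp only [div_pow, prod_div_distrib] at h2
      rw [← mul_div_assoc, div_le_iff₀ (prod_pos fun p _ => pow_pos (hP0 p) _)] at h2
      exact h2
    · rw [← emb_X]
      exact (n3 p _).trans ((L.N_X (hρ p)).trans (div_le_self (hr p).le (hP1 p)))
    · rcases p with ⟨i, _ | k⟩
      · refine ⟨(ht i).1.trans (mul_le_mul_of_nonneg_left (le_max_left _ _) (by positivity)), ?_⟩
        exact n.zero.le.trans (by positivity)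
      · obtain ⟨k1, k2⟩ := fabr_one L hΛ (hab k).1 (hab k).2 (h i k) (hy i k) (hu0 i k) (hu i k)
          (κ' (i, some k)) (hρ (i, some k)) (hρ1 (i, some k))
        refine ⟨?_, (n3 _ _).trans k2⟩
        rw [hx]
        exact (n3 _ _).trans k1

/-- As `Branch.coeff_le`: `r = 1`, `Nrm.aeval_wd` with the weights `wt p`, `D = DL N n`,
`E (j, some k) = c ^ e * max (v (x₀ _)) 1`, `E (none, none) = c ^ e * max (v (x₀ _)) 1`,
`E (some j, none) = (c ^ e) ^ (1 + 4 ^ s j) * max (v (x₀ (some j, none) / x₀ (none, none) ^ 4 ^ s j)) 1`;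
`N + ∑ j, (1 + 4 ^ s j) * n j ≤ ∑ j, DD N n (j, none)`. -/
theorem BranchT.coeff_le {K J κ : Type} [Field K] [CharZero K] [Fintype J] [Fintype κ]
    [DecidableEq J] [DecidableEq κ] {c : ℝ} {x₀ y₀ : Option J × Option κ → K}
    {y : Option J × Option κ → MvPowerSeries (Option J × Option κ) K}
    {w : Option J → MvPowerSeries (Option J × Option κ) K} (h : BranchT c x₀ y₀ y w) (hc : 1 ≤ c)
    (hy : ∀ i, y (i, none) = 0) (L : Loc K) (κ' : Option J × Option κ →₀ ℕ) {s n : J → ℕ} {N : ℕ}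
    (hN : ∀ j, n j * 4 ^ s j = N)
    {F : MvPolynomial ((Option J × Option κ) ⊕ (Option J × Option κ)) ℚ} {T : ℝ} (hF : IL F T)
    (hD : ∀ p, WD (wt p) F (DL N n p)) :
    L.v (MvPowerSeries.coeff κ' (aeval (Sum.elim (xq s (xser x₀) (w none)) y) F)) ≤
      (T * c ^ ∑ p, (DD N n p + 2 + κ' p)) ^ L.e *
        ((∏ p : Option J × κ, max (L.v (x₀ (ie p))) 1 ^ (DD N n p + 2)) *
          ((∏ j, max (L.v (x₀ (some j, none) / x₀ (none, none) ^ 4 ^ s j)) 1 ^ n j) *
            max (L.v (x₀ (none, none))) 1 ^ N) *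
          ((∏ p, max (L.v (x₀ p)) 1 ^ (18 * κ' p)) *
            ∏ p, max (L.v (2 * y₀ p)⁻¹) 1 ^ (2 * κ' p))) := by
  obtain ⟨m, hm, n1, -, n3, n4⟩ := h L κ' (fun _ => 1) (fun _ => one_pos) (fun _ => le_rfl)
  have hc0 : 0 ≤ c := zero_le_one.trans hc
  have hce : 1 ≤ c ^ L.e := one_le_pow₀ hc
  let g : Option J × Option κ → ℕ := fun p =>
    p.2.elim (p.1.elim 1 fun j => 1 + 4 ^ s j) fun _ => 1
  let z : Option J × Option κ → K := fun p =>
    p.2.elim (p.1.elim (x₀ p) fun j => x₀ p / x₀ (none, none) ^ 4 ^ s j) fun _ => x₀ p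
  have h1 := m.aeval_wd wt (DL N n) (fun p => (c ^ L.e) ^ g p * max (L.v (z p)) 1)
    (fun p => one_le_mul_of_one_le_of_one_le (one_le_pow₀ hce) (le_max_right _ _)) hF hD
    (Sum.elim (xq s (xser x₀) (w none)) y) (by
      rintro (p | p)
      · simp only [wt, Sum.elim_inl, pow_ite, pow_one, pow_zero, prod_ite_eq, mem_univ, if_true]
        rcases p with ⟨_ | j, _ | k⟩
        · exact (n3 (none, none)).2.1.trans_eq (by rw [show g (none, none) = 1 from rfl, pow_one]; rfl)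
        · exact (n3 (none, some k)).2.1.trans_eq (by
            rw [show g (none, some k) = 1 from rfl, pow_one]; rfl)
        · refine (m.mul_le (n4 (some j)).1 (m.pow_le (n4 none).2 (4 ^ s j))).trans ?_
          refine le_trans (le_of_eq ?_) (mul_le_mul_of_nonneg_left (le_max_left _ _) (by positivity))
          change _ = (c ^ L.e) ^ (1 + 4 ^ s j) *
            L.v (x₀ (some j, none) / x₀ (none, none) ^ 4 ^ s j)
          rw [map_div₀, map_pow, map_inv₀, div_eq_mul_inv, ← inv_pow]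
          ring
        · exact (n3 (some j, some k)).2.1.trans_eq (by
            rw [show g (some j, some k) = 1 from rfl, pow_one]; rfl)
      · simp only [wt, Sum.elim_inr, pow_ite, pow_zero, prod_ite_eq, mem_univ, if_true]
        rcases p with ⟨j, _ | k⟩
        · rw [hy j, m.zero]
          positivity
        · exact (n3 (j, some k)).2.2.trans_eq (by
            rw [show g (j, some k) = 1 from rfl, pow_one]; rfl))
  have h2 := n1 (aeval (Sum.elim (xq s (xser x₀) (w none)) y) F)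
  simp only [one_pow, prod_const_one, mul_one] at h2
  have h3 : ∑ p, g p * DL N n p ≤ ∑ p : Option J × Option κ, (DD N n p + 2) := by
    rw [ftbr_sum, ftbr_sum fun p => DD N n p + 2]
    refine add_le_add (sum_le_sum fun p _ => ?_) ?_
    · change 1 * DD N n (ie p) ≤ _
      omega
    · change ∑ j, (1 + 4 ^ s j) * n j + 1 * N ≤
        ∑ j, (2 * n j + 2) + ((2 * Fintype.card J + 1) * N + 2)
      have h4 : ∑ j, (1 + 4 ^ s j) * n j ≤ ∑ j, (2 * n j + 2) + Fintype.card J * N := by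
        rw [← Finset.card_univ, ← smul_eq_mul, ← sum_const, ← sum_add_distrib]
        refine sum_le_sum fun j _ => ?_
        rw [add_mul, mul_comm (4 ^ s j), hN j]
        omega
      have h5 : (2 * Fintype.card J + 1) * N = 2 * (Fintype.card J * N) + N := by ring
      omega
  have h4 : ∏ p, max (L.v (z p)) 1 ^ DL N n p ≤
      (∏ p : Option J × κ, max (L.v (x₀ (ie p))) 1 ^ (DD N n p + 2)) *
        ((∏ j, max (L.v (x₀ (some j, none) / x₀ (none, none) ^ 4 ^ s j)) 1 ^ n j) *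
          max (L.v (x₀ (none, none))) 1 ^ N) := by
    rw [ftbr_prod]
    refine mul_le_mul (prod_le_prod (fun p _ => by positivity) fun p _ => ?_) le_rfl
      (by positivity) (by positivity)
    exact pow_le_pow_right₀ (le_max_right _ _) (Nat.le_add_right _ 2)
  have h5 : ∏ p, ((c ^ L.e) ^ g p * max (L.v (z p)) 1) ^ DL N n p =
      (c ^ L.e) ^ (∑ p, g p * DL N n p) * ∏ p, max (L.v (z p)) 1 ^ DL N n p := by
    rw [← prod_pow_eq_pow_sum, ← prod_mul_distrib]
    exact prod_congr rfl fun p _ => by rw [mul_pow, ← pow_mul]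
  have h6 : ∏ p, (c ^ L.e * max (L.v (x₀ p)) 1 ^ 18 * max (L.v (2 * y₀ p)⁻¹) 1 ^ 2) ^ κ' p =
      (c ^ L.e) ^ (∑ p, κ' p) * ((∏ p, max (L.v (x₀ p)) 1 ^ (18 * κ' p)) *
        ∏ p, max (L.v (2 * y₀ p)⁻¹) 1 ^ (2 * κ' p)) := by
    rw [← prod_pow_eq_pow_sum, ← prod_mul_distrib, ← prod_mul_distrib]
    exact prod_congr rfl fun p _ => by ring
  have hT : 0 ≤ T ^ L.e := pow_nonneg ((len_nonneg F).trans hF.2) _
  rw [h5, hm] at h1
  have h7 := h1.trans (mul_le_mul_of_nonneg_left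
    (mul_le_mul (pow_le_pow_right₀ hce h3) h4 (by positivity) (by positivity)) hT)
  refine h2.trans ((mul_le_mul_of_nonneg_right h7 (prod_nonneg fun p _ => by positivity)).trans
    (le_of_eq ?_))
  rw [h6, sum_add_distrib (f := fun p => DD N n p + 2)]
  ring

end Pool.Agent.Lib.MP_8865d3_nt.Ft
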