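import Pool.Agent.Lib.MP_8865d3_nt.FtDefs
import Pool.Agent.Lib.MP_8865d3_nt.FaSec
import Pool.Agent.Lib.MP_8865d3_nt.FaRedY

/-! Degrees, lengths and presentations of the basic sections with a torus factor. -/

namespace Pool.Agent.Lib.MP_8865d3_nt.Ft

open MvPolynomial Finset Height Pool.Agent.Lib.Common.Subspace Pool.Agent.Lib.MP_e97e2b_nt
  Pool.Agent.Lib.MP_651af7_nt.Iv Pool.Agent.Lib.MP_651af7_nt.Vj Pool.Agent.Lib.MP_8865d3_nt.Fa

variable {J κ : Type} [Fintype J] [Fintype κ]

theorem ftsec_map_secL {R S : Type*} [CommRing R] [CommRing S] (f : R →+* S) (a b : κ → ℤ)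
    (s n : J → ℕ) (x y : Option J × Option κ → R) (e : J × κ → Bool)
    (i : Option J × Option κ → ℕ) :
    f (secL a b s n x y e i) = secL a b s n (fun p => f (x p)) (fun p => f (y p)) e i := by
  simp only [secL, secG, map_mul, map_prod, map_pow, map_sec]

theorem ftsec_secG (a b : κ → ℤ) (s n : J → ℕ) (e : J × κ → Bool) (i : Option J × Option κ → ℕ) :
    secG a b s n (fun p => X (Sum.inl p)) (fun p => X (Sum.inr p)) e i =
      rename (Sum.map ie ie) (secP a b s n e fun p => i (ie p)) := by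
  refine Eq.symm ((map_sec (rename (Sum.map ie ie) : MvPolynomial _ ℚ →ₐ[ℚ] _).toRingHom a b s n
    (fun p => X (Sum.inl p)) (fun p => X (Sum.inr p)) e _).trans ?_)
  simp [secG]

theorem ftsec_wd0 {σ : Type*} {w : σ → ℕ} (hw : ∀ s, w s = 0) (p : MvPolynomial σ ℚ) :
    WD w p 0 := by
  intro μ _
  simp [Finsupp.weight_apply, Finsupp.sum, hw]

omit [Fintype κ] in
theorem ftsec_wd_L (w : (Option J × Option κ) ⊕ (Option J × Option κ) → ℕ)
    (i : Option J × Option κ → ℕ) :
    WD w (∏ j : Option J, X (Sum.inl (j, none)) ^ i (j, none))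
      (∑ j : Option J, i (j, none) * w (Sum.inl (j, none))) :=
  wd_prod _ fun _ _ => (wd_X w _).pow _

omit [Fintype κ] in
theorem ftsec_wd_U (w : (Option J × Option κ) ⊕ (Option J × Option κ) → ℕ) (c : J → ℕ) :
    WD w (∏ j : J, X (Sum.inl (none, none)) ^ c j) (∑ j : J, c j * w (Sum.inl (none, none))) :=
  wd_prod _ fun _ _ => (wd_X w _).pow _

omit [Fintype κ] in
theorem ftsec_il_L (i : Option J × Option κ → ℕ) :
    IL (∏ j : Option J, X (Sum.inl (j, none)) ^ i (j, none) :
      MvPolynomial ((Option J × Option κ) ⊕ (Option J × Option κ)) ℚ) 1 :=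
  (il_prod _ (t := fun _ => 1) fun _ _ => ((il_X _).pow _).mono (one_pow _).le).mono
    Finset.prod_const_one.le

omit [Fintype κ] in
theorem ftsec_il_U (c : J → ℕ) :
    IL (∏ j : J, X (Sum.inl (none, none)) ^ c j :
      MvPolynomial ((Option J × Option κ) ⊕ (Option J × Option κ)) ℚ) 1 :=
  (il_prod _ (t := fun _ => 1) fun _ _ => ((il_X _).pow _).mono (one_pow _).le).mono
    Finset.prod_const_one.le

theorem ftsec_sum_le {s n i : J → ℕ} {N : ℕ} (hN : ∀ j, n j * 4 ^ s j = N) :
    ∑ j : J, 4 ^ s j * (n j - i j) ≤ Fintype.card J * N := by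
  rw [← Finset.card_univ, ← smul_eq_mul]
  refine Finset.sum_le_card_nsmul _ _ _ fun j _ => ?_
  rw [← hN j, mul_comm]
  exact Nat.mul_le_mul_right _ (Nat.sub_le _ _)

/-- `map_sec`. -/
theorem map_secU {R S : Type*} [CommRing R] [CommRing S] (f : R →+* S) (a b : κ → ℤ) (s n : J → ℕ)
    (x y : Option J × Option κ → R) (e : J × κ → Bool) (i : Option J × Option κ → ℕ) :
    f (secU a b s n x y e i) = secU a b s n (fun p => f (x p)) (fun p => f (y p)) e i := by
  simp only [secU, secL, secG, map_mul, map_prod, map_pow, map_sec]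

theorem aeval_secLP {S : Type*} [CommRing S] [Algebra ℚ S] (a b : κ → ℤ) (s n : J → ℕ)
    (x y : Option J × Option κ → S) (e : J × κ → Bool) (i : Option J × Option κ → ℕ) :
    aeval (Sum.elim x y) (secLP a b s n e i) = secL a b s n x y e i := by
  refine (ftsec_map_secL (aeval (Sum.elim x y) : MvPolynomial _ ℚ →ₐ[ℚ] S).toRingHom a b s n
    (fun p => X (Sum.inl p)) (fun p => X (Sum.inr p)) e i).trans ?_
  simp

theorem aeval_secUP {S : Type*} [CommRing S] [Algebra ℚ S] (a b : κ → ℤ) (s n : J → ℕ)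
    (x y : Option J × Option κ → S) (e : J × κ → Bool) (i : Option J × Option κ → ℕ) :
    aeval (Sum.elim x y) (secUP a b s n e i) = secU a b s n x y e i := by
  refine (map_secU (aeval (Sum.elim x y) : MvPolynomial _ ℚ →ₐ[ℚ] S).toRingHom a b s n
    (fun p => X (Sum.inl p)) (fun p => X (Sum.inr p)) e i).trans ?_
  simp

/-- The elliptic part is `rename (Sum.map ie ie) (secP a b s n e fun p => i (ie p))` (`map_sec`);
`WD.rename` and `wd_secP` (for `p = (j, none)` the weight pulled back is `0`). -/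
theorem wd_secLP [DecidableEq J] [DecidableEq κ] (a b : κ → ℤ) {s n : J → ℕ} {N : ℕ}
    (hN : ∀ j, n j * 4 ^ s j = N) (e : J × κ → Bool) {i : Option J × Option κ → ℕ}
    (hi : ∀ p, i p ≤ nn N n p) (p : Option J × Option κ) :
    WD (wt p) (secLP a b s n e i) (DL N n p) := by
  unfold secLP secL
  rw [ftsec_secG]
  have h1 := ftsec_wd_L (wt p) i
  obtain ⟨j, _ | k⟩ := p
  · refine ((WD.rename (ftsec_wd0 ?_ _)).mul h1).mono ?_
    · rintro (q | q) <;> simp [wt, ie]
    · simpa [wt, DL] using hi (j, none)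
  · have e1 : (fun q => wt ((j, some k) : Option J × Option κ) (Sum.map ie ie q)) = wt (j, k) := by
      funext q
      rcases q with ⟨j', k'⟩ | ⟨j', k'⟩ <;> simp [wt, ie]
    refine ((WD.rename (e1 ▸ wd_secP a b hN e (fun p => hi (ie p)) (j, k))).mul h1).mono ?_
    simp [wt, DL, DD]

/-- The degree in the first torus coordinate is at most `N + card J * N`. -/
theorem wd_secUP [DecidableEq J] [DecidableEq κ] (a b : κ → ℤ) {s n : J → ℕ} {N : ℕ}
    (hN : ∀ j, n j * 4 ^ s j = N) (e : J × κ → Bool) {i : Option J × Option κ → ℕ}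
    (hi : ∀ p, i p ≤ nn N n p) (p : Option J × Option κ) :
    WD (wt p) (secUP a b s n e i) (DD N n p) := by
  refine ((wd_secLP a b hN e hi p).mul (ftsec_wd_U (wt p) _)).mono ?_
  have h1 := ftsec_sum_le (i := fun j => i (some j, none)) hN
  obtain ⟨_ | j, _ | k⟩ := p
  · simp only [wt, DL, DD, nn, Option.elim, Sum.elim_inl, if_true, mul_one]
    nlinarith
  · simp [wt, DL]
  · simp [wt, DL, DD, nn, two_mul]
  · simp [wt, DL]

/-- `IL.rename`, `il_X`, `il_prod`. -/
theorem il_secLP (a b : κ → ℤ) (s n : J → ℕ) (e : J × κ → Bool) (i : Option J × Option κ → ℕ)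
    {T : ℝ} (hT : IL (secP a b s n e fun p => i (ie p)) T) : IL (secLP a b s n e i) T := by
  unfold secLP secL
  rw [ftsec_secG]
  simpa using (hT.rename _).mul (ftsec_il_L i)

theorem il_secUP (a b : κ → ℤ) (s n : J → ℕ) (e : J × κ → Bool) (i : Option J × Option κ → ℕ)
    {T : ℝ} (hT : IL (secP a b s n e fun p => i (ie p)) T) : IL (secUP a b s n e i) T := by
  exact ((il_secLP a b s n e i hT).mul (ftsec_il_U _)).mono (mul_one T).le

/-- `w ^ N * u ^ (4 ^ s * (n - i)) = (w ^ 4 ^ s) ^ i` when `w * u = 1`, `n * 4 ^ s = N`, `i ≤ n`. -/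
theorem secL_xq {R : Type*} [CommRing R] (a b : κ → ℤ) {s n : J → ℕ} {N : ℕ}
    (hN : ∀ j, n j * 4 ^ s j = N) (x y : Option J × Option κ → R) {w : R}
    (hw : w * x (none, none) = 1) (e : J × κ → Bool) {i : Option J × Option κ → ℕ}
    (hi : ∀ p, i p ≤ nn N n p) :
    secL a b s n (xq s x w) y e i = w ^ (Fintype.card J * N) * secU a b s n x y e i := by
  have e1 : secG a b s n (xq s x w) y e i = secG a b s n x y e i := rfl
  have e2 : ∀ j : J, xq s x w (some j, none) ^ i (some j, none) =
      x (some j, none) ^ i (some j, none) *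
        (w ^ N * x (none, none) ^ (4 ^ s j * (n j - i (some j, none)))) := by
    intro j
    have h1 : N = 4 ^ s j * i (some j, none) + 4 ^ s j * (n j - i (some j, none)) := by
      rw [← mul_add, Nat.add_sub_cancel' (show i (some j, none) ≤ n j from hi (some j, none)),
        mul_comm, hN]
    rw [h1, pow_add, mul_assoc, ← mul_pow, hw, one_pow, mul_one, pow_mul, ← mul_pow]
    rfl
  rw [secU, secL, secL, e1, Fintype.prod_option, Fintype.prod_option, Finset.prod_congr rfl
    fun j _ => e2 j, Finset.prod_mul_distrib, Finset.prod_mul_distrib, Finset.prod_const,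
    Finset.card_univ, ← pow_mul, mul_comm N, show xq s x w (none, none) = x (none, none) from rfl]
  ring

/-- `sec_eq_mul`. -/
theorem secU_eq_mul {R : Type*} [CommRing R] (a b : κ → ℤ) (s n : J → ℕ)
    (x y : Option J × Option κ → R) (e : J × κ → Bool) (w : J × κ → R)
    (hw : ∀ p : J × κ, e p = true →
      aP (a p.2 : R) (b p.2 : R) (x (some p.1, some p.2)) (y (some p.1, some p.2))
        (mulP (a p.2 : R) (b p.2 : R) (x (none, some p.2)) (y (none, some p.2)) (s p.1)) =
        w p * aD (x (some p.1, some p.2))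
          (mulP (a p.2 : R) (b p.2 : R) (x (none, some p.2)) (y (none, some p.2)) (s p.1)) ∧
      aT (a p.2 : R) (b p.2 : R) (x (some p.1, some p.2))
        (mulP (a p.2 : R) (b p.2 : R) (x (none, some p.2)) (y (none, some p.2)) (s p.1)) =
        w p * aM (a p.2 : R) (b p.2 : R) (x (some p.1, some p.2)) (y (some p.1, some p.2))
          (mulP (a p.2 : R) (b p.2 : R) (x (none, some p.2)) (y (none, some p.2)) (s p.1)))
    {i : Option J × Option κ → ℕ} (hi : ∀ j k, i (some j, k) ≤ n j) :
    secU a b s n x y e i = (∏ p : J × κ, if e p = true then w p ^ n p.1 else 1) *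
      secU a b s n x y (fun _ => false) i := by
  unfold secU secL secG
  rw [sec_eq_mul a b s n (fun p => x (ie p)) (fun p => y (ie p)) e w hw fun j k => hi j (some k)]
  simp only [mul_assoc]

/-- `exists_red` for `secP a b s n e fun p => i (ie p)` (`wd_secP`), renamed by `Sum.map ie ie` and
multiplied by the torus monomial; degrees in one variable through `wd_single_iff`. -/
theorem exists_redU [DecidableEq J] [DecidableEq κ] (a b : κ → ℤ) {Λ : ℝ} (hΛ1 : 1 ≤ Λ)
    (hΛ : ∀ k, 1 + |(a k : ℝ)| + |(b k : ℝ)| ≤ Λ) {s n : J → ℕ} {N : ℕ}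
    (hN : ∀ j, n j * 4 ^ s j = N) (e : J × κ → Bool) {i : Option J × Option κ → ℕ}
    (hi : ∀ p, i p ≤ nn N n p) {T : ℝ} (hT : IL (secP a b s n e fun p => i (ie p)) T) :
    ∃ P' : MvPolynomial ((Option J × Option κ) ⊕ (Option J × Option κ)) ℚ,
      IL P' (Λ ^ (∑ p : Option J × κ, DD N n p) * T) ∧
      (∀ μ ∈ P'.support, ∀ p, μ (Sum.inl p) ≤ DD N n p ∧ μ (Sum.inr p) ≤ 1) ∧
      ∀ (S : Type) [CommRing S] [Algebra ℚ S] (x y : Option J × Option κ → S),
        (∀ j k, OnE (a k) (b k) (x (j, some k)) (y (j, some k))) →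
        aeval (Sum.elim x y) P' = aeval (Sum.elim x y) (secUP a b s n e i) := by
  obtain ⟨P, h1, h2, h3⟩ := exists_red (fun p : Option J × κ => a p.2) (fun p => b p.2) hΛ1
    (fun p => hΛ p.2) hT (DD N n) (wd_secP a b hN e fun p => hi (ie p))
  refine ⟨rename (Sum.map ie ie) P * (∏ j : Option J, X (Sum.inl (j, none)) ^ i (j, none)) *
    ∏ j : J, X (Sum.inl (none, none)) ^ (4 ^ s j * (n j - i (some j, none))), ?_, ?_, ?_⟩
  · simpa using ((h1.rename _).mul (ftsec_il_L i)).mul (ftsec_il_U _)
  · intro μ hμ p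
    have h4 := ftsec_sum_le (i := fun j => i (some j, none)) hN
    have key : ∀ (q : (Option J × Option κ) ⊕ (Option J × Option κ)) (d D : ℕ),
        WD (fun r => (Pi.single q 1 : _ → ℕ) (Sum.map ie ie r)) P d →
        d + ∑ j : Option J, i (j, none) * (Pi.single q 1 : _ → ℕ) (Sum.inl (j, none)) +
          ∑ j : J, 4 ^ s j * (n j - i (some j, none)) *
            (Pi.single q 1 : _ → ℕ) (Sum.inl (none, none)) ≤ D → μ q ≤ D := fun q d D h5 h6 =>
      (wd_single_iff q).1 (((h5.rename.mul (ftsec_wd_L _ i)).mul (ftsec_wd_U _ _)).mono h6) μ hμ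
    obtain ⟨j, _ | k⟩ := p
    · constructor
      · refine key _ 0 _ (ftsec_wd0 ?_ _) ?_
        · rintro (q | q) <;> simp [ie]
        · have h5 := hi (j, none)
          rcases j with _ | j
          · simp only [Pi.single_apply, Sum.inl.injEq, Prod.mk.injEq, and_true, mul_ite, mul_one,
              mul_zero, Finset.sum_ite_eq', Finset.mem_univ, if_true, DD, Option.elim]
            simp only [nn, Option.elim] at h5
            nlinarith
          · simp only [nn, Option.elim] at h5
            simp [Pi.single_apply, DD]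
            omega
      · refine key _ 0 _ (ftsec_wd0 ?_ _) (by simp)
        rintro (q | q) <;> simp [ie]
    · constructor
      · have e1 : (fun r => (Pi.single (Sum.inl (j, some k)) 1 :
            (Option J × Option κ) ⊕ (Option J × Option κ) → ℕ) (Sum.map ie ie r)) =
            Pi.single (Sum.inl (j, k)) 1 := by
          funext q
          rcases q with ⟨j', k'⟩ | ⟨j', k'⟩ <;> simp [Pi.single_apply, ie]
        refine key _ (DD N n (j, k)) _
          (e1 ▸ (wd_single_iff _).2 fun ν hν => (h2 ν hν (j, k)).1) ?_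
        simp [DD]
      · have e1 : (fun r => (Pi.single (Sum.inr (j, some k)) 1 :
            (Option J × Option κ) ⊕ (Option J × Option κ) → ℕ) (Sum.map ie ie r)) =
            Pi.single (Sum.inr (j, k)) 1 := by
          funext q
          rcases q with ⟨j', k'⟩ | ⟨j', k'⟩ <;> simp [Pi.single_apply, ie]
        exact key _ 1 _ (e1 ▸ (wd_single_iff _).2 fun ν hν => (h2 ν hν (j, k)).2) (by simp)
  · intro S _ _ x y h
    have e1 : (Sum.elim x y ∘ Sum.map ie ie : (Option J × κ) ⊕ (Option J × κ) → S) =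
        Sum.elim (fun p => x (ie p)) fun p => y (ie p) := by
      funext q
      rcases q with q | q <;> rfl
    unfold secUP secU secL
    rw [ftsec_secG, map_mul, map_mul, map_mul, map_mul, aeval_rename, aeval_rename, e1,
      h3 S (fun p => x (ie p)) (fun p => y (ie p)) fun p => h p.1 p.2]

end Pool.Agent.Lib.MP_8865d3_nt.Ft
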