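import Pool.Agent.Lib.MP_8865d3_nt.FtBr
import Pool.Agent.Lib.MP_8865d3_nt.FtSec
import Pool.Agent.Lib.MP_8865d3_nt.FaCore

/-! The product formula applied to the leading coefficient, with a torus factor. -/

namespace Pool.Agent.Lib.MP_8865d3_nt.Ft

open MvPolynomial Finset Height Pool.Agent.Lib.Common.Subspace Pool.Agent.Lib.MP_e97e2b_nt
  Pool.Agent.Lib.MP_651af7_nt.Iv Pool.Agent.Lib.MP_651af7_nt.Vj Pool.Agent.Lib.MP_8865d3_nt.Fa

variable {K J κ : Type} [Field K] [NumberField K] [Fintype J] [Fintype κ] [DecidableEq J]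
  [DecidableEq κ] {a b : κ → ℤ}

/-- As `core_ineq` (`FaCore`).  `exists_min_coeff` gives `κ'` and `γ`, the coefficient of the `secUP` sum
for `fun _ => false`; `hval` is proved as there with `secU_eq_mul`, `aeval_secUP`.  By `secL_xq` the
`secLP` sum at `xq s (xser _) (w none)` is `w none ^ (card J * N)` times the `secUP` sum, and the constant
coefficient of `w none` is `((X none).2)⁻¹`.  Apply `pf_gain` to `((X none).2)⁻¹ ^ (card J * N) * γ` with
gain `Γ κ' - Λ` and the index type `((Option J × κ) ⊕ Option J) ⊕ (τ ⊕ τ)` on the right: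
`BranchT.coeff_le` (`wd_secLP`, `wd_sum`, `WD.zsmul`) at all places; at `v` use `hgain`, `hΛ`, split the
product over `τ = Option J × Option κ` and insert factors that are at least `1`. -/
theorem core_ineqT {v : AbsoluteValue K ℝ} (hv : Adm v) (X : Option J → PtT K a b)
    (hX : ∀ j k i, 2 ^ i • (X j).1 k ≠ 0) {c₀ : ℝ} (hc₀ : 1 ≤ c₀)
    {y : Option J × Option κ → MvPowerSeries (Option J × Option κ) K}
    {w : Option J → MvPowerSeries (Option J × Option κ) K}
    (hy : ∀ j k, OnE (a k) (b k) (xser (fun p => xt (X p.1) p.2) (j, some k)) (y (j, some k)))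
    (hy₀ : ∀ j k, MvPowerSeries.constantCoeff (y (j, some k)) = yc ((X j).1 k))
    (hy₁ : ∀ j, y (j, none) = 0) (hw : w none * xser (fun p => xt (X p.1) p.2) (none, none) = 1)
    (hbr : BranchT c₀ (fun p => xt (X p.1) p.2) (fun p => yt (X p.1) p.2) y w) {s n : J → ℕ} {N : ℕ}
    (hN : ∀ j, n j * 4 ^ s j = N) (c : box (nn (κ := Option κ) N n) → ℤ) {T : ℝ} (hT0 : 0 < T)
    (hT : ∀ e, IL (∑ i, c i • secLP a b s n e i) T) {κ₀ : Option J × Option κ →₀ ℕ}
    (h₀ : MvPowerSeries.coeff κ₀ (aeval (Sum.elim (xser fun p => xt (X p.1) p.2) y)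
      (∑ i, c i • secUP a b s n (fun _ => false) i)) ≠ 0) (Γ : (Option J × Option κ →₀ ℕ) → ℝ)
    {Λ : ℝ} (hΓ : ∀ κ' ≤ κ₀, Λ ≤ Γ κ')
    (hΛ : (v ((X none).2 : K))⁻¹ ^ (Fintype.card J * N) *
      ∏ j, max (v ((X j).2 : K)) 1 ^ (DD (κ := Option κ) N n (j, none) + 2) ≤ Real.exp Λ)
    (hgain : ∀ L : Loc K, L.v = v → ∀ κ' : Option J × Option κ →₀ ℕ,
      L.v (MvPowerSeries.coeff κ' (aeval (Sum.elim (xser fun p => xt (X p.1) p.2) y)
        (∑ i, c i • secUP a b s n (pres v (fun j => (X j).1) s) i))) * Real.exp (Γ κ') ≤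
      (T * c₀ ^ ∑ p, (DD N n p + 2 + κ' p)) ^ L.e *
        ((∏ p, max (L.v (xt (X p.1) p.2)) 1 ^ (DD N n p + 2 + 18 * κ' p)) *
          ∏ p, max (L.v (2 * yt (X p.1) p.2)⁻¹) 1 ^ (2 * κ' p))) :
    ∃ κ' ≤ κ₀, ∑ p : J × κ, n p.1 * ht ((X (some p.1)).1 p.2 + 2 ^ s p.1 • (X none).1 p.2) +
        (Γ κ' - Λ) ≤
      totalWeight K * (Real.log T + (∑ p, (DD N n p + 2 + κ' p) : ℕ) * Real.log c₀) +
        ∑ p : Option J × κ, (DD N n p + 2 : ℕ) * ht ((X p.1).1 p.2) +
        (∑ j, n j * logHeight₁ (((X (some j)).2 : K) / ((X none).2 : K) ^ 4 ^ s j) +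
          N * logHeight₁ ((X none).2 : K)) +
        (∑ p, (18 * κ' p : ℕ) * logHeight₁ (xt (X p.1) p.2) +
          ∑ p, (2 * κ' p : ℕ) * logHeight₁ (2 * yt (X p.1) p.2)⁻¹) := by
  obtain ⟨κ', hκ', hγ, hmul⟩ := exists_min_coeff h₀
  refine ⟨κ', hκ', ?_⟩
  set x : Option J × Option κ → MvPowerSeries (Option J × Option κ) K :=
    xser (fun p => xt (X p.1) p.2) with hx
  have hxc : ∀ p, MvPowerSeries.constantCoeff (x p) = xt (X p.1) p.2 := fun p => by
    simp [hx, xser]
  have hW : ∀ p : J × κ, ∃ W : MvPowerSeries (Option J × Option κ) K,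
      (X (some p.1)).1 p.2 + 2 ^ s p.1 • (X none).1 p.2 ≠ 0 →
      MvPowerSeries.constantCoeff W = xc ((X (some p.1)).1 p.2 + 2 ^ s p.1 • (X none).1 p.2) ∧
      aP (a p.2 : MvPowerSeries (Option J × Option κ) K) (b p.2)
        (x (some p.1, some p.2)) (y (some p.1, some p.2))
        (mulP (a p.2 : MvPowerSeries (Option J × Option κ) K) (b p.2)
          (x (none, some p.2)) (y (none, some p.2)) (s p.1)) =
        W * aD (x (some p.1, some p.2))
          (mulP (a p.2 : MvPowerSeries (Option J × Option κ) K) (b p.2)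
            (x (none, some p.2)) (y (none, some p.2)) (s p.1)) ∧
      aT (a p.2 : MvPowerSeries (Option J × Option κ) K) (b p.2)
        (x (some p.1, some p.2))
        (mulP (a p.2 : MvPowerSeries (Option J × Option κ) K) (b p.2)
          (x (none, some p.2)) (y (none, some p.2)) (s p.1)) =
        W * aM (a p.2 : MvPowerSeries (Option J × Option κ) K) (b p.2)
          (x (some p.1, some p.2)) (y (some p.1, some p.2))
          (mulP (a p.2 : MvPowerSeries (Option J × Option κ) K) (b p.2)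
            (x (none, some p.2)) (y (none, some p.2)) (s p.1)) := by
    intro p
    by_cases h1 : (X (some p.1)).1 p.2 + 2 ^ s p.1 • (X none).1 p.2 = 0
    · exact ⟨0, fun h => absurd h1 h⟩
    · have hP : (X (some p.1)).1 p.2 ≠ 0 := by simpa using hX (some p.1) p.2 0
      obtain ⟨ξ, hξ⟩ := exists_plus
        (MvPowerSeries.constantCoeff (σ := Option J × Option κ) (R := K))
        (fun f hf => MvPowerSeries.isUnit_iff_constantCoeff.2 (isUnit_iff_ne_zero.2 hf))
        (hy (some p.1) p.2) (hy none p.2) (P := (X (some p.1)).1 p.2) (Q := (X none).1 p.2)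
        (hxc (some p.1, some p.2)) (hy₀ (some p.1) p.2) (hxc (none, some p.2)) (hy₀ none p.2)
        (s p.1) hP (hX none p.2 (s p.1)) h1
      exact ⟨ξ, fun _ => hξ⟩
  choose W hW using hW
  set F₀ := aeval (Sum.elim x y) (∑ i, c i • secUP a b s n (fun _ => false) i) with hF₀
  have hval : ∀ u : AbsoluteValue K ℝ, ∃ Q : MvPowerSeries (Option J × Option κ) K,
      aeval (Sum.elim x y) (∑ i, c i • secUP a b s n (pres u (fun j => (X j).1) s) i) = Q * F₀ ∧
      u (MvPowerSeries.constantCoeff Q) = ∏ p : J × κ,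
        max (u (xc ((X (some p.1)).1 p.2 + 2 ^ s p.1 • (X none).1 p.2))) 1 ^ n p.1 := by
    intro u
    have hne : ∀ p : J × κ, pres u (fun j => (X j).1) s p = true →
        (X (some p.1)).1 p.2 + 2 ^ s p.1 • (X none).1 p.2 ≠ 0 := by
      intro p hp h0
      simp only [pres, h0, xc_zero, map_zero, decide_eq_true_eq] at hp
      exact absurd hp (by norm_num)
    refine ⟨∏ p : J × κ, if pres u (fun j => (X j).1) s p = true then W p ^ n p.1 else 1, ?_, ?_⟩
    · rw [hF₀, map_sum, map_sum, Finset.mul_sum]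
      refine Finset.sum_congr rfl fun i _ => ?_
      rw [map_zsmul, map_zsmul, aeval_secUP, aeval_secUP,
        secU_eq_mul a b s n _ y (pres u (fun j => (X j).1) s) W (fun p hp => (hW p (hne p hp)).2)
          (fun j k => mem_box.1 i.2 (some j, k)), mul_smul_comm]
    · rw [map_prod, map_prod]
      refine Finset.prod_congr rfl fun p _ => ?_
      by_cases hp : pres u (fun j => (X j).1) s p = true
      · rw [if_pos hp, map_pow, map_pow, (hW p (hne p hp)).1]
        have h2 : 1 < u (xc ((X (some p.1)).1 p.2 + 2 ^ s p.1 • (X none).1 p.2)) := by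
          simpa only [pres, decide_eq_true_eq] using hp
        rw [max_eq_left h2.le]
      · rw [if_neg hp, map_one, map_one]
        have h2 : u (xc ((X (some p.1)).1 p.2 + 2 ^ s p.1 • (X none).1 p.2)) ≤ 1 := by
          simpa only [pres, decide_eq_true_eq, not_lt] using hp
        rw [max_eq_right h2, one_pow]
  have hLU : ∀ e, aeval (Sum.elim (xq s x (w none)) y) (∑ i, c i • secLP a b s n e i) =
      w none ^ (Fintype.card J * N) * aeval (Sum.elim x y) (∑ i, c i • secUP a b s n e i) := by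
    intro e
    rw [map_sum, map_sum, Finset.mul_sum]
    refine Finset.sum_congr rfl fun i _ => ?_
    rw [map_zsmul, map_zsmul, aeval_secLP, aeval_secUP,
      secL_xq a b hN x y hw e (mem_box.1 i.2), mul_smul_comm]
  have hu0 : ((X none).2 : K) ≠ 0 := Units.ne_zero _
  have hw0 : MvPowerSeries.constantCoeff (w none) = ((X none).2 : K)⁻¹ := by
    have := congrArg MvPowerSeries.constantCoeff hw
    rw [map_mul, map_one, hxc] at this
    exact eq_inv_of_mul_eq_one_left this
  have hC : 0 < T * c₀ ^ ∑ p, (DD N n p + 2 + κ' p) := by positivity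
  have key := pf_gain hv
    (g := ((X none).2 : K)⁻¹ ^ (Fintype.card J * N) * MvPowerSeries.coeff κ' F₀)
    (mul_ne_zero (pow_ne_zero _ (inv_ne_zero hu0)) hγ)
    (fun p : J × κ => xc ((X (some p.1)).1 p.2 + 2 ^ s p.1 • (X none).1 p.2))
    (fun p => n p.1)
    (Sum.elim
      (Sum.elim (fun p : Option J × κ => xc ((X p.1).1 p.2))
        (Sum.elim (fun j : J => ((X (some j)).2 : K) / ((X none).2 : K) ^ 4 ^ s j)
          (fun _ : Unit => ((X none).2 : K))))
      (Sum.elim (fun p : Option J × Option κ => xt (X p.1) p.2)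
        (fun p : Option J × Option κ => (2 * yt (X p.1) p.2)⁻¹)))
    (Sum.elim (Sum.elim (fun p => DD N n p + 2) (Sum.elim n fun _ => N))
      (Sum.elim (fun p => 18 * κ' p) (fun p => 2 * κ' p))) hC (sub_nonneg.2 (hΓ κ' hκ'))
    (fun L => by
      obtain ⟨Q, hQ, hQ'⟩ := hval L.v
      have h1 := hbr.coeff_le hc₀ hy₁ L κ' hN (hT (pres L.v (fun j => (X j).1) s)) fun p =>
        wd_sum _ fun i _ => (wd_secLP a b hN _ (mem_box.1 i.2) p).zsmul (c i)
      rw [← hx, hLU, hQ, ← mul_assoc, hmul, map_mul, map_mul MvPowerSeries.constantCoeff, map_pow,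
        hw0, map_mul, hQ'] at h1
      simp only [Fintype.prod_sum_type, Sum.elim_inl, Sum.elim_inr, Finset.univ_unique,
        Finset.prod_singleton]
      rw [map_mul, mul_right_comm]
      exact h1)
    (fun L hL => by
      obtain ⟨Q, hQ, hQ'⟩ := hval L.v
      have h1 := hgain L hL κ'
      rw [← hL] at h1 hΛ
      rw [hQ, hmul, map_mul, hQ'] at h1
      simp only [Fintype.prod_sum_type, Sum.elim_inl, Sum.elim_inr, Finset.univ_unique,
        Finset.prod_singleton]
      have e1 : ∏ p : Option J × Option κ,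
          max (L.v (xt (X p.1) p.2)) 1 ^ (DD N n p + 2 + 18 * κ' p) =
          (∏ j, max (L.v ((X j).2 : K)) 1 ^ (DD (κ := Option κ) N n (j, none) + 2)) *
            (∏ p : Option J × κ, max (L.v (xc ((X p.1).1 p.2))) 1 ^ (DD N n p + 2)) *
            ∏ p : Option J × Option κ, max (L.v (xt (X p.1) p.2)) 1 ^ (18 * κ' p) := by
        simp only [pow_add _ _ (18 * _), Finset.prod_mul_distrib]
        congr 1
        rw [Fintype.prod_prod_type, Fintype.prod_prod_type, ← Finset.prod_mul_distrib]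
        refine Finset.prod_congr rfl fun j _ => ?_
        rw [Fintype.prod_option]
        rfl
      rw [e1] at h1
      rw [map_mul, map_pow, map_inv₀, Real.exp_sub]
      have p1 : 1 ≤ (∏ j, max (L.v (((X (some j)).2 : K) / ((X none).2 : K) ^ 4 ^ s j)) 1 ^ n j) *
          max (L.v ((X none).2 : K)) 1 ^ N :=
        one_le_mul_of_one_le_of_one_le
          (Finset.prod_induction _ (fun t : ℝ => 1 ≤ t)
            (fun _ _ => one_le_mul_of_one_le_of_one_le) le_rfl
            fun j _ => one_le_pow₀ (le_max_right _ _))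
          (one_le_pow₀ (le_max_right _ _))
      have p2 : 0 ≤ ∏ p : Option J × κ, max (L.v (xc ((X p.1).1 p.2))) 1 ^ (DD N n p + 2) :=
        Finset.prod_nonneg fun p _ => by positivity
      have p3 : 0 ≤ ∏ p : Option J × Option κ, max (L.v (xt (X p.1) p.2)) 1 ^ (18 * κ' p) :=
        Finset.prod_nonneg fun p _ => by positivity
      have p4 : 0 ≤ ∏ p : Option J × Option κ,
          max (L.v (2 * yt (X p.1) p.2)⁻¹) 1 ^ (2 * κ' p) :=
        Finset.prod_nonneg fun p _ => by positivity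
      have p5 : 0 ≤ (L.v ((X none).2 : K))⁻¹ ^ (Fintype.card J * N) := by positivity
      have p6 : 0 ≤ (T * c₀ ^ ∑ p, (DD N n p + 2 + κ' p)) ^ L.e := by positivity
      have p7 : 0 < Real.exp Λ := Real.exp_pos _
      generalize (∏ j, max (L.v (((X (some j)).2 : K) / ((X none).2 : K) ^ 4 ^ s j)) 1 ^ n j) *
          max (L.v ((X none).2 : K)) 1 ^ N = B at p1 ⊢
      generalize ∏ p : Option J × κ, max (L.v (xc ((X p.1).1 p.2))) 1 ^ (DD N n p + 2) = A
        at p2 h1 ⊢
      generalize ∏ p : Option J × Option κ, max (L.v (xt (X p.1) p.2)) 1 ^ (18 * κ' p) = C₁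
        at p3 h1 ⊢
      generalize ∏ p : Option J × Option κ,
        max (L.v (2 * yt (X p.1) p.2)⁻¹) 1 ^ (2 * κ' p) = C₂ at p4 h1 ⊢
      generalize (L.v ((X none).2 : K))⁻¹ ^ (Fintype.card J * N) = U at p5 hΛ ⊢
      generalize (T * c₀ ^ ∑ p, (DD N n p + 2 + κ' p)) ^ L.e = C at p6 h1 ⊢
      generalize ∏ j, max (L.v ((X j).2 : K)) 1 ^ (DD (κ := Option κ) N n (j, none) + 2) = Pj
        at hΛ h1
      generalize ∏ p : J × κ,
        max (L.v (xc ((X (some p.1)).1 p.2 + 2 ^ s p.1 • (X none).1 p.2))) 1 ^ n p.1 = Z at h1 ⊢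
      generalize L.v (MvPowerSeries.coeff κ' F₀) = g at h1 ⊢
      have q1 : 0 ≤ C * (A * (C₁ * C₂)) := by positivity
      calc U * g * Z * (Real.exp (Γ κ') / Real.exp Λ)
          = U * (Z * g * Real.exp (Γ κ')) / Real.exp Λ := by ring
        _ ≤ U * (C * (Pj * A * C₁ * C₂)) / Real.exp Λ := by gcongr
        _ = C * (A * (C₁ * C₂)) * (U * Pj / Real.exp Λ) := by ring
        _ ≤ C * (A * (C₁ * C₂)) * B :=
          mul_le_mul_of_nonneg_left (((div_le_one p7).2 hΛ).trans p1) q1
        _ = C * (A * B * (C₁ * C₂)) := by ring)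
  rw [Real.log_mul hT0.ne' (by positivity), Real.log_pow] at key
  simp only [Fintype.sum_sum_type, Sum.elim_inl, Sum.elim_inr, Finset.univ_unique,
    Finset.sum_singleton] at key
  unfold ht
  linarith

end Pool.Agent.Lib.MP_8865d3_nt.Ft
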