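import Pool.Agent.Lib.MP_651af7_nt.VjIface

/-! Vocabulary for the gcd inequality on the product of an elliptic curve and a torus. -/

namespace Pool.Agent.Lib.MP_8865d3_nt.Gm

open Pool.Agent.Lib.MP_e97e2b_nt Pool.Agent.Lib.MP_651af7_nt.Iv Pool.Agent.Lib.MP_651af7_nt.Vj
  Pool.Agent.Lib.Common.Subspace Height NumberField

variable {K : Type} [Field K] [NumberField K] {A B : K}

/-- Height of a point of the product. -/
noncomputable def HG (X : Pt A B × Kˣ) : ℝ := ht X.1 + logHeight₁ (X.2 : K)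

/-- The generalized gcd: sum over all places of `log max (1, min (|x|, |u - 1|⁻¹))`. -/
noncomputable def gm (X : Pt A B × Kˣ) : ℝ := gg (xc X.1) ((X.2 : K) - 1)⁻¹

/-- The point violates the inequality with constant `η`. -/
def BadG (η : ℝ) (X : Pt A B × Kˣ) : Prop := η * HG X ≤ gm X

/-- The point lies on an irreducible curve of bounded degree and small height. -/
def SpecG (D : ℕ) (ε : ℝ) (X : Pt A B × Kˣ) : Prop :=
  ∃ g : MvPolynomial (Fin 2) ℚ, Irreducible g ∧ IsInt g ∧ (∀ i, g.degreeOf i ≤ D) ∧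
    len g ≤ Real.exp (ε * HG X) ∧ MvPolynomial.aeval ![xc X.1, (X.2 : K)] g = 0

/-- `(2 ^ j • P, u ^ 4 ^ j)` is close to `Y`. -/
def CloseG (θ : ℝ) (j : ℕ) (X Y : Pt A B × Kˣ) : Prop :=
  ht (Y.1 - 2 ^ j • X.1) + logHeight₁ ((Y.2 : K) / (X.2 : K) ^ 4 ^ j) ≤ θ * HG Y ∧
    HG Y ≤ 2 * (4 ^ j * HG X) ∧ 4 ^ j * HG X ≤ 2 * HG Y

/-- Zeros and poles of `u` outside `S`. -/
noncomputable def cnt (S : Finset (FinitePlace K)) (u : K) : ℝ :=
  ∑ᶠ v ∈ (S : Set (FinitePlace K))ᶜ, |Real.log (v u)|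

/-- Proximity of `x` to infinity at the infinite places and the places of `S`. -/
noncomputable def prox (S : Finset (FinitePlace K)) (x : K) : ℝ :=
  ∑ w : InfinitePlace K, w.mult * Real.log (max (w x) 1) + ∑ v ∈ S, Real.log (max (v x) 1)

lemma HG_nonneg (X : Pt A B × Kˣ) : 0 ≤ HG X := add_nonneg (ht_nonneg _) (zero_le_logHeight₁ _)

end Pool.Agent.Lib.MP_8865d3_nt.Gm
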