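import Pool.Agent.Lib.MP_8865d3_nt.FaDefs
import Pool.Agent.Lib.MP_8865d3_nt.GmIface

/-! Vocabulary for the approximation theorem on a product of elliptic curves and a torus. -/

namespace Pool.Agent.Lib.MP_8865d3_nt.Ft

open MvPolynomial Finset Height Pool.Agent.Lib.Common.Subspace Pool.Agent.Lib.MP_e97e2b_nt
  Pool.Agent.Lib.MP_651af7_nt.Iv Pool.Agent.Lib.MP_651af7_nt.Vj Pool.Agent.Lib.MP_8865d3_nt.Fa

/-- Points of the product of the curves and the torus. -/
abbrev PtT (K : Type) [Field K] {κ : Type} (a b : κ → ℤ) : Type := Pts K a b × Kˣ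

section points

variable {K : Type} [Field K] [NumberField K] {κ : Type} [Fintype κ] {a b : κ → ℤ}

/-- The height of a point of the product. -/
noncomputable def HT (X : PtT K a b) : ℝ := HS X.1 + logHeight₁ (X.2 : K)

/-- The first coordinates and the torus coordinate. -/
def xt (X : PtT K a b) : Option κ → K := fun k => k.elim (X.2 : K) fun k => xc (X.1 k)

/-- The second coordinates and half the torus coordinate. -/
def yt (X : PtT K a b) : Option κ → K := fun k => k.elim ((X.2 : K) / 2) fun k => yc (X.1 k)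

/-- The point lies on a hypersurface of bounded degree and small height. -/
def SpecT (D : ℕ) (ε : ℝ) (X : PtT K a b) : Prop :=
  ∃ g : MvPolynomial (Option κ) ℚ, Small D (ε * HT X) g ∧ aeval (xt X) g = 0

/-- `(2 ^ j • P, u ^ 4 ^ j)` is close to `Y`. -/
def ClsT (θ : ℝ) (j : ℕ) (X Y : PtT K a b) : Prop :=
  HS (Y.1 - 2 ^ j • X.1) + logHeight₁ ((Y.2 : K) / (X.2 : K) ^ 4 ^ j) ≤ θ * HT Y ∧
    HT Y ≤ 2 * (4 ^ j * HT X) ∧ 4 ^ j * HT X ≤ 2 * HT Y

theorem HS_le_HT (X : PtT K a b) : HS X.1 ≤ HT X :=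
  le_add_of_nonneg_right (zero_le_logHeight₁ _)

theorem hu_le_HT (X : PtT K a b) : logHeight₁ (X.2 : K) ≤ HT X :=
  le_add_of_nonneg_left (HS_nonneg _)

theorem HT_nonneg (X : PtT K a b) : 0 ≤ HT X := (HS_nonneg _).trans (HS_le_HT X)

theorem HT_eq (X : PtT K a b) : HT X = ∑ k, logHeight₁ (xt X k) := by
  rw [Fintype.sum_option, add_comm]
  rfl

theorem xt_le_HT (X : PtT K a b) (k : Option κ) : logHeight₁ (xt X k) ≤ HT X := by
  rw [HT_eq]
  exact Finset.single_le_sum (f := fun k => logHeight₁ (xt X k)) (fun _ _ => zero_le_logHeight₁ _)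
    (Finset.mem_univ k)

theorem SpecT.mono {D D' : ℕ} {ε ε' : ℝ} {X : PtT K a b} (h : SpecT D ε X) (hD : D ≤ D')
    (hε : ε ≤ ε') : SpecT D' ε' X := by
  obtain ⟨g, h1, h2⟩ := h
  exact ⟨g, h1.mono hD (mul_le_mul_of_nonneg_right hε (HT_nonneg X)), h2⟩

end points

section aux

variable {J κ : Type} [Fintype J] [Fintype κ]

/-- The inclusion of the indices of the curves. -/
def ie (p : Option J × κ) : Option J × Option κ := (p.1, some p.2)

/-- The elliptic part of a basic section. -/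
def secG {R : Type*} [CommRing R] (a b : κ → ℤ) (s n : J → ℕ) (x y : Option J × Option κ → R)
    (e : J × κ → Bool) (i : Option J × Option κ → ℕ) : R :=
  sec a b s n (fun p => x (ie p)) (fun p => y (ie p)) e fun p => i (ie p)

/-- A basic section in terms of the quotients of the torus coordinates. -/
def secL {R : Type*} [CommRing R] (a b : κ → ℤ) (s n : J → ℕ) (x y : Option J × Option κ → R)
    (e : J × κ → Bool) (i : Option J × Option κ → ℕ) : R :=
  secG a b s n x y e i * ∏ j : Option J, x (j, none) ^ i (j, none)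

/-- A basic section in terms of the torus coordinates. -/
def secU {R : Type*} [CommRing R] (a b : κ → ℤ) (s n : J → ℕ) (x y : Option J × Option κ → R)
    (e : J × κ → Bool) (i : Option J × Option κ → ℕ) : R :=
  secL a b s n x y e i * ∏ j : J, x (none, none) ^ (4 ^ s j * (n j - i (some j, none)))

/-- `secL` as a polynomial. -/
noncomputable def secLP (a b : κ → ℤ) (s n : J → ℕ) (e : J × κ → Bool)
    (i : Option J × Option κ → ℕ) :
    MvPolynomial ((Option J × Option κ) ⊕ (Option J × Option κ)) ℚ :=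
  secL a b s n (fun p => X (Sum.inl p)) (fun p => X (Sum.inr p)) e i

/-- `secU` as a polynomial. -/
noncomputable def secUP (a b : κ → ℤ) (s n : J → ℕ) (e : J × κ → Bool)
    (i : Option J × Option κ → ℕ) :
    MvPolynomial ((Option J × Option κ) ⊕ (Option J × Option κ)) ℚ :=
  secU a b s n (fun p => X (Sum.inl p)) (fun p => X (Sum.inr p)) e i

/-- The weights of `secLP`. -/
def DL (N : ℕ) (n : J → ℕ) : Option J × Option κ → ℕ :=
  fun p => p.2.elim (nn N n p) fun _ => DD N n p

/-- The torus coordinates are replaced by the quotients, `w` being the inverse of the first one. -/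
def xq {R : Type*} [CommRing R] (s : J → ℕ) (x : Option J × Option κ → R) (w : R) :
    Option J × Option κ → R :=
  fun p => p.2.elim (p.1.elim (x p) fun j => x p * w ^ 4 ^ s j) fun _ => x p

end aux

/-- `Branch` together with sharp bounds for the torus coordinates and their inverses `w i`. -/
def BranchT {K I κ : Type} [Field K] [Fintype I] [Fintype κ] (c : ℝ) (x₀ y₀ : I × Option κ → K)
    (y : I × Option κ → MvPowerSeries (I × Option κ) K)
    (w : I → MvPowerSeries (I × Option κ) K) : Prop :=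
  ∀ (L : Loc K) (κ' : I × Option κ →₀ ℕ) (r : I × Option κ → ℝ), (∀ p, 0 < r p) → (∀ p, r p ≤ 1) →
    ∃ n : Nrm (MvPowerSeries (I × Option κ) K), n.e = L.e ∧
      (∀ u, L.v (MvPowerSeries.coeff κ' u) * ∏ p, r p ^ κ' p ≤ n.N u *
        ∏ p, (c ^ L.e * max (L.v (x₀ p)) 1 ^ 18 * max (L.v (2 * y₀ p)⁻¹) 1 ^ 2) ^ κ' p) ∧
      (∀ z, n.N (MvPowerSeries.C z) ≤ L.v z) ∧
      (∀ p, n.N (MvPowerSeries.X p) ≤ r p ∧
        n.N (xser x₀ p) ≤ c ^ L.e * max (L.v (x₀ p)) 1 ∧
        n.N (y p) ≤ (c ^ L.e * max (L.v (x₀ p)) 1) ^ 2) ∧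
      ∀ i, n.N (xser x₀ (i, none)) ≤ c ^ L.e * L.v (x₀ (i, none)) ∧
        n.N (w i) ≤ c ^ L.e * L.v (x₀ (i, none))⁻¹

theorem BranchT.branch {K I κ : Type} [Field K] [Fintype I] [Fintype κ] {c : ℝ}
    {x₀ y₀ : I × Option κ → K} {y : I × Option κ → MvPowerSeries (I × Option κ) K}
    {w : I → MvPowerSeries (I × Option κ) K} (h : BranchT c x₀ y₀ y w) : Branch c x₀ y₀ y := by
  intro L κ' r h1 h2
  obtain ⟨n, k1, k2, k3, k4, -⟩ := h L κ' r h1 h2
  exact ⟨n, k1, k2, k3, k4⟩

end Pool.Agent.Lib.MP_8865d3_nt.Ft
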