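import Mathlib

/-! Dominant terms of polynomials and heights of values. -/

namespace Pool.Agent.Lib.MP_8865d3_nt.Ft

open Height

private theorem card_support_le {K : Type*} [Field K] (q : Polynomial K) {n : ℕ}
    (hn : q.natDegree ≤ n) : (q.support.card : ℝ) ≤ n + 1 := by
  have h := Polynomial.card_supp_le_succ_natDegree q
  have h2 : q.support.card ≤ n + 1 := by omega
  exact_mod_cast h2

private theorem dom_aux {K : Type*} [Field K] (v : AbsoluteValue K ℝ) (q : Polynomial K) (u : K)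
    {M : ℝ} (hM : 1 ≤ M) {n : ℕ} (hn : q.natDegree ≤ n)
    (hq : ∀ i, q.coeff i ≠ 0 → M⁻¹ ≤ v (q.coeff i) ∧ v (q.coeff i) ≤ M) {i : ℕ}
    (hi : q.coeff i ≠ 0)
    (hd : ∀ j, q.coeff j ≠ 0 → j ≠ i → 2 * (n + 1) * M ^ 2 * v u ^ j ≤ v u ^ i) :
    v u ^ i ≤ 2 * M * v (q.eval u) := by
  have hM0 : 0 < M := zero_lt_one.trans_le hM
  have hn0 : (0 : ℝ) < n + 1 := by positivity
  have ht : 0 ≤ v u ^ i := pow_nonneg (v.nonneg u) i
  have hmem : i ∈ q.support := Polynomial.mem_support_iff.2 hi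
  have e : q.coeff i * u ^ i = q.eval u - ∑ j ∈ q.support.erase i, q.coeff j * u ^ j := by
    rw [Polynomial.eval_eq_sum, Polynomial.sum_def, ← Finset.add_sum_erase _ _ hmem,
      add_sub_cancel_right]
  have h1 : v (∑ j ∈ q.support.erase i, q.coeff j * u ^ j) ≤ v u ^ i / (2 * M) := by
    refine (v.sum_le _ _).trans ((Finset.sum_le_card_nsmul _ _ (v u ^ i / (2 * (n + 1) * M))
      fun j hj => ?_).trans ?_)
    · obtain ⟨h2, h3⟩ := Finset.mem_erase.1 hj
      have h4 := Polynomial.mem_support_iff.1 h3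
      rw [map_mul, map_pow, le_div_iff₀ (by positivity)]
      refine le_trans ?_ (hd j h4 h2)
      have h5 := mul_le_mul_of_nonneg_right (hq j h4).2
        (show 0 ≤ v u ^ j * (2 * (n + 1) * M) from mul_nonneg (pow_nonneg (v.nonneg u) j)
          (by positivity))
      nlinarith
    · rw [nsmul_eq_mul]
      have h2 : ((q.support.erase i).card : ℝ) ≤ n + 1 :=
        le_trans (by exact_mod_cast Finset.card_erase_le) (card_support_le q hn)
      refine (mul_le_mul_of_nonneg_right h2 (by positivity)).trans (le_of_eq ?_)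
      field_simp
  have h2 : M⁻¹ * v u ^ i ≤ v (q.eval u) + v u ^ i / (2 * M) := by
    refine (mul_le_mul_of_nonneg_right (hq i hi).1 ht).trans ?_
    rw [← map_pow, ← map_mul, e, map_pow]
    exact (v.sub_le_add _ _).trans (by linarith)
  have h3 : M⁻¹ * v u ^ i = v u ^ i / (2 * M) + v u ^ i / (2 * M) := by
    field_simp
    ring
  have h4 : v u ^ i / (2 * M) ≤ v (q.eval u) := by linarith
  rwa [div_le_iff₀ (by positivity), mul_comm] at h4

/-- If `v u` is small the term of least degree `i₀` dominates: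
`v (q.eval u) ≥ v u ^ i₀ * (M⁻¹ - n * M * v u)`; if `v u` is large the term of highest degree does. -/
theorem dom_le {K : Type*} [Field K] (v : AbsoluteValue K ℝ) (q : Polynomial K) {u : K} (hu : u ≠ 0)
    {M : ℝ} (hM : 1 ≤ M) {n : ℕ} (hn : q.natDegree ≤ n)
    (hq : ∀ i, q.coeff i ≠ 0 → M⁻¹ ≤ v (q.coeff i) ∧ v (q.coeff i) ≤ M)
    (hu' : Real.log (2 * (n + 1) * M ^ 2) ≤ |Real.log (v u)|) {i : ℕ} (hi : q.coeff i ≠ 0) :
    v u ^ i ≤ 2 * M * v (q.eval u) := by
  have hq0 : q ≠ 0 := fun h => hi (by rw [h, Polynomial.coeff_zero])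
  have ht : 0 < v u := v.pos hu
  have hL : (1 : ℝ) ≤ 2 * (n + 1) * M ^ 2 := by
    have h1 : 1 ≤ M ^ 2 := one_le_pow₀ hM
    have h2 : (0 : ℝ) ≤ n := Nat.cast_nonneg n
    nlinarith
  have hL0 : (0 : ℝ) < 2 * (n + 1) * M ^ 2 := zero_lt_one.trans_le hL
  rcases le_abs.1 hu' with h | h
  · have h1 : 2 * (n + 1) * M ^ 2 ≤ v u := (Real.log_le_log_iff hL0 ht).1 h
    refine (pow_le_pow_right₀ (hL.trans h1) (Polynomial.le_natDegree_of_ne_zero hi)).trans
      (dom_aux v q u hM hn hq (Polynomial.leadingCoeff_ne_zero.2 hq0) fun j hj hne => ?_)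
    have h2 : j + 1 ≤ q.natDegree := lt_of_le_of_ne (Polynomial.le_natDegree_of_ne_zero hj) hne
    refine (mul_le_mul_of_nonneg_right h1 (pow_nonneg ht.le j)).trans ?_
    rw [← pow_succ']
    exact pow_le_pow_right₀ (hL.trans h1) h2
  · rw [← Real.log_inv] at h
    have h1 : 2 * (n + 1) * M ^ 2 * v u ≤ 1 := by
      have h2 := (Real.log_le_log_iff hL0 (inv_pos.2 ht)).1 h
      rwa [inv_eq_one_div, le_div_iff₀ ht] at h2
    have h3 : v u ≤ 1 := (le_mul_of_one_le_left ht.le hL).trans h1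
    refine (pow_le_pow_of_le_one ht.le h3 (Polynomial.natTrailingDegree_le_of_ne_zero hi)).trans
      (dom_aux v q u hM hn hq (Polynomial.trailingCoeff_nonzero_iff_nonzero.2 hq0)
        fun j hj hne => ?_)
    have h2 : q.natTrailingDegree + 1 ≤ j :=
      lt_of_le_of_ne (Polynomial.natTrailingDegree_le_of_ne_zero hj) hne.symm
    refine (mul_le_mul_of_nonneg_left (pow_le_pow_of_le_one ht.le h3 h2) hL0.le).trans ?_
    rw [pow_succ' (v u), ← mul_assoc]
    exact mul_le_of_le_one_left (pow_nonneg ht.le _) h1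

/-- Sum of at most `n + 1` terms, each at most `M * v u ^ b`. -/
theorem eval_le_low {K : Type*} [Field K] (v : AbsoluteValue K ℝ) (q : Polynomial K) {u : K}
    (hu : v u ≤ 1) {M : ℝ} (hM : 0 ≤ M) {n b : ℕ} (hn : q.natDegree ≤ n)
    (hq : ∀ i, v (q.coeff i) ≤ M) (hb : ∀ i < b, q.coeff i = 0) :
    v (q.eval u) ≤ (n + 1) * M * v u ^ b := by
  rw [Polynomial.eval_eq_sum, Polynomial.sum_def]
  refine (v.sum_le _ _).trans ((Finset.sum_le_card_nsmul _ _ (M * v u ^ b) fun j hj => ?_).trans ?_)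
  · have h1 : b ≤ j := not_lt.1 fun h => Polynomial.mem_support_iff.1 hj (hb j h)
    rw [map_mul, map_pow]
    exact mul_le_mul (hq j) (pow_le_pow_of_le_one (v.nonneg u) hu h1) (pow_nonneg (v.nonneg u) j) hM
  · rw [nsmul_eq_mul, mul_assoc]
    exact mul_le_mul_of_nonneg_right (card_support_le q hn)
      (mul_nonneg hM (pow_nonneg (v.nonneg u) b))

/-- Induction on `g`; `logHeight₁_add_le`, `logHeight₁_mul_le`. -/
theorem height_eval_le {K σ : Type*} [Field K] [NumberField K] [Fintype σ] (g : MvPolynomial σ K) :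
    ∃ B C : ℝ, 0 ≤ B ∧ ∀ z : σ → K,
      logHeight₁ (MvPolynomial.eval z g) ≤ B * ∑ s, logHeight₁ (z s) + C := by
  induction g using MvPolynomial.induction_on with
  | C a =>
    refine ⟨0, logHeight₁ a, le_rfl, fun z => ?_⟩
    rw [MvPolynomial.eval_C, zero_mul, zero_add]
  | add p q hp hq =>
    obtain ⟨B, C, hB, h⟩ := hp
    obtain ⟨B', C', hB', h'⟩ := hq
    refine ⟨B + B', totalWeight K * Real.log 2 + C + C', add_nonneg hB hB', fun z => ?_⟩
    rw [map_add]
    refine (logHeight₁_add_le _ _).trans ?_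
    linarith [h z, h' z]
  | mul_X p s hp =>
    obtain ⟨B, C, hB, h⟩ := hp
    refine ⟨B + 1, C, add_nonneg hB zero_le_one, fun z => ?_⟩
    rw [map_mul, MvPolynomial.eval_X]
    refine (logHeight₁_mul_le _ _).trans ?_
    have h1 : logHeight₁ (z s) ≤ ∑ s, logHeight₁ (z s) :=
      Finset.single_le_sum (f := fun s => logHeight₁ (z s)) (fun s _ => zero_le_logHeight₁ _)
        (Finset.mem_univ s)
    linarith [h z]

/-- Induction on `p`, `height_eval_le`, `logHeight₁_pow`. -/
theorem height_eval₂_le {K σ : Type*} [Field K] [NumberField K] [Fintype σ]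
    (p : Polynomial (MvPolynomial σ K)) : ∃ B C : ℝ, 0 ≤ B ∧ ∀ (z : σ → K) (u : K),
      logHeight₁ (p.eval₂ (MvPolynomial.eval z) u) ≤
        B * (∑ s, logHeight₁ (z s) + logHeight₁ u) + C := by
  have hs : ∀ z : σ → K, 0 ≤ ∑ s, logHeight₁ (z s) := fun z =>
    Finset.sum_nonneg fun s _ => zero_le_logHeight₁ _
  induction p using Polynomial.induction_on' with
  | add p q hp hq =>
    obtain ⟨B, C, hB, h⟩ := hp
    obtain ⟨B', C', hB', h'⟩ := hq
    refine ⟨B + B', totalWeight K * Real.log 2 + C + C', add_nonneg hB hB', fun z u => ?_⟩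
    rw [Polynomial.eval₂_add]
    refine (logHeight₁_add_le _ _).trans ?_
    linarith [h z u, h' z u]
  | monomial n g =>
    obtain ⟨B, C, hB, h⟩ := height_eval_le g
    refine ⟨B + n, C, add_nonneg hB (Nat.cast_nonneg n), fun z u => ?_⟩
    rw [Polynomial.eval₂_monomial]
    refine (logHeight₁_mul_le _ _).trans ?_
    rw [logHeight₁_pow]
    have h1 := mul_nonneg hB (zero_le_logHeight₁ u)
    have h2 := mul_nonneg (Nat.cast_nonneg n : (0 : ℝ) ≤ n) (hs z)
    linarith [h z]

end Pool.Agent.Lib.MP_8865d3_nt.Ft
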