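import Pool.Agent.Lib.MP_8865d3_nt.FtSec
import Pool.Agent.Lib.MP_8865d3_nt.FaInd2

/-! The basic sections with a torus factor are independent along the formal branches. -/

namespace Pool.Agent.Lib.MP_8865d3_nt.Ft

open MvPolynomial Finset Height Pool.Agent.Lib.Common.Subspace Pool.Agent.Lib.MP_e97e2b_nt
  Pool.Agent.Lib.MP_651af7_nt.Iv Pool.Agent.Lib.MP_651af7_nt.Vj Pool.Agent.Lib.MP_8865d3_nt.Fa

/-- As `algInd_sub` (`FaInd`): `algInd_of_algebraic`; the torus coordinates satisfy
`u (some j) = z (some j, none) * u none ^ q j` (`u none ≠ 0` by independence). -/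
theorem algInd_subT {L : Type} [Field L] [CharZero L] {J κ : Type} [Finite J] [Finite κ]
    (a b : κ → ℤ) (P : Option J → ∀ k, Pt (a k : L) (b k : L)) (u : Option J → L) (r q : J → ℕ)
    (h : AlgebraicIndependent ℚ fun s : Option J × Option κ =>
      s.2.elim (u s.1) fun k => xc (P s.1 k)) :
    AlgebraicIndependent ℚ fun s : Option J × Option κ =>
      s.2.elim (s.1.elim (u none) fun j => u (some j) / u none ^ q j) fun k =>
        xc (s.1.elim (P none k) fun j => P (some j) k - r j • P none k) := by
  set z : Option J × Option κ → L := fun s =>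
    s.2.elim (s.1.elim (u none) fun j => u (some j) / u none ^ q j) fun k =>
      xc (s.1.elim (P none k) fun j => P (some j) k - r j • P none k) with hz
  have hu : u none ≠ 0 := h.ne_zero (none, none)
  refine algInd_of_algebraic h ?_
  let F : Subfield L := (algebraicClosure (IntermediateField.adjoin ℚ (Set.range z)) L).toSubfield
  have hF : ∀ x : L, x ∈ F ↔ IsAlgebraic (IntermediateField.adjoin ℚ (Set.range z)) x :=
    fun x => mem_algebraicClosure_iff
  have hzF : ∀ s, z s ∈ F := fun s => (hF _).2 (isAlgebraic_algebraMap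
    (⟨z s, IntermediateField.subset_adjoin _ _ ⟨s, rfl⟩⟩ : IntermediateField.adjoin ℚ (Set.range z)))
  have hrange : ∀ k (Q : Pt (a k : L) (b k : L)), Q ∈ (fmap (A := (a k : F)) (B := (b k : F))
      F.subtype (map_intCast _ _) (map_intCast _ _)).range ↔ xc Q ∈ F := by
    intro k Q
    rw [mem_range_fmap]
    simp only [Subfield.subtype, RingHom.mem_range]
    constructor
    · intro H
      rcases Q.cases with rfl | ⟨x, y, hxy, rfl⟩
      · exact F.zero_mem
      · obtain ⟨⟨w, hw⟩, -⟩ := H x y hxy rfl
        rw [xc_pt, ← hw]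
        exact w.2
    · rintro H x y hxy rfl
      rw [xc_pt] at H
      refine ⟨⟨⟨x, H⟩, rfl⟩, ⟨⟨y, ?_⟩, rfl⟩⟩
      have h1 : y ^ 2 ∈ F := by
        rw [hxy.1]
        exact F.add_mem (F.add_mem (F.pow_mem H 3) (F.mul_mem (intCast_mem F _) H))
          (intCast_mem F _)
      exact (hF _).2 (IsAlgebraic.of_pow two_pos ((hF _).1 h1))
  rintro ⟨j, k⟩
  refine IntermediateField.isAlgebraic_adjoin_iff.mp ((hF _).1 ?_)
  cases k with
  | none =>
    cases j with
    | none => exact hzF (none, none)
    | some j =>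
      have h1 : u (some j) / u none ^ q j * u none ^ q j ∈ F :=
        F.mul_mem (hzF (some j, none)) (F.pow_mem (hzF (none, none)) _)
      rwa [div_mul_cancel₀ _ (pow_ne_zero _ hu)] at h1
  | some k =>
    cases j with
    | none => exact hzF (none, some k)
    | some j =>
      have h1 := (hrange k _).2 (hzF (none, some k))
      have h2 := (hrange k _).2 (hzF (some j, some k))
      have h3 := AddSubgroup.add_mem _ h2 (AddSubgroup.nsmul_mem _ h1 (r j))
      simp only [Option.elim, sub_add_cancel] at h3
      exact (hrange k _).1 h3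

theorem ftind_field {L J κ : Type} [Field L] [CharZero L] [Fintype J] [Fintype κ]
    [DecidableEq J] [DecidableEq κ] (a b : κ → ℤ) (hD : ∀ k, 4 * a k ^ 3 + 27 * b k ^ 2 ≠ 0)
    (s n : J → ℕ) (N : ℕ) (x w : Option J × Option κ → L) (hxi : AlgebraicIndependent ℚ x)
    (hy : ∀ j k, OnE (a k) (b k) (x (j, some k)) (w (j, some k)))
    (hB : ∀ j k, (mulP (a k : L) (b k : L) (x (none, some k)) (w (none, some k)) (s j)).2.1 ≠ 0)
    (c : box (nn (κ := Option κ) N n) → ℤ) (hc : c ≠ 0) :
    ∑ i, c i • secU a b s n x w (fun _ => false) i ≠ 0 := by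
  intro h0
  have hns : ∀ j k, NS (a k : L) (b k : L) (x (j, some k)) (w (j, some k)) := fun j k =>
    ns_of_eq two_ne_zero (by exact_mod_cast hD k) (hy j k)
  let P : Option J → ∀ k, Pt (a k : L) (b k : L) := fun j k => pt _ _ (hns j k)
  set T : J × κ → L × L × L := fun p =>
    mulP (a p.2 : L) (b p.2 : L) (x (none, some p.2)) (w (none, some p.2)) (s p.1) with hT
  have hB' : ∀ p, (T p).2.1 ≠ 0 := fun p => hB p.1 p.2
  have hu : x (none, none) ≠ 0 := hxi.ne_zero _
  set z : Option J × Option κ → L := fun q =>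
    q.2.elim (q.1.elim (x (none, none)) fun j => x (some j, none) / x (none, none) ^ 4 ^ s j)
      fun k => xc (q.1.elim (P none k) fun j => P (some j) k - 2 ^ s j • P none k) with hz
  have hzi : AlgebraicIndependent ℚ z := by
    refine algInd_subT a b P (fun j => x (j, none)) (fun j => 2 ^ s j) (fun j => 4 ^ s j) ?_
    refine (congrArg (fun v => AlgebraicIndependent ℚ v) ?_).mp hxi
    funext q
    obtain ⟨j, _ | k⟩ := q <;> rfl
  have hD' : ∀ p : J × κ, aD (x (some p.1, some p.2)) (T p) ≠ 0 ∧
      aM (a p.2 : L) (b p.2 : L) (x (some p.1, some p.2)) (w (some p.1, some p.2)) (T p) =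
        z (some p.1, some p.2) * aD (x (some p.1, some p.2)) (T p) := by
    rintro ⟨j, k⟩
    obtain ⟨-, h', e'⟩ := mulP_pt (hns none k) (s j)
      (smul_pt_ne_zero (hns none k) (s j) (hB' (j, k)))
    have h1 : AlgebraicIndependent ℚ ![xc (P (some j) k), xc (P none k)] := by
      have h2 := hxi.comp ![(some j, some k), (none, some k)] (by
        intro u v huv
        fin_cases u <;> fin_cases v <;> simp at huv ⊢)
      have h3 : x ∘ ![(some j, some k), (none, some k)] = ![xc (P (some j) k), xc (P none k)] := by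
        funext u
        fin_cases u <;> rfl
      rwa [h3] at h2
    have h2 := xc_ne_smul h1 (2 ^ s j)
    have h3 : xc (2 ^ s j • P none k) = (T (j, k)).1 / (T (j, k)).2.1 := congrArg xc e'
    rw [h3] at h2
    have h4 : aD (x (some j, some k)) (T (j, k)) ≠ 0 := by
      refine pow_ne_zero 2 fun e => h2 ?_
      rw [eq_div_iff (hB' (j, k))]
      exact sub_eq_zero.1 e
    refine ⟨h4, ?_⟩
    obtain ⟨y', h'', e''⟩ := sub_pt (hns (some j) k) (hB' (j, k)) h' h4
    have h5 : z (some j, some k) = _ := (congrArg (fun t => xc (P (some j) k - t)) e').trans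
      (congrArg xc e'')
    rw [h5, xc_pt, div_mul_cancel₀ _ h4]
  set U : L := (∏ p : J × κ, aD (x (some p.1, some p.2)) (T p) ^ n p.1) *
    ∏ j : J, x (none, none) ^ (4 ^ s j * n j) with hU
  have hU0 : U ≠ 0 := mul_ne_zero (Finset.prod_ne_zero_iff.2 fun p _ => pow_ne_zero _ (hD' p).1)
    (Finset.prod_ne_zero_iff.2 fun p _ => pow_ne_zero _ hu)
  have hsec : ∀ i : box (nn (κ := Option κ) N n),
      secU a b s n x w (fun _ => false) i = U * ∏ q, z q ^ i.1 q := by
    intro i
    have h2 : ∀ j k, i.1 (some j, k) ≤ n j := fun j k => mem_box.1 i.2 (some j, k)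
    have h3 : secG a b s n x w (fun _ => false) i =
        (∏ p : J × κ, z (some p.1, some p.2) ^ i.1 (some p.1, some p.2) *
          aD (x (some p.1, some p.2)) (T p) ^ n p.1) *
          ∏ k, z (none, some k) ^ i.1 (none, some k) :=
      congrArg₂ (· * ·) (Finset.prod_congr rfl fun p _ => fac_false (hD' p).2 (h2 _ _)) rfl
    have h4 : (∏ j : J, x (some j, none) ^ i.1 (some j, none)) *
        ∏ j : J, x (none, none) ^ (4 ^ s j * (n j - i.1 (some j, none))) =
        (∏ j : J, z (some j, none) ^ i.1 (some j, none)) *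
          ∏ j : J, x (none, none) ^ (4 ^ s j * n j) := by
      rw [← Finset.prod_mul_distrib, ← Finset.prod_mul_distrib]
      refine Finset.prod_congr rfl fun j _ => ?_
      have h5 : x (some j, none) = z (some j, none) * x (none, none) ^ 4 ^ s j :=
        (div_mul_cancel₀ _ (pow_ne_zero _ hu)).symm
      rw [h5, mul_pow, mul_assoc, ← pow_mul, ← pow_add, ← mul_add, Nat.add_sub_cancel' (h2 j none)]
    have h5 : ∏ q, z q ^ i.1 q = (x (none, none) ^ i.1 (none, none) *
        ∏ k, z (none, some k) ^ i.1 (none, some k)) *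
        ((∏ j : J, z (some j, none) ^ i.1 (some j, none)) *
          ∏ p : J × κ, z (some p.1, some p.2) ^ i.1 (some p.1, some p.2)) := by
      rw [Fintype.prod_prod_type (fun q => z q ^ i.1 q), Fintype.prod_option, Fintype.prod_option,
        Fintype.prod_prod_type (fun p : J × κ => z (some p.1, some p.2) ^ i.1 (some p.1, some p.2)),
        ← Finset.prod_mul_distrib]
      exact congrArg₂ (· * ·) rfl (Finset.prod_congr rfl fun j _ => Fintype.prod_option _)
    rw [secU, secL, h3, h5, Fintype.prod_option, Finset.prod_mul_distrib, mul_assoc, mul_assoc,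
      mul_assoc (x (none, none) ^ i.1 (none, none)), h4, hU]
    ring
  have h1 : ∑ i : box (nn (κ := Option κ) N n), (c i : ℚ) • ∏ q, z q ^ i.1 q = 0 := by
    refine (mul_eq_zero.1 (Eq.trans ?_ h0)).resolve_left hU0
    rw [Finset.mul_sum]
    refine Finset.sum_congr rfl fun i _ => ?_
    rw [hsec, Int.cast_smul_eq_zsmul, mul_smul_comm]
  have h2 : LinearIndependent ℚ fun i : box (nn (κ := Option κ) N n) => ∏ q, z q ^ i.1 q := by
    have h3 := ((basisMonomials (Option J × Option κ) ℚ).linearIndependent.map'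
      (aeval z).toLinearMap (LinearMap.ker_eq_bot.2 hzi)).comp
      (fun i : box (nn (κ := Option κ) N n) => Finsupp.equivFunOnFinite.symm i.1)
      (fun i i' e => Subtype.ext (Finsupp.equivFunOnFinite.symm.injective e))
    refine (congrArg (fun v => LinearIndependent ℚ v) ?_).mp h3
    funext i
    simp [aeval_monomial, Finsupp.prod_fintype]
  apply hc
  funext i
  exact_mod_cast Fintype.linearIndependent_iff.1 h2 _ h1 i

/-- As `sec_indep_field` and `sec_indep` (`FaInd2`): in the fraction field,
`secU .. i = U * ∏ p, z p ^ i p` with `z` the family of `algInd_subT` for `r j = 2 ^ s j`,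
`q j = 4 ^ s j`, and `U = (∏ aD ^ n) * ∏ j, u none ^ (4 ^ s j * n j)`. -/
theorem sec_indepT {K J κ : Type} [Field K] [CharZero K] [Fintype J] [Fintype κ] [DecidableEq J]
    [DecidableEq κ] (a b : κ → ℤ) (hD : ∀ k, 4 * a k ^ 3 + 27 * b k ^ 2 ≠ 0) (s n : J → ℕ) (N : ℕ)
    (x₀ : Option J × Option κ → K) (y : Option J × Option κ → MvPowerSeries (Option J × Option κ) K)
    (hy : ∀ j k, OnE (a k) (b k) (xser x₀ (j, some k)) (y (j, some k)))
    (hB : ∀ j k, (mulP (a k : K) (b k : K) (x₀ (none, some k))
      (MvPowerSeries.constantCoeff (y (none, some k))) (s j)).2.1 ≠ 0)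
    (c : box (nn (κ := Option κ) N n) → ℤ) (hc : c ≠ 0) :
    ∑ i, c i • secU a b s n (xser x₀) y (fun _ => false) i ≠ 0 := by
  intro h0
  have : CharZero (MvPowerSeries (Option J × Option κ) K) := algebraRat.charZero _
  have : IsDomain (MvPowerSeries (Option J × Option κ) K) := NoZeroDivisors.to_isDomain _
  have : CharZero (FractionRing (MvPowerSeries (Option J × Option κ) K)) :=
    IsFractionRing.charZero _
  obtain ⟨ι, hι⟩ : ∃ ι : MvPowerSeries (Option J × Option κ) K →+*
      FractionRing (MvPowerSeries (Option J × Option κ) K), Function.Injective ι :=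
    ⟨algebraMap _ _, IsFractionRing.injective _ _⟩
  refine ftind_field a b hD s n N (fun p => ι (xser x₀ p)) (fun p => ι (y p))
    (algInd_map_ind2 ι hι (algInd_shift x₀)) (fun j k => ?_) (fun j k e => ?_) c hc ?_
  · have h1 := congrArg ι (hy j k)
    rwa [map_add, map_add, map_mul, map_pow, map_pow, map_intCast ι, map_intCast ι] at h1
  · have h1 := congrArg (fun t => t.2.1)
      (map3_mulP ι (a k) (b k) (xser x₀ (none, some k)) (y (none, some k)) (s j))
    have h2 := congrArg (fun t => t.2.1)
      (map3_mulP (MvPowerSeries.constantCoeff : MvPowerSeries (Option J × Option κ) K →+* K)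
        (a k) (b k) (xser x₀ (none, some k)) (y (none, some k)) (s j))
    rw [map_intCast ι, map_intCast ι] at h1
    rw [map_intCast, map_intCast] at h2
    have h3 := hι ((h1.trans e).trans (map_zero ι).symm)
    have h4 : MvPowerSeries.constantCoeff (xser x₀ (none, some k)) = x₀ (none, some k) := by
      simp [xser]
    rw [h4] at h2
    refine hB j k (h2.symm.trans ?_)
    exact (congrArg MvPowerSeries.constantCoeff h3).trans (map_zero _)
  · have h2 := congrArg ι h0
    rw [map_sum, map_zero] at h2
    rw [← h2]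
    exact Finset.sum_congr rfl fun i _ => by rw [map_zsmul, map_secU]

end Pool.Agent.Lib.MP_8865d3_nt.Ft
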