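import Pool.Agent.Lib.MP_8865d3_nt.FtDefs
import Pool.Agent.Lib.MP_8865d3_nt.FaNV

/-! The zero estimate along the formal branches, with torus coordinates. -/

namespace Pool.Agent.Lib.MP_8865d3_nt.Ft

open MvPolynomial Finset Height Pool.Agent.Lib.Common.Subspace Pool.Agent.Lib.MP_e97e2b_nt
  Pool.Agent.Lib.MP_651af7_nt.Iv Pool.Agent.Lib.MP_651af7_nt.Vj Pool.Agent.Lib.MP_8865d3_nt.Fa

open Pool.Agent.Lib.Common.ZeroLemma

/-- The relation for the variable `inr p`. -/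
noncomputable def nvRel {I κ : Type} (a b : κ → ℤ) (p : I × Option κ) :
    MvPolynomial ((I × Option κ) ⊕ (I × Option κ)) ℚ :=
  p.2.elim (X (Sum.inr p)) fun k => nvCub (a k) (b k) p

theorem nvRel_deg {I κ : Type} (a b : κ → ℤ) (p : I × Option κ) :
    ∀ μ ∈ (nvRel a b p).support, ∀ s, μ s ≤ 3 := by
  classical
  rcases p with ⟨i, _ | k⟩
  · intro μ hμ s
    refine (wd_single_iff s).1 ((wd_X _ _).mono ?_) μ hμ
    rw [Pi.single_apply]
    split_ifs <;> omega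
  · exact nvCub_deg _ _ _

theorem nvRel_zero {I κ : Type} (a b : κ → ℤ) (p : I × Option κ) :
    ∀ μ ∈ (nvRel a b p).support, ∀ s, s ≠ Sum.inl p → s ≠ Sum.inr p → μ s = 0 := by
  classical
  rcases p with ⟨i, _ | k⟩
  · intro μ hμ s _ h2
    refine Nat.le_zero.1 ((wd_single_iff s).1 ((wd_X _ _).mono ?_) μ hμ)
    rw [Pi.single_eq_of_ne h2.symm]
  · exact nvCub_zero _ _ _

theorem nvRel_il {I κ : Type} [Fintype κ] (a b : κ → ℤ) (p : I × Option κ) :
    IL (nvRel a b p) (1 + ∑ k, (2 + |(a k : ℝ)| + |(b k : ℝ)|)) := by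
  rcases p with ⟨i, _ | k⟩
  · exact (il_X _).mono (le_add_of_nonneg_right (sum_nonneg fun k _ => by positivity))
  · refine (nvCub_il _ _ _).mono ?_
    have h1 := single_le_sum (f := fun k => 2 + |(a k : ℝ)| + |(b k : ℝ)|)
      (fun k _ => by positivity) (mem_univ k)
    linarith

/-- As `nv_step` (`FaNV`), the relation for the variable `inr (i, none)` being `X (inr (i, none))`
itself and the one for `inr (i, some k)` being `nvCub (a k) (b k) (i, some k)`. -/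
theorem nv_stepT {K I κ : Type} [Field K] [CharZero K] [Fintype I] [Fintype κ] (a b : κ → ℤ)
    {θ : ℝ} (hθ : 0 < θ) : ∃ (D : ℕ) (lam : ℝ), 0 < lam ∧ ∀ ε : ℝ, 0 < ε → ∃ ω₀ : ℝ, ∀ ω : I → ℝ,
      (∀ i, ω₀ ≤ ω i) → (∀ i i', i ≠ i' → lam * ω i ≤ ω i' ∨ lam * ω i' ≤ ω i) →
      ∀ (x₀ : I × Option κ → K) (y : I × Option κ → MvPowerSeries (I × Option κ) K),
      (∀ i k, OnE (a k) (b k) (xser x₀ (i, some k)) (y (i, some k))) →
      (∀ i k, y (i, some k) ≠ 0) → (∀ i, y (i, none) = 0) →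
      ∀ (W : ℝ) (F : MvPolynomial ((I × Option κ) ⊕ (I × Option κ)) ℚ), 1 ≤ ε * W →
      IL F (Real.exp (ε * W)) →
      (∀ μ ∈ F.support, ∀ p, ω p.1 * μ (Sum.inl p) ≤ W ∧ ω p.1 * μ (Sum.inr p) ≤ W) →
      aeval (Sum.elim (xser x₀) y) F ≠ 0 →
      (∃ κ' : I × Option κ →₀ ℕ, ∑ p, κ' p * ω p.1 ≤ θ * W ∧
        MvPowerSeries.coeff κ' (aeval (Sum.elim (xser x₀) y) F) ≠ 0) ∨
      ∃ (i : I) (g : MvPolynomial (Option κ) ℚ), Small D (D * ε * ω i) g ∧
        aeval (fun k => x₀ (i, k)) g = 0 := by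
  classical
  obtain ⟨B, η, hη, H⟩ := nonvanishing (τ := I × Option κ) (σ := (I × Option κ) ⊕ (I × Option κ)) (K := K)
    (e := Sum.inl) Sum.inl_injective Prod.fst 3 (Fintype.card (I × Option κ)) θ hθ
  refine ⟨B, η⁻¹, inv_pos.2 hη, fun ε hε => ⟨(1 + ∑ k, (2 + |(a k : ℝ)| + |(b k : ℝ)|)) / ε,
    fun ω hω hsep x₀ y hE hy hy0 W F hW hF hdeg h0 => ?_⟩⟩
  have hS : 0 ≤ ∑ k, (2 + |(a k : ℝ)| + |(b k : ℝ)|) := sum_nonneg fun k _ => by positivity
  have hω' : ∀ i, 1 + ∑ k, (2 + |(a k : ℝ)| + |(b k : ℝ)|) ≤ ε * ω i := fun i => by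
    have := (div_le_iff₀ hε).1 (hω i)
    linarith
  have hdom : IsDomain (MvPowerSeries (I × Option κ) K) := NoZeroDivisors.to_isDomain _
  have key := H ε (Sum.elim (fun p => ω p.1) (fun p => ω p.1)) hε ?_ ?_ ?_ x₀
    (aeval (Sum.elim (xser x₀) y) : MvPolynomial ((I × Option κ) ⊕ (I × Option κ)) ℚ →ₐ[ℚ] _).toRingHom ?_
    ((univ : Finset (I × Option κ)).toList.map Sum.inr)
    (Sum.elim (fun _ => 0) (nvRel a b)) ?_ ?_ ?_ ?_ W hW F
    ⟨hF.1, ?_, hF.2⟩ h0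
  · rcases key with ⟨κ', h1, h2⟩ | ⟨p, g, h1, h2, h3, h4, h5⟩
    · refine Or.inl ⟨κ', le_of_eq_of_le ?_ h1.le, h2⟩
      rw [Finsupp.weight_apply, Finsupp.sum_fintype _ _ (by simp)]
      simp
    · obtain ⟨g', k1, k2⟩ := exists_rename_small (e := fun k : Option κ => (p.1, k))
        (fun k k' h => (Prod.ext_iff.1 h).2) (B := B) (c := B * ε * ω p.1) (N := g)
        ⟨h1.ne_zero, ⟨h2, h4⟩, fun μ hμ s => (h3 μ hμ s).2⟩
        fun μ hμ s hs => (h3 μ hμ s).1 fun h => hs ⟨s.2, Prod.ext h.symm rfl⟩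
      refine Or.inr ⟨p.1, g', k1, ?_⟩
      rw [← k2, aeval_rename] at h5
      exact h5
  · rintro (p | p)
    · exact le_trans (by linarith) (hω' p.1)
    · exact le_trans (by linarith) (hω' p.1)
  · intro p q h
    exact congrArg ω h
  · intro p q h
    rcases hsep _ _ h with h1 | h1
    · exact Or.inl ((inv_mul_le_iff₀ hη).1 h1)
    · exact Or.inr ((inv_mul_le_iff₀ hη).1 h1)
  · intro p
    simp [xser]
  · simp
  · rintro (p | p)
    · exact Or.inr ⟨p, rfl⟩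
    · exact Or.inl (List.mem_map.2 ⟨p, mem_toList.2 (mem_univ p), rfl⟩)
  · rw [List.pairwise_map]
    refine (nodup_toList _).imp fun {p q} hpq μ hμ => ?_
    exact nvRel_zero _ _ q μ hμ _ Sum.inr_ne_inl fun h => hpq (Sum.inr_injective h)
  · intro t ht
    obtain ⟨p, -, rfl⟩ := List.mem_map.1 ht
    refine ⟨(nvRel_il _ _ p).1, nvRel_deg _ _ p, fun μ hμ s hs => ?_,
      (nvRel_il _ _ p).2.trans ?_, ?_, ?_⟩
    · refine nvRel_zero _ _ p μ hμ s ?_ ?_
      · rintro rfl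
        exact lt_irrefl _ hs
      · rintro rfl
        exact lt_irrefl _ hs
    · have h2 := Real.add_one_le_exp (ε * ω p.1)
      have h3 := hω' p.1
      show _ ≤ Real.exp (ε * ω p.1)
      linarith
    · rcases p with ⟨i, _ | k⟩
      · exact (aeval_X _ _).trans (hy0 i)
      · exact (nvCub_aeval _ _ _ _).trans (sub_eq_zero.2 (hE i k))
    · rcases p with ⟨i, _ | k⟩
      · intro h
        simp [nvRel] at h
      · intro h
        have h1 := (nvCub_pderiv (a k) (b k) (i, some k) (Sum.elim (xser x₀) y)).symm.trans h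
        rcases mul_eq_zero.1 h1 with h2 | h2
        · have h3 := congrArg MvPowerSeries.constantCoeff h2
          rw [map_ofNat, map_zero] at h3
          exact two_ne_zero h3
        · exact hy i k h2
  · rintro μ hμ (p | p)
    · exact (hdeg μ hμ p).1
    · exact (hdeg μ hμ p).2

end Pool.Agent.Lib.MP_8865d3_nt.Ft
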