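import Pool.Agent.Lib.MP_8865d3_nt.FtCore
import Pool.Agent.Lib.MP_8865d3_nt.FtSieg
import Pool.Agent.Lib.MP_8865d3_nt.FtNV
import Pool.Agent.Lib.MP_8865d3_nt.FtInd
import Pool.Agent.Lib.MP_8865d3_nt.FaEng

/-! The main inequality for a chain of points, with a torus factor. -/

namespace Pool.Agent.Lib.MP_8865d3_nt.Ft

open MvPolynomial Finset Height Pool.Agent.Lib.Common.Subspace Pool.Agent.Lib.MP_e97e2b_nt
  Pool.Agent.Lib.MP_651af7_nt.Iv Pool.Agent.Lib.MP_651af7_nt.Vj Pool.Agent.Lib.MP_8865d3_nt.Fa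

variable {K κ : Type} [Field K] [NumberField K] [Fintype κ]

theorem eng_plusT {J : Type} [Fintype J] {a b : κ → ℤ} (X : Option J → PtT K a b) {s n : J → ℕ}
    {N : ℕ} (hN : ∀ j, n j * 4 ^ s j = N) {C θ : ℝ} (hθ : 0 ≤ θ)
    (hC : ∀ (k : κ) (P Q : Pt (a k : K) (b k : K)) (j : ℕ),
      2 * ht P + 2 * (4 ^ j * ht Q) ≤ ht (P + 2 ^ j • Q) + ht (P - 2 ^ j • Q) + C * 4 ^ j)
    (hcls : ∀ j, ClsT θ (s j) (X none) (X (some j))) :
    ∑ j, 2 * n j * HS (X (some j)).1 + Fintype.card J * (2 * (N * HS (X none).1)) +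
        ∑ j, n j * logHeight₁ (((X (some j)).2 : K) / ((X none).2 : K) ^ 4 ^ s j) ≤
      ∑ p : J × κ, n p.1 * ht ((X (some p.1)).1 p.2 + 2 ^ s p.1 • (X none).1 p.2) +
        Fintype.card J * (θ * (2 * (N * HT (X none))) + Fintype.card κ * (C * N)) := by
  have h1 : ∀ j, 2 * n j * HS (X (some j)).1 + 2 * (N * HS (X none).1) +
      n j * logHeight₁ (((X (some j)).2 : K) / ((X none).2 : K) ^ 4 ^ s j) ≤
      ∑ k, n j * ht ((X (some j)).1 k + 2 ^ s j • (X none).1 k) +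
        (θ * (2 * (N * HT (X none))) + Fintype.card κ * (C * N)) := by
    intro j
    have hn : (0 : ℝ) ≤ n j := Nat.cast_nonneg _
    have hN' : (N : ℝ) = n j * 4 ^ s j := by exact_mod_cast (hN j).symm
    have h2 := Finset.sum_le_sum fun k (_ : k ∈ Finset.univ) =>
      hC k ((X (some j)).1 k) ((X none).1 k) (s j)
    simp only [Finset.sum_add_distrib, ← Finset.mul_sum, Finset.sum_const, Finset.card_univ,
      nsmul_eq_mul] at h2
    have h3 : ∑ k, ht ((X (some j)).1 k - 2 ^ s j • (X none).1 k) +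
        logHeight₁ (((X (some j)).2 : K) / ((X none).2 : K) ^ 4 ^ s j) ≤
        θ * (2 * (4 ^ s j * HT (X none))) :=
      (hcls j).1.trans (mul_le_mul_of_nonneg_left (hcls j).2.1 hθ)
    have h4 := mul_le_mul_of_nonneg_left (add_le_add h2 h3) hn
    rw [← Finset.mul_sum, hN']
    unfold HS
    linarith
  have h2 := Finset.sum_le_sum fun j (_ : j ∈ Finset.univ) => h1 j
  simp only [Finset.sum_add_distrib, Finset.sum_const, Finset.card_univ, nsmul_eq_mul] at h2
  rw [Fintype.sum_prod_type]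
  linarith

theorem eng_numT {J : Type} [Fintype J] {a b : κ → ℤ} (X : Option J → PtT K a b) {s n : J → ℕ}
    {N : ℕ} (hN : ∀ j, n j * 4 ^ s j = N) {C θ d lT lc c' W Z : ℝ} (hθ : 0 ≤ θ)
    (κ' : Option J × Option κ →₀ ℕ)
    (hC : ∀ (k : κ) (P Q : Pt (a k : K) (b k : K)) (j : ℕ),
      2 * ht P + 2 * (4 ^ j * ht Q) ≤ ht (P + 2 ^ j • Q) + ht (P - 2 ^ j • Q) + C * 4 ^ j)
    (hC' : ∀ (k : κ) (P : Pt (a k : K) (b k : K)), logHeight₁ (2 * yc P)⁻¹ ≤ 2 * ht P + C)
    (hcls : ∀ j, ClsT θ (s j) (X none) (X (some j))) (hW : W = N * HT (X none)) (hW0 : 0 < W)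
    (hdl : 0 ≤ d * lc) (hH1 : ∀ j, 1 ≤ HT (X j)) (hHC : ∀ j, C ≤ HT (X j))
    (hZ : Z = ∑ p, κ' p * HT (X p.1)) (e1 : (c' + d * lc + 24) * Z ≤ W / 2) (e2 : d * lT ≤ W / 4)
    (e3 : d * lc * (∑ p : Option J × Option κ, (DD N n p + 2) : ℕ) ≤ W / 4)
    (e4 : 2 * (HT (X none) + ∑ j, HT (X (some j))) ≤ W / 4) (e5 : Fintype.card J * θ ≤ 1 / 4)
    (e6 : Fintype.card J * (Fintype.card κ * (C * N)) ≤ W / 4)
    (core : ∑ p : J × κ, n p.1 * ht ((X (some p.1)).1 p.2 + 2 ^ s p.1 • (X none).1 p.2) +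
      (5 * W - c' * Z - W) ≤ d * (lT + (∑ p, (DD N n p + 2 + κ' p) : ℕ) * lc) +
        ∑ p : Option J × κ, (DD N n p + 2 : ℕ) * ht ((X p.1).1 p.2) +
        (∑ j, n j * logHeight₁ (((X (some j)).2 : K) / ((X none).2 : K) ^ 4 ^ s j) +
          N * logHeight₁ ((X none).2 : K)) +
        (∑ p, (18 * κ' p : ℕ) * logHeight₁ (xt (X p.1) p.2) +
          ∑ p, (2 * κ' p : ℕ) * logHeight₁ (2 * yt (X p.1) p.2)⁻¹)) : False := by
  have h1 := eng_plusT X hN hθ hC hcls
  have hκ : ∀ p, (0 : ℝ) ≤ κ' p := fun p => Nat.cast_nonneg _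
  have h2 : ∑ p, (2 * κ' p : ℕ) * logHeight₁ (2 * yt (X p.1) p.2)⁻¹ ≤ 6 * Z := by
    rw [hZ, Finset.mul_sum]
    refine Finset.sum_le_sum fun p _ => ?_
    have h3 : logHeight₁ (2 * yt (X p.1) p.2)⁻¹ ≤ 3 * HT (X p.1) := by
      obtain ⟨j, _ | k⟩ := p
      · have h4 : 2 * yt (X j) none = (X j).2 := mul_div_cancel₀ _ two_ne_zero
        rw [h4, logHeight₁_inv]
        linarith [hu_le_HT (X j), hH1 j]
      · have h4 := hC' k ((X j).1 k)
        have h5 := (ht_le_HS (X j).1 k).trans (HS_le_HT (X j))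
        exact h4.trans (by linarith [hHC j])
    have h6 := mul_le_mul_of_nonneg_left h3 (hκ p)
    push_cast
    linarith
  have h2' : ∑ p, (18 * κ' p : ℕ) * logHeight₁ (xt (X p.1) p.2) ≤ 18 * Z := by
    rw [hZ, Finset.mul_sum]
    refine Finset.sum_le_sum fun p _ => ?_
    have h6 := mul_le_mul_of_nonneg_left (xt_le_HT (X p.1) p.2) (hκ p)
    push_cast
    linarith
  have h3 : ∑ p : Option J × κ, (DD N n p + 2 : ℕ) * ht ((X p.1).1 p.2) =
      ((2 * Fintype.card J + 1) * N + 2) * HS (X none).1 +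
        ∑ j, (2 * n j + 2) * HS (X (some j)).1 := by
    have h4 := eng_sum (fun j => (X j).1)
      (fun j => j.elim ((2 * Fintype.card J + 1) * N + 2) fun j => 2 * n j + 2)
    simp only [Option.elim] at h4
    rw [← h4]
    refine Finset.sum_congr rfl fun p _ => ?_
    obtain ⟨_ | j, k⟩ := p
    · simp only [DD, Option.elim]
      push_cast
      ring
    · simp only [DD, Option.elim]
      push_cast
      ring
  have h4 : ((∑ p, (DD N n p + 2 + κ' p) : ℕ) : ℝ) ≤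
      (∑ p : Option J × Option κ, (DD N n p + 2) : ℕ) + Z := by
    rw [Finset.sum_add_distrib, Nat.cast_add, hZ, Nat.cast_sum _ κ']
    exact add_le_add_right (Finset.sum_le_sum fun p _ =>
      le_mul_of_one_le_right (hκ p) (hH1 p.1)) _
  have h5 := mul_le_mul_of_nonneg_left h4 hdl
  have h6 : ∑ j, (2 * n j + 2) * HS (X (some j)).1 =
      ∑ j, 2 * n j * HS (X (some j)).1 + 2 * ∑ j, HS (X (some j)).1 := by
    rw [Finset.mul_sum, ← Finset.sum_add_distrib]
    exact Finset.sum_congr rfl fun j _ => by ring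
  have h7 := mul_le_mul_of_nonneg_right e5 hW0.le
  rw [← hW] at h1
  have h8 : W = N * HS (X none).1 + N * logHeight₁ ((X none).2 : K) := by
    rw [hW, HT]
    ring
  have h9 := Finset.sum_le_sum fun j (_ : j ∈ Finset.univ) => HS_le_HT (X (some j))
  have h10 : 0 ≤ ∑ j, n j * logHeight₁ (((X (some j)).2 : K) / ((X none).2 : K) ^ 4 ^ s j) :=
    Finset.sum_nonneg fun j _ => mul_nonneg (Nat.cast_nonneg _) (zero_le_logHeight₁ _)
  linarith [HS_le_HT (X none)]

omit [NumberField K] [Fintype κ] in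
theorem eng_loss0 {m : ℕ} (u : Option (Fin m) → Kˣ) (H : Option (Fin m) → ℝ) (hH : ∀ j, 0 ≤ H j)
    {n : Fin m → ℕ} {N : ℕ} (hN : 1 ≤ N) (hn : ∀ j, 1 ≤ n j) {v : AbsoluteValue K ℝ}
    (hζ : ∀ i, |Real.log (v (u i : K))| ≤ 1 / (11 * m + 3) * H i) {W : ℝ}
    (hW : W = N * H none) (hWu : ∀ j, n j * H (some j) ≤ 2 * W) :
    (v (u none : K))⁻¹ ^ (Fintype.card (Fin m) * N) *
      ∏ j, max (v (u j : K)) 1 ^ (DD (κ := Option κ) N n (j, none) + 2) ≤ Real.exp W := by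
  set ζ : ℝ := 1 / (11 * m + 3) with hζ'
  have hζ0 : 0 < ζ := by positivity
  have hp : ∀ j, 0 < v (u j : K) := fun j => v.pos (u j).ne_zero
  have h1 : (v (u none : K))⁻¹ ≤ Real.exp (ζ * H none) := by
    rw [← Real.log_le_iff_le_exp (inv_pos.2 (hp _)), Real.log_inv]
    exact (neg_le_abs _).trans (hζ none)
  have h2 : ∀ j, max (v (u j : K)) 1 ≤ Real.exp (ζ * H j) := fun j =>
    max_le ((Real.log_le_iff_le_exp (hp j)).1 ((le_abs_self _).trans (hζ j)))
      (Real.one_le_exp (mul_nonneg hζ0.le (hH _)))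
  refine (mul_le_mul (pow_le_pow_left₀ (inv_pos.2 (hp _)).le h1 _)
    (Finset.prod_le_prod (fun j _ => by positivity) fun j _ =>
      pow_le_pow_left₀ (by positivity) (h2 j) _) (by positivity) (by positivity)).trans ?_
  simp only [← Real.exp_nat_mul, ← Real.exp_sum, ← Real.exp_add, Real.exp_le_exp,
    Fintype.sum_option, DD, Option.elim, Fintype.card_fin]
  have h3 : ∑ j, ((2 * n j + 2 : ℕ) : ℝ) * (ζ * H (some j)) ≤ m * (ζ * (8 * W)) := by
    refine (Finset.sum_le_card_nsmul _ _ (ζ * (8 * W)) fun j _ => ?_).trans (by simp)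
    have h4 : (1 : ℝ) ≤ n j := by exact_mod_cast hn j
    have h5 := mul_le_mul_of_nonneg_right h4 (hH (some j))
    rw [mul_left_comm]
    refine mul_le_mul_of_nonneg_left ?_ hζ0.le
    push_cast
    linarith [hWu j]
  have h4 : (1 : ℝ) ≤ N := by exact_mod_cast hN
  have h5 := mul_le_mul_of_nonneg_left (mul_le_mul_of_nonneg_right h4 (hH none)) hζ0.le
  have h6 : ζ * (11 * m + 3) * W = W := by
    rw [hζ', one_div, inv_mul_cancel₀ (by positivity), one_mul]
  have h7 : ζ * W = ζ * (N * H none) := by rw [hW]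
  have h8 : m * (ζ * W) = m * (ζ * (N * H none)) := by rw [hW]
  push_cast at h3 ⊢
  linarith

theorem engine_posT (a b : κ → ℤ) (hD : ∀ k, 4 * a k ^ 3 + 27 * b k ^ 2 ≠ 0)
    {v : AbsoluteValue K ℝ} (hv : Adm v) {η : ℝ} (hη : 0 < η) {B : ℕ} (hB : 1 ≤ B) :
    ∃ (m D : ℕ) (θ lam ζ : ℝ), 0 < θ ∧ 0 < ζ ∧ ∀ ε : ℝ, 0 < ε → ∃ δ H₀ : ℝ, 0 < δ ∧
      ∀ (X : Option (Fin m) → PtT K a b) (s : Fin m → ℕ) (R : Fin m → MvPolynomial (Option κ) ℚ),
        H₀ ≤ HT (X none) → (∀ i, lam * HT (X none) ≤ HT (X (some i))) →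
        (∀ i i', i < i' → lam * HT (X (some i)) ≤ HT (X (some i'))) →
        (∀ i, ClsT θ (s i) (X none) (X (some i))) →
        (∀ i, |Real.log (v ((X i).2 : K))| ≤ ζ * HT (X i)) →
        (∀ i, Small B (δ * HT (X (some i))) (R i)) →
        (∀ i, Near v B (η * HT (X (some i))) (xt (X (some i))) (R i)) →
        ∃ i, SpecT D ε (X i) := by
  classical
  obtain ⟨m, n₀, c₁, hm, hc₁, Haux⟩ := exists_aux_secT a b hB (20 / η)
  obtain ⟨c₀, hc₀, Hbr⟩ := exists_branchT (K := K) (I := Option (Fin m)) a b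
  obtain ⟨C, hC0, hC1, hC2, hC3⟩ := exists_ht_const (K := K) a b hD
  obtain ⟨D₂, c₂, Hlow⟩ := small_of_low (K := K) C
  set d : ℝ := ((totalWeight K : ℕ) : ℝ) with hd
  set g : ℝ := ((Fintype.card (Option κ) : ℕ) : ℝ) with hg
  set c' : ℝ := η + 1 + 2 * (g * B) with hc'
  set A : ℝ := c' + d * Real.log c₀ + 24 with hA
  have hd0 : 0 ≤ d := Nat.cast_nonneg _
  have hg0 : 0 ≤ g := Nat.cast_nonneg _
  have hdl : 0 ≤ d * Real.log c₀ := mul_nonneg hd0 (Real.log_nonneg hc₀)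
  have hc'0 : 0 < c' := by positivity
  have hA0 : 0 < A := by positivity
  have hm' : (1 : ℝ) ≤ m := by exact_mod_cast hm
  obtain ⟨D₁, lam₁, hlam₁, Hnv⟩ := nv_stepT (K := K) (I := Option (Fin m)) a b
    (θ := 1 / (4 * (2 * m + 1) * A)) (by positivity)
  refine ⟨m, max D₁ D₂, 1 / (4 * m), 4 * lam₁ + 1, 1 / (11 * m + 3), by positivity, by positivity,
    fun ε hε => ?_⟩
  set ε' : ℝ := ε / (2 * (D₁ + 1)) with hε'
  have hε'0 : 0 < ε' := by positivity
  obtain ⟨ω₀, Hnv⟩ := Hnv ε' hε'0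
  set μ : ℝ := min ε' (1 / (4 * (d + 1))) with hμ
  have hμ0 : 0 < μ := lt_min hε'0 (by positivity)
  obtain ⟨H₀, hH₀⟩ := eng_exists_le [2, 2 / η, C, 2 * ω₀, c₂ / ε, 1 / ε', 2 * c₁ / μ,
    4 * (d * Real.log c₀ * ((m + 1) * g * (2 * m + 3))), 4 * (m * (g * C))]
  refine ⟨min 1 (μ / (4 * m * (c₁ + 1))), H₀, lt_min one_pos (by positivity), ?_⟩
  intro X s R hX0 hl0 hl hcls hζ hR hnear
  set δ : ℝ := min 1 (μ / (4 * m * (c₁ + 1))) with hδ
  have hδ0 : 0 < δ := lt_min one_pos (by positivity)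
  by_contra hcon
  push Not at hcon
  have hH : ∀ j, H₀ ≤ HT (X j) := by
    rintro (_ | j)
    · exact hX0
    · refine hX0.trans (le_trans ?_ (hl0 j))
      exact le_mul_of_one_le_left (HT_nonneg _) (by linarith)
  simp only [List.mem_cons, List.not_mem_nil, or_false, forall_eq_or_imp, forall_eq] at hH₀
  obtain ⟨b1, b2, b3, b4, b5, b6, b7, b8, b9⟩ := hH₀
  have hH2 : ∀ j, 2 ≤ HT (X j) := fun j => b1.trans (hH j)
  have hX : ∀ j k i, 2 ^ i • (X j).1 k ≠ 0 := by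
    intro j k
    refine hC2 k _ (lt_of_not_ge fun h => hcon j ?_)
    obtain ⟨p, h1, h2, -⟩ := Hlow (Option κ) (xt (X j)) (some k) h
    refine ⟨p, h1.mono (le_max_right _ _) ?_, h2⟩
    rw [mul_comm]
    exact (div_le_iff₀ hε).1 (b5.trans (hH j))
  obtain ⟨y, w, hy, hy₀, hy₁, hw, hbr⟩ := Hbr (fun p => xt (X p.1) p.2) (fun p => yt (X p.1) p.2)
    (fun j k => onE_pt (by simpa using hX j k 0)) (fun j k => yc_ne_zero (hX j k 1))
    (fun j => (X j).2.ne_zero) fun j => mul_div_cancel₀ _ two_ne_zero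
  obtain ⟨n₁, hn₁, hn₂⟩ : ∃ n₁ : ℕ, n₀ ≤ n₁ ∧ 8 * (2 * m + 1) ≤ n₁ :=
    ⟨max _ _, le_max_left _ _, le_max_right _ _⟩
  set S : ℕ := ∑ j, s j with hS
  set n : Fin m → ℕ := fun j => n₁ * 4 ^ (S - s j) with hn
  set N : ℕ := n₁ * 4 ^ S with hNdef
  have hN : ∀ j, n j * 4 ^ s j = N := fun j => by
    rw [hn, hNdef, mul_assoc, ← pow_add, Nat.sub_add_cancel
      (Finset.single_le_sum (f := s) (fun _ _ => Nat.zero_le _) (Finset.mem_univ j))]
  have hnn : ∀ j, n₁ ≤ n j := fun j => Nat.le_mul_of_pos_right _ (by positivity)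
  have hnN : n₁ ≤ N := Nat.le_mul_of_pos_right _ (by positivity)
  have hN1 : 1 ≤ N := by omega
  have hN' : ∀ j, (N : ℝ) = n j * 4 ^ s j := fun j => by exact_mod_cast (hN j).symm
  have hN1' : (1 : ℝ) ≤ N := by exact_mod_cast hN1
  clear_value n N S
  set W : ℝ := N * HT (X none) with hW
  have hW1 : HT (X none) ≤ W := le_mul_of_one_le_left (HT_nonneg _) hN1'
  have hW0 : 0 < W := by linarith [hH2 none]
  have hWl : ∀ j, W ≤ 2 * (n j * HT (X (some j))) := fun j => by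
    have := mul_le_mul_of_nonneg_left (hcls j).2.2 (Nat.cast_nonneg (α := ℝ) (n j))
    rw [hW, hN' j]
    linarith
  have hWu : ∀ j, n j * HT (X (some j)) ≤ 2 * W := fun j => by
    have := mul_le_mul_of_nonneg_left (hcls j).2.1 (Nat.cast_nonneg (α := ℝ) (n j))
    rw [hW, hN' j]
    linarith
  obtain ⟨c, Q, hc, hF, hFL, hQ, hev, hs⟩ := Haux s n N hN (fun j => hn₁.trans (hnn j)) hN1 R
    (fun j => δ * HT (X (some j))) hR (pres v (fun j => (X j).1) s)
  set lT : ℝ := c₁ * (N + ∑ j, n j * (δ * HT (X (some j)))) with hlT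
  have hlT1 : lT ≤ μ * W := by
    have h1 : ∑ j, n j * (δ * HT (X (some j))) ≤ m * (δ * (2 * W)) := by
      refine (Finset.sum_le_card_nsmul _ _ (δ * (2 * W)) fun j _ => ?_).trans (by simp)
      rw [mul_left_comm]
      exact mul_le_mul_of_nonneg_left (hWu j) hδ0.le
    have h2 : δ * (4 * m * (c₁ + 1)) ≤ μ := (le_div_iff₀ (by positivity)).1 (min_le_right _ _)
    have h3 : 2 * c₁ ≤ HT (X none) * μ := (div_le_iff₀ hμ0).1 (b7.trans hX0)
    have h4 := mul_le_mul_of_nonneg_left h3 (zero_le_one.trans hN1')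
    have h5 := mul_le_mul_of_nonneg_right h2 hW0.le
    have h6 := mul_le_mul_of_nonneg_left h1 hc₁
    have h7 : 0 ≤ δ * m * W := by positivity
    have h8 : N * (HT (X none) * μ) = μ * W := by rw [hW]; ring
    rw [hlT]
    linarith
  set ω : Option (Fin m) → ℝ := fun j => j.elim (HT (X none)) fun j => 4 ^ s j * HT (X none)
    with hω
  have hω1 : ∀ j, HT (X j) ≤ 2 * ω j := by
    rintro (_ | j)
    · simp only [hω, Option.elim]
      linarith [hH2 none]
    · exact (hcls j).2.1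
  have hω2 : ∀ j, ω j ≤ 2 * HT (X j) := by
    rintro (_ | j)
    · simp only [hω, Option.elim]
      linarith [hH2 none]
    · exact (hcls j).2.2
  have hsep : ∀ i i', (4 * lam₁ + 1) * HT (X i) ≤ HT (X i') → lam₁ * ω i ≤ ω i' := by
    intro i i' h
    have h1 := mul_le_mul_of_nonneg_left (hω2 i) hlam₁.le
    linarith [hω1 i', HT_nonneg (X i)]
  have hwd : ∀ e p, WD (wt p) (∑ i, c i • secUP a b s n e i) (DD N n p) := fun e p =>
    wd_sum _ fun i _ => (wd_secUP a b hN e (mem_box.1 i.2) p).zsmul _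
  have hωD : ∀ p : Option (Fin m) × Option κ, ω p.1 * DD N n p ≤ (2 * m + 1) * W := by
    rintro ⟨_ | j, k⟩
    · simp only [hω, DD, Option.elim, Fintype.card_fin, hW]
      push_cast
      linarith
    · simp only [hω, DD, Option.elim]
      have h1 : 4 ^ s j * HT (X none) * (2 * n j) = 2 * W := by rw [hW, hN' j]; ring
      have h2 := mul_le_mul_of_nonneg_right hm' hW0.le
      push_cast
      linarith
  have hω0 : ∀ j, 0 ≤ ω j := fun j => by linarith [hω1 j, hH2 j]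
  rcases Hnv ω (fun i => by linarith [hω1 i, hH i]) (by
      rintro (_ | i) (_ | i') hi
      · exact absurd rfl hi
      · exact Or.inl (hsep _ _ (hl0 i'))
      · exact Or.inr (hsep _ _ (hl0 i))
      · rcases lt_or_gt_of_ne (fun h : i = i' => hi (congrArg some h)) with h | h
        · exact Or.inl (hsep _ _ (hl _ _ h))
        · exact Or.inr (hsep _ _ (hl _ _ h)))
      (fun p => xt (X p.1) p.2) y hy (fun j k h => yc_ne_zero (hX j k 1) (by
        rw [← show _ = yc _ from hy₀ j k, h, map_zero])) hy₁ ((2 * m + 1) * W)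
      (∑ i, c i • secUP a b s n (fun _ => false) i) (by
        have h1 : 1 ≤ HT (X none) * ε' := (div_le_iff₀ hε'0).1 (b6.trans hX0)
        have h2 := mul_le_mul_of_nonneg_right hW1 hε'0.le
        have h3 : 0 ≤ m * (W * ε') := by positivity
        linarith)
      ((hF _).mono (Real.exp_le_exp.2 (hlT1.trans (by
        have h1 := mul_le_mul_of_nonneg_right (min_le_left ε' (1 / (4 * (d + 1)))) hW0.le
        have h3 : 0 ≤ m * (W * ε') := by positivity
        linarith))))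
      (fun ν hν p => by
        have h1 := (apply_mul_le_weight (wt p) ν (Sum.inl p)).trans (hwd _ p ν hν)
        have h2 := (apply_mul_le_weight (wt p) ν (Sum.inr p)).trans (hwd _ p ν hν)
        simp only [wt, Sum.elim_inl, Sum.elim_inr, if_true] at h1 h2
        exact ⟨(mul_le_mul_of_nonneg_left (by exact_mod_cast (by omega)) (hω0 _)).trans (hωD p),
          (mul_le_mul_of_nonneg_left (by exact_mod_cast (by omega)) (hω0 _)).trans (hωD p)⟩)
      (by
        simp only [map_sum, map_zsmul, aeval_secUP]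
        exact sec_indepT a b hD s n N _ y hy
          (fun j k => by rw [hy₀]; exact mulP_ne_zero (hX none k (s j))) c hc) with
    ⟨κ₀, h1, h2⟩ | ⟨i, p, h1, h2⟩
  swap
  · refine hcon i ⟨p, h1.mono (le_max_left _ _) ?_, h2⟩
    have h3 : ε' * (2 * (D₁ + 1)) = ε := div_mul_cancel₀ _ (by positivity)
    have h4 := mul_le_mul_of_nonneg_left (hω2 i) (by positivity : 0 ≤ D₁ * ε')
    have h5 := mul_nonneg hε'0.le (HT_nonneg (X i))
    rw [← h3]
    linarith
  have hZ : ∀ κ' ≤ κ₀, A * ∑ p, κ' p * HT (X p.1) ≤ W / 2 := by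
    intro κ' hκ
    have h3 : ∑ p, κ' p * HT (X p.1) ≤ 2 * ∑ p, κ₀ p * ω p.1 := by
      rw [Finset.mul_sum]
      refine Finset.sum_le_sum fun p _ => ?_
      have h4 : (κ' p : ℝ) ≤ κ₀ p := by exact_mod_cast hκ p
      rw [mul_left_comm]
      exact mul_le_mul h4 (hω1 _) (HT_nonneg _) (Nat.cast_nonneg _)
    have h4 : A * (2 * (1 / (4 * (2 * m + 1) * A) * ((2 * m + 1) * W))) = W / 2 := by
      field_simp
      ring
    rw [← h4]
    exact mul_le_mul_of_nonneg_left (h3.trans (by linarith)) hA0.le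
  have hZ0 : ∀ κ' : Option (Fin m) × Option κ →₀ ℕ, 0 ≤ ∑ p, κ' p * HT (X p.1) := fun κ' =>
    Finset.sum_nonneg fun p _ => mul_nonneg (Nat.cast_nonneg _) (HT_nonneg _)
  have hn1 : ∀ j, 1 ≤ n j := fun j => by have := hnn j; omega
  obtain ⟨κ', h3, h4⟩ := core_ineqT hv X hX hc₀ hy hy₀ hy₁ (hw none) hbr hN c (Real.exp_pos lT)
    hFL h2 (fun κ' => 5 * W - c' * ∑ p, κ' p * HT (X p.1)) (Λ := W) (fun κ' hκ => by
      have h3 := hZ κ' hκ
      have h4 := mul_le_mul_of_nonneg_right (show c' ≤ A by linarith) (hZ0 κ')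
      linarith) (eng_loss0 (fun j => (X j).2) (fun j => HT (X j))
        (fun _ => HT_nonneg _) hN1 hn1 hζ hW hWu) (fun L hL κ' => by
      have h3 := hbr.branch.gain_le hc₀ L κ' (fun j => by have := hnn j; omega) hη hW0.le
        (fun j => HT (X j)) hH2
        (fun j => by rw [mul_comm]; exact (div_le_iff₀ hη).1 (b2.trans (hH j))) hWl R
        (fun j => (hR j).mono le_rfl (mul_le_of_le_one_left (HT_nonneg _) (min_le_left _ _)))
        (fun j => hL ▸ hnear j) (fun p => by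
          rw [hL]
          refine (le_max_left _ 1).trans ((Real.log_le_iff_le_exp (by positivity)).1 ?_)
          exact (log_max_le hv _).trans (xt_le_HT (X p.1) p.2)) hQ hs
      rw [hev _ _ y hy, show η * (20 / η) * W / 4 = 5 * W by field_simp; ring] at h3
      exact h3)
  rw [Real.log_exp] at h4
  have hn8 : (8 * (2 * m + 1) : ℝ) ≤ n₁ := by exact_mod_cast hn₂
  refine eng_numT X hN (by positivity) κ' hC1 hC3 hcls hW hW0 hdl
    (fun j => one_le_two.trans (hH2 j)) (fun j => b3.trans (hH j)) rfl (hZ κ' h3) ?_ ?_ ?_ ?_ ?_ h4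
  · have h5 : μ * (4 * (d + 1)) ≤ 1 := (le_div_iff₀ (by positivity)).1 (min_le_right _ _)
    have h6 := mul_le_mul_of_nonneg_left hlT1 hd0
    have h7 := mul_le_mul_of_nonneg_right h5 hW0.le
    have h8 := mul_pos hμ0 hW0
    linarith
  · have h5 := (card_box_le_exp (κ := Option κ) hN1 (n := n) fun j =>
      hN j ▸ Nat.le_mul_of_pos_right _ (by positivity)).1
    have h6 : ((∑ p : Option (Fin m) × Option κ, (DD N n p + 2) : ℕ) : ℝ) ≤
        (m + 1) * g * (2 * m + 3) * N := by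
      have h7 : ∑ p : Option (Fin m) × Option κ, (DD N n p + 2) ≤
          (m + 1) * Fintype.card (Option κ) * (2 * m + 3) * N := by
        rw [Finset.sum_add_distrib, Finset.sum_const, Finset.card_univ, Fintype.card_prod,
          Fintype.card_option, Fintype.card_fin, smul_eq_mul]
        have h8 := Nat.mul_le_mul_left ((m + 1) * Fintype.card (Option κ) * 2) hN1
        linarith
      rw [hg]
      exact_mod_cast h7
    have h7 := mul_le_mul_of_nonneg_left h6 hdl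
    have h8 := mul_le_mul_of_nonneg_left (b8.trans hX0) (zero_le_one.trans hN1')
    linarith
  · have h5 : ∑ j, HT (X (some j)) ≤ m * (2 * W / n₁) := by
      refine (Finset.sum_le_card_nsmul _ _ (2 * W / n₁) fun j _ => ?_).trans (by simp)
      rw [le_div_iff₀ (by linarith), mul_comm]
      exact (mul_le_mul_of_nonneg_right (by exact_mod_cast hnn j) (HT_nonneg _)).trans (hWu j)
    have h6 : HT (X none) ≤ W / n₁ := by
      rw [le_div_iff₀ (by linarith), mul_comm]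
      exact mul_le_mul_of_nonneg_right (by exact_mod_cast hnN) (HT_nonneg _)
    have h7 : W / n₁ * (8 * (2 * m + 1)) ≤ W := by
      rw [div_mul_eq_mul_div, div_le_iff₀ (by linarith)]
      exact mul_le_mul_of_nonneg_left hn8 hW0.le
    rw [mul_div_assoc] at h5
    linarith
  · rw [Fintype.card_fin]
    exact le_of_eq (by field_simp)
  · rw [Fintype.card_fin]
    have h7 : (Fintype.card κ : ℝ) ≤ g := by
      rw [hg, Fintype.card_option]
      exact_mod_cast Nat.le_succ _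
    have h8 := mul_le_mul_of_nonneg_left (b9.trans hX0) (zero_le_one.trans hN1')
    have h9 := mul_le_mul_of_nonneg_right h7 (by positivity : 0 ≤ m * (C * N))
    linarith

theorem engineT (a b : κ → ℤ) (hD : ∀ k, 4 * a k ^ 3 + 27 * b k ^ 2 ≠ 0)
    {v : AbsoluteValue K ℝ} (hv : Adm v) {η : ℝ} (hη : 0 < η) (B : ℕ) :
    ∃ (m D : ℕ) (θ lam ζ : ℝ), 0 < θ ∧ 0 < ζ ∧ ∀ ε : ℝ, 0 < ε → ∃ δ H₀ : ℝ, 0 < δ ∧
      ∀ (X₀ : PtT K a b) (X : Fin m → PtT K a b) (s : Fin m → ℕ)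
        (R : Fin m → MvPolynomial (Option κ) ℚ),
        H₀ ≤ HT X₀ → (∀ i, lam * HT X₀ ≤ HT (X i)) →
        (∀ i i', i < i' → lam * HT (X i) ≤ HT (X i')) → (∀ i, ClsT θ (s i) X₀ (X i)) →
        |Real.log (v (X₀.2 : K))| ≤ ζ * HT X₀ →
        (∀ i, |Real.log (v ((X i).2 : K))| ≤ ζ * HT (X i)) →
        (∀ i, Small B (δ * HT (X i)) (R i)) → (∀ i, Near v B (η * HT (X i)) (xt (X i)) (R i)) →
        SpecT D ε X₀ ∨ ∃ i, SpecT D ε (X i) := by
  obtain ⟨m, D, θ, lam, ζ, hθ, hζ, H⟩ := engine_posT a b hD hv hη (B := B + 1) (by omega)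
  refine ⟨m, D, θ, lam, ζ, hθ, hζ, fun ε hε => ?_⟩
  obtain ⟨δ, H₀, hδ, H⟩ := H ε hε
  refine ⟨δ, H₀, hδ, fun X₀ X s R h1 h2 h3 h4 h7 h8 h5 h6 => ?_⟩
  obtain ⟨_ | i, hi⟩ := H (fun j => j.elim X₀ X) s R h1 h2 h3 h4
    (by rintro (_ | i); exacts [h7, h8 i])
    (fun i => (h5 i).mono (Nat.le_succ B) le_rfl) fun i => (h6 i).mono (Nat.le_succ B)
  · exact Or.inl hi
  · exact Or.inr ⟨i, hi⟩

end Pool.Agent.Lib.MP_8865d3_nt.Ft
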