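import Pool.Agent.Lib.MP_8865d3_nt.FtT5

/-! Local bounds on the product of a Weierstrass curve and a torus. -/

namespace Pool.Agent.Lib.MP_8865d3_nt.Ft

open MvPolynomial Finset Height Pool.Agent.Lib.Common.Subspace Pool.Agent.Lib.MP_e97e2b_nt
  Pool.Agent.Lib.MP_651af7_nt.Iv Pool.Agent.Lib.MP_651af7_nt.Vj Pool.Agent.Lib.MP_8865d3_nt.Fa

open NumberField Pool.Agent.Lib.MP_8865d3_nt.Gm Pool.Agent.MP_651af7_nt.Final

variable {K : Type} [Field K] [NumberField K]

private theorem short_one (W : WeierstrassCurve ℚ) [W.IsElliptic] :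
    ∃ (a b : ℤ) (C : ℝ) (ψ : Fin 3 → MvPolynomial (Unit ⊕ Unit) K), 4 * a ^ 3 + 27 * b ^ 2 ≠ 0 ∧
      ∀ x y : K, (W.map (algebraMap ℚ K)).toAffine.Equation x y →
        ∃ Z : Pts K (fun _ : Unit => a) (fun _ => b), (∀ k, Z k ≠ 0) ∧ HS Z ≤ logHeight₁ x + C ∧
          ∀ g, eval (zz Z) (aeval ψ g) = eval ![x, y, 1] g := by
  obtain ⟨a, b, C, φ, hD, h⟩ := exists_short_inv (K := K) W
  refine ⟨a, b, C, fun i => rename ![Sum.inl (), Sum.inr ()] (φ i), hD, fun x y he => ?_⟩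
  obtain ⟨P, p1, p2, p3⟩ := h x y he
  refine ⟨fun _ => P, fun _ => p1, (Fintype.sum_unique _).trans_le p2, fun g => ?_⟩
  rw [fin_eval_aeval]
  refine congrArg (fun z => eval z g) (funext fun i => ?_)
  rw [← p3 i]
  refine (eval_rename _ _ _).trans (congrArg (fun z => eval z (φ i)) (funext fun j => ?_))
  fin_cases j <;> rfl

/-- As `fa_weier` (`FaFin`) with `κ = Unit`: `exists_short_inv`, `fa_abs`. -/
theorem sg_weier (W : WeierstrassCurve ℚ) [W.IsElliptic] {v : AbsoluteValue K ℝ} (hv : Adm v)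
    (g : MvPolynomial (Fin 3) K) {ε : ℝ} (hε : 0 < ε) :
    ∃ C : ℝ, ∀ x y : K, (W.map (algebraMap ℚ K)).toAffine.Equation x y → eval ![x, y, 1] g ≠ 0 →
      |Real.log (v (eval ![x, y, 1] g))| ≤ ε * logHeight₁ x + C := by
  obtain ⟨a, b, C, ψ, hD, h⟩ := short_one (K := K) W
  obtain ⟨C₁, h₁⟩ := fa_abs (fun _ : Unit => a) (fun _ => b) (fun _ => hD) hv (aeval ψ g) hε
  refine ⟨ε * C + C₁, fun x y he h0 => ?_⟩
  obtain ⟨Z, z1, z2, z3⟩ := h x y he
  have h2 : |Real.log (v (eval (zz Z) (aeval ψ g)))| ≤ _ := h₁ Z z1 ((z3 g).trans_ne h0)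
  rw [z3] at h2
  linarith [mul_le_mul_of_nonneg_left z2 hε.le]

/-- `exists_short_inv`, `ft_fixed` with `κ = Unit` for `p.map (aeval ψ)`, `Units.mk0 u`. -/
theorem ft_weier (W : WeierstrassCurve ℚ) [W.IsElliptic] {v : AbsoluteValue K ℝ} (hv : Adm v)
    (p : Polynomial (MvPolynomial (Fin 3) K)) {ε : ℝ} (hε : 0 < ε) :
    ∃ c : ℝ, 0 ≤ c ∧ ∀ S : Finset (FinitePlace K), ∃ C : ℝ, ∀ x y u : K,
      (W.map (algebraMap ℚ K)).toAffine.Equation x y → u ≠ 0 → p.eval₂ (eval ![x, y, 1]) u ≠ 0 →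
      ∀ i, eval ![x, y, 1] (p.coeff i) ≠ 0 →
        i * Real.log (v u) - Real.log (v (p.eval₂ (eval ![x, y, 1]) u)) ≤
          ε * (logHeight₁ x + logHeight₁ u) + c * cnt S u + C := by
  obtain ⟨a, b, C, ψ, hD, h⟩ := short_one (K := K) W
  obtain ⟨c, hc, h₁⟩ := ft_fixed (fun _ : Unit => a) (fun _ => b) (fun _ => hD) hv
    (p.map (aeval ψ : MvPolynomial (Fin 3) K →ₐ[K] MvPolynomial (Unit ⊕ Unit) K).toRingHom) hε
  refine ⟨c, hc, fun S => ?_⟩
  obtain ⟨C₁, h₁⟩ := h₁ S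
  refine ⟨ε * C + C₁, fun x y u he hu h0 i hi => ?_⟩
  obtain ⟨Z, z1, z2, z3⟩ := h x y he
  have e : (p.map (aeval ψ : MvPolynomial (Fin 3) K →ₐ[K]
      MvPolynomial (Unit ⊕ Unit) K).toRingHom).eval₂ (eval (zz Z)) u =
        p.eval₂ (eval ![x, y, 1]) u := by
    rw [Polynomial.eval₂_map]
    congr 1
    exact RingHom.ext z3
  have h2 := h₁ (Z, Units.mk0 u hu) z1 (e.trans_ne h0) i
    (by rw [Polynomial.coeff_map]; exact (z3 _).trans_ne hi)
  simp only [HT, Units.val_mk0, e] at h2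
  linarith [mul_le_mul_of_nonneg_left z2 hε.le]

private theorem coef_bd (W : WeierstrassCurve ℚ) [W.IsElliptic] {v : AbsoluteValue K ℝ}
    (hv : Adm v) {ι : Type} [Fintype ι] (p : ι → Polynomial (MvPolynomial (Fin 3) K)) {ε : ℝ}
    (hε : 0 < ε) : ∃ C : ℝ, 0 ≤ C ∧ ∀ x y : K, (W.map (algebraMap ℚ K)).toAffine.Equation x y →
      ∀ l i, eval ![x, y, 1] ((p l).coeff i) ≠ 0 →
        (Real.exp (ε * logHeight₁ x + C))⁻¹ ≤ v (eval ![x, y, 1] ((p l).coeff i)) ∧
          v (eval ![x, y, 1] ((p l).coeff i)) ≤ Real.exp (ε * logHeight₁ x + C) := by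
  choose C hC using fun l i => sg_weier W hv ((p l).coeff i) hε
  refine ⟨∑ l, ∑ i ∈ (p l).support, |C l i|,
    sum_nonneg fun _ _ => sum_nonneg fun _ _ => abs_nonneg _, fun x y he l i hi => ?_⟩
  have h1 : i ∈ (p l).support := Polynomial.mem_support_iff.2 fun h => hi (by rw [h, map_zero])
  have h2 := Finset.single_le_sum (f := fun i => |C l i|) (fun _ _ => abs_nonneg _) h1
  have h3 := Finset.single_le_sum (f := fun l => ∑ i ∈ (p l).support, |C l i|)
    (fun _ _ => sum_nonneg fun _ _ => abs_nonneg _) (mem_univ l)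
  have h4 := abs_le.1 (hC l i x y he hi)
  have h5 := le_abs_self (C l i)
  rw [← Real.exp_neg, ← Real.exp_log (v.pos hi)]
  exact ⟨Real.exp_le_exp.2 (by linarith [h4.1]), Real.exp_le_exp.2 (by linarith [h4.2])⟩

/-- Let `n` bound the degrees.  If the value of `p l` is not `0` use `ft_weier` and `le_ciSup`.  Otherwise
`dom_le` (with `M = exp (ε' h + C')` from `sg_weier` for all the coefficients) forces
`|log (v u)| ≤ log (2 (n + 1) M ^ 2)`; take `l'` with nonzero value, `i'` with nonzero coefficient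
value, and `ft_weier` for `p l'`; `i, i' ≤ n`.  `cnt_nonneg`. -/
theorem ft_family (W : WeierstrassCurve ℚ) [W.IsElliptic] {v : AbsoluteValue K ℝ} (hv : Adm v)
    {ι : Type} [Fintype ι] (p : ι → Polynomial (MvPolynomial (Fin 3) K)) {ε : ℝ} (hε : 0 < ε) :
    ∃ c : ℝ, 0 ≤ c ∧ ∀ S : Finset (FinitePlace K), ∃ C : ℝ, ∀ x y u : K,
      (W.map (algebraMap ℚ K)).toAffine.Equation x y → u ≠ 0 →
      (fun l => (p l).eval₂ (eval ![x, y, 1]) u) ≠ 0 →
      ∀ l i, eval ![x, y, 1] ((p l).coeff i) ≠ 0 →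
        i * Real.log (v u) - Real.log (⨆ l, v ((p l).eval₂ (eval ![x, y, 1]) u)) ≤
          ε * (logHeight₁ x + logHeight₁ u) + c * cnt S u + C := by
  obtain ⟨n, hn⟩ : ∃ n : ℕ, ∀ l, (p l).natDegree ≤ n :=
    ⟨univ.sup fun l => (p l).natDegree, fun l =>
      Finset.le_sup (f := fun l => (p l).natDegree) (mem_univ l)⟩
  have hε' : 0 < ε / (4 * (n + 1)) := by positivity
  obtain ⟨C', hC', hM⟩ := coef_bd W hv p hε'
  choose c hc hw using fun l => ft_weier W hv (p l) (half_pos hε)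
  refine ⟨∑ l, c l, sum_nonneg fun l _ => hc l, fun S => ?_⟩
  choose C hC using fun l => hw l S
  refine ⟨n * (Real.log (2 * (n + 1)) + 2 * C') + ∑ l, |C l|, fun x y u he hu h0 l i hi => ?_⟩
  have hx := zero_le_logHeight₁ x
  have hu' := zero_le_logHeight₁ u
  have hn0 : (0 : ℝ) ≤ n := n.cast_nonneg
  have hA : 0 ≤ ε / (4 * (n + 1)) * logHeight₁ x + C' := by positivity
  have hL : 0 ≤ Real.log (2 * (n + 1)) := Real.log_nonneg (by linarith)
  have hle : ∀ l i, eval ![x, y, 1] ((p l).coeff i) ≠ 0 → (i : ℝ) ≤ n := fun l i hi => by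
    exact_mod_cast (Polynomial.le_natDegree_of_ne_zero fun h => hi (by rw [h, map_zero])).trans
      (hn l)
  obtain ⟨l', i', a1, a2, a3⟩ : ∃ l' i', (p l').eval₂ (eval ![x, y, 1]) u ≠ 0 ∧
      eval ![x, y, 1] ((p l').coeff i') ≠ 0 ∧ (i - i' : ℝ) * Real.log (v u) ≤
        n * (Real.log (2 * (n + 1)) + 2 * (ε / (4 * (n + 1)) * logHeight₁ x + C')) := by
    by_cases hl : (p l).eval₂ (eval ![x, y, 1]) u = 0
    · obtain ⟨l', hl'⟩ := Function.ne_iff.1 h0
      obtain ⟨i', hi'⟩ : ∃ i', eval ![x, y, 1] ((p l').coeff i') ≠ 0 := by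
        by_contra hc
        push Not at hc
        refine hl' ?_
        have : (p l').map (eval ![x, y, 1]) = 0 :=
          Polynomial.ext fun j => by rw [Polynomial.coeff_map, hc, Polynomial.coeff_zero]
        rw [Polynomial.eval₂_eq_eval_map, this, Polynomial.eval_zero, Pi.zero_apply]
      refine ⟨l', i', hl', hi', ?_⟩
      have h1 : |Real.log (v u)| ≤
          Real.log (2 * (n + 1)) + 2 * (ε / (4 * (n + 1)) * logHeight₁ x + C') := by
        by_contra hlt
        have h2 := dom_le v ((p l).map (eval ![x, y, 1])) hu (Real.one_le_exp hA)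
          (Polynomial.natDegree_map_le.trans (hn l))
          (fun j hj => by rw [Polynomial.coeff_map] at hj ⊢; exact hM x y he l j hj)
          (by
            rw [Real.log_mul (by positivity) (by positivity), Real.log_pow, Real.log_exp]
            exact_mod_cast (not_le.1 hlt).le)
          (i := i) (by rwa [Polynomial.coeff_map])
        rw [← Polynomial.eval₂_eq_eval_map, hl, map_zero, mul_zero] at h2
        exact absurd (pow_pos (v.pos hu) i) (not_lt.2 h2)
      have h3 : |(i - i' : ℝ)| ≤ n := abs_le.2 ⟨by linarith [hle l' i' hi', Nat.cast_nonneg (α := ℝ) i],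
        by linarith [hle l i hi, Nat.cast_nonneg (α := ℝ) i']⟩
      refine (le_abs_self _).trans ?_
      rw [abs_mul]
      exact mul_le_mul h3 h1 (abs_nonneg _) hn0
    · refine ⟨l, i, hl, hi, ?_⟩
      rw [sub_self, zero_mul]
      positivity
  have h4 := hC l' x y u he hu a1 i' a2
  have h5 := Real.log_le_log (v.pos a1) (le_nm (fun l => (p l).eval₂ (eval ![x, y, 1]) u) v l')
  have h6 := mul_le_mul_of_nonneg_right
    (Finset.single_le_sum (f := c) (fun l _ => hc l) (mem_univ l')) (cnt_nonneg S u)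
  have h7 := Finset.single_le_sum (f := fun l => |C l|) (fun _ _ => abs_nonneg _) (mem_univ l')
  have h8 : n * (2 * (ε / (4 * (n + 1)))) ≤ ε / 2 := by
    rw [← mul_assoc, ← mul_div_assoc, div_le_div_iff₀ (by positivity) two_pos]
    nlinarith
  have h9 := mul_le_mul_of_nonneg_right h8 hx
  have h10 := mul_nonneg hε.le hu'
  simp only [nm] at h5
  linarith [le_abs_self (C l')]

/-- `eval_le_low` with `M = exp (ε h + C')` from `sg_weier`; `exists_nm_eq`, `nm_pos`. -/
theorem ft_upper (W : WeierstrassCurve ℚ) [W.IsElliptic] {v : AbsoluteValue K ℝ} (hv : Adm v)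
    {ι : Type} [Fintype ι] (p : ι → Polynomial (MvPolynomial (Fin 3) K)) {ε : ℝ} (hε : 0 < ε) :
    ∃ C : ℝ, ∀ x y u : K, (W.map (algebraMap ℚ K)).toAffine.Equation x y → u ≠ 0 → v u ≤ 1 →
      (fun l => (p l).eval₂ (eval ![x, y, 1]) u) ≠ 0 →
      ∀ b : ℕ, (∀ l, ∀ i < b, eval ![x, y, 1] ((p l).coeff i) = 0) →
        Real.log (⨆ l, v ((p l).eval₂ (eval ![x, y, 1]) u)) ≤
          b * Real.log (v u) + ε * logHeight₁ x + C := by
  obtain ⟨n, hn⟩ : ∃ n : ℕ, ∀ l, (p l).natDegree ≤ n :=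
    ⟨univ.sup fun l => (p l).natDegree, fun l =>
      Finset.le_sup (f := fun l => (p l).natDegree) (mem_univ l)⟩
  obtain ⟨C', hC', hM⟩ := coef_bd W hv p hε
  refine ⟨Real.log (n + 1) + C', fun x y u he hu hu1 h0 b hb => ?_⟩
  have : Nonempty ι := by
    by_contra hι
    exact h0 (funext fun i => absurd ⟨i⟩ hι)
  obtain ⟨l, hl⟩ := exists_nm_eq (fun l => (p l).eval₂ (eval ![x, y, 1]) u) v
  have h1 := eval_le_low v ((p l).map (eval ![x, y, 1])) hu1
    (Real.exp_pos (ε * logHeight₁ x + C')).le (Polynomial.natDegree_map_le.trans (hn l))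
    (fun j => by
      rw [Polynomial.coeff_map]
      by_cases hj : eval ![x, y, 1] ((p l).coeff j) = 0
      · rw [hj, map_zero]
        positivity
      · exact (hM x y he l j hj).2)
    (b := b) fun j hj => by rw [Polynomial.coeff_map, hb l j hj]
  rw [← Polynomial.eval₂_eq_eval_map, hl] at h1
  have h2 := Real.log_le_log (nm_pos h0 v) h1
  have hvu := v.pos hu
  rw [Real.log_mul (by positivity) (by positivity), Real.log_mul (by positivity) (by positivity),
    Real.log_pow, Real.log_exp] at h2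
  simp only [nm] at h2
  linarith

end Pool.Agent.Lib.MP_8865d3_nt.Ft
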