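import Pool.Agent.Lib.MP_8865d3_nt.FtAlg
import Pool.Agent.Lib.MP_8865d3_nt.FtAn

/-! The order of a section of the multiplier ideal along the toric boundary. -/

namespace Pool.Agent.Lib.MP_8865d3_nt.Ft

open MvPolynomial MeasureTheory Topology

variable {k : Type} [Field k]

/-- Local integrability in the charts `(x, u)`, away from the common zeros of the `G j`. -/
def IntegP (W : WeierstrassCurve ℚ) (σ : k →+* ℂ) {ι β : Type} [Fintype β]
    (G : ι → Polynomial (MvPolynomial (Fin 3) k)) (I : β → Polynomial (MvPolynomial (Fin 3) k))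
    (f : Polynomial (MvPolynomial (Fin 3) k)) : Prop :=
  ∀ (U : Set ℂ) (y : ℂ → ℂ), IsOpen U → ContinuousOn y U →
    (∀ x ∈ U, (W.map (algebraMap ℚ ℂ)).toAffine.Equation x (y x)) → ∀ c : ℝ, 0 < c → c < 1 →
    LocallyIntegrableOn (fun p : ℂ × ℂ => ‖f.eval₂ (eval₂Hom σ ![p.1, y p.1, 1]) p.2‖ ^ 2 /
      (∑ l, ‖(I l).eval₂ (eval₂Hom σ ![p.1, y p.1, 1]) p.2‖ ^ 2) ^ c)
      {p | p.1 ∈ U ∧ (fun j => (G j).eval₂ (eval₂Hom σ ![p.1, y p.1, 1]) p.2) ≠ 0} volume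

private lemma ord_split {R : Type} [CommRing R] (n : ℕ) : ∀ P : Polynomial R,
    ∃ Q : Polynomial R, Q.coeff 0 = P.coeff n ∧ ∀ (φ : R →+* ℂ) (u : ℂ),
      (∀ i < n, φ (P.coeff i) = 0) → P.eval₂ φ u = u ^ n * Q.eval₂ φ u := by
  induction n with
  | zero => exact fun P => ⟨P, rfl, fun φ u _ => by simp⟩
  | succ n ih =>
    intro P
    obtain ⟨Q, h0, hQ⟩ := ih P.divX
    refine ⟨Q, by rw [h0, Polynomial.coeff_divX], fun φ u h => ?_⟩
    have h1 := hQ φ u fun i hi => by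
      rw [Polynomial.coeff_divX]
      exact h _ (by omega)
    have h2 : P.eval₂ φ u = (P.divX * Polynomial.X + Polynomial.C (P.coeff 0)).eval₂ φ u := by
      rw [Polynomial.divX_mul_X_add]
    rw [h2, Polynomial.eval₂_add, Polynomial.eval₂_mul, Polynomial.eval₂_X, Polynomial.eval₂_C, h1,
      h 0 (by omega)]
    ring

private lemma ord_cont0 (σ : k →+* ℂ) {y : ℂ → ℂ} {q : ℂ × ℂ} (hy : ContinuousAt y q.1)
    (m : MvPolynomial (Fin 3) k) :
    ContinuousAt (fun p : ℂ × ℂ => eval₂Hom σ ![p.1, y p.1, 1] m) q := by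
  induction m using MvPolynomial.induction_on with
  | C a =>
    simp only [eval₂Hom_C]
    exact continuousAt_const
  | add p r hp hr =>
    simp only [map_add]
    exact hp.add hr
  | mul_X p i hp =>
    simp only [map_mul, eval₂Hom_X']
    refine hp.mul ?_
    fin_cases i
    · exact continuousAt_fst
    · exact hy.comp continuousAt_fst
    · exact continuousAt_const

private lemma ord_cont (σ : k →+* ℂ) {y : ℂ → ℂ} {q : ℂ × ℂ} (hy : ContinuousAt y q.1)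
    (Q : Polynomial (MvPolynomial (Fin 3) k)) :
    ContinuousAt (fun p : ℂ × ℂ => Q.eval₂ (eval₂Hom σ ![p.1, y p.1, 1]) p.2) q := by
  induction Q using Polynomial.induction_on' with
  | add p r hp hr =>
    simp only [Polynomial.eval₂_add]
    exact hp.add hr
  | monomial n m =>
    simp only [Polynomial.eval₂_monomial]
    exact (ord_cont0 σ hy m).mul (continuousAt_snd.pow n)

/-- Choose `x₀` outside the finite set of `exists_cx_branch` and the roots of the three polynomials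
`N.map σ` given by `exists_norm`; `an_order` with
`f₁ p = ∑ i ∈ range (f.natDegree + 1), eval₂ σ ![p.1, y p.1, 1] (f.coeff (i + b)) * p.2 ^ i` (or
`Polynomial.divX` iterated), and the same for the `I l`; continuity of `eval₂` by induction or
`MvPolynomial.continuous_eval` after `eval_map`. -/
theorem ord_le [CharZero k] (W : WeierstrassCurve ℚ) (σ : k →+* ℂ) {ι β : Type} [Fintype β]
    {G : ι → Polynomial (MvPolynomial (Fin 3) k)} {I : β → Polynomial (MvPolynomial (Fin 3) k)}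
    {f : Polynomial (MvPolynomial (Fin 3) k)} (h : IntegP W σ G I f)
    (hG : ∃ j, ¬Van W ((G j).coeff 0)) {a b : ℕ} (ha : ∀ l, ∀ i < a, Van W ((I l).coeff i))
    (ha' : ∃ l, ¬Van W ((I l).coeff a)) (hb : ∀ i < b, Van W (f.coeff i))
    (hb' : ¬Van W (f.coeff b)) : a ≤ b + 1 := by
  classical
  obtain ⟨j0, hj0⟩ := hG
  obtain ⟨l0, hl0⟩ := ha'
  obtain ⟨N1, hN1, h1⟩ := exists_norm W hj0
  obtain ⟨N2, hN2, h2⟩ := exists_norm W hl0
  obtain ⟨N3, hN3, h3⟩ := exists_norm W hb'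
  obtain ⟨Z, hZ, hbr⟩ := exists_cx_branch (W.map (algebraMap ℚ ℂ))
  have hN : (N1 * N2 * N3).map σ ≠ 0 :=
    (Polynomial.map_ne_zero_iff σ.injective).2 (mul_ne_zero (mul_ne_zero hN1 hN2) hN3)
  obtain ⟨x₀, hx₀⟩ := (hZ.union (Polynomial.finite_setOfPred_isRoot hN)).exists_notMem
  rw [Set.mem_union, not_or] at hx₀
  obtain ⟨hxZ, hxN⟩ := hx₀
  have hxN' : N1.eval₂ σ x₀ * N2.eval₂ σ x₀ * N3.eval₂ σ x₀ ≠ 0 := by
    intro h0
    apply hxN
    change ((N1 * N2 * N3).map σ).eval x₀ = 0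
    rw [Polynomial.eval_map, Polynomial.eval₂_mul, Polynomial.eval₂_mul, h0]
  obtain ⟨U, y, hU, hxU, hy, heq⟩ := hbr x₀ hxZ
  have hyc : ContinuousAt y x₀ := hy.continuousAt (hU.mem_nhds hxU)
  have e1 : eval₂ σ ![x₀, y x₀, 1] ((G j0).coeff 0) ≠ 0 := fun h0 =>
    hxN' (by rw [h1 ℂ _ σ x₀ (y x₀) (heq x₀ hxU) h0]; ring)
  have e2 : eval₂ σ ![x₀, y x₀, 1] ((I l0).coeff a) ≠ 0 := fun h0 =>
    hxN' (by rw [h2 ℂ _ σ x₀ (y x₀) (heq x₀ hxU) h0]; ring)
  have e3 : eval₂ σ ![x₀, y x₀, 1] (f.coeff b) ≠ 0 := fun h0 =>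
    hxN' (by rw [h3 ℂ _ σ x₀ (y x₀) (heq x₀ hxU) h0]; ring)
  obtain ⟨F, hF0, hF⟩ := ord_split b f
  choose J hJ0 hJ using fun l => ord_split a (I l)
  have hΩ : {p : ℂ × ℂ | p.1 ∈ U ∧
      (fun j => (G j).eval₂ (eval₂Hom σ ![p.1, y p.1, 1]) p.2) ≠ 0} ∈ 𝓝 (x₀, (0 : ℂ)) := by
    have a1 : ∀ᶠ p : ℂ × ℂ in 𝓝 (x₀, (0 : ℂ)), p.1 ∈ U :=
      continuousAt_fst.eventually (hU.mem_nhds hxU)
    have a2 : ∀ᶠ p : ℂ × ℂ in 𝓝 (x₀, (0 : ℂ)),
        (G j0).eval₂ (eval₂Hom σ ![p.1, y p.1, 1]) p.2 ≠ 0 := by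
      refine (ord_cont σ (q := (x₀, 0)) hyc (G j0)).eventually_ne ?_
      simpa only [Polynomial.eval₂_at_zero, coe_eval₂Hom] using e1
    filter_upwards [a1, a2] with p hp1 hp2
    exact ⟨hp1, fun h0 => hp2 (congrFun h0 j0)⟩
  refine an_order x₀ hΩ (fun p => f.eval₂ (eval₂Hom σ ![p.1, y p.1, 1]) p.2)
    (fun p => F.eval₂ (eval₂Hom σ ![p.1, y p.1, 1]) p.2)
    (fun l p => (I l).eval₂ (eval₂Hom σ ![p.1, y p.1, 1]) p.2)
    (fun l p => (J l).eval₂ (eval₂Hom σ ![p.1, y p.1, 1]) p.2)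
    (fun p hp => hF _ _ fun i hi => hb i hi ℂ _ σ p.1 (y p.1) (heq _ hp.1))
    (fun l p hp => hJ l _ _ fun i hi => ha l i hi ℂ _ σ p.1 (y p.1) (heq _ hp.1))
    (ord_cont σ (q := (x₀, 0)) hyc F) (fun l => ord_cont σ (q := (x₀, 0)) hyc (J l)) ?_ ⟨l0, ?_⟩
    fun c hc0 hc1 => h U y hU hy heq c hc0 hc1
  · simpa only [Polynomial.eval₂_at_zero, coe_eval₂Hom, hF0] using e3
  · simpa only [Polynomial.eval₂_at_zero, coe_eval₂Hom, hJ0] using e2

end Pool.Agent.Lib.MP_8865d3_nt.Ft
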