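import Pool.Agent.Lib.MP_8865d3_nt.FtFin
import Pool.Agent.Lib.MP_8865d3_nt.FtOrd

/-! The local inequality near one component of the toric boundary. -/

namespace Pool.Agent.Lib.MP_8865d3_nt.Ft

open MvPolynomial Finset Height Pool.Agent.Lib.Common.Subspace Pool.Agent.Lib.MP_e97e2b_nt
  Pool.Agent.Lib.MP_651af7_nt.Iv Pool.Agent.Lib.MP_651af7_nt.Vj Pool.Agent.Lib.MP_8865d3_nt.Fa

open NumberField Pool.Agent.Lib.MP_8865d3_nt.Gm Pool.Agent.MP_651af7_nt.Final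

variable {K : Type} [Field K] [NumberField K]

private theorem van_eval {W : WeierstrassCurve ℚ} {g : MvPolynomial (Fin 3) K} (hg : Van W g)
    {x y : K} (hxy : (W.map (algebraMap ℚ K)).toAffine.Equation x y) : eval ![x, y, 1] g = 0 := by
  have h := hg K (algebraMap ℚ K) (RingHom.id K) x y hxy
  rwa [eval₂_id] at h

private theorem exists_roots (W : WeierstrassCurve ℚ) {g : MvPolynomial (Fin 3) K}
    (hg : ¬Van W g) : ∃ Z : Set K, Z.Finite ∧ ∀ x y : K,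
      (W.map (algebraMap ℚ K)).toAffine.Equation x y → x ∉ Z → eval ![x, y, 1] g ≠ 0 := by
  obtain ⟨N, hN, h⟩ := exists_norm W hg
  refine ⟨{x | N.IsRoot x}, Polynomial.finite_setOfPred_isRoot hN, fun x y hxy hx h0 => hx ?_⟩
  have h1 := h K (algebraMap ℚ K) (RingHom.id K) x y hxy (by rwa [eval₂_id])
  rwa [Polynomial.eval₂_id] at h1

/-- If all the coefficients of all the `I l` satisfy `Van W`, the values of `I` vanish and nothing is to
be proved.  Otherwise let `a` be least (`Nat.find`) with `∃ l, ¬ Van W ((I l).coeff a)`; by `ord_le` (applied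
to the least bad index of `J l`) all the coefficients of index `< a - 1` of the `J l` satisfy `Van W`.  `Z`
is the set of roots of the two polynomials given by `exists_norm` for `(I l₀).coeff a` and
`(G j₀).coeff 0`.  `ft_family` for `G` (`i = 0`) and `I` (`i = a`), `ft_upper` for `G` (`b = 0`) and `J`
(`b = a - 1`); `Van` is used with `L = K`, `σ = RingHom.id K` (`eval₂_id`). -/
theorem half_le (W : WeierstrassCurve ℚ) [W.IsElliptic] (σ : K →+* ℂ) {ι β γ : Type} [Fintype ι]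
    [Fintype β] [Fintype γ] {G : ι → Polynomial (MvPolynomial (Fin 3) K)}
    {I : β → Polynomial (MvPolynomial (Fin 3) K)} {J : γ → Polynomial (MvPolynomial (Fin 3) K)}
    (h : ∀ l, IntegP W σ G I (J l)) (hG : ∃ j, ¬Van W ((G j).coeff 0)) :
    ∃ Z : Set K, Z.Finite ∧ ∀ v : AbsoluteValue K ℝ, Adm v → ∀ ε : ℝ, 0 < ε → ∃ c : ℝ, 0 ≤ c ∧
      ∀ S : Finset (FinitePlace K), ∃ C : ℝ, ∀ x y u : K,
        (W.map (algebraMap ℚ K)).toAffine.Equation x y → x ∉ Z → u ≠ 0 → v u ≤ 1 →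
        (fun l => (G l).eval₂ (eval ![x, y, 1]) u) ≠ 0 →
        (fun l => (I l).eval₂ (eval ![x, y, 1]) u) ≠ 0 →
        (fun l => (J l).eval₂ (eval ![x, y, 1]) u) ≠ 0 →
        |Real.log (⨆ l, v ((G l).eval₂ (eval ![x, y, 1]) u))| ≤
          ε * (logHeight₁ x + logHeight₁ u) + c * cnt S u + C ∧
        Real.log (⨆ l, v ((J l).eval₂ (eval ![x, y, 1]) u)) -
          Real.log (⨆ l, v ((I l).eval₂ (eval ![x, y, 1]) u)) ≤
          -Real.log (v u) + (ε * (logHeight₁ x + logHeight₁ u) + c * cnt S u + C) := by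
  classical
  by_cases hI : ∃ a : ℕ, ∃ l, ¬Van W ((I l).coeff a)
  swap
  · refine ⟨∅, Set.finite_empty, fun v _ ε _ => ⟨0, le_rfl, fun S => ⟨0, ?_⟩⟩⟩
    intro x y u hxy _ _ _ _ h2 _
    refine absurd (funext fun l => ?_) h2
    rw [Polynomial.eval₂_eq_sum_range]
    refine Finset.sum_eq_zero fun i _ => ?_
    have hv : Van W ((I l).coeff i) := by
      by_contra hn
      exact hI ⟨i, l, hn⟩
    rw [van_eval hv hxy, zero_mul]
  obtain ⟨a, ha', ha⟩ : ∃ a : ℕ, (∃ l, ¬Van W ((I l).coeff a)) ∧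
      ∀ l, ∀ i < a, Van W ((I l).coeff i) := by
    refine ⟨Nat.find hI, Nat.find_spec hI, fun l i hi => ?_⟩
    by_contra hn
    exact Nat.find_min hI hi ⟨l, hn⟩
  have hJ : ∀ l, ∀ i < a - 1, Van W ((J l).coeff i) := by
    intro l i hi
    by_contra hn
    have hex : ∃ b : ℕ, ¬Van W ((J l).coeff b) := ⟨i, hn⟩
    have h1 := ord_le W σ (h l) hG ha ha' (b := Nat.find hex)
      (fun k hk => not_not.1 (Nat.find_min hex hk)) (Nat.find_spec hex)
    have h2 : Nat.find hex ≤ i := Nat.find_min' hex hn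
    omega
  obtain ⟨l₀, hl₀⟩ := ha'
  obtain ⟨j₀, hj₀⟩ := hG
  obtain ⟨Z₁, hZ₁, k₁⟩ := exists_roots W hl₀
  obtain ⟨Z₂, hZ₂, k₂⟩ := exists_roots W hj₀
  refine ⟨Z₁ ∪ Z₂, hZ₁.union hZ₂, fun v hv ε hε => ?_⟩
  obtain ⟨c₁, hc₁, f₁⟩ := ft_family W hv G (half_pos hε)
  obtain ⟨c₃, hc₃, f₃⟩ := ft_family W hv I (half_pos hε)
  obtain ⟨C₂, f₂⟩ := ft_upper W hv G (half_pos hε)
  obtain ⟨C₄, f₄⟩ := ft_upper W hv J (half_pos hε)
  refine ⟨c₁ + c₃, add_nonneg hc₁ hc₃, fun S => ?_⟩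
  obtain ⟨C₁, g₁⟩ := f₁ S
  obtain ⟨C₃, g₃⟩ := f₃ S
  refine ⟨|C₁| + |C₂| + |C₃| + |C₄|, fun x y u hxy hx hu hvu n1 n2 n3 => ?_⟩
  have e₁ := g₁ x y u hxy hu n1 j₀ 0 (k₂ x y hxy fun hh => hx (Or.inr hh))
  have e₂ := f₂ x y u hxy hu hvu n1 0 fun _ i hi => absurd hi (Nat.not_lt_zero i)
  have e₃ := g₃ x y u hxy hu n2 l₀ a (k₁ x y hxy fun hh => hx (Or.inl hh))
  have e₄ := f₄ x y u hxy hu hvu n3 (a - 1) fun l i hi => van_eval (hJ l i hi) hxy
  have hlog : Real.log (v u) ≤ 0 := Real.log_nonpos (v.nonneg u) hvu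
  have e₅ : ((a - 1 : ℕ) : ℝ) * Real.log (v u) - a * Real.log (v u) ≤ -Real.log (v u) := by
    rcases a with _ | a
    · simpa using hlog
    · rw [Nat.add_sub_cancel]
      push_cast
      linarith
  have p₁ := mul_nonneg hε.le (zero_le_logHeight₁ x)
  have p₂ := mul_nonneg hε.le (zero_le_logHeight₁ u)
  have p₃ := mul_nonneg hc₁ (cnt_nonneg S u)
  have p₄ := mul_nonneg hc₃ (cnt_nonneg S u)
  have q₁ := le_abs_self C₁
  have q₂ := le_abs_self C₂
  have q₃ := le_abs_self C₃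
  have q₄ := le_abs_self C₄
  have r₁ := abs_nonneg C₁
  have r₂ := abs_nonneg C₂
  have r₃ := abs_nonneg C₃
  have r₄ := abs_nonneg C₄
  rw [Nat.cast_zero, zero_mul] at e₁ e₂
  refine ⟨abs_le.2 ⟨?_, ?_⟩, ?_⟩ <;> linarith

end Pool.Agent.Lib.MP_8865d3_nt.Ft
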