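import Pool.Agent.Lib.MP_8865d3_nt.FtHalf
import Pool.Agent.Lib.MP_8865d3_nt.GmFinNull

/-! The local inequality and its sum over the places. -/

namespace Pool.Agent.Lib.MP_8865d3_nt.Ft

open MvPolynomial Finset Height Pool.Agent.Lib.MP_8865d3_nt.Fa

open NumberField Pool.Agent.Lib.MP_8865d3_nt.Gm Pool.Agent.MP_651af7_nt.Final

variable {K : Type} [Field K] [NumberField K]

/-- The values of a family of forms. -/
noncomputable def vl {ι : Type} (G : ι → MvPolynomial (Fin 3 ⊕ Fin 2) K) (P : Fin 3 → K)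
    (Q : Fin 2 → K) : ι → K := fun j => eval (Sum.elim P Q) (G j)

/-- The local height in terms of the base. -/
noncomputable def lh {ι α : Type} (v : AbsoluteValue K ℝ) (e : ℕ × ℕ × ℕ)
    (G : ι → MvPolynomial (Fin 3 ⊕ Fin 2) K) (F : α → MvPolynomial (Fin 3 ⊕ Fin 2) K)
    (P : Fin 3 → K) (Q : Fin 2 → K) : ℝ :=
  e.1 * ln P v + e.2.1 * ln Q v + e.2.2 * ln (vl G P Q) v - ln (vl F P Q) v

omit [NumberField K] in
theorem ln_smul {ι : Type} [Finite ι] {x : ι → K} (hx : x ≠ 0) {s : K} (hs : s ≠ 0)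
    (v : AbsoluteValue K ℝ) : ln (s • x) v = Real.log (v s) + ln x v := by
  rw [ln, ln, ← Real.log_mul (v.pos hs).ne' (nm_pos hx v).ne', nm, nm,
    Real.mul_iSup_of_nonneg (v.nonneg s)]
  simp

omit [NumberField K] in
theorem vl_smul {ι : Type} {G : ι → MvPolynomial (Fin 3 ⊕ Fin 2) K} {d d' : ℕ}
    (hG : ∀ j, (G j).IsWeightedHomogeneous bw2 (d, d')) (P : Fin 3 → K) (Q : Fin 2 → K) (s : K) :
    vl G P (s • Q) = s ^ d' • vl G P Q := by
  funext j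
  simpa [vl, aeval_eq_eval] using aeval_smul_bw2 (hG j) 1 s P Q

omit [NumberField K] in
theorem lh_smul {ι α : Type} [Finite ι] [Finite α] (v : AbsoluteValue K ℝ) {e : ℕ × ℕ × ℕ}
    {G : ι → MvPolynomial (Fin 3 ⊕ Fin 2) K} {F : α → MvPolynomial (Fin 3 ⊕ Fin 2) K} {d d' : ℕ}
    (hG : ∀ j, (G j).IsWeightedHomogeneous bw2 (d, d'))
    (hF : ∀ j, (F j).IsWeightedHomogeneous bw2 (e.1 + e.2.2 * d, e.2.1 + e.2.2 * d'))
    {P : Fin 3 → K} {Q : Fin 2 → K} (hQ : Q ≠ 0) (h1 : vl G P Q ≠ 0) (h2 : vl F P Q ≠ 0) {s : K}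
    (hs : s ≠ 0) : lh v e G F P (s • Q) = lh v e G F P Q := by
  rw [lh, lh, vl_smul hG, vl_smul hF, ln_smul hQ hs, ln_smul h1 (pow_ne_zero _ hs),
    ln_smul h2 (pow_ne_zero _ hs), map_pow, map_pow, Real.log_pow, Real.log_pow]
  push_cast
  ring

theorem loc_half (W : WeierstrassCurve ℚ) [W.IsElliptic] (σ : K →+* ℂ) {ι β γ : Type} [Fintype ι]
    [Fintype β] [Fintype γ] {G : ι → MvPolynomial (Fin 3 ⊕ Fin 2) K}
    {I : β → MvPolynomial (Fin 3 ⊕ Fin 2) K} {J : γ → MvPolynomial (Fin 3 ⊕ Fin 2) K}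
    (e e' : ℕ × ℕ × ℕ) (t : Fin 2)
    (h : ∀ l, IntegP W σ (fun j => toP t (G j)) (fun j => toP t (I j)) (toP t (J l)))
    (hG : ∃ j, ¬Van W ((toP t (G j)).coeff 0)) :
    ∃ Z : Set K, Z.Finite ∧ ∀ v : AbsoluteValue K ℝ, Adm v → ∀ ε : ℝ, 0 < ε → ∃ c : ℝ, 0 ≤ c ∧
      ∀ S : Finset (FinitePlace K), ∃ C : ℝ, ∀ x y u : K,
        (W.map (algebraMap ℚ K)).toAffine.Equation x y → x ∉ Z → u ≠ 0 → v u ≤ 1 →
        vl G ![x, y, 1] (Function.update 1 t u) ≠ 0 → vl I ![x, y, 1] (Function.update 1 t u) ≠ 0 →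
        vl J ![x, y, 1] (Function.update 1 t u) ≠ 0 →
        lh v e G I ![x, y, 1] (Function.update 1 t u) -
          lh v e' G J ![x, y, 1] (Function.update 1 t u) ≤
          -Real.log (v u) + (ε * (logHeight₁ x + logHeight₁ u) + c * cnt S u + C) := by
  obtain ⟨Z, hZ, H⟩ := half_le W σ h hG
  refine ⟨Z, hZ, fun v hv ε hε => ?_⟩
  set n : ℝ := e.1 + e.2.2 + e'.2.2 + 1 with hn
  have hn0 : 0 < n := by positivity
  have hε' : 0 < ε / n := by positivity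
  obtain ⟨c, hc, H⟩ := H v hv _ hε'
  obtain ⟨C₁, h₁⟩ := ft_upper W hv (fun l : Fin 3 => Polynomial.C (X l)) hε'
  refine ⟨n * c, by positivity, fun S => ?_⟩
  obtain ⟨C, H⟩ := H S
  refine ⟨e.1 * C₁ + (e.2.2 + e'.2.2 + 1) * C, fun x y u he hx hu hu1 k1 k2 k3 => ?_⟩
  have H := H x y u he hx hu hu1
  have h₁ := h₁ x y 1 he one_ne_zero (by simp) (fun h => by simpa using congrFun h 2) 0 (by simp)
  simp only [toP_eval] at H
  simp only [Polynomial.eval₂_C, eval_X, Nat.cast_zero, zero_mul, zero_add] at h₁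
  obtain ⟨h₂, h₃⟩ := H k1 k2 k3
  have h₄ : ln (Function.update (1 : Fin 2 → K) t u) v = 0 := by
    have h5 : nm (Function.update (1 : Fin 2 → K) t u) v = 1 := by
      refine le_antisymm (nm_le fun i => ?_) ?_
      · rw [Function.update_apply]
        split_ifs
        · exact hu1
        · simp
      · refine le_of_eq_of_le ?_ (le_nm _ v (t + 1))
        rw [Function.update_of_ne (by fin_cases t <;> decide)]
        simp
    rw [ln, h5, Real.log_one]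
  have h₅ : 0 ≤ ln ![x, y, 1] v :=
    Real.log_nonneg (le_of_eq_of_le (by simp) (le_nm ![x, y, 1] v 2))
  have n₁ : (0 : ℝ) ≤ e.1 := Nat.cast_nonneg _
  have n₂ : (0 : ℝ) ≤ e.2.2 := Nat.cast_nonneg _
  have n₃ : (0 : ℝ) ≤ e'.2.2 := Nat.cast_nonneg _
  have h₆ := mul_nonneg (Nat.cast_nonneg (α := ℝ) e'.1) h₅
  have h₇ : ε * (logHeight₁ x + logHeight₁ u) = n * (ε / n * (logHeight₁ x + logHeight₁ u)) := by
    field_simp
  have h₈ := mul_nonneg n₁ (mul_nonneg hε'.le (zero_le_logHeight₁ u))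
  have h₉ := mul_nonneg n₁ (mul_nonneg hc (cnt_nonneg S u))
  have a₁ := mul_le_mul_of_nonneg_left h₁ n₁
  have a₂ := mul_le_mul_of_nonneg_left (abs_le.1 h₂).2 n₂
  have a₃ := mul_le_mul_of_nonneg_left (abs_le.1 h₂).1 n₃
  rw [lh, lh, h₄, h₇]
  simp only [ln, nm, vl] at h₆ ⊢
  rw [hn] at *
  linarith

theorem cnt_inv (S : Finset (FinitePlace K)) (u : K) : cnt S u⁻¹ = cnt S u := by
  simp only [cnt, map_inv₀, Real.log_inv, abs_neg]

theorem loc_le (W : WeierstrassCurve ℚ) [W.IsElliptic] (σ : K →+* ℂ) {ι β γ : Type} [Fintype ι]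
    [Fintype β] [Fintype γ] {G : ι → MvPolynomial (Fin 3 ⊕ Fin 2) K}
    {I : β → MvPolynomial (Fin 3 ⊕ Fin 2) K} {J : γ → MvPolynomial (Fin 3 ⊕ Fin 2) K}
    {e e' : ℕ × ℕ × ℕ} {d d' : ℕ} (hG : ∀ j, (G j).IsWeightedHomogeneous bw2 (d, d'))
    (hI : ∀ j, (I j).IsWeightedHomogeneous bw2 (e.1 + e.2.2 * d, e.2.1 + e.2.2 * d'))
    (hJ : ∀ j, (J j).IsWeightedHomogeneous bw2 (e'.1 + e'.2.2 * d, e'.2.1 + e'.2.2 * d'))
    (h : ∀ t l, IntegP W σ (fun j => toP t (G j)) (fun j => toP t (I j)) (toP t (J l)))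
    (hG' : ∀ t, ∃ j, ¬Van W ((toP t (G j)).coeff 0)) :
    ∃ Z : Set K, Z.Finite ∧ ∀ v : AbsoluteValue K ℝ, Adm v → ∀ ε : ℝ, 0 < ε → ∃ c : ℝ, 0 ≤ c ∧
      ∀ S : Finset (FinitePlace K), ∃ C : ℝ, ∀ x y u : K,
        (W.map (algebraMap ℚ K)).toAffine.Equation x y → x ∉ Z → u ≠ 0 →
        vl G ![x, y, 1] ![u, 1] ≠ 0 → vl I ![x, y, 1] ![u, 1] ≠ 0 → vl J ![x, y, 1] ![u, 1] ≠ 0 →
        lh v e G I ![x, y, 1] ![u, 1] - lh v e' G J ![x, y, 1] ![u, 1] ≤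
          |Real.log (v u)| + (ε * (logHeight₁ x + logHeight₁ u) + c * cnt S u + C) := by
  choose Z hZ H using fun t => loc_half W σ e e' t (h t) (hG' t)
  refine ⟨Z 0 ∪ Z 1, (hZ 0).union (hZ 1), fun v hv ε hε => ?_⟩
  obtain ⟨c₀, hc₀, H₀⟩ := H 0 v hv ε hε
  obtain ⟨c₁, hc₁, H₁⟩ := H 1 v hv ε hε
  refine ⟨c₀ + c₁, by positivity, fun S => ?_⟩
  obtain ⟨C₀, H₀⟩ := H₀ S
  obtain ⟨C₁, H₁⟩ := H₁ S
  refine ⟨max C₀ C₁, fun x y u he hx hu k1 k2 k3 => ?_⟩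
  have m₀ := mul_nonneg hc₀ (cnt_nonneg S u)
  have m₁ := mul_nonneg hc₁ (cnt_nonneg S u)
  rcases le_total (v u) 1 with h1 | h1
  · have e1 : Function.update (1 : Fin 2 → K) 0 u = ![u, 1] := by
      funext i
      fin_cases i <;> simp
    have := H₀ x y u he (fun h => hx (Or.inl h)) hu h1
    rw [e1] at this
    linarith [this k1 k2 k3, neg_le_abs (Real.log (v u)), le_max_left C₀ C₁]
  · have e1 : Function.update (1 : Fin 2 → K) 1 u⁻¹ = u⁻¹ • ![u, 1] := by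
      funext i
      fin_cases i <;> simp [hu]
    have e2 : (![u, 1] : Fin 2 → K) ≠ 0 := fun h => by simpa using congrFun h 1
    have hu' := inv_ne_zero hu
    have := H₁ x y u⁻¹ he (fun h => hx (Or.inr h)) hu'
      (by rw [map_inv₀]; exact inv_le_one_of_one_le₀ h1)
    rw [e1, lh_smul v hG hI e2 k1 k2 hu', lh_smul v hG hJ e2 k1 k3 hu', vl_smul hG, vl_smul hI,
      vl_smul hJ, cnt_inv, logHeight₁_inv, map_inv₀, Real.log_inv, neg_neg] at this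
    linarith [this (smul_ne_zero (pow_ne_zero _ hu') k1) (smul_ne_zero (pow_ne_zero _ hu') k2)
      (smul_ne_zero (pow_ne_zero _ hu') k3), le_abs_self (Real.log (v u)), le_max_right C₀ C₁]

theorem sum_le (W : WeierstrassCurve ℚ) [W.IsElliptic] (σ : K →+* ℂ) {ι β γ : Type} [Fintype ι]
    [Fintype β] [Fintype γ] {G : ι → MvPolynomial (Fin 3 ⊕ Fin 2) K}
    {I : β → MvPolynomial (Fin 3 ⊕ Fin 2) K} {J : γ → MvPolynomial (Fin 3 ⊕ Fin 2) K}
    {e e' : ℕ × ℕ × ℕ} {d d' : ℕ} (hG : ∀ j, (G j).IsWeightedHomogeneous bw2 (d, d'))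
    (hI : ∀ j, (I j).IsWeightedHomogeneous bw2 (e.1 + e.2.2 * d, e.2.1 + e.2.2 * d'))
    (hJ : ∀ j, (J j).IsWeightedHomogeneous bw2 (e'.1 + e'.2.2 * d, e'.2.1 + e'.2.2 * d'))
    (h : ∀ t l, IntegP W σ (fun j => toP t (G j)) (fun j => toP t (I j)) (toP t (J l)))
    (hG' : ∀ t, ∃ j, ¬Van W ((toP t (G j)).coeff 0)) :
    ∃ Z : Set K, Z.Finite ∧ ∀ (S : Finset (FinitePlace K)) (ε : ℝ), 0 < ε → ∃ c : ℝ, 0 ≤ c ∧
      ∀ T : Finset (FinitePlace K), ∃ C : ℝ, ∀ x y u : K,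
        (W.map (algebraMap ℚ K)).toAffine.Equation x y → x ∉ Z → u ≠ 0 →
        vl G ![x, y, 1] ![u, 1] ≠ 0 → vl I ![x, y, 1] ![u, 1] ≠ 0 → vl J ![x, y, 1] ![u, 1] ≠ 0 →
        ∑ w : InfinitePlace K, w.mult *
            (lh w.1 e G I ![x, y, 1] ![u, 1] - lh w.1 e' G J ![x, y, 1] ![u, 1]) +
          ∑ w ∈ S, (lh w.1 e G I ![x, y, 1] ![u, 1] - lh w.1 e' G J ![x, y, 1] ![u, 1]) ≤
          2 * logHeight₁ u + (ε * (logHeight₁ x + logHeight₁ u) + c * cnt T u + C) := by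
  obtain ⟨Z, hZ, H⟩ := loc_le W σ hG hI hJ h hG'
  refine ⟨Z, hZ, fun S ε hε => ?_⟩
  set M : ℝ := ∑ w : InfinitePlace K, (w.mult : ℝ) + S.card with hM
  have hM0 : 0 ≤ M := by positivity
  have hε' : 0 < ε / (M + 1) := by positivity
  choose c₁ hc₁ h₁ using fun w : InfinitePlace K =>
    H w.1 (Or.inl (mem_multisetInfinitePlace.2 w.isInfinitePlace)) _ hε'
  choose c₂ hc₂ h₂ using fun w : FinitePlace K => H w.1 (Or.inr w.2) _ hε'
  refine ⟨∑ w : InfinitePlace K, w.mult * c₁ w + ∑ w ∈ S, c₂ w,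
    add_nonneg (sum_nonneg fun w _ => mul_nonneg (Nat.cast_nonneg _) (hc₁ w))
      (sum_nonneg fun w _ => hc₂ w), fun T => ?_⟩
  choose C₁ h₁ using fun w => h₁ w T
  choose C₂ h₂ using fun w => h₂ w T
  refine ⟨∑ w : InfinitePlace K, w.mult * C₁ w + ∑ w ∈ S, C₂ w,
    fun x y u he hx hu k1 k2 k3 => ?_⟩
  have h3 := sum_le_sum fun (w : InfinitePlace K) (_ : w ∈ univ) =>
    mul_le_mul_of_nonneg_left (h₁ w x y u he hx hu k1 k2 k3) (Nat.cast_nonneg (α := ℝ) w.mult)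
  have h4 := sum_le_sum fun w (_ : w ∈ S) => h₂ w x y u he hx hu k1 k2 k3
  have h5 := two_height_eq S hu
  rw [Fintype.sum_sum_type] at h5
  simp only [lv, Sum.elim_inl, Sum.elim_inr, abs_mul, Nat.abs_cast] at h5
  rw [sum_coe_sort S fun v => |Real.log (v u)|] at h5
  set H₀ := logHeight₁ x + logHeight₁ u with hH₀
  simp only [mul_add, sum_add_distrib, ← sum_mul, sum_const, nsmul_eq_mul, ← mul_assoc] at h3 h4
  have h6 : ε * H₀ = (M + 1) * (ε / (M + 1)) * H₀ := by field_simp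
  have h7 := mul_nonneg hε'.le (add_nonneg (zero_le_logHeight₁ x) (zero_le_logHeight₁ u))
  have h8 : ∑ w : InfinitePlace K, w.mult * |Real.log (w u)| =
      ∑ w : InfinitePlace K, w.mult * |Real.log (w.1 u)| := rfl
  have h9 : ∑ w ∈ S, |Real.log (w u)| = ∑ w ∈ S, |Real.log (w.1 u)| := rfl
  rw [h6, hM]
  linarith [cnt_nonneg S u]

end Pool.Agent.Lib.MP_8865d3_nt.Ft
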