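import Pool.Agent.Lib.MP_8865d3_nt.GmIface
import Pool.Agent.Lib.MP_651af7_nt.MWCell

/-! Cells for the product of a group with a quadratic height and a torus. -/

namespace Pool.Agent.Lib.MP_8865d3_nt.Gm

open Pool.Agent.Lib.MP_e97e2b_nt Pool.Agent.Lib.MP_651af7_nt.Vj Height NumberField Finset
open Pool.Agent.MP_651af7_nt.MW

variable {K : Type} [Field K] [NumberField K]

lemma exists_supp {u : K} (hu : u ≠ 0) : ∃ T : Finset (FinitePlace K), ∀ v, v ∉ T → v u = 1 :=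
  ⟨(FinitePlace.hasFiniteMulSupport hu).toFinset, fun v hv => by
    by_contra h
    exact hv ((Set.Finite.mem_toFinset _).2 h)⟩

open Classical in
lemma cnt_eq (S : Finset (FinitePlace K)) {u : K} {T : Finset (FinitePlace K)}
    (hT : ∀ v, v ∉ T → v u = 1) : cnt S u = ∑ v ∈ T \ S, |Real.log (v u)| := by
  refine finsum_mem_eq_sum_of_inter_support_eq _ (Set.ext fun v => ?_)
  simp only [Set.mem_inter_iff, Set.mem_compl_iff, mem_coe, mem_sdiff, Function.mem_support]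
  refine ⟨fun h => ⟨⟨?_, h.1⟩, h.2⟩, fun h => ⟨h.1.2, h.2⟩⟩
  by_contra h1
  simp [hT v h1] at h

lemma cnt_nonneg (S : Finset (FinitePlace K)) (u : K) : 0 ≤ cnt S u :=
  finsum_nonneg fun _ => finsum_nonneg fun _ => abs_nonneg _

lemma cnt_div_pow_le (S : Finset (FinitePlace K)) {u u' : K} (hu : u ≠ 0) (hu' : u' ≠ 0) (n : ℕ) :
    cnt S (u' / u ^ n) ≤ cnt S u' + n * cnt S u := by
  classical
  obtain ⟨T, hT⟩ := exists_supp hu
  obtain ⟨T', hT'⟩ := exists_supp hu'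
  have h1 : ∀ v, v ∉ T ∪ T' → v u = 1 := fun v hv => hT v fun h => hv (mem_union_left _ h)
  have h2 : ∀ v, v ∉ T ∪ T' → v u' = 1 := fun v hv => hT' v fun h => hv (mem_union_right _ h)
  rw [cnt_eq S h1, cnt_eq S h2, cnt_eq S (T := T ∪ T') fun v hv => by
    rw [map_div₀, map_pow, h1 v hv, h2 v hv]; simp, mul_sum, ← sum_add_distrib]
  refine sum_le_sum fun v _ => ?_
  rw [map_div₀, map_pow, Real.log_div (FinitePlace.pos_iff.2 hu').ne'
    (pow_pos (FinitePlace.pos_iff.2 hu) n).ne', Real.log_pow]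
  refine (abs_sub _ _).trans (le_of_eq ?_)
  rw [abs_mul, Nat.abs_cast]

/-- The logarithmic embedding at the infinite places and at the places of `S`. -/
noncomputable def lv (S : Finset (FinitePlace K)) (u : K) : InfinitePlace K ⊕ S → ℝ :=
  Sum.elim (fun w => w.mult * Real.log (w u)) fun v => Real.log (v.1 u)

lemma lv_div_pow (S : Finset (FinitePlace K)) {u u' : K} (hu : u ≠ 0) (hu' : u' ≠ 0) (n : ℕ) :
    lv S (u' / u ^ n) = lv S u' - (n : ℝ) • lv S u := by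
  funext w
  rcases w with w | v
  · simp only [lv, Sum.elim_inl, Pi.sub_apply, Pi.smul_apply, smul_eq_mul]
    rw [map_div₀, map_pow, Real.log_div (InfinitePlace.pos_iff.2 hu').ne'
      (pow_pos (InfinitePlace.pos_iff.2 hu) n).ne', Real.log_pow]
    ring
  · simp only [lv, Sum.elim_inr, Pi.sub_apply, Pi.smul_apply, smul_eq_mul]
    rw [map_div₀, map_pow, Real.log_div (FinitePlace.pos_iff.2 hu').ne'
      (pow_pos (FinitePlace.pos_iff.2 hu) n).ne', Real.log_pow]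

lemma two_height_eq (S : Finset (FinitePlace K)) {u : K} (hu : u ≠ 0) :
    2 * logHeight₁ u = ∑ w, |lv S u w| + cnt S u := by
  classical
  obtain ⟨T, hT⟩ := exists_supp hu
  have h1 : ∀ v, v ∉ T ∪ S → v u = 1 := fun v hv => hT v fun h => hv (mem_union_left _ h)
  have h2 : ∀ t : ℝ, t.posLog + t⁻¹.posLog = |Real.log t| := fun t => by
    simp only [Real.posLog, Real.log_inv]
    rcases le_total 0 (Real.log t) with h | h
    · rw [max_eq_right h, max_eq_left (by linarith), abs_of_nonneg h, add_zero]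
    · rw [max_eq_left h, max_eq_right (by linarith), abs_of_nonpos h, zero_add]
  have h3 : ∀ x : K, (∀ v, v ∉ T ∪ S → v x = 1) →
      ∑ᶠ v : FinitePlace K, (v x).posLog = ∑ v ∈ T ∪ S, (v x).posLog := fun x hx =>
    finsum_eq_sum_of_support_subset _ fun v hv => by
      by_contra h
      exact hv (by simp [hx v h])
  rw [two_mul]
  nth_rewrite 2 [← logHeight₁_inv u]
  rw [NumberField.logHeight₁_eq, NumberField.logHeight₁_eq, h3 u h1, h3 u⁻¹ fun v hv => by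
    rw [map_inv₀, h1 v hv, inv_one], cnt_eq S h1, Fintype.sum_sum_type]
  simp only [lv, Sum.elim_inl, Sum.elim_inr, map_inv₀, abs_mul, Nat.abs_cast, ← h2, mul_add,
    sum_add_distrib]
  rw [sum_coe_sort S fun v => (v u).posLog, sum_coe_sort S fun v => (v u)⁻¹.posLog,
    ← sum_sdiff (subset_union_right (s₁ := T) (s₂ := S)),
    ← sum_sdiff (subset_union_right (s₁ := T) (s₂ := S)) (f := fun v => (v u)⁻¹.posLog)]
  ring

theorem cellsG_abs {G V : Type*} [AddCommGroup G] [NormedAddCommGroup V] [NormedSpace ℝ V]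
    [FiniteDimensional ℝ V] (φ : G →+ V) (h : G → ℝ) (h0 : ∀ X, 0 ≤ h X) (C : ℝ)
    (H : ∀ X, |‖φ X‖ ^ 2 - h X| ≤ C) {θ : ℝ} (hθ : 0 < θ) (S : Finset (FinitePlace K)) :
    ∃ (n : ℕ) (cell : G × Kˣ → Fin n) (H₀ : ℝ), ∀ X Y, cell X = cell Y →
      cnt S (X.2 : K) ≤ θ / 4 * (h X.1 + logHeight₁ (X.2 : K)) →
      cnt S (Y.2 : K) ≤ θ / 4 * (h Y.1 + logHeight₁ (Y.2 : K)) →
      H₀ ≤ h X.1 + logHeight₁ (X.2 : K) →
      8 * (h X.1 + logHeight₁ (X.2 : K)) ≤ h Y.1 + logHeight₁ (Y.2 : K) →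
      ∃ j : ℕ, h (Y.1 - 2 ^ j • X.1) + logHeight₁ ((Y.2 : K) / (X.2 : K) ^ 4 ^ j) ≤
          θ * (h Y.1 + logHeight₁ (Y.2 : K)) ∧
        h Y.1 + logHeight₁ (Y.2 : K) ≤ 2 * (4 ^ j * (h X.1 + logHeight₁ (X.2 : K))) ∧
        4 ^ j * (h X.1 + logHeight₁ (X.2 : K)) ≤ 2 * (h Y.1 + logHeight₁ (Y.2 : K)) := by
  have := FiniteDimensional.proper_real V
  have C0 : 0 ≤ C := (abs_nonneg _).trans (H 0)
  set N : ℝ := ((Fintype.card (InfinitePlace K ⊕ S) : ℕ) : ℝ) with hN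
  have N0 : 0 ≤ N := Nat.cast_nonneg _
  set δ := min (1 / 8) (θ / (16 * (N + 1))) with hδ
  have δ0 : 0 < δ := lt_min (by norm_num) (by positivity)
  have δ1 : δ ≤ 1 / 8 := min_le_left _ _
  have δ2 : δ * (16 * (N + 1)) ≤ θ := (le_div_iff₀ (by positivity)).1 (min_le_right _ _)
  obtain ⟨n, c, hc⟩ := exists_ball_cells (V × (InfinitePlace K ⊕ S → ℝ) × ℝ) δ0
  set T : G × Kˣ → ℝ := fun X => h X.1 + logHeight₁ (X.2 : K) with hT
  choose k hk₁ hk₂ using fun X : G × Kˣ => exists_pow_four (T X)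
  let w : G × Kˣ → V × (InfinitePlace K ⊕ S → ℝ) × ℝ := fun X =>
    ((4 * (2 : ℝ) ^ k X)⁻¹ • φ X.1, (4 * (4 : ℝ) ^ k X)⁻¹ • lv S (X.2 : K),
      (4 * (4 : ℝ) ^ k X)⁻¹ * T X)
  have e4 : ∀ j : ℕ, ((2 : ℝ) ^ j) ^ 2 = 4 ^ j := fun j => by
    rw [← pow_mul, mul_comm, pow_mul]; norm_num
  have nb : ∀ X, C + 1 ≤ T X → ‖w X‖ ≤ 2 := fun X hX => by
    have p2 : (0 : ℝ) < 4 * 2 ^ k X := by positivity
    have p4 : (0 : ℝ) < 4 * 4 ^ k X := by positivity
    have q1 := zero_le_logHeight₁ (X.2 : K)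
    have q2 := h0 X.1
    have q3 := hk₂ X
    refine max_le ?_ (max_le ?_ ?_)
    · rw [norm_smul, norm_inv, Real.norm_of_nonneg p2.le, inv_mul_le_iff₀ p2]
      refine le_of_sq_le_sq ?_ (by positivity)
      rw [mul_pow, mul_pow, e4]
      simp only [hT] at hX q3
      linarith [(abs_le.1 (H X.1)).2]
    · rw [norm_smul, norm_inv, Real.norm_of_nonneg p4.le, inv_mul_le_iff₀ p4]
      refine (pi_norm_le_iff_of_nonneg (by positivity)).2 fun i => ?_
      have q4 := single_le_sum (f := fun i => |lv S (X.2 : K) i|) (fun _ _ => abs_nonneg _)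
        (mem_univ i)
      have q5 := two_height_eq S X.2.ne_zero
      simp only [hT] at q3
      rw [Real.norm_eq_abs]
      linarith [cnt_nonneg S (X.2 : K)]
    · rw [norm_mul, norm_inv, Real.norm_of_nonneg p4.le, inv_mul_le_iff₀ p4,
        Real.norm_of_nonneg (by linarith)]
      linarith
  refine ⟨n, fun X => c (w X), C + 1 + 8 * C / θ, fun X Y hXY cX cY hX hY => ?_⟩
  change C + 1 + 8 * C / θ ≤ T X at hX
  change 8 * T X ≤ T Y at hY
  change _ ≤ θ / 4 * T X at cX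
  change _ ≤ θ / 4 * T Y at cY
  change ∃ j : ℕ, _ ≤ θ * T Y ∧ T Y ≤ 2 * (4 ^ j * T X) ∧ 4 ^ j * T X ≤ 2 * T Y
  have q0 : 0 ≤ 8 * C / θ := by positivity
  have kX : (4 : ℝ) ^ k X ≤ T X := (hk₁ X).trans (max_le le_rfl (by linarith))
  have kY : (4 : ℝ) ^ k Y ≤ T Y := (hk₁ Y).trans (max_le le_rfl (by linarith))
  obtain ⟨j, hj⟩ : ∃ j, k Y = k X + j := by
    refine Nat.exists_eq_add_of_le (le_of_not_gt fun hlt => ?_)
    have h1 : (4 : ℝ) ^ (k Y + 1) ≤ 4 ^ k X := pow_le_pow_right₀ (by norm_num) hlt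
    rw [pow_succ] at h1
    linarith [hk₂ Y]
  have hd := hc _ _ (nb Y (by linarith)) (nb X (by linarith)) hXY.symm
  have p2 : (0 : ℝ) < 4 * 2 ^ k Y := by positivity
  have p4 : (0 : ℝ) < 4 * 4 ^ k Y := by positivity
  have d1 : ‖φ (Y.1 - 2 ^ j • X.1)‖ ≤ 4 * 2 ^ k Y * δ := by
    have e : φ (Y.1 - 2 ^ j • X.1) = (4 * (2 : ℝ) ^ k Y) • (w Y - w X).1 := by
      rw [map_sub, map_nsmul, ← Nat.cast_smul_eq_nsmul ℝ, Prod.fst_sub, smul_sub, smul_smul,
        smul_smul, mul_inv_cancel₀ p2.ne', one_smul, hj, pow_add]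
      congr 2
      push_cast
      field_simp
    rw [e, norm_smul, Real.norm_of_nonneg p2.le]
    exact mul_le_mul_of_nonneg_left ((norm_fst_le _).trans hd) p2.le
  have d2 : ‖lv S ((Y.2 : K) / (X.2 : K) ^ 4 ^ j)‖ ≤ 4 * 4 ^ k Y * δ := by
    have e : lv S ((Y.2 : K) / (X.2 : K) ^ 4 ^ j) = (4 * (4 : ℝ) ^ k Y) • (w Y - w X).2.1 := by
      rw [lv_div_pow S X.2.ne_zero Y.2.ne_zero, Prod.snd_sub, Prod.fst_sub, smul_sub, smul_smul,
        smul_smul, mul_inv_cancel₀ p4.ne', one_smul, hj, pow_add]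
      congr 2
      push_cast
      field_simp
    rw [e, norm_smul, Real.norm_of_nonneg p4.le]
    exact mul_le_mul_of_nonneg_left ((norm_fst_le _).trans ((norm_snd_le _).trans hd)) p4.le
  have d3 : |T Y - 4 ^ j * T X| ≤ 4 * 4 ^ k Y * δ := by
    have e : T Y - 4 ^ j * T X = 4 * (4 : ℝ) ^ k Y * (w Y - w X).2.2 := by
      simp only [w, Prod.snd_sub]
      rw [hj, pow_add]
      field_simp
    rw [e, abs_mul, abs_of_pos p4]
    exact mul_le_mul_of_nonneg_left ((norm_snd_le _).trans ((norm_snd_le _).trans hd)) p4.le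
  have TY : 0 ≤ T Y := by linarith
  have r1 := mul_le_mul_of_nonneg_right kY δ0.le
  have r2 := mul_le_mul_of_nonneg_left δ1 TY
  have r3 := mul_le_mul_of_nonneg_left δ2 TY
  have r4 := abs_le.1 d3
  refine ⟨j, ?_, by linarith [r4.2], by linarith [r4.1]⟩
  have s1 := pow_le_pow_left₀ (norm_nonneg _) d1 2
  rw [mul_pow, mul_pow, e4] at s1
  have s2 := (abs_le.1 (H (Y.1 - 2 ^ j • X.1))).1
  have s3 := two_height_eq S (div_ne_zero Y.2.ne_zero (pow_ne_zero (4 ^ j) X.2.ne_zero))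
  have s4 : ∑ i, |lv S ((Y.2 : K) / (X.2 : K) ^ 4 ^ j) i| ≤ N * (4 * 4 ^ k Y * δ) := by
    refine (sum_le_card_nsmul _ _ (4 * 4 ^ k Y * δ) fun i _ => ?_).trans (by simp [hN])
    exact (norm_le_pi_norm (lv S ((Y.2 : K) / (X.2 : K) ^ 4 ^ j)) i).trans d2
  have s5 := cnt_div_pow_le S X.2.ne_zero Y.2.ne_zero (4 ^ j)
  have s6 := mul_le_mul_of_nonneg_left cX (by positivity : (0 : ℝ) ≤ 4 ^ j)
  have s7 := mul_le_mul_of_nonneg_left (show 4 ^ j * T X ≤ 2 * T Y by linarith [r4.1]) hθ.le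
  have s8 : 8 * C ≤ θ * T Y := by
    have : 8 * C / θ ≤ T Y := by linarith
    rwa [div_le_iff₀' hθ] at this
  have s9 := mul_le_mul_of_nonneg_left r1 N0
  have s10 := mul_le_mul_of_nonneg_left δ1 (by positivity : (0 : ℝ) ≤ 4 ^ k Y * δ)
  have s11 := mul_nonneg N0 (mul_nonneg TY δ0.le)
  push_cast at s5
  linarith

theorem cellsG {A B : K} (hD : 4 * A ^ 3 + 27 * B ^ 2 ≠ 0) (θ : ℝ) (hθ : 0 < θ) :
    ∃ δ : ℝ, 0 < δ ∧ ∀ S : Finset (FinitePlace K),
      ∃ (n : ℕ) (cell : Pt A B × Kˣ → Fin n) (H₀ : ℝ), ∀ X Y, cell X = cell Y →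
        cnt S (X.2 : K) ≤ δ * HG X → cnt S (Y.2 : K) ≤ δ * HG Y → H₀ ≤ HG X → 8 * HG X ≤ HG Y →
        ∃ j, CloseG θ j X Y := by
  obtain ⟨r, φ, C, hC⟩ := ht_euclid hD
  exact ⟨θ / 4, by positivity, fun S => cellsG_abs φ ht ht_nonneg C hC hθ S⟩

end Pool.Agent.Lib.MP_8865d3_nt.Gm
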