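import Pool.Agent.Lib.MP_8865d3_nt.FtEng
import Pool.Agent.Lib.MP_8865d3_nt.FaT1
import Pool.Agent.Lib.MP_8865d3_nt.GmCells

/-! Points close to a small divisor are special. -/

namespace Pool.Agent.Lib.MP_8865d3_nt.Ft

open MvPolynomial Finset Height Pool.Agent.Lib.Common.Subspace Pool.Agent.Lib.MP_e97e2b_nt
  Pool.Agent.Lib.MP_651af7_nt.Iv Pool.Agent.Lib.MP_651af7_nt.Vj Pool.Agent.Lib.MP_8865d3_nt.Fa

open NumberField Pool.Agent.Lib.MP_8865d3_nt.Gm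

variable {K κ : Type} [Field K] [NumberField K] [Fintype κ]

/-- `cellsG_abs` (`GmCells`) with the map `ψ` of the proof of `cells_pi` (`FaT1`). -/
theorem cells_piT (a b : κ → ℤ) (hD : ∀ k, 4 * a k ^ 3 + 27 * b k ^ 2 ≠ 0) {θ : ℝ} (hθ : 0 < θ)
    (S : Finset (FinitePlace K)) :
    ∃ (n : ℕ) (cell : PtT K a b → Fin n) (H₀ : ℝ), ∀ X Y, cell X = cell Y →
      cnt S (X.2 : K) ≤ θ / 4 * HT X → cnt S (Y.2 : K) ≤ θ / 4 * HT Y → H₀ ≤ HT X →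
      8 * HT X ≤ HT Y → ∃ j, ClsT θ j X Y := by
  have hD' : ∀ k, 4 * (a k : K) ^ 3 + 27 * (b k : K) ^ 2 ≠ 0 := fun k => by
    exact_mod_cast hD k
  choose r φ C hC using fun k => ht_euclid (hD' k)
  let ψ : Pts K a b →+ PiLp 2 (fun k => EuclideanSpace ℝ (Fin (r k))) :=
    AddMonoidHom.mk' (fun X => WithLp.toLp 2 (fun k => φ k (X k))) fun X Y => by
      rw [← WithLp.toLp_add]
      congr 1
      funext k
      simp
  refine cellsG_abs ψ HS HS_nonneg (∑ k, C k) (fun X => ?_) hθ S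
  have e : ‖ψ X‖ ^ 2 = ∑ k, ‖φ k (X k)‖ ^ 2 := PiLp.norm_sq_eq_of_L2 _ _
  rw [e, HS, ← Finset.sum_sub_distrib]
  exact (Finset.abs_sum_le_sum_abs _ _).trans (Finset.sum_le_sum fun k _ => hC k (X k))

/-- As `nonspecial` (`FaT1`) with `engineT`, `cells_piT`; `δ` is the minimum of the `δ` of the engine and
`θ / 4`; the conditions on `cnt` and on `v X.2` are part of the set in which the chain is chosen. -/
theorem nonspecialT (a b : κ → ℤ) (hD : ∀ k, 4 * a k ^ 3 + 27 * b k ^ 2 ≠ 0)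
    {v : AbsoluteValue K ℝ} (hv : Adm v) {η : ℝ} (hη : 0 < η) (B : ℕ) :
    ∃ (D : ℕ) (ζ : ℝ), 0 < ζ ∧ ∀ ε : ℝ, 0 < ε → ∃ δ : ℝ, 0 < δ ∧ ∀ S : Finset (FinitePlace K),
      ∃ H₀ : ℝ, ∀ (X : PtT K a b) (R : MvPolynomial (Option κ) ℚ), H₀ ≤ HT X →
        cnt S (X.2 : K) ≤ δ * HT X → |Real.log (v (X.2 : K))| ≤ ζ * HT X →
        Small B (δ * HT X) R → Near v B (η * HT X) (xt X) R → SpecT D ε X := by
  obtain ⟨m, D, θ, lam, ζ, hθ, hζ, h₁⟩ := engineT a b hD hv hη B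
  refine ⟨D, ζ, hζ, fun ε hε => ?_⟩
  obtain ⟨δ, H₁, hδ, h₁⟩ := h₁ ε hε
  refine ⟨min δ (θ / 4), lt_min hδ (by positivity), fun S => ?_⟩
  obtain ⟨n, cell, H₀, hc⟩ := cells_piT (K := K) a b hD hθ S
  have c₁ : ∀ c, ∃ t : ℝ, ∀ Y : PtT K a b, cell Y = c →
      (∃ R, Small B (δ * HT Y) R ∧ Near v B (η * HT Y) (xt Y) R) →
      (cnt S (Y.2 : K) ≤ θ / 4 * HT Y ∧ |Real.log (v (Y.2 : K))| ≤ ζ * HT Y) →
      ¬SpecT D ε Y → HT Y < t := by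
    intro c
    by_contra hcon
    push Not at hcon
    obtain ⟨s, s₁, s₂, s₃⟩ := exists_chain HT HT_nonneg
      {Y : PtT K a b | cell Y = c ∧
        (∃ R, Small B (δ * HT Y) R ∧ Near v B (η * HT Y) (xt Y) R) ∧
        (cnt S (Y.2 : K) ≤ θ / 4 * HT Y ∧ |Real.log (v (Y.2 : K))| ≤ ζ * HT Y) ∧ ¬SpecT D ε Y}
      (fun t => by
        obtain ⟨Y, a₁, a₂, a₃, a₄, a₅⟩ := hcon t
        exact ⟨Y, ⟨a₁, a₂, a₃, a₄⟩, a₅⟩) (max H₀ H₁) (max lam 8)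
      (le_max_of_le_right (by norm_num))
    have l₁ : ∀ i i', i < i' → lam * HT (s i) ≤ HT (s i') := fun i i' hi =>
      (mul_le_mul_of_nonneg_right (le_max_left _ _) (HT_nonneg _)).trans (s₃ i i' hi)
    have l₂ : ∀ i : Fin m, ∃ j, ClsT θ j (s 0) (s (i + 1)) := fun i =>
      hc _ _ ((s₁ 0).1.trans (s₁ (i + 1)).1.symm) (s₁ 0).2.2.1.1 (s₁ (i + 1)).2.2.1.1
        ((le_max_left _ _).trans (s₂ 0))
        ((mul_le_mul_of_nonneg_right (le_max_right _ _) (HT_nonneg _)).trans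
          (s₃ 0 (i + 1) (Nat.succ_pos _)))
    choose j hj using l₂
    choose R hR₁ hR₂ using fun i : ℕ => (s₁ i).2.1
    rcases h₁ (s 0) (fun i => s (i + 1)) j (fun i => R (i + 1)) ((le_max_right _ _).trans (s₂ 0))
      (fun i => l₁ 0 (i + 1) (Nat.succ_pos _))
      (fun i i' hi => l₁ (i + 1) (i' + 1) (Nat.succ_lt_succ hi)) hj
      (s₁ 0).2.2.1.2 (fun i => (s₁ (i + 1)).2.2.1.2)
      (fun i => hR₁ (i + 1)) (fun i => hR₂ (i + 1)) with hi | ⟨i, hi⟩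
    · exact (s₁ 0).2.2.2 hi
    · exact (s₁ (i + 1)).2.2.2 hi
  choose t ht using c₁
  refine ⟨∑ c, |t c|, fun X R hX h₂ h₃ h₄ h₅ => ?_⟩
  by_contra hs
  have p : |t (cell X)| ≤ ∑ c, |t c| :=
    Finset.single_le_sum (f := fun c => |t c|) (fun c _ => abs_nonneg _) (Finset.mem_univ _)
  have := ht _ X rfl
    ⟨R, h₄.mono le_rfl (mul_le_mul_of_nonneg_right (min_le_left _ _) (HT_nonneg X)), h₅⟩
    ⟨h₂.trans (mul_le_mul_of_nonneg_right (min_le_right _ _) (HT_nonneg X)), h₃⟩ hs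
  linarith [le_abs_self (t (cell X))]

end Pool.Agent.Lib.MP_8865d3_nt.Ft
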