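import Pool.Agent.Lib.MP_8865d3_nt.FtT1
import Pool.Agent.Lib.MP_8865d3_nt.FaT3

/-! The approximation theorem for moving targets, with a torus factor. -/

namespace Pool.Agent.Lib.MP_8865d3_nt.Ft

open MvPolynomial Finset Height Pool.Agent.Lib.Common.Subspace Pool.Agent.Lib.MP_e97e2b_nt
  Pool.Agent.Lib.MP_651af7_nt.Iv Pool.Agent.Lib.MP_651af7_nt.Vj Pool.Agent.Lib.MP_8865d3_nt.Fa

open NumberField Pool.Agent.Lib.MP_8865d3_nt.Gm

variable {K : Type} [Field K] [NumberField K]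

private theorem u3_liou {v : AbsoluteValue K ℝ} (hv : Adm v) {κ : Type} [Fintype κ] {a b : κ → ℤ}
    (X : PtT K a b) {B : ℕ} {c : ℝ} (hc : 0 ≤ c) {R : MvPolynomial (Option κ) ℚ}
    (hR : Small B c R) (h : aeval (xt X) R ≠ 0) :
    Real.exp (-(totalWeight K * c + B * HT X)) ≤ v (aeval (xt X) R) := by
  refine le_trans (Real.exp_le_exp.2 (neg_le_neg ?_)) (liouville hv h)
  have h1 := height_aeval_le (Real.one_le_exp hc) hR.il (fun _ => B) hR.deg (xt X)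
  rw [Real.log_exp, ← Finset.mul_sum, ← HT_eq] at h1
  exact h1

private theorem u3_len {x y M : ℝ} (hy : 0 ≤ y) (B D : ℕ) (h : B * x + D * (y + 1) ≤ M) :
    Real.exp x ^ B * (Real.exp y + 1) ^ D ≤ Real.exp M := by
  have h1 : Real.exp y + 1 ≤ Real.exp (y + 1) := by
    have h2 : 1 ≤ Real.exp y := Real.one_le_exp hy
    have h3 : 1 + 1 ≤ Real.exp 1 := Real.add_one_le_exp 1
    rw [Real.exp_add]
    nlinarith
  calc Real.exp x ^ B * (Real.exp y + 1) ^ D ≤ Real.exp x ^ B * Real.exp (y + 1) ^ D := by gcongr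
    _ = Real.exp (B * x + D * (y + 1)) := by
        rw [← Real.exp_nat_mul, ← Real.exp_nat_mul, ← Real.exp_add]
    _ ≤ Real.exp M := Real.exp_le_exp.2 h

private theorem u3_prod {κ : Type} [Fintype κ] (f : κ → ℝ) (E : ℕ) :
    ∏ s, max (f s) 1 ^ E = Real.exp (E * ∑ s, Real.log (max (f s) 1)) := by
  rw [Finset.mul_sum, Real.exp_sum]
  refine Finset.prod_congr rfl fun s _ => ?_
  rw [Real.exp_nat_mul, Real.exp_log (lt_of_lt_of_le one_pos (le_max_right _ _))]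

private theorem u3_div {η : ℝ} (hη : 0 < η) {x : ℝ} (hx : 0 ≤ x) :
    ∃ δ : ℝ, 0 < δ ∧ x * δ ≤ η := by
  refine ⟨η / (x + 1), by positivity, ?_⟩
  rw [← mul_div_assoc, div_le_iff₀ (by positivity)]
  nlinarith

private theorem u3_log (x : ℝ) : Real.log (max x 1) ≤ |Real.log x| := by
  rcases le_total x 1 with h | h
  · rw [max_eq_right h, Real.log_one]
    exact abs_nonneg _
  · rw [max_eq_left h]
    exact le_abs_self _

private theorem u3_none {v : AbsoluteValue K ℝ} (hv : Adm v) {κ : Type} [Fintype κ] (a b : κ → ℤ)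
    (hD : ∀ k, 4 * a k ^ 3 + 27 * b k ^ 2 ≠ 0) {η : ℝ} (hη : 0 < η) (B : ℕ) :
    ∃ δ H₀ : ℝ, 0 < δ ∧ ∀ (H : ℝ) (X : PtT K a b) (N : MvPolynomial (Option κ) ℚ), H₀ ≤ H →
      HT X ≤ H → Small B (δ * H) N → (∀ μ ∈ N.support, μ none = 0) → aeval (xt X) N ≠ 0 →
      Real.exp (-(η * H)) ≤ v (aeval (xt X) N) := by
  obtain ⟨δ, H₀, hδ, h⟩ := fa_moving hv _ κ rfl a b hD η hη B
  refine ⟨δ, H₀, hδ, fun H X N hH hX hN h0 h1 => ?_⟩
  obtain ⟨N', hN', rfl⟩ := exists_rename_small (e := (some : κ → Option κ))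
    (Option.some_injective κ) hN (fun μ hμ s hs => by
      cases s with
      | none => exact h0 μ hμ
      | some k => exact absurd ⟨k, rfl⟩ hs)
  rw [aeval_rename] at h1 ⊢
  exact h H X.1 N' hH ((HS_le_HT X).trans hX) hN' h1

private theorem u3_some {v : AbsoluteValue K ℝ} {κ : Type} [Fintype κ] [DecidableEq κ]
    {a b : κ → ℤ} (t : κ) {η δ ζ H₀ : ℝ} {B : ℕ} {S : Finset (FinitePlace K)}
    (h : ∀ (H : ℝ) (X : PtT K (fun k : {k // k ≠ t} => a k) (fun k => b k))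
      (R : MvPolynomial (Option {k // k ≠ t}) ℚ), H₀ ≤ H → HT X ≤ H →
        cnt S (X.2 : K) ≤ δ * H → |Real.log (v (X.2 : K))| ≤ ζ * H → Small B (δ * H) R →
        aeval (xt X) R ≠ 0 → Real.exp (-(η * H)) ≤ v (aeval (xt X) R))
    (H : ℝ) (X : PtT K a b) (N : MvPolynomial (Option κ) ℚ) (hH : H₀ ≤ H) (hX : HT X ≤ H)
    (h2 : cnt S (X.2 : K) ≤ δ * H) (h3 : |Real.log (v (X.2 : K))| ≤ ζ * H)
    (hN : Small B (δ * H) N) (h0 : ∀ μ ∈ N.support, μ (some t) = 0) (h1 : aeval (xt X) N ≠ 0) :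
    Real.exp (-(η * H)) ≤ v (aeval (xt X) N) := by
  obtain ⟨N', hN', rfl⟩ := exists_rename_small
    (e := (Option.map Subtype.val : Option {k // k ≠ t} → Option κ))
    (Option.map_injective Subtype.val_injective) hN (fun μ hμ s hs => by
      cases s with
      | none => exact absurd ⟨none, rfl⟩ hs
      | some k =>
        have : k = t := by
          by_contra hst
          exact hs ⟨some ⟨k, hst⟩, rfl⟩
        rw [this]
        exact h0 μ hμ)
  let Y : PtT K (fun k : {k // k ≠ t} => a k) (fun k => b k) := (fun k => X.1 k, X.2)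
  have hY : xt X ∘ (Option.map Subtype.val : Option {k // k ≠ t} → Option κ) = xt Y := by
    funext s
    cases s <;> rfl
  have k7 : HT Y ≤ H := by
    refine le_trans ?_ hX
    unfold HT HS
    refine add_le_add ?_ le_rfl
    rw [← Finset.sum_subtype (univ.filter (· ≠ t)) (by simp) (fun k => ht (X.1 k))]
    exact Finset.sum_le_sum_of_subset_of_nonneg (Finset.filter_subset _ _)
      fun _ _ _ => ht_nonneg _
  rw [aeval_rename, hY] at h1 ⊢
  exact h H Y N' hH k7 h2 h3 hN' h1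

/-- As `fa_moving` (`FaT3`; copy its private lemmas, `HT_eq`), by strong induction on `n` with no
separate base case.  Suppose `v γ < exp (- η H)`.  Liouville gives `η H ≤ 2 (B + 1) * HT X`, so the
conditions relative to `H` give those of `nonspecialT` relative to `HT X` when `δ`, `ζ` are small.
`exists_good_rel` gives `φ, t` with `t : Option κ`, `elim_small` gives `N` free of `t`; the factor
`∏ s, max (v (xt X s)) 1 ^ (D B + B D)` is bounded by `siegel_pi` and `log (max (v u) 1) ≤ ζ H`.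
If `t = none`, `exists_rename_small` with `some` and `fa_moving`.  If `t = some k`,
`exists_rename_small` with `Option.map Subtype.val : Option {k' // k' ≠ k} → Option κ` and the induction
hypothesis (take common constants for the finitely many `t : Option κ`, a nonempty type). -/
theorem ft_moving {v : AbsoluteValue K ℝ} (hv : Adm v) (n : ℕ) :
    ∀ (κ : Type) [Fintype κ], Fintype.card κ = n → ∀ a b : κ → ℤ,
      (∀ k, 4 * a k ^ 3 + 27 * b k ^ 2 ≠ 0) → ∀ η : ℝ, 0 < η → ∀ B : ℕ, ∃ δ ζ : ℝ, 0 < δ ∧ 0 < ζ ∧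
      ∀ S : Finset (FinitePlace K), ∃ H₀ : ℝ,
      ∀ (H : ℝ) (X : PtT K a b) (R : MvPolynomial (Option κ) ℚ), H₀ ≤ H → HT X ≤ H →
        cnt S (X.2 : K) ≤ δ * H → |Real.log (v (X.2 : K))| ≤ ζ * H → Small B (δ * H) R →
        aeval (xt X) R ≠ 0 → Real.exp (-(η * H)) ≤ v (aeval (xt X) R) := by
  induction n using Nat.strong_induction_on with
  | _ n ih =>
  intro κ _ hκ a b hD η hη B
  classical
  obtain ⟨D, ζ₁, hζ₁, hns⟩ := nonspecialT a b hD hv hη B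
  have hI : ∀ t : Option κ, ∃ δ ζ : ℝ, 0 < δ ∧ 0 < ζ ∧ ∀ S : Finset (FinitePlace K), ∃ H₀ : ℝ,
      ∀ (H : ℝ) (X : PtT K a b) (N : MvPolynomial (Option κ) ℚ), H₀ ≤ H → HT X ≤ H →
        cnt S (X.2 : K) ≤ δ * H → |Real.log (v (X.2 : K))| ≤ ζ * H →
        Small (D * B + B * D) (δ * H) N → (∀ μ ∈ N.support, μ t = 0) → aeval (xt X) N ≠ 0 →
        Real.exp (-(η / 3 * H)) ≤ v (aeval (xt X) N) := by
    intro t
    cases t with
    | none =>
      obtain ⟨δ, H₀, hδ, h⟩ := u3_none hv a b hD (η := η / 3) (by positivity) (D * B + B * D)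
      exact ⟨δ, 1, hδ, one_pos, fun _ => ⟨H₀, fun H X N h1 h2 _ _ h3 h4 h5 =>
        h H X N h1 h2 h3 h4 h5⟩⟩
    | some t =>
      obtain ⟨δ, ζ, hδ, hζ, h⟩ := ih _ (hκ ▸ Fintype.card_subtype_lt (x := t) (by simp))
        {k // k ≠ t} rfl (fun k => a k) (fun k => b k) (fun k => hD k) (η / 3) (by positivity)
        (D * B + B * D)
      refine ⟨δ, ζ, hδ, hζ, fun S => ?_⟩
      obtain ⟨H₀, h'⟩ := h S
      exact ⟨H₀, u3_some t h'⟩
  choose δf ζf hδf hζf Hf hf using hI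
  obtain ⟨t₁, ht₁⟩ := Finite.exists_min δf
  obtain ⟨t₃, ht₃⟩ := Finite.exists_min ζf
  obtain ⟨m, hm, hm1, hm2⟩ : ∃ m : ℝ, 0 < m ∧ m ≤ δf t₁ ∧ m ≤ η / 6 :=
    ⟨min (δf t₁) (η / 6), lt_min (hδf t₁) (by positivity), min_le_left _ _, min_le_right _ _⟩
  obtain ⟨ε, hε, hε1⟩ := u3_div (η := m / 3) (by positivity) (Nat.cast_nonneg B)
  obtain ⟨δ₂, hδ₂, hsp'⟩ := hns ε hε
  obtain ⟨η', hη', hη1⟩ := u3_div (η := η / 12) (by positivity) (Nat.cast_nonneg (D * B + B * D))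
  obtain ⟨C, hC⟩ := siegel_pi a b hD hv hη'
  obtain ⟨δa, hδa, ha⟩ := u3_div (η := η / 2) (by positivity) (Nat.cast_nonneg (totalWeight K))
  obtain ⟨δb, hδb, hb⟩ := u3_div (η := δ₂ * η) (by positivity)
    (x := 2 * ((B : ℝ) + 1)) (by positivity)
  obtain ⟨δc, hδc, hc⟩ := u3_div (η := m / 3) (by positivity) (Nat.cast_nonneg D)
  obtain ⟨δ, hδ, hδ1, hδ2, hδ3, hδ4⟩ : ∃ δ : ℝ, 0 < δ ∧ totalWeight K * δ ≤ η / 2 ∧
      2 * ((B : ℝ) + 1) * δ ≤ δ₂ * η ∧ D * δ ≤ m / 3 ∧ δ ≤ m := by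
    refine ⟨min (min δa m) (min δb δc), lt_min (lt_min hδa hm) (lt_min hδb hδc), ?_, ?_, ?_,
      (min_le_left _ _).trans (min_le_right _ _)⟩
    · exact le_trans (mul_le_mul_of_nonneg_left ((min_le_left _ _).trans (min_le_left _ _))
        (by positivity)) ha
    · exact le_trans (mul_le_mul_of_nonneg_left ((min_le_right _ _).trans (min_le_left _ _))
        (by positivity)) hb
    · exact le_trans (mul_le_mul_of_nonneg_left ((min_le_right _ _).trans (min_le_right _ _))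
        (by positivity)) hc
  obtain ⟨ζb, hζb, hzb⟩ := u3_div (η := ζ₁ * η) (by positivity)
    (x := 2 * ((B : ℝ) + 1)) (by positivity)
  obtain ⟨ζ, hζ, hζ1, hζ2, hζ3⟩ : ∃ ζ : ℝ, 0 < ζ ∧ ζ ≤ ζf t₃ ∧ ζ ≤ η' ∧
      2 * ((B : ℝ) + 1) * ζ ≤ ζ₁ * η :=
    ⟨min (min (ζf t₃) η') ζb, lt_min (lt_min (hζf t₃) hη') hζb,
      (min_le_left _ _).trans (min_le_left _ _), (min_le_left _ _).trans (min_le_right _ _),
      le_trans (mul_le_mul_of_nonneg_left (min_le_right _ _) (by positivity)) hzb⟩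
  refine ⟨δ, ζ, hδ, hζ, fun S => ?_⟩
  obtain ⟨H₂, hsp⟩ := hsp' S
  obtain ⟨t₂, ht₂⟩ := Finite.exists_max fun t => Hf t S
  obtain ⟨H₀, hH₀⟩ : ∃ H₀ : ℝ, ∀ H, H₀ ≤ H → Hf t₂ S ≤ H ∧ 0 < H ∧ (D : ℝ) ≤ m / 3 * H ∧
      2 * ((B : ℝ) + 1) * H₂ ≤ η * H ∧ ((D * B + B * D : ℕ) : ℝ) * C ≤ η / 6 * H := by
    refine ⟨max (max (Hf t₂ S) 1) (max (D / (m / 3)) (max (2 * ((B : ℝ) + 1) * H₂ / η)
      (((D * B + B * D : ℕ) : ℝ) * C / (η / 6)))), fun H hH => ?_⟩
    simp only [max_le_iff] at hH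
    obtain ⟨⟨h1, h2⟩, h3, h4, h5⟩ := hH
    rw [div_le_iff₀' (by positivity)] at h3 h4 h5
    exact ⟨h1, by linarith, h3, h4, h5⟩
  refine ⟨H₀, fun H X R hH hX hcnt hlog hR h => ?_⟩
  obtain ⟨g1, g2, g3, g4, g5⟩ := hH₀ H hH
  by_contra hlt
  rw [not_le] at hlt
  have hS := HT_nonneg X
  have hB0 : (0 : ℝ) ≤ B := Nat.cast_nonneg B
  have k1 : η * H ≤ 2 * ((B : ℝ) + 1) * HT X := by
    have h1 := Real.exp_lt_exp.1 ((u3_liou hv X (by positivity) hR h).trans_lt hlt)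
    have h2 : totalWeight K * δ * H ≤ η / 2 * H := mul_le_mul_of_nonneg_right hδ1 g2.le
    nlinarith
  have hB1 : (0 : ℝ) < 2 * ((B : ℝ) + 1) := by positivity
  have k2 : H₂ ≤ HT X := le_of_mul_le_mul_left (g4.trans k1) hB1
  have k3' : ∀ x y : ℝ, 0 < y → 2 * ((B : ℝ) + 1) * x ≤ y * η → x * H ≤ y * HT X := by
    intro x y hy hxy
    refine le_of_mul_le_mul_left ?_ hB1
    have h1 : 2 * ((B : ℝ) + 1) * x * H ≤ y * η * H := mul_le_mul_of_nonneg_right hxy g2.le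
    have h2 : y * (η * H) ≤ y * (2 * ((B : ℝ) + 1) * HT X) :=
      mul_le_mul_of_nonneg_left k1 hy.le
    linarith
  have k3 : δ * H ≤ δ₂ * HT X := k3' _ _ hδ₂ hδ2
  have k4 : Near v B (η * HT X) (xt X) R := by
    unfold Near
    have h1 : (1 : ℝ) ≤ ∏ k, max (v (xt X k)) 1 ^ B :=
      Finset.prod_induction _ (fun x => (1 : ℝ) ≤ x) (fun _ _ => one_le_mul_of_one_le_of_one_le)
        le_rfl fun k _ => one_le_pow₀ (le_max_right _ _)
    have h2 : Real.exp (-(η * H)) ≤ Real.exp (-(η * HT X)) :=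
      Real.exp_le_exp.2 (neg_le_neg (mul_le_mul_of_nonneg_left hX hη.le))
    exact (hlt.le.trans h2).trans (le_mul_of_one_le_right (Real.exp_pos _).le h1)
  obtain ⟨g, hg, hg0⟩ := hsp X R k2 (hcnt.trans k3) (hlog.trans (k3' _ _ hζ₁ hζ3))
    (hR.mono le_rfl k3) k4
  obtain ⟨φ, t, hφ, hφ0, hφ1⟩ := exists_good_rel (xt X) hg hg0
  obtain ⟨N, n1, n2, n3, n4, n5⟩ := elim_small v (xt X) t hφ.il hR.il (fun _ => D) (fun _ => B)
    hφ.deg hR.deg hφ0 hφ1 h
  have k5 : Real.exp (ε * HT X) ^ B * (Real.exp (δ * H) + 1) ^ D ≤ Real.exp (m * H) := by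
    refine u3_len (by positivity) B D ?_
    have h1 : B * ε * HT X ≤ m / 3 * H :=
      mul_le_mul hε1 hX hS (by positivity)
    have h2 : D * δ * H ≤ m / 3 * H := mul_le_mul_of_nonneg_right hδ3 g2.le
    linarith
  have k6 : ∏ s, max (v (xt X s)) 1 ^ (D * B + B * D) ≤ Real.exp (η / 3 * H) := by
    rw [u3_prod]
    refine Real.exp_le_exp.2 ?_
    have h0 : ∑ s, Real.log (max (v (xt X s)) 1) ≤ η' * H + (η' * H + C) := by
      rw [Fintype.sum_option]
      refine add_le_add ((u3_log _).trans (hlog.trans (mul_le_mul_of_nonneg_right hζ2 g2.le)))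
        ((hC X.1).trans ?_)
      exact add_le_add (mul_le_mul_of_nonneg_left ((HS_le_HT X).trans hX) hη'.le) le_rfl
    have h1 : ((D * B + B * D : ℕ) : ℝ) * ∑ s, Real.log (max (v (xt X s)) 1) ≤
        ((D * B + B * D : ℕ) : ℝ) * (η' * H + (η' * H + C)) :=
      mul_le_mul_of_nonneg_left h0 (Nat.cast_nonneg _)
    have h2 : ((D * B + B * D : ℕ) : ℝ) * η' * H ≤ η / 12 * H :=
      mul_le_mul_of_nonneg_right hη1 g2.le
    linarith
  have hN : Small (D * B + B * D) (δf t * H) N :=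
    ⟨fun e => n2 (by rw [e, map_zero]), n1.mono (k5.trans (Real.exp_le_exp.2
      (mul_le_mul_of_nonneg_right (hm1.trans (ht₁ t)) g2.le))), n4⟩
  have k8 := hf t S H X N ((ht₂ t).trans g1) hX
    (hcnt.trans (mul_le_mul_of_nonneg_right (hδ4.trans (hm1.trans (ht₁ t))) g2.le))
    (hlog.trans (mul_le_mul_of_nonneg_right (hζ1.trans (ht₃ t)) g2.le)) hN n3 n2
  have k9 : v (aeval (xt X) R) * (Real.exp (ε * HT X) ^ B * (Real.exp (δ * H) + 1) ^ D) *
      ∏ s, max (v (xt X s)) 1 ^ (D * B + B * D) ≤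
      Real.exp (-(η * H)) * Real.exp (m * H) * Real.exp (η / 3 * H) := by
    gcongr
  rw [← Real.exp_add, ← Real.exp_add] at k9
  have k10 := Real.exp_le_exp.1 ((k8.trans n5).trans k9)
  have k11 : m * H ≤ η / 6 * H := mul_le_mul_of_nonneg_right hm2 g2.le
  have k12 : 0 < η * H := by positivity
  linarith

end Pool.Agent.Lib.MP_8865d3_nt.Ft
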