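import Pool.Agent.Lib.MP_8865d3_nt.FtT3
import Pool.Agent.Lib.MP_8865d3_nt.FaT4

/-! The approximation theorem for a fixed divisor, away from the toric boundary. -/

namespace Pool.Agent.Lib.MP_8865d3_nt.Ft

open MvPolynomial Finset Height Pool.Agent.Lib.Common.Subspace Pool.Agent.Lib.MP_e97e2b_nt
  Pool.Agent.Lib.MP_651af7_nt.Iv Pool.Agent.Lib.MP_651af7_nt.Vj Pool.Agent.Lib.MP_8865d3_nt.Fa

open NumberField Pool.Agent.Lib.MP_8865d3_nt.Gm Pool.Agent.Lib.Common.ZeroLemma

variable {K κ : Type} [Field K] [NumberField K] [Fintype κ]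

/-- Both coordinates. -/
def zz {a b : κ → ℤ} (P : Pts K a b) : κ ⊕ κ → K :=
  Sum.elim (fun k => xc (P k)) fun k => yc (P k)

/-- As `fa_fixed` (`FaT4`).  Let `g = (optionEquivLeft K (κ ⊕ κ)).symm p`, variables
`σ = Option (κ ⊕ κ) ⊕ g.support`, `e : Option κ → σ := fun k => inl (k.map inl)`; `elim_list_small`,
`exists_rename_small`, `ft_moving` with `H = HT X + H₁`, `siegel_pi`, `siegel_y`, and
`log (max (v u) 1) ≤ ζ * HT X` with `B * ζ` small. -/
theorem ft_fixed0 (a b : κ → ℤ) (hD : ∀ k, 4 * a k ^ 3 + 27 * b k ^ 2 ≠ 0) {v : AbsoluteValue K ℝ}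
    (hv : Adm v) (p : Polynomial (MvPolynomial (κ ⊕ κ) K)) {ε : ℝ} (hε : 0 < ε) :
    ∃ δ ζ : ℝ, 0 < δ ∧ 0 < ζ ∧ ∀ S : Finset (FinitePlace K), ∃ C : ℝ, ∀ X : PtT K a b,
      (∀ k, X.1 k ≠ 0) → cnt S (X.2 : K) ≤ δ * HT X → |Real.log (v (X.2 : K))| ≤ ζ * HT X →
      p.eval₂ (eval (zz X.1)) (X.2 : K) ≠ 0 →
      -Real.log (v (p.eval₂ (eval (zz X.1)) (X.2 : K))) ≤ ε * HT X + C := by
  classical
  obtain ⟨g, hg⟩ : ∃ g : MvPolynomial (Option (κ ⊕ κ)) K, ∀ (z : κ ⊕ κ → K) (u : K),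
      eval (fun x : Option (κ ⊕ κ) => x.elim u z) g = p.eval₂ (eval z) u := by
    refine ⟨(optionEquivLeft K (κ ⊕ κ)).symm p, fun z u => ?_⟩
    rw [optionEquivLeft_elim_eval, AlgEquiv.apply_symm_apply, Polynomial.eval_map]
  choose q hp0 hp using fun μ : g.support =>
    (IsFractionRing.isAlgebraic_iff ℤ ℚ K).2 (Algebra.IsAlgebraic.isAlgebraic (coeff μ.1 g))
  let e : Option κ → Option (κ ⊕ κ) ⊕ g.support := fun k => Sum.inl (k.map Sum.inl)
  have he : Function.Injective e := fun k k' h =>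
    Option.map_injective Sum.inl_injective (Sum.inl_injective h)
  let φ : Option (κ ⊕ κ) ⊕ g.support → MvPolynomial (Option (κ ⊕ κ) ⊕ g.support) ℚ :=
    Sum.elim (fun o => o.elim 0 (Sum.elim (fun _ => 0) fun k =>
      MvPolynomial.X (Sum.inl (some (Sum.inr k))) ^ 2 -
      (MvPolynomial.X (e (some k)) ^ 3 + C (a k : ℚ) * MvPolynomial.X (e (some k)) + C (b k : ℚ))))
      fun μ => Polynomial.aeval (MvPolynomial.X (Sum.inr μ)) ((q μ).map (Int.castRingHom ℚ))
  let l := (Finset.univ.filter fun s => s ∉ Set.range e).toList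
  have hl : ∀ s, s ∈ l ↔ s ∉ Set.range e := fun s => by
    simp only [l, Finset.mem_toList, Finset.mem_filter, Finset.mem_univ, true_and]
  have hpair : l.Pairwise fun s t => ∀ μ ∈ (φ t).support, μ s = 0 := by
    refine (Finset.nodup_toList _).pairwise_of_forall_ne fun s hs t _ hst μ hμ => ?_
    refine Nat.le_zero.1 ((wd_single_iff s).1 ?_ μ hμ)
    rcases t with (_ | k | k) | ν
    · exact wd_zero _ _
    · exact wd_zero _ _
    · have h1 := faT4_wd_X hst
      have h2 := faT4_wd_X (s := s) (t := e (some k)) fun h => (hl s).1 hs ⟨some k, h.symm⟩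
      exact (h1.pow 2).sub (((h2.pow 3).add ((wd_C _ _).mul h2)).add (wd_C _ _))
    · exact (faT4_uni _ (q ν)).2 s hst
  have hint : ∀ t ∈ l, IsInt (φ t) := by
    rintro ((_ | k | k) | ν) _
    · exact isInt_zero
    · exact isInt_zero
    · exact (((il_X _).pow 2).sub ((((il_X _).pow 3).add ((il_intCast _).mul (il_X _))).add
        (il_intCast _))).1
    · exact (faT4_uni _ (q ν)).1
  let G : MvPolynomial (Option (κ ⊕ κ) ⊕ g.support) ℚ :=
    ∑ μ : g.support, MvPolynomial.X (Sum.inr μ) * rename Sum.inl (monomial μ.1 1)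
  have hG : IsInt G :=
    (il_sum _ fun μ _ => (il_X _).mul ((il_monomial_one μ.1).rename Sum.inl)).1
  obtain ⟨B, c, hB⟩ := elim_list_small (K := K) φ l hpair hint G.totalDegree (len G)
  obtain ⟨δ, ζ, hδ, hζ, hmov⟩ := ft_moving hv _ κ rfl a b hD (ε / 2) (half_pos hε) B
  have hη : 0 < ε / (8 * (B + 1)) := by positivity
  obtain ⟨C₁, hC₁⟩ := siegel_pi a b hD hv hη
  obtain ⟨C₂, hC₂⟩ := siegel_y a b hD hv hη
  refine ⟨δ, min ζ (ε / (8 * (B + 1))), hδ, lt_min hζ hη, fun S => ?_⟩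
  obtain ⟨H₀, hmov⟩ := hmov S
  refine ⟨ε / 2 * max (max H₀ (c / δ)) 0 + c +
    B * (C₁ + C₂ + ∑ μ : g.support, Real.log (max (v (coeff μ.1 g)) 1)),
    fun X hX hcnt hlog hne => ?_⟩
  let z : Option (κ ⊕ κ) ⊕ g.support → K :=
    Sum.elim (fun x : Option (κ ⊕ κ) => x.elim (X.2 : K) (zz X.1)) fun μ => coeff μ.1 g
  have hz : aeval z G = p.eval₂ (eval (zz X.1)) (X.2 : K) := by
    rw [← hg, eval_eq, ← Finset.sum_coe_sort g.support, map_sum]
    refine Finset.sum_congr rfl fun μ _ => ?_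
    rw [map_mul, aeval_X, aeval_rename, aeval_monomial, map_one, one_mul]
    rfl
  rw [← hz] at hne ⊢
  obtain ⟨N, hN, hN0, hNl, hNv⟩ := hB v z (by
    rintro ((_ | k | k) | ν) ht
    · exact absurd ⟨none, rfl⟩ ((hl _).1 ht)
    · exact absurd ⟨some k, rfl⟩ ((hl _).1 ht)
    · refine ⟨?_, fun h => ?_⟩
      · have := onE_pt (hX k)
        simp only [φ, z, e, zz, Sum.elim_inl, Sum.elim_inr, Option.elim_some, Option.map_some,
          map_sub, map_add, map_mul, map_pow, aeval_X, map_intCast]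
        exact sub_eq_zero.2 this
      · have h2 := faT4_wd_X (s := Sum.inl (some (Sum.inr k))) (t := e (some k)) (by simp [e])
        have h3 := el_toP_free (Sum.inl (some (Sum.inr k))) fun μ hμ =>
          Nat.le_zero.1 ((wd_single_iff _).1
          (((h2.pow 3).add ((wd_C _ (a k : ℚ)).mul h2)).add (wd_C _ (b k : ℚ))) μ hμ)
        simp only [φ, Sum.elim_inl, Sum.elim_inr, Option.elim_some] at h
        rw [map_sub, h3, map_pow, elToP, aeval_X, if_pos rfl, Polynomial.map_sub, Polynomial.map_pow,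
          Polynomial.map_X, Polynomial.map_C] at h
        exact Polynomial.X_pow_sub_C_ne_zero two_pos _ h
    · refine ⟨?_, ?_⟩
      · simp only [φ, Sum.elim_inr]
        rw [← Polynomial.aeval_algHom_apply, aeval_X, ← algebraMap_int_eq,
          Polynomial.aeval_map_algebraMap]
        exact hp ν
      · exact faT4_el _ z (hp0 ν)) G
    ⟨fun h => hne (by rw [h, map_zero]), ⟨hG, by linarith [Real.add_one_le_exp (len G)]⟩,
      fun μ hμ s => (monomial_le_degreeOf s hμ).trans (degreeOf_le_totalDegree _ _)⟩ hne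
  obtain ⟨N', hN', rfl⟩ := exists_rename_small he hN fun μ hμ s hs => hNl s ((hl s).2 hs) μ hμ
  have hze : z ∘ e = xt X := by
    funext k
    rcases k with _ | k <;> rfl
  rw [aeval_rename, hze] at hN0 hNv
  have hH := HT_nonneg X
  have hHS := HS_le_HT X
  have m1 : H₀ ≤ max (max H₀ (c / δ)) 0 := (le_max_left _ _).trans (le_max_left _ _)
  have m2 : c / δ ≤ max (max H₀ (c / δ)) 0 := (le_max_right _ _).trans (le_max_left _ _)
  have m3 : 0 ≤ max (max H₀ (c / δ)) 0 := le_max_right _ _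
  generalize max (max H₀ (c / δ)) 0 = H₁ at m1 m2 m3 ⊢
  have hlog1 : |Real.log (v (X.2 : K))| ≤ ζ * HT X :=
    hlog.trans (mul_le_mul_of_nonneg_right (min_le_left _ _) hH)
  have hlog2 : Real.log (max (v (X.2 : K)) 1) ≤ ε / (8 * (B + 1)) * HT X := by
    refine le_trans ?_ (hlog.trans (mul_le_mul_of_nonneg_right (min_le_right _ _) hH))
    rcases le_total (v (X.2 : K)) 1 with h | h
    · rw [max_eq_right h, Real.log_one]
      exact abs_nonneg _
    · rw [max_eq_left h]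
      exact le_abs_self _
  have h1 := (hmov (HT X + H₁) X N' (by linarith) (by linarith) (by nlinarith) (by nlinarith)
    (hN'.mono le_rfl (by
    rw [div_le_iff₀ hδ] at m2
    nlinarith)) hN0).trans hNv
  have hpos : ∀ s, 0 < max (v (z s)) 1 := fun s => lt_max_of_lt_right one_pos
  have h2 := Real.log_le_log (Real.exp_pos _) h1
  rw [Real.log_exp, Real.log_mul (mul_pos (v.pos hne) (Real.exp_pos _)).ne'
    (Finset.prod_pos fun s _ => pow_pos (hpos s) _).ne', Real.log_mul (v.pos hne).ne'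
    (Real.exp_pos _).ne', Real.log_exp, Real.log_prod fun s _ => (pow_pos (hpos s) _).ne'] at h2
  generalize Real.log (v (aeval z G)) = lg at h2 ⊢
  simp only [Real.log_pow, ← Finset.mul_sum, Fintype.sum_sum_type, Fintype.sum_option,
    z, zz, Sum.elim_inl, Sum.elim_inr, Option.elim_none, Option.elim_some] at h2
  have hB0 : (0 : ℝ) ≤ B := Nat.cast_nonneg B
  have hC₁' := (hC₁ X.1).trans (add_le_add_left (mul_le_mul_of_nonneg_left hHS hη.le) _)
  have hC₂' := (hC₂ X.1).trans (add_le_add_left (mul_le_mul_of_nonneg_left hHS hη.le) _)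
  have h3 := mul_le_mul_of_nonneg_left (add_le_add hlog2 (add_le_add hC₁' hC₂')) hB0
  have h4 : B * (ε / (8 * (B + 1))) ≤ ε / 8 := by
    rw [← mul_div_assoc, div_le_div_iff₀ (by positivity) (by norm_num)]
    nlinarith
  have h5 := mul_le_mul_of_nonneg_right h4 hH
  have h6 : 0 ≤ ε * HT X := mul_nonneg hε.le hH
  linarith

end Pool.Agent.Lib.MP_8865d3_nt.Ft
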