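import Pool.Agent.Lib.MP_8865d3_nt.FtT4
import Pool.Agent.Lib.MP_8865d3_nt.FtDom
import Pool.Agent.Lib.MP_8865d3_nt.FaFin

/-! The approximation theorem for a fixed divisor. -/

namespace Pool.Agent.Lib.MP_8865d3_nt.Ft

open MvPolynomial Finset Height Pool.Agent.Lib.Common.Subspace Pool.Agent.Lib.MP_e97e2b_nt
  Pool.Agent.Lib.MP_651af7_nt.Iv Pool.Agent.Lib.MP_651af7_nt.Vj Pool.Agent.Lib.MP_8865d3_nt.Fa

open NumberField Pool.Agent.Lib.MP_8865d3_nt.Gm

variable {K κ : Type} [Field K] [NumberField K] [Fintype κ]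

/-- The trivial bound: `liouville`, `log_max_le`, `height_eval₂_le`, and
`logHeight₁ (yc P) ≤ 2 * ht P + C'` (`exists_ht_const`, `logHeight₁_inv`, `logHeight₁_mul_le`);
`i ≤ p.natDegree` since `p.coeff i ≠ 0`. -/
theorem ft_triv (a b : κ → ℤ) (hD : ∀ k, 4 * a k ^ 3 + 27 * b k ^ 2 ≠ 0) {v : AbsoluteValue K ℝ}
    (hv : Adm v) (p : Polynomial (MvPolynomial (κ ⊕ κ) K)) :
    ∃ B C : ℝ, 0 ≤ B ∧ ∀ X : PtT K a b, p.eval₂ (eval (zz X.1)) (X.2 : K) ≠ 0 →
      ∀ i, p.coeff i ≠ 0 → i * Real.log (v (X.2 : K)) -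
        Real.log (v (p.eval₂ (eval (zz X.1)) (X.2 : K))) ≤ B * HT X + C := by
  obtain ⟨B, C, hB, h⟩ := height_eval₂_le p
  obtain ⟨C', -, -, -, h'⟩ := exists_ht_const (K := K) a b hD
  refine ⟨p.natDegree + 3 * B, B * (Fintype.card κ * (C' + logHeight₁ (2 : K)⁻¹)) + C,
    by positivity, fun X h0 i hi => ?_⟩
  have h1 : Real.log (v (X.2 : K)) ≤ logHeight₁ (X.2 : K) :=
    (Real.log_le_log (v.pos X.2.ne_zero) (le_max_left _ _)).trans (log_max_le hv _)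
  have h2 : (i : ℝ) ≤ p.natDegree := Nat.cast_le.2 (Polynomial.le_natDegree_of_ne_zero hi)
  have h3 : i * Real.log (v (X.2 : K)) ≤ p.natDegree * HT X :=
    (mul_le_mul_of_nonneg_left (h1.trans (hu_le_HT X)) (Nat.cast_nonneg i)).trans
      (mul_le_mul_of_nonneg_right h2 (HT_nonneg X))
  have h4 := (Real.le_log_iff_exp_le (v.pos h0)).2 (liouville hv h0)
  have h5 : ∀ k, logHeight₁ (yc (X.1 k)) ≤ 2 * ht (X.1 k) + (C' + logHeight₁ (2 : K)⁻¹) := by
    intro k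
    have h6 := logHeight₁_mul_le (2 : K)⁻¹ (2 * yc (X.1 k))
    have h7 := h' k (X.1 k)
    rw [inv_mul_cancel_left₀ two_ne_zero] at h6
    rw [logHeight₁_inv] at h7
    linarith
  have h6 : ∑ s, logHeight₁ (zz X.1 s) + logHeight₁ (X.2 : K) ≤
      3 * HT X + Fintype.card κ * (C' + logHeight₁ (2 : K)⁻¹) := by
    have h7 := Finset.sum_le_sum (s := Finset.univ) fun k _ => h5 k
    rw [Finset.sum_add_distrib, ← Finset.mul_sum, Finset.sum_const, Finset.card_univ,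
      nsmul_eq_mul] at h7
    have h8 : ∑ s, logHeight₁ (zz X.1 s) = HS X.1 + ∑ k, logHeight₁ (yc (X.1 k)) :=
      Fintype.sum_sum_type _
    have h9 := zero_le_logHeight₁ (X.2 : K)
    have h10 : HT X = HS X.1 + logHeight₁ (X.2 : K) := rfl
    have h11 : HS X.1 = ∑ k, ht (X.1 k) := rfl
    linarith
  have h7 := mul_le_mul_of_nonneg_left h6 hB
  linarith [h (zz X.1) X.2]

/-- Let `n = p.natDegree`, `H = HT X`; `ft_fixed0` for `ε / 2` gives `δ, ζ`; decrease `ζ` so that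
`n * ζ ≤ ε / 2`; `c = B / δ`.  If `δ H ≤ cnt` use `ft_triv`.  If `|log (v u)| ≤ ζ H` use `ft_fixed0`.
Otherwise `fa_abs` for the coefficients `p.coeff i`, `i ≤ n`, with `ε' = min ε (ζ / 4)` gives
`M = exp (ε' H + C')`, `0 ≤ C'`; either `log (2 (n + 1) M ^ 2) ≤ ζ H` and `dom_le` applies to
`p.map (eval (zz X.1))`, or `H` is bounded and `ft_triv` applies. -/
theorem ft_fixed (a b : κ → ℤ) (hD : ∀ k, 4 * a k ^ 3 + 27 * b k ^ 2 ≠ 0) {v : AbsoluteValue K ℝ}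
    (hv : Adm v) (p : Polynomial (MvPolynomial (κ ⊕ κ) K)) {ε : ℝ} (hε : 0 < ε) :
    ∃ c : ℝ, 0 ≤ c ∧ ∀ S : Finset (FinitePlace K), ∃ C : ℝ, ∀ X : PtT K a b,
      (∀ k, X.1 k ≠ 0) → p.eval₂ (eval (zz X.1)) (X.2 : K) ≠ 0 →
      ∀ i, eval (zz X.1) (p.coeff i) ≠ 0 → i * Real.log (v (X.2 : K)) -
        Real.log (v (p.eval₂ (eval (zz X.1)) (X.2 : K))) ≤ ε * HT X + c * cnt S (X.2 : K) + C := by
  obtain ⟨B, C₀, hB, htriv⟩ := ft_triv a b hD hv p
  obtain ⟨δ, ζ₀, hδ, hζ₀, h0⟩ := ft_fixed0 a b hD hv p (half_pos hε)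
  obtain ⟨ζ, hζ, hζ1, hζ2⟩ : ∃ ζ : ℝ, 0 < ζ ∧ ζ ≤ ζ₀ ∧ p.natDegree * ζ ≤ ε / 2 := by
    refine ⟨min ζ₀ (ε / 2 / (p.natDegree + 1)), lt_min hζ₀ (by positivity), min_le_left _ _, ?_⟩
    have h1 : (p.natDegree + 1 : ℝ) * (ε / 2 / (p.natDegree + 1)) = ε / 2 :=
      mul_div_cancel₀ _ (by positivity)
    have h2 := mul_le_mul_of_nonneg_left (min_le_right ζ₀ (ε / 2 / (p.natDegree + 1)))
      (Nat.cast_nonneg (α := ℝ) p.natDegree)
    have h3 : 0 < ε / 2 / (p.natDegree + 1) := by positivity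
    linarith
  obtain ⟨ε', hε', hε1, hε2⟩ : ∃ ε' : ℝ, 0 < ε' ∧ ε' ≤ ε ∧ ε' ≤ ζ / 4 :=
    ⟨min ε (ζ / 4), lt_min hε (by positivity), min_le_left _ _, min_le_right _ _⟩
  choose Ci hCi using fun i => fa_abs a b hD hv (p.coeff i) hε'
  obtain ⟨C', hC', hC⟩ : ∃ C' : ℝ, 0 ≤ C' ∧ ∀ i ≤ p.natDegree, Ci i ≤ C' :=
    ⟨∑ i ∈ Finset.range (p.natDegree + 1), |Ci i|, Finset.sum_nonneg fun _ _ => abs_nonneg _,
      fun i hi => (le_abs_self _).trans (Finset.single_le_sum (f := fun i => |Ci i|)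
        (fun _ _ => abs_nonneg _) (Finset.mem_range.2 (Nat.lt_succ_of_le hi)))⟩
  set H₀ := (Real.log (2 * (p.natDegree + 1)) + 2 * C') / (ζ / 2) with hH₀
  refine ⟨B / δ, div_nonneg hB hδ.le, fun S => ?_⟩
  obtain ⟨C₁, h1⟩ := h0 S
  refine ⟨|C₀| + |C₁| + (Real.log 2 + C') + B * |H₀|, fun X hX hp i hi => ?_⟩
  have hi' : p.coeff i ≠ 0 := fun e => hi (by rw [e, map_zero])
  have t1 := htriv X hp i hi'
  have hH := HT_nonneg X
  have p1 := mul_nonneg hε.le hH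
  have p2 := mul_nonneg (div_nonneg hB hδ.le) (cnt_nonneg S (X.2 : K))
  have p3 := Real.log_nonneg one_le_two
  have p4 := mul_nonneg hB (abs_nonneg H₀)
  have p5 := abs_nonneg C₀
  have p6 := abs_nonneg C₁
  have p7 := le_abs_self C₀
  have p8 := le_abs_self C₁
  rcases le_total (δ * HT X) (cnt S (X.2 : K)) with c1 | c1
  · have h2 := mul_le_mul_of_nonneg_left c1 (div_nonneg hB hδ.le)
    rw [← mul_assoc, div_mul_cancel₀ _ hδ.ne'] at h2
    linarith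
  rcases le_total |Real.log (v (X.2 : K))| (ζ * HT X) with c2 | c2
  · have h2 := h1 X hX c1 (c2.trans (mul_le_mul_of_nonneg_right hζ1 hH)) hp
    have h3 : (i : ℝ) ≤ p.natDegree := Nat.cast_le.2 (Polynomial.le_natDegree_of_ne_zero hi')
    have h4 := (mul_le_mul_of_nonneg_left ((le_abs_self _).trans c2) (Nat.cast_nonneg i)).trans
      (mul_le_mul_of_nonneg_right h3 (mul_nonneg hζ.le hH))
    have h5 := mul_le_mul_of_nonneg_right hζ2 hH
    rw [← mul_assoc] at h4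
    linarith
  rcases le_total (HT X) H₀ with c3 | c3
  · have h2 := mul_le_mul_of_nonneg_left (c3.trans (le_abs_self H₀)) hB
    linarith
  have h2 : 0 ≤ ε' * HT X + C' := add_nonneg (mul_nonneg hε'.le hH) hC'
  have h3 := dom_le v (p.map (eval (zz X.1))) X.2.ne_zero (M := Real.exp (ε' * HT X + C'))
    (Real.one_le_exp h2) Polynomial.natDegree_map_le (fun j hj => by
      rw [Polynomial.coeff_map] at hj ⊢
      have hj' : p.coeff j ≠ 0 := fun e => hj (by rw [e, map_zero])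
      have h4 := hCi j X.1 hX hj
      have h5 := hC j (Polynomial.le_natDegree_of_ne_zero hj')
      have h6 := mul_le_mul_of_nonneg_left (HS_le_HT X) hε'.le
      have h7 : |Real.log (v (eval (zz X.1) (p.coeff j)))| ≤ ε' * HT X + C' :=
        h4.trans (by linarith)
      rw [← Real.exp_neg, ← Real.le_log_iff_exp_le (v.pos hj), ← Real.log_le_iff_le_exp (v.pos hj)]
      exact abs_le.1 h7) (by
      refine le_trans ?_ c2
      rw [Real.log_mul (by positivity) (by positivity), Real.log_pow, Real.log_exp]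
      have h4 := (div_le_iff₀ (half_pos hζ)).1 c3
      have h5 := mul_le_mul_of_nonneg_right hε2 hH
      push_cast
      linarith) (i := i) (by rwa [Polynomial.coeff_map])
  rw [Polynomial.eval_map] at h3
  have h4 := Real.log_le_log (pow_pos (v.pos X.2.ne_zero) i) h3
  rw [Real.log_pow, Real.log_mul (by positivity) (v.pos hp).ne',
    Real.log_mul two_ne_zero (Real.exp_pos _).ne', Real.log_exp] at h4
  have h5 := mul_le_mul_of_nonneg_right hε1 hH
  linarith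

end Pool.Agent.Lib.MP_8865d3_nt.Ft
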