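import Pool.Agent.Lib.MP_8865d3_nt.G2Bound
import Pool.Agent.Lib.MP_651af7_nt.Vj.CvBlk

/-! The reductions in the two blocks of variables (compare `Vj/CvBlk`). -/

namespace Pool.Agent.Lib.MP_8865d3_nt.G2

open MvPolynomial Finset Height Pool.Agent.Lib.Common.Subspace Pool.Agent.Lib.MP_651af7_nt.Vj

variable {a b : ℤ} {g : ℕ}

private theorem g2blk_wd (w : Fin 6 → ℕ) (u : Fin 6) (A B : ℤ) :
    WD w (-(X u ^ 3 + (A : P6) * X u + (B : P6))) (3 * w u) := by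
  refine WD.neg (WD.add (WD.add ((wd_X w u).pow 3) ?_) ((wd_intCast w B).mono (Nat.zero_le _)))
  exact ((wd_intCast w A).mul (wd_X w u)).mono (by omega)

private theorem g2blk_il (u : Fin 6) {A B : ℤ} (hA : |(A : ℝ)| ≤ 2 ^ g) (hB : |(B : ℝ)| ≤ 2 ^ g) :
    IL (-(X u ^ 3 + (A : P6) * X u + (B : P6))) (2 ^ (g + 2)) := by
  refine (IL.neg (IL.add (IL.add ((il_X u).pow 3) ((il_int hA).mul (il_X u))) (il_int hB))).mono ?_
  have h : (1 : ℝ) ≤ 2 ^ g := one_le_pow₀ one_le_two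
  rw [pow_add, one_pow, mul_one]
  linarith

private theorem g2blk_supp (u : Fin 6) (A B : ℤ) :
    ∀ μ ∈ (-(X u ^ 3 + (A : P6) * X u + (B : P6))).support, ∀ s, μ s ≤ 3 ∧ (s ≠ u → μ s = 0) := by
  intro μ hμ s
  have h := (wd_single_iff s).1 (g2blk_wd (Pi.single s 1) u A B) μ hμ
  by_cases hs : s = u
  · subst hs
    rw [Pi.single_eq_same] at h
    exact ⟨h, fun h' => absurd rfl h'⟩
  · rw [Pi.single_eq_of_ne (Ne.symm hs)] at h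
    omega

private theorem g2blk_one (μ : Fin 6 →₀ ℕ) (hμ : μ ∈ (1 : P6).support) (s : Fin 6) : μ s = 0 := by
  have h : μ = 0 := mem_singleton.1 (support_monomial_subset (s := 0) (a := (1 : ℚ)) hμ)
  rw [h]
  rfl

private theorem g2blk_crv {u t : Fin 6} (hut : t ≠ u) {A B : ℤ} (hA : |(A : ℝ)| ≤ 2 ^ g)
    (hB : |(B : ℝ)| ≤ 2 ^ g) (w : Fin 6 → ℕ) (hu : w u = 1) (ht : w t = 2) (N : ℕ) :
    ∃ π : P6 →ₗ[ℚ] P6, ∀ p : P6, (∀ μ ∈ p.support, μ t ≤ N) →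
      (∀ (S : Type) [CommRing S] [Algebra ℚ S] (z : Fin 6 → S), z t ^ 2 = z u ^ 3 + A * z u + B →
        aeval z (π p) = aeval z p) ∧
      (∀ T, IL p T → IL (π p) (2 ^ ((g + 2) * N) * T)) ∧
      ∀ ν ∈ (π p).support, ν t < 2 ∧ ∃ μ ∈ p.support,
        Finsupp.weight w ν ≤ Finsupp.weight w μ ∧ ∀ s, s ≠ u → s ≠ t → ν s = μ s := by
  have hΛ : (1 : ℝ) ≤ 2 ^ (g + 2) := one_le_pow₀ one_le_two
  obtain ⟨π, hπ⟩ := red t (b := 2) one_le_two hΛ (il_one.mono hΛ) (g2blk_il u hA hB)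
    (fun μ hμ => g2blk_one μ hμ t)
    (fun μ hμ => by rw [(g2blk_supp u A B μ hμ t).2 hut]; exact two_pos) N
  refine ⟨π, fun p hp => ?_⟩
  obtain ⟨⟨c, hc⟩, h2, h3⟩ := hπ p hp
  refine ⟨fun S _ _ z hz => ?_, fun T hT => by rw [pow_mul]; exact h2 T hT, fun ν hν => ?_⟩
  · have h := congrArg (aeval z) hc
    simp only [map_sub, map_mul, map_add, map_neg, map_pow, aeval_X, map_intCast, one_pow,
      one_mul, hz, add_neg_cancel, zero_mul] at h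
    exact (sub_eq_zero.1 h).symm
  · obtain ⟨k1, μ, hμ, k2, k3⟩ := h3 ν hν
    refine ⟨k1, μ, hμ, ?_, fun s hsu hst => k3 s hst (fun κ hκ => g2blk_one κ hκ s)
      fun κ hκ => (g2blk_supp u A B κ hκ s).2 hsu⟩
    simpa using k2 w 0 (wd_one w) ((g2blk_wd w u A B).mono (by omega))

private theorem g2blk_inj {u t : Fin 6} (hut : u ≠ t) : Function.Injective ![u, t] := by
  intro i j h
  fin_cases i <;> fin_cases j
  · rfl
  · exact absurd h hut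
  · exact absurd h.symm hut
  · rfl

private theorem g2blk_ren {u t : Fin 6} (hut : u ≠ t) {φ : MvPolynomial (Fin 2) ℚ} {B : ℕ}
    (hB : ∀ i, degreeOf i φ ≤ B) : ∀ μ ∈ (rename ![u, t] φ).support,
      μ u ≤ B ∧ μ t ≤ B ∧ ∀ s, s ≠ u → s ≠ t → μ s = 0 := by
  intro μ hμ
  obtain ⟨κ, hκ, rfl⟩ := supp_rename _ φ μ hμ
  refine ⟨?_, ?_, fun s hu ht => Finsupp.mapDomain_of_notMem_range _ _ ?_⟩
  · exact (Finsupp.mapDomain_apply (g2blk_inj hut) κ 0).le.trans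
      ((monomial_le_degreeOf 0 hκ).trans (hB 0))
  · exact (Finsupp.mapDomain_apply (g2blk_inj hut) κ 1).le.trans
      ((monomial_le_degreeOf 1 hκ).trans (hB 1))
  · rintro ⟨i, hi⟩
    fin_cases i
    · exact hu hi.symm
    · exact ht hi.symm

private theorem g2blk_aeval {S : Type*} [CommRing S] [Algebra ℚ S] (z : Fin 6 → S) (u t : Fin 6)
    (φ : MvPolynomial (Fin 2) ℚ) : aeval z (rename ![u, t] φ) = aeval ![z u, z t] φ := by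
  rw [aeval_rename]
  congr 2
  funext i
  fin_cases i <;> rfl

/-- As `Vj.blk2` without the step for the second curve: `red` for `t = 4`, then `low` with `u = 3`,
`t = 5`, `φ = rename ![3, 5] φ₂`, `w = wg 3`, `d = 2 n`, `D = n`.  Bound for `c₀`: apply `low` to
`p = 1`; `C c₀ - lam 1` is a multiple of `φ` without the variable `3`, so it vanishes
(`degreeOf_mul_eq`), and `len (C c₀) = |c₀|`. -/
theorem blk2 (hg : Cf a b a b g) {B : ℕ} {φ₂ : MvPolynomial (Fin 2) ℚ} (h0 : 1 ≤ degreeOf 0 φ₂)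
    {T₂ : ℝ} (hT : 1 ≤ T₂) (hφ : IL φ₂ T₂) (hB : ∀ i, degreeOf i φ₂ ≤ B) (n : ℕ) :
    ∃ (c₀ : ℤ) (β γ : ℕ) (fl : P6 →ₗ[ℚ] P6), c₀ ≠ 0 ∧ |(c₀ : ℝ)| ≤ T₂ ^ (2 * n + 1) ^ 2 ∧
      β + γ ≤ B ∧ ∀ p : P6, WD (wg 2) p (2 * n) → WD (wg 3) p n →
      (∀ (S : Type) [CommRing S] [Algebra ℚ S] (φ₁ : MvPolynomial (Fin 2) ℚ) (z : Fin 6 → S),
        OnW a b φ₁ φ₂ z → aeval z (fl p) = c₀ * aeval z p) ∧
      (∀ T, IL p T → IL (fl p) (2 ^ (2 * (g + 2) * n) * T₂ ^ (2 * n + 1) ^ 2 * T)) ∧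
      ∀ ν ∈ (fl p).support, ν 4 ≤ 1 ∧ ν 3 + 2 * ν 4 ≤ 2 * n ∧ ν 5 ≤ n ∧
        (ν 3 < B ∨ ν 5 < β ∨ n < ν 5 + γ) ∧
        ∃ μ ∈ p.support, ν 0 = μ 0 ∧ ν 1 = μ 1 ∧ ν 2 = μ 2 := by
  obtain ⟨w0, w1, -, -⟩ := hg
  obtain ⟨π₄, h4⟩ := g2blk_crv (u := 3) (t := 4) (by decide) w0 w1 (wg 2) rfl rfl n
  have h35 : (3 : Fin 6) ≠ 5 := by decide
  have hd : degreeOf 3 (rename ![(3 : Fin 6), 5] φ₂) = degreeOf 0 φ₂ :=
    degreeOf_rename_of_injective (g2blk_inj h35) 0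
  have hne : rename ![(3 : Fin 6), 5] φ₂ ≠ 0 := by
    intro h
    rw [h, degreeOf_zero] at hd
    omega
  obtain ⟨c, β, γ, lam, hc, hβ, hl⟩ := low h35 (φ := rename ![3, 5] φ₂) hne
    (hφ.rename _) (g2blk_ren h35 hB) (wg 3) rfl rfl (2 * n) n
  have hpow : T₂ ^ ((2 * n + 1) * (n + 1)) ≤ T₂ ^ (2 * n + 1) ^ 2 :=
    pow_le_pow_right₀ hT (by nlinarith)
  have hcb : |(c : ℝ)| ≤ T₂ ^ (2 * n + 1) ^ 2 := by
    obtain ⟨⟨q, hq⟩, c2, c3⟩ := hl 1 (fun μ hμ => by rw [g2blk_one μ hμ 3]; exact Nat.zero_le _)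
      ((wd_one _).mono (Nat.zero_le _))
    rw [mul_one] at hq
    have h1 : degreeOf 3 (lam 1) = 0 := by
      refine Nat.eq_zero_of_le_zero (degreeOf_le_iff.2 fun ν hν => ?_)
      obtain ⟨-, -, μ, hμ, k1, -⟩ := c3 ν hν
      rwa [g2blk_one μ hμ 3] at k1
    have h2 : degreeOf 3 (C (c : ℚ) - lam 1 : P6) = 0 := by
      have h3 := degreeOf_sub_le 3 (C (c : ℚ) : P6) (lam 1)
      rw [h1, degreeOf_C] at h3
      simpa using h3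
    have hq0 : q = 0 := by
      by_contra hq0
      rw [hq, degreeOf_mul_eq hne hq0, hd] at h2
      omega
    rw [hq0, mul_zero, sub_eq_zero] at hq
    have h3 := (c2 1 il_one).2
    rw [← hq, len, nrm_C, mul_one] at h3
    refine le_trans (le_of_eq ?_) (h3.trans hpow)
    simp [Rat.AbsoluteValue.real_eq_abs]
  refine ⟨c, β, γ, lam ∘ₗ π₄, hc, hcb, hβ, fun p hp2 hp3 => ?_⟩
  obtain ⟨a1, a2, a3⟩ := h4 p fun μ hμ => by
    have := hp2 μ hμ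
    rw [(weight_wg μ).2.2.1] at this
    omega
  have a4 : ∀ ν ∈ (π₄ p).support, ν 4 ≤ 1 ∧ ν 3 + 2 * ν 4 ≤ 2 * n ∧ ν 5 ≤ n ∧
      ∃ μ ∈ p.support, ν 0 = μ 0 ∧ ν 1 = μ 1 ∧ ν 2 = μ 2 := by
    intro ν hν
    obtain ⟨k1, μ, hμ, k2, k3⟩ := a3 ν hν
    have k4 := k2.trans (hp2 μ hμ)
    have k5 := hp3 μ hμ
    rw [(weight_wg ν).2.2.1] at k4
    rw [(weight_wg μ).2.2.2, ← k3 5 (by decide) (by decide)] at k5
    exact ⟨by omega, k4, k5, μ, hμ, k3 0 (by decide) (by decide), k3 1 (by decide) (by decide),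
      k3 2 (by decide) (by decide)⟩
  obtain ⟨⟨q, hq⟩, c2, c3⟩ := hl (π₄ p) (fun μ hμ => by
      have := (a4 μ hμ).2.1
      omega) fun μ hμ => by
    rw [(weight_wg μ).2.2.2]
    exact (a4 μ hμ).2.2.1
  refine ⟨fun S _ _ φ₁ z hz => ?_, fun T hT' => (c2 _ (a2 T hT')).mono ?_, fun ν hν => ?_⟩
  · have h := congrArg (aeval z) hq
    rw [map_mul, g2blk_aeval, hz.f2, zero_mul, map_sub, map_mul, a1 S z hz.e4,
      aeval_C, map_intCast] at h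
    exact (sub_eq_zero.1 h).symm
  · have hT0 : 0 ≤ T := (nrm_nonneg (fun _ => zero_le_one) p).trans hT'.2
    have h2 : (2 : ℝ) ^ ((g + 2) * n) ≤ 2 ^ (2 * (g + 2) * n) :=
      pow_le_pow_right₀ one_le_two (by nlinarith)
    calc T₂ ^ ((2 * n + 1) * (n + 1)) * (2 ^ ((g + 2) * n) * T)
        ≤ T₂ ^ (2 * n + 1) ^ 2 * (2 ^ (2 * (g + 2) * n) * T) := by gcongr
      _ = _ := by ring
  · obtain ⟨k1, k2, κ, hκ, k3, k4⟩ := c3 ν hν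
    obtain ⟨l0, l1, l2, μ, hμ, l4, l5, l6⟩ := a4 κ hκ
    rw [(weight_wg ν).2.2.2] at k1 k2
    have e4 := k4 4 (by decide) (by decide)
    rw [k4 0 (by decide) (by decide), k4 1 (by decide) (by decide), k4 2 (by decide) (by decide)]
    exact ⟨by omega, by omega, k1, k2, μ, hμ, l4, l5, l6⟩

/-- As `Vj.blk1` with `A = {0, 1, 2}`, `l = [1, 2]`; the constants are those of `Vj.blk1`. -/
theorem blk1 (hg : Cf a b a b g) {B : ℕ} {φ₁ : MvPolynomial (Fin 2) ℚ} {T₁ : ℝ} (hT : 1 ≤ T₁)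
    (hφ : IL φ₁ T₁) (hB : ∀ i, degreeOf i φ₁ ≤ B) (h1 : 1 ≤ degreeOf 1 φ₁) (N : ℕ) :
    ∃ ρ : P6 →ₗ[ℚ] P6, ∀ p : P6, (∀ μ ∈ p.support, μ 0 ≤ N ∧ μ 1 ≤ N ∧ μ 2 ≤ N) →
      (∀ T, IL p T → IL (ρ p) ((2 ^ (g + 2) * T₁) ^ (3 * (B + 4) ^ 3 * N) * T)) ∧
      (∀ ν ∈ (ρ p).support, ν 0 ≤ (B + 4) ^ 3 * N ∧ ν 1 < 2 ∧ ν 2 < B ∧
        ∃ μ ∈ p.support, ν 3 = μ 3 ∧ ν 4 = μ 4 ∧ ν 5 = μ 5) ∧
      ∀ (S : Type) [CommRing S] [IsDomain S] [Algebra ℚ S] (φ₂ : MvPolynomial (Fin 2) ℚ)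
        (z : Fin 6 → S), OnW a b φ₁ φ₂ z →
        (∀ q : P6, q ≠ 0 → (∀ μ ∈ q.support, ∀ t, t ≠ 0 → μ t = 0) → aeval z q ≠ 0) →
        ρ p = 0 → aeval z p = 0 := by
  obtain ⟨w0, w1, -, -⟩ := hg
  have h02 : (0 : Fin 6) ≠ 2 := by decide
  have hd : degreeOf 2 (rename ![(0 : Fin 6), 2] φ₁) = degreeOf 1 φ₁ :=
    degreeOf_rename_of_injective (g2blk_inj h02) 1
  obtain ⟨lc, ψ, e1, e2, e3, e4, e5, e6⟩ := split_lead (rename ![(0 : Fin 6), 2] φ₁) 2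
    (hφ.rename _).1 (hd ▸ h1)
  rw [hd] at e1 e5 e6
  have hr := g2blk_ren h02 hB
  have hg1 : (1 : ℝ) ≤ 2 ^ (g + 2) := one_le_pow₀ one_le_two
  have hΛ : (1 : ℝ) ≤ 2 ^ (g + 2) * T₁ := one_le_mul_of_one_le_of_one_le hg1 hT
  have hΛ1 : (2 : ℝ) ^ (g + 2) ≤ 2 ^ (g + 2) * T₁ := le_mul_of_one_le_right (by positivity) hT
  have hΛ2 : len (rename ![(0 : Fin 6), 2] φ₁) ≤ 2 ^ (g + 2) * T₁ :=
    (hφ.rename _).2.trans (le_mul_of_one_le_left (by linarith) hg1)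
  have hlc : ∀ μ ∈ lc.support, ∀ s, μ s ≤ B ∧ (s ≠ 0 → μ s = 0) := by
    intro μ hμ s
    obtain ⟨k1, k2⟩ := e5 μ hμ
    obtain ⟨k3, -, k4⟩ := hr _ k2
    by_cases hs : s = 0
    · subst hs
      exact ⟨le_trans (Nat.le_add_right _ _) k3, fun h => absurd rfl h⟩
    · have k5 : μ s = 0 := by
        by_cases hs2 : s = 2
        · rw [hs2, k1]
        · exact Nat.eq_zero_of_add_eq_zero_right (k4 s hs hs2)
      exact ⟨k5 ▸ Nat.zero_le _, fun _ => k5⟩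
  have hψ : ∀ μ ∈ ψ.support, ∀ s, μ s ≤ B ∧ (s ≠ 0 → s ≠ 2 → μ s = 0) := by
    intro μ hμ s
    obtain ⟨k1, k2, k3⟩ := hr _ (e6 μ hμ).2
    refine ⟨?_, k3 s⟩
    by_cases hs : s = 0
    · rw [hs]
      exact k1
    · by_cases hs2 : s = 2
      · rw [hs2]
        exact k2
      · rw [k3 s hs hs2]
        exact Nat.zero_le _
  have hA : ∀ s : Fin 6, s ∉ ({0, 1, 2} : Set (Fin 6)) → s ≠ 0 ∧ s ≠ 2 := by
    intro s hs
    constructor <;> rintro rfl <;> exact hs (by simp)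
  have hc : ∀ (u t : Fin 6) (A A' : ℤ), t ≠ u → t ∈ ({0, 1, 2} : Set (Fin 6)) →
      u ∈ ({0, 1, 2} : Set (Fin 6)) → |(A : ℝ)| ≤ 2 ^ g → |(A' : ℝ)| ≤ 2 ^ g →
      RedRel {0, 1, 2} (B + 3) (2 ^ (g + 2) * T₁) t 2 1 (-(X u ^ 3 + (A : P6) * X u + (A' : P6))) := by
    intro u t A A' hut ht hu k1 k2
    refine ⟨ht, one_le_two, il_one.mono hΛ, (g2blk_il u k1 k2).mono hΛ1,
      fun μ hμ => g2blk_one μ hμ t, fun μ hμ => ?_, fun μ hμ s => ?_, fun μ hμ s => ?_⟩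
    · rw [(g2blk_supp u A A' μ hμ t).2 hut]
      exact two_pos
    · rw [g2blk_one μ hμ s]
      exact ⟨Nat.zero_le _, fun _ => rfl⟩
    · refine ⟨(g2blk_supp u A A' μ hμ s).1.trans (Nat.le_add_left _ _), fun hs =>
        (g2blk_supp u A A' μ hμ s).2 ?_⟩
      rintro rfl
      exact hs hu
  obtain ⟨ρ, hρ⟩ := red_list ({0, 1, 2} : Set (Fin 6)) (B + 3) hΛ
    ![0, 2, degreeOf 1 φ₁, 0, 0, 0] ![1, 1, lc, 1, 1, 1]
    ![0, -(X 0 ^ 3 + (a : P6) * X 0 + (b : P6)), ψ, 0, 0, 0]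
    [1, 2] (by
      refine List.Pairwise.cons ?_ (List.pairwise_singleton _ _)
      intro t ht
      rw [List.mem_singleton.1 ht]
      exact ⟨by decide, fun μ hμ => (hlc μ hμ 1).2 (by decide),
        fun μ hμ => (hψ μ hμ 1).2 (by decide) (by decide)⟩) (by
      intro t ht
      rcases List.mem_cons.1 ht with rfl | ht
      · exact hc 0 1 a b (by decide) (by simp) (by simp) w0 w1
      rw [List.mem_singleton.1 ht]
      exact ⟨by simp, h1, e3.mono hΛ2, e4.mono hΛ2, fun μ hμ => (e5 μ hμ).1,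
        fun μ hμ => (e6 μ hμ).1,
        fun μ hμ s => ⟨(hlc μ hμ s).1.trans (Nat.le_add_right _ _),
          fun hs => (hlc μ hμ s).2 (hA s hs).1⟩,
        fun μ hμ s => ⟨(hψ μ hμ s).1.trans (Nat.le_add_right _ _),
          fun hs => (hψ μ hμ s).2 (hA s hs).1 (hA s hs).2⟩⟩) N
  have hBN : (B + 4) ^ 2 * N ≤ (B + 4) ^ 3 * N :=
    Nat.mul_le_mul_right _ (Nat.pow_le_pow_right (by omega) (by omega))
  refine ⟨ρ, fun p hp => ?_⟩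
  obtain ⟨a1, a2, a3⟩ := hρ p fun μ hμ s hs => by
    obtain ⟨k0, k1, k2⟩ := hp μ hμ
    rcases hs with rfl | rfl | rfl <;> assumption
  refine ⟨fun T hT' => (a1 T hT').mono ?_, fun ν hν => ?_, fun S _ _ _ φ₂ z hz hq h0 => ?_⟩
  · have hT0 : 0 ≤ T := (nrm_nonneg (fun _ => zero_le_one) p).trans hT'.2
    refine mul_le_mul_of_nonneg_right (pow_le_pow_right₀ hΛ ?_) hT0
    show 2 * (B + 4) ^ 2 * N ≤ 3 * (B + 4) ^ 3 * N
    rw [mul_assoc, mul_assoc]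
    omega
  · obtain ⟨k1, k2, μ, hμ, k3⟩ := a2 ν hν
    exact ⟨(k2 0 (by simp)).trans hBN, k1 1 (by simp), lt_of_lt_of_le (k1 2 (by simp)) (hB 1),
      μ, hμ, k3 3 (by simp), k3 4 (by simp), k3 5 (by simp)⟩
  · refine a3 S (aeval z : P6 →ₐ[ℚ] S).toRingHom (fun t ht => ?_) h0
    rcases List.mem_cons.1 ht with rfl | ht
    · refine ⟨?_, ?_⟩
      · show aeval z ((1 : P6) * X 1 ^ 2 + -(X 0 ^ 3 + (a : P6) * X 0 + (b : P6))) = 0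
        simp [hz.e1]
      · show aeval z (1 : P6) ≠ 0
        simp
    rw [List.mem_singleton.1 ht]
    refine ⟨?_, hq lc e2 fun μ hμ s hs => (hlc μ hμ s).2 hs⟩
    show aeval z (lc * X 2 ^ degreeOf 1 φ₁ + ψ) = 0
    rw [← e1, g2blk_aeval, hz.f1]

end Pool.Agent.Lib.MP_8865d3_nt.G2
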