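import Pool.Agent.Lib.MP_8865d3_nt.G2Defs

/-! Degrees and lengths of the basic sections (compare `Vj/CvBound`). -/

namespace Pool.Agent.Lib.MP_8865d3_nt.G2

open MvPolynomial Finset Height Pool.Agent.Lib.Common.Subspace Pool.Agent.Lib.MP_651af7_nt.Vj

variable {a b : ℤ} {g : ℕ}

theorem g2bound_weight (w : Fin 6 → ℕ) (μ : Fin 6 →₀ ℕ) :
    Finsupp.weight w μ = ∑ i, μ i * w i := by
  rw [Finsupp.weight_apply, Finsupp.sum_fintype]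
  · simp
  · simp

theorem g2bound_fac (a b : ℤ) (s : ℕ) {n i : ℕ} (hi : i ≤ n) (e : Bool) (w : Fin 6 → ℕ)
    (h1 : w 1 = 2 * w 0) (h4 : w 4 = 2 * w 3) :
    WD w (fac (a : P6) b (X 3) (X 4) (mulP (a : P6) b (X 0) (X 1) s) n e i)
      (n * (2 * (w 3 + 4 ^ s * (w 0 + 0) + 0))) := by
  obtain ⟨k1, k2, k3⟩ := wd_mulP (wd_intCast w a) (wd_intCast w b) (wd_X w 0) (h1 ▸ wd_X w 1) s
  exact wd_fac (wd_intCast w a) (wd_intCast w b) (wd_X w 3) (h4 ▸ wd_X w 4) k1 k2 k3 hi e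

theorem weight_wg (μ : Fin 6 →₀ ℕ) :
    Finsupp.weight (wg 0) μ = μ 0 + 2 * μ 1 ∧ Finsupp.weight (wg 1) μ = μ 2 ∧
      Finsupp.weight (wg 2) μ = μ 3 + 2 * μ 4 ∧ Finsupp.weight (wg 3) μ = μ 5 := by
  refine ⟨?_, ?_, ?_, ?_⟩ <;> rw [g2bound_weight] <;> simp [wg, Fin.sum_univ_six] <;> omega

theorem wd_Gb (a b : ℤ) (s : ℕ) {n ν i j l : ℕ} (hi : i ≤ n) (hj : j ≤ n) (hl : l ≤ ν)
    (e : Bool) (t : Fin 4) :
    WD (wg t) (Gb a b s n e i j l) (![2 * n * 4 ^ s + ν, 4 ^ s * n, 2 * n, n] t) := by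
  have key : ∀ w : Fin 6 → ℕ, w 1 = 2 * w 0 → w 4 = 2 * w 3 →
      WD w (Gb a b s n e i j l) (n * (2 * (w 3 + 4 ^ s * (w 0 + 0) + 0)) +
        (j * w 5 + 4 ^ s * (n - j) * w 2) + l * w 0) := fun w h1 h4 =>
    ((g2bound_fac a b s hi e w h1 h4).mul (((wd_X w 5).pow j).mul ((wd_X w 2).pow _))).mul
      ((wd_X w 0).pow l)
  fin_cases t
  · refine (key _ rfl rfl).mono ?_
    show n * (2 * (0 + 4 ^ s * (1 + 0) + 0)) + (j * 0 + 4 ^ s * (n - j) * 0) + l * 1 ≤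
      2 * n * 4 ^ s + ν
    have : n * (2 * (0 + 4 ^ s * (1 + 0) + 0)) + (j * 0 + 4 ^ s * (n - j) * 0) + l * 1 =
      2 * n * 4 ^ s + l := by ring
    omega
  · refine (key _ rfl rfl).mono ?_
    show n * (2 * (0 + 4 ^ s * (0 + 0) + 0)) + (j * 0 + 4 ^ s * (n - j) * 1) + l * 0 ≤ 4 ^ s * n
    simp
  · refine (key _ rfl rfl).mono (le_of_eq ?_)
    show n * (2 * (1 + 4 ^ s * (0 + 0) + 0)) + (j * 0 + 4 ^ s * (n - j) * 0) + l * 0 = 2 * n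
    ring
  · refine (key _ rfl rfl).mono ?_
    show n * (2 * (0 + 4 ^ s * (0 + 0) + 0)) + (j * 1 + 4 ^ s * (n - j) * 0) + l * 0 ≤ n
    simpa using hj

theorem il_Gb (hg : Cf a b a b g) (s : ℕ) {n i : ℕ} (hi : i ≤ n) (j l : ℕ) (e : Bool) :
    IL (Gb a b s n e i j l) (2 ^ ((8 * g + 16) * n * 4 ^ s)) := by
  obtain ⟨ha, hb, -, -⟩ := hg
  have hΛ : (1 : ℝ) ≤ 2 ^ g := one_le_pow₀ (by norm_num)
  obtain ⟨k1, k2, k3⟩ := il_mulP hΛ (il_int (σ := Fin 6) ha) (il_int hb) (il_X 0) (il_X 1) s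
  refine (((il_fac hΛ (il_int ha) (il_int hb) (il_X 3) (il_X 4) k1 k2 k3 hi e).mul
    (((il_X 5).pow j).mul ((il_X 2).pow _))).mul ((il_X 0).pow l)).mono ?_
  have h4 : 1 ≤ 4 ^ s := Nat.one_le_pow _ _ (by norm_num)
  have e1 : (3 * 2 ^ g : ℝ) ^ 4 ^ s ≤ (2 ^ (g + 2)) ^ 4 ^ s :=
    pow_le_pow_left₀ (by positivity) (by rw [pow_add]; nlinarith) _
  have e2 : (12 * (2 ^ g) ^ 2 * ((3 * 2 ^ g) ^ 4 ^ s) ^ 2 : ℝ) ≤ 2 ^ ((8 * g + 16) * 4 ^ s) := by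
    calc (12 * (2 ^ g) ^ 2 * ((3 * 2 ^ g) ^ 4 ^ s) ^ 2 : ℝ)
        ≤ 2 ^ 4 * (2 ^ g) ^ 2 * ((2 ^ (g + 2)) ^ 4 ^ s) ^ 2 := by gcongr; norm_num
      _ = 2 ^ (4 + g * 2 + (g + 2) * 4 ^ s * 2) := by
          rw [← pow_mul, ← pow_mul, ← pow_mul, ← pow_add, ← pow_add, mul_assoc]
      _ ≤ 2 ^ ((8 * g + 16) * 4 ^ s) := by
          refine pow_le_pow_right₀ (by norm_num) ?_
          nlinarith
  have e3 := pow_le_pow_left₀ (by positivity) e2 n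
  simp only [one_pow, mul_one]
  refine e3.trans (le_of_eq ?_)
  rw [← pow_mul]
  congr 1
  ring

theorem wd_Gc (a b : ℤ) (s n : ℕ) {ν : ℕ} (c : VI n ν → ℤ) (e : Bool) (t : Fin 4) :
    WD (wg t) (Gc a b s n c e) (![2 * n * 4 ^ s + ν, 4 ^ s * n, 2 * n, n] t) := by
  refine wd_sum _ fun v _ => WD.zsmul ?_ _
  exact wd_Gb a b s (Nat.lt_succ_iff.1 v.1.2) (Nat.lt_succ_iff.1 v.2.1.2) v.2.2.2.le e t

/-- The last item: `IsWeightedHomogeneous` for the weight `![0, 0, 1, 0, 0, 4 ^ s]`; the factors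
`fac ..` and `X 0 ^ l` have `WD` zero for it. -/
theorem hom_Gc (a b : ℤ) (s n : ℕ) {ν : ℕ} (c : VI n ν → ℤ) (e : Bool) (c₀ : ℤ) :
    Hom (2 * n * 4 ^ s + ν) (4 ^ s) n (c₀ • Gc a b s n c e) := by
  intro μ hμ
  obtain ⟨w0, -, w2, w3⟩ := weight_wg μ
  have h0 := (wd_Gc a b s n c e 0).zsmul c₀ μ hμ
  have h2 := (wd_Gc a b s n c e 2).zsmul c₀ μ hμ
  have h3 := (wd_Gc a b s n c e 3).zsmul c₀ μ hμ
  rw [w0] at h0
  rw [w2] at h2
  rw [w3] at h3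
  refine ⟨h0, h2, h3, ?_⟩
  obtain ⟨w, hw⟩ : ∃ w : Fin 6 → ℕ, w = ![0, 0, 1, 0, 0, 4 ^ s] := ⟨_, rfl⟩
  have z0 : ∀ {p : P6}, WD w p 0 → IsWeightedHomogeneous w p 0 := fun h ν hν =>
    Nat.le_zero.1 (h ν (mem_support_iff.2 hν))
  have zs : ∀ {p : P6} {m : ℕ} (k : ℤ), IsWeightedHomogeneous w p m →
      IsWeightedHomogeneous w (k • p) m := fun {p m} k h =>
    (weightedHomogeneousSubmodule ℚ w m).toAddSubgroup.zsmul_mem h k
  have key : IsWeightedHomogeneous w (c₀ • Gc a b s n c e) (4 ^ s * n) := by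
    refine zs _ (IsWeightedHomogeneous.sum _ _ _ fun v _ => zs _ ?_)
    have hj : (v.2.1 : ℕ) ≤ n := Nat.lt_succ_iff.1 v.2.1.2
    have k1 := z0 ((g2bound_fac a b s (Nat.lt_succ_iff.1 v.1.2) e w (by simp [hw])
      (by simp [hw])).mono (by simp [hw]))
    have k2 := z0 (((wd_X w 0).pow v.2.2).mono (by simp [hw]))
    have k3 := ((isWeightedHomogeneous_X ℚ w 5).pow v.2.1).mul
      ((isWeightedHomogeneous_X ℚ w 2).pow (4 ^ s * (n - v.2.1)))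
    have k4 := (k1.mul k3).mul k2
    obtain ⟨r, hr⟩ := Nat.exists_eq_add_of_le hj
    have k5 : 0 + ((v.2.1 : ℕ) • w 5 + (4 ^ s * (n - v.2.1)) • w 2) + 0 = 4 ^ s * n := by
      rw [show n - v.2.1 = r by omega]
      conv_rhs => rw [hr]
      simp [hw]
      ring
    rw [k5] at k4
    exact k4
  have h5 := key (mem_support_iff.1 hμ)
  rw [g2bound_weight] at h5
  simp [hw, Fin.sum_univ_six] at h5
  rw [mul_comm (4 ^ s) (μ 5)]
  exact h5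

theorem aeval_Gb {S : Type*} [CommRing S] [Algebra ℚ S] (z : Fin 6 → S) (a b : ℤ) (s n : ℕ)
    (e : Bool) (i j l : ℕ) : aeval z (Gb a b s n e i j l) =
      fac (a : S) b (z 3) (z 4) (mulP (a : S) b (z 0) (z 1) s) n e i *
        (z 5 ^ j * z 2 ^ (4 ^ s * (n - j))) * z 0 ^ l := by
  have key : ∀ p : P6, aeval z p = (aeval z : P6 →ₐ[ℚ] S).toRingHom p := fun _ => rfl
  rw [key, Gb, map_mul, map_mul, map_mul, map_pow, map_pow, map_pow, map_fac, map3_mulP]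
  simp only [map_intCast, ← key, aeval_X]

theorem aeval_Gc_eq {S : Type*} [CommRing S] [Algebra ℚ S] (z : Fin 6 → S) (a b : ℤ)
    (s n : ℕ) {ν : ℕ} (c : VI n ν → ℤ) {w : S}
    (h1 : aP (a : S) b (z 3) (z 4) (mulP (a : S) b (z 0) (z 1) s) =
      w * aD (z 3) (mulP (a : S) b (z 0) (z 1) s))
    (h2 : aT (a : S) b (z 3) (mulP (a : S) b (z 0) (z 1) s) =
      w * aM (a : S) b (z 3) (z 4) (mulP (a : S) b (z 0) (z 1) s)) (e : Bool) :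
    aeval z (Gc a b s n c e) = (if e then w ^ n else 1) * aeval z (Gc a b s n c false) := by
  simp only [Gc, map_sum, map_zsmul, aeval_Gb, Finset.mul_sum]
  refine Finset.sum_congr rfl fun v _ => ?_
  have hi : (v.1 : ℕ) ≤ n := Nat.lt_succ_iff.1 v.1.2
  cases e <;>
    simp only [fac_true h1 h2 hi, zsmul_eq_mul, if_true, Bool.false_eq_true, if_false] <;> ring

end Pool.Agent.Lib.MP_8865d3_nt.G2
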