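import Pool.Agent.Lib.MP_8865d3_nt.G2Bound

/-! Existence of the formal branches (compare `Vj/CvBr`). -/

namespace Pool.Agent.Lib.MP_8865d3_nt.G2

open MvPolynomial Finset Height Pool.Agent.Lib.Common.Subspace Pool.Agent.Lib.MP_651af7_nt.Vj

variable {K : Type*} [Field K] [CharZero K] {a b : ℤ}

theorem exists_bq {φ : MvPolynomial (Fin 2) ℚ} {z : Fin 3 → K}
    (e1 : z 1 ^ 2 = z 0 ^ 3 + a * z 0 + b) (hf : aeval ![z 0, z 2] φ = 0) (y1 : z 1 ≠ 0)
    (sep : aeval ![z 0, z 2] (pderiv 1 φ) ≠ 0) : ∃ u, Bq a b φ z u := by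
  have hu : Function.update (fun s => PowerSeries.constantCoeff
      ((![PowerSeries.C (z 0) + PowerSeries.X, 0] : Fin 2 → PowerSeries K) s)) 1 (z 2) =
      ![z 0, z 2] := by
    funext i
    fin_cases i <;> simp
  obtain ⟨x', hx', hx''⟩ := hensel_exists φ 1 ![PowerSeries.C (z 0) + PowerSeries.X, 0] (z 2)
    (by rw [hu]; exact hf) (by rw [hu]; exact sep)
  have hv : Function.update (![PowerSeries.C (z 0) + PowerSeries.X, 0] : Fin 2 → PowerSeries K)
      1 x' = ![PowerSeries.C (z 0) + PowerSeries.X, x'] := by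
    funext i
    fin_cases i <;> simp
  rw [hv] at hx''
  obtain ⟨y, hy, hy'⟩ := exists_sqrt_branch (a := (a : K)) (b := (b : K))
    (PowerSeries.C (z 0) + PowerSeries.X) (by simpa using e1) y1
  simp only [map_intCast] at hy'
  refine ⟨![PowerSeries.C (z 0) + PowerSeries.X, y, x'], ?_, rfl, hy', hx'', y1, sep⟩
  intro i
  fin_cases i
  · simp
  · exact hy
  · exact hx'

theorem Bq.base {φ : MvPolynomial (Fin 2) ℚ} {z : Fin 3 → K} {u : Fin 3 → PowerSeries K}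
    (h : Bq a b φ z u) : z 1 ^ 2 = z 0 ^ 3 + a * z 0 + b ∧ aeval ![z 0, z 2] φ = 0 := by
  refine ⟨?_, ?_⟩
  · simpa only [h.cc] using cvBr_curve PowerSeries.constantCoeff h.e1
  · rw [← h.cc 0, ← h.cc 2, cvBr_map, h.f, map_zero]

theorem onW_Y1 {φ₁ φ₂ : MvPolynomial (Fin 2) ℚ} {z z' : Fin 3 → K} {u u' : Fin 3 → PowerSeries K}
    (h : Bq a b φ₁ z u) (h' : Bq a b φ₂ z' u') : OnW a b φ₁ φ₂ (Y1 u z') := by
  obtain ⟨h1, h3⟩ := h'.base
  let f : K →+* PowerSeries K := PowerSeries.C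
  refine ⟨h.e1, cvBr_curve f h1, h.f, ?_⟩
  change aeval ![f (z' 0), f (z' 2)] φ₂ = 0
  rw [cvBr_map, h3, map_zero]

theorem onW_Y2 {φ₁ φ₂ : MvPolynomial (Fin 2) ℚ} {z z' : Fin 3 → K} {u u' : Fin 3 → PowerSeries K}
    (h : Bq a b φ₁ z u) (h' : Bq a b φ₂ z' u') : OnW a b φ₁ φ₂ (Y2 u u') := by
  let f0 : PowerSeries K →+* MvPowerSeries (Fin 2) K := (PowerSeries.toMvPowerSeries 0).toRingHom
  let f1 : PowerSeries K →+* MvPowerSeries (Fin 2) K := (PowerSeries.toMvPowerSeries 1).toRingHom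
  refine ⟨cvBr_curve f0 h.e1, cvBr_curve f1 h'.e1, ?_, ?_⟩
  · change aeval ![f0 (u 0), f0 (u 2)] φ₁ = 0
    rw [cvBr_map, h.f, map_zero]
  · change aeval ![f1 (u' 0), f1 (u' 2)] φ₂ = 0
    rw [cvBr_map, h'.f, map_zero]

theorem g2br_uni {S : Type*} [CommRing S] [Algebra ℚ S] (q : P6)
    (hs : ∀ μ ∈ q.support, ∀ t, t ≠ 0 → μ t = 0) (w : Fin 6 → S) : aeval w q =
      Polynomial.aeval (w 0) (aeval (fun _ : Fin 6 => (Polynomial.X : Polynomial ℚ)) q) := by
  rw [← AlgHom.comp_apply, comp_aeval, aeval_def, aeval_def]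
  refine eval₂_congr _ _ _ fun {i c} hi hc => ?_
  have : i = 0 := by
    by_contra hi0
    exact Finsupp.mem_support_iff.1 hi (hs c (mem_support_iff.2 hc) i hi0)
  subst this
  simp

theorem aeval_Y1_ne_zero {φ : MvPolynomial (Fin 2) ℚ} {z z' : Fin 3 → K}
    {u : Fin 3 → PowerSeries K} (h : Bq a b φ z u) (q : P6) (hq : q ≠ 0)
    (hs : ∀ μ ∈ q.support, ∀ t, t ≠ 0 → μ t = 0) : aeval (Y1 u z') q ≠ 0 := by
  rw [g2br_uni q hs]
  have hp : aeval (fun _ : Fin 6 => (Polynomial.X : Polynomial ℚ)) q ≠ 0 := by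
    intro h0
    have := g2br_uni q hs (X : Fin 6 → P6)
    rw [h0, map_zero, aeval_X_left_apply] at this
    exact hq this
  change Polynomial.aeval (u 0) _ ≠ 0
  rw [h.par]
  exact cvBr_transc _ _ hp

/-- As `Vj.coeff_Gc`. -/
theorem coeff_Gc {φ₁ φ₂ : MvPolynomial (Fin 2) ℚ} {z z' : Fin 3 → K} {u u' : Fin 3 → PowerSeries K}
    (h : Bq a b φ₁ z u) (h' : Bq a b φ₂ z' u') {s n ν : ℕ} (c : VI n ν → ℤ) {xp : K}
    (hx : SumData (a : K) b (z' 0) (z' 1) (mulP (a : K) b (z 0) (z 1) s) xp) {κ : ℕ}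
    (hκ : ∀ l < κ, PowerSeries.coeff l (aeval (Y1 u z') (Gc a b s n c false)) = 0) (e : Bool) :
    PowerSeries.coeff κ (aeval (Y1 u z') (Gc a b s n c e)) =
      (if e then xp ^ n else 1) * PowerSeries.coeff κ (aeval (Y1 u z') (Gc a b s n c false)) := by
  have hV := onW_Y1 h h'
  have key : ∀ (A B : ℤ) {X Y X' Y' : PowerSeries K} {x y x' y' w₀ : K},
      Y ^ 2 = X ^ 3 + A * X + B → Y' ^ 2 = X' ^ 3 + A * X' + B →
      PowerSeries.constantCoeff X = x → PowerSeries.constantCoeff Y = y →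
      PowerSeries.constantCoeff X' = x' → PowerSeries.constantCoeff Y' = y' →
      SumData (A : K) B x' y' (mulP (A : K) B x y s) w₀ →
      ∃ w : PowerSeries K, PowerSeries.constantCoeff w = w₀ ∧
        aP (A : PowerSeries K) B X' Y' (mulP (A : PowerSeries K) B X Y s) =
          w * aD X' (mulP (A : PowerSeries K) B X Y s) ∧
        aT (A : PowerSeries K) B X' (mulP (A : PowerSeries K) B X Y s) =
          w * aM (A : PowerSeries K) B X' Y' (mulP (A : PowerSeries K) B X Y s) := by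
    intro A B X Y X' Y' x y x' y' w₀ e1 e2 c1 c2 c3 c4 hs
    refine exists_series_quot (aT_mul_aD e2 (onC_mulP e1 s)) ?_ ?_ ?_
    · rw [map_aP, map_aD, map3_mulP, map_intCast, map_intCast, c1, c2, c3, c4]
      exact hs.1
    · rw [map_aT, map_aM, map3_mulP, map_intCast, map_intCast, c1, c2, c3, c4]
      exact hs.2.1
    · rw [map_aM, map_aD, map3_mulP, map_intCast, map_intCast, c1, c2, c3, c4]
      exact hs.2.2
  obtain ⟨w, w1, w2, w3⟩ := key a b hV.e1 hV.e4 (h.cc 0) (h.cc 1)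
    (PowerSeries.constantCoeff_C (z' 0)) (PowerSeries.constantCoeff_C (z' 1)) hx
  rw [aeval_Gc_eq (Y1 u z') a b s n c w2 w3 e, coeff_mul_of_lt hκ]
  congr 1
  split_ifs <;> simp [w1]

/-- As `Vj.height_den_le`. -/
theorem height_den_le [AdmissibleAbsValues K] (a b : ℤ) (B : ℕ) : ∃ C : ℝ, 0 ≤ C ∧
    ∀ (φ : MvPolynomial (Fin 2) ℚ) (T w : ℝ) (z : Fin 3 → K) (u : Fin 3 → PowerSeries K),
      IL φ T → 1 ≤ T → Real.log T ≤ w → 1 ≤ w → (∀ i, degreeOf i φ ≤ B) → Bq a b φ z u →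
      logHeight₁ (z 0) + logHeight₁ (z 2) ≤ w →
      logHeight₁ (2 * z 1)⁻¹ + logHeight₁ (aeval ![z 0, z 2] (pderiv 1 φ))⁻¹ ≤ C * w := by
  set n : ℝ := (totalWeight K : ℝ) with hn
  have n0 : 0 ≤ n := Nat.cast_nonneg _
  have l3 : 0 ≤ Real.log 3 := Real.log_nonneg (by norm_num)
  set c : ℝ := logHeight₁ (2 : K) + n * Real.log 3 + logHeight₁ (a : K) +
    logHeight₁ (b : K) with hc
  have c0 : 0 ≤ c := by positivity
  refine ⟨c + 2 + n * (B + 1) + B, by positivity, fun φ T w z u hφ hT hw h1 hB h hz => ?_⟩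
  obtain ⟨b1, -⟩ := h.base
  have e1 := height_y_le b1
  have e2 := logHeight₁_mul_le (2 : K) (z 1)
  have hB0 : (0 : ℝ) ≤ B := Nat.cast_nonneg _
  have e5 : IL (pderiv 1 φ) ((B + 1) * T) :=
    (il_pderiv hφ 1 fun μ hμ => (monomial_le_degreeOf 1 hμ).trans (hB 1)).mono (by nlinarith)
  have e6 := height_aeval_le (by nlinarith) e5 (fun _ => B) (fun μ hμ t => by
    have := (monomial_le_degreeOf t (supp_pderiv φ 1 μ hμ)).trans (hB t)
    rw [Finsupp.add_apply] at this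
    omega) ![z 0, z 2]
  rw [Real.log_mul (by positivity) (by positivity), Fin.sum_univ_two] at e6
  simp only [Matrix.cons_val_zero, Matrix.cons_val_one] at e6
  have e7 : Real.log (B + 1) ≤ B := by
    linarith [Real.log_le_sub_one_of_pos (show (0 : ℝ) < B + 1 by positivity)]
  have e8 : n * (Real.log (B + 1) + Real.log T) ≤ n * ((B + 1) * w) :=
    mul_le_mul_of_nonneg_left (by nlinarith) n0
  have e9 := mul_le_mul_of_nonneg_left hz hB0
  have e10 := mul_le_mul_of_nonneg_left h1 c0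
  have e11 : 0 ≤ logHeight₁ (z 2) := by positivity
  have e12 : 0 ≤ logHeight₁ (a : K) := by positivity
  have e13 : 0 ≤ logHeight₁ (b : K) := by positivity
  have e14 : 0 ≤ logHeight₁ (z 0) := by positivity
  have e15 := mul_nonneg n0 l3
  rw [logHeight₁_inv, logHeight₁_inv]
  nlinarith

end Pool.Agent.Lib.MP_8865d3_nt.G2
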