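import Pool.Agent.Lib.MP_8865d3_nt.G2Blk
import Pool.Agent.Lib.MP_651af7_nt.Vj.CvCons

/-! Construction of the auxiliary polynomial (compare `Vj/CvCons`). -/

namespace Pool.Agent.Lib.MP_8865d3_nt.G2

open MvPolynomial Finset Height Pool.Agent.Lib.Common.Subspace Pool.Agent.Lib.MP_651af7_nt.Vj

variable {a b : ℤ} {g : ℕ}

lemma g2cons_card {B k n q ν β γ : ℕ} (hn : k + B + 2 ≤ 2 * n) (hβ : β + γ ≤ B) (hq : 0 < q)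
    (hc : 512 * (B + 4) ^ 5 * (k + 2) * q ≤ n * ν) {M : ℕ}
    (hM : M ≤ ((B + 4) ^ 3 * (3 * n * q) + 1) * 2 * B * (k + 2) * 2 * (β + 1 + γ)) :
    2 * (2 * M) ≤ (n + 1) ^ 2 * ν := by
  have h0 : 0 < (B + 4) ^ 3 * (n * q) := by
    have : 0 < n := by omega
    positivity
  have h1 : (B + 4) ^ 3 * (3 * n * q) + 1 ≤ 4 * ((B + 4) ^ 3 * (n * q)) := by
    have : (B + 4) ^ 3 * (3 * n * q) = 3 * ((B + 4) ^ 3 * (n * q)) := by ring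
    omega
  calc 2 * (2 * M) ≤ 2 * (2 * (4 * ((B + 4) ^ 3 * (n * q)) * 2 * (B + 4) * (k + 2) * 2 *
        (B + 4))) := by
        refine Nat.mul_le_mul_left _ (Nat.mul_le_mul_left _ (hM.trans ?_))
        gcongr ?_ * 2 * ?_ * (k + 2) * 2 * ?_ <;> omega
    _ = 64 * ((B + 4) ^ 5 * (k + 2) * q * n) := by ring
    _ ≤ 512 * ((B + 4) ^ 5 * (k + 2) * q * n) := Nat.mul_le_mul_right _ (by norm_num)
    _ = 512 * (B + 4) ^ 5 * (k + 2) * q * n := by ring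
    _ ≤ n * ν * n := Nat.mul_le_mul_right _ hc
    _ = n ^ 2 * ν := by ring
    _ ≤ (n + 1) ^ 2 * ν := by gcongr; omega

theorem g2cons_aux (hg : Cf a b a b g) {B k n s ν : ℕ} (hn : k + B + 2 ≤ 2 * n)
    {φ₁ φ₂ : MvPolynomial (Fin 2) ℚ} {T₁ T₂ : ℝ} (h₁ : IL φ₁ T₁) (h₂ : IL φ₂ T₂) (hT₁ : 1 ≤ T₁)
    (hT₂ : 1 ≤ T₂) (hB₁ : ∀ i, degreeOf i φ₁ ≤ B) (hd : 1 ≤ degreeOf 1 φ₁)
    (h0 : 1 ≤ degreeOf 0 φ₂) (hB₂ : ∀ i, degreeOf i φ₂ ≤ B) (hν : 0 < ν) (hν' : ν ≤ 4 ^ s)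
    (hc : 512 * (B + 4) ^ 5 * (k + 2) * 4 ^ s ≤ n * ν) {TG TF TR : ℝ}
    (hG : TG = 2 ^ ((8 * g + 16) * n * 4 ^ s))
    (hF : TF = 2 ^ (2 * (g + 2) * n) * T₂ ^ (2 * n + 1) ^ 2)
    (hR : TR = (2 ^ (g + 2) * T₁) ^ (3 * (B + 4) ^ 3 * (3 * n * 4 ^ s))) :
    ∃ (c : VI n ν → ℤ) (c₀ : ℤ) (Gl : Bool → P6), c ≠ 0 ∧ c₀ ≠ 0 ∧
      (∀ e, IL (c₀ • Gc a b s n c e)
        (TF * ((((n + 1) ^ 2 * ν : ℕ) : ℝ) ^ 2 * (TR * TF * TG) * TG))) ∧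
      (∀ e, IL (Gl e) (TF * ((((n + 1) ^ 2 * ν : ℕ) : ℝ) ^ 2 * (TR * TF * TG) * TG)) ∧ ∀ t,
        WD (wg t) (Gl e) (![2 * n * 4 ^ s + ν, 4 ^ s * n, 2 * n - k, n] t)) ∧
      ∀ (S : Type) [CommRing S] [IsDomain S] [Algebra ℚ S] (z : Fin 6 → S),
        OnW a b φ₁ φ₂ z →
        (∀ q : P6, q ≠ 0 → (∀ μ ∈ q.support, ∀ t, t ≠ 0 → μ t = 0) → aeval z q ≠ 0) →
        ∀ e, aeval z (Gl e) = aeval z (c₀ • Gc a b s n c e) := by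
  classical
  obtain ⟨c₀, β, γ, fl, hc0, hc0', hβ, hfl⟩ := blk2 hg h0 hT₂ h₂ hB₂ n
  obtain ⟨hi, hhi⟩ := exists_part {μ : Fin 6 →₀ ℕ | 2 * n < μ 3 + 2 * μ 4 + k}
  obtain ⟨ρ, hρ⟩ := blk1 hg hT₁ h₁ hB₁ hd (3 * n * 4 ^ s)
  obtain ⟨Mon, hM, hMon⟩ := exists_box ![range ((B + 4) ^ 3 * (3 * n * 4 ^ s) + 1), range 2,
    range B, Ioc (2 * n - (k + 2)) (2 * n), range 2, range (β + 1) ∪ Ioc (n - γ) n]
  have hcF : |(c₀ : ℝ)| ≤ TF :=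
    hF ▸ hc0'.trans (le_mul_of_one_le_left (by positivity) (one_le_pow₀ one_le_two))
  rw [← hF] at hfl
  rw [← hR] at hρ
  have hq : 0 < 4 ^ s := by positivity
  have hnq : 4 ^ s ≤ n * 4 ^ s := Nat.le_mul_of_pos_left _ (by omega)
  have e1 : 4 ^ s * n = n * 4 ^ s := mul_comm _ _
  have e2 : 2 * n * 4 ^ s = 2 * (n * 4 ^ s) := mul_assoc _ _ _
  have e3 : 3 * n * 4 ^ s = 3 * (n * 4 ^ s) := mul_assoc _ _ _
  have good : ∀ p : P6, (∀ t, WD (wg t) p (![2 * n * 4 ^ s + ν, 4 ^ s * n, 2 * n, n] t)) →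
      (∀ μ ∈ (fl p).support, μ 0 + 2 * μ 1 ≤ 2 * n * 4 ^ s + ν ∧ μ 2 ≤ 4 ^ s * n) ∧
      ∀ μ ∈ (hi (fl p)).support, μ 0 ≤ 3 * n * 4 ^ s ∧ μ 1 ≤ 3 * n * 4 ^ s ∧
        μ 2 ≤ 3 * n * 4 ^ s := fun p hp => by
    have k1 : ∀ μ ∈ (fl p).support, μ 0 + 2 * μ 1 ≤ 2 * n * 4 ^ s + ν ∧
        μ 2 ≤ 4 ^ s * n := fun μ hμ => by
      obtain ⟨-, -, -, -, η, hη, q0, q1, q2⟩ := (hfl p (hp 2) (hp 3)).2.2 μ hμ
      rw [q0, q1, q2, ← (weight_wg η).1, ← (weight_wg η).2.1]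
      exact ⟨hp 0 η hη, hp 1 η hη⟩
    refine ⟨k1, fun μ hμ => ?_⟩
    have := k1 μ ((hhi _).1 μ hμ).1
    omega
  have hb : ∀ (v : VI n ν) e t, WD (wg t) (Gb a b s n e v.1 v.2.1 v.2.2)
      (![2 * n * 4 ^ s + ν, 4 ^ s * n, 2 * n, n] t) := fun v e =>
    wd_Gb a b s (Nat.lt_succ_iff.1 v.1.2) (Nat.lt_succ_iff.1 v.2.1.2) v.2.2.2.le e
  have hl : ∀ (v : VI n ν) e, IL (Gb a b s n e v.1 v.2.1 v.2.2) TG := fun v e =>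
    hG ▸ il_Gb hg s (Nat.lt_succ_iff.1 v.1.2) _ _ e
  have hV : Fintype.card (VI n ν) = (n + 1) ^ 2 * ν := by
    simp only [Fintype.card_prod, Fintype.card_fin]
    ring
  have hG1 : 1 ≤ TG := hG ▸ one_le_pow₀ one_le_two
  have hF1 : 1 ≤ TF :=
    hF ▸ one_le_mul_of_one_le_of_one_le (one_le_pow₀ one_le_two) (one_le_pow₀ hT₂)
  have hR1 : 1 ≤ TR :=
    hR ▸ one_le_pow₀ (one_le_mul_of_one_le_of_one_le (one_le_pow₀ one_le_two) hT₁)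
  obtain ⟨c, hc1, hc2, hc3⟩ := sieg (V := VI n ν) (J := Bool)
    (fun v e => ρ (hi (fl (Gb a b s n e v.1 v.2.1 v.2.2)))) Mon (T := TR * TF * TG)
    (fun v e μ hμ => by
      obtain ⟨q0, q1, q2, η, hη, q3, q4, q5⟩ := (hρ _ (good _ (hb v e)).2).2.1 μ hμ
      obtain ⟨r1, r2⟩ := (hhi _).1 η hη
      obtain ⟨r5, r4, r6, r3, -⟩ := (hfl _ (hb v e 2) (hb v e 3)).2.2 η r1
      have r2' : 2 * n < η 3 + 2 * η 4 + k := r2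
      rw [hMon]
      simp only [Fin.forall_fin_succ, Matrix.cons_val_zero, Matrix.cons_val_succ, mem_range,
        mem_union, mem_Ioc, IsEmpty.forall_iff, and_true]
      change μ 0 < _ ∧ μ 1 < _ ∧ μ 2 < _ ∧ (_ < μ 3 ∧ μ 3 ≤ _) ∧ μ 4 < _ ∧
        (μ 5 < _ ∨ _ < μ 5 ∧ μ 5 ≤ _)
      omega)
    (one_le_mul_of_one_le_of_one_le (one_le_mul_of_one_le_of_one_le hR1 hF1) hG1)
    (fun v e => by
      rw [mul_assoc]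
      exact (hρ _ (good _ (hb v e)).2).1 _
        ((hhi _).2.2 _ ((hfl _ (hb v e 2) (hb v e 3)).2.1 _ (hl v e))).1)
    (by
      rw [hV, Fintype.card_bool]
      refine g2cons_card hn hβ hq hc ?_
      rw [hM, Fin.prod_univ_six]
      change #(range _) * #(range _) * #(range _) * #(Ioc _ _) * #(range _) *
        #(range _ ∪ Ioc _ _) ≤ _
      have u1 := card_union_le (range (β + 1)) (Ioc (n - γ) n)
      simp only [card_range, Nat.card_Ioc] at u1 ⊢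
      gcongr <;> omega)
    (by rw [hV]; positivity)
  rw [hV] at hc3
  have hGc : ∀ e, IL (Gc a b s n c e)
      ((((n + 1) ^ 2 * ν : ℕ) : ℝ) ^ 2 * (TR * TF * TG) * TG) := fun e => by
    refine (il_sum univ fun v _ => ((hl v e).zsmul (c v)).mono
      (mul_le_mul_of_nonneg_right (hc3 v) (zero_le_one.trans hG1))).mono (le_of_eq ?_)
    rw [sum_const, card_univ, hV, nsmul_eq_mul]
    ring
  have hw := wd_Gc a b s n c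
  refine ⟨c, c₀, fun e => fl (Gc a b s n c e) - hi (fl (Gc a b s n c e)), hc1, hc0,
    fun e => ((hGc e).zsmul c₀).mono (mul_le_mul_of_nonneg_right hcF (hGc e).nonneg),
    fun e => ⟨((hhi _).2.2 _ ((hfl _ (hw e 2) (hw e 3)).2.1 _ (hGc e))).2,
      fun t μ hμ => ?_⟩, fun S _ _ _ z hz hz' e => ?_⟩
  · obtain ⟨r1, r2⟩ := (hhi _).2.1 μ hμ
    have r2' : ¬2 * n < μ 3 + 2 * μ 4 + k := r2
    obtain ⟨r3, r4⟩ := (good _ (hw e)).1 μ r1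
    obtain ⟨-, -, r6, -⟩ := (hfl _ (hw e 2) (hw e 3)).2.2 μ r1
    obtain ⟨w0, w1, w2, w3⟩ := weight_wg μ
    fin_cases t
    exacts [w0.trans_le r3, w1.trans_le r4, w2.trans_le (show _ ≤ 2 * n - k by omega),
      w3.trans_le r6]
  · have z0 := (hρ _ (good _ (hw e)).2).2.2 S φ₂ z hz hz' (by
      simpa only [Gc, map_sum, map_zsmul] using hc2 e)
    rw [map_sub, z0, sub_zero, map_zsmul, zsmul_eq_mul]
    exact (hfl _ (hw e 2) (hw e 3)).1 S φ₁ z hz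

/-- As `Vj.construct_aux` and `Vj.construct`: `J = Bool`, `hi` = `exists_part` for
`{μ | 2 n < μ 3 + 2 * μ 4 + k}`, box `range ((B+4)^3 N + 1), range 2, range B, Ioc (2n-k-2) (2n),
range 2, range β ∪ Ioc (n - γ) n` (if `n < γ` the value `0` needs care: use
`range (β + 1) ∪ Ioc (n - γ) n`).  `Vj.construct_bound` applies as it stands; its second bound also
serves for `c₀ • Gc` since `|c₀| ≤ TF`. -/
theorem construct (hg : Cf a b a b g) (B k n : ℕ) (hn : k + B + 2 ≤ 2 * n) :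
    ∃ C : ℕ, ∀ (s ν : ℕ) (φ₁ φ₂ : MvPolynomial (Fin 2) ℚ) (T₁ T₂ : ℝ), IL φ₁ T₁ → IL φ₂ T₂ →
      2 ≤ T₁ → 1 ≤ T₂ → (∀ i, degreeOf i φ₁ ≤ B) → 1 ≤ degreeOf 1 φ₁ → 1 ≤ degreeOf 0 φ₂ →
      (∀ i, degreeOf i φ₂ ≤ B) → 0 < ν → ν ≤ 4 ^ s →
      512 * (B + 4) ^ 5 * (k + 2) * 4 ^ s ≤ n * ν →
      ∃ (c : VI n ν → ℤ) (c₀ : ℤ) (Gl : Bool → P6), c ≠ 0 ∧ c₀ ≠ 0 ∧
        (∀ e, IL (c₀ • Gc a b s n c e) (T₁ ^ (C * 4 ^ s) * T₂ ^ C)) ∧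
        (∀ e, IL (Gl e) (T₁ ^ (C * 4 ^ s) * T₂ ^ C) ∧ ∀ t,
          WD (wg t) (Gl e) (![2 * n * 4 ^ s + ν, 4 ^ s * n, 2 * n - k, n] t)) ∧
        ∀ (S : Type) [CommRing S] [IsDomain S] [Algebra ℚ S] (z : Fin 6 → S),
          OnW a b φ₁ φ₂ z →
          (∀ q : P6, q ≠ 0 → (∀ μ ∈ q.support, ∀ t, t ≠ 0 → μ t = 0) → aeval z q ≠ 0) →
          ∀ e, aeval z (Gl e) = aeval z (c₀ • Gc a b s n c e) := by
  obtain ⟨C, hC⟩ := construct_bound g B n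
  refine ⟨C, fun s ν φ₁ φ₂ T₁ T₂ h₁ h₂ hT₁ hT₂ hB₁ hd h0 hB₂ hν hν' hc => ?_⟩
  obtain ⟨c, c₀, Gl, k1, k2, k3, k4, k5⟩ := g2cons_aux hg hn h₁ h₂ (by linarith) hT₂ hB₁ hd h0
    hB₂ hν hν' hc rfl rfl rfl
  obtain ⟨-, b2⟩ := hC s ν T₁ T₂ _ _ _ hT₁ hT₂ hν' rfl rfl rfl
  exact ⟨c, c₀, Gl, k1, k2, fun e => (k3 e).mono b2, fun e => ⟨(k4 e).1.mono b2, (k4 e).2⟩, k5⟩

end Pool.Agent.Lib.MP_8865d3_nt.G2
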