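import Pool.Agent.Lib.MP_8865d3_nt.G2Br

/-! The estimate for polynomials that are homogeneous in the torus variables. -/

namespace Pool.Agent.Lib.MP_8865d3_nt.G2

open MvPolynomial Finset Height Pool.Agent.Lib.Common.Subspace Pool.Agent.Lib.MP_651af7_nt.Vj

variable {K : Type*} [Field K] [CharZero K] {a b : ℤ} {g : ℕ}

omit [CharZero K] in
theorem g2hom_shrink (L : Loc K) (κ : ℕ) {ρ t : ℝ} (hρ : 0 ≤ ρ) (ht : 0 ≤ t) (ht1 : t ≤ 1)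
    {f : PowerSeries K} (hf : PowerSeries.constantCoeff f = 0) :
    L.N κ (t * ρ) f ≤ t * L.N κ ρ f := by
  have h1 : ∀ l, L.v (PowerSeries.coeff l f) * (t * ρ) ^ l ≤
      t * (L.v (PowerSeries.coeff l f) * ρ ^ l) := fun l => by
    rcases l with _ | l
    · simp [hf]
    · have h2 : t ^ (l + 1) ≤ t := pow_le_of_le_one ht ht1 (Nat.succ_ne_zero l)
      have h3 := mul_nonneg (L.v.nonneg (PowerSeries.coeff (l + 1) f)) (pow_nonneg hρ (l + 1))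
      rw [mul_pow, mul_left_comm]
      exact mul_le_mul_of_nonneg_right h2 h3
  rcases L.h with he | ⟨he, -⟩
  · rw [L.ser_N_one he, L.ser_N_one he, mul_sum]
    exact sum_le_sum fun l _ => h1 l
  · exact L.ser_N_zero_le he fun l hl =>
      (h1 l).trans (mul_le_mul_of_nonneg_left (L.coeff_le hρ f hl) ht)

/-- Use the radius `ρ' = ρ * (max (v (z 2)⁻¹) 1)⁻¹`.  A series `f` with constant term zero has
`N κ (t * ρ) f ≤ t * N κ ρ f` for `0 ≤ t ≤ 1`, so `N κ ρ' (u i - C) ≤ 1` and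
`N κ ρ' (u 2 - C) ≤ v (z 2)`, `N κ ρ' (u 2) ≤ 2 ^ e * v (z 2)`.  Then `Nrm.aeval_le` for `L.ser κ _`
monomial by monomial (`hX`, `hY` in the proof of `Vj.coeff_Z1_le`, `c = (6 * 2 ^ g) ^ e`):
`v (z 2) ^ μ 2 * v (z' 2) ^ μ 5 = v (z 2) ^ (q * n) * v (z' 2 / z 2 ^ q) ^ μ 5`; `coeff_le`. -/
theorem coeff_Y1_hom (hg : Cf a b a b g) {φ₁ φ₂ : MvPolynomial (Fin 2) ℚ} {z z' : Fin 3 → K}
    {u u' : Fin 3 → PowerSeries K} (h : Bq a b φ₁ z u) (h' : Bq a b φ₂ z' u') (h2 : z 2 ≠ 0)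
    (L : Loc K) (κ : ℕ) {ρ : ℝ} (hρ : 0 < ρ)
    (hu : ∀ i, L.N κ ρ (u i - PowerSeries.C (z i)) ≤ 1) {p : P6} {T : ℝ} (hp : IL p T)
    {D q n : ℕ} (hD : Hom D q n p) :
    L.v (PowerSeries.coeff κ (aeval (Y1 u z') p)) ≤
      (T * (6 * 2 ^ g) ^ (D + q * n + 2 * n)) ^ L.e *
        (max (L.v (z 0)) 1 ^ D * L.v (z 2) ^ (q * n) * max (L.v (z' 0)) 1 ^ (2 * n) *
          max (L.v (z' 2 / z 2 ^ q)) 1 ^ n) * (ρ⁻¹ * max (L.v (z 2)⁻¹) 1) ^ κ := by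
  obtain ⟨b1, -⟩ := h.base
  obtain ⟨b4, -⟩ := h'.base
  set m := max (L.v (z 2)⁻¹) 1 with hm
  have hm1 : 1 ≤ m := le_max_right _ _
  have hm0 : 0 < m := zero_lt_one.trans_le hm1
  have ht0 : 0 ≤ m⁻¹ := inv_nonneg.2 hm0.le
  have ht1 : m⁻¹ ≤ 1 := inv_le_one_of_one_le₀ hm1
  have hv : 0 < L.v (z 2) := L.v.pos h2
  have ht2 : m⁻¹ ≤ L.v (z 2) := by
    rw [inv_le_comm₀ hm0 hv, ← map_inv₀]
    exact le_max_left _ _
  have hρ' : 0 < m⁻¹ * ρ := mul_pos (inv_pos.2 hm0) hρ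
  have hu' : ∀ i, L.N κ (m⁻¹ * ρ) (u i - PowerSeries.C (z i)) ≤ m⁻¹ := fun i =>
    (g2hom_shrink L κ hρ.le ht0 ht1 (by simp [h.cc i])).trans
      (mul_le_of_le_one_right ht0 (hu i))
  set c : ℝ := (6 * 2 ^ g) ^ L.e with hc
  have hg1 : (1 : ℝ) ≤ 2 ^ g := one_le_pow₀ one_le_two
  have hA1 : (1 : ℝ) ≤ (2 ^ g) ^ L.e := one_le_pow₀ hg1
  have h31 : (1 : ℝ) ≤ 3 ^ L.e := one_le_pow₀ (by norm_num)
  have h21 : (1 : ℝ) ≤ 2 ^ L.e := one_le_pow₀ (by norm_num)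
  have hc' : c = 2 ^ L.e * (3 ^ L.e * (2 ^ g) ^ L.e) := by
    rw [hc, ← mul_pow, ← mul_pow, ← mul_assoc]
    norm_num
  have h32 : (1 : ℝ) ≤ 3 ^ L.e * (2 ^ g) ^ L.e := one_le_mul_of_one_le_of_one_le h31 hA1
  have hc1 : 1 ≤ c := by
    rw [hc']
    exact one_le_mul_of_one_le_of_one_le h21 h32
  have hc2 : 2 ^ L.e ≤ c := by
    rw [hc']
    exact le_mul_of_one_le_right (by positivity) h32
  have hadd : ∀ (f : PowerSeries K) (x : K) (M : ℝ), L.v x ≤ M →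
      L.N κ (m⁻¹ * ρ) (f - PowerSeries.C x) ≤ M → L.N κ (m⁻¹ * ρ) f ≤ 2 ^ L.e * M :=
    fun f x M hx hf => by
      have := (L.ser κ hρ'.le).add_le_two (u := f - PowerSeries.C x) (u' := PowerSeries.C x)
        hf ((L.N_C hρ'.le x).le.trans hx)
      rwa [sub_add_cancel] at this
  have hC0 : ∀ x : K, L.N κ (m⁻¹ * ρ) (PowerSeries.C x - PowerSeries.C x) ≤ 1 := fun x => by
    rw [sub_self]
    exact (L.ser κ hρ'.le).zero.le.trans zero_le_one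
  have hX : ∀ (f : PowerSeries K) (x : K), L.N κ (m⁻¹ * ρ) (f - PowerSeries.C x) ≤ 1 →
      L.N κ (m⁻¹ * ρ) f ≤ c * max (L.v x) 1 := fun f x hf =>
    (hadd f x _ (le_max_left _ _) (hf.trans (le_max_right _ _))).trans
      (mul_le_mul_of_nonneg_right hc2 (by positivity))
  have hY : ∀ (f : PowerSeries K) {x y : K}, y ^ 2 = x ^ 3 + a * x + b →
      L.N κ (m⁻¹ * ρ) (f - PowerSeries.C y) ≤ 1 →
      L.N κ (m⁻¹ * ρ) f ≤ (c * max (L.v x) 1) ^ 2 := fun f x y e hf => by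
    have hM : 1 ≤ max (L.v x) 1 := le_max_right _ _
    have h1 := cvEst_y L e hA1 hM (cvEst_int L hg.1) (cvEst_int L hg.2.1) (le_max_left _ _)
    refine (hadd f y _ h1 (hf.trans (one_le_mul_of_one_le_of_one_le h32 (one_le_pow₀ hM)))).trans ?_
    rw [← mul_assoc, ← hc', mul_pow]
    exact mul_le_mul_of_nonneg_right (le_self_pow₀ hc1 two_ne_zero) (by positivity)
  set E₀ := c * max (L.v (z 0)) 1 with hE₀
  set E₃ := c * max (L.v (z' 0)) 1 with hE₃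
  set w := max (L.v (z' 2 / z 2 ^ q)) 1 with hw
  have e₀ : 1 ≤ E₀ := one_le_mul_of_one_le_of_one_le hc1 (le_max_right _ _)
  have e₃ : 1 ≤ E₃ := one_le_mul_of_one_le_of_one_le hc1 (le_max_right _ _)
  have w1 : 1 ≤ w := le_max_right _ _
  have hz : ∀ s, (L.ser κ hρ'.le).N (Y1 u z' s) ≤
      ![E₀, E₀ ^ 2, c * L.v (z 2), E₃, E₃ ^ 2, L.v (z 2) ^ q * w] s := fun s => by
    fin_cases s
    · exact hX _ _ ((hu' 0).trans ht1)
    · exact hY _ b1 ((hu' 1).trans ht1)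
    · exact (hadd _ _ _ le_rfl ((hu' 2).trans ht2)).trans (mul_le_mul_of_nonneg_right hc2 hv.le)
    · exact hX _ _ (hC0 (z' 0))
    · exact hY _ b4 (hC0 (z' 1))
    · refine (L.N_C hρ'.le (z' 2)).le.trans ?_
      change _ ≤ L.v (z 2) ^ q * w
      rw [← div_le_iff₀' (pow_pos hv q), ← map_pow, ← map_div₀]
      exact le_max_left _ _
  have key := (L.ser κ hρ'.le).aeval_le hp (Y1 u z')
    (M := E₀ ^ D * (c ^ (q * n) * L.v (z 2) ^ (q * n)) * E₃ ^ (2 * n) * w ^ n) (by positivity)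
    fun μ hμ => by
      obtain ⟨d1, d2, d3, d4⟩ := hD μ hμ
      rw [Finsupp.prod_fintype _ _ fun _ => pow_zero _]
      refine ((L.ser κ hρ'.le).prod_le univ fun s _ =>
        (L.ser κ hρ'.le).pow_le (hz s) (μ s)).trans ?_
      rw [Fin.prod_univ_six]
      simp only [Matrix.cons_val]
      calc E₀ ^ μ 0 * (E₀ ^ 2) ^ μ 1 * (c * L.v (z 2)) ^ μ 2 * E₃ ^ μ 3 * (E₃ ^ 2) ^ μ 4 *
            (L.v (z 2) ^ q * w) ^ μ 5
          = E₀ ^ (μ 0 + 2 * μ 1) * (c ^ μ 2 * L.v (z 2) ^ (μ 2 + q * μ 5)) *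
            E₃ ^ (μ 3 + 2 * μ 4) * w ^ μ 5 := by ring
        _ ≤ _ := by
          rw [d4]
          have d5 : μ 2 ≤ q * n := by omega
          gcongr
  have h1 := (L.coeff_le hρ'.le (aeval (Y1 u z') p) (le_refl κ)).trans key
  rw [show ρ⁻¹ * m = (m⁻¹ * ρ)⁻¹ by rw [mul_inv, inv_inv, mul_comm], inv_pow,
    le_mul_inv_iff₀ (pow_pos hρ' κ)]
  refine h1.trans (le_of_eq ?_)
  rw [mul_pow T, ← pow_mul _ (D + q * n + 2 * n), mul_comm _ L.e, pow_mul _ L.e, ← hc, hE₀, hE₃]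
  simp only [Loc.ser]
  ring

end Pool.Agent.Lib.MP_8865d3_nt.G2
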