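import Pool.Agent.Lib.MP_8865d3_nt.G2Est
import Pool.Agent.Lib.MP_8865d3_nt.G2Hom

/-! The product formula for the first nonzero coefficient. -/

namespace Pool.Agent.Lib.MP_8865d3_nt.G2

open MvPolynomial Finset Height Pool.Agent.Lib.Common.Subspace Pool.Agent.Lib.MP_651af7_nt.Vj

variable {K : Type*} [Field K] [CharZero K] [AdmissibleAbsValues K] {a b : ℤ} {g : ℕ}

open Classical in
omit [CharZero K] in
theorem g2ineq_finS (A : Set (AbsoluteValue K ℝ)) (x : K) :
    FinS fun v : AbsoluteValue K ℝ => Real.log (if v ∈ A then max (v x) 1 else 1) := by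
  refine pf_of_le (finS_max x) fun v hv => ?_
  split_ifs
  · exact hv
  · exact Real.log_one

theorem main_ineq (hg : Cf a b a b g) (B : ℕ) : ∃ C : ℝ, 0 ≤ C ∧
    ∀ (A : Set (AbsoluteValue K ℝ)) (φ₁ φ₂ : MvPolynomial (Fin 2) ℚ) (T₁ T w : ℝ)
      (z z' : Fin 3 → K) (u u' : Fin 3 → PowerSeries K) (n k q D κ : ℕ) (xp γ : K)
      (Gl Gh : Bool → P6), IL φ₁ T₁ → 2 ≤ T₁ → Real.log T₁ ≤ w → 1 ≤ w →
      (∀ i, degreeOf i φ₁ ≤ B) → Bq a b φ₁ z u → Bq a b φ₂ z' u' →
      logHeight₁ (z 0) + logHeight₁ (z 2) ≤ w → z 2 ≠ 0 → k ≤ 2 * n → 1 ≤ T →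
      (∀ e, IL (Gl e) T ∧ ∀ t, WD (wg t) (Gl e) (![D, q * n, 2 * n - k, n] t)) →
      (∀ e, IL (Gh e) T ∧ Hom D q n (Gh e)) → γ ≠ 0 →
      (∀ e, PowerSeries.coeff κ (aeval (Y1 u z') (Gl e)) = (if e then xp ^ n else 1) * γ) →
      (∀ e, PowerSeries.coeff κ (aeval (Y1 u z') (Gh e)) = (if e then xp ^ n else 1) * γ) →
      n * logHeight₁ xp + k * inn A (z' 0) ≤
        D * logHeight₁ (z 0) + 2 * n * logHeight₁ (z' 0) + n * logHeight₁ (z' 2 / z 2 ^ q) +
          q * n * inn A (z 2)⁻¹ + n * inn A (z' 2) + totalWeight K * Real.log T +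
          C * ((D + q * n + 3 * n : ℕ) + κ * w) := by
  classical
  obtain ⟨C₁, H₁⟩ := bq_est (K := K) hg B
  obtain ⟨C₂, hC₂, H₂⟩ := height_den_le (K := K) a b B
  set m : ℝ := (totalWeight K : ℝ) with hm
  have m0 : 0 ≤ m := Nat.cast_nonneg _
  have g6 : (1 : ℝ) ≤ 6 * 2 ^ g :=
    one_le_mul_of_one_le_of_one_le (by norm_num) (one_le_pow₀ one_le_two)
  have l6 : 0 ≤ Real.log (6 * 2 ^ g) := Real.log_nonneg g6
  refine ⟨m * Real.log (6 * 2 ^ g) + (C₁ * (m + 1 + C₂) + 1), by positivity, ?_⟩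
  intro A φ₁ φ₂ T₁ T w z z' u u' n k q D κ xp γ Gl Gh h₁ hT₁ hw h1 hB h h' hz h2 hk hT hG hH hγ
    hc hc'
  have T0 : 0 < T₁ := by linarith
  let M : K → AbsoluteValue K ℝ → ℝ := fun x v => max (v x) 1
  let I : K → AbsoluteValue K ℝ → ℝ := fun x v => if v ∈ A then max (v x) 1 else 1
  have M1 : ∀ x v, 1 ≤ M x v := fun x v => le_max_right _ _
  have I1 : ∀ x v, 1 ≤ I x v := fun x v => by
    simp only [I]
    split_ifs
    exacts [le_max_right _ _, le_rfl]
  have key := pf_gen (g := γ / z 2 ^ (q * n)) (div_ne_zero hγ (pow_ne_zero _ h2))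
    ![M xp, I (z' 0)] (by
      intro i
      fin_cases i
      exacts [finS_max _, g2ineq_finS _ _]) (by
      intro i v
      fin_cases i
      exacts [one_pos.trans_le (M1 _ _), one_pos.trans_le (I1 _ _)]) ![n, k]
    ![M (z 0), M (z' 0), M (z' 2 / z 2 ^ q), I (z 2)⁻¹, I (z' 2), M (z 2)⁻¹, M (z 2),
      M (2 * z 1)⁻¹, M (aeval ![z 0, z 2] (pderiv 1 φ₁))⁻¹] (by
      intro i
      fin_cases i
      exacts [finS_max _, finS_max _, finS_max _, g2ineq_finS _ _, g2ineq_finS _ _, finS_max _,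
        finS_max _, finS_max _, finS_max _]) (by
      intro i v
      fin_cases i
      exacts [one_pos.trans_le (M1 _ _), one_pos.trans_le (M1 _ _), one_pos.trans_le (M1 _ _),
        one_pos.trans_le (I1 _ _), one_pos.trans_le (I1 _ _), one_pos.trans_le (M1 _ _),
        one_pos.trans_le (M1 _ _), one_pos.trans_le (M1 _ _), one_pos.trans_le (M1 _ _)])
    ![D + C₁ * κ, 2 * n, n, q * n, n, κ, C₁ * κ, C₁ * κ, C₁ * κ]
    (C := T * (6 * 2 ^ g) ^ (D + q * n + 3 * n) * T₁ ^ (C₁ * κ)) (by positivity) (fun L => by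
      obtain ⟨ρ, r0, r1, r2⟩ := H₁ φ₁ T₁ h₁ hT₁ hB z u h L κ
      let e : Bool := decide (1 ≤ L.v xp)
      have f : L.v (if e = true then xp ^ n else 1) = max (L.v xp) 1 ^ n := by
        split_ifs with hx
        · rw [map_pow, max_eq_left (of_decide_eq_true hx)]
        · rw [max_eq_right (not_le.1 fun h => hx (decide_eq_true h)).le]
          simp
      have b2 := pow_le_pow_left₀ (by positivity) r1 κ
      have p2 : 0 < L.v (z 2) := L.v.pos h2
      have c1 : ∀ j : ℕ, j ≤ D + q * n + 3 * n → (T * (6 * 2 ^ g) ^ j) ^ L.e ≤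
          (T * (6 * 2 ^ g) ^ (D + q * n + 3 * n)) ^ L.e := fun j hj => by
        have := pow_le_pow_right₀ g6 hj
        gcongr
      simp only [Fin.prod_univ_succ, Fin.prod_univ_zero, Matrix.cons_val_zero, Matrix.cons_val_succ,
        mul_one, M, I]
      rw [map_div₀, map_pow, div_mul_eq_mul_div, div_le_iff₀ (by positivity)]
      by_cases hA : L.v ∈ A
      · have b1 := coeff_Y1_le hg h h' L κ r0 r2 (hG e).1 _ (hG e).2
        simp only [Matrix.cons_val_zero, Matrix.cons_val_one, Matrix.cons_val] at b1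
        rw [hc e, map_mul, f] at b1
        have c2 := c1 (D + q * n + (2 * n - k) + n) (by omega)
        have c3 : max (L.v (z 2)) 1 = max (L.v (z 2)⁻¹) 1 * L.v (z 2) := by
          rw [max_mul_of_nonneg _ _ p2.le, map_inv₀, inv_mul_cancel₀ p2.ne', one_mul, max_comm]
        have c4 : max (L.v (z' 0)) 1 ^ (2 * n) =
            max (L.v (z' 0)) 1 ^ (2 * n - k) * max (L.v (z' 0)) 1 ^ k := by
          rw [← pow_add, Nat.sub_add_cancel hk]
        have c5 : (1 : ℝ) ≤ max (L.v (z' 2 / z 2 ^ q)) 1 ^ n * max (L.v (z 2)⁻¹) 1 ^ κ :=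
          one_le_mul_of_one_le_of_one_le (one_le_pow₀ (le_max_right _ _))
            (one_le_pow₀ (le_max_right _ _))
        have b3 := b1.trans (mul_le_mul (mul_le_mul_of_nonneg_right c2 (by positivity)) b2
          (by positivity) (by positivity))
        have b4 := (mul_le_mul_of_nonneg_right b3 (pow_nonneg
          (zero_le_one.trans (le_max_right (L.v (z' 0)) 1)) k)).trans
          (le_mul_of_one_le_right (by positivity) c5)
        simp only [if_pos hA]
        refine le_trans (le_of_eq (by ring)) (b4.trans (le_of_eq ?_))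
        rw [c4, congrArg (· ^ (q * n)) c3]
        ring
      · have b1 := coeff_Y1_hom hg h h' h2 L κ r0 r2 (hH e).1 (hH e).2
        rw [hc' e, map_mul, f, mul_pow ρ⁻¹] at b1
        have c2 := c1 (D + q * n + 2 * n) (by omega)
        have b3 := b1.trans (mul_le_mul (mul_le_mul_of_nonneg_right c2 (by positivity))
          (mul_le_mul_of_nonneg_right b2 (by positivity)) (by positivity) (by positivity))
        simp only [if_neg hA]
        refine le_trans (le_of_eq (by ring)) (b3.trans (le_of_eq ?_))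
        ring)
  have k2 := H₂ φ₁ T₁ w z u h₁ (by linarith) hw h1 hB h hz
  rw [Real.log_mul (by positivity) (by positivity), Real.log_mul (by positivity) (by positivity),
    Real.log_pow, Real.log_pow] at key
  simp only [Fin.sum_univ_succ, Fin.sum_univ_zero, Matrix.cons_val_zero, Matrix.cons_val_succ,
    add_zero, M, gsum_max] at key
  change _ + k * inn A (z' 0) ≤ _ + (_ + (_ + (_ + (_ * inn A (z 2)⁻¹ + (_ * inn A (z' 2) + _)))))
    at key
  rw [logHeight₁_inv (z 2)] at key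
  have q0 : (0 : ℝ) ≤ C₁ * κ := by positivity
  have k3 := mul_le_mul_of_nonneg_left k2 q0
  have k4 := mul_le_mul_of_nonneg_left hz q0
  have k5 := mul_le_mul_of_nonneg_left hw (mul_nonneg m0 q0)
  have k6 : 0 ≤ m * Real.log (6 * 2 ^ g) * (κ * w) := by positivity
  have k7 : (0 : ℝ) ≤ (C₁ * (m + 1 + C₂) + 1) * (D + q * n + 3 * n : ℕ) := by positivity
  have k8 : (κ : ℝ) * logHeight₁ (z 2) ≤ κ * w :=
    mul_le_mul_of_nonneg_left (by linarith [zero_le_logHeight₁ (z 0)]) (Nat.cast_nonneg _)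
  push_cast at key k7 ⊢
  nlinarith

end Pool.Agent.Lib.MP_8865d3_nt.G2
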