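import Pool.Agent.Lib.MP_8865d3_nt.G2Br
import Pool.Agent.Lib.MP_651af7_nt.Vj.CvOrd

/-! The auxiliary polynomial has a small order along the first branch (compare `Vj/CvOrd`). -/

namespace Pool.Agent.Lib.MP_8865d3_nt.G2

open MvPolynomial Finset Height Pool.Agent.Lib.Common.Subspace Pool.Agent.Lib.MP_651af7_nt.Vj
  Pool.Agent.Lib.Common.ZeroLemma

variable {K : Type*} [Field K] [CharZero K] {a b : ℤ} {g : ℕ}

theorem g2ord_coeff {z' : Fin 3 → K} (u u' : Fin 3 → PowerSeries K)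
    (h' : ∀ i, PowerSeries.constantCoeff (u' i) = z' i) (p : P6) (κ : ℕ) :
    PowerSeries.coeff κ (aeval (Y1 u z') p) =
      MvPowerSeries.coeff (Finsupp.single 0 κ) (aeval (Y2 u u') p) := by
  have h1 : aeval (Y1 u z') p =
      MvPowerSeries.killCompl (Function.Embedding.punit (0 : Fin 2)) (aeval (Y2 u u') p) := by
    have h2 := comp_aeval_apply (f := Y2 u u') (MvPowerSeries.killCompl (R := K)
      (Function.Embedding.punit (0 : Fin 2))).toRingHom.toRatAlgHom p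
    refine Eq.trans ?_ h2.symm
    congr 2
    funext i
    fin_cases i
    · exact (cvord_kill_zero _).symm
    · exact (cvord_kill_zero _).symm
    · exact (cvord_kill_zero _).symm
    · exact ((cvord_kill_one _).trans (congrArg _ (h' _))).symm
    · exact ((cvord_kill_one _).trans (congrArg _ (h' _))).symm
    · exact ((cvord_kill_one _).trans (congrArg _ (h' _))).symm
  rw [h1, PowerSeries.coeff, MvPowerSeries.coeff_killCompl, Finsupp.embDomain_single]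
  rfl

theorem g2ord_supp {s t : Fin 6} (ψ : MvPolynomial (Fin 2) ℚ) {r : Fin 6} (hs : r ≠ s)
    (ht : r ≠ t) : ∀ μ ∈ (rename ![s, t] ψ).support, μ r = 0 := by
  intro μ hμ
  obtain ⟨ν, -, rfl⟩ := supp_rename _ _ μ hμ
  refine Finsupp.mapDomain_of_notMem_range _ _ ?_
  rintro ⟨i, hi⟩
  fin_cases i
  · exact hs hi.symm
  · exact ht hi.symm

theorem g2ord_rel {Z : Fin 6 → MvPowerSeries (Fin 2) K} {w : Fin 6 → ℝ} {ε : ℝ} {B : ℕ}
    {s t : Fin 6} (hst : s ≠ t) (hw : w s ≤ w t) {ψ : MvPolynomial (Fin 2) ℚ}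
    (hψ : IL ψ (Real.exp (ε * w t))) (hd : ∀ i, ∀ μ ∈ ψ.support, μ i ≤ B)
    (h0 : aeval ![Z s, Z t] ψ = 0) {x y : K} (hx : MvPowerSeries.constantCoeff (Z s) = x)
    (hy : MvPowerSeries.constantCoeff (Z t) = y) (h1 : aeval ![x, y] (pderiv 1 ψ) ≠ 0) :
    Rel (aeval Z : P6 →ₐ[ℚ] _).toRingHom w ε B t (rename ![s, t] ψ) := by
  have hi : Function.Injective ![s, t] := by
    intro i j hij
    fin_cases i <;> fin_cases j
    · rfl
    · exact absurd hij hst
    · exact absurd hij hst.symm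
    · rfl
  have hZ : Z ∘ ![s, t] = ![Z s, Z t] := by
    funext i
    fin_cases i <;> rfl
  refine ⟨(hψ.rename _).1, fun μ hμ r => ?_, fun μ hμ r hr => ?_, (hψ.rename _).2, ?_, ?_⟩
  · by_cases hr : r ∈ Set.range ![s, t]
    · obtain ⟨ν, hν, rfl⟩ := supp_rename _ _ μ hμ
      obtain ⟨i, rfl⟩ := hr
      rw [Finsupp.mapDomain_apply hi]
      exact hd i ν hν
    · rw [g2ord_supp ψ (fun e => hr ⟨0, e.symm⟩) (fun e => hr ⟨1, e.symm⟩) μ hμ]
      exact Nat.zero_le _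
  · refine g2ord_supp ψ ?_ ?_ μ hμ
    · rintro rfl
      exact absurd hr (not_lt.2 hw)
    · rintro rfl
      exact lt_irrefl _ hr
  · change aeval Z (rename ![s, t] ψ) = 0
    rw [aeval_rename, hZ, h0]
  · change aeval Z (pderiv (![s, t] 1) (rename ![s, t] ψ)) ≠ 0
    rw [pderiv_rename hi, aeval_rename, hZ]
    intro h2
    have h3 := comp_aeval_apply (f := ![Z s, Z t])
      (MvPowerSeries.constantCoeff (σ := Fin 2) (R := K)).toRatAlgHom (pderiv 1 ψ)
    rw [h2, map_zero] at h3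
    refine h1 (Eq.trans ?_ h3.symm)
    congr 2
    funext i
    fin_cases i
    · exact hx.symm
    · exact hy.symm

/-- As `Vj.small_order` with `e = ![0, 3]`, four relations, `l = [1, 4, 2, 5]`. -/
theorem small_order [AdmissibleAbsValues K] (hg : Cf a b a b g) (B C₀ : ℕ) (hC₀ : 1 ≤ C₀)
    {θ : ℝ} (hθ : 0 < θ) : ∃ Bz s₀ : ℕ, ∀ (ε w : ℝ) (s : ℕ) (φ₁ φ₂ : MvPolynomial (Fin 2) ℚ)
      (z z' : Fin 3 → K) (u u' : Fin 3 → PowerSeries K) (G : P6), 0 < ε → g + 2 ≤ ε * w → s₀ ≤ s →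
      IL φ₁ (Real.exp (ε * w)) → IL φ₂ (Real.exp (ε * (4 ^ s * w))) →
      (∀ i, degreeOf i φ₁ ≤ B) → (∀ i, degreeOf i φ₂ ≤ B) →
      Bq a b φ₁ z u → Bq a b φ₂ z' u' → IL G (Real.exp (ε * (C₀ * (4 ^ s * w)))) →
      (∀ μ ∈ G.support, μ 0 ≤ C₀ * 4 ^ s ∧ μ 1 ≤ C₀ * 4 ^ s ∧ μ 2 ≤ C₀ * 4 ^ s ∧
        μ 3 ≤ C₀ ∧ μ 4 ≤ C₀ ∧ μ 5 ≤ C₀) →
      aeval (Y2 u u') G ≠ 0 →
      (∃ κ : ℕ, κ ≤ θ * 4 ^ s ∧ PowerSeries.coeff κ (aeval (Y1 u z') G) ≠ 0) ∨
        logHeight₁ (z 0) ≤ totalWeight K * (Bz * ε * w) ∨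
        logHeight₁ (z' 0) ≤ totalWeight K * (Bz * ε * (4 ^ s * w)) := by
  have hC : (1 : ℝ) ≤ C₀ := by exact_mod_cast hC₀
  have hθ' : 0 < min θ 1 := lt_min hθ one_pos
  obtain ⟨Bz, η, hη, H⟩ := nonvanishing (K := K) (e := (![0, 3] : Fin 2 → Fin 6)) (by decide)
    (id : Fin 2 → Fin 2) (B + 3) 4 (min θ 1 / C₀) (by positivity)
  obtain ⟨s₀, hs₀⟩ := pow_unbounded_of_one_lt (1 / η) (show (1 : ℝ) < 4 by norm_num)
  refine ⟨Bz, s₀, ?_⟩
  intro ε w s φ₁ φ₂ z z' u u' G hε hw hs h1 h2 d1 d2 br br' hG dG h0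
  have hw1 : 1 ≤ ε * w := by linarith [Nat.cast_nonneg (α := ℝ) g]
  have hw0 : 0 < w := (mul_pos_iff_of_pos_left hε).1 (by linarith)
  have h4 : (1 : ℝ) ≤ 4 ^ s := one_le_pow₀ (by norm_num)
  have hW : w ≤ 4 ^ s * w := le_mul_of_one_le_left hw0.le h4
  have hW' : ε * w ≤ ε * (4 ^ s * w) := mul_le_mul_of_nonneg_left hW hε.le
  have hη4 : 1 ≤ η * 4 ^ s := by
    have h5 : (4 : ℝ) ^ s₀ ≤ 4 ^ s := pow_le_pow_right₀ (by norm_num) hs
    rw [div_lt_iff₀' hη] at hs₀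
    nlinarith
  have V := onW_Y2 br br'
  have key := H ε ![w, w, w, 4 ^ s * w, 4 ^ s * w, 4 ^ s * w] hε
    (by
      intro i
      fin_cases i
      exacts [hw1, hw1, hw1, hw1.trans hW', hw1.trans hW', hw1.trans hW'])
    (by
      rintro i j rfl
      rfl)
    (by
      have h5 : w ≤ η * (4 ^ s * w) := by nlinarith
      intro i j hij
      fin_cases i <;> fin_cases j
      · exact absurd rfl hij
      · exact Or.inl h5
      · exact Or.inr h5
      · exact absurd rfl hij)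
    ![z 0, z' 0] (aeval (Y2 u u') : P6 →ₐ[ℚ] _).toRingHom
    (by
      intro i
      fin_cases i
      · change aeval (Y2 u u') (X 0 : P6) = MvPowerSeries.C (z 0) + MvPowerSeries.X 0
        rw [aeval_X]
        change (u 0).toMvPowerSeries 0 = _
        rw [br.par, map_add, PowerSeries.toMvPowerSeries_C, PowerSeries.toMvPowerSeries_X]
      · change aeval (Y2 u u') (X 3 : P6) = MvPowerSeries.C (z' 0) + MvPowerSeries.X 1
        rw [aeval_X]
        change (u' 0).toMvPowerSeries 1 = _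
        rw [br'.par, map_add, PowerSeries.toMvPowerSeries_C, PowerSeries.toMvPowerSeries_X])
    [1, 4, 2, 5]
    (fun t => rename ![(![0, 0, 0, 3, 3, 3] : Fin 6 → Fin 6) t, t]
      (![0, cvordE a b, φ₁, 0, cvordE a b, φ₂] t))
    le_rfl (by decide)
    (by
      refine List.Pairwise.imp (R := fun r t : Fin 6 =>
        r ≠ (![0, 0, 0, 3, 3, 3] : Fin 6 → Fin 6) t ∧ r ≠ t) ?_ (by decide)
      intro r t h
      exact g2ord_supp _ h.1 h.2)
    (by
      have e1 : ∀ i, ∀ μ ∈ φ₁.support, μ i ≤ B + 3 := fun i μ hμ =>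
        ((monomial_le_degreeOf i hμ).trans (d1 i)).trans (Nat.le_add_right _ _)
      have e2 : ∀ i, ∀ μ ∈ φ₂.support, μ i ≤ B + 3 := fun i μ hμ =>
        ((monomial_le_degreeOf i hμ).trans (d2 i)).trans (Nat.le_add_right _ _)
      have e3 : ∀ (c d : ℤ) i, ∀ μ ∈ (cvordE c d).support, μ i ≤ B + 3 := fun c d i μ hμ =>
        (cvord_deg i μ hμ).trans (Nat.le_add_left _ _)
      intro t ht
      simp only [List.mem_cons, List.not_mem_nil, or_false] at ht
      rcases ht with rfl | rfl | rfl | rfl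
      · exact g2ord_rel (s := 0) (t := 1) (by decide) le_rfl (cvord_il hg.1 hg.2.1 hw) (e3 _ _)
          (cvord_aeval V.e1) ((cvord_cc _ _).trans (br.cc 0)) ((cvord_cc _ _).trans (br.cc 1))
          (cvord_sep br.y1)
      · exact g2ord_rel (s := 3) (t := 4) (by decide) le_rfl
          (cvord_il hg.1 hg.2.1 (hw.trans hW')) (e3 _ _)
          (cvord_aeval V.e4) ((cvord_cc _ _).trans (br'.cc 0)) ((cvord_cc _ _).trans (br'.cc 1))
          (cvord_sep br'.y1)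
      · exact g2ord_rel (s := 0) (t := 2) (by decide) le_rfl h1 e1 V.f1
          ((cvord_cc _ _).trans (br.cc 0)) ((cvord_cc _ _).trans (br.cc 2)) br.sep
      · exact g2ord_rel (s := 3) (t := 5) (by decide) le_rfl h2 e2 V.f2
          ((cvord_cc _ _).trans (br'.cc 0)) ((cvord_cc _ _).trans (br'.cc 2)) br'.sep)
    (C₀ * (4 ^ s * w)) (by nlinarith) G
    ⟨hG.1, by
      intro μ hμ i
      have k1 : ∀ m : ℕ, m ≤ C₀ * 4 ^ s → w * m ≤ C₀ * (4 ^ s * w) := by
        intro m hm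
        have k2 : (m : ℝ) ≤ C₀ * 4 ^ s := by exact_mod_cast hm
        nlinarith
      have k2 : ∀ m : ℕ, m ≤ C₀ → 4 ^ s * w * m ≤ C₀ * (4 ^ s * w) := by
        intro m hm
        have k2 : (m : ℝ) ≤ C₀ := by exact_mod_cast hm
        nlinarith
      obtain ⟨g0, g1, g2, g3, g4, g5⟩ := dG μ hμ
      fin_cases i
      exacts [k1 _ g0, k1 _ g1, k1 _ g2, k2 _ g3, k2 _ g4, k2 _ g5], hG.2⟩ h0
  rcases key with ⟨κ, hκ, hc⟩ | ⟨i, p, hp, p1, p2, p3, p4⟩
  · have k0 : min θ 1 / C₀ * (C₀ * (4 ^ s * w)) = min θ 1 * (4 ^ s * w) := by field_simp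
    rw [k0, Finsupp.weight_apply, Finsupp.sum_fintype _ _ (by simp), Fin.sum_univ_two,
      nsmul_eq_mul, nsmul_eq_mul] at hκ
    change (κ 0 : ℝ) * w + κ 1 * (4 ^ s * w) < _ at hκ
    have hW0 : 0 < 4 ^ s * w := by positivity
    have k1 : κ 1 = 0 := by
      have k2 := mul_le_mul_of_nonneg_right (min_le_right θ 1) hW0.le
      have k3 : (κ 1 : ℝ) < 1 := by
        refine lt_of_mul_lt_mul_right ?_ hW0.le
        nlinarith [mul_nonneg (Nat.cast_nonneg (α := ℝ) (κ 0)) hw0.le]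
      exact Nat.lt_one_iff.1 (by exact_mod_cast k3)
    have k2 : κ = Finsupp.single 0 (κ 0) := by
      ext j
      fin_cases j
      · simp
      · simpa using k1
    refine Or.inl ⟨κ 0, ?_, ?_⟩
    · have k3 := mul_le_mul_of_nonneg_right (min_le_left θ 1) hW0.le
      rw [k1, Nat.cast_zero, zero_mul, add_zero] at hκ
      refine le_of_mul_le_mul_right ?_ hw0
      nlinarith
    · rw [g2ord_coeff u u' br'.cc, ← k2]
      exact hc
  · have k1 := height_root_le hp.ne_zero ⟨p1, p3⟩ i (fun μ hμ t ht => (p2 μ hμ t).1 ht) _ p4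
    rw [Real.log_exp] at k1
    fin_cases i
    · exact Or.inr (Or.inl k1)
    · exact Or.inr (Or.inr k1)

end Pool.Agent.Lib.MP_8865d3_nt.G2
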