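import Pool.Agent.Lib.MP_8865d3_nt.G2Cons
import Pool.Agent.Lib.MP_8865d3_nt.G2Ord
import Pool.Agent.Lib.MP_8865d3_nt.G2Ineq

/-! The two point inequality. -/

namespace Pool.Agent.Lib.MP_8865d3_nt.G2

open MvPolynomial Finset Height Pool.Agent.Lib.Common.Subspace Pool.Agent.Lib.MP_651af7_nt.Vj

variable {K : Type} [Field K] [CharZero K] [AdmissibleAbsValues K]

theorem core (a b : ℤ) (B k n : ℕ) (hn : k + B + 2 ≤ 2 * n) :
    ∃ (C : ℝ) (s₀ : ℕ), 1 ≤ C ∧ ∀ (A : Set (AbsoluteValue K ℝ)) (ε w : ℝ) (s ν : ℕ)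
      (φ₁ φ₂ : MvPolynomial (Fin 2) ℚ) (z z' : Fin 3 → K) (u u' : Fin 3 → PowerSeries K) (xp : K),
      0 < ε → ε ≤ 1 → C ≤ ε * w → s₀ ≤ s → 0 < ν → ν ≤ 4 ^ s →
      512 * (B + 4) ^ 5 * (k + 2) * 4 ^ s ≤ n * ν →
      IL φ₁ (Real.exp (ε * w)) → IL φ₂ (Real.exp (ε * (4 ^ s * w))) →
      (∀ i, degreeOf i φ₁ ≤ B) → 1 ≤ degreeOf 1 φ₁ → 1 ≤ degreeOf 0 φ₂ →
      (∀ i, degreeOf i φ₂ ≤ B) → Bq a b φ₁ z u → Bq a b φ₂ z' u' →
      logHeight₁ (z 0) + logHeight₁ (z 2) ≤ w → z 2 ≠ 0 →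
      SumData (a : K) b (z' 0) (z' 1) (mulP (a : K) b (z 0) (z 1) s) xp →
      (∀ c : VI n ν → ℤ, c ≠ 0 → aeval (Y2 u u') (Gc a b s n c false) ≠ 0) →
      C * ε * w < logHeight₁ (z 0) → C * ε * (4 ^ s * w) < logHeight₁ (z' 0) →
      n * logHeight₁ xp + k * inn A (z' 0) ≤
        (2 * n * 4 ^ s + ν) * logHeight₁ (z 0) + 2 * n * logHeight₁ (z' 0) +
          n * logHeight₁ (z' 2 / z 2 ^ 4 ^ s) + 4 ^ s * n * inn A (z 2)⁻¹ + n * inn A (z' 2) +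
          (1 + C * ε) * (4 ^ s * w) := by
  classical
  obtain ⟨g, hg⟩ := exists_cf a b a b
  obtain ⟨C₁, H₁⟩ := construct hg B k n hn
  obtain ⟨C₂, hC₂, H₂⟩ := main_ineq (K := K) hg B
  obtain ⟨Bz, s₀, H₃⟩ := small_order (K := K) hg B (2 * C₁ + 2 * n + 1) (by omega)
    (θ := (C₂ + 1)⁻¹) (by positivity)
  set m : ℝ := (totalWeight K : ℝ) with hm
  have m0 : 0 ≤ m := Nat.cast_nonneg _
  have p1 : 0 ≤ m * Bz := by positivity
  have p2 : 0 ≤ 2 * m * C₁ + C₂ * (6 * n + 1) := by positivity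
  have p3 : (0 : ℝ) ≤ g := Nat.cast_nonneg _
  refine ⟨g + 2 + m * Bz + (2 * m * C₁ + C₂ * (6 * n + 1)), s₀, by linarith, ?_⟩
  intro A ε w s ν φ₁ φ₂ z z' u u' xp hε hε1 hw hs hν hν' hc h₁ h₂ d₁ e₁ e₂ d₂ br br' hz h2 hx hI
    x₁ x₂
  have w2 : g + 2 ≤ ε * w := by linarith
  have w1 : 1 ≤ ε * w := by linarith
  have w0 : 0 < w := (mul_pos_iff_of_pos_left hε).1 (by linarith)
  have w3 : ε * w ≤ w := mul_le_of_le_one_left w0.le hε1
  have q1 : (1 : ℝ) ≤ 4 ^ s := one_le_pow₀ (by norm_num)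
  have q0 : (0 : ℝ) < 4 ^ s * w := by positivity
  have t1 : 2 ≤ Real.exp (ε * w) := by linarith [Real.add_one_le_exp (ε * w)]
  obtain ⟨c, c₀, Gl, c1, c2, c3, c4, c5⟩ := H₁ s ν φ₁ φ₂ _ _ h₁ h₂ t1
    (Real.one_le_exp (by positivity)) d₁ e₁ e₂ d₂ hν hν' hc
  have eT : Real.exp (ε * w) ^ (C₁ * 4 ^ s) * Real.exp (ε * (4 ^ s * w)) ^ C₁ =
      Real.exp (ε * (2 * C₁ * (4 ^ s * w))) := by
    rw [← Real.exp_nat_mul, ← Real.exp_nat_mul, ← Real.exp_add]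
    congr 1
    push_cast
    ring
  rw [eT] at c3 c4
  have hom := hom_Gc a b s n c
  have sm : ∀ (e : Bool) (l : ℕ),
      PowerSeries.coeff l (aeval (Y1 u z') (c₀ • Gc a b s n c e)) =
        c₀ * PowerSeries.coeff l (aeval (Y1 u z') (Gc a b s n c e)) := fun e l => by
    rw [map_zsmul, map_zsmul, zsmul_eq_mul]
  rcases H₃ ε w s φ₁ φ₂ z z' u u' (c₀ • Gc a b s n c false) hε w2 hs h₁ h₂ d₁ d₂ br br'
    ((c3 false).mono (Real.exp_le_exp.2 (by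
      refine mul_le_mul_of_nonneg_left (mul_le_mul_of_nonneg_right ?_ q0.le) hε.le
      push_cast
      linarith [Nat.cast_nonneg (α := ℝ) n])))
    (fun μ hμ => by
      obtain ⟨k1, k2, k3, k4⟩ := hom false c₀ μ hμ
      have k5 : (2 * C₁ + 2 * n + 1) * 4 ^ s = 2 * (C₁ * 4 ^ s) + 2 * (4 ^ s * n) + 4 ^ s := by ring
      have k6 : 2 * n * 4 ^ s = 2 * (4 ^ s * n) := by ring
      rw [k5]
      omega)
    (by
      rw [map_zsmul, zsmul_eq_mul]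
      exact mul_ne_zero (fun h => c2 (by simpa using congrArg MvPowerSeries.constantCoeff h))
        (hI c c1)) with ⟨κ₀, k1, k2⟩ | k1 | k1
  · have ex : ∃ κ, PowerSeries.coeff κ (aeval (Y1 u z') (Gc a b s n c false)) ≠ 0 :=
      ⟨κ₀, right_ne_zero_of_mul (sm false κ₀ ▸ k2)⟩
    have k3 : Nat.find ex ≤ κ₀ := Nat.find_min' ex (right_ne_zero_of_mul (sm false κ₀ ▸ k2))
    have k4 := Nat.find_spec ex
    have k5 : ∀ l < Nat.find ex,
        PowerSeries.coeff l (aeval (Y1 u z') (Gc a b s n c false)) = 0 := fun l hl =>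
      not_not.1 (Nat.find_min ex hl)
    generalize Nat.find ex = κ at k3 k4 k5
    have k6 : ∀ e, PowerSeries.coeff κ (aeval (Y1 u z') (c₀ • Gc a b s n c e)) =
        (if e then xp ^ n else 1) *
          (c₀ * PowerSeries.coeff κ (aeval (Y1 u z') (Gc a b s n c false))) := fun e => by
      rw [sm, coeff_Gc br br' c hx k5 e]
      ring
    have key := H₂ A φ₁ φ₂ _ _ w z z' u u' n k (4 ^ s) (2 * n * 4 ^ s + ν) κ xp _ Gl
      (fun e => c₀ • Gc a b s n c e) h₁ t1 (by rw [Real.log_exp]; exact w3) (w1.trans w3) d₁ br br'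
      hz h2 (by omega) (Real.one_le_exp (by positivity)) c4 (fun e => ⟨c3 e, hom e c₀⟩)
      (mul_ne_zero (by exact_mod_cast c2) k4) (fun e => by
        rw [c5 _ _ (onW_Y1 br br') (aeval_Y1_ne_zero br) e]
        exact k6 e) k6
    rw [Real.log_exp] at key
    have k7 : (κ : ℝ) ≤ (C₂ + 1)⁻¹ * 4 ^ s := le_trans (by exact_mod_cast k3) k1
    have k8 : C₂ * (κ * w) ≤ 4 ^ s * w := by
      have k9 : C₂ * (C₂ + 1)⁻¹ ≤ 1 := by
        rw [← div_eq_mul_inv, div_le_one (by positivity)]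
        linarith
      calc C₂ * (κ * w) ≤ C₂ * ((C₂ + 1)⁻¹ * 4 ^ s * w) := by gcongr
        _ = C₂ * (C₂ + 1)⁻¹ * (4 ^ s * w) := by ring
        _ ≤ _ := mul_le_of_le_one_left q0.le k9
    have k9 : ((2 * n * 4 ^ s + ν + 4 ^ s * n + 3 * n : ℕ) : ℝ) ≤ (6 * n + 1) * (ε * (4 ^ s * w)) := by
      have l1 : 2 * n * 4 ^ s + ν + 4 ^ s * n + 3 * n ≤ (6 * n + 1) * 4 ^ s := by
        have l2 : n ≤ n * 4 ^ s := Nat.le_mul_of_pos_right _ (by positivity)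
        nlinarith
      have l2 : (4 : ℝ) ^ s ≤ ε * (4 ^ s * w) := by nlinarith
      calc _ ≤ (((6 * n + 1) * 4 ^ s : ℕ) : ℝ) := by exact_mod_cast l1
        _ = (6 * n + 1) * 4 ^ s := by push_cast; ring
        _ ≤ _ := by gcongr
    have k10 := mul_le_mul_of_nonneg_left k9 hC₂
    have k11 : 0 ≤ (g + 2 + m * Bz) * (ε * (4 ^ s * w)) := by positivity
    rw [mul_add C₂] at key
    push_cast at key k10 ⊢
    nlinarith
  · have k2 : 0 ≤ (g + 2 + (2 * m * C₁ + C₂ * (6 * n + 1))) * (ε * w) := by positivity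
    nlinarith
  · have k2 : 0 ≤ (g + 2 + (2 * m * C₁ + C₂ * (6 * n + 1))) * (ε * (4 ^ s * w)) := by positivity
    nlinarith

end Pool.Agent.Lib.MP_8865d3_nt.G2
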