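import Pool.Agent.Lib.MP_651af7_nt.Vj.CvIneq
import Pool.Agent.Lib.MP_8865d3_nt.GmIface

/-! Definitions for the two point argument on the product of an elliptic curve and a torus.
The variables `0, 1, 2` are `x, y, u` of the first point, `3, 4, 5` those of the second point. -/

namespace Pool.Agent.Lib.MP_8865d3_nt.G2

open MvPolynomial Finset Height Pool.Agent.Lib.Common.Subspace Pool.Agent.Lib.MP_651af7_nt.Vj

/-- Polynomials in the six coordinates. -/
abbrev P6 := MvPolynomial (Fin 6) ℚ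

/-- The basic sections. -/
noncomputable def Gb (a b : ℤ) (s n : ℕ) (e : Bool) (i j l : ℕ) : P6 :=
  fac (a : P6) b (X 3) (X 4) (mulP (a : P6) b (X 0) (X 1) s) n e i *
    (X 5 ^ j * X 2 ^ (4 ^ s * (n - j))) * X 0 ^ l

/-- The auxiliary polynomial with coefficients `c`. -/
noncomputable def Gc (a b : ℤ) (s n : ℕ) {ν : ℕ} (c : VI n ν → ℤ) (e : Bool) : P6 :=
  ∑ v, c v • Gb a b s n e v.1 v.2.1 v.2.2

/-- The four weights: `x` and `u` have weight one, `y` has weight two. -/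
def wg : Fin 4 → Fin 6 → ℕ :=
  ![![1, 2, 0, 0, 0, 0], ![0, 0, 1, 0, 0, 0], ![0, 0, 0, 1, 2, 0], ![0, 0, 0, 0, 0, 1]]

/-- Degree bounds together with homogeneity in the torus variables. -/
def Hom (D q n : ℕ) (p : P6) : Prop :=
  ∀ μ ∈ p.support, μ 0 + 2 * μ 1 ≤ D ∧ μ 3 + 2 * μ 4 ≤ 2 * n ∧ μ 5 ≤ n ∧ μ 2 + q * μ 5 = q * n

/-- The equations of the product of the two curves. -/
structure OnW {S : Type*} [CommRing S] [Algebra ℚ S] (a b : ℤ)
    (φ₁ φ₂ : MvPolynomial (Fin 2) ℚ) (z : Fin 6 → S) : Prop where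
  e1 : z 1 ^ 2 = z 0 ^ 3 + a * z 0 + b
  e4 : z 4 ^ 2 = z 3 ^ 3 + a * z 3 + b
  f1 : aeval ![z 0, z 2] φ₁ = 0
  f2 : aeval ![z 3, z 5] φ₂ = 0

section

variable {K : Type*} [Field K] [CharZero K]

/-- A formal branch of the curve `φ` through the point `z₀`, with parameter `x - x₀`. -/
structure Bq (a b : ℤ) (φ : MvPolynomial (Fin 2) ℚ) (z₀ : Fin 3 → K)
    (u : Fin 3 → PowerSeries K) : Prop where
  cc : ∀ i, PowerSeries.constantCoeff (u i) = z₀ i
  par : u 0 = PowerSeries.C (z₀ 0) + PowerSeries.X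
  e1 : u 1 ^ 2 = u 0 ^ 3 + a * u 0 + b
  f : aeval ![u 0, u 2] φ = 0
  y1 : z₀ 1 ≠ 0
  sep : aeval ![z₀ 0, z₀ 2] (pderiv 1 φ) ≠ 0

/-- Both branches, in two independent parameters. -/
noncomputable def Y2 (u u' : Fin 3 → PowerSeries K) : Fin 6 → MvPowerSeries (Fin 2) K :=
  ![(u 0).toMvPowerSeries 0, (u 1).toMvPowerSeries 0, (u 2).toMvPowerSeries 0,
    (u' 0).toMvPowerSeries 1, (u' 1).toMvPowerSeries 1, (u' 2).toMvPowerSeries 1]

/-- The first branch and the second point. -/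
noncomputable def Y1 (u : Fin 3 → PowerSeries K) (z : Fin 3 → K) : Fin 6 → PowerSeries K :=
  ![u 0, u 1, u 2, PowerSeries.C (z 0), PowerSeries.C (z 1), PowerSeries.C (z 2)]

end

open Classical in
/-- The part of the height of `x` that comes from the places in `A`. -/
noncomputable def inn {K : Type*} [Field K] [AdmissibleAbsValues K] (A : Set (AbsoluteValue K ℝ))
    (x : K) : ℝ := gsum fun v => Real.log (if v ∈ A then max (v x) 1 else 1)

end Pool.Agent.Lib.MP_8865d3_nt.G2
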