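import Pool.Agent.Lib.MP_651af7_nt.IvCase

/-! Degree estimates over the constant field for a curve in the product of an elliptic curve and a
torus. -/

namespace Pool.Agent.Lib.MP_8865d3_nt.Iw

open Polynomial IntermediateField Pool.Agent.Lib.MP_e97e2b_nt Pool.Agent.Lib.MP_651af7_nt.Iv
open scoped Polynomial.Bivariate

variable {k Ω : Type} [Field k] [Field Ω] [Algebra k Ω] {F : IntermediateField k Ω} {f g : Ω}

lemma ff_ext (hF : FF F) (hg : IsAlgebraic F g) : FF (F ⊔ k⟮g⟯) := by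
  obtain ⟨t, h1, h2, h3⟩ := hF.fin
  refine ⟨hF.closed, t, le_sup_left (a := F) h1, h2, ?_⟩
  rw [dg, ← relfinrank_mul_relfinrank (adjoin_simple_le_iff.2 h1) le_sup_left, relfinrank_sup hg]
  exact mul_ne_zero h3 (minpoly.natDegree_pos hg.isIntegral).ne'

lemma mem_ext (F : IntermediateField k Ω) (g : Ω) : g ∈ F ⊔ k⟮g⟯ :=
  le_sup_right (a := F) (mem_adjoin_simple_self k g)

lemma pow_ge (hF : FF F) (hf : f ∈ F) (n : ℕ) : n * dg F f ≤ dg F (f ^ n) := by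
  by_cases ha : IsAlgebraic k f
  · simp [hF.eq_zero ha]
  rcases n.eq_zero_or_pos with rfl | hn
  · simp
  have hi := (MulEquiv.irreducible_iff Bivariate.swap).2
    (irreducible_X_sub_C (X ^ n : k[X]))
  have hr : aevalAeval (f ^ n) f (Bivariate.swap (Y - C (X ^ n) : k[X][Y])) = 0 := by
    rw [Bivariate.aevalAeval_swap, map_sub, aevalAeval_C, aevalAeval_Y, map_pow, aeval_X, sub_self]
  have hm : f ^ n ∈ k⟮f⟯ := pow_mem (mem_adjoin_simple_self k f) n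
  have h4 : n ≤ (Bivariate.swap (Y - C (X ^ n) : k[X][Y])).natDegree := by
    refine le_natDegree_of_ne_zero fun h => ?_
    have := coeff_swap (Y - C (X ^ n) : k[X][Y]) n 0
    rw [h] at this
    simp [-map_pow] at this
  rw [hF.eq_irr (pow_mem hf n) hf (Transcendental.pow ha hn) hi hr,
    sup_eq_right.2 (adjoin_simple_le_iff.2 hm)]
  exact Nat.mul_le_mul_right _ h4

variable [CharZero k]

lemma const_of_der (h : ∀ D : Derivation k Ω Ω, D g = 0) : IsAlgebraic k g := by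
  by_contra ht
  obtain ⟨D, hD⟩ := exists_der ht
  exact hD (h D)

omit [CharZero k] in
lemma der_div (D : Derivation k Ω Ω) {u v s t : Ω} (hv : v ≠ 0) (h1 : D u = s * u)
    (h2 : D v = t * v) : D (u / v) = (s - t) * (u / v) := by
  rw [Derivation.leibniz_div, h1, h2]
  simp only [smul_eq_mul]
  field_simp

omit [CharZero k] in
lemma der_pow (D : Derivation k Ω Ω) {u s : Ω} (h : D u = s * u) (n : ℕ) :
    D (u ^ n) = n * s * u ^ n := by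
  induction n with
  | zero => simp
  | succ n ih =>
    rw [pow_succ, Derivation.leibniz, ih, h]
    simp only [smul_eq_mul]
    push_cast
    ring

variable [CharZero Ω]

/-- The logarithmic slope of the curve `φ = 0` at a point. -/
noncomputable def mg (φ : ℚ[X][Y]) {A B : Ω} (P : Pt A B) (u : Ω) : Ω :=
  -(aevalAeval (xc P) u (dX φ) * yc P * (aevalAeval (xc P) u (derivative φ) * u)⁻¹)

lemma mg_fmap (φ : ℚ[X][Y]) {A B : Ω} (f : Ω →+* Ω) (hA : f A = A) (hB : f B = B) (P : Pt A B)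
    (u : Ω) : mg φ (fmap f hA hB P) (f u) = f (mg φ P u) := by
  have := fun p => aevalAeval_algHom f.toRatAlgHom (xc P) u p
  simp only [RingHom.toRatAlgHom_apply] at this
  simp only [mg, xc_fmap, yc_fmap, this, map_neg, map_mul, map_inv₀]

lemma mg_mem {M : IntermediateField k Ω} (φ : ℚ[X][Y]) {A B : Ω} {P : Pt A B} {u : Ω}
    (hP : On M P) (hu : u ∈ M) : mg φ P u ∈ M := by
  rw [mg, ← ev_up (k := k), ← ev_up (k := k)]
  exact neg_mem (mul_mem (mul_mem (ev_mem hP.1 hu _) hP.2)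
    (inv_mem (mul_mem (ev_mem hP.1 hu _) hu)))

variable {a b : k} {P₁ P₂ : Pt (algebraMap k Ω a) (algebraMap k Ω b)} {u₁ u₂ u' : Ω}
  {φ₁ φ₂ : ℚ[X][Y]} {e B : ℕ}

lemma der_slope (D : Derivation k Ω Ω) (hφ : Irreducible φ₁) (ht : Transcendental k (xc P₁))
    (h : aevalAeval (xc P₁) u₁ φ₁ = 0) (hu : u₁ ≠ 0) :
    D u₁ = 2 * mg φ₁ P₁ u₁ * lam D P₁ * u₁ := by
  have h1 := der_ev (D.restrictScalars ℚ) (xc P₁) u₁ φ₁
  have h2 := irr_der_ne (ht.restrictScalars (algebraMap ℚ k).injective) hφ h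
  have h3 := yc_ne_zero ht
  rw [h, map_zero] at h1
  simp only [Derivation.restrictScalars_apply] at h1
  rw [lam, mg]
  field_simp
  linear_combination -h1

lemma dg_le_nb (hF : FF F) {x : Ω} (hx : x ∈ F) (hu : u₁ ∈ F) (ht : Transcendental k x)
    (h0 : φ₁ ≠ 0) (h : aevalAeval x u₁ φ₁ = 0) : dg F u₁ ≤ nb φ₁ * dg F x :=
  hF.le_rel'' hu hx ht (p := up k (Bivariate.swap φ₁)) (up_ne_zero (by simpa using h0))
    ((natDegree_up _).trans (by unfold nb; omega)) (by rw [ev_up, Bivariate.aevalAeval_swap, h])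

lemma dmg (hF : FF F) (hP : On F P₁) (hu : u₁ ∈ F) (ht : Transcendental k (xc P₁))
    (h0 : φ₁ ≠ 0) (h : aevalAeval (xc P₁) u₁ φ₁ = 0) :
    dg F (mg φ₁ P₁ u₁) ≤ cmu φ₁ * dg F (xc P₁) := by
  have h1 := dg_le_nb hF hP.1 hu ht h0 h
  have h2 := hF.ev hP.1 hu (up k (dX φ₁)) (N := nb φ₁)
    ((natDegree_up _).trans (by unfold nb; omega))
    fun j => (natDegree_coeff_up _ j).trans (by unfold nb; omega)
  have h3 := hF.ev hP.1 hu (up k (derivative φ₁)) (N := nb φ₁)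
    ((natDegree_up _).trans (by unfold nb; omega))
    fun j => (natDegree_coeff_up _ j).trans (by unfold nb; omega)
  have m2 := ev_mem hP.1 hu (up k (dX φ₁))
  have m3 := ev_mem hP.1 hu (up k (derivative φ₁))
  have h4 := hF.mul m2 hP.2
  have h5 := hF.mul m3 hu
  have h6 := hF.mul (mul_mem m2 hP.2) (inv_mem (mul_mem m3 hu))
  have h7 := hF.neg (mul_mem (mul_mem m2 hP.2) (inv_mem (mul_mem m3 hu)))
  have h8 := hF.dy hP
  rw [dg_inv] at h6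
  rw [mg, ← ev_up (k := k), ← ev_up (k := k), cmu]
  have h10 : (8 * (nb φ₁ + 1) * nb φ₁ + 3) * (dg F (xc P₁) + dg F u₁) ≤
      (8 * (nb φ₁ + 1) * nb φ₁ + 3) * ((nb φ₁ + 1) * dg F (xc P₁)) :=
    Nat.mul_le_mul_left _ (by linarith)
  nlinarith

variable (hk : ∀ g : Ω, IsAlgebraic k g → g ∈ (⊥ : IntermediateField k Ω))
  (hz : IsAlgebraic k (xc (P₂ - 2 ^ e • P₁))) (t₁ : Transcendental k (xc P₁))
  (h₁ : aevalAeval (xc P₁) u₁ φ₁ = 0) (n₁ : φ₁ ≠ 0)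
include hk hz t₁ h₁ n₁

lemma exists_F (h₂ : aevalAeval (xc P₂) u₂ φ₂ = 0) (n₂ : φ₂ ≠ 0) {t : Ω}
    (ht : Transcendental k t) (hm : ∀ M : IntermediateField k Ω, On M P₁ → On M P₂ → t ∈ M)
    (h : aevalAeval t u' φ₁ = 0) : ∃ F : IntermediateField k Ω,
      FF F ∧ On F P₁ ∧ On F P₂ ∧ u₁ ∈ F ∧ u₂ ∈ F ∧ u' ∈ F := by
  have t₂ := trans_two hz t₁
  have m : ∀ (M : IntermediateField k Ω) (c : k), algebraMap k Ω c ∈ M := fun M c =>
    M.algebraMap_mem c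
  have s : ∀ x : Ω, x ∈ k⟮x⟯ := mem_adjoin_simple_self k
  let M₀ := adj k⟮xc P₁⟯ P₁
  have o₁ : On M₀ P₁ := on_adj
  have o₂ : On M₀ P₂ := by
    simpa using (on_const hk hz _).add (m _ _) (o₁.nsmul (m _ _) (2 ^ e))
  have f₀ : FF M₀ := ⟨hk, _, o₁.1, t₁,
    rel_adj_ne (P := P₁) (m _ _) (m _ _) le_rfl (by simp) (alg_of_mem (s _))⟩
  have f₁ := ff_ext f₀ (alg_of_rel o₁.1 t₁ (up_ne_zero n₁) (by rw [ev_up, h₁]))
  have f₂ := ff_ext f₁ (alg_of_rel (o₂.mono le_sup_left).1 t₂ (up_ne_zero n₂) (by rw [ev_up, h₂]))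
  have l : M₀ ≤ M₀ ⊔ k⟮u₁⟯ ⊔ k⟮u₂⟯ := le_sup_left.trans le_sup_left
  have f₃ := ff_ext f₂ (alg_of_rel (l (hm _ o₁ o₂)) ht (up_ne_zero n₁) (by rw [ev_up, h]))
  exact ⟨_, f₃, (o₁.mono l).mono le_sup_left, (o₂.mono l).mono le_sup_left,
    le_sup_left (b := k⟮u'⟯) (le_sup_left (b := k⟮u₂⟯) (mem_ext _ _)),
    le_sup_left (b := k⟮u'⟯) (mem_ext _ _), mem_ext _ _⟩

variable (hD : 4 * a ^ 3 + 27 * b ^ 2 ≠ 0)
include hD

/-- A constant slope is impossible for a large multiplier. -/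
lemma caseE (hi : Irreducible φ₁) (b₁ : φ₁.natDegree ≤ B) (tu : Transcendental k u₁)
    (h : aevalAeval (xc P₂) u' φ₁ = 0) {w : Ω} (hw : w = u' ∨ w = u'⁻¹) (w0 : w ≠ 0)
    (hl : ∀ D : Derivation k Ω Ω, D w = 2 * mg φ₁ P₁ u₁ * lam D P₂ * w) :
    2 ^ e ≤ 33 * B * nb φ₁ := by
  have t₂ := trans_two hz t₁
  have u0 : u₁ ≠ 0 := fun h => tu (h ▸ isAlgebraic_zero)
  obtain ⟨F, hF, o₁, o₂, o₃, -, o₅⟩ := exists_F hk hz t₁ h₁ n₁ h n₁ t₂ (fun _ _ h => h.1) h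
  have hc : IsAlgebraic k (w / u₁ ^ 2 ^ e) := const_of_der fun D => by
    have := lam_sub D P₂ (2 ^ e • P₁)
    rw [lam_const D hz, lam_nsmul] at this
    rw [der_div D (pow_ne_zero _ u0) (hl D) (der_pow D (der_slope D hi t₁ h₁ u0) _)]
    linear_combination -(2 * mg φ₁ P₁ u₁ * (w / u₁ ^ 2 ^ e)) * this
  obtain ⟨c, hc'⟩ := IntermediateField.mem_bot.1 (hk _ hc)
  have ew : w = algebraMap k Ω c * u₁ ^ 2 ^ e := by
    rw [hc', div_mul_cancel₀ _ (pow_ne_zero _ u0)]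
  have tw : Transcendental k w := fun h => tu (IsAlgebraic.of_pow (Nat.two_pow_pos e) (by
    have := h.mul hc.inv
    rwa [inv_div, mul_div_cancel₀ _ w0] at this))
  have t' : Transcendental k u' := by
    rcases hw with rfl | rfl
    · exact tw
    · exact fun h => tw h.inv
  have g₀ : dg F u' = dg F w := by
    rcases hw with rfl | rfl
    · rfl
    · rw [dg_inv]
  have g₁ := hF.growth hk hz hD o₁ o₂
  have g₂ := hF.le_rel'' o₂.1 o₅ t' (up_ne_zero n₁) ((natDegree_up _).trans b₁)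
    (by rw [ev_up, h])
  have g₃ : dg F w ≤ 2 ^ e * dg F u₁ := ew ▸ (hF.smul (pow_mem o₃ _) c).trans (hF.pow o₃ _)
  have g₄ := dg_le_nb hF o₁.1 o₃ t₁ n₁ h₁
  have g₅ : 2 ^ e * (2 ^ e * dg F (xc P₁)) ≤ 33 * B * nb φ₁ * (2 ^ e * dg F (xc P₁)) :=
    calc _ = (2 * 2) ^ e * dg F (xc P₁) := by rw [← mul_assoc, ← mul_pow]
      _ ≤ 33 * (B * (2 ^ e * (nb φ₁ * dg F (xc P₁)))) :=
        g₁.trans (Nat.mul_le_mul_left _ (g₂.trans (Nat.mul_le_mul_left _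
          (g₀ ▸ g₃.trans (Nat.mul_le_mul_left _ g₄)))))
      _ = _ := by ring
  exact Nat.le_of_mul_le_mul_right g₅
    (Nat.mul_pos (Nat.two_pow_pos e) (Nat.pos_of_ne_zero (hF.ne_zero o₁.1 t₁)))

variable (h₂ : aevalAeval (xc P₂) u₂ φ₂ = 0) (n₂ : φ₂ ≠ 0) (b₂ : φ₂.natDegree ≤ B)
include h₂ n₂ b₂

lemma mg_notMem (ht : Transcendental k (mg φ₁ P₁ u₁)) (hr : 66 * B * cmu φ₁ < 4 ^ e) :
    IsAlgebraic (adj k⟮xc P₂⟯ P₂ ⊔ k⟮u₂⟯ : IntermediateField k Ω) (mg φ₁ P₁ u₁) ∧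
      mg φ₁ P₁ u₁ ∉ adj k⟮xc P₂⟯ P₂ ⊔ k⟮u₂⟯ := by
  have t₂ := trans_two hz t₁
  have m : ∀ (M : IntermediateField k Ω) (c : k), algebraMap k Ω c ∈ M := fun M c =>
    M.algebraMap_mem c
  have s : ∀ x : Ω, x ∈ k⟮x⟯ := mem_adjoin_simple_self k
  obtain ⟨F, hF, o₁, o₂, o₃, o₄, -⟩ := exists_F hk hz t₁ h₁ n₁ h₂ n₂ t₁ (fun _ h _ => h.1) h₁
  have hm := mg_mem φ₁ o₁ o₃
  refine ⟨alg_mono (le_adj.trans le_sup_left) (hF.alg o₂.1 t₂ hm).1, fun h => ?_⟩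
  have g₁ := hF.growth hk hz hD o₁ o₂
  have l₀ : k⟮xc P₂⟯ ≤ F := adjoin_simple_le_iff.2 o₂.1
  have g₂ := rel_adj_one (m _ _) (m _ _) l₀ o₂ (s _)
  have g₃ := rel_le_rel (adj_le l₀ o₂) o₄ (le_adj (s _)) t₂ (up_ne_zero n₂)
    ((natDegree_up _).trans b₂) (by rw [ev_up, h₂])
  have g₄ : relfinrank (adj k⟮xc P₂⟯ P₂ ⊔ k⟮u₂⟯) F ≤ dg F (mg φ₁ P₁ u₁) :=
    rel_mono (adjoin_simple_le_iff.2 h) (hF.ne_zero hm ht)
  have g₅ := dmg hF o₁ o₃ t₁ n₁ h₁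
  have g₆ : 4 ^ e * dg F (xc P₁) ≤ 33 * (2 * (B * (cmu φ₁ * dg F (xc P₁)))) :=
    g₁.trans (Nat.mul_le_mul_left _ (g₂.trans (Nat.mul_le_mul_left _ (g₃.trans
      (Nat.mul_le_mul_left _ (g₄.trans g₅))))))
  have := Nat.mul_lt_mul_of_pos_right hr (Nat.pos_of_ne_zero (hF.ne_zero o₁.1 t₁))
  linarith

lemma caseN [IsAlgClosed Ω] (hi : Irreducible φ₁) (b₁ : φ₁.natDegree ≤ B) (u0 : u₁ ≠ 0)
    (u0' : u₂ ≠ 0) (ht : Transcendental k (mg φ₁ P₁ u₁)) (hr : 66 * B * cmu φ₁ < 4 ^ e) (q : ℕ) :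
    ∃ F : IntermediateField k Ω, FF F ∧ On F P₁ ∧ u₂ / u₁ ^ q ∈ F ∧
      q * dg F (xc P₁) ≤ 16 * B ^ 2 * dg F (u₂ / u₁ ^ q) := by
  have t₂ := trans_two hz t₁
  have m : ∀ (M : IntermediateField k Ω) (c : k), algebraMap k Ω c ∈ M := fun M c =>
    M.algebraMap_mem c
  have s : ∀ x : Ω, x ∈ k⟮x⟯ := mem_adjoin_simple_self k
  obtain ⟨ha, hn⟩ := mg_notMem hk hz t₁ h₁ n₁ hD h₂ n₂ b₂ ht hr
  set F' := adj k⟮xc P₂⟯ P₂ ⊔ k⟮u₂⟯ with hF'
  have : CharZero F' := charZero_of_injective_algebraMap (algebraMap k F').injective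
  obtain ⟨σ, hσ, hμ⟩ := exists_move ha fun c hc => hn (hc ▸ c.2)
  have fx : ∀ z ∈ F', σ z = z := fun z hz => hσ ⟨z, hz⟩
  have fk : ∀ c, σ (algebraMap k Ω c) = algebraMap k Ω c := fun c => fx _ (m _ _)
  let σ' : Ω →ₐ[k] Ω := ⟨σ, fk⟩
  have p₂ : On F' P₂ := on_adj.mono le_sup_left
  set P' := fmap σ (fk a) (fk b) P₁ with hP'
  have hT : IsAlgebraic k (xc (P' - P₁)) := const_of_lam fun D => by
    have o := p₂.sub (m _ _) (on_const hk hz F')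
    rw [sub_sub_cancel] at o
    have := congrArg (lam D) (fmap_fix σ (fk a) (fk b) (fx _ o.1) (fx _ o.2))
    rw [map_nsmul, lam_nsmul, lam_nsmul] at this
    rw [lam_sub, mul_left_cancel₀ (by simp) this, sub_self]
  have oP : ∀ M : IntermediateField k Ω, On M P₁ → On M P' := fun M h => by
    simpa using (on_const hk hT M).add (m _ _) h
  have t' : Transcendental k (xc P') := fun h => t₁ (alg_of_bot (by
    simpa using ((on_const hk h ⊥).sub (m _ _) (on_const hk hT ⊥)).1))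
  have h' : aevalAeval (xc P') (σ u₁) φ₁ = 0 := by
    rw [xc_fmap]
    exact (aevalAeval_algHom σ.toRatAlgHom _ _ _).trans (by rw [h₁, map_zero])
  have s0 : σ u₁ ≠ 0 := (map_ne_zero σ).2 u0
  have tW : Transcendental k (σ u₁ / u₁) := fun h => t₁ (const_of_lam fun D => by
    have e1 := der_alg D h
    have e2 := lam_const D hT
    rw [der_div D u0 (der_slope D hi t' h' s0) (der_slope D hi t₁ h₁ u0), mg_fmap,
      mul_eq_zero] at e1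
    rw [lam_sub] at e2
    have e3 := e1.resolve_right (div_ne_zero s0 u0)
    exact (mul_eq_zero.1 (by
      linear_combination (1 / 2 : Ω) * e3 - σ (mg φ₁ P₁ u₁) * e2)).resolve_left (sub_ne_zero.2 hμ))
  obtain ⟨F, hF, o₁, o₂, o₃, o₄, o₅⟩ :=
    exists_F hk hz t₁ h₁ n₁ h₂ n₂ t' (fun M h _ => (oP M h).1) h'
  have oz := div_mem o₄ (pow_mem o₃ q)
  have oz' := div_mem o₄ (pow_mem o₅ q)
  refine ⟨F, hF, o₁, oz, ?_⟩
  have ez : u₂ / σ u₁ ^ q = σ (u₂ / u₁ ^ q) := by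
    rw [map_div₀, map_pow, fx _ (mem_ext _ _)]
  have g₁ : dg F (u₂ / σ u₁ ^ q) = dg F (u₂ / u₁ ^ q) := by
    by_cases hc : IsAlgebraic k (u₂ / u₁ ^ q)
    · rw [ez, fx _ (bot_le (a := F') (hk _ hc))]
    obtain ⟨p, h0, hp⟩ := rel_of_alg (hF.alg oz hc o₂.1).1
    obtain ⟨p, h0, hp⟩ := irr_of_rel h0 hp
    refine hF.eq_of_irr oz' oz o₂.1 ?_ hc t₂ h0 ?_ hp
    · rw [ez]
      exact fun h => hc ((isAlgebraic_algHom_iff σ' σ.injective).1 h)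
    · rw [ez, ← fx _ p₂.1]
      exact (aevalAeval_algHom σ' _ _ _).trans (by rw [hp, map_zero])
  have g₂ := hF.mul oz (inv_mem oz')
  rw [dg_inv, g₁, show u₂ / u₁ ^ q * (u₂ / σ u₁ ^ q)⁻¹ = (σ u₁ / u₁) ^ q by
    rw [div_pow]; field_simp] at g₂
  have oW := div_mem o₅ o₃
  have g₃ := pow_ge hF oW q
  have l₀ : k⟮xc P₁⟯ ≤ F := adjoin_simple_le_iff.2 o₁.1
  have g₄ := rel_adj_one (m _ _) (m _ _) l₀ o₁ (s _)
  have g₅ := rel_le_rel (adj_le l₀ o₁) o₃ (le_adj (s _)) t₁ (up_ne_zero n₁)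
    ((natDegree_up _).trans b₁) (by rw [ev_up, h₁])
  have g₆ := rel_le_rel (sup_le_of_mem (adj_le l₀ o₁) o₃) o₅
    (oP _ (on_adj.mono le_sup_left)).1 t' (up_ne_zero n₁) ((natDegree_up _).trans b₁)
    (by rw [ev_up, h'])
  have g₇ : relfinrank (adj k⟮xc P₁⟯ P₁ ⊔ k⟮u₁⟯ ⊔ k⟮σ u₁⟯) F ≤ dg F (σ u₁ / u₁) :=
    rel_mono (adjoin_simple_le_iff.2 (div_mem (mem_ext _ _)
      (le_sup_left (b := k⟮σ u₁⟯) (mem_ext _ _)))) (hF.ne_zero oW tW)
  have g₈ : dg F (xc P₁) ≤ 2 * (B * (B * dg F (σ u₁ / u₁))) :=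
    g₄.trans (Nat.mul_le_mul_left _ (g₅.trans (Nat.mul_le_mul_left _ (g₆.trans
      (Nat.mul_le_mul_left _ g₇)))))
  calc _ ≤ q * (2 * (B * (B * dg F (σ u₁ / u₁)))) := Nat.mul_le_mul_left _ g₈
    _ = 2 * B ^ 2 * (q * dg F (σ u₁ / u₁)) := by ring
    _ ≤ 2 * B ^ 2 * _ := Nat.mul_le_mul_left _ (g₃.trans g₂)
    _ = _ := by ring

end Pool.Agent.Lib.MP_8865d3_nt.Iw
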