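import Pool.Agent.Lib.MP_651af7_nt.IvMain
import Pool.Agent.Lib.MP_8865d3_nt.IwCase

/-! Linear independence of the functions `x(z₁)^i z₂^j x(P₁)^a` on a product of two curves in the
product of an elliptic curve and a torus. -/

namespace Pool.Agent.Lib.MP_8865d3_nt.Iw

open Polynomial IntermediateField Pool.Agent.Lib.MP_e97e2b_nt Pool.Agent.Lib.MP_651af7_nt.Iv
open scoped Polynomial.Bivariate

lemma trans_snd {Ω : Type} [Field Ω] [CharZero Ω] {φ : ℚ[X][Y]} (hi : Irreducible φ)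
    (h1 : 1 ≤ (Bivariate.swap φ).natDegree) {x u : Ω} (hx : Transcendental ℚ x)
    (h : aevalAeval x u φ = 0) : Transcendental ℚ u := fun ⟨m, h0, hm⟩ => by
  have h2 := (irr_gauss hx hi h).2 (Bivariate.swap (C m))
    (by rw [Bivariate.aevalAeval_swap, aevalAeval_C, hm])
  have h3 := map_dvd Bivariate.swap h2
  rw [Bivariate.swap_swap_apply] at h3
  have h4 := natDegree_le_of_dvd h3 (C_ne_zero.2 h0)
  rw [natDegree_C] at h4
  omega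

lemma degreeOf_le_swap {R : Type} [CommRing R] (p : R[X][Y]) :
    (Bivariate.equivMvPolynomial R p).degreeOf 0 ≤ (Bivariate.swap p).natDegree := by
  refine MvPolynomial.degreeOf_le_iff.2 fun m hm => ?_
  rw [MvPolynomial.mem_support_iff, coeff_equiv] at hm
  exact (le_natDegree_of_ne_zero hm).trans (natDegree_coeff_le p _)

lemma core {K : Type} [Field K] [NumberField K] {a b : K} (hD : 4 * a ^ 3 + 27 * b ^ 2 ≠ 0) {B : ℕ}
    {φ₁ : ℚ[X][Y]} (hi₁ : Irreducible φ₁) (b₀ : 1 ≤ (Bivariate.swap φ₁).natDegree)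
    (b₁ : φ₁.natDegree ≤ B) {Ω : Type} [Field Ω] [CharZero Ω] [IsAlgClosed Ω] [Algebra K Ω]
    {P₁ P₂ : Pt (algebraMap K Ω a) (algebraMap K Ω b)} {u₁ u₂ : Ω} {φ₂ : ℚ[X][Y]} {e ν : ℕ}
    (n₂ : φ₂ ≠ 0) (b₂ : φ₂.natDegree ≤ B) (u0' : u₂ ≠ 0)
    (h₁ : aevalAeval (xc P₁) u₁ φ₁ = 0) (h₂ : aevalAeval (xc P₂) u₂ φ₂ = 0)
    (hx : AlgebraicIndependent K ![xc P₁, xc P₂]) (hr : 66 * B * cmu φ₁ < 4 ^ e)
    (hr' : 33 * B * nb φ₁ < 2 ^ e) (hν : 16 * B ^ 2 * ν ≤ 4 ^ e) :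
    LinearIndependent K fun p : ℕ × ℕ × Fin ν =>
      xc (P₂ - 2 ^ e • P₁) ^ p.1 * (u₂ / u₁ ^ 4 ^ e) ^ p.2.1 * xc P₁ ^ (p.2.2 : ℕ) := by
  have m : ∀ (M : IntermediateField K Ω) (c : K), algebraMap K Ω c ∈ M := fun M c =>
    M.algebraMap_mem c
  have s : ∀ x : Ω, x ∈ K⟮x⟯ := mem_adjoin_simple_self K
  have T₁ : Transcendental K (xc P₁) := hx.transcendental 0
  have T₂ : Transcendental K (xc P₂) := hx.transcendental 1
  have Tu : Transcendental K u₁ := fun h =>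
    trans_snd hi₁ b₀ (T₁.restrictScalars (algebraMap ℚ K).injective) h₁ (h.restrictScalars ℚ)
  have u0 : u₁ ≠ 0 := fun h => Tu (h ▸ isAlgebraic_zero)
  have n₁₂ : ¬IsAlgebraic K⟮xc P₁⟯ (xc P₂) := fun h => by
    obtain ⟨p, h0, hp⟩ := rel_of_alg h
    refine h0 ((map_eq_zero_iff _ (Bivariate.equivMvPolynomial K).injective).1
      (algebraicIndependent_iff.1 hx _ ?_))
    rw [aeval_equiv, hp]
  obtain ⟨M₁, d₁, c₁⟩ := exists_closure K⟮xc P₁⟯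
  obtain ⟨k, d, c⟩ := exists_closure K⟮xc (P₂ - 2 ^ e • P₁)⟯
  have p₁ : On M₁ P₁ := on_closed c₁ ((d₁ _).2 (alg_of_mem (s _)))
  have q₁ : u₁ ∈ M₁ :=
    (d₁ _).2 (alg_of_rel (s _) T₁ (up_ne_zero hi₁.ne_zero) (by rw [ev_up, h₁]))
  have zk : xc (P₂ - 2 ^ e • P₁) ∈ k := (d _).2 (alg_of_mem (s _))
  have z₁ : xc (P₂ - 2 ^ e • P₁) ∉ M₁ := fun h => n₁₂ ((d₁ _).1 (by
    simpa using ((on_closed c₁ h).add (m _ _) (p₁.nsmul (m _ _) (2 ^ e))).1))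
  have Tz : Transcendental K (xc (P₂ - 2 ^ e • P₁)) := fun h =>
    z₁ ((d₁ _).2 (h.tower_top _))
  have x₁ : xc P₁ ∉ k := fun h => z₁ ((d₁ _).2 (exchange T₁ ((d _).1 h)))
  have hk : ∀ g : Ω, IsAlgebraic k g → g ∈ (⊥ : IntermediateField k Ω) := fun g hg =>
    IntermediateField.mem_bot.2 ⟨⟨g, c g hg⟩, rfl⟩
  have t₁ : Transcendental k (xc P₁) := fun h => x₁ (c _ h)
  have : CharZero k := charZero_of_injective_algebraMap (algebraMap K k).injective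
  have kD : 4 * algebraMap K k a ^ 3 + 27 * algebraMap K k b ^ 2 ≠ 0 := fun h' =>
    hD ((algebraMap K k).injective (by simpa [map_ofNat] using h'))
  have hz : IsAlgebraic k (xc (P₂ - 2 ^ e • P₁)) := alg_of_mem zk
  by_cases hμ : IsAlgebraic K (mg φ₁ P₁ u₁)
  swap
  · obtain ⟨F, hF, o₁, o₂, h⟩ := caseN (a := algebraMap K k a) (b := algebraMap K k b) hk hz t₁ h₁
      hi₁.ne_zero kD h₂ n₂ b₂ hi₁ b₁ u0 u0'
      (fun h => hμ (const_alg c x₁ (c _ h) ((d₁ _).1 (mg_mem φ₁ p₁ q₁)))) hr (4 ^ e)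
    exact li_of_deg hF (trans_mk zk Tz) o₁.1 o₂ t₁ (by positivity) hν h
  exfalso
  have t₂ : Transcendental k (xc P₂) :=
    trans_two (a := algebraMap K k a) (b := algebraMap K k b) hz t₁
  have tu : Transcendental k u₁ := fun h => Tu (const_alg c x₁ (c _ h) ((d₁ _).1 q₁))
  obtain ⟨τ, hτ, e₁⟩ := exists_swap (hx.extendScalars (algebraicClosure K Ω))
  have fx : ∀ z, IsAlgebraic K z → τ z = z := fun z hz => hτ ⟨z, mem_algebraicClosure_iff.2 hz⟩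
  have fK : ∀ u, τ (algebraMap K Ω u) = algebraMap K Ω u := fun u =>
    fx _ (isAlgebraic_algebraMap u)
  have e₂ : xc (fmap τ (fK a) (fK b) P₁) = xc P₂ := by rw [xc_fmap, e₁]
  have e₃ : aevalAeval (xc (fmap τ (fK a) (fK b) P₁)) (τ u₁) φ₁ = 0 := by
    rw [xc_fmap]
    exact (aevalAeval_algHom τ.toRatAlgHom _ _ _).trans (by rw [h₁, map_zero])
  have s0 : τ u₁ ≠ 0 := (map_ne_zero τ).2 u0
  have e₄ : ∀ D : Derivation k Ω Ω, D (τ u₁) =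
      2 * mg φ₁ P₁ u₁ * lam D (fmap τ (fK a) (fK b) P₁) * τ u₁ := fun D => by
    rw [← fx _ hμ, ← mg_fmap φ₁ τ (fK a) (fK b)]
    exact der_slope (a := algebraMap K k a) (b := algebraMap K k b) D hi₁ (e₂ ▸ t₂) e₃ s0
  have n₂ := ne_zero_of_trans T₂
  have n₁ := ne_zero_of_trans (e₂ ▸ T₂)
  have := pt_eq_or (e₂ ▸ ns_of_ne n₁) (ns_of_ne n₂)
  rw [← eq_pt n₂, show pt _ _ (e₂ ▸ ns_of_ne n₁) = fmap τ (fK a) (fK b) P₁ from
    (pt_inj.2 ⟨e₂.symm, rfl⟩).trans (eq_pt n₁).symm] at this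
  rw [e₂] at e₃
  refine hr'.not_ge ?_
  rcases this with h | h
  · exact caseE (a := algebraMap K k a) (b := algebraMap K k b) hk hz t₁ h₁ hi₁.ne_zero kD hi₁ b₁
      tu e₃ (Or.inl rfl) s0 (h ▸ e₄)
  · have e₅ : ∀ D : Derivation k Ω Ω,
        D (τ u₁)⁻¹ = 2 * mg φ₁ P₁ u₁ * lam D P₂ * (τ u₁)⁻¹ := fun D => by
      have := der_div D s0 (u := 1) (s := 0) (by simp) (e₄ D)
      rw [h, lam_neg, one_div] at this
      rw [this]
      ring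
    exact caseE (a := algebraMap K k a) (b := algebraMap K k b) hk hz t₁ h₁ hi₁.ne_zero kD hi₁ b₁
      tu e₃ (Or.inr rfl) (inv_ne_zero s0) e₅

theorem indepG {K : Type} [Field K] [NumberField K] (a b : K)
    (hD : 4 * a ^ 3 + 27 * b ^ 2 ≠ 0) (B : ℕ)
    (φ₁ : MvPolynomial (Fin 2) ℚ) (hi₁ : Irreducible φ₁)
    (hB₁ : ∀ i, 1 ≤ φ₁.degreeOf i ∧ φ₁.degreeOf i ≤ B) :
    ∃ r₀ : ℕ, ∀ (L : Type) [Field L] [CharZero L] [Algebra K L]
      (P₁ P₂ : Pt (algebraMap K L a) (algebraMap K L b)) (u₁ u₂ : L)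
      (φ₂ : MvPolynomial (Fin 2) ℚ) (e ν : ℕ), φ₂ ≠ 0 → φ₂.degreeOf 1 ≤ B → u₂ ≠ 0 →
      MvPolynomial.aeval ![xc P₁, u₁] φ₁ = 0 → MvPolynomial.aeval ![xc P₂, u₂] φ₂ = 0 →
      AlgebraicIndependent K ![xc P₁, xc P₂] → r₀ ≤ 2 ^ e → 5000 * B ^ 2 * ν ≤ 4 ^ e →
      LinearIndependent K fun p : ℕ × ℕ × Fin ν =>
        xc (P₂ - 2 ^ e • P₁) ^ p.1 * (u₂ / u₁ ^ 4 ^ e) ^ p.2.1 * xc P₁ ^ (p.2.2 : ℕ) := by
  obtain ⟨φ₁, rfl⟩ := (Bivariate.equivMvPolynomial ℚ).surjective φ₁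
  rw [MulEquiv.irreducible_iff] at hi₁
  refine ⟨66 * B * cmu φ₁ + 33 * B * nb φ₁ + 1, ?_⟩
  intro L _ _ _ P₁ P₂ u₁ u₂ φ₂ e ν n₂ b₂ u0 h₁ h₂ hx hr hν
  obtain ⟨φ₂, rfl⟩ := (Bivariate.equivMvPolynomial ℚ).surjective φ₂
  rw [aeval_equiv] at h₁ h₂
  let Ω := AlgebraicClosure L
  let f := IsScalarTower.toAlgHom K L Ω
  have hf : ∀ u, f.toRingHom (algebraMap K L u) = algebraMap K Ω u := f.commutes
  have ex : ∀ P, xc (fmap f.toRingHom (hf a) (hf b) P) = f (xc P) := xc_fmap _ _ _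
  have h24 : 2 ^ e ≤ 4 ^ e := Nat.pow_le_pow_left (by norm_num) e
  have := core hD hi₁ ((hB₁ 0).1.trans (degreeOf_le_swap φ₁))
    ((natDegree_le_degreeOf φ₁).trans (hB₁ 1).2) (Ω := Ω)
    (P₁ := fmap f.toRingHom (hf a) (hf b) P₁) (P₂ := fmap f.toRingHom (hf a) (hf b) P₂)
    (u₁ := f u₁) (u₂ := f u₂) (φ₂ := φ₂) (e := e) (ν := ν) (fun h => n₂ (by rw [h, map_zero]))
    ((natDegree_le_degreeOf φ₂).trans b₂) ((map_ne_zero f).2 u0)
    (by rw [ex]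
        exact (aevalAeval_algHom f.toRingHom.toRatAlgHom _ _ _).trans (by rw [h₁, map_zero]))
    (by rw [ex]
        exact (aevalAeval_algHom f.toRingHom.toRatAlgHom _ _ _).trans (by rw [h₂, map_zero]))
    (by rw [ex, ex, show ![f (xc P₁), f (xc P₂)] = f ∘ ![xc P₁, xc P₂] from by
          ext i; fin_cases i <;> rfl]
        exact hx.map' f.injective)
    (by omega) (by omega)
    ((Nat.mul_le_mul_right _ (Nat.mul_le_mul_right _ (by norm_num))).trans hν)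
  simp only [← map_nsmul, ← map_sub, ex] at this
  refine LinearIndependent.of_comp f.toLinearMap ?_
  convert this using 2 with p
  simp

end Pool.Agent.Lib.MP_8865d3_nt.Iw
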