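import Pool.Agent.Lib.MP_8865d3_nt.G2Br
import Pool.Agent.Lib.MP_8865d3_nt.IwMain
import Pool.Agent.Lib.MP_651af7_nt.Vj.CvInd

/-! The auxiliary polynomial does not vanish on the product of the two branches
(compare `Vj/CvInd`). -/

namespace Pool.Agent.Lib.MP_8865d3_nt.G2

open MvPolynomial Finset Height Pool.Agent.Lib.Common.Subspace Pool.Agent.Lib.MP_651af7_nt.Vj
  Pool.Agent.Lib.MP_e97e2b_nt Pool.Agent.Lib.MP_651af7_nt.Iv

variable {K : Type} [Field K] [NumberField K] {a b : ℤ}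

/-- As `Vj.indep_series` with `Iw.indepG`; `u₁, u₂` are the images of `Y2 u u' 2`, `Y2 u u' 5`
(nonzero constant terms) and `Gc = aD ^ n * u₁ ^ (4 ^ s * n) *
∑ c v * xc z₁ ^ i * (u₂ / u₁ ^ 4 ^ s) ^ j * xc P₁ ^ l`. -/
theorem indep_series (hD : 4 * a ^ 3 + 27 * b ^ 2 ≠ 0) (B : ℕ)
    (φ₁ : MvPolynomial (Fin 2) ℚ) (hi₁ : Irreducible φ₁)
    (hB₁ : ∀ i, 1 ≤ degreeOf i φ₁ ∧ degreeOf i φ₁ ≤ B) :
    ∃ r₀ : ℕ, ∀ (φ₂ : MvPolynomial (Fin 2) ℚ) (z z' : Fin 3 → K) (u u' : Fin 3 → PowerSeries K)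
        (s ν n : ℕ), φ₂ ≠ 0 → degreeOf 1 φ₂ ≤ B → Bq a b φ₁ z u → Bq a b φ₂ z' u' →
        z 2 ≠ 0 → z' 2 ≠ 0 → (mulP (a : K) b (z 0) (z 1) s).2.1 ≠ 0 →
        r₀ ≤ 2 ^ s → 5000 * B ^ 2 * ν ≤ 4 ^ s →
        ∀ c : VI n ν → ℤ, c ≠ 0 → aeval (Y2 u u') (Gc a b s n c false) ≠ 0 := by
  have hDK : 4 * (a : K) ^ 3 + 27 * (b : K) ^ 2 ≠ 0 := by exact_mod_cast hD
  obtain ⟨r₀, H⟩ := Iw.indepG (a : K) b hDK B φ₁ hi₁ hB₁
  refine ⟨r₀, ?_⟩
  intro φ₂ z z' u u' s ν n hn₂ hb₂ h h' hz hz' hB hr hν c hc h0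
  obtain ⟨L, _, _, _, ι', hι, hI⟩ : ∃ (L : Type) (_ : Field L) (_ : CharZero L) (_ : Algebra K L)
      (ι : MvPowerSeries (Fin 2) K →ₐ[K] L), Function.Injective ι ∧ ∀ x x' : K,
        AlgebraicIndependent K ![ι (MvPowerSeries.C x + MvPowerSeries.X 0),
          ι (MvPowerSeries.C x' + MvPowerSeries.X 1)] :=
    ⟨FractionRing (MvPowerSeries (Fin 2) K), inferInstance,
      charZero_of_injective_algebraMap (algebraMap K _).injective, inferInstance,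
      IsScalarTower.toAlgHom K _ _, IsFractionRing.injective (MvPowerSeries (Fin 2) K) _,
      algInd_param⟩
  let ι : MvPowerSeries (Fin 2) K →+* L := ι'.toRingHom
  have hV := onW_Y2 h h'
  have hDL : 4 * algebraMap K L a ^ 3 + 27 * algebraMap K L b ^ 2 ≠ 0 := by
    rw [map_intCast, map_intCast]
    exact_mod_cast hD
  have ns : ∀ {x y : MvPowerSeries (Fin 2) K}, y ^ 2 = x ^ 3 + a * x + b →
      NS (algebraMap K L a) (algebraMap K L b) (ι x) (ι y) := fun he =>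
    ns_of_eq two_ne_zero hDL (by simpa using congrArg ι he)
  have n1 := ns hV.e1
  have n4 := ns hV.e4
  have f1 : aeval ![ι (Y2 u u' 0), ι (Y2 u u' 2)] φ₁ = 0 := by
    have := congrArg ι hV.f1
    rwa [map_aeval_CvInd, map_zero, vec2_CvInd ι] at this
  have f2 : aeval ![ι (Y2 u u' 3), ι (Y2 u u' 5)] φ₂ = 0 := by
    have := congrArg ι hV.f2
    rwa [map_aeval_CvInd, map_zero, vec2_CvInd ι] at this
  have hind : AlgebraicIndependent K ![ι (Y2 u u' 0), ι (Y2 u u' 3)] := by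
    have e0 : Y2 u u' 0 = MvPowerSeries.C (z 0) + MvPowerSeries.X 0 := by
      change (u 0).toMvPowerSeries 0 = _
      rw [h.par, map_add, PowerSeries.toMvPowerSeries_C, PowerSeries.toMvPowerSeries_X]
    have e4 : Y2 u u' 3 = MvPowerSeries.C (z' 0) + MvPowerSeries.X 1 := by
      change (u' 0).toMvPowerSeries 1 = _
      rw [h'.par, map_add, PowerSeries.toMvPowerSeries_C, PowerSeries.toMvPowerSeries_X]
    rw [e0, e4]
    exact hI _ _
  have hne : ∀ (p : PowerSeries K) (i : Fin 2), PowerSeries.constantCoeff p ≠ 0 →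
      ι (p.toMvPowerSeries i) ≠ 0 := fun p i hp e => hp (by
    rw [PowerSeries.toMvPowerSeries_injective i
      ((hι (e.trans (map_zero ι').symm)).trans (map_zero _).symm), map_zero])
  have u1 : ι (Y2 u u' 2) ≠ 0 := hne (u 2) 0 (by rwa [h.cc])
  have u2 : ι (Y2 u u' 5) ≠ 0 := hne (u' 2) 1 (by rwa [h'.cc])
  have k := H L (pt _ _ n1) (pt _ _ n4) (ι (Y2 u u' 2)) (ι (Y2 u u' 5)) φ₂ s ν hn₂ hb₂ u2 f1 f2
    hind hr hν
  refine hc ?_
  have c1 : PowerSeries.coeff 1 (u' 0) ≠ 0 := by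
    rw [h'.par]
    simp
  obtain ⟨d1, d2⟩ := den_ne_CvInd ι hι a b (u 0) (u 1) (u' 0) s c1 (by rwa [h.cc, h.cc])
  rw [← map_intCast (algebraMap K L) a, ← map_intCast (algebraMap K L) b] at d1 d2
  have k1 := Fintype.linearIndependent_iff.1
    (k.comp (fun v : VI n ν => ((v.1 : ℕ), (v.2.1 : ℕ), v.2.2)) (by
      rintro ⟨i, j, l⟩ ⟨i', j', l'⟩ e
      simp only [Prod.mk.injEq] at e
      rw [Fin.ext e.1, Fin.ext e.2.1, e.2.2])) (fun v => (c v : K)) (by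
    have k2 := congrArg ι h0
    rw [map_aeval_CvInd, map_zero, Gc, map_sum] at k2
    refine mul_left_cancel₀ (mul_ne_zero (pow_ne_zero n d2) (pow_ne_zero (4 ^ s * n) u1)) ?_
    rw [mul_zero, ← k2, Finset.mul_sum]
    refine Finset.sum_congr rfl fun v _ => ?_
    rw [map_zsmul, aeval_Gb, ← map_intCast (algebraMap K L) a, ← map_intCast (algebraMap K L) b,
      fac_eq_CvInd n1 n4 s d1 d2 (Nat.lt_succ_iff.1 v.1.2), Int.cast_smul_eq_zsmul,
      zsmul_eq_mul, zsmul_eq_mul]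
    simp only [Function.comp_apply, xc_pt]
    have e : ι (Y2 u u' 2) ^ (4 ^ s * n) * (ι (Y2 u u' 5) / ι (Y2 u u' 2) ^ 4 ^ s) ^ (v.2.1 : ℕ) =
        ι (Y2 u u' 5) ^ (v.2.1 : ℕ) * ι (Y2 u u' 2) ^ (4 ^ s * (n - v.2.1)) := by
      obtain ⟨m, hm⟩ := Nat.exists_eq_add_of_le (Nat.lt_succ_iff.1 v.2.1.2)
      have e1 : n - (v.2.1 : ℕ) = m := by omega
      have e2 : 4 ^ s * n = 4 ^ s * m + 4 ^ s * (v.2.1 : ℕ) := by
        rw [← mul_add]
        congr 1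
        omega
      rw [e1, e2, pow_add, div_pow, ← pow_mul, mul_assoc,
        mul_div_cancel₀ _ (pow_ne_zero _ u1), mul_comm]
    rw [← e]
    change _ = _ * (_ * aD (ι ((u' 0).toMvPowerSeries 1)) (mulP _ _ (ι ((u 0).toMvPowerSeries 0))
      (ι ((u 1).toMvPowerSeries 0)) s) ^ n * _ * _)
    ring)
  funext v
  exact_mod_cast k1 v

end Pool.Agent.Lib.MP_8865d3_nt.G2
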