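import Pool.Agent.Lib.MP_8865d3_nt.G2Defs
import Pool.Agent.Lib.MP_651af7_nt.Vj.CvPt

/-! Points of large height; the places outside `S`. -/

namespace Pool.Agent.Lib.MP_8865d3_nt.G2

open MvPolynomial Finset Height Pool.Agent.Lib.Common.Subspace Pool.Agent.Lib.MP_651af7_nt.Vj
  Pool.Agent.Lib.MP_8865d3_nt.Gm NumberField

variable {K : Type} [Field K] [NumberField K]

/-- The finite places outside `S`. -/
def outS (S : Finset (FinitePlace K)) : Set (AbsoluteValue K ℝ) :=
  {v | ∃ w : FinitePlace K, w ∉ S ∧ w.1 = v}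

theorem g2pt_inf (S : Finset (FinitePlace K)) (v : InfinitePlace K) : v.1 ∉ outS S := by
  rintro ⟨w, -, e⟩
  have h1 := w.add_le 1 1
  have h2 := v.map_natCast 2
  rw [InfinitePlace.coe_apply, ← e, ← FinitePlace.coe_apply, Nat.cast_ofNat,
    ← one_add_one_eq_two] at h2
  rw [h2, map_one, max_self] at h1
  norm_num at h1

theorem g2pt_gsum (f : AbsoluteValue K ℝ → ℝ) :
    gsum f = ∑ v : InfinitePlace K, v.mult • f v.1 + ∑ᶠ v : FinitePlace K, f v.1 :=
  congrArg₂ (· + ·) (sum_archAbsVal_eq f) (sum_nonarchAbsVal_eq f)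

theorem g2pt_inn (S : Finset (FinitePlace K)) (x : K) :
    inn (outS S) x = ∑ᶠ v ∈ (S : Set (FinitePlace K))ᶜ, Real.log (max (v x) 1) := by
  rw [inn, g2pt_gsum, finsum_mem_def,
    Finset.sum_eq_zero fun v _ => by rw [if_neg (g2pt_inf S v), Real.log_one, smul_zero], zero_add]
  refine finsum_congr fun v => ?_
  by_cases h : v ∈ S
  · rw [Set.indicator_of_notMem (not_not.2 h), if_neg, Real.log_one]
    rintro ⟨w, hw, e⟩
    exact hw ((Subtype.ext e : w = v) ▸ h)
  · rw [Set.indicator_of_mem (show v ∈ (S : Set (FinitePlace K))ᶜ from h), if_pos ⟨v, h, rfl⟩]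
    rfl

theorem g2pt_le (S : Finset (FinitePlace K)) {u : K} (hu : u ≠ 0) :
    inn (outS S) u ≤ cnt S u := by
  have h1 : (Function.support fun v : FinitePlace K => Real.log (max (v u) 1)).Finite :=
    finS_max u
  have h2 : (Function.support fun v : FinitePlace K => |Real.log (v u)|).Finite :=
    Set.Finite.subset (finS_log u) fun v hv => abs_ne_zero.1 hv
  rw [g2pt_inn, cnt, finsum_mem_def, finsum_mem_def]
  refine finsum_le_finsum'
    (h1.subset (Set.support_indicator.trans_subset Set.inter_subset_right))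
    (h2.subset (Set.support_indicator.trans_subset Set.inter_subset_right))
    fun v => Set.indicator_le_indicator ?_
  rcases le_total (v u) 1 with h | h
  · rw [max_eq_right h, Real.log_one]
    exact abs_nonneg _
  · rw [max_eq_left h]
    exact le_abs_self _

/-- An infinite place is not in `outS S` (it takes the value `2` at `2`), so `inn (outS S) x` is the
sum of `log (max (v x) 1)` over the finite places outside `S` (`sum_archAbsVal_eq`,
`sum_nonarchAbsVal_eq`, `gsum_max`). -/
theorem inn_add_prox (S : Finset (FinitePlace K)) (x : K) :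
    inn (outS S) x + prox S x = logHeight₁ x := by
  have h1 : (Function.support fun v : FinitePlace K => Real.log (max (v x) 1)).Finite :=
    finS_max x
  have h2 := finsum_mem_union' (f := fun v : FinitePlace K => Real.log (max (v x) 1))
    (s := (S : Set (FinitePlace K))ᶜ) (t := S) disjoint_compl_left (h1.inter_of_right _)
    (h1.inter_of_right _)
  rw [Set.compl_union_self, finsum_mem_univ, finsum_mem_coe_finset] at h2
  rw [g2pt_inn, prox, ← gsum_max, g2pt_gsum]
  simp only [nsmul_eq_mul, ← InfinitePlace.coe_apply, ← FinitePlace.coe_apply]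
  linarith

/-- `log (max t 1) ≤ |log t|` for `0 < t`. -/
theorem inn_le_cnt (S : Finset (FinitePlace K)) {u : K} (hu : u ≠ 0) :
    inn (outS S) u ≤ cnt S u ∧ inn (outS S) u⁻¹ ≤ cnt S u := by
  refine ⟨g2pt_le S hu, (g2pt_le S (inv_ne_zero hu)).trans_eq ?_⟩
  simp only [cnt, map_inv₀, Real.log_inv, abs_neg]

/-- `gg_eq_hE`, `hE_le_left`, `hE_le_right`, `logHeight₁_inv`, `logHeight₁_sub_le`. -/
theorem gg_le (x u : K) : gg x (u - 1)⁻¹ ≤ logHeight₁ x ∧
    gg x (u - 1)⁻¹ ≤ totalWeight K * Real.log 2 + logHeight₁ u := by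
  rw [gg_eq_hE]
  refine ⟨hE_le_left _ _, (hE_le_right _ _).trans ?_⟩
  have h := logHeight₁_sub_le u 1
  rwa [logHeight₁_one, add_zero, ← logHeight₁_inv] at h

/-- As `Vj.special_facts`. -/
theorem special_facts (D : ℕ) {η : ℝ} (hη : 0 < η) : ∃ ε₀ H₀ : ℝ, 0 < ε₀ ∧
    ∀ (ε H : ℝ) (x u : K) (φ : MvPolynomial (Fin 2) ℚ), 0 < ε → ε ≤ ε₀ → H₀ ≤ H →
      η * H ≤ gg x (u - 1)⁻¹ → Irreducible φ → IL φ (Real.exp (ε * H)) →
      (∀ i, degreeOf i φ ≤ D) → aeval ![x, u] φ = 0 →
      (∀ i, 1 ≤ degreeOf i φ) ∧ aeval ![x, u] (pderiv 1 φ) ≠ 0 := by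
  have hw : (0 : ℝ) ≤ totalWeight K := Nat.cast_nonneg _
  have hD : (0 : ℝ) ≤ D := Nat.cast_nonneg _
  set w : ℝ := ((totalWeight K : ℕ) : ℝ) with hwdef
  have hM : 0 < w * (2 * D + 1) + 1 := by positivity
  refine ⟨η / (2 * (w * (2 * D + 1) + 1)), 2 * ((w * (2 * D + 1) + 1) * D + 1 + w) / η,
    by positivity, fun ε H x u φ hε hε₀ hH hE' hi hφ hB h0 => ?_⟩
  have hH0 : 0 ≤ H := le_trans (by positivity) hH
  rw [div_le_iff₀ hη] at hH
  rw [le_div_iff₀ (by positivity)] at hε₀
  have hεH : 0 ≤ ε * H := mul_nonneg hε.le hH0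
  have key : (w * (2 * D + 1) + 1) * (D + ε * H) < η * H - w := by
    have := mul_le_mul_of_nonneg_right hε₀ hH0
    nlinarith
  have b1 : w * Real.log (Real.exp (ε * H)) < η * H - w := by
    rw [Real.log_exp]
    refine lt_of_le_of_lt ?_ key
    have := mul_nonneg hw hD
    have := mul_nonneg (mul_nonneg hw hD) hD
    have := mul_nonneg (mul_nonneg hw hD) hεH
    nlinarith
  have b2 : w * (2 * D * Real.log ((D + 1) * Real.exp (ε * H))) < η * H - w := by
    rw [Real.log_mul (by positivity) (Real.exp_ne_zero _), Real.log_exp]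
    have hl : Real.log (D + 1) ≤ D := by
      have := Real.log_le_sub_one_of_pos (x := (D : ℝ) + 1) (by positivity)
      linarith
    refine lt_of_le_of_lt ?_ key
    have := mul_le_mul_of_nonneg_left hl (mul_nonneg hw hD)
    have := mul_nonneg hw hD
    have := mul_nonneg hw hεH
    nlinarith
  have l1 := hE'.trans (gg_le x u).1
  have l2 := hE'.trans (gg_le x u).2
  have l3 : w * Real.log 2 ≤ w := mul_le_of_le_one_right hw (by
    have := Real.log_le_sub_one_of_pos (x := (2 : ℝ)) two_pos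
    linarith)
  have hdeg : ∀ i, 1 ≤ degreeOf i φ := by
    intro i
    by_contra hc
    rcases height_le_of_degreeOf_eq_zero hi.ne_zero hφ h0 (i := i) (by omega) with h | h
    · linarith
    · linarith
  exact ⟨hdeg, fun hs => by linarith [height_le_of_sing hi hφ hB (hdeg 1) h0 hs]⟩

end Pool.Agent.Lib.MP_8865d3_nt.G2
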