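import Pool.Agent.Lib.MP_8865d3_nt.Loc

/-! Global assembly. -/

namespace Pool.Agent.Lib.MP_8865d3_nt

open Finset Matrix MvPolynomial Pool.Agent.Lib.Common.Subspace
open Pool.Agent.Lib.MP_651af7_nt.Moving

variable {σ ι : Type} [Fintype σ] [DecidableEq σ] [Fintype ι] [DecidableEq ι]

omit [Fintype σ] in
theorem hom_prod {α : Type} (s : Finset α) {P : α → MvPolynomial σ ℤ} {c d : α → ℕ}
    (h : ∀ j ∈ s, Hom (P j) (c j) (d j)) : Hom (∏ j ∈ s, P j) (∑ j ∈ s, c j) (∑ j ∈ s, d j) := by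
  classical
  induction s using Finset.induction_on with
  | empty =>
    intro μ hμ
    rw [prod_empty, mem_support_iff, coeff_one] at hμ
    simp [← not_not.1 fun h => hμ (if_neg h)]
  | insert j s hj ih =>
    rw [sum_insert hj, sum_insert hj, prod_insert hj]
    exact (h j (mem_insert_self _ _)).mul (ih fun i hi => h i (mem_insert_of_mem hi))

omit [Fintype σ] in
theorem hom_det {G : Matrix ι ι (MvPolynomial σ ℤ)} {a D : ι → ℕ}
    (h : ∀ r i, Hom (G r i) (a i) (D r)) : Hom G.det (∑ i, a i) (∑ r, D r) := by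
  intro μ hμ
  rw [det_apply] at hμ
  obtain ⟨π, -, h1⟩ := mem_biUnion.1 (support_sum hμ)
  rw [← Equiv.sum_comp π D]
  exact hom_prod univ (fun i _ => h (π i) i) μ (support_smul h1)

omit [Fintype σ] [DecidableEq σ] in
theorem Hom.zero {P : MvPolynomial σ ℤ} {c d : ℕ} (h : Hom P c d) : Hom P 0 (d - c) :=
  fun μ hμ => by have := h μ hμ; omega

omit [DecidableEq σ] [Fintype ι] [DecidableEq ι] in
theorem wh_rename (a : ι → ℕ) {P : MvPolynomial σ ℤ} {d : ℕ} (h : Hom P 0 d) :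
    (rename Sum.inl P : MvPolynomial (σ ⊕ ι) ℤ).IsWeightedHomogeneous (wt σ a) (d, 0) := by
  intro μ hμ
  obtain ⟨κ, rfl, hκ⟩ := coeff_rename_ne_zero _ _ _ hμ
  rw [weight_inl, Finsupp.weight_eq_sum, ← h κ (mem_support_iff.2 hκ), Finsupp.degree_eq_sum]
  ext <;> simp [wt, Prod.fst_sum, Prod.snd_sum]

omit [DecidableEq σ] [DecidableEq ι] in
theorem wh_lin {a : ι → ℕ} {l : ι → MvPolynomial σ ℤ} {d : ℕ} (h : ∀ i, Hom (l i) (a i) d) :
    (lin l).IsWeightedHomogeneous (wt σ a) (d, 1) := by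
  refine IsWeightedHomogeneous.sum _ _ _ fun i _ => ?_
  by_cases h0 : l i = 0
  · rw [h0, map_zero, zero_mul]; exact isWeightedHomogeneous_zero _ _ _
  · obtain ⟨μ, hμ⟩ := support_nonempty.2 h0
    have h1 := h i μ hμ
    convert (wh_rename a (h i).zero).mul (isWeightedHomogeneous_X ℤ (wt σ a) (Sum.inr i)) using 1
    simp only [wt, Sum.elim_inr, Prod.mk_add_mk, zero_add]
    congr 1
    omega

omit [Fintype σ] [DecidableEq σ] in
theorem lin_ne_zero {l : ι → MvPolynomial σ ℤ} (h : l ≠ 0) : lin l ≠ 0 := by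
  intro h0
  obtain ⟨i, hi⟩ := Function.ne_iff.1 h
  refine hi (MvPolynomial.funext fun u => ?_)
  have h1 := aeval_lin l u (Pi.single i 1)
  rw [h0, map_zero, sum_eq_single i (fun j _ hj => by simp [Pi.single_eq_of_ne hj]) (by simp)] at h1
  simpa [aeval_eq_eval] using h1.symm

omit [DecidableEq σ] [DecidableEq ι] in
theorem scale_eval {a : ι → ℕ} {P : MvPolynomial (σ ⊕ ι) ℤ} {e : ℕ × ℕ}
    (hP : P.IsWeightedHomogeneous (wt σ a) e) (u : σ → ℤ) (x : ι → ℤ) (l θ : ℚ) :
    aeval (Sum.elim (fun t => (u t : ℚ) / l) fun i => (x i : ℚ) / (l ^ a i * θ)) P =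
      (eval (Sum.elim u x) P : ℤ) / (l ^ e.1 * θ ^ e.2) := by
  rw [aeval_eq_sum, eval_eq', Int.cast_sum, sum_div]
  refine sum_congr rfl fun μ hμ => ?_
  have h1 := hP (mem_support_iff.1 hμ)
  rw [Finsupp.weight_eq_sum, Fintype.sum_sum_type] at h1
  have h2 := congrArg Prod.fst h1
  have h3 := congrArg Prod.snd h1
  simp [wt, Prod.fst_sum, Prod.snd_sum] at h2 h3
  rw [← h2, ← h3]
  simp only [Fintype.prod_sum_type, Sum.elim_inl, Sum.elim_inr, div_pow, mul_pow, prod_div_distrib,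
    prod_mul_distrib, ← pow_mul, prod_pow_eq_pow_sum, Int.cast_mul, Int.cast_prod, Int.cast_pow,
    pow_add, mul_comm (a _)]
  ring

omit [DecidableEq σ] in
theorem scale_base {P : MvPolynomial σ ℤ} {d : ℕ} (h : Hom P 0 d) (u : σ → ℤ) (l : ℚ) :
    aeval (fun t => (u t : ℚ) / l) P = (eval u P : ℤ) / l ^ d := by
  have h1 := scale_eval (wh_rename (fun _ : Unit => 0) h) u 1 l 1
  rw [aeval_rename, eval_rename] at h1
  simpa using h1

omit [DecidableEq ι] in
theorem defect1 [LinearOrder σ] [Nonempty σ] (a : ι → ℕ) {P : MvPolynomial σ ℤ} {d : ℕ}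
    (hP : Hom P 0 d) {ε : ℝ} (hε : 0 < ε) :
    ∃ (c : ℝ) (Q : (σ → ℤ) → Prop), Gen (wt σ a) (fun z => Q (z ∘ Sum.inl)) ∧
    ∀ (S : Finset ℕ) (hS : ∀ p ∈ S, p.Prime), ∃ C : ℝ, ∀ u : σ → ℤ, (∀ t, u t ≠ 0) → Q u →
      ∃ E : Option S → ℝ, (∀ o, 1 ≤ E o) ∧ (∀ o, ∀ κ ∈ P.support,
        ∏ t, place S hS o (u t) ^ κ t ≤ E o * place S hS o (eval u P : ℤ)) ∧
      ∑ o, Real.log (E o) ≤
        C + ε * Real.log ‖u‖ + c * Real.log (∏ t, ∏ o, place S hS o (u t)) := by
  by_cases h0 : P = 0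
  · refine ⟨0, fun _ => True, ⟨1, 0, one_ne_zero, isWeightedHomogeneous_one _ _, fun _ _ => trivial⟩,
      fun S hS => ⟨0, fun u hu _ => ⟨fun _ => 1, fun _ => le_rfl, by simp [h0], ?_⟩⟩⟩
    have := Real.log_nonneg (one_le_norm hu)
    simp only [Real.log_one, sum_const_zero, zero_add, zero_mul, add_zero]
    positivity
  obtain ⟨c, b, W, hW, H⟩ := mlead h0 hP hε
  refine ⟨c, fun u => ∀ w ∈ W, w ⬝ᵥ mvec (fun _ : Unit => 0) b u 1 ≠ 0,
    gen_all W fun w hw => gen_mvec_unit a (hW w hw), fun S hS => ?_⟩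
  obtain ⟨C, hC⟩ := H S hS
  set C₀ := 1 + len P with hC₀
  have hC1 : 1 ≤ C₀ := le_add_of_nonneg_right (len_nonneg P)
  refine ⟨C + Fintype.card (Option S) * Real.log C₀, fun u hu hQ => ?_⟩
  obtain ⟨γ, h1, h2⟩ := hC u hu hQ
  have hm : ∀ o, 0 < ∏ t, place S hS o (u t) ^ γ o t := fun o =>
    prod_pos fun t _ => pow_pos ((place S hS o).pos (by exact_mod_cast hu t)) _
  have h3 : eval u P ≠ 0 := fun h => by
    rw [prod_eq_zero (mem_univ none) (by rw [h]; simp)] at h2
    norm_num at h2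
  have hv : ∀ o, 0 < place S hS o (eval u P : ℤ) := fun o =>
    (place S hS o).pos (by exact_mod_cast h3)
  have hA : 0 < ∏ t, ∏ o, place S hS o (u t) :=
    prod_pos fun t _ => prod_pos fun o _ => (place S hS o).pos (by exact_mod_cast hu t)
  refine ⟨fun o => C₀ / (place S hS o (eval u P : ℤ) / ∏ t, place S hS o (u t) ^ γ o t),
    fun o => ?_, fun o κ hκ => ?_, ?_⟩
  · rw [one_le_div (div_pos (hv o) (hm o)), div_le_iff₀ (hm o)]
    exact (eval_le_lead _ ((places_place S hS).1 o) P u (h1 o).2).trans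
      (mul_le_mul_of_nonneg_right (le_add_of_nonneg_left one_pos.le) (hm o).le)
  · refine ((h1 o).2 κ hκ).trans ?_
    dsimp only
    rw [div_div_eq_mul_div, div_mul_cancel₀ _ (hv o).ne']
    exact le_mul_of_one_le_left (hm o).le hC1
  · have h4 := Real.log_nonneg h2
    rw [Real.log_mul (by positivity) (prod_pos fun o _ => div_pos (hv o) (hm o)).ne',
      Real.log_mul (by positivity) (by positivity), Real.log_exp, Real.log_pow,
      Real.log_prod (s := univ) (f := fun o => place S hS o (eval u P : ℤ) /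
        ∏ t, place S hS o (u t) ^ γ o t) fun o _ => (div_pos (hv o) (hm o)).ne'] at h4
    rw [sum_congr rfl fun o _ => Real.log_div (by linarith) (div_pos (hv o) (hm o)).ne',
      sum_sub_distrib, sum_const, card_univ, nsmul_eq_mul]
    linarith

omit [DecidableEq ι] in
theorem defect [LinearOrder σ] [Nonempty σ] (a : ι → ℕ) {H : Type} [Fintype H]
    (P : H → MvPolynomial σ ℤ) {d : H → ℕ} (hP : ∀ η, Hom (P η) 0 (d η)) {ε : ℝ} (hε : 0 < ε) :
    ∃ (c : ℝ) (Q : (σ → ℤ) → Prop), Gen (wt σ a) (fun z => Q (z ∘ Sum.inl)) ∧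
    ∀ (S : Finset ℕ) (hS : ∀ p ∈ S, p.Prime), ∃ C : ℝ, ∀ u : σ → ℤ, (∀ t, u t ≠ 0) → Q u →
      ∃ E : Option S → ℝ, (∀ o, 1 ≤ E o) ∧ (∀ o η, ∀ κ ∈ (P η).support,
        ∏ t, place S hS o (u t) ^ κ t ≤ E o * place S hS o (eval u (P η) : ℤ)) ∧
      ∑ o, Real.log (E o) ≤
        C + ε * Real.log ‖u‖ + c * Real.log (∏ t, ∏ o, place S hS o (u t)) := by
  classical
  choose c Q hQ H' using fun η => defect1 a (hP η)
    (show 0 < ε / (Fintype.card H + 1) by positivity)
  refine ⟨∑ η, c η, fun u => ∀ η ∈ univ, Q η u, gen_all univ fun η _ => hQ η, fun S hS => ?_⟩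
  choose C hC using fun η => H' η S hS
  refine ⟨∑ η, C η, fun u hu h => ?_⟩
  choose E h1 h2 h3 using fun η => hC η u hu (h η (mem_univ _))
  refine ⟨fun o => ∏ η, E η o, fun o => Finset.one_le_prod fun η _ => h1 η o,
    fun o η κ hκ => (h2 η o κ hκ).trans (mul_le_mul_of_nonneg_right ?_ ((place S hS o).nonneg _)),
    ?_⟩
  · dsimp only
    rw [← mul_prod_erase univ _ (mem_univ η)]
    exact le_mul_of_one_le_right (by linarith [h1 η o]) (Finset.one_le_prod fun η _ => h1 η o)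
  · rw [sum_congr rfl fun o _ => Real.log_prod fun η _ => by linarith [h1 η o], sum_comm]
    refine (sum_le_sum fun η _ => h3 η).trans ?_
    simp only [sum_add_distrib, ← sum_mul, sum_const, card_univ, nsmul_eq_mul]
    have h4 : (Fintype.card H : ℝ) * (ε / (Fintype.card H + 1)) ≤ ε := by
      rw [← mul_div_assoc, div_le_iff₀ (by positivity)]
      linarith
    linarith [mul_le_mul_of_nonneg_right h4 (Real.log_nonneg (one_le_norm hu))]

/-- The local height of a section of degree `e` with value `z`. -/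
noncomputable def lam (S : Finset ℕ) (hS : ∀ p ∈ S, p.Prime) (a : ι → ℕ) (u : σ → ℤ) (x : ι → ℤ)
    (o : Option S) (e : ℕ × ℕ) (z : ℤ) : ℝ :=
  e.1 * Real.log (o.elim ‖u‖ fun _ => 1) + e.2 * Real.log (o.elim (xi a u x) fun _ => 1) -
    Real.log (place S hS o z)

theorem main_add [LinearOrder σ] [Nonempty σ] [Nonempty ι] {J M N : Type} [Fintype J] [Fintype M]
    [Fintype N] [Nonempty M] [Nonempty N] (a : ι → ℕ) (d : J → ℕ)
    (g : J → ι → MvPolynomial σ ℤ) (hg : ∀ j i, Hom (g j i) (a i) (d j)) (hg0 : ∀ j, g j ≠ 0)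
    (h : M → MvPolynomial σ ℤ) (δ : M → ℕ) (hh : ∀ m, Hom (h m) 0 (δ m)) (hh0 : ∀ m, h m ≠ 0)
    (e : M → J → ℕ) (f : N → MvPolynomial (σ ⊕ ι) ℤ) (df : N → ℕ × ℕ) (hf0 : ∀ n, f n ≠ 0)
    (hdf : ∀ n, (f n).IsWeightedHomogeneous (wt σ a) (df n))
    (hf : ∀ n, InMult (fun m => rename Sum.inl (h m) * ∏ j, lin (g j) ^ e m j) (f n))
    {ε : ℝ} (hε : 0 < ε) :
    ∃ (c : ℝ) (F : MvPolynomial (σ ⊕ ι) ℤ) (e' : ℕ × ℕ), F ≠ 0 ∧
      F.IsWeightedHomogeneous (wt σ a) e' ∧
      ∀ (S : Finset ℕ) (hS : ∀ p ∈ S, p.Prime), ∃ C : ℝ, ∀ (u : σ → ℤ) (x : ι → ℤ),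
        univ.gcd u = 1 → univ.gcd x = 1 → eval (Sum.elim u x) F ≠ 0 →
        (∀ t, u t ≠ 0) ∧ (∀ i, x i ≠ 0) ∧
        (∀ m, eval (Sum.elim u x) (rename Sum.inl (h m) * ∏ j, lin (g j) ^ e m j) ≠ 0) ∧
        (∀ n, eval (Sum.elim u x) (f n) ≠ 0) ∧
        ∑ o, ((⨅ m, lam S hS a u x o (δ m + ∑ j, e m j * d j, ∑ j, e m j)
            (eval (Sum.elim u x) (rename Sum.inl (h m) * ∏ j, lin (g j) ^ e m j))) -
          ⨅ n, lam S hS a u x o (df n) (eval (Sum.elim u x) (f n))) ≤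
        (Fintype.card σ + ∑ i, (a i : ℝ)) * Real.log ‖u‖ + Fintype.card ι * Real.log (xi a u x) +
          ε * (Real.log ‖u‖ + Real.log ‖x‖) +
          c * Real.log (∏ t, ∏ o, place S hS o (u t)) + C := by
  classical
  let L : J ⊕ ι → ι → MvPolynomial σ ℤ := Sum.elim g fun i => Pi.single i 1
  let D : J ⊕ ι → ℕ := Sum.elim d a
  have hL : ∀ k i, Hom (L k i) (a i) (D k) := by
    rintro (j | i') i
    · exact hg j i
    · intro μ hμ
      by_cases hi : i = i'
      · subst hi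
        simp only [L, Sum.elim_inr, Pi.single_eq_same, mem_support_iff, coeff_one] at hμ
        simp [D, ← not_not.1 fun h => hμ (if_neg h)]
      · simp [L, Pi.single_eq_of_ne hi] at hμ
  have hL0 : ∀ k, L k ≠ 0 := by
    rintro (j | i)
    · exact hg0 j
    · exact fun h => by simpa [L] using congrFun h i
  let G : (ι → J ⊕ ι) → Matrix ι ι (MvPolynomial σ ℤ) := fun φ => Matrix.of fun r => L (φ r)
  have hGd : ∀ φ, Hom (G φ).det (∑ i, a i) (∑ r, D (φ r)) := fun φ => hom_det fun r i => hL _ _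
  set K : ℝ := 3 + 3 * ∑ m, ∑ j, (e m j : ℝ) + 2 * ∑ n, ((df n).2 : ℝ) + Fintype.card ι with hK
  have hK0 : 0 < K := by positivity
  obtain ⟨c₁, b, W, hb, hW, H₁⟩ := mdet a G (fun φ r => ⟨_, hL (φ r)⟩) (half_pos hε)
  obtain ⟨c₂, Q, hQ, H₂⟩ := defect a (Sum.elim h fun φ => (G φ).det)
    (d := Sum.elim δ fun φ => ∑ r, D (φ r) - ∑ i, a i)
    (by rintro (m | φ); exacts [hh m, (hGd φ).zero]) (show 0 < ε / 2 / K by positivity)
  have hself : ∀ {P : MvPolynomial (σ ⊕ ι) ℤ} {e : ℕ × ℕ}, P ≠ 0 →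
      P.IsWeightedHomogeneous (wt σ a) e → Gen (wt σ a) fun z => eval z P ≠ 0 :=
    fun h1 h2 => ⟨_, _, h1, h2, fun _ h => h⟩
  obtain ⟨F, e', hF0, hFe, hF⟩ := (gen_X (wt σ a)).and
    ((gen_all W fun w hw => gen_mvec a hb (hW w hw)).and (hQ.and
      ((gen_all univ fun k _ => hself (lin_ne_zero (hL0 k)) (wh_lin (hL k))).and
        (gen_all univ fun n _ => hself (hf0 n) (hdf n)))))
  set C₀ : ℝ := 1 + ∑ φ, (len (rename Sum.inl (G φ).det : MvPolynomial (σ ⊕ ι) ℤ) +
    ∑ i, len (hat (G φ) (X (Sum.inr i))) + ∑ n, len (hat (G φ) (f n))) with hC₀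
  have hs1 : ∀ φ, 0 ≤ ∑ i, len (hat (G φ) (X (Sum.inr i))) :=
    fun φ => sum_nonneg fun _ _ => len_nonneg _
  have hs2 : ∀ φ, 0 ≤ ∑ n, len (hat (G φ) (f n)) := fun φ => sum_nonneg fun _ _ => len_nonneg _
  have hC : ∀ φ, len (rename Sum.inl (G φ).det : MvPolynomial (σ ⊕ ι) ℤ) +
      ∑ i, len (hat (G φ) (X (Sum.inr i))) + ∑ n, len (hat (G φ) (f n)) ≤ C₀ := fun φ =>
    (single_le_sum (f := fun φ => len (rename Sum.inl (G φ).det : MvPolynomial (σ ⊕ ι) ℤ) +
      ∑ i, len (hat (G φ) (X (Sum.inr i))) + ∑ n, len (hat (G φ) (f n)))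
      (fun φ _ => add_nonneg (add_nonneg (len_nonneg _) (hs1 φ)) (hs2 φ)) (mem_univ φ)).trans
      (by linarith)
  have hC1 : 1 ≤ C₀ := le_add_of_nonneg_right
    (sum_nonneg fun φ _ => add_nonneg (add_nonneg (len_nonneg _) (hs1 φ)) (hs2 φ))
  refine ⟨c₁ + K * c₂ - 1, F, e', hF0, hFe, fun S hS => ?_⟩
  obtain ⟨K₁, hK₁⟩ := H₁ S hS
  obtain ⟨K₂, hK₂⟩ := H₂ S hS
  refine ⟨K₁ + K * (Fintype.card (Option S) * Real.log C₀ + K₂), fun u x hu hx hz => ?_⟩
  obtain ⟨h0, hw, hQu, hl0, hfn⟩ := hF _ hz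
  have hu0 : ∀ t, u t ≠ 0 := fun t => h0 (Sum.inl t)
  have hx0 : ∀ i, x i ≠ 0 := fun i => h0 (Sum.inr i)
  have hu1 := one_le_norm hu0
  have hupos : 0 < ‖u‖ := by linarith
  have hξ0 := xi_pos a hupos hx0
  obtain ⟨E, hE1, hE2, hE3⟩ := hK₂ u hu0 hQu
  have hvu : ∀ o t, 0 < place S hS o (u t) := fun o t =>
    (place S hS o).pos (by exact_mod_cast hu0 t)
  have hh1 : ∀ m, eval u (h m) ≠ 0 := fun m h1 => by
    obtain ⟨κ, hκ⟩ := support_nonempty.2 (hh0 m)
    have h2 := hE2 none (Sum.inl m) κ hκ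
    simp only [Sum.elim_inl, h1, Int.cast_zero, map_zero, mul_zero] at h2
    exact absurd h2 (not_le.2 (prod_pos fun t _ => pow_pos (hvu _ t) _))
  have hGm : ∀ m, (rename Sum.inl (h m) * ∏ j, lin (g j) ^ e m j).IsWeightedHomogeneous (wt σ a)
      (δ m + ∑ j, e m j * d j, ∑ j, e m j) := fun m => by
    convert (wh_rename a (hh m)).mul (IsWeightedHomogeneous.prod univ _
      (fun j => e m j • (d j, 1)) fun j _ => (wh_lin (hg j)).pow (e m j)) using 1
    ext <;> simp [Prod.fst_sum, Prod.snd_sum]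
  have hG0 : ∀ m, eval (Sum.elim u x) (rename Sum.inl (h m) * ∏ j, lin (g j) ^ e m j) ≠ 0 :=
    fun m => by
      rw [map_mul, map_prod, eval_rename]
      exact mul_ne_zero (hh1 m) (prod_ne_zero_iff.2 fun j _ => by
        rw [map_pow]; exact pow_ne_zero _ (hl0 (Sum.inl j) (mem_univ _)))
  refine ⟨hu0, hx0, hG0, fun n => hfn n (mem_univ _), ?_⟩
  have key : ∀ o : Option S, ∃ φ, eval u (G φ).det ≠ 0 ∧
      ((⨅ m, lam S hS a u x o (δ m + ∑ j, e m j * d j, ∑ j, e m j)
        (eval (Sum.elim u x) (rename Sum.inl (h m) * ∏ j, lin (g j) ^ e m j))) -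
        ⨅ n, lam S hS a u x o (df n) (eval (Sum.elim u x) (f n))) ≤
      (Fintype.card σ + ∑ i, (a i : ℝ)) * Real.log (o.elim ‖u‖ fun _ => 1) +
        Fintype.card ι * Real.log (o.elim (xi a u x) fun _ => 1) -
        ∑ t, Real.log (place S hS o (u t)) -
        Real.log ((∏ r, place S hS o (frm (G φ) u x r)) / place S hS o (eval u (G φ).det : ℤ)) +
        K * (Real.log C₀ + Real.log (E o)) := by
    intro o
    set v := place S hS o with hv
    set R : ℝ := o.elim ‖u‖ fun _ => 1 with hR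
    set Ξ : ℝ := o.elim (xi a u x) fun _ => 1 with hΞ
    have hR0 : 0 < R := by rcases o with _ | p; exacts [hupos, one_pos]
    have hΞ0 : 0 < Ξ := by rcases o with _ | p; exacts [hξ0, one_pos]
    obtain ⟨s, hs⟩ : ∃ s, v (u s) = R := by
      rcases o with _ | p
      · obtain ⟨s, hs⟩ := exists_norm_eq u
        exact ⟨s, by rw [hv, place_none]; exact hs⟩
      · exact exists_padic_one S hS p hu
    have hut : ∀ t, v (u t) ≤ R := by
      rcases o with _ | p
      · intro t; rw [hv, place_none]; exact abs_le_norm u t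
      · exact fun t => place_int_le S hS p _
    have hxi : ∀ i, v (x i) ≤ R ^ a i * Ξ := by
      rcases o with _ | p
      · intro i; rw [hv, place_none]; exact le_xi a hupos x i
      · intro i; simpa [hR, hΞ] using place_int_le S hS p _
    obtain ⟨i₁, hi₁⟩ : ∃ i, v (x i) = R ^ a i * Ξ := by
      rcases o with _ | p
      · obtain ⟨i, hi⟩ := exists_norm_eq fun i => (x i : ℝ) / ‖u‖ ^ a i
        refine ⟨i, ?_⟩
        rw [hv, place_none]
        rw [Real.norm_eq_abs, abs_div, abs_of_pos (pow_pos hupos _),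
          div_eq_iff (pow_pos hupos _).ne', mul_comm] at hi
        exact hi
      · simpa [hR, hΞ] using exists_padic_one S hS p hx
    set l : ℚ := ((u s : ℤ) : ℚ) with hl
    set θ : ℚ := x i₁ / l ^ a i₁ with hθ
    have hvθ : v θ = Ξ := by
      rw [hθ, map_div₀, map_pow, hs, hi₁, mul_div_cancel_left₀ _ (pow_pos hR0 _).ne']
    set u' : σ → ℚ := fun t => (u t : ℚ) / l with hu'
    set x' : ι → ℚ := fun i => (x i : ℚ) / (l ^ a i * θ) with hx'
    have hP : ∀ {P : MvPolynomial (σ ⊕ ι) ℤ} {e : ℕ × ℕ}, P.IsWeightedHomogeneous (wt σ a) e →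
        v (aeval (Sum.elim u' x') P) = v (eval (Sum.elim u x) P : ℤ) / (R ^ e.1 * Ξ ^ e.2) :=
      fun hP => by rw [scale_eval hP, map_div₀, map_mul, map_pow, map_pow, hs, hvθ]
    have hP0 : ∀ {P : MvPolynomial (σ ⊕ ι) ℤ} {e : ℕ × ℕ}, P.IsWeightedHomogeneous (wt σ a) e →
        eval (Sum.elim u x) P ≠ 0 → aeval (Sum.elim u' x') P ≠ 0 := fun hP' h1 =>
      v.pos_iff.1 (by rw [hP hP']; exact div_pos (v.pos (by exact_mod_cast h1)) (by positivity))
    have hPl : ∀ {P : MvPolynomial (σ ⊕ ι) ℤ} {e : ℕ × ℕ}, P.IsWeightedHomogeneous (wt σ a) e →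
        eval (Sum.elim u x) P ≠ 0 → lam S hS a u x o e (eval (Sum.elim u x) P) =
          -Real.log (v (aeval (Sum.elim u' x') P)) := fun hP' h1 => by
      rw [hP hP', Real.log_div (v.pos (by exact_mod_cast h1)).ne' (by positivity),
        Real.log_mul (by positivity) (by positivity), Real.log_pow, Real.log_pow, lam]
      ring
    have hB : ∀ {P : MvPolynomial σ ℤ} {d : ℕ}, Hom P 0 d →
        v (aeval u' P) = v (eval u P : ℤ) / R ^ d := fun hP => by
      rw [scale_base hP, map_div₀, map_pow, hs]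
    have hvu' : ∀ t, v (u' t) = v (u t) / R := fun t => by rw [hu', map_div₀, hs]
    have hE' : ∀ {P : MvPolynomial σ ℤ} {d : ℕ}, Hom P 0 d → (∀ κ ∈ P.support,
        ∏ t, v (u t) ^ κ t ≤ E o * v (eval u P : ℤ)) → ∀ κ ∈ P.support,
        ∏ t, v (u' t) ^ κ t ≤ E o * v (aeval u' P) := fun hP h1 κ hκ => by
      have h2 := hP κ hκ
      rw [add_zero, Finsupp.degree_eq_sum] at h2
      simp only [hvu', div_pow, prod_div_distrib, prod_pow_eq_pow_sum, h2, hB hP, ← mul_div_assoc]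
      exact div_le_div_of_nonneg_right (h1 κ hκ) (by positivity)
    have hl0' : ∀ k, aeval (Sum.elim u' x') (lin (L k)) ≠ 0 := fun k =>
      hP0 (wh_lin (hL k)) (hl0 k (mem_univ _))
    obtain ⟨φ, hφ, hmin⟩ := exists_min_image (univ.filter fun φ => aeval u' (G φ).det ≠ 0)
      (fun φ => (∏ r, v (aeval (Sum.elim u' x') (lin (L (φ r))))) / v (aeval u' (G φ).det))
      ⟨Sum.inr, mem_filter.2 ⟨mem_univ _, by
        have : G Sum.inr = 1 := by
          ext r i : 2
          simp [G, L, Pi.single_apply, one_apply, eq_comm]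
        simp [this]⟩⟩
    have hφ0 := (mem_filter.1 hφ).2
    have hφ1 : eval u (G φ).det ≠ 0 := fun h1 => hφ0 (by
      rw [scale_base (hGd φ).zero, h1, Int.cast_zero, zero_div])
    refine ⟨φ, hφ1, ?_⟩
    obtain ⟨n, hn⟩ := exists_eq_ciInf_of_finite
      (f := fun n => lam S hS a u x o (df n) (eval (Sum.elim u x) (f n)))
    have hβ : XHom (f n) (df n).2 := fun μ hμ => by
      have h1 := congrArg Prod.snd (hdf n (mem_support_iff.1 hμ))
      rw [Finsupp.weight_eq_sum, Fintype.sum_sum_type] at h1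
      simpa [wt, Prod.snd_sum] using h1
    have h1 := local_ineq v ((places_place S hS).1 o) L (fun _ => rfl) h e (hf n) hβ (u := u')
      (x := x') (fun t => div_ne_zero (by exact_mod_cast hu0 t) (by rw [hl]; exact_mod_cast hu0 s))
      (fun t => by rw [hvu', div_le_one hR0]; exact hut t) (s := s)
      (by rw [hvu', hs, div_self hR0.ne'])
      (fun i => by
        rw [hx', map_div₀, map_mul, map_pow, hs, hvθ, div_le_one (by positivity)]; exact hxi i)
      (i₁ := i₁) (by rw [hx', map_div₀, map_mul, map_pow, hs, hvθ, hi₁, div_self (by positivity)])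
      hl0' (fun m => v.pos_iff.1 (by
        rw [hB (hh m)]; exact div_pos (v.pos (by exact_mod_cast hh1 m)) (by positivity)))
      (hP0 (hdf n) (hfn n (mem_univ _))) (hE1 o) hC1 (fun m => hE' (hh m) (hE2 o (Sum.inl m)))
      (fun φ => hE' (hGd φ).zero (hE2 o (Sum.inr φ))) φ hφ0
      (fun φ' => by
        by_cases h2 : aeval u' (G φ').det = 0
        · rw [show aeval u' (Matrix.of fun r => L (φ' r)).det = 0 from h2, map_zero, mul_zero]
          exact mul_nonneg (prod_nonneg fun _ _ => v.nonneg _) (v.nonneg _)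
        · exact (div_le_div_iff₀ (v.pos hφ0) (v.pos h2)).1
            (hmin φ' (mem_filter.2 ⟨mem_univ _, h2⟩)))
      (le_trans (by linarith [hs1 φ, hs2 φ]) (hC φ))
      (fun i => le_trans (by
        linarith [single_le_sum (f := fun i => len (hat (G φ) (X (Sum.inr i))))
          (fun _ _ => len_nonneg _) (mem_univ i), hs2 φ,
          len_nonneg (rename Sum.inl (G φ).det : MvPolynomial (σ ⊕ ι) ℤ)]) (hC φ))
      (le_trans (by
        linarith [single_le_sum (f := fun n => len (hat (G φ) (f n)))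
          (fun _ _ => len_nonneg _) (mem_univ n), hs1 φ,
          len_nonneg (rename Sum.inl (G φ).det : MvPolynomial (σ ⊕ ι) ℤ)]) (hC φ))
      (Λ := ⨅ m, lam S hS a u x o (δ m + ∑ j, e m j * d j, ∑ j, e m j)
        (eval (Sum.elim u x) (rename Sum.inl (h m) * ∏ j, lin (g j) ^ e m j)))
      (fun m => (ciInf_le (Set.finite_range _).bddBelow m).trans_eq (hPl (hGm m) (hG0 m)))
    rw [← hn, hPl (hdf n) (hfn n (mem_univ _))]
    have h2 : ∀ r, eval (Sum.elim u x) (lin (L (φ r))) = frm (G φ) u x r := fun r =>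
      aeval_lin (L (φ r)) u x
    have h3 : ∀ r, 0 < v (frm (G φ) u x r) := fun r =>
      v.pos (by rw [← h2]; exact_mod_cast hl0 _ (mem_univ _))
    have h4 : 0 < v (eval u (G φ).det : ℤ) := v.pos (by exact_mod_cast hφ1)
    have h5 : ∑ i, a i ≤ ∑ r, D (φ r) := by
      obtain ⟨μ, hμ⟩ := support_nonempty.2 (show (G φ).det ≠ 0 from fun h => hφ1 (by simp [h]))
      have := hGd φ μ hμ
      omega
    have h6 : Real.log ((∏ r, v (aeval (Sum.elim u' x') (lin (L (φ r))))) /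
        v (aeval u' (Matrix.of fun r => L (φ r)).det)) =
        Real.log ((∏ r, v (frm (G φ) u x r)) / v (eval u (G φ).det : ℤ)) -
          (∑ i, (a i : ℝ)) * Real.log R - Fintype.card ι * Real.log Ξ := by
      rw [hB (hGd φ).zero, prod_congr rfl fun r _ => hP (wh_lin (hL (φ r))), prod_div_distrib,
        prod_mul_distrib, prod_pow_eq_pow_sum]
      simp only [h2, prod_const, card_univ]
      rw [Real.log_div (div_pos (prod_pos fun r _ => h3 r) (by positivity)).ne'
          (div_pos h4 (by positivity)).ne', Real.log_div (prod_pos fun r _ => h3 r).ne'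
          (by positivity), Real.log_div h4.ne' (by positivity),
        Real.log_div (prod_pos fun r _ => h3 r).ne' h4.ne', Real.log_mul (by positivity)
          (by positivity), Real.log_pow, Real.log_pow, Real.log_pow, Real.log_pow, Nat.cast_sub h5]
      push_cast
      ring
    rw [h6, sum_congr rfl fun t _ => by rw [hvu', Real.log_div (hvu o t).ne' hR0.ne'],
      sum_sub_distrib, sum_const, card_univ, nsmul_eq_mul] at h1
    have h7 : ((df n).2 : ℝ) ≤ ∑ n, ((df n).2 : ℝ) :=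
      single_le_sum (f := fun n => ((df n).2 : ℝ)) (fun _ _ => Nat.cast_nonneg _) (mem_univ n)
    have h8 := mul_le_mul_of_nonneg_right h7
      (add_nonneg (Real.log_nonneg hC1) (Real.log_nonneg (hE1 o)))
    rw [hK]
    linarith
  choose φ hφ hle using key
  refine (sum_le_sum fun o _ => hle o).trans ?_
  have h1 := hK₁ u x hu0 hx0 hw φ hφ
  have hA : 0 < ∏ t, ∏ o, place S hS o (u t) := prod_pos fun t _ => prod_pos fun o _ => hvu o t
  have h2 : ∀ o, 0 < (∏ r, place S hS o (frm (G (φ o)) u x r)) /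
      place S hS o (eval u (G (φ o)).det : ℤ) := fun o => div_pos (prod_pos fun r _ =>
        (place S hS o).pos (by
          rw [← show eval (Sum.elim u x) (lin (L (φ o r))) = frm (G (φ o)) u x r from
            aeval_lin (L (φ o r)) u x]
          exact_mod_cast hl0 _ (mem_univ _))) ((place S hS o).pos (by exact_mod_cast hφ o))
  have h3 := Real.log_nonneg h1
  rw [Real.log_mul (by positivity) (prod_pos fun o _ => h2 o).ne',
    Real.log_mul (by positivity) (by positivity), Real.log_exp, Real.log_pow,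
    Real.log_prod (s := univ) (f := fun o => (∏ r, place S hS o (frm (G (φ o)) u x r)) /
      place S hS o (eval u (G (φ o)).det : ℤ)) fun o _ => (h2 o).ne'] at h3
  have h4 : ∀ r : ℝ, ∑ o : Option S, Real.log (o.elim r fun _ => 1) = Real.log r := fun r => by
    rw [Fintype.sum_option]; simp
  have h5 : ∑ o, ∑ t, Real.log (place S hS o (u t)) = Real.log (∏ t, ∏ o, place S hS o (u t)) := by
    rw [Real.log_prod fun t _ => (prod_pos fun o _ => hvu o t).ne', sum_comm]
    exact sum_congr rfl fun t _ => (Real.log_prod fun o _ => (hvu o t).ne').symm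
  simp only [sum_add_distrib, sum_sub_distrib, ← mul_sum, h4, h5, sum_const, card_univ,
    nsmul_eq_mul]
  have h6 := mul_le_mul_of_nonneg_left hE3 hK0.le
  have h7 : K * (ε / 2 / K * Real.log ‖u‖) = ε / 2 * Real.log ‖u‖ := by field_simp
  have h8 := mul_nonneg hε.le (Real.log_nonneg (one_le_norm hx0))
  linarith

end Pool.Agent.Lib.MP_8865d3_nt
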