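import Pool.Agent.Lib.MP_8865d3_nt.GmIface
import Pool.Agent.Lib.MP_8865d3_nt.FaT1

/-! The proximity to the origin is small. -/

namespace Pool.Agent.Lib.MP_8865d3_nt.Gm

open Pool.Agent.Lib.MP_e97e2b_nt Pool.Agent.Lib.MP_651af7_nt.Iv Pool.Agent.Lib.MP_651af7_nt.Vj
  Height NumberField Finset Pool.Agent.Lib.MP_8865d3_nt.Fa

variable {K : Type} [Field K] [NumberField K]

theorem siegelG (a b : ℤ) (hD : 4 * a ^ 3 + 27 * b ^ 2 ≠ 0) (S : Finset (FinitePlace K)) (η : ℝ)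
    (hη : 0 < η) : ∃ C : ℝ, ∀ P : Pt (a : K) (b : K), prox S (xc P) ≤ η * ht P + C := by
  set M : ℝ := ∑ w : InfinitePlace K, (w.mult : ℝ) + S.card with hM
  have hM0 : 0 ≤ M := by positivity
  have hη' : 0 < η / (M + 1) := by positivity
  choose C₁ h₁ using fun w : InfinitePlace K => siegel_pt hD (v := w.1)
    (Or.inl (mem_multisetInfinitePlace.2 w.isInfinitePlace)) hη'
  choose C₂ h₂ using fun w : FinitePlace K => siegel_pt hD (v := w.1) (Or.inr w.2) hη'
  refine ⟨∑ w : InfinitePlace K, w.mult * C₁ w + ∑ w ∈ S, C₂ w, fun P => ?_⟩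
  have h3 := sum_le_sum fun (w : InfinitePlace K) (_ : w ∈ univ) =>
    mul_le_mul_of_nonneg_left (h₁ w P) (Nat.cast_nonneg (α := ℝ) w.mult)
  have h4 := sum_le_sum fun w (_ : w ∈ S) => h₂ w P
  simp only [mul_add, sum_add_distrib, ← sum_mul, sum_const, nsmul_eq_mul] at h3 h4
  have h5 : η * ht P = (M + 1) * (η / (M + 1) * ht P) := by field_simp
  have h6 := mul_nonneg hη'.le (ht_nonneg P)
  rw [h5, hM, prox]
  exact (add_le_add h3 h4).trans (by linarith)

end Pool.Agent.Lib.MP_8865d3_nt.Gm
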