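import Pool.Agent.Lib.MP_8865d3_nt.GmCells
import Pool.Agent.Lib.MP_8865d3_nt.GmSieg
import Pool.Agent.Lib.MP_651af7_nt.VjAsm

/-! Assembly of the inequality on the product of a short curve and a torus from the two phases. -/

namespace Pool.Agent.Lib.MP_8865d3_nt.Gm

open Pool.Agent.Lib.MP_e97e2b_nt Pool.Agent.Lib.MP_651af7_nt.Iv Pool.Agent.Lib.MP_651af7_nt.Vj
  Pool.Agent.Lib.Common.Subspace Height NumberField

variable {K : Type} [Field K] [NumberField K]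

lemma CloseG.mono {A B : K} {θ θ' : ℝ} (h : θ ≤ θ') {j : ℕ} {X Y : Pt A B × Kˣ}
    (hc : CloseG θ j X Y) : CloseG θ' j X Y :=
  ⟨hc.1.trans (mul_le_mul_of_nonneg_right h (HG_nonneg Y)), hc.2⟩

lemma gg_le_left (x x' : K) : gg x x' ≤ logHeight₁ x := by
  have h : logHeight₁ x' ≤ logHeight ![1, x, x'] := by
    rw [logHeight₁_eq_logHeight]
    refine le_of_eq_of_le (congrArg _ (funext fun i => ?_)) (logHeight_comp_le ![2, 0] ![1, x, x'])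
    fin_cases i <;> rfl
  simp only [gg]
  linarith

lemma ht_le_HG {A B : K} (X : Pt A B × Kˣ) : ht X.1 ≤ HG X :=
  le_add_of_nonneg_right (zero_le_logHeight₁ _)

lemma gm_le_HG {A B : K} (X : Pt A B × Kˣ) : gm X ≤ HG X := (gg_le_left _ _).trans (ht_le_HG X)

theorem mainG_of_phases (a b : ℤ) (hD : 4 * a ^ 3 + 27 * b ^ 2 ≠ 0) (η : ℝ) (hη : 0 < η)
    (h₁ : ∃ (m D : ℕ) (θ lam : ℝ), 0 < θ ∧ ∀ ε : ℝ, 0 < ε → ∃ H₀ : ℝ,
      ∀ (X : Fin m → Pt (a : K) (b : K) × Kˣ) (Y : Pt (a : K) (b : K) × Kˣ) (j : Fin m → ℕ),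
        (∀ i, H₀ ≤ HG (X i)) → (∀ i i', i < i' → lam * HG (X i) ≤ HG (X i')) →
        (∀ i, lam * HG (X i) ≤ HG Y) → (∀ i, BadG η (X i)) → BadG η Y →
        (∀ i, CloseG θ (j i) (X i) Y) → (∃ i, SpecG D ε (X i)) ∨ SpecG D ε Y)
    (h₂ : ∀ D : ℕ, ∃ ε θ δ : ℝ, 0 < ε ∧ 0 < θ ∧ 0 < δ ∧ ∀ S : Finset (FinitePlace K), ∃ H₀ : ℝ,
      ∀ X : Pt (a : K) (b : K) × Kˣ, H₀ ≤ HG X → BadG η X → SpecG D ε X →
        cnt S (X.2 : K) ≤ δ * HG X → ∃ H₁ : ℝ, ∀ (Y : Pt (a : K) (b : K) × Kˣ) (j : ℕ),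
          H₁ ≤ HG Y → BadG η Y → SpecG D ε Y → cnt S (Y.2 : K) ≤ δ * HG Y →
          prox S (xc Y.1) ≤ η / 2 * HG Y → ¬CloseG θ j X Y) :
    ∃ c : ℝ, ∀ S : Finset (FinitePlace K), ∃ C : ℝ, ∀ X : Pt (a : K) (b : K) × Kˣ,
      gm X ≤ η * HG X + c * cnt S (X.2 : K) + C := by
  obtain ⟨m, D, θ₁, lam, hθ₁, h₁⟩ := h₁
  obtain ⟨ε, θ₂, δ₂, hε, hθ₂, hδ₂, h₂⟩ := h₂ D
  obtain ⟨H₁, h₁⟩ := h₁ ε hε
  obtain ⟨δ₁, hδ₁, hc⟩ := cellsG (A := (a : K)) (B := b) (by exact_mod_cast hD) (min θ₁ θ₂)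
    (lt_min hθ₁ hθ₂)
  have hδ : 0 < min δ₁ δ₂ := lt_min hδ₁ hδ₂
  refine ⟨(min δ₁ δ₂)⁻¹, fun S => ?_⟩
  obtain ⟨H₂, h₂⟩ := h₂ S
  obtain ⟨n, cell, H₀, hc⟩ := hc S
  obtain ⟨C₀, h₀⟩ := siegelG a b hD S (η / 4) (by positivity)
  let G : Pt (a : K) (b : K) × Kˣ → Prop := fun X => cnt S (X.2 : K) ≤ min δ₁ δ₂ * HG X
  have g₁ : ∀ X, G X → cnt S (X.2 : K) ≤ δ₁ * HG X := fun X h =>
    h.trans (mul_le_mul_of_nonneg_right (min_le_left _ _) (HG_nonneg X))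
  have g₂ : ∀ X, G X → cnt S (X.2 : K) ≤ δ₂ * HG X := fun X h =>
    h.trans (mul_le_mul_of_nonneg_right (min_le_right _ _) (HG_nonneg X))
  have c₁ : ∀ c, ∃ t : ℝ, ∀ Y, cell Y = c → G Y → BadG η Y → ¬SpecG D ε Y → HG Y < t := by
    intro c
    by_contra hcon
    push Not at hcon
    obtain ⟨s, s₁, s₂, s₃⟩ := exists_chain HG HG_nonneg
      {Y | cell Y = c ∧ G Y ∧ BadG η Y ∧ ¬SpecG D ε Y}
      (fun t => by
        obtain ⟨Y, a₁, a₂, a₃, a₄, a₅⟩ := hcon t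
        exact ⟨Y, ⟨a₁, a₂, a₃, a₄⟩, a₅⟩) (max H₀ H₁) (max lam 8)
      (le_max_of_le_right (by norm_num))
    have l₁ : ∀ i i', i < i' → lam * HG (s i) ≤ HG (s i') := fun i i' hi =>
      (mul_le_mul_of_nonneg_right (le_max_left _ _) (HG_nonneg _)).trans (s₃ i i' hi)
    have l₂ : ∀ i : Fin m, ∃ j, CloseG (min θ₁ θ₂) j (s i) (s m) := fun i =>
      hc _ _ ((s₁ i).1.trans (s₁ m).1.symm) (g₁ _ (s₁ i).2.1) (g₁ _ (s₁ m).2.1)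
        ((le_max_left _ _).trans (s₂ i))
        ((mul_le_mul_of_nonneg_right (le_max_right _ _) (HG_nonneg _)).trans (s₃ i m i.2))
    choose j hj using l₂
    rcases h₁ (fun i => s i) (s m) j (fun i => (le_max_right _ _).trans (s₂ i))
      (fun i i' hi => l₁ i i' hi) (fun i => l₁ i m i.2) (fun i => (s₁ i).2.2.1) (s₁ m).2.2.1
      (fun i => (hj i).mono (min_le_left _ _)) with ⟨i, hi⟩ | hi
    · exact (s₁ i).2.2.2 hi
    · exact (s₁ m).2.2.2 hi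
  have c₂ : ∀ c, ∃ t : ℝ, ∀ Y, cell Y = c → G Y → BadG η Y → SpecG D ε Y → HG Y < t := by
    intro c
    by_cases hX : ∃ X, cell X = c ∧ G X ∧ BadG η X ∧ SpecG D ε X ∧ max H₀ H₂ ≤ HG X
    · obtain ⟨X, a₁, a₂, a₃, a₄, a₅⟩ := hX
      obtain ⟨H₃, h₃⟩ := h₂ X ((le_max_right _ _).trans a₅) a₃ a₄ (g₂ X a₂)
      refine ⟨max (max H₃ (8 * HG X)) (4 * C₀ / η), fun Y b₁ b₂ b₃ b₄ => ?_⟩
      by_contra hY
      simp only [not_lt, max_le_iff] at hY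
      obtain ⟨j, hj⟩ := hc X Y (a₁.trans b₁.symm) (g₁ X a₂) (g₁ Y b₂)
        ((le_max_left _ _).trans a₅) hY.1.2
      refine h₃ Y j hY.1.1 b₃ b₄ (g₂ Y b₂) ((h₀ Y.1).trans ?_) (hj.mono (min_le_right _ _))
      have := (div_le_iff₀ hη).1 hY.2
      nlinarith [ht_le_HG Y]
    · push Not at hX
      exact ⟨max H₀ H₂, hX⟩
  choose t₁ ht₁ using c₁
  choose t₂ ht₂ using c₂
  refine ⟨∑ c, (|t₁ c| + |t₂ c|), fun X => ?_⟩
  have p : |t₁ (cell X)| + |t₂ (cell X)| ≤ ∑ c, (|t₁ c| + |t₂ c|) :=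
    Finset.single_le_sum (f := fun c => |t₁ c| + |t₂ c|) (fun c _ => by positivity)
      (Finset.mem_univ _)
  have q₁ := abs_nonneg (t₁ (cell X))
  have q₂ := abs_nonneg (t₂ (cell X))
  have r := gm_le_HG X
  have r' := mul_nonneg hη.le (HG_nonneg X)
  have r'' := mul_nonneg (inv_pos.2 hδ).le (cnt_nonneg S (X.2 : K))
  by_cases hb : BadG η X
  · by_cases hg : G X
    · by_cases hs : SpecG D ε X
      · linarith [le_abs_self (t₂ (cell X)), ht₂ _ X rfl hg hb hs]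
      · linarith [le_abs_self (t₁ (cell X)), ht₁ _ X rfl hg hb hs]
    · have := (le_inv_mul_iff₀ hδ).2 (not_le.1 hg).le
      linarith
  · have : gm X < η * HG X := not_le.mp hb
    linarith

end Pool.Agent.Lib.MP_8865d3_nt.Gm
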