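import Pool.Agent.Lib.MP_8865d3_nt.GmFinExt
import Pool.Agent.Lib.MP_8865d3_nt.GmSieg
import Pool.Agent.Lib.MP_651af7_nt.FinRed

/-! From the centre at the origin to finitely many arbitrary centres on `W × ℙ¹`. -/

namespace Pool.Agent.Lib.MP_8865d3_nt.Gm

open Pool.Agent.Lib.MP_e97e2b_nt Pool.Agent.Lib.MP_651af7_nt.Iv Pool.Agent.Lib.MP_651af7_nt.Vj
open Height NumberField WeierstrassCurve WeierstrassCurve.Affine WeierstrassCurve.Affine.Point
open Pool.Agent.MP_651af7_nt.MW Pool.Agent.MP_651af7_nt.Final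

/-- Homogeneous coordinates of a point of the projective line. -/
def pr1 {F : Type*} [Field F] : Option F → Fin 2 → F
  | .none => ![1, 0]
  | .some u => ![u, 1]

/-- The core statement for short integral curves and the centre at the origin. -/
def CoreG : Prop :=
  ∀ (K : Type) [Field K] [NumberField K] (a b : ℤ), 4 * a ^ 3 + 27 * b ^ 2 ≠ 0 → ∀ η : ℝ, 0 < η →
    ∃ c : ℝ, ∀ S : Finset (FinitePlace K), ∃ C : ℝ, ∀ X : Pt (a : K) (b : K) × Kˣ,
      gm X ≤ η * HG X + c * cnt S (X.2 : K) + C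

variable {K : Type} [Field K]

/-- The linear form vanishing at a point of the projective line. -/
def el1 (t : Option K) (u : K) : K := u * pr1 t 1 - pr1 t 0

/-- Proximity to the three points `∞, 0, 1`. -/
noncomputable def l3 (u : K) (v : AbsoluteValue K ℝ) : ℝ := lp u v + lp u⁻¹ v + lp (u - 1)⁻¹ v

lemma l3_nonneg (u : K) (v : AbsoluteValue K ℝ) : 0 ≤ l3 u v :=
  add_nonneg (add_nonneg (lp_nonneg _ _) (lp_nonneg _ _)) (lp_nonneg _ _)

lemma lp_sub_la {z : K} (hz : z ≠ 0) (v : AbsoluteValue K ℝ) : lp z v - la z v = lp z⁻¹ v := by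
  have h0 := v.pos hz
  simp only [MP_651af7_nt.Final.lp, la, map_inv₀]
  rcases le_total (v z) 1 with h | h
  · rw [max_eq_right h, max_eq_left ((one_le_inv₀ h0).2 h)]
    simp
  · rw [max_eq_left h, max_eq_right (inv_le_one_of_one_le₀ h)]
    simp

variable [NumberField K]

lemma FS_l3 (u : K) : FS (l3 u) := ((FS_lp _).add (FS_lp _)).add (FS_lp _)

lemma exists_line_bound (t : Option K) : ∃ u₀ : K, u₀ ≠ 0 ∧ ∃ c : AbsoluteValue K ℝ → ℝ, FS c ∧
    (∀ v, 0 ≤ c v) ∧ ∀ v u, el1 t u ≠ 0 → ln ![u, 1] v - la (el1 t u) v ≤ c v + l3 (u / u₀) v := by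
  simp only [← lp_eq_ln]
  rcases t with _ | t
  · refine ⟨1, one_ne_zero, fun _ => 0, FS.zero, fun _ => le_rfl, fun v u _ => ?_⟩
    simp only [el1, pr1, la, l3, div_one]
    simpa using (le_add_of_nonneg_right (lp_nonneg u⁻¹ v)).trans
      (le_add_of_nonneg_right (lp_nonneg (u - 1)⁻¹ v))
  have e : ∀ u, el1 (.some t) u = u - t := fun u => by simp [el1, pr1]
  simp only [e]
  rcases eq_or_ne t 0 with rfl | ht
  · refine ⟨1, one_ne_zero, fun _ => 0, FS.zero, fun _ => le_rfl, fun v u hu => ?_⟩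
    rw [sub_zero] at hu
    rw [sub_zero, lp_sub_la hu, div_one, l3]
    linarith [lp_nonneg u v, lp_nonneg (u - 1)⁻¹ v]
  · obtain ⟨c₁, f₁, n₁, h₁⟩ := exists_lp_affine 1 t
    obtain ⟨c₂, f₂, n₂, h₂⟩ := exists_lp_affine t⁻¹ 0
    refine ⟨t, ht, fun v => c₁ v + c₂ v, f₁.add f₂, fun v => add_nonneg (n₁ v) (n₂ v),
      fun v u hu => ?_⟩
    have a₁ := h₁ v (u - t)
    have a₂ := h₂ v (u / t - 1)⁻¹
    rw [one_mul, sub_add_cancel] at a₁
    rw [show t⁻¹ * (u / t - 1)⁻¹ + 0 = (u - t)⁻¹ by field_simp; ring] at a₂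
    rw [l3]
    linarith [lp_sub_la hu v, lp_nonneg (u / t) v, lp_nonneg (u / t)⁻¹ v]

/-- The inequality for the centres `(O, ∞)`, `(O, 0)`, `(O, 1)`. -/
def GcdG (W : WeierstrassCurve K) : Prop :=
  ∀ η : ℝ, 0 < η → ∃ c : ℝ, 0 ≤ c ∧ ∀ S : Finset (FinitePlace K), ∃ C : ℝ,
    ∀ (R : W.toAffine.Point) (u : K), u ≠ 0 → Gl (fun v => min (lp (xo R) v) (l3 u v)) ≤
      η * (hx R + logHeight₁ u) + c * cnt S u + C

theorem gcdG_of_core (H : CoreG) (W : WeierstrassCurve ℚ) [W.IsElliptic] :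
    GcdG (W.map (algebraMap ℚ K)) := by
  intro η hη
  obtain ⟨a, b, s, t, hs, hD, h⟩ := exists_short_map (K := K) W
  obtain ⟨c, hc⟩ := H K a b hD (η / 2) (half_pos hη)
  refine ⟨max c 0 + 1, by positivity, fun S => ?_⟩
  obtain ⟨C, hC⟩ := hc S
  obtain ⟨C', hC'⟩ := siegelG a b hD S (η / 2) (half_pos hη)
  obtain ⟨c₁, f₁, n₁, h₁⟩ := exists_lp_affine s t
  obtain ⟨c₃, f₃, n₃, h₃⟩ := exists_lp_affine s⁻¹ (-(s⁻¹ * t))
  refine ⟨max (Gl c₃ + η * Gl c₁ + C + C') 0, fun R u hu => ?_⟩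
  have q₁ := cnt_nonneg S u
  have q₂ := zero_le_logHeight₁ u
  rcases R with _ | ⟨x, y, hR⟩
  · have e : (fun v => min (lp (xo (zero : (W.map (algebraMap ℚ K)).toAffine.Point)) v) (l3 u v)) =
        fun _ => 0 := funext fun v => by rw [xo, lp_zero, min_eq_left (l3_nonneg u v)]
    rw [e, Gl_zero]
    have := hx_nonneg (zero : (W.map (algebraMap ℚ K)).toAffine.Point)
    positivity
  obtain ⟨w, hw⟩ := h x y hR.1
  have n : NS (a : K) b (s * x + t) w := ns_of_eq two_ne_zero (by exact_mod_cast hD) hw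
  have a₀ : gg (s * x + t) (u - 1)⁻¹ ≤ η / 2 * (logHeight₁ (s * x + t) + logHeight₁ u) +
    c * cnt S u + C := hC (pt _ _ n, Units.mk0 u hu)
  have a₀' : prox S (s * x + t) ≤ η / 2 * logHeight₁ (s * x + t) + C' := hC' (pt _ _ n)
  have e : logHeight (![s * x + t, (u - 1)⁻¹, 1] : Fin 3 → K) =
      logHeight ![1, s * x + t, (u - 1)⁻¹] := by
    rw [← logHeight_comp_equiv (finRotate 3) ![1, s * x + t, (u - 1)⁻¹]]
    congr 1
    funext i
    fin_cases i <;> rfl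
  rw [gg, ← e, ← Gl_min_lp] at a₀
  have a₁ := Gl_mono (FS_lp _) (f₁.add (FS_lp x)) fun v => h₁ v x
  rw [Gl_add f₁ (FS_lp _), Gl_lp, Gl_lp] at a₁
  have g₁ := (FS_lp (s * x + t)).min ((FS_lp u).add (FS_lp u⁻¹))
  have g₂ := (FS_lp (s * x + t)).min (FS_lp (u - 1)⁻¹)
  have a₃ := Gl_mono ((FS_lp x).min (FS_l3 u)) ((f₃.add g₁).add g₂) fun v => by
    have b₁ := h₃ v (s * x + t)
    rw [show s⁻¹ * (s * x + t) + -(s⁻¹ * t) = x by field_simp; ring] at b₁
    have b₂ := min_le_left (lp x v) (l3 u v)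
    have b₃ := min_le_right (lp x v) (l3 u v)
    have b₄ := n₃ v
    have b₅ := lp_nonneg (s * x + t) v
    have b₆ := add_nonneg (lp_nonneg u v) (lp_nonneg u⁻¹ v)
    have b₇ := lp_nonneg (u - 1)⁻¹ v
    rw [l3] at b₂ b₃
    rcases min_choice (lp (s * x + t) v) (lp u v + lp u⁻¹ v) with q | q <;>
      rcases min_choice (lp (s * x + t) v) (lp (u - 1)⁻¹ v) with q' | q' <;> rw [q, q', l3] <;>
      linarith
  rw [Gl_add (f₃.add g₁) g₂, Gl_add f₃ g₁] at a₃
  have a₄ := Gl_min_le S (s * x + t) hu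
  have a₅ := mul_le_mul_of_nonneg_right (le_max_left c 0) q₁
  have a₆ := mul_le_mul_of_nonneg_left a₁ hη.le
  have a₇ := le_max_left (Gl c₃ + η * Gl c₁ + C + C') 0
  have a₈ := mul_nonneg hη.le q₂
  rw [hx_some]
  change Gl (fun v => min (lp x v) (l3 u v)) ≤ _
  linarith

variable [DecidableEq K] {W : WeierstrassCurve K} [W.IsElliptic]

theorem GcdG.key (H : GcdG W) {α β : Type*} [Fintype α] [Fintype β]
    (T : α → W.toAffine.Point) (t : β → Option K) {η : ℝ} (hη : 0 < η) :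
    ∃ c : ℝ, 0 ≤ c ∧ ∀ S : Finset (FinitePlace K), ∃ C : ℝ, ∀ x y u : K, W.toAffine.Equation x y →
      u ≠ 0 → (∀ a, ell (T a) x ≠ 0) → (∀ b, el1 (t b) u ≠ 0) →
      Gl (fun v => min (∑ a, (ln ![x, y, 1] v - la (ell (T a) x) v))
        (∑ b, (ln ![u, 1] v - la (el1 (t b) u) v))) ≤
        η * (logHeight₁ x + logHeight₁ u) + c * cnt S u + C := by
  obtain ⟨c, f, n, hc⟩ := exists_sum_bound T
  choose u₀ hu₀ c' f' n' hc' using fun b => exists_line_bound (t b)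
  have f'' : FS fun v => ∑ b, c' b v := FS.sum _ fun b _ => f' b
  set N : ℝ := Fintype.card (α × Fin 3) + Fintype.card β with hN
  set M : ℝ := ((Fintype.card ((α × Fin 3) × β) : ℕ) : ℝ) with hM
  have N0 : 0 ≤ N := by positivity
  have M0 : 0 ≤ M := by positivity
  have η0 : 0 < η / (N * M + 1) / 2 := by positivity
  obtain ⟨κ, hκ, H⟩ := H _ η0
  choose C₁ h₁ using fun p : α × Fin 3 => exists_hx_add_le (![0, T p.1, -T p.1] p.2)
  refine ⟨N * M * κ, by positivity, fun S => ?_⟩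
  obtain ⟨C, hC⟩ := H S
  refine ⟨Gl c + Gl (fun v => ∑ b, c' b v) + N * ∑ p : (α × Fin 3) × β,
    (η / (N * M + 1) / 2 * (C₁ p.1 + logHeight₁ (u₀ p.2)) + κ * cnt S (u₀ p.2) + C),
    fun x y u he hu n₂ n₃ => ?_⟩
  have h : W.toAffine.Nonsingular x y := equation_iff_nonsingular.mp he
  let g : (α × Fin 3) × β → AbsoluteValue K ℝ → ℝ := fun p v =>
    min (lp (xo (some x y h + ![0, T p.1.1, -T p.1.1] p.1.2)) v) (l3 (u / u₀ p.2) v)
  have fg : ∀ p, FS (g p) := fun p => (FS_lp _).min (FS_l3 _)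
  have fs : FS fun v => ∑ p, g p v := FS.sum _ fun p _ => fg p
  have m₁ := Gl_mono (f := fun v => min (∑ a, (ln ![x, y, 1] v - la (ell (T a) x) v))
        (∑ b, (ln ![u, 1] v - la (el1 (t b) u) v)))
      (g := fun v => c v + ∑ b, c' b v + N * ∑ p, g p v)
    ((FS.sum _ fun a _ => (FS_ln (by simp)).sub (FS_la (n₂ a))).min
      (FS.sum _ fun b _ => (FS_ln (by simp)).sub (FS_la (n₃ b))))
    ((f.add f'').add (fs.const_mul N)) fun v => by
      have a₁ := hc v x y h n₂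
      have a₂ := Finset.sum_le_sum fun b (_ : b ∈ Finset.univ) => hc' b v u (n₃ b)
      rw [Finset.sum_add_distrib] at a₂
      have a₃ := min_sum_le
        (fun p : α × Fin 3 => lp (xo (some x y h + ![0, T p.1, -T p.1] p.2)) v)
        (fun b : β => l3 (u / u₀ b) v) (fun _ => lp_nonneg _ _) fun _ => l3_nonneg _ _
      refine le_trans ?_ (add_le_add_right a₃ _)
      have a₄ : 0 ≤ ∑ b, c' b v := Finset.sum_nonneg fun b _ => n' b v
      rcases le_total (∑ p : α × Fin 3, lp (xo (some x y h + ![0, T p.1, -T p.1] p.2)) v)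
        (∑ b : β, l3 (u / u₀ b) v) with q | q
      · rw [min_eq_left q]
        exact (min_le_left _ _).trans (by linarith)
      · rw [min_eq_right q]
        exact (min_le_right _ _).trans (by linarith [n v])
  rw [Gl_add (f.add f'') (fs.const_mul N), Gl_add f f'', Gl_const_mul,
    Gl_sum _ fun p _ => fg p] at m₁
  have m₂ : ∑ p, Gl (g p) ≤ ∑ p : (α × Fin 3) × β,
      ((η / (N * M + 1) * (logHeight₁ x + logHeight₁ u) + κ * cnt S u) +
      (η / (N * M + 1) / 2 * (C₁ p.1 + logHeight₁ (u₀ p.2)) + κ * cnt S (u₀ p.2) + C)) :=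
    Finset.sum_le_sum fun p _ => by
      have a₁ := hC (some x y h + ![0, T p.1.1, -T p.1.1] p.1.2) _ (div_ne_zero hu (hu₀ p.2))
      have a₂ := h₁ p.1 (some x y h)
      have a₃ := logHeight₁_mul_le u (u₀ p.2)⁻¹
      have a₄ := cnt_div_pow_le S (hu₀ p.2) hu 1
      rw [hx_some] at a₂
      rw [logHeight₁_inv, ← div_eq_mul_inv] at a₃
      rw [pow_one, Nat.cast_one, one_mul] at a₄
      have a₅ := mul_le_mul_of_nonneg_left (add_le_add a₂ a₃) η0.le
      have a₆ := mul_le_mul_of_nonneg_left a₄ hκ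
      have a₇ := mul_nonneg η0.le (zero_le_logHeight₁ u)
      linarith
  rw [Finset.sum_add_distrib, Finset.sum_const, Finset.card_univ, nsmul_eq_mul, ← hM] at m₂
  have H0 : 0 ≤ logHeight₁ x + logHeight₁ u :=
    add_nonneg (zero_le_logHeight₁ _) (zero_le_logHeight₁ _)
  have m₃ : N * M * (η / (N * M + 1)) ≤ η := by
    rw [← mul_div_assoc, div_le_iff₀ (by positivity)]
    nlinarith
  have m₄ := mul_le_mul_of_nonneg_right m₃ H0
  have m₅ := mul_le_mul_of_nonneg_left m₂ N0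
  linarith

end Pool.Agent.Lib.MP_8865d3_nt.Gm
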