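import Pool.Agent.Lib.MP_8865d3_nt.GmFinKey
import Pool.Agent.Lib.MP_8865d3_nt.GmFinNull
import Pool.Agent.Lib.MP_651af7_nt.FinMain

/-! The height of an arbitrary finite subscheme of the product of an elliptic curve and a line. -/

namespace Pool.Agent.Lib.MP_8865d3_nt.Gm

open Height NumberField MvPolynomial WeierstrassCurve WeierstrassCurve.Affine
  WeierstrassCurve.Affine.Point Pool.Agent.MP_651af7_nt.Final

/-- The product of the linear forms attached to the points `t b` of the line. -/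
noncomputable def lf1 {K β : Type*} [Field K] [Fintype β] (t : β → Option K) :
    MvPolynomial (Fin 3 ⊕ Fin 2) K :=
  ∏ b, (C (pr1 (t b) 1) * X (.inr 0) - C (pr1 (t b) 0) * X (.inr 1))

lemma lin_homog {K σ β M : Type*} [Field K] [Fintype β] [AddCommMonoid M] {w : σ → M} {u : M}
    (a b : β → K) {i j : σ} (hi : w i = u) (hj : w j = u) :
    (∏ l, (C (a l) * X i - C (b l) * X j : MvPolynomial σ K)).IsWeightedHomogeneous w
      (Fintype.card β • u) := by
  have := IsWeightedHomogeneous.prod Finset.univ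
    (fun l => (C (a l) * X i - C (b l) * X j : MvPolynomial σ K)) (fun _ => u) (w := w) fun _ _ =>
      ((hi ▸ isWeightedHomogeneous_X K w i).C_mul _).sub
        ((hj ▸ isWeightedHomogeneous_X K w j).C_mul _)
  rwa [Finset.sum_const, Finset.card_univ] at this

lemma lf1_homog {K β : Type*} [Field K] [Fintype β] (t : β → Option K) :
    (lf1 t).IsWeightedHomogeneous bw2 (Fintype.card β • ((0, 1) : ℕ × ℕ)) :=
  lin_homog _ _ rfl rfl

lemma exists_pr1 {Ω : Type*} [Field Ω] {z : Fin 2 → Ω} (h0 : z ≠ 0) :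
    ∃ (s : Ω) (R : Option Ω), s ≠ 0 ∧ z = s • pr1 R := by
  by_cases h : z 1 = 0
  · refine ⟨z 0, none, fun h1 => h0 ?_, ?_⟩
    · ext i
      fin_cases i <;> simp [h, h1]
    · ext i
      fin_cases i <;> simp [h, pr1]
  · refine ⟨z 1, .some (z 0 / z 1), h, ?_⟩
    ext i
    fin_cases i <;> simp [pr1]
    field_simp

variable {K : Type} [Field K] [NumberField K] [DecidableEq K] {W : WeierstrassCurve K}
  [W.IsElliptic]

theorem GcdG.subscheme (H : GcdG W) (Ω : Type*) [Field Ω] [IsAlgClosed Ω] [Algebra K Ω]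
    {ι α β : Type*} [Fintype ι] [Fintype α] [Fintype β] [Nonempty α] [Nonempty β]
    {G : ι → MvPolynomial (Fin 3 ⊕ Fin 2) K} {d d' : ℕ}
    (hG : ∀ j, (G j).IsWeightedHomogeneous bw2 (d, d'))
    (T : α → W.toAffine.Point) (t : β → Option K)
    (hcov : ∀ z : Fin 3 ⊕ Fin 2 → Ω, (fun i => z (.inl i)) ≠ 0 → (fun i => z (.inr i)) ≠ 0 →
      aeval z (wp W .inl) = 0 → (∀ j, aeval z (G j) = 0) →
      aeval z (lf T .inl) = 0 ∧ aeval z (lf1 t) = 0) {η : ℝ} (hη : 0 < η) :
    ∃ c : ℝ, 0 ≤ c ∧ ∀ S : Finset (FinitePlace K), ∃ C : ℝ, ∀ x y u : K, W.toAffine.Equation x y →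
      u ≠ 0 → (∀ a, ell (T a) x ≠ 0) → (∀ b, el1 (t b) u ≠ 0) →
      (fun j => eval (Sum.elim ![x, y, 1] ![u, 1]) (G j)) ≠ 0 ∧
      d * logHeight ![x, y, 1] + d' * logHeight ![u, 1] -
        logHeight (fun j => eval (Sum.elim ![x, y, 1] ![u, 1]) (G j)) ≤
        η * (logHeight₁ x + logHeight₁ u) + c * cnt S u + C := by
  have z₁ : ∀ z : Fin 3 ⊕ Fin 2 → Ω, (fun i => z (.inl i)) = 0 → aeval z (lf T .inl) = 0 := by
    intro z h
    rw [lf, map_prod]
    refine Finset.prod_eq_zero (Finset.mem_univ (Classical.arbitrary α)) ?_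
    have h0 : z (.inl 0) = 0 := congrFun h 0
    have h2 : z (.inl 2) = 0 := congrFun h 2
    simp [h0, h2]
  have z₂ : ∀ z : Fin 3 ⊕ Fin 2 → Ω, (fun i => z (.inr i)) = 0 → aeval z (lf1 t) = 0 := by
    intro z h
    rw [lf1, map_prod]
    refine Finset.prod_eq_zero (Finset.mem_univ (Classical.arbitrary β)) ?_
    have h0 : z (.inr 0) = 0 := congrFun h 0
    have h2 : z (.inr 1) = 0 := congrFun h 1
    simp [h0, h2]
  choose N₁ h₁ using fun k : Fin 2 => local_null2 Ω W hG (p := lf T .inl * X (.inr k))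
    (e := Fintype.card α) (e' := 1) Fintype.card_pos le_rfl
    (by simpa [bw2] using (lf_homog (w := bw2) (u := (1, 0)) (e := .inl) T fun _ => rfl).mul
          (isWeightedHomogeneous_X K bw2 (.inr k)))
    fun z w₁ hz => by
      rw [map_mul, aeval_X]
      by_cases q₁ : (fun i => z (.inl i)) = 0
      · rw [z₁ z q₁, zero_mul]
      by_cases q₂ : (fun i => z (.inr i)) = 0
      · exact mul_eq_zero_of_right _ (congrFun q₂ k)
      · rw [(hcov z q₁ q₂ w₁ hz).1, zero_mul]
  choose N₂ h₂ using fun k : Fin 3 => local_null2 Ω W hG (p := lf1 t * X (.inl k))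
    (e := 1) (e' := Fintype.card β) le_rfl Fintype.card_pos
    (by simpa [bw2] using (lf1_homog t).mul (isWeightedHomogeneous_X K bw2 (.inl k)))
    fun z w₁ hz => by
      rw [map_mul, aeval_X]
      by_cases q₂ : (fun i => z (.inr i)) = 0
      · rw [z₂ z q₂, zero_mul]
      by_cases q₁ : (fun i => z (.inl i)) = 0
      · exact mul_eq_zero_of_right _ (congrFun q₁ k)
      · rw [(hcov z q₁ q₂ w₁ hz).2, zero_mul]
  set N := ∑ k, N₁ k + ∑ k, N₂ k with hN
  choose c₁ f₁ n₁ h₁ using fun k => h₁ k N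
    ((Finset.single_le_sum (f := N₁) (fun _ _ => Nat.zero_le _) (Finset.mem_univ k)).trans
      (Nat.le_add_right _ _))
  choose c₂ f₂ n₂ h₂ using fun k => h₂ k N
    ((Finset.single_le_sum (f := N₂) (fun _ _ => Nat.zero_le _) (Finset.mem_univ k)).trans
      (Nat.le_add_left _ _))
  have N0 : (0 : ℝ) ≤ N := Nat.cast_nonneg N
  obtain ⟨κ, hκ, hC⟩ := H.key T t (η := η / (N + 1)) (by positivity)
  refine ⟨N * κ, by positivity, fun S => ?_⟩
  obtain ⟨C, hC⟩ := hC S
  have fc : FS fun v => ∑ k, c₁ k v + ∑ k, c₂ k v :=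
    (FS.sum _ fun k _ => f₁ k).add (FS.sum _ fun k _ => f₂ k)
  refine ⟨Gl (fun v => ∑ k, c₁ k v + ∑ k, c₂ k v) + N * C, fun x y u he hu l₁ l₂ => ?_⟩
  have hk := hC x y u he hu l₁ l₂
  have P0 : (![x, y, 1] : Fin 3 → K) ≠ 0 := by simp
  have Q0 : (![u, 1] : Fin 2 → K) ≠ 0 := by simp
  have w₁ : eval (Sum.elim ![x, y, 1] ![u, 1]) (wp W .inl) = 0 := eval_wp he rfl rfl rfl
  have e₁ : eval (Sum.elim ![x, y, 1] ![u, 1]) (lf T .inl) = ∏ a, ell (T a) x := by
    rw [lf, map_prod]
    exact Finset.prod_congr rfl fun a _ => by simp [ell, mul_comm]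
  have e₂ : eval (Sum.elim ![x, y, 1] ![u, 1]) (lf1 t) = ∏ b, el1 (t b) u := by
    rw [lf1, map_prod]
    exact Finset.prod_congr rfl fun a _ => by simp [el1, mul_comm]
  have p₁ : (∏ a, ell (T a) x) ≠ 0 := Finset.prod_ne_zero_iff.mpr fun a _ => l₁ a
  have p₂ : (∏ b, el1 (t b) u) ≠ 0 := Finset.prod_ne_zero_iff.mpr fun b _ => l₂ b
  have G0 := (h₁ 1 _ _ P0 Q0 w₁ (by rw [map_mul, e₁]; simpa using p₁)).1
  refine ⟨G0, ?_⟩
  have fm : FS fun v => min (∑ a, (ln ![x, y, 1] v - la (ell (T a) x) v))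
      (∑ b, (ln ![u, 1] v - la (el1 (t b) u) v)) :=
    (FS.sum _ fun a _ => (FS_ln P0).sub (FS_la (l₁ a))).min
      (FS.sum _ fun b _ => (FS_ln Q0).sub (FS_la (l₂ b)))
  have m := Gl_mono ((((FS_ln P0).const_mul d).add ((FS_ln Q0).const_mul d')).sub (FS_ln G0))
    (fc.add (fm.const_mul N)) fun v => by
      have s₁ : 0 ≤ ∑ k, c₁ k v := Finset.sum_nonneg fun k _ => n₁ k v
      have s₂ : 0 ≤ ∑ k, c₂ k v := Finset.sum_nonneg fun k _ => n₂ k v
      rcases le_total (∑ a, (ln ![x, y, 1] v - la (ell (T a) x) v))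
        (∑ b, (ln ![u, 1] v - la (el1 (t b) u) v)) with q | q
      · rw [min_eq_left q]
        obtain ⟨k, hk⟩ := exists_nm_eq ![u, 1] v
        have k0 : v (![u, 1] k) ≠ 0 := hk ▸ (nm_pos Q0 v).ne'
        have k1 : ![u, 1] k ≠ 0 := fun h => k0 (by rw [h, _root_.map_zero])
        have b := (h₁ k _ _ P0 Q0 w₁ (by
          rw [map_mul, e₁, eval_X]
          exact mul_ne_zero p₁ k1)).2 v
        rw [map_mul, e₁, eval_X, Sum.elim_inr, la, map_mul, Real.log_mul (v.pos p₁).ne' k0, hk,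
          map_prod, Real.log_prod fun a _ => (v.pos (l₁ a)).ne'] at b
        have b' : c₁ k v ≤ ∑ k, c₁ k v :=
          Finset.single_le_sum (f := fun k => c₁ k v) (fun k _ => n₁ k v) (Finset.mem_univ k)
        rw [Finset.sum_sub_distrib, Finset.sum_const, Finset.card_univ, nsmul_eq_mul]
        simp only [ln, la] at b ⊢
        push_cast at b
        linarith
      · rw [min_eq_right q]
        obtain ⟨k, hk⟩ := exists_nm_eq ![x, y, 1] v
        have k0 : v (![x, y, 1] k) ≠ 0 := hk ▸ (nm_pos P0 v).ne'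
        have k1 : ![x, y, 1] k ≠ 0 := fun h => k0 (by rw [h, _root_.map_zero])
        have b := (h₂ k _ _ P0 Q0 w₁ (by
          rw [map_mul, e₂, eval_X]
          exact mul_ne_zero p₂ k1)).2 v
        rw [map_mul, e₂, eval_X, Sum.elim_inl, la, map_mul, Real.log_mul (v.pos p₂).ne' k0, hk,
          map_prod, Real.log_prod fun a _ => (v.pos (l₂ a)).ne'] at b
        have b' : c₂ k v ≤ ∑ k, c₂ k v :=
          Finset.single_le_sum (f := fun k => c₂ k v) (fun k _ => n₂ k v) (Finset.mem_univ k)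
        rw [Finset.sum_sub_distrib, Finset.sum_const, Finset.card_univ, nsmul_eq_mul]
        simp only [ln, la] at b ⊢
        push_cast at b
        linarith
  rw [Gl_sub (((FS_ln P0).const_mul d).add ((FS_ln Q0).const_mul d')) (FS_ln G0),
    Gl_add ((FS_ln P0).const_mul d) ((FS_ln Q0).const_mul d'), Gl_const_mul, Gl_const_mul,
    Gl_ln P0, Gl_ln Q0, Gl_ln G0, Gl_add fc (fm.const_mul N), Gl_const_mul] at m
  have H0 : 0 ≤ logHeight₁ x + logHeight₁ u :=
    add_nonneg (zero_le_logHeight₁ _) (zero_le_logHeight₁ _)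
  have m₃ : N * (η / (N + 1)) ≤ η := by
    rw [← mul_div_assoc, div_le_iff₀ (by positivity)]
    nlinarith
  have m₄ := mul_le_mul_of_nonneg_right m₃ H0
  have m₅ := mul_le_mul_of_nonneg_left hk N0
  linarith

lemma finite_lin {F : Type*} [Field F] {a b : F} (h : (![a, b] : Fin 2 → F) ≠ 0) :
    {x : F | x * b - a = 0}.Finite := by
  refine Set.Subsingleton.finite fun x hx y hy => ?_
  simp only [Set.mem_ofPred_eq] at hx hy
  by_contra hne
  have hb : b = 0 := (mul_eq_zero.1 (show (x - y) * b = 0 by linear_combination hx - hy)).resolve_left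
    (sub_ne_zero.2 hne)
  have ha : a = 0 := by linear_combination x * hb - hx
  exact h (by simp [ha, hb])

theorem finite_subscheme2 {k : Type} [Field k] [NumberField k] (W : WeierstrassCurve k)
    [W.IsElliptic]
    (H : ∀ (K : Type) [Field K] [NumberField K] [Algebra k K], GcdG (W.map (algebraMap k K)))
    {ι : Type*} [Fintype ι] {G : ι → MvPolynomial (Fin 3 ⊕ Fin 2) k} {d d' : ℕ}
    (hG : ∀ j, (G j).IsWeightedHomogeneous bw2 (d, d'))
    (hfin : {R : (W.map (algebraMap k (AlgebraicClosure k))).toAffine.Point ×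
        Option (AlgebraicClosure k) | ∀ j, aeval (Sum.elim (pr R.1) (pr1 R.2)) (G j) = 0}.Finite) :
    ∃ Z : Set k, Z.Finite ∧ ∀ ε : ℝ, 0 < ε → ∃ c : ℝ, 0 ≤ c ∧ ∀ S : Finset (FinitePlace k),
      ∃ C : ℝ, ∀ x y u : k, W.toAffine.Equation x y → u ≠ 0 → x ∉ Z → u ∉ Z →
      (fun j => eval (Sum.elim ![x, y, 1] ![u, 1]) (G j)) ≠ 0 ∧
      d * logHeight ![x, y, 1] + d' * logHeight ![u, 1] -
        logHeight (fun j => eval (Sum.elim ![x, y, 1] ![u, 1]) (G j)) ≤
        ε * (logHeight₁ x + logHeight₁ u) + c * cnt S u + C := by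
  classical
  set Ω := AlgebraicClosure k
  set Y := hfin.toFinset with hY
  let Z : Set Ω := Set.range fun p : Y × (Fin 3 ⊕ Fin 2) =>
    Sum.elim (pr p.1.1.1) (pr1 p.1.1.2) p.2
  have : Finite Z := Set.finite_range _
  let L := IntermediateField.adjoin k Z
  have : FiniteDimensional k L :=
    IntermediateField.finiteDimensional_adjoin fun x _ => Algebra.IsIntegral.isIntegral x
  have : NumberField L := NumberField.of_module_finite k L
  choose T hT using fun R : Y => exists_lift W L R.1.1 fun i =>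
    IntermediateField.subset_adjoin k Z ⟨(R, .inl i), rfl⟩
  have ht : ∀ R : Y, ∃ t : Option L,
      algebraMap L Ω (pr1 t 1) * pr1 R.1.2 0 - algebraMap L Ω (pr1 t 0) * pr1 R.1.2 1 = 0 := by
    rintro ⟨⟨R, _ | u⟩, hR⟩
    · exact ⟨none, by simp [pr1]⟩
    · exact ⟨.some ⟨u, IntermediateField.subset_adjoin k Z ⟨(⟨_, hR⟩, .inr 0), rfl⟩⟩, by simp [pr1]⟩
  choose t ht using ht
  have wm : wp (W.map (algebraMap k L)) (.inl : Fin 3 → Fin 3 ⊕ Fin 2) =
      MvPolynomial.map (algebraMap k L) (wp W .inl) := by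
    simp [wp]
  let T' : Option Y → (W.map (algebraMap k L)).toAffine.Point := fun o => o.elim 0 T
  let t' : Option Y → Option L := fun o => o.elim none t
  refine ⟨algebraMap k L ⁻¹' ((⋃ a, {x | ell (T' a) x = 0}) ∪ ⋃ b, {u | el1 (t' b) u = 0}),
    Set.Finite.preimage (algebraMap k L).injective.injOn
      ((Set.finite_iUnion fun a => finite_lin (xRep_eta (T' a))).union
        (Set.finite_iUnion fun b => finite_lin ?_)), fun η hη => ?_⟩
  · rcases t' b with _ | u <;> simp [pr1]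
  obtain ⟨c, hc, hC⟩ := (H L).subscheme Ω
    (G := fun j => MvPolynomial.map (algebraMap k L) (G j)) (d := d) (d' := d')
    (fun j m hm => hG j fun h0 => hm (by rw [coeff_map, h0, _root_.map_zero]))
    T' t' (η := η) (fun z q₁ q₂ w₁ hz => by
      rw [wm, aeval_map_algebraMap] at w₁
      obtain ⟨s, R, hs, e⟩ := exists_pr W w₁ q₁
      obtain ⟨s', R', hs', e'⟩ := exists_pr1 q₂
      have ez : z = Sum.elim (s • pr R) (s' • pr1 R') := by
        rw [← e, ← e']
        funext i
        cases i <;> rfl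
      have hm : (R, R') ∈ Y := hfin.mem_toFinset.mpr fun j => by
        have := hz j
        rw [aeval_map_algebraMap, ez, aeval_smul_bw2 (hG j)] at this
        exact (mul_eq_zero.mp this).resolve_left
          (mul_ne_zero (pow_ne_zero _ hs) (pow_ne_zero _ hs'))
      constructor
      · rw [lf, map_prod]
        refine Finset.prod_eq_zero (Finset.mem_univ (Option.some ⟨_, hm⟩)) ?_
        have := hT ⟨_, hm⟩
        simp only [T', ez, map_sub, map_mul, aeval_C, aeval_X, Option.elim_some, Sum.elim_inl,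
          Pi.smul_apply, smul_eq_mul]
        linear_combination s * this
      · rw [lf1, map_prod]
        refine Finset.prod_eq_zero (Finset.mem_univ (Option.some ⟨_, hm⟩)) ?_
        have := ht ⟨_, hm⟩
        simp only [t', ez, map_sub, map_mul, aeval_C, aeval_X, Option.elim_some, Sum.elim_inr,
          Pi.smul_apply, smul_eq_mul]
        linear_combination s' * this) hη
  refine ⟨c, hc, fun S => ?_⟩
  obtain ⟨S', hS⟩ := cnt_ext L S
  obtain ⟨C, hC⟩ := hC S'
  have n0 : (0 : ℝ) < Module.finrank k L := by exact_mod_cast Module.finrank_pos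
  refine ⟨C / Module.finrank k L, fun x y u he hu hx hu' => ?_⟩
  obtain ⟨g0, hi⟩ := hC _ _ _ (he.map (algebraMap k L)) ((map_ne_zero _).2 hu)
    (fun a h => hx (Or.inl (Set.mem_iUnion.2 ⟨a, h⟩)))
    fun a h => hu' (Or.inr (Set.mem_iUnion.2 ⟨a, h⟩))
  have v₁ : (![algebraMap k L x, algebraMap k L y, 1] : Fin 3 → L) =
      fun i => algebraMap k L (![x, y, 1] i) := by
    funext i
    fin_cases i <;> simp
  have v₁' : ∀ a : k, (![algebraMap k L a, 1] : Fin 2 → L) = fun i => algebraMap k L (![a, 1] i) :=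
    fun a => by
      funext i
      fin_cases i <;> simp
  have v₂ : ∀ a : k, logHeight₁ (algebraMap k L a) = Module.finrank k L * logHeight₁ a :=
    fun a => by rw [logHeight₁_eq_logHeight, logHeight₁_eq_logHeight, ← logHeight_algebraMap, v₁']
  have v₃ : (fun j => eval (Sum.elim ![algebraMap k L x, algebraMap k L y, 1]
      ![algebraMap k L u, 1]) (MvPolynomial.map (algebraMap k L) (G j))) =
      fun j => algebraMap k L (eval (Sum.elim ![x, y, 1] ![u, 1]) (G j)) := by
    funext j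
    rw [map_eval, v₁, v₁']
    congr 2
    funext i
    cases i <;> rfl
  rw [v₃] at g0 hi
  refine ⟨fun h0 => g0 (funext fun j => by rw [congrFun h0 j]; simp), ?_⟩
  rw [v₁, v₁', logHeight_algebraMap, logHeight_algebraMap, logHeight_algebraMap, v₂, v₂] at hi
  refine le_of_mul_le_mul_left ?_ n0
  rw [mul_add _ _ (C / _), mul_div_cancel₀ _ n0.ne']
  linarith [mul_le_mul_of_nonneg_left (hS u hu) hc]

/-- The final statement, from the core inequality. -/
theorem finalG (H : CoreG) (W : WeierstrassCurve ℚ) [W.IsElliptic]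
    (k : Type) [Field k] [NumberField k]
    {ι : Type*} [Fintype ι] (G : ι → MvPolynomial (Fin 3 ⊕ Fin 2) k) (d d' : ℕ)
    (hG : ∀ j, (G j).IsWeightedHomogeneous bw2 (d, d'))
    (hfin : {R : (W.map (algebraMap ℚ (AlgebraicClosure k))).toAffine.Point ×
        Option (AlgebraicClosure k) | ∀ j, aeval (Sum.elim (pr R.1) (pr1 R.2)) (G j) = 0}.Finite) :
    ∃ Z : Set k, Z.Finite ∧ ∀ ε : ℝ, 0 < ε → ∃ c : ℝ, 0 ≤ c ∧ ∀ S : Finset (FinitePlace k),
      ∃ C : ℝ, ∀ x y u : k, (W.map (algebraMap ℚ k)).toAffine.Equation x y → u ≠ 0 → x ∉ Z →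
      u ∉ Z → (fun j => eval (Sum.elim ![x, y, 1] ![u, 1]) (G j)) ≠ 0 ∧
      d * logHeight ![x, y, 1] + d' * logHeight ![u, 1] -
        logHeight (fun j => eval (Sum.elim ![x, y, 1] ![u, 1]) (G j)) ≤
        ε * (logHeight₁ x + logHeight₁ u) + c * cnt S u + C := by
  have mm : ∀ (K : Type) [Field K] [CharZero K] [Algebra k K] (f : ℚ →+* K),
      (W.map (algebraMap ℚ k)).map (algebraMap k K) = W.map f := by
    intro K _ _ _ f
    rw [WeierstrassCurve.map_map, RingHom.ext_rat ((algebraMap k K).comp (algebraMap ℚ k)) f]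
  refine finite_subscheme2 _ (fun K _ _ _ => ?_) hG ?_
  · rw [mm K (algebraMap ℚ K)]
    exact gcdG_of_core H W
  · rw [mm _ (algebraMap ℚ _)]
    exact hfin

end Pool.Agent.Lib.MP_8865d3_nt.Gm
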