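import Pool.Agent.Lib.MP_8865d3_nt.Q1Core
import Pool.Agent.Lib.MP_651af7_nt.VjP1

/-! Phase 1: among well spaced, nearly proportional bad points one lies on a small curve. -/

namespace Pool.Agent.Lib.MP_8865d3_nt.Gm

open Finset Height Pool.Agent.Lib.MP_e97e2b_nt Pool.Agent.Lib.MP_651af7_nt.Iv
  Pool.Agent.Lib.MP_651af7_nt.Vj Pool.Agent.Lib.MP_651af7_nt.Vj.P1 Pool.Agent.Lib.Common.Subspace

variable {K : Type} [Field K] [NumberField K]

theorem phase1G (a b : ℤ) (hD : 4 * a ^ 3 + 27 * b ^ 2 ≠ 0) (η : ℝ) (hη : 0 < η) :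
    ∃ (m D : ℕ) (θ lam : ℝ), 0 < θ ∧ ∀ ε : ℝ, 0 < ε → ∃ H₀ : ℝ,
      ∀ (X : Fin m → Pt (a : K) (b : K) × Kˣ) (Y : Pt (a : K) (b : K) × Kˣ) (j : Fin m → ℕ),
        (∀ i, H₀ ≤ HG (X i)) → (∀ i i', i < i' → lam * HG (X i) ≤ HG (X i')) →
        (∀ i, lam * HG (X i) ≤ HG Y) → (∀ i, BadG η (X i)) → BadG η Y →
        (∀ i, CloseG θ (j i) (X i) Y) → (∃ i, SpecG D ε (X i)) ∨ SpecG D ε Y := by
  obtain ⟨t, htt⟩ := exists_nat_ge (8 / η + 1)
  obtain ⟨n, hn⟩ := exists_nat_ge (384 / η + 1)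
  have t1 : (1 : ℝ) ≤ t := by linarith [show 0 < 8 / η by positivity]
  have n1 : (1 : ℝ) ≤ n := by linarith [show 0 < 384 / η by positivity]
  have t2 : 8 ≤ t * η := (div_le_iff₀ hη).1 (by linarith)
  have n2 : 384 ≤ n * η := (div_le_iff₀ hη).1 (by linarith)
  have t3 : 0 < t := by exact_mod_cast (show (0 : ℝ) < t by linarith)
  have n3 : 0 < n := by exact_mod_cast (show (0 : ℝ) < n by linarith)
  obtain ⟨d, hd⟩ : ∃ d, d + 1 = 48 * n * t := 
    ⟨48 * n * t - 1, Nat.sub_add_cancel (Nat.succ_le_of_lt (by positivity))⟩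
  obtain ⟨m, hm⟩ : ∃ m, m = 2 * n ^ 2 := ⟨_, rfl⟩
  have m0 : 0 < m := by rw [hm]; positivity
  have m1 : (0 : ℝ) < m := by exact_mod_cast m0
  have d1 : 16 * (d : ℝ) ≤ t * m * η := by
    have e1 : (d : ℝ) + 1 = 48 * n * t := by exact_mod_cast hd
    have e2 : (m : ℝ) = 2 * n ^ 2 := by exact_mod_cast hm
    have := mul_le_mul_of_nonneg_left n2 (show (0 : ℝ) ≤ n * t by positivity)
    rw [e2]
    nlinarith
  have hD' : 4 * (a : K) ^ 3 + 27 * (b : K) ^ 2 ≠ 0 := by exact_mod_cast hD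
  obtain ⟨Cp, hCp⟩ := ht_par hD'
  obtain ⟨Ct, hCt⟩ := ht_two_pow hD'
  set D₀ : ℝ := 2 * (2 * d + 1) + (2 * m + 1) * d with hD₀
  have D1 : 1 ≤ D₀ := by
    have : (0 : ℝ) ≤ (2 * m + 1) * d := by positivity
    have : (0 : ℝ) ≤ d := by positivity
    linarith
  obtain ⟨D, ζ, C, hζ, hC, H⟩ := core_ineqT (K := K) a b hD (m := m) (d := d) (t := t) m0
    (by rw [hd, hm]; exact le_of_eq (by ring)) (t * m * η / (96 * D₀)) (by positivity)
  set θ : ℝ := min (η / 2) (t * η / (16 * (d + 1))) with hθ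
  have θ1 : θ < η := (min_le_left _ _).trans_lt (by linarith)
  have θ0 : 0 < θ := by positivity
  have θ2 : 16 * (d * θ) ≤ t * η := by
    have := (le_div_iff₀ (by positivity)).1 (min_le_right (η / 2) (t * η / (16 * (d + 1))))
    nlinarith
  refine ⟨m, D, θ, max 1 (1 / ζ), θ0, fun ε hε => ?_⟩
  set C' : ℝ := 2 * |Ct| + |Cp| with hC'
  have C0 : 0 ≤ C' := by positivity
  have C1 : Cp ≤ C' := by linarith [le_abs_self Cp, abs_nonneg Ct]
  set ε₀ : ℝ := ε / (D + 1) with hε₀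
  have ε1 : 0 < ε₀ := by positivity
  set H₀ : ℝ := 32 * (C + d * C') / η + 1 + 2 * m * C / ε₀ + C' / η + C with hH₀
  have u1 : 0 ≤ 32 * (C + d * C') / η := by positivity
  have u2 : 0 ≤ 2 * m * C / ε₀ := by positivity
  have u3 : 0 ≤ C' / η := by positivity
  have H1 : 1 ≤ H₀ := by linarith
  have H2 : 2 * m * C ≤ ε₀ * H₀ := by
    have : 2 * m * C / ε₀ ≤ H₀ := by linarith
    rwa [div_le_iff₀' ε1] at this
  have H3 : C' < η * H₀ := by
    have : C' / η < H₀ := by linarith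
    rwa [div_lt_iff₀' hη] at this
  refine ⟨H₀, fun X Y j h1 h2 h3 h4 h5 h6 => ?_⟩
  let Z : Option (Fin m) → Pt (a : K) (b : K) × Kˣ := fun o => o.elim Y X
  have r1 : ∀ {u v : ℝ}, 0 ≤ u → max 1 (1 / ζ) * u ≤ v → u ≤ v ∧ u ≤ ζ * v := fun {u v} hu h => by
    have e1 := mul_le_mul_of_nonneg_right (le_max_left 1 (1 / ζ)) hu
    have e2 := mul_le_mul_of_nonneg_right (le_max_right 1 (1 / ζ)) hu
    refine ⟨by linarith, ?_⟩
    rw [← div_le_iff₀' hζ, div_eq_inv_mul, ← one_div]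
    linarith
  have w1 : ∀ o, H₀ ≤ HG (Z o) := by
    rintro (_ | i)
    · exact (h1 ⟨0, m0⟩).trans (r1 (HG_nonneg _) (h3 _)).1
    · exact h1 i
  have w2 : ∀ o, BadG η (Z o) := by
    rintro (_ | i)
    · exact h5
    · exact h4 i
  have w3 : ∀ o, η * HG (Z o) ≤ ht (Z o).1 := fun o => (w2 o).trans (P1.gg_le_left _ _)
  have w4 : ∀ o, Cp < ht (Z o).1 := fun o => by
    have := mul_le_mul_of_nonneg_left (w1 o) hη.le
    linarith [w3 o]
  have w5 : ∀ o, ((Z o).2 : K) ≠ 1 := fun o e => by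
    have e1 := (w2 o).trans (P1.gg_le_right _ _)
    rw [e, sub_self, inv_zero, logHeight₁_zero] at e1
    have := mul_le_mul_of_nonneg_left (w1 o) hη.le
    linarith
  have Y0 : 0 < HG Y := by linarith [show H₀ ≤ HG Y from w1 none]
  have w8 : ∀ i, ht (Y.1 - 2 ^ j i • (X i).1) < ht Y.1 := fun i => by
    have e2 : η * HG Y ≤ ht Y.1 := w3 none
    have := mul_lt_mul_of_pos_right θ1 Y0
    linarith [(h6 i).1, zero_le_logHeight₁ ((Y.2 : K) / ((X i).2 : K) ^ 4 ^ j i)]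
  set T : ℕ := ∑ i, 4 ^ j i with hT
  have T1 : T * H₀ ≤ 2 * m * HG Y := by
    rw [hT, Nat.cast_sum, sum_mul]
    refine (sum_le_card_nsmul _ _ (2 * HG Y) fun i _ => ?_).trans_eq (by simp; ring)
    refine le_trans ?_ (h6 i).2.2
    push_cast
    exact mul_le_mul_of_nonneg_left (h1 i) (by positivity)
  rcases H ε₀ j (fun o => (Z o).1) (fun o => (Z o).2) (fun o => HG (Z o)) (D₀ * HG Y) ε1
    (fun p => (nondeg hCp (w4 p)).1) (fun p => (nondeg hCp (w4 p)).2) (fun p => Units.ne_zero _) w5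
    (fun i => (nondeg₂ hCp (w4 none) (w8 i)).1) (fun i => (nondeg₂ hCp (w4 none) (w8 i)).2)
    (fun o => by
      have := mul_le_mul_of_nonneg_left (w1 o) ε1.le
      have : (1 : ℝ) ≤ m := by exact_mod_cast m0
      linarith [mul_le_mul_of_nonneg_right this (zero_le_one.trans hC)])
    (by
      rintro (_ | i) (_ | i') h
      · exact absurd rfl h
      · exact Or.inr (r1 (HG_nonneg _) (h3 i')).2
      · exact Or.inl (r1 (HG_nonneg _) (h3 i)).2
      · rcases lt_or_gt_of_ne (fun e => h (congrArg some e)) with h' | h'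
        · exact Or.inl (r1 (HG_nonneg _) (h2 _ _ h')).2
        · exact Or.inr (r1 (HG_nonneg _) (h2 _ _ h')).2)
    (by
      rintro (_ | i)
      · change HG Y * (((2 * m + 1) * d : ℕ) : ℝ) ≤ _
        rw [hD₀]
        push_cast
        linarith [show (0 : ℝ) ≤ (2 * d + 1) * HG Y by positivity]
      · change HG (X i) * (((2 * d + 1) * 4 ^ j i : ℕ) : ℝ) ≤ _
        have := mul_le_mul_of_nonneg_left (h6 i).2.2 (show (0 : ℝ) ≤ 2 * d + 1 by positivity)
        rw [hD₀]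
        push_cast
        linarith [show (0 : ℝ) ≤ (2 * m + 1) * d * HG Y by positivity])
    (by
      have e1 := mul_le_mul_of_nonneg_left T1 (show 0 ≤ C by linarith)
      have e2 := mul_le_mul_of_nonneg_right H2 Y0.le
      have e3 : C * T ≤ ε₀ * HG Y := le_of_mul_le_mul_right (by linarith) (show 0 < H₀ by linarith)
      linarith [mul_le_mul_of_nonneg_right D1 (mul_pos ε1 Y0).le]) with ⟨κ, k1, k2⟩ | ⟨o, g, q1, q2, q3, q4, q5⟩
  · exfalso
    refine num_final (Q := ∑ i, 4 ^ j i * HG (X i)) (θ' := t * m * η / (96 * D₀)) (D₀ := D₀) hη t2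
      t1 m1 d1 (by positivity) θ2 (by field_simp) Y0 ?_ T1 (by positivity) (C' := C') (C := C)
      (by linarith)
      (L := ∑ i, (ht (2 ^ j i • (X i).1 + Y.1) + 2 * (4 ^ j i * logHeight₁ ((X i).2 : K)) +
        2 * logHeight₁ (Y.2 : K) - logHeight₁ ((Y.2 : K) / ((X i).2 : K) ^ 4 ^ j i))) ?_
      (Z := ∑ p, κ p * (5 * HG (Z p.1) + C)) ?_ ?_
    · rw [mul_sum]
      exact le_trans (by simp) (card_nsmul_le_sum univ _ (HG Y) fun i _ => (h6 i).2.1)
    · have e1 : ∀ i, 2 * (4 ^ j i * HG (X i)) + 2 * HG Y - θ * HG Y - C' * 4 ^ j i ≤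
          ht (2 ^ j i • (X i).1 + Y.1) + 2 * (4 ^ j i * logHeight₁ ((X i).2 : K)) +
            2 * logHeight₁ (Y.2 : K) - logHeight₁ ((Y.2 : K) / ((X i).2 : K) ^ 4 ^ j i) :=
        fun i => by
        have e3 := (abs_le.1 (hCp Y.1 (2 ^ j i • (X i).1))).1
        have e4 := (abs_le.1 (hCt (X i).1 (j i))).1
        have e5 : (1 : ℝ) ≤ 4 ^ j i := one_le_pow₀ (by norm_num)
        have e6 := mul_le_mul_of_nonneg_right (le_abs_self Ct) (zero_le_one.trans e5)
        have e7 := mul_le_mul_of_nonneg_left e5 (abs_nonneg Cp)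
        have e8 := (h6 i).1
        rw [add_comm Y.1] at e3
        rw [hC']
        unfold HG at *
        linarith [le_abs_self Cp]
      refine le_trans (le_of_eq ?_) (sum_le_sum fun i (_ : i ∈ univ) => e1 i)
      simp only [sum_sub_distrib, sum_add_distrib, ← mul_sum, sum_const, card_univ,
        Fintype.card_fin, nsmul_eq_mul, hT]
      push_cast
      ring
    · refine le_trans ?_ (mul_le_mul_of_nonneg_left k1.le (by norm_num))
      rw [mul_sum]
      refine sum_le_sum fun p _ => ?_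
      have e1 : 5 * HG (Z p.1) + C ≤ 6 * HG (Z p.1) := by linarith [w1 p.1]
      have := mul_le_mul_of_nonneg_left e1 (Nat.cast_nonneg (α := ℝ) (κ p))
      linarith
    · have e1 : t * η * ∑ i, 4 ^ j i * HG (X i) ≤
          ∑ i, (t * 4 ^ j i : ℕ) * gg (xc (X i).1) (((X i).2 : K) - 1)⁻¹ := by
        rw [mul_sum]
        refine sum_le_sum fun i _ => ?_
        have := mul_le_mul_of_nonneg_left (h4 i) (show (0 : ℝ) ≤ t * 4 ^ j i by positivity)
        push_cast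
        exact le_trans (le_of_eq (by ring)) this
      have e2 : ∑ i, 4 ^ j i * HG (X i) =
          ∑ i, 4 ^ j i * ht (X i).1 + ∑ i, 4 ^ j i * logHeight₁ ((X i).2 : K) := by
        rw [← sum_add_distrib]
        exact sum_congr rfl fun i _ => mul_add _ _ _
      have e3 : ∑ i, ((((2 * d + 1) * 4 ^ j i : ℕ) : ℝ) * ht (X i).1 +
          ((4 ^ j i : ℕ) : ℝ) * logHeight₁ ((X i).2 : K)) = (2 * d + 1) *
          ∑ i, 4 ^ j i * ht (X i).1 + ∑ i, 4 ^ j i * logHeight₁ ((X i).2 : K) := by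
        rw [mul_sum, ← sum_add_distrib]
        exact sum_congr rfl fun i _ => by push_cast; ring
      rw [Fintype.sum_option] at k2
      change d * ∑ i, ht (2 ^ j i • (X i).1 + Y.1) +
        ∑ i, (t * 4 ^ j i : ℕ) * gg (xc (X i).1) (((X i).2 : K) - 1)⁻¹ ≤ C * T +
        ((((2 * m + 1) * d : ℕ) : ℝ) * ht Y.1 + d * logHeight₁ (Y.2 : K) +
          ∑ i, ((((2 * d + 1) * 4 ^ j i : ℕ) : ℝ) * ht (X i).1 +
            ((4 ^ j i : ℕ) : ℝ) * logHeight₁ ((X i).2 : K))) +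
        d * ∑ i, logHeight₁ ((Y.2 : K) / ((X i).2 : K) ^ 4 ^ j i) +
        ∑ p, κ p * (5 * HG (Z p.1) + C) at k2
      rw [e3] at k2
      rw [e2] at e1 ⊢
      simp only [sum_sub_distrib, sum_add_distrib, ← mul_sum, sum_const, card_univ,
        Fintype.card_fin, nsmul_eq_mul]
      rw [show HG Y = ht Y.1 + logHeight₁ (Y.2 : K) from rfl]
      push_cast at k2 e1
      linarith
  · have e1 : len g ≤ Real.exp (ε * HG (Z o)) := by
      refine q4.trans (Real.exp_le_exp.2 (mul_le_mul_of_nonneg_right ?_ (HG_nonneg _)))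
      rw [hε₀, ← mul_div_assoc, div_le_iff₀ (by positivity)]
      linarith
    have e2 : SpecG D ε (Z o) := ⟨g, q1, q2, q3, e1, q5⟩
    rcases o with _ | i
    · exact Or.inr e2
    · exact Or.inl ⟨i, e2⟩

end Pool.Agent.Lib.MP_8865d3_nt.Gm
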