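import Pool.Agent.Lib.MP_8865d3_nt.G2Core
import Pool.Agent.Lib.MP_8865d3_nt.G2Ind
import Pool.Agent.Lib.MP_8865d3_nt.G2Pt

/-! Phase two: two bad points on small curves cannot be close. -/

namespace Pool.Agent.Lib.MP_8865d3_nt.Gm

open Pool.Agent.Lib.MP_e97e2b_nt Pool.Agent.Lib.MP_651af7_nt.Iv Pool.Agent.Lib.MP_651af7_nt.Vj
  Pool.Agent.Lib.Common.Subspace Height NumberField

variable {K : Type} [Field K] [NumberField K]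

theorem gmp2_arith {n k q ν η θ C₁ c H₁ H₂ x₁ x₂ z₁ z₂ p r i j₁ j₂ : ℝ} (hn : 0 < n) (hq : 1 ≤ q)
    (hk : 0 ≤ k) (hη : 40 < k * η) (h₂ : 0 < H₂)
    (a1 : n * p + k * i ≤ (2 * n * q + ν) * x₁ + 2 * n * x₂ + n * z₂ + q * n * j₁ + n * j₂ +
      (1 + c) * (q * (2 * H₁)))
    (a2 : 2 * x₂ + 2 * r - z₁ - C₁ ≤ p) (a3 : q * x₁ - C₁ * q ≤ r) (a4 : η / 2 * H₂ ≤ i)
    (a5 : z₁ + z₂ ≤ θ * H₂) (a6 : θ ≤ n⁻¹) (a7 : j₁ ≤ n⁻¹ * H₁) (a8 : j₂ ≤ n⁻¹ * H₂)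
    (a9 : ν ≤ q) (b1 : 0 ≤ x₁) (b2 : x₁ ≤ H₁) (b3 : q * H₁ ≤ 2 * H₂) (b4 : n * C₁ ≤ H₁)
    (b5 : 0 ≤ C₁) (b6 : c ≤ 1) : False := by
  have q0 : 0 ≤ q := by linarith
  have e : ∀ t, n * (n⁻¹ * t) = t := fun t => mul_inv_cancel_left₀ hn.ne' t
  have c1 := mul_le_mul_of_nonneg_left a2 hn.le
  have c2 := mul_le_mul_of_nonneg_left a3 hn.le
  have c3 := mul_le_mul_of_nonneg_left a4 hk
  have c4 := mul_le_mul_of_nonneg_left (a5.trans (mul_le_mul_of_nonneg_right a6 h₂.le)) hn.le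
  have c5 := mul_le_mul_of_nonneg_left a7 hn.le
  have c6 := mul_le_mul_of_nonneg_left a8 hn.le
  rw [e] at c4 c5 c6
  have c7 := mul_le_mul_of_nonneg_left c5 q0
  have c8 : ν * x₁ ≤ q * H₁ := mul_le_mul a9 b2 b1 q0
  have c9 := mul_le_mul_of_nonneg_left b4 q0
  have d1 : n * C₁ * 1 ≤ n * C₁ * q := mul_le_mul_of_nonneg_left hq (mul_nonneg hn.le b5)
  have d2 := mul_le_mul_of_nonneg_right b6 (mul_nonneg q0 (b1.trans b2))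
  have d3 := mul_lt_mul_of_pos_right hη h₂
  nlinarith

theorem phase2G (a b : ℤ) (hD : 4 * a ^ 3 + 27 * b ^ 2 ≠ 0) (η : ℝ) (hη : 0 < η) (D : ℕ) :
    ∃ ε θ δ : ℝ, 0 < ε ∧ 0 < θ ∧ 0 < δ ∧ ∀ S : Finset (FinitePlace K), ∃ H₀ : ℝ,
      ∀ X : Pt (a : K) (b : K) × Kˣ, H₀ ≤ HG X → BadG η X → SpecG D ε X →
        cnt S (X.2 : K) ≤ δ * HG X → ∃ H₁ : ℝ, ∀ (Y : Pt (a : K) (b : K) × Kˣ) (j : ℕ),
          H₁ ≤ HG Y → BadG η Y → SpecG D ε Y → cnt S (Y.2 : K) ≤ δ * HG Y →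
          prox S (xc Y.1) ≤ η / 2 * HG Y → ¬CloseG θ j X Y := by
  have hDK : 4 * (a : K) ^ 3 + 27 * (b : K) ^ 2 ≠ 0 := by exact_mod_cast hD
  obtain ⟨C₁, hC₁, f1, f2, f3⟩ := ht_facts hDK
  obtain ⟨ε₀, H₀, hε₀, sf⟩ := G2.special_facts (K := K) D hη
  obtain ⟨k, hk⟩ := exists_nat_gt (40 / η)
  rw [div_lt_iff₀ hη] at hk
  obtain ⟨n, hn⟩ : ∃ n : ℕ, n = 512 * (D + 1 + 4) ^ 5 * (k + 2) * (10000 * (D + 1) ^ 2) := ⟨_, rfl⟩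
  have hn1 : k + (D + 1) + 2 ≤ 2 * n := by
    have h2 : D + 1 + 1 ≤ 10000 * (D + 1) ^ 2 := by
      have := Nat.le_self_pow two_ne_zero (D + 1)
      omega
    have h3 : 1 ≤ 512 * (D + 1 + 4) ^ 5 := Nat.one_le_iff_ne_zero.2 (by positivity)
    have h1 : 1 * (k + 2) * (D + 1 + 1) ≤ n :=
      hn ▸ Nat.mul_le_mul (Nat.mul_le_mul_right _ h3) h2
    nlinarith
  have n0 : (0 : ℝ) < n := by exact_mod_cast (show 0 < n by omega)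
  obtain ⟨C, s₀, hC, core⟩ := G2.core (K := K) a b (D + 1) k n hn1
  have C0 : 0 < C := by linarith
  obtain ⟨ε, e0, e1, e2, e3, e4⟩ : ∃ ε : ℝ, 0 < ε ∧ ε ≤ ε₀ ∧ ε ≤ 1 ∧ C * ε ≤ η / 8 ∧ C * ε ≤ 1 := by
    have h1 : C * min ε₀ (min η 1 / (8 * C)) ≤ min η 1 / 8 :=
      (mul_le_mul_of_nonneg_left (min_le_right _ _) C0.le).trans (le_of_eq (by field_simp))
    have h2 : 0 < min ε₀ (min η 1 / (8 * C)) := by positivity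
    have h3 := min_le_left η 1
    have h4 := min_le_right η 1
    exact ⟨_, h2, min_le_left _ _, by nlinarith, by linarith, by linarith⟩
  obtain ⟨H, g1, g2, g3, g4⟩ : ∃ H : ℝ, H₀ ≤ H ∧ C / ε ≤ H ∧ (C₁ + 1) / η ≤ H ∧ n * C₁ ≤ H :=
    ⟨max (max H₀ (C / ε)) (max ((C₁ + 1) / η) (n * C₁)), (le_max_left _ _).trans (le_max_left _ _),
      (le_max_right _ _).trans (le_max_left _ _), (le_max_left _ _).trans (le_max_right _ _),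
      (le_max_right _ _).trans (le_max_right _ _)⟩
  have good : ∀ X : Pt (a : K) (b : K) × Kˣ, H ≤ HG X → BadG η X → SpecG D ε X →
      C₁ < η * HG X ∧ η * HG X ≤ ht X.1 ∧ X.1 ≠ 0 ∧ (∀ s : ℕ, 2 ^ s • X.1 ≠ 0) ∧
      ∃ (φ : MvPolynomial (Fin 2) ℚ) (u : Fin 3 → PowerSeries K), Irreducible φ ∧
        IL φ (Real.exp (ε * HG X)) ∧
        (∀ i, 1 ≤ φ.degreeOf i ∧ φ.degreeOf i ≤ D + 1) ∧
        G2.Bq a b φ ![xc X.1, yc X.1, (X.2 : K)] u := by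
    intro X hX hb ⟨φ, p1, p2, p3, p4, p5⟩
    have k1 : C₁ + 1 ≤ HG X * η := (div_le_iff₀ hη).1 (g3.trans hX)
    have k2 : η * HG X ≤ ht X.1 := le_trans hb (G2.gg_le _ _).1
    obtain ⟨k3, k4, k5⟩ := f3 X.1 (by linarith)
    obtain ⟨k6, k7⟩ := sf ε (HG X) _ _ φ e0 e1 (g1.trans hX) hb p1 ⟨p2, p4⟩ p3 p5
    obtain ⟨u, hu⟩ := G2.exists_bq (a := a) (b := b) (φ := φ) (z := ![xc X.1, yc X.1, (X.2 : K)])
      (Pool.Agent.Lib.MP_651af7_nt.Vj.eq_pt k3).1.1 p5 k4 k7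
    exact ⟨by linarith, k2, k3, k5, φ, u, p1, ⟨p2, p4⟩,
      fun i => ⟨k6 i, (p3 i).trans (Nat.le_succ _)⟩, hu⟩
  refine ⟨ε, min (n : ℝ)⁻¹ η, (n : ℝ)⁻¹, e0, by positivity, by positivity, fun S => ⟨H, ?_⟩⟩
  intro X hX hb hs hc
  obtain ⟨x1, x2, x3, x4, φ₁, u, i₁, l₁, d₁, br⟩ := good X hX hb hs
  obtain ⟨r₀, ind⟩ := G2.indep_series (K := K) hD (D + 1) φ₁ i₁ d₁
  have X0 : 0 < HG X := (mul_pos_iff_of_pos_left hη).1 (by linarith)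
  obtain ⟨s₁, hs₁⟩ : ∃ s₁ : ℕ, s₀ + r₀ + 5000 * (D + 1) ^ 2 ≤ s₁ := ⟨_, le_rfl⟩
  refine ⟨max H (2 * (4 ^ s₁ * HG X)), ?_⟩
  rintro Y s hY hb' hs' hc' hp ⟨q1, q2, q3⟩
  obtain ⟨y1, y2, y3, -, φ₂, u', i₂, l₂, d₂, br'⟩ := good Y ((le_max_left _ _).trans hY) hb' hs'
  have Y0 : 0 < HG Y := (mul_pos_iff_of_pos_left hη).1 (by linarith)
  have s1 : s₀ + r₀ + 5000 * (D + 1) ^ 2 ≤ s := by
    have h1 := ((le_max_right _ _).trans hY).trans q2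
    have h2 : (4 : ℝ) ^ s₁ ≤ 4 ^ s := le_of_mul_le_mul_right (by linarith) X0
    exact hs₁.trans ((pow_le_pow_iff_right₀ (by norm_num)).1 h2)
  have s2 : s < 2 ^ s := Nat.lt_two_pow_self
  have s3 : 2 ^ s ≤ 4 ^ s := Nat.pow_le_pow_left (by norm_num) s
  obtain ⟨ν, v1, v2, v3, v4⟩ : ∃ ν : ℕ, 0 < ν ∧ ν ≤ 4 ^ s ∧ 5000 * (D + 1) ^ 2 * ν ≤ 4 ^ s ∧
      4 ^ s ≤ 10000 * (D + 1) ^ 2 * ν := by
    have h0 : 0 < 5000 * (D + 1) ^ 2 := by positivity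
    have h1 : 0 < 4 ^ s / (5000 * (D + 1) ^ 2) := Nat.div_pos (by omega) h0
    have h2 := Nat.lt_mul_div_succ (4 ^ s) h0
    refine ⟨_, h1, Nat.div_le_self _ _, Nat.mul_div_le _ _, h2.le.trans ?_⟩
    nlinarith
  have q0 : (1 : ℝ) ≤ 4 ^ s := one_le_pow₀ (by norm_num)
  have z1 := ht_nonneg (Y.1 - 2 ^ s • X.1)
  have z2 := zero_le_logHeight₁ ((Y.2 : K) / (X.2 : K) ^ 4 ^ s)
  have z3 := f2 Y.1 (2 ^ s • X.1)
  have z4 : Y.1 + 2 ^ s • X.1 ≠ 0 := fun h => by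
    have h0 : ht (0 : Pt (a : K) (b : K)) = 0 := logHeight₁_zero
    have h1 := mul_le_mul_of_nonneg_right (min_le_right (n : ℝ)⁻¹ η) Y0.le
    rw [h, h0] at z3
    linarith [ht_nonneg (2 ^ s • X.1)]
  obtain ⟨m1, m2⟩ := sumData_pt x3 y3 (x4 s) z4
  have w1 : C ≤ HG X * ε := (div_le_iff₀ e0).1 (g2.trans hX)
  have w2 := mul_le_mul_of_nonneg_right e3 X0.le
  have w3 := mul_le_mul_of_nonneg_right e3 (show 0 ≤ 4 ^ s * HG X by positivity)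
  have w4 := mul_le_mul_of_nonneg_left q3 hη.le
  have key := core (G2.outS S) ε (2 * HG X) s ν φ₁ φ₂ _ _ u u' _ e0 e2 (by linarith) (by omega) v1
    v2 (by
      rw [hn, mul_assoc _ _ ν]
      exact Nat.mul_le_mul_left _ v4)
    (l₁.mono (Real.exp_le_exp.2 (by nlinarith)))
    (l₂.mono (Real.exp_le_exp.2 (mul_le_mul_of_nonneg_left (by linarith) e0.le)))
    (fun i => (d₁ i).2) (d₁ 1).1 (d₂ 0).1 (fun i => (d₂ i).2) br br'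
    (show HG X ≤ 2 * HG X by linarith) X.2.ne_zero m2
    (ind φ₂ _ _ u u' s ν n i₂.ne_zero (d₂ 1).2 br br' X.2.ne_zero Y.2.ne_zero m1 (by omega) v3)
    (show _ < ht X.1 by nlinarith) (show _ < ht Y.1 by nlinarith)
  refine gmp2_arith n0 q0 (Nat.cast_nonneg k) hk Y0 key z3 (f1 X.1 s) ?_ q1 (min_le_left _ _)
    ((G2.inn_le_cnt S X.2.ne_zero).2.trans hc) ((G2.inn_le_cnt S Y.2.ne_zero).1.trans hc')
    (by exact_mod_cast v2) (ht_nonneg _) (le_add_of_nonneg_right (zero_le_logHeight₁ _)) q3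
    (g4.trans hX) hC₁ e4
  have h1 := G2.inn_add_prox S (xc Y.1)
  change _ = ht Y.1 at h1
  change _ ≤ G2.inn (G2.outS S) (xc Y.1)
  linarith

end Pool.Agent.Lib.MP_8865d3_nt.Gm
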