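import Pool.Agent.Lib.MP_8865d3_nt.GmAsm
import Pool.Agent.Lib.MP_8865d3_nt.GmP1
import Pool.Agent.Lib.MP_8865d3_nt.GmP2
import Pool.Agent.Lib.MP_8865d3_nt.GmFinMain

/-! The core inequality on the product of an elliptic curve and a torus. -/

namespace Pool.Agent.Lib.MP_8865d3_nt.Gm

theorem coreG : CoreG := fun _ _ _ a b hD η hη =>
  mainG_of_phases a b hD η hη (phase1G a b hD η hη) (phase2G a b hD η hη)

end Pool.Agent.Lib.MP_8865d3_nt.Gm
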