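import Pool.Agent.Lib.MP_651af7_nt.Moving.Tools

/-! The moving subspace theorem for triangular frames, normalised by leading monomials. -/

namespace Pool.Agent.Lib.MP_8865d3_nt

open Finset Matrix MvPolynomial Filter Pool.Agent.Lib.Common.Subspace
open Pool.Agent.Lib.MP_651af7_nt.Moving

variable {σ ι : Type} [Fintype σ] [DecidableEq σ] [Fintype ι] [DecidableEq ι]

section Key

variable [LinearOrder σ]

/-- A monomial order refining the weight `w`. -/
noncomputable def key (w : σ → ℝ) (κ : σ →₀ ℕ) : ℝ ×ₗ Lex (σ →₀ ℕ) :=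
  toLex (Finsupp.weight w κ, toLex κ)

omit [Fintype σ] [DecidableEq σ] in
theorem key_add {w : σ → ℝ} {κ γ : σ →₀ ℕ} (h : key w κ < key w γ) (ν : σ →₀ ℕ) :
    key w (ν + κ) < key w (ν + γ) := by
  simp only [key, Prod.Lex.toLex_lt_toLex, map_add] at h ⊢
  rcases h with h | ⟨h1, h2⟩
  · exact Or.inl (by linarith)
  · exact Or.inr ⟨by rw [h1], add_lt_add_right h2 (toLex ν)⟩

/-- `γ` is the leading exponent of `p` for the order `key w`. -/
def Lead (w : σ → ℝ) (p : MvPolynomial σ ℤ) (γ : σ →₀ ℕ) : Prop :=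
  coeff γ p ≠ 0 ∧ ∀ κ, coeff κ p ≠ 0 → κ ≠ γ → key w κ < key w γ

omit [Fintype σ] [DecidableEq σ] in
theorem exists_lead (w : σ → ℝ) {p : MvPolynomial σ ℤ} (hp : p ≠ 0) :
    ∃ γ, Lead w p γ ∧ ∀ κ ∈ p.support, Finsupp.weight w κ ≤ Finsupp.weight w γ := by
  obtain ⟨γ, h1, h2⟩ := exists_max_image p.support (key w) (support_nonempty.2 hp)
  refine ⟨γ, ⟨mem_support_iff.1 h1, fun κ hκ hne => lt_of_le_of_ne (h2 κ (mem_support_iff.2 hκ))
    fun h => hne ?_⟩, fun κ hκ => ?_⟩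
  · exact congrArg (fun z => ofLex (ofLex z).2) h
  · have := h2 κ hκ
    simp only [key, Prod.Lex.toLex_le_toLex] at this
    rcases this with h | ⟨h, -⟩
    exacts [h.le, h.le]

end Key

/-- The matrix of the auxiliary linear forms of a triangular frame. -/
noncomputable def gmat (a : ι → ℕ) (b : ℕ) (γ δ : ι → σ →₀ ℕ)
    (Y : Matrix ι ι (MvPolynomial σ ℤ)) : Matrix (Idx σ a b) (Idx σ a b) ℤ :=
  Matrix.of fun I K => if δ I.1 ≤ I.2.1 then coeff K.2.1 (monomial (I.2.1 - γ I.1) 1 * Y I.1 K.1)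
  else if I = K then 1 else 0

theorem gmat_good (a : ι → ℕ) (b : ℕ) (γ δ : ι → σ →₀ ℕ) (Y : Matrix ι ι (MvPolynomial σ ℤ))
    (y : Idx σ a b → ℤ) (I : Idx σ a b) (h : δ I.1 ≤ I.2.1) :
    (gmat a b γ δ Y *ᵥ y) I = ∑ i, ∑ κ : mon σ (b - a i),
      coeff κ.1 (monomial (I.2.1 - γ I.1) 1 * Y I.1 i) * y ⟨i, κ⟩ := by
  simp only [mulVec, dotProduct, gmat, of_apply, if_pos h]
  rw [Fintype.sum_sigma]

theorem gmat_bad (a : ι → ℕ) (b : ℕ) (γ δ : ι → σ →₀ ℕ) (Y : Matrix ι ι (MvPolynomial σ ℤ))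
    (y : Idx σ a b → ℤ) (I : Idx σ a b) (h : ¬ δ I.1 ≤ I.2.1) :
    (gmat a b γ δ Y *ᵥ y) I = y I := by
  simp only [mulVec, dotProduct, gmat, of_apply, if_neg h]
  simp

omit [Fintype σ] [DecidableEq σ] in
theorem degree_tsub {μ γ : σ →₀ ℕ} (h : γ ≤ μ) : (μ - γ).degree + γ.degree = μ.degree := by
  rw [← map_add, tsub_add_cancel_of_le h]

theorem gmat_mvec {a : ι → ℕ} {b : ℕ} (hb : ∀ i, a i ≤ b) {γ δ : ι → σ →₀ ℕ}
    (hδ : ∀ r, γ r ≤ δ r) {Y : Matrix ι ι (MvPolynomial σ ℤ)}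
    (hY : ∀ r i, ∀ μ ∈ (Y r i).support, μ.degree + a i = (γ r).degree + a r)
    (u : σ → ℤ) (x : ι → ℤ) (I : Idx σ a b) (h : δ I.1 ≤ I.2.1) :
    (gmat a b γ δ Y *ᵥ mvec a b u x) I * ∏ t, u t ^ γ I.1 t =
      (∏ t, u t ^ I.2.1 t) * ∑ i, eval u (Y I.1 i) * x i := by
  have hk : γ I.1 ≤ I.2.1 := (hδ _).trans h
  have hdeg := degree_tsub hk
  rw [mem_mon.1 I.2.2] at hdeg
  have h1 : ∀ i, ∑ κ : mon σ (b - a i),
      coeff κ.1 (monomial (I.2.1 - γ I.1) 1 * Y I.1 i) * mvec a b u x ⟨i, κ⟩ =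
      (∏ t, u t ^ (I.2.1 - γ I.1 : σ →₀ ℕ) t) * (eval u (Y I.1 i) * x i) := fun i => by
    have hh : (monomial (I.2.1 - γ I.1) (1 : ℤ) * Y I.1 i).IsHomogeneous (b - a i) := by
      intro κ hκ
      rw [coeff_monomial_mul'] at hκ
      split_ifs at hκ with h4
      · have h5 := hY I.1 i _ (mem_support_iff.2 (right_ne_zero_of_mul hκ))
        have h6 := degree_tsub h4
        rw [Finsupp.degree_eq_weight_one, ← Pi.one_def] at h5 h6 hdeg
        have := hb i
        have := hb I.1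
        omega
      · exact absurd rfl hκ
    have h2 := sum_coeff_eval hh u
    rw [map_mul, eval_monomial, one_mul, Finsupp.prod_fintype _ _ (by simp)] at h2
    simp only [mvec, ← mul_assoc, ← sum_mul]
    rw [← h2, sum_coe_sort (mon σ (b - a i)) (fun κ => coeff κ (monomial (I.2.1 - γ I.1) 1 *
      Y I.1 i) * ∏ t, u t ^ κ t)]
  rw [gmat_good _ _ _ _ _ _ _ h, sum_congr rfl fun i _ => h1 i, ← mul_sum, mul_right_comm]
  congr 1
  rw [← prod_mul_distrib]
  refine prod_congr rfl fun t _ => ?_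
  rw [← pow_add, ← Finsupp.add_apply, tsub_add_cancel_of_le hk]

theorem gmat_det [LinearOrder σ] (a : ι → ℕ) (b : ℕ) {γ δ : ι → σ →₀ ℕ} (hδ : ∀ r, γ r ≤ δ r)
    {Y : Matrix ι ι (MvPolynomial σ ℤ)} (rk : ι → ℕ) (hrk : Function.Injective rk)
    (htri : ∀ r i, rk i < rk r → Y r i = 0) (hlead : ∀ r, ∃ w, Lead w (Y r r) (γ r)) :
    (gmat a b γ δ Y).det ≠ 0 := by
  intro h0
  obtain ⟨y, hy0, hy⟩ := Matrix.exists_mulVec_eq_zero_iff.2 h0
  obtain ⟨I₀, hI₀⟩ := Function.ne_iff.1 hy0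
  obtain ⟨⟨r, κ₁⟩, h1, h2⟩ := exists_max_image (univ.filter fun I => y I ≠ 0) (fun I => rk I.1)
    ⟨I₀, mem_filter.2 ⟨mem_univ _, hI₀⟩⟩
  obtain ⟨w, hw1, hw2⟩ := hlead r
  obtain ⟨κ, h3, h4⟩ := exists_min_image (univ.filter fun κ : mon σ (b - a r) => y ⟨r, κ⟩ ≠ 0)
    (fun κ => key w κ.1) ⟨κ₁, mem_filter.2 ⟨mem_univ _, (mem_filter.1 h1).2⟩⟩
  apply (mem_filter.1 h3).2
  have h5 := congrFun hy ⟨r, κ⟩
  by_cases hg : δ r ≤ κ.1
  · have hk : γ r ≤ κ.1 := (hδ r).trans hg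
    rw [gmat_good _ _ _ _ _ _ _ hg, Fintype.sum_eq_single r, Fintype.sum_eq_single κ] at h5
    · have h6 : coeff κ.1 (monomial (κ.1 - γ r) 1 * Y r r) = coeff (γ r) (Y r r) := by
        conv_lhs => rw [← tsub_add_cancel_of_le hk, add_tsub_cancel_right]
        rw [coeff_monomial_mul, one_mul]
      rw [h6] at h5
      exact (mul_eq_zero.1 h5).resolve_left hw1
    · intro κ' hκ'
      by_contra hne
      obtain ⟨h7, h8⟩ := mul_ne_zero_iff.1 hne
      rw [coeff_monomial_mul'] at h7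
      split_ifs at h7 with h9
      · have h10 : κ'.1 = κ.1 - γ r + (κ'.1 - (κ.1 - γ r)) := (add_tsub_cancel_of_le h9).symm
        have h11 := key_add (hw2 _ (right_ne_zero_of_mul h7) fun h =>
          hκ' (Subtype.ext (by rw [h10, h, tsub_add_cancel_of_le hk]))) (κ.1 - γ r)
        rw [← h10, tsub_add_cancel_of_le hk] at h11
        exact absurd (h4 κ' (mem_filter.2 ⟨mem_univ _, h8⟩)) (not_le.2 h11)
      · exact h7 rfl
    · intro i hi
      refine sum_eq_zero fun κ' _ => ?_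
      by_cases h7 : y ⟨i, κ'⟩ = 0
      · rw [h7, mul_zero]
      · have h8 : rk i ≤ rk r := h2 ⟨i, κ'⟩ (mem_filter.2 ⟨mem_univ _, h7⟩)
        rw [htri r i (lt_of_le_of_ne h8 fun h => hi (hrk h))]
        simp
  · rwa [gmat_bad _ _ _ _ _ _ _ hg] at h5

theorem card_ge {k b D : ℕ} (hb : D ≤ b) {δ : σ →₀ ℕ} (hδ : δ.degree + k = D) :
    #{μ ∈ mon σ (b - k) | δ ≤ μ} = #(mon σ (b - D)) := by
  refine card_nbij' (fun μ => μ - δ) (fun ν => ν + δ) ?_ ?_ ?_ ?_
  · intro μ hμ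
    obtain ⟨h1, h2⟩ := mem_filter.1 (mem_coe.1 hμ)
    have := degree_tsub h2
    rw [mem_mon.1 h1] at this
    exact mem_coe.2 (mem_mon.2 (by dsimp only; omega))
  · intro ν hν
    have h1 := mem_mon.1 (mem_coe.1 hν)
    refine mem_coe.2 (mem_filter.2 ⟨mem_mon.2 ?_, le_add_self⟩)
    simp only [map_add]
    omega
  · intro μ hμ
    exact tsub_add_cancel_of_le (mem_filter.1 (mem_coe.1 hμ)).2
  · intro ν _
    simp

theorem gkey_local (v : AbsoluteValue ℚ ℝ) {a : ι → ℕ} {b D : ℕ} (hb : D ≤ b)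
    {γ δ : ι → σ →₀ ℕ} (hδ : ∀ r, γ r ≤ δ r) (hD : ∀ r, (δ r).degree + a r = D)
    {Y : Matrix ι ι (MvPolynomial σ ℤ)}
    (hY : ∀ r i, ∀ μ ∈ (Y r i).support, μ.degree + a i = (γ r).degree + a r)
    {u : σ → ℤ} (hu : ∀ t, u t ≠ 0) (x : ι → ℤ) :
    ∏ I, v (((gmat a b γ δ Y *ᵥ mvec a b u x) I : ℤ) : ℚ) =
      (∏ I : Idx σ a b, ∏ t, v (u t) ^ I.2.1 t) *
        ((∏ r, v ((∑ i, eval u (Y r i) * x i : ℤ) : ℚ) / ∏ t, v (u t) ^ γ r t) ^
          #(mon σ (b - D)) * ∏ r, v (x r) ^ (#(mon σ (b - a r)) - #(mon σ (b - D)))) := by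
  have hp : ∀ μ : σ →₀ ℕ, v ((∏ t, u t ^ μ t : ℤ) : ℚ) = ∏ t, v (u t) ^ μ t := fun μ => by
    push_cast
    rw [map_prod]
    simp only [map_pow]
  have h1 : ∀ I : Idx σ a b, v (((gmat a b γ δ Y *ᵥ mvec a b u x) I : ℤ) : ℚ) =
      (∏ t, v (u t) ^ I.2.1 t) * (if δ I.1 ≤ I.2.1 then
        v ((∑ i, eval u (Y I.1 i) * x i : ℤ) : ℚ) / ∏ t, v (u t) ^ γ I.1 t else v (x I.1)) := by
    intro I
    split_ifs with h
    · have h2 := congrArg (fun z : ℤ => v (z : ℚ))
        (gmat_mvec (fun i => by have := hD i; omega) hδ hY u x I h)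
      simp only [Int.cast_mul, map_mul, hp] at h2
      rw [eq_div_of_mul_eq (prod_pos fun t _ => pow_pos (v.pos (by exact_mod_cast hu t)) _).ne' h2,
        mul_div_assoc]
    · rw [gmat_bad _ _ _ _ _ _ _ h, mvec, Int.cast_mul, map_mul, hp]
  rw [prod_congr rfl fun I _ => h1 I, prod_mul_distrib]
  congr 1
  rw [Fintype.prod_sigma, ← prod_pow, ← prod_mul_distrib]
  refine prod_congr rfl fun r _ => ?_
  dsimp only
  rw [prod_coe_sort (mon σ (b - a r)) (fun μ => if δ r ≤ μ then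
    v ((∑ i, eval u (Y r i) * x i : ℤ) : ℚ) / ∏ t, v (u t) ^ γ r t else v (x r)), prod_ite,
    prod_const, prod_const, ← card_filter_add_card_filter_not (s := mon σ (b - a r)) (δ r ≤ ·),
    card_ge hb (hD r), Nat.add_sub_cancel_left]

theorem prod_place_le (S : Finset ℕ) (hS : ∀ p ∈ S, p.Prime) (z : ℤ) :
    ∏ o, place S hS o z ≤ |(z : ℝ)| := by
  rw [Fintype.prod_option, place_none]
  exact mul_le_of_le_one_right (abs_nonneg _) (prod_le_one (fun _ _ => (place S hS _).nonneg _)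
    fun p _ => place_int_le S hS p z)

theorem ml0 [LinearOrder σ] [Nonempty σ] [Nonempty ι] {Φ : Type} [Fintype Φ] (a : ι → ℕ)
    (γ : Φ → ι → σ →₀ ℕ) (Y : Φ → Matrix ι ι (MvPolynomial σ ℤ))
    (hY : ∀ φ r i, ∀ μ ∈ (Y φ r i).support, μ.degree + a i = (γ φ r).degree + a r)
    (htri : ∀ φ, ∃ rk : ι → ℕ, Function.Injective rk ∧ ∀ r i, rk i < rk r → Y φ r i = 0)
    (hlead : ∀ φ r, ∃ w, Lead w (Y φ r r) (γ φ r)) {ε : ℝ} (hε : 0 < ε) :
    ∃ (c b : ℕ) (W : Finset (Idx σ a b → ℤ)), (∀ i, a i ≤ b) ∧ (∀ w ∈ W, w ≠ 0) ∧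
    ∀ (S : Finset ℕ) (hS : ∀ p ∈ S, p.Prime), ∃ C : ℝ, ∀ (u : σ → ℤ) (x : ι → ℤ),
      (∀ t, u t ≠ 0) → (∀ i, x i ≠ 0) → (∀ w ∈ W, w ⬝ᵥ mvec a b u x ≠ 0) →
      ∀ φ : Option S → Φ,
      1 ≤ Real.exp (C + ε * (Real.log ‖u‖ + Real.log ‖x‖)) *
        (∏ t, ∏ o, place S hS o (u t)) ^ c *
        ∏ o, ∏ r, place S hS o ((∑ i, eval u (Y (φ o) r i) * x i : ℤ) : ℚ) /
          ∏ t, place S hS o (u t) ^ γ (φ o) r t := by
  classical
  obtain ⟨s₀⟩ := ‹Nonempty σ›
  set D : ℕ := ∑ p : Φ × ι, (γ p.1 p.2).degree + ∑ i, a i with hDdef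
  have hD1 : ∀ φ r, (γ φ r).degree + a r ≤ D := fun φ r =>
    add_le_add (single_le_sum (f := fun p : Φ × ι => (γ p.1 p.2).degree)
      (fun _ _ => Nat.zero_le _) (mem_univ (φ, r)))
      (single_le_sum (fun _ _ => Nat.zero_le _) (mem_univ r))
  have hD : ∀ i, a i ≤ D := fun i =>
    (single_le_sum (fun _ _ => Nat.zero_le _) (mem_univ i)).trans (Nat.le_add_left _ _)
  let δ : Φ → ι → σ →₀ ℕ := fun φ r => γ φ r + Finsupp.single s₀ (D - ((γ φ r).degree + a r))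
  have hδ : ∀ φ r, γ φ r ≤ δ φ r := fun φ r => le_self_add
  have hδD : ∀ φ r, (δ φ r).degree + a r = D := fun φ r => by
    have := hD1 φ r
    simp only [δ, map_add, Finsupp.degree_single]
    omega
  have hκ0 : (0 : ℝ) < Fintype.card ι := by exact_mod_cast Fintype.card_pos
  obtain ⟨b, hb, hrat⟩ := exists_ratio (σ := σ) D
    (show 0 < ε / (2 * Fintype.card ι) by positivity)
  obtain ⟨W, hW0, hW⟩ := subspace_place (univ.image fun φ => gmat a b (γ φ) (δ φ) (Y φ)) (by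
    intro M hM
    obtain ⟨φ, -, rfl⟩ := mem_image.1 hM
    obtain ⟨rk, h1, h2⟩ := htri φ
    exact gmat_det a b (hδ φ) rk h1 h2 (hlead φ))
  refine ⟨b * Fintype.card (Idx σ a b), b, W, fun i => (hD i).trans hb, hW0, fun S hS => ?_⟩
  by_contra hcon
  push Not at hcon
  choose u x hu hx hw φ hlt using fun t : ℕ => hcon t
  let U : Ultrafilter ℕ := Ultrafilter.of atTop
  have hU : (U : Filter ℕ) ≤ atTop := Ultrafilter.of_le atTop
  obtain ⟨φ₀, hφ₀⟩ := ultra_const U φ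
  have hu1 : ∀ t, 1 ≤ ‖u t‖ := fun t => one_le_norm (hu t)
  have hx1 : ∀ t, 1 ≤ ‖x t‖ := fun t => one_le_norm (hx t)
  have hlu : ∀ t, 0 ≤ Real.log ‖u t‖ := fun t => Real.log_nonneg (hu1 t)
  have hlx : ∀ t, 0 ≤ Real.log ‖x t‖ := fun t => Real.log_nonneg (hx1 t)
  obtain ⟨w, hwW, hw0⟩ := hW S hS (fun o => gmat a b (γ (φ₀ o)) (δ (φ₀ o)) (Y (φ₀ o)))
    (fun o => mem_image_of_mem _ (mem_univ _)) U
    (fun t => Real.log ‖u t‖ + Real.log ‖x t‖ + t)
    (tendsto_atTop_mono (fun t => by linarith [hlu t, hlx t])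
      (tendsto_natCast_atTop_atTop.mono_left hU))
    (fun t => mvec a b (u t) (x t)) (b + 1) (min 1 (ε / 2)) (by positivity)
    (Eventually.of_forall fun t I => by
      have h1 : |((mvec a b (u t) (x t) I : ℤ) : ℝ)| ≤ ‖u t‖ ^ b * ‖x t‖ := by
        rw [mvec]
        push_cast
        rw [abs_mul, abs_prod]
        refine mul_le_mul ?_ (abs_le_norm _ _) (abs_nonneg _) (by positivity)
        calc ∏ k, |(u t k : ℝ) ^ I.2.1 k| ≤ ∏ k, ‖u t‖ ^ I.2.1 k :=
              prod_le_prod (fun _ _ => abs_nonneg _) fun k _ => by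
                rw [abs_pow]; exact pow_le_pow_left₀ (abs_nonneg _) (abs_le_norm _ _) _
          _ = ‖u t‖ ^ (b - a I.1) := by
              rw [prod_pow_eq_pow_sum, ← Finsupp.degree_eq_sum, mem_mon.1 I.2.2]
          _ ≤ _ := pow_le_pow_right₀ (hu1 t) (Nat.sub_le _ _)
      refine h1.trans ?_
      rw [← Real.exp_log (show 0 < ‖u t‖ ^ b * ‖x t‖ from
        mul_pos (pow_pos (by linarith [hu1 t]) _) (by linarith [hx1 t])),
        Real.log_mul (pow_pos (by linarith [hu1 t]) _).ne' (by linarith [hx1 t]), Real.log_pow]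
      refine Real.exp_le_exp.2 ?_
      have := hlu t
      have := hlx t
      have : (0 : ℝ) ≤ b := Nat.cast_nonneg _
      have : (0 : ℝ) ≤ t := Nat.cast_nonneg _
      nlinarith)
    (by
      filter_upwards [hφ₀] with t ht
      have hA : ∀ k, 1 ≤ ∏ o, place S hS o (u t k) := fun k =>
        (places_place S hS).2.2 _ (hu t k)
      rw [prod_congr rfl fun o _ => gkey_local (place S hS o) hb (hδ (φ₀ o)) (hδD (φ₀ o))
        (hY (φ₀ o)) (hu t) (x t), prod_mul_distrib, prod_mul_distrib, prod_pow]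
      have h2 := hlt t
      rw [ht] at h2
      set A := (∏ k, ∏ o, place S hS o (u t k)) ^ (b * Fintype.card (Idx σ a b)) with hAdef
      have hA1 : 1 ≤ A := one_le_pow₀ (Finset.one_le_prod fun k _ => hA k)
      have h0 : ∏ o, ∏ I : Idx σ a b, ∏ k, place S hS o (u t k) ^ I.2.1 k ≤ A := by
        rw [hAdef, Finset.prod_comm, pow_mul, ← card_univ, ← prod_const]
        refine prod_le_prod (fun I _ => prod_nonneg fun o _ => prod_nonneg fun k _ =>
          pow_nonneg ((place S hS o).nonneg _) _) fun I _ => ?_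
        rw [Finset.prod_comm, ← prod_pow]
        refine prod_le_prod (fun k _ => prod_nonneg fun o _ =>
          pow_nonneg ((place S hS o).nonneg _) _) fun k _ => ?_
        rw [prod_pow]
        refine pow_le_pow_right₀ (hA k) ?_
        have h2 := Finsupp.le_degree k I.2.1
        rw [mem_mon.1 I.2.2] at h2
        omega
      set P := ∏ o, ∏ r, place S hS o ((∑ i, eval (u t) (Y (φ₀ o) r i) * x t i : ℤ) : ℚ) /
          ∏ k, place S hS o (u t k) ^ γ (φ₀ o) r k with hP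
      have hP0 : 0 ≤ P := prod_nonneg fun o _ => prod_nonneg fun r _ =>
        div_nonneg ((place S hS o).nonneg _) (prod_nonneg fun k _ =>
          pow_nonneg ((place S hS o).nonneg _) _)
      set H := Real.log ‖u t‖ + Real.log ‖x t‖ with hH
      have hH0 : 0 ≤ H := add_nonneg (hlu t) (hlx t)
      set B := #(mon σ (b - D)) with hB
      have hB1 : 1 ≤ B := card_mon_pos _
      have h4 : ∏ o, ∏ r, place S hS o (x t r) ^ (#(mon σ (b - a r)) - B) ≤
          Real.exp (ε / 2 * H) ^ B := by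
        rw [Finset.prod_comm]
        have h3 : ∀ r, ∏ o, place S hS o (x t r) ^ (#(mon σ (b - a r)) - B) ≤
            Real.exp (ε / (2 * Fintype.card ι) * B * H) := fun r => by
          rw [prod_pow]
          refine (pow_le_pow_left₀ (prod_nonneg fun o _ => (place S hS o).nonneg _)
            ((prod_place_le S hS _).trans (abs_le_norm (x t) r)) _).trans ?_
          rw [← Real.exp_log (pow_pos (show 0 < ‖x t‖ by linarith [hx1 t]) _), Real.log_pow]
          refine Real.exp_le_exp.2 (mul_le_mul ?_ (by linarith [hlu t]) (hlx t) (by positivity))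
          have h5 := hrat (a r) (hD r)
          rcases le_total #(mon σ (b - a r)) B with h6 | h6
          · rw [Nat.sub_eq_zero_of_le h6, Nat.cast_zero]; positivity
          · rw [Nat.cast_sub h6]; linarith
        refine (prod_le_prod (fun r _ => prod_nonneg fun o _ =>
          pow_nonneg ((place S hS o).nonneg _) _) fun r _ => h3 r).trans (le_of_eq ?_)
        rw [prod_const, card_univ, ← Real.exp_nat_mul, ← Real.exp_nat_mul]
        congr 1
        field_simp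
      have h5 : A * (P * Real.exp (ε / 2 * H)) ≤ Real.exp (-(t + ε / 2 * H)) := by
        have h6 : Real.exp (t + ε * H) = Real.exp (t + ε / 2 * H) * Real.exp (ε / 2 * H) := by
          rw [← Real.exp_add]; congr 1; ring
        rw [Real.exp_neg, ← one_div, le_div_iff₀ (Real.exp_pos _)]
        rw [h6] at h2
        linarith
      have h7 : Real.exp (-(t + ε / 2 * H)) ≤ 1 :=
        Real.exp_le_one_iff.2 (by have : (0 : ℝ) ≤ t := Nat.cast_nonneg _; nlinarith)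
      have hY0 : 0 ≤ P * Real.exp (ε / 2 * H) := by positivity
      have h8 : P * Real.exp (ε / 2 * H) ≤ 1 :=
        (le_mul_of_one_le_left hY0 hA1).trans (h5.trans h7)
      calc _ ≤ A * (P ^ B * Real.exp (ε / 2 * H) ^ B) :=
            mul_le_mul h0 (mul_le_mul_of_nonneg_left h4 (by positivity))
              (mul_nonneg (by positivity) (prod_nonneg fun o _ => prod_nonneg fun r _ =>
                pow_nonneg ((place S hS o).nonneg _) _)) (by linarith)
        _ = A * (P * Real.exp (ε / 2 * H)) ^ B := by rw [mul_pow]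
        _ ≤ A * (P * Real.exp (ε / 2 * H)) :=
            mul_le_mul_of_nonneg_left (pow_le_of_le_one hY0 h8 (by omega)) (by linarith)
        _ ≤ _ := h5.trans (Real.exp_le_exp.2 ?_)
      have h9 := min_le_left 1 (ε / 2)
      have h10 := min_le_right 1 (ε / 2)
      have : (0 : ℝ) ≤ t := Nat.cast_nonneg _
      nlinarith)
  obtain ⟨t, ht⟩ := hw0.exists
  exact hw t w hwW ht

end Pool.Agent.Lib.MP_8865d3_nt
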