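import Pool.Agent.Lib.MP_8865d3_nt.Anal

/-! The local inequality at one place. -/

namespace Pool.Agent.Lib.MP_8865d3_nt

open Finset Matrix MvPolynomial

section Low

variable {τ : Type} {W : τ → ℝ}

theorem Low.mono {ν ν' : ℝ} {P : MvPolynomial τ ℤ} (h : Low W ν P) (h' : ν' ≤ ν) : Low W ν' P :=
  fun μ hμ => h'.trans (h μ hμ)

theorem Low.mul {ν ν' : ℝ} {P Q : MvPolynomial τ ℤ} (h : Low W ν P) (h' : Low W ν' Q) :
    Low W (ν + ν') (P * Q) := fun μ hμ => by
  classical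
  obtain ⟨α, hα, β, hβ, rfl⟩ := mem_add.1 (support_mul P Q hμ)
  rw [map_add]
  exact add_le_add (h α hα) (h' β hβ)

theorem low_one : Low W 0 (1 : MvPolynomial τ ℤ) := fun μ hμ => by
  classical
  rw [mem_support_iff, coeff_one] at hμ
  rw [← not_not.1 fun h => hμ (if_neg h), map_zero]

theorem low_prod {α : Type} (s : Finset α) {ν : α → ℝ} {P : α → MvPolynomial τ ℤ}
    (h : ∀ j ∈ s, Low W (ν j) (P j)) : Low W (∑ j ∈ s, ν j) (∏ j ∈ s, P j) := by
  classical
  induction s using Finset.induction_on with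
  | empty => simpa using low_one
  | insert j s hj ih =>
    rw [sum_insert hj, prod_insert hj]
    exact (h j (mem_insert_self _ _)).mul (ih fun i hi => h i (mem_insert_of_mem hi))

theorem Low.pow {ν : ℝ} {P : MvPolynomial τ ℤ} (h : Low W ν P) (n : ℕ) :
    Low W (n * ν) (P ^ n) := by
  simpa using low_prod (range n) (ν := fun _ => ν) (P := fun _ => P) fun _ _ => h

theorem low_sum {α : Type} (s : Finset α) {ν : ℝ} {P : α → MvPolynomial τ ℤ}
    (h : ∀ j ∈ s, Low W ν (P j)) : Low W ν (∑ j ∈ s, P j) := fun μ hμ => by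
  classical
  obtain ⟨j, hj, h1⟩ := mem_biUnion.1 (support_sum hμ)
  exact h j hj μ h1

theorem low_X (k : τ) : Low W (W k) (X k : MvPolynomial τ ℤ) := fun μ hμ => by
  classical
  rw [support_X, mem_singleton] at hμ
  simp [hμ, Finsupp.weight_single]

/-- The sum of the absolute values of the coefficients. -/
noncomputable def len (P : MvPolynomial τ ℤ) : ℝ := ∑ κ ∈ P.support, |((coeff κ P : ℤ) : ℝ)|

theorem len_nonneg (P : MvPolynomial τ ℤ) : 0 ≤ len P := sum_nonneg fun _ _ => abs_nonneg _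

theorem exp_neg_weight [Fintype τ] (v : AbsoluteValue ℚ ℝ) {y : τ → ℚ} (hy : ∀ k, y k ≠ 0)
    (μ : τ →₀ ℕ) : Real.exp (-Finsupp.weight (fun k => -Real.log (v (y k))) μ) =
      ∏ k, v (y k) ^ μ k := by
  rw [Finsupp.weight_eq_sum, ← sum_neg_distrib, Real.exp_sum]
  refine prod_congr rfl fun t _ => ?_
  rw [nsmul_eq_mul, mul_neg, neg_neg, Real.exp_nat_mul, Real.exp_log (v.pos (hy t))]

theorem low_eval [Fintype τ] (v : AbsoluteValue ℚ ℝ) (hv : ∀ z : ℤ, v z ≤ |(z : ℝ)|) {y : τ → ℚ}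
    (hy : ∀ k, y k ≠ 0) {ν : ℝ} {P : MvPolynomial τ ℤ}
    (h : Low (fun k => -Real.log (v (y k))) ν P) {C : ℝ} (hC : len P ≤ C)
    (h0 : aeval y P ≠ 0) : ν ≤ Real.log C - Real.log (v (aeval y P)) := by
  have h1 : v (aeval y P) ≤ C * Real.exp (-ν) := by
    refine le_trans ?_ (mul_le_mul_of_nonneg_right hC (Real.exp_pos _).le)
    rw [aeval_eq_sum, len, sum_mul]
    refine (v.sum_le _ _).trans (sum_le_sum fun κ hκ => ?_)
    rw [map_mul]
    refine mul_le_mul (hv _) ?_ (v.nonneg _) (abs_nonneg _)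
    rw [map_prod]
    simp only [map_pow]
    rw [← exp_neg_weight v hy]
    exact Real.exp_le_exp.2 (neg_le_neg (h κ hκ))
  have h2 := v.pos h0
  have h3 : 0 < C := pos_of_mul_pos_right' (h2.trans_le h1)
  have h4 := Real.log_le_log h2 h1
  rw [Real.log_mul h3.ne' (Real.exp_pos _).ne', Real.log_exp] at h4
  linarith
where pos_of_mul_pos_right' {C e : ℝ} (h : 0 < C * Real.exp e) : 0 < C :=
  pos_of_mul_pos_left h (Real.exp_pos _).le

end Low

variable {σ ι : Type}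

theorem weight_inl {M : Type} [AddCommMonoid M] (w : σ ⊕ ι → M) (μ : σ →₀ ℕ) :
    Finsupp.weight w (μ.mapDomain Sum.inl) = Finsupp.weight (w ∘ Sum.inl) μ := by
  rw [Finsupp.weight_apply, Finsupp.weight_apply,
    Finsupp.sum_mapDomain_index (by simp) (by simp [add_smul])]
  rfl

theorem Low.rename {W : σ ⊕ ι → ℝ} {ν : ℝ} {P : MvPolynomial σ ℤ} (h : Low (W ∘ Sum.inl) ν P) :
    Low W ν (rename Sum.inl P) := fun μ hμ => by
  obtain ⟨κ, rfl, hκ⟩ := coeff_rename_ne_zero _ _ _ (mem_support_iff.1 hμ)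
  rw [weight_inl]
  exact h κ (mem_support_iff.2 hκ)

variable [Fintype σ] [Fintype ι]

theorem xhom_iff {P : MvPolynomial (σ ⊕ ι) ℤ} {β : ℕ} :
    XHom P β ↔ P.IsWeightedHomogeneous (Sum.elim (fun _ => 0) fun _ => 1) β := by
  refine forall_congr' fun μ => ?_
  rw [mem_support_iff, Finsupp.weight_eq_sum, Fintype.sum_sum_type]
  simp

theorem xhom_rename (P : MvPolynomial σ ℤ) : XHom (rename Sum.inl P : MvPolynomial (σ ⊕ ι) ℤ) 0 := by
  rw [xhom_iff]
  intro μ hμ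
  obtain ⟨κ, rfl, -⟩ := coeff_rename_ne_zero _ _ _ hμ
  rw [weight_inl, Finsupp.weight_eq_sum]
  simp

/-- The fibre-linear form with coefficients `l`. -/
noncomputable def lin (l : ι → MvPolynomial σ ℤ) : MvPolynomial (σ ⊕ ι) ℤ :=
  ∑ i, rename Sum.inl (l i) * X (Sum.inr i)

theorem xhom_lin (l : ι → MvPolynomial σ ℤ) : XHom (lin l) 1 :=
  xhom_iff.2 (IsWeightedHomogeneous.sum _ _ _ fun i _ =>
    (xhom_iff.1 (xhom_rename (l i))).mul (xhom_iff.1 (xhom_X i)))

omit [Fintype σ] in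
theorem aeval_lin {R : Type} [CommRing R] (l : ι → MvPolynomial σ ℤ) (u : σ → R) (x : ι → R) :
    aeval (Sum.elim u x) (lin l) = ∑ i, aeval u (l i) * x i := by
  simp only [lin, map_sum, map_mul, aeval_rename, aeval_X]
  rfl

theorem low_shift {W : σ ⊕ ι → ℝ} (τ : ℝ) {P : MvPolynomial (σ ⊕ ι) ℤ} {β : ℕ} (hP : XHom P β) :
    ∀ μ ∈ P.support, Finsupp.weight (Sum.elim (W ∘ Sum.inl) fun r => W (Sum.inr r) + τ) μ =
      Finsupp.weight W μ + β * τ := fun μ hμ => by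
  simp only [Finsupp.weight_eq_sum, Fintype.sum_sum_type, Sum.elim_inl, Sum.elim_inr, nsmul_eq_mul,
    mul_add, sum_add_distrib, ← sum_mul, ← hP μ hμ, Function.comp]
  push_cast
  ring

theorem Low.shift {W : σ ⊕ ι → ℝ} (τ : ℝ) {P : MvPolynomial (σ ⊕ ι) ℤ} {β : ℕ} (hP : XHom P β)
    {ν : ℝ} (h : Low W ν P) :
    Low (Sum.elim (W ∘ Sum.inl) fun r => W (Sum.inr r) + τ) (ν + β * τ) P := fun μ hμ => by
  rw [low_shift τ hP μ hμ]
  linarith [h μ hμ]

theorem Att.shift {W : σ ⊕ ι → ℝ} (τ : ℝ) {P : MvPolynomial (σ ⊕ ι) ℤ} {β : ℕ} (hP : XHom P β)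
    {ν : ℝ} (h : Att W ν P) :
    Att (Sum.elim (W ∘ Sum.inl) fun r => W (Sum.inr r) + τ) (ν + β * τ) P := by
  obtain ⟨μ, h1, h2⟩ := h.2
  exact ⟨h.1.shift τ hP, μ, h1, by rw [low_shift τ hP μ h1, h2]⟩

variable [DecidableEq ι]

theorem xhom_hat (G : Matrix ι ι (MvPolynomial σ ℤ)) {P : MvPolynomial (σ ⊕ ι) ℤ} {β : ℕ}
    (hP : XHom P β) : XHom (hat G P) β := by
  rw [xhom_iff, hat, aeval_eq_sum]
  refine IsWeightedHomogeneous.sum _ _ _ fun μ hμ => ?_
  have h1 := IsWeightedHomogeneous.prod (w := (Sum.elim (fun _ => 0) fun _ => 1 : σ ⊕ ι → ℕ)) univ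
    (fun k => (Sum.elim (fun t => X (Sum.inl t)) (fun i => ∑ r, rename Sum.inl (G.adjugate i r) *
      X (Sum.inr r)) k : MvPolynomial (σ ⊕ ι) ℤ) ^ μ k)
    (fun k => μ k • (Sum.elim (fun _ => 0) fun _ => 1 : σ ⊕ ι → ℕ) k) (by
      rintro (t | i) -
      · exact (isWeightedHomogeneous_X ℤ _ _).pow _
      · exact (xhom_iff.1 (xhom_lin (G.adjugate i))).pow _)
  have h2 := h1.C_mul (coeff μ P)
  rw [Fintype.sum_sum_type] at h2
  simpa [hP μ hμ] using h2

omit [Fintype σ] in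
theorem hat_rename (G : Matrix ι ι (MvPolynomial σ ℤ)) (P : MvPolynomial σ ℤ) :
    hat G (rename Sum.inl P) = rename Sum.inl P := by
  rw [hat, aeval_rename, rename_eq_aeval]
  rfl

omit [Fintype σ] in
theorem hat_lin (G : Matrix ι ι (MvPolynomial σ ℤ)) (l : ι → MvPolynomial σ ℤ) :
    hat G (lin l) = lin fun r => (G.updateRow r l).det := by
  have h1 : ∀ r, (G.updateRow r l).det = ∑ i, l i * G.adjugate i r := fun r => by
    rw [← cramer_transpose_apply, cramer_eq_adjugate_mulVec, ← adjugate_transpose]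
    simp [mulVec, dotProduct, mul_comm]
  have h2 : ∀ i, hat G (rename Sum.inl (l i) * X (Sum.inr i)) =
      rename Sum.inl (l i) * ∑ r, rename Sum.inl (G.adjugate i r) * X (Sum.inr r) := fun i => by
    rw [hat, map_mul, aeval_X, ← hat, hat_rename]
    rfl
  calc hat G (lin l) = ∑ i, hat G (rename Sum.inl (l i) * X (Sum.inr i)) := by
        simp only [hat, lin, map_sum]
    _ = _ := by
        simp only [h2, h1, lin, map_sum, map_mul, mul_sum, sum_mul, mul_assoc]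
        exact sum_comm

omit [Fintype σ] in
theorem lin_single (i : ι) : lin (Pi.single i 1 : ι → MvPolynomial σ ℤ) = X (Sum.inr i) := by
  rw [lin, sum_eq_single i (fun j _ hj => by simp [Pi.single_eq_of_ne hj]) (by simp)]
  simp

theorem local_ineq {J M : Type} [Fintype J] [Fintype M] [Nonempty M] [Nonempty ι]
    (v : AbsoluteValue ℚ ℝ) (hv : ∀ z : ℤ, v z ≤ |(z : ℝ)|)
    (L : J ⊕ ι → ι → MvPolynomial σ ℤ) (hL : ∀ i, L (Sum.inr i) = Pi.single i 1)
    (h : M → MvPolynomial σ ℤ) (e : M → J → ℕ) {f : MvPolynomial (σ ⊕ ι) ℤ}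
    (hf : InMult (fun m => rename Sum.inl (h m) * ∏ j, lin (L (Sum.inl j)) ^ e m j) f)
    {β : ℕ} (hβ : XHom f β) {u : σ → ℚ} {x : ι → ℚ} (hu0 : ∀ t, u t ≠ 0) (hu : ∀ t, v (u t) ≤ 1)
    {s : σ} (hs : v (u s) = 1) (hx : ∀ i, v (x i) ≤ 1) {i₁ : ι} (hi₁ : v (x i₁) = 1)
    (hl0 : ∀ k, aeval (Sum.elim u x) (lin (L k)) ≠ 0) (hh0 : ∀ m, aeval u (h m) ≠ 0)
    (hf0 : aeval (Sum.elim u x) f ≠ 0) {E C : ℝ} (hE : 1 ≤ E) (hC : 1 ≤ C)
    (hEh : ∀ m, ∀ κ ∈ (h m).support, ∏ t, v (u t) ^ κ t ≤ E * v (aeval u (h m)))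
    (hEd : ∀ φ : ι → J ⊕ ι, ∀ κ ∈ (Matrix.of fun r => L (φ r)).det.support,
      ∏ t, v (u t) ^ κ t ≤ E * v (aeval u (Matrix.of fun r => L (φ r)).det))
    (φ : ι → J ⊕ ι) (hφ0 : aeval u (Matrix.of fun r => L (φ r)).det ≠ 0)
    (hmin : ∀ φ' : ι → J ⊕ ι, (∏ r, v (aeval (Sum.elim u x) (lin (L (φ r))))) *
      v (aeval u (Matrix.of fun r => L (φ' r)).det) ≤
      (∏ r, v (aeval (Sum.elim u x) (lin (L (φ' r))))) *
        v (aeval u (Matrix.of fun r => L (φ r)).det))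
    (hC1 : len (rename Sum.inl (Matrix.of fun r => L (φ r)).det : MvPolynomial (σ ⊕ ι) ℤ) ≤ C)
    (hC2 : ∀ i, len (hat (Matrix.of fun r => L (φ r)) (X (Sum.inr i))) ≤ C)
    (hC3 : len (hat (Matrix.of fun r => L (φ r)) f) ≤ C) {Λ : ℝ}
    (hΛ : ∀ m, Λ ≤ -Real.log (v (aeval (Sum.elim u x)
      (rename Sum.inl (h m) * ∏ j, lin (L (Sum.inl j)) ^ e m j)))) :
    Λ + Real.log (v (aeval (Sum.elim u x) f)) ≤ -∑ t, Real.log (v (u t)) -
      Real.log ((∏ r, v (aeval (Sum.elim u x) (lin (L (φ r))))) /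
        v (aeval u (Matrix.of fun r => L (φ r)).det)) +
      (3 + 3 * ∑ m, ∑ j, (e m j : ℝ) + 2 * β + Fintype.card ι) * (Real.log C + Real.log E) := by
  classical
  set G : Matrix ι ι (MvPolynomial σ ℤ) := Matrix.of fun r => L (φ r) with hG
  set z : ι → ℚ := G.map (aeval u) *ᵥ x with hz
  have hzr : ∀ r, z r = aeval (Sum.elim u x) (lin (L (φ r))) := fun r => by
    rw [aeval_lin]; rfl
  set y : σ ⊕ ι → ℚ := Sum.elim u z with hy
  have hy0 : ∀ k, y k ≠ 0 := by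
    rintro (t | r)
    exacts [hu0 t, fun h => hl0 _ ((hzr r).symm.trans h)]
  set W : σ ⊕ ι → ℝ := fun k => -Real.log (v (y k)) with hW
  set lΔ := Real.log (v (aeval u G.det)) with hlΔ
  have hΔ0 := v.pos hφ0
  have hlE := Real.log_nonneg hE
  have hlC := Real.log_nonneg hC
  have hbase : ∀ (P : MvPolynomial σ ℤ) (B : ℝ), (∀ κ ∈ P.support, ∏ t, v (u t) ^ κ t ≤ B) →
      Low W (-Real.log B) (rename Sum.inl P) := fun P B hP => Low.rename fun κ hκ => by
    have h1 := hP κ hκ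
    rw [← exp_neg_weight v hu0] at h1
    have h2 := Real.log_le_log (Real.exp_pos _) h1
    rw [Real.log_exp] at h2
    exact neg_le.1 h2
  have hlin : ∀ k, Low W (-(Real.log E + Real.log (v (aeval (Sum.elim u x) (lin (L k)))) + lΔ))
      (hat G (lin (L k))) := fun k => by
    rw [hat_lin]
    refine low_sum _ fun r _ => ?_
    have h1 : G.updateRow r (L k) = Matrix.of fun r' => L (Function.update φ r k r') := by
      ext r' i : 2
      by_cases h : r' = r
      · simp [h]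
      · simp [h, hG]
    have h2 := hmin (Function.update φ r k)
    have h0 : ∏ r' ∈ univ.erase r, v (aeval (Sum.elim u x) (lin (L (Function.update φ r k r')))) =
        ∏ r' ∈ univ.erase r, v (aeval (Sum.elim u x) (lin (L (φ r')))) :=
      prod_congr rfl fun r' hr' => by rw [Function.update_of_ne (mem_erase.1 hr').1]
    rw [← h1, ← mul_prod_erase univ _ (mem_univ r), ← mul_prod_erase univ _ (mem_univ r),
      Function.update_self, h0, mul_right_comm, mul_right_comm _ _ (v _),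
      mul_le_mul_iff_left₀ (prod_pos fun r' _ => v.pos (hl0 _)), ← hzr] at h2
    have hz0 : 0 < v (z r) := v.pos (hy0 (Sum.inr r))
    have h3 := (hbase (G.updateRow r (L k)).det (E * (v (aeval (Sum.elim u x) (lin (L k))) *
      v (aeval u G.det) / v (z r))) fun κ hκ => by
        rw [h1] at hκ
        refine (hEd _ κ hκ).trans (mul_le_mul_of_nonneg_left ?_ (by linarith))
        rw [← h1, le_div_iff₀' hz0]
        exact h2).mul (low_X (Sum.inr r))
    refine h3.mono (le_of_eq ?_)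
    rw [Real.log_mul (by linarith) (div_pos (mul_pos (v.pos (hl0 k)) hΔ0) hz0).ne',
      Real.log_div (mul_pos (v.pos (hl0 k)) hΔ0).ne' hz0.ne',
      Real.log_mul (v.pos (hl0 k)).ne' hΔ0.ne']
    simp only [hW, hy, Sum.elim_inr]
    ring
  have hev : ∀ {P : MvPolynomial (σ ⊕ ι) ℤ} {b : ℕ}, XHom P b → aeval (Sum.elim u x) P ≠ 0 →
      aeval y (hat G P) ≠ 0 ∧ Real.log (v (aeval y (hat G P))) =
        b * lΔ + Real.log (v (aeval (Sum.elim u x) P)) := fun hP h0 => by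
    rw [hy, hz, hat_eval G hP]
    refine ⟨mul_ne_zero (pow_ne_zero _ hφ0) h0, ?_⟩
    rw [map_mul, map_pow, Real.log_mul (pow_pos hΔ0 _).ne' (v.pos h0).ne', Real.log_pow]
  have hne : ∀ {P : MvPolynomial (σ ⊕ ι) ℤ}, aeval y P ≠ 0 → P ≠ 0 := fun h h0 =>
    h (by rw [h0, map_zero])
  have hyΔ : aeval y (rename Sum.inl G.det : MvPolynomial (σ ⊕ ι) ℤ) = aeval u G.det := by
    rw [aeval_rename]; rfl
  obtain ⟨νΔ, hΔ⟩ := exists_att W (hne (hyΔ ▸ hφ0))
  have hΔ1 : νΔ ≤ Real.log C - lΔ := by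
    have := low_eval v hv hy0 hΔ.1 hC1 (hyΔ ▸ hφ0)
    rwa [hyΔ] at this
  have hΔ2 : -(Real.log E + lΔ) ≤ νΔ := by
    obtain ⟨μ, h1, h2⟩ := hΔ.2
    have := hbase _ _ (hEd φ) μ h1
    rwa [h2, Real.log_mul (by linarith) hΔ0.ne'] at this
  have hX : ∀ i, lin (L (Sum.inr i)) = X (Sum.inr i) := fun i => by rw [hL, lin_single]
  have hx0 : ∀ i, aeval (Sum.elim u x) (X (Sum.inr i) : MvPolynomial (σ ⊕ ι) ℤ) ≠ 0 :=
    fun i => hX i ▸ hl0 _
  choose ν hν using fun i => exists_att W (hne (hev (xhom_X i) (hx0 i)).1)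
  obtain ⟨i₀, -, hi₀⟩ := exists_min_image univ ν univ_nonempty
  have hν1 : ν i₀ ≤ Real.log C - lΔ := by
    have h1 := low_eval v hv hy0 (hν i₁).1 (hC2 i₁) (hev (xhom_X i₁) (hx0 i₁)).1
    rw [(hev (xhom_X i₁) (hx0 i₁)).2, aeval_X, Sum.elim_inr, hi₁] at h1
    have := hi₀ i₁ (mem_univ _)
    simp only [Nat.cast_one, one_mul, Real.log_one, add_zero] at h1
    linarith
  have hν2 : -(Real.log E + lΔ) ≤ ν i₀ := by
    obtain ⟨μ, h1, h2⟩ := (hν i₀).2
    have h3 := hlin (Sum.inr i₀)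
    rw [hX] at h3
    have h4 := h3 μ h1
    rw [h2, aeval_X, Sum.elim_inr] at h4
    have := Real.log_nonpos (v.nonneg _) (hx i₀)
    linarith
  obtain ⟨νf, hνf⟩ := exists_att W (hne (hev hβ hf0).1)
  have hνf1 := low_eval v hv hy0 hνf.1 hC3 (hev hβ hf0).1
  rw [(hev hβ hf0).2] at hνf1
  set η := Real.log C + Real.log E with hη
  set B : ℝ := ∑ m, ∑ j, (e m j : ℝ) with hB
  have hGm : ∀ m, XHom (rename Sum.inl (h m) * ∏ j, lin (L (Sum.inl j)) ^ e m j) (∑ j, e m j) :=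
    fun m => xhom_iff.2 (by
      simpa using (xhom_iff.1 (xhom_rename (h m))).mul (IsWeightedHomogeneous.prod univ _
        (fun j => e m j • 1) fun j _ => (xhom_iff.1 (xhom_lin (L (Sum.inl j)))).pow (e m j)))
  have hG0 : ∀ m, aeval (Sum.elim u x) (rename Sum.inl (h m) *
      ∏ j, lin (L (Sum.inl j)) ^ e m j) ≠ 0 := fun m => by
    rw [map_mul, map_prod, aeval_rename]
    exact mul_ne_zero (hh0 m) (prod_ne_zero_iff.2 fun j _ => by
      rw [map_pow]; exact pow_ne_zero _ (hl0 _))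
  obtain ⟨m₀⟩ := ‹Nonempty M›
  have key := val_crit hf G hβ hGm (Sum.elim (W ∘ Sum.inl) fun r => W (Sum.inr r) + (νΔ - ν i₀))
    (fun t => neg_nonneg.2 (Real.log_nonpos (v.nonneg _) (hu t))) (s := s)
    (by simp [hW, hy, hs]) (νΔ := νΔ) (νI := Λ - (1 + 3 * B) * η)
    (by simpa using hΔ.shift (νΔ - ν i₀) (xhom_rename _)) (hνf.shift _ (xhom_hat G hβ))
    (fun i => ((hν i).1.shift _ (xhom_hat G (xhom_X i))).mono (by
      have := hi₀ i (mem_univ _)
      push_cast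
      linarith)) (i₀ := i₀)
    (by simpa using (hν i₀).shift (νΔ - ν i₀) (xhom_hat G (xhom_X i₀)))
    (fun m => by
      have h1 := (hbase _ _ (hEh m)).mul (low_prod univ fun j _ => (hlin (Sum.inl j)).pow (e m j))
      have h2 : hat G (rename Sum.inl (h m) * ∏ j, lin (L (Sum.inl j)) ^ e m j) =
          rename Sum.inl (h m) * ∏ j, hat G (lin (L (Sum.inl j))) ^ e m j := by
        rw [hat, map_mul, ← hat, hat_rename]
        simp only [map_prod, map_pow]
        rfl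
      rw [← h2] at h1
      refine (h1.shift _ (xhom_hat G (hGm m))).mono ?_
      have h3 := hΛ m
      have h8 : Sum.elim u x ∘ Sum.inl = u := rfl
      rw [map_mul, map_prod, aeval_rename, h8, map_mul, map_prod, Real.log_mul (v.pos (hh0 m)).ne'
        (prod_pos fun j _ => v.pos (by rw [map_pow]; exact pow_ne_zero _ (hl0 _))).ne',
        Real.log_prod fun j _ => (v.pos (by rw [map_pow]; exact pow_ne_zero _ (hl0 _))).ne'] at h3
      simp only [map_pow, Real.log_pow] at h3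
      rw [Real.log_mul (by linarith) (v.pos (hh0 m)).ne']
      simp only [mul_neg, mul_add, sum_neg_distrib, sum_add_distrib, ← sum_mul]
      push_cast
      have h4 : ∑ j, (e m j : ℝ) ≤ B := single_le_sum (f := fun m => ∑ j, (e m j : ℝ))
        (fun _ _ => by positivity) (mem_univ m)
      have h5 : 0 ≤ ∑ j, (e m j : ℝ) := by positivity
      set b := ∑ j, (e m j : ℝ)
      have h6 := mul_le_mul_of_nonneg_left hν1 h5
      have h7 := mul_le_mul_of_nonneg_right h4 (add_nonneg hlC hlE)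
      nlinarith [mul_nonneg h5 hlC, mul_nonneg h5 hlE])
    (m₀ := m₀) (hne (hev (hGm m₀) (hG0 m₀)).1)
  rw [Real.log_div (prod_pos fun r _ => v.pos (hl0 _)).ne' hΔ0.ne',
    Real.log_prod fun r _ => (v.pos (hl0 _)).ne']
  simp only [Fintype.sum_sum_type, Sum.elim_inl, Sum.elim_inr, Function.comp, hW, hy, hzr,
    sum_add_distrib, sum_neg_distrib, sum_const, card_univ, nsmul_eq_mul] at key
  have h1 : (0 : ℝ) ≤ β := Nat.cast_nonneg _
  have h2 : (0 : ℝ) ≤ Fintype.card ι := Nat.cast_nonneg _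
  have h3 := mul_le_mul_of_nonneg_left hν2 h1
  have h4 := mul_le_mul_of_nonneg_left (show νΔ - ν i₀ ≤ η by linarith) h2
  nlinarith [mul_nonneg h1 hlC, mul_nonneg h1 hlE]

end Pool.Agent.Lib.MP_8865d3_nt
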