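import Pool.Agent.Lib.MP_8865d3_nt.Q1Jet
import Pool.Agent.Lib.MP_651af7_nt.P1Aux

/-! Construction of the auxiliary section and its local bound. -/

namespace Pool.Agent.Lib.MP_8865d3_nt.Gm

open Finset Pool.Agent.Lib.MP_651af7_nt.Vj.P1

section Block

variable {R : Type} [CommRing R] {na : Prop}

lemma q1aux_expand {T T' U : Type} [Fintype T] [Fintype T'] [Fintype U] (h : T × T' → R)
    (ρ : T → U → R) (f : U → R) (e : T' → R) :
    ∑ τ, h τ * ((∑ μ, ρ τ.1 μ * f μ) * e τ.2) =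
      ∑ μ : U × T', (∑ t, h (t, μ.2) * ρ t μ.1) * (f μ.1 * e μ.2) := by
  simp only [Fintype.sum_prod_type, Finset.mul_sum, Finset.sum_mul, mul_assoc]
  rw [Finset.sum_comm]
  conv_rhs => rw [Finset.sum_comm]
  exact Finset.sum_congr rfl fun _ _ => Finset.sum_comm

/-- The bound for one block. -/
lemma q1aux_block (S : SN R na) {a b : ℤ} {c : ℝ} {k w w' D : ℕ} {T' : Type} [Fintype T']
    (e : T' → ℕ)
    (hjet : ∀ (β z τ : R) (r : ℝ) (h : MM w × T' → R) (H : ℝ), 0 ≤ r → E na c * r ≤ 1 →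
      z ^ 2 = β + (a : R) * β ^ 3 + (b : R) * β ^ 4 → S.N β ≤ r ^ 2 → S.N z ≤ r → S.N τ ≤ r →
      0 ≤ H → (∀ μ, S.N (h μ) ≤ H) →
      (∀ n : Fin k × Fin k, ∑ μ, h μ * ((jet a b k w μ.1 n.1 : R) * ((e μ.2).choose n.2 : R)) = 0) →
      S.N (∑ μ, h μ * (β ^ (w - μ.1.1 - 2 * μ.1.2) * z ^ (μ.1.2 : ℕ) * (1 + τ) ^ e μ.2)) ≤
        E na (3 * Fintype.card (MM w × T') * 2 ^ w') * H * (E na c * r) ^ k)
    {T : Type} [Fintype T] (q : T → MM D → MM w → ℤ) {A : ℝ}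
    (hq : ∀ t ν μ, q t ν μ ≠ 0 → (ν.1 : ℕ) + 2 * ν.2 ≤ D ∧ (μ.1 : ℕ) + 2 * μ.2 ≤ w)
    (hA : ∀ t, ∑ ν, ∑ μ, |(q t ν μ : ℝ)| ≤ A) (hA1 : 1 ≤ A) (x y u v s : R) (p : T' → R)
    (M M0 W : ℝ) {r : ℝ} (hxy : y ^ 2 = fc (a : R) b x) (hM : 1 ≤ M)
    (hx : S.N x ≤ M) (hy : S.N y ≤ M ^ 2) (hM0 : 1 ≤ M0)
    (hu : S.N u ≤ M0) (hv : S.N v ≤ M0 ^ 2) (hW0 : 0 ≤ W) (hW : ∀ t, S.N (s ^ e t * p t) ≤ W)
    (hr : 0 ≤ r)
    (hβ : E na c * r < 1 → (∃ β : R, x * β = 1 ∧ S.N β ≤ r ^ 2 ∧ S.N (y * β ^ 2) ≤ r) ∧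
      S.N (s - 1) ≤ r ∧ ∀ t, S.N (p t) ≤ W)
    (h : T × T' → R) {H : ℝ} (hH : 0 ≤ H) (hh : ∀ τ, S.N (h τ) ≤ H)
    (hJ : ∀ n : Fin k × Fin k, ∑ τ, h τ * ((∑ ν,
      ((∑ μ, q τ.1 ν μ * jet a b k w μ n.1 : ℤ) : R) * mon u v ν) *
        (p τ.2 * ((e τ.2).choose n.2 : R))) = 0) :
    S.N (∑ τ, h τ * ((∑ ν, ∑ μ, (q τ.1 ν μ : R) * mon u v ν * mon x y μ) *
        (s ^ e τ.2 * p τ.2))) ≤
      E na (3 * Fintype.card (MM w × T') * 2 ^ w' * Fintype.card T * A * c ^ k) *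
        M0 ^ D * (M ^ w * W * r ^ k) * H := by
  classical
  have hP : 0 ≤ M := zero_le_one.trans hM
  have hP0 : 0 ≤ M0 := zero_le_one.trans hM0
  have hEA : 0 ≤ E na A := E_nonneg (zero_le_one.trans hA1)
  set ρ : T → MM w → R := fun t μ => ∑ ν, (q t ν μ : R) * mon u v ν with hρ
  set g : MM w × T' → R := fun μ => ∑ t, h (t, μ.2) * ρ t μ.1 with hg
  have hρn : ∀ t μ, S.N (ρ t μ) ≤ E na A * M0 ^ D := fun t μ => by
    have h0 : 0 ≤ M0 ^ D := pow_nonneg hP0 _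
    refine (S.int_sum_le univ _ h0 fun ν _ hν =>
      p1aux_mon S hM0 hu hv (hq t ν μ hν).1).trans
      (mul_le_mul_of_nonneg_right (E_mono (le_trans (sum_le_sum fun ν _ => ?_) (hA t))) h0)
    exact single_le_sum (f := fun μ => |(q t ν μ : ℝ)|) (fun _ _ => abs_nonneg _) (mem_univ μ)
  obtain ⟨H', hH'⟩ : ∃ H', H' = E na (Fintype.card T) * (H * (E na A * M0 ^ D)) := ⟨_, rfl⟩
  have hH0 : 0 ≤ H' := hH' ▸ mul_nonneg (E_nonneg (Nat.cast_nonneg _)) (by positivity)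
  have hgn : ∀ μ, S.N (g μ) ≤ H' := fun μ => by
    rw [hH']
    exact S.sum_le_card univ (by positivity) fun τ _ => S.mul_le (hh _) (hρn _ _)
  have hg0 : ∀ μ, g μ ≠ 0 → (μ.1.1 : ℕ) + 2 * μ.1.2 ≤ w := fun μ hμ => by
    by_contra hn
    refine hμ (sum_eq_zero fun τ _ => mul_eq_zero_of_right _ ?_)
    refine sum_eq_zero fun ν _ => ?_
    rw [show q τ ν μ.1 = 0 from by_contra fun h0 => hn (hq _ _ _ h0).2, Int.cast_zero, zero_mul]
  have e1 : ∑ τ, h τ * ((∑ ν, ∑ μ, (q τ.1 ν μ : R) * mon u v ν * mon x y μ) *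
      (s ^ e τ.2 * p τ.2)) = ∑ μ, g μ * (mon x y μ.1 * (s ^ e μ.2 * p μ.2)) := by
    rw [hg, ← q1aux_expand h ρ (fun μ => mon x y μ) fun t => s ^ e t * p t]
    refine sum_congr rfl fun τ _ => ?_
    rw [sum_comm]
    simp only [hρ, sum_mul]
  have key : S.N (∑ μ, g μ * (mon x y μ.1 * (s ^ e μ.2 * p μ.2))) ≤
      M ^ w * (E na (3 * Fintype.card (MM w × T') * 2 ^ w') * (H' * W) * (E na c * r) ^ k) := by
    rcases lt_or_ge (E na c * r) 1 with h1 | h1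
    · obtain ⟨⟨β, hβ1, hβ2, hβ3⟩, hs, hp⟩ := hβ h1
      have e2 : ∑ μ, g μ * (mon x y μ.1 * (s ^ e μ.2 * p μ.2)) = x ^ w * ∑ μ, (g μ * p μ.2) *
          (β ^ (w - μ.1.1 - 2 * μ.1.2) * (y * β ^ 2) ^ (μ.1.2 : ℕ) * (1 + (s - 1)) ^ e μ.2) := by
        rw [mul_sum]
        refine sum_congr rfl fun μ _ => ?_
        by_cases h0 : g μ = 0
        · simp [h0]
        · rw [p1aux_mon_eq hβ1 (hg0 μ h0), add_sub_cancel]
          ring
      rw [e2]
      refine S.mul_le (S.pow_le hx w) (hjet β _ _ r _ (H' * W) hr h1.le ?_ hβ2 hβ3 hs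
        (mul_nonneg hH0 hW0) (fun μ => S.mul_le (hgn μ) (hp _)) fun n => ?_)
      · have h2 := hxy
        rw [fc] at h2
        linear_combination β ^ 4 * h2 + (β * (1 + x * β + (x * β) ^ 2) + a * β ^ 3) * hβ1
      · rw [← hJ n]
        refine Eq.trans ?_ ((q1aux_expand h ρ (fun μ => (jet a b k w μ n.1 : R))
          fun t => p t * ((e t).choose n.2 : R)).symm.trans ?_)
        · exact sum_congr rfl fun μ _ => by ring
        · refine sum_congr rfl fun τ _ => ?_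
          congr 2
          simp only [hρ, sum_mul, Int.cast_sum, Int.cast_mul]
          rw [sum_comm]
          exact sum_congr rfl fun ν _ => sum_congr rfl fun μ _ => by ring
    · have h2 : S.N (∑ μ, g μ * (mon x y μ.1 * (s ^ e μ.2 * p μ.2))) ≤
          E na (univ : Finset (MM w × T')).card * (H' * (M ^ w * W)) := by
        refine S.sum_le_card univ (by positivity) fun μ _ => ?_
        by_cases h0 : g μ = 0
        · rw [h0, zero_mul, S.zero]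
          positivity
        · exact S.mul_le (hgn μ) (S.mul_le (p1aux_mon S hM hx hy (hg0 μ h0)) (hW _))
      have h3 : E na (univ : Finset (MM w × T')).card ≤
          E na (3 * Fintype.card (MM w × T') * 2 ^ w') := E_mono (by
        rw [card_univ]
        have k1 : (0 : ℝ) ≤ Fintype.card (MM w × T') := Nat.cast_nonneg _
        have k2 : (1 : ℝ) ≤ 2 ^ w' := one_le_pow₀ one_le_two
        nlinarith)
      have h4 : 0 ≤ E na (3 * Fintype.card (MM w × T') * 2 ^ w') := E_nonneg (by positivity)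
      calc _ ≤ E na (3 * Fintype.card (MM w × T') * 2 ^ w') * (H' * (M ^ w * W)) * 1 := by
            rw [mul_one]
            exact h2.trans (mul_le_mul_of_nonneg_right h3 (by positivity))
        _ ≤ E na (3 * Fintype.card (MM w × T') * 2 ^ w') * (H' * (M ^ w * W)) *
            (E na c * r) ^ k := mul_le_mul_of_nonneg_left (one_le_pow₀ h1) (by positivity)
        _ = _ := by ring
  rw [e1]
  refine key.trans (le_of_eq ?_)
  rw [hH', E_mul _ (c ^ k), E_mul _ A, E_mul _ (Fintype.card T : ℝ), E_pow]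
  ring

lemma q1aux_pow {n : ℕ} (s : ℕ) (hs : s < n) (f : ℕ) (u : R) :
    ∑ e : Fin n, ((if (e : ℕ) = s then (f : ℤ) else 0 : ℤ) : R) * u ^ (e : ℕ) = f * u ^ s := by
  rw [sum_eq_single (⟨s, hs⟩ : Fin n)]
  · simp
  · intro e _ he
    rw [if_neg fun h => he (Fin.ext h), Int.cast_zero, zero_mul]
  · exact fun h => (h (mem_univ _)).elim

lemma q1aux_fin {Z T N : Type} [Fintype Z] [Fintype T] [Fintype N] (c : Z → T → ℤ) (m : Z → R)
    (J : T → R) (Λ : N → Z → T → ℤ) (p : N → R)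
    (e : ∀ t z, m z * J t = ∑ ν, (Λ ν z t : R) * p ν) (h : ∀ ν, ∑ z, ∑ t, c z t * Λ ν z t = 0) :
    ∑ t, (∑ z, (c z t : R) * m z) * J t = 0 := by
  simp only [sum_mul, mul_assoc, e, mul_sum]
  rw [sum_comm]
  simp only [sum_comm (s := (univ : Finset T))]
  rw [sum_comm]
  refine sum_eq_zero fun ν _ => ?_
  have := congrArg (fun n : ℤ => (n : R) * p ν) (h ν)
  simpa only [Int.cast_sum, Int.cast_mul, sum_mul, mul_assoc, Int.cast_zero, zero_mul] using this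

end Block

lemma q1aux_sq {T : Type} [Fintype T] :
    Fintype.card (T × T) = Fintype.card (Bool → T) ∧ Fintype.card T ≤ Fintype.card (Bool → T) := by
  rw [Fintype.card_fun, Fintype.card_bool, Fintype.card_prod]
  exact ⟨(sq _).symm, Nat.le_self_pow two_ne_zero _⟩

lemma q1aux_count {m d t : ℕ} (hd : 1152 * m * t ^ 2 ≤ (d + 1) ^ 2) (j : ℕ) :
    2 * m * Fintype.card (Bool × (Fin (2 * t * 4 ^ j) × Fin (2 * t * 4 ^ j)) ×
      (MM (3 * d) × Fin (2 * d + 1))) ≤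
      Fintype.card (Fin (d + 1) × Fin (d + 1)) * Fintype.card (TT d j × TT d j) := by
  simp only [Fintype.card_bool, Fintype.card_prod, Fintype.card_fin]
  have h1 : (3 * d + 1) * 2 * (2 * d + 1) ≤ 72 * (d + 1) ^ 2 := by nlinarith
  calc _ ≤ 2 * m * (2 * (2 * t * 4 ^ j * (2 * t * 4 ^ j) * (72 * (d + 1) ^ 2))) := by gcongr
    _ = 1152 * m * t ^ 2 * ((d + 1) * 4 ^ j) ^ 2 := by ring
    _ ≤ (d + 1) ^ 2 * ((d + 1) * 4 ^ j) ^ 2 := Nat.mul_le_mul_right _ hd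
    _ = _ := by ring

/- Sketch. Copy of exists_aux in P1Aux (reuse its lemmas) with the second curve replaced by the torus. k i = 2 t 4 ^ j i.
exists_slices with Z = Fin (d+1) x Fin (d+1), T i = TT x TT, L i = Bool x (Fin k x Fin k) x (MM (3 d) x Fin (2 d + 1)),
Lambda (l, n, nu', e) z (t, t') = Lam1 l n.1 nu' z.1 t * (if e = z.2 + (d - t'.1) then choose (ex t') n.2 else 0);
choose <= 2 ^ ((d+1) 4 ^ j); the count is 2 m * 2 * k^2 * 2 (3 d + 1) (2 d + 1) <= (d+1)^4 16 ^ j.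
SN.multi with J i n (t, t') = (sum_nu lam * mon) * (u none ^ (d - t'.1) * choose (ex t') n.2).
Block bound. If 1 <= E c0 * r i: N (arm) <= E(..) M c ^ (2 d) M i ^ w and N (armT) <= W i. Otherwise
sum h * arm * armT = x ^ w * sum_(mu, t') g (mu, t') * beta ^ _ * z ^ _ * (1 + tau) ^ ex t', tau = u (some i) - 1,
g (mu, t') = sum_t h (t, t') * (sum_nu r nu mu * mon) * u none ^ (d - t'.1), and exists_jetT. -/
theorem exists_auxT (a b : ℤ) {m d t : ℕ} (hm : 0 < m)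
    (hd : 1152 * m * t ^ 2 ≤ (d + 1) ^ 2) : ∃ C c₀ : ℝ, 1 ≤ C ∧ 1 ≤ c₀ ∧ ∀ j : Fin m → ℕ,
    ∃ c : Fin (d + 1) × Fin (d + 1) → (∀ i, TT d (j i) × TT d (j i)) → ℤ, c ≠ 0 ∧
      (∀ z τ, |(c z τ : ℝ)| ≤ C ^ (∑ i, 4 ^ j i)) ∧
      ∀ (R : Type) [CommRing R] (na : Prop) (S : SN R na) (x y u : Option (Fin m) → R)
        (M : Option (Fin m) → ℝ) (U : ℝ) (W r : Fin m → ℝ) (l : Fin m → Bool),
        (∀ p, y p ^ 2 = fc (a : R) b (x p)) → (∀ p, 1 ≤ M p) → (∀ p, S.N (x p) ≤ M p) →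
        (∀ p, S.N (y p) ≤ M p ^ 2) → 1 ≤ U → S.N (u none) ≤ U → (∀ i, 0 ≤ W i) →
        (∀ i s, S.N (armT d (j i) (u (some i)) (u none) s) ≤ W i) → (∀ i, 0 ≤ r i) →
        (∀ i, E na c₀ * r i < 1 → (∃ β : R, x (some i) * β = 1 ∧ S.N β ≤ r i ^ 2 ∧
          S.N (y (some i) * β ^ 2) ≤ r i) ∧ S.N (u (some i) - 1) ≤ r i ∧
          ∀ e ≤ d, S.N (u none ^ e) ≤ W i) →
        S.N (GT a b d j c l x y u) ≤ E na (C ^ (∑ i, 4 ^ j i)) * M none ^ ((2 * m + 1) * d) *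
          U ^ d * ∏ i, (M (some i) ^ ((2 * d + 1) * 4 ^ j i) * W i * r i ^ (2 * t * 4 ^ j i)) := by
  classical
  obtain ⟨c₀, hc₀, hj1, hj2⟩ := exists_jetT a b
  obtain ⟨C1, hC1, hq⟩ := exists_arr a b d
  choose q hq1 hq2 hq3 using hq
  obtain ⟨Q, hQ⟩ : ∃ Q : ℝ, Q = (8 * ((d : ℝ) + 1)) ^ 2 := ⟨_, rfl⟩
  have hd0 : (0 : ℝ) ≤ d := Nat.cast_nonneg d
  have hZ : (Fintype.card (Fin (d + 1) × Fin (d + 1)) : ℝ) ≤ Q := by
    rw [hQ, Fintype.card_prod, Fintype.card_fin]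
    push_cast
    nlinarith
  have hQ1 : 1 ≤ Q := by
    rw [hQ]
    nlinarith
  obtain ⟨A, hA⟩ : ∃ A : ℝ, A = C1 * c₀ ^ (2 * t) * 2 ^ (d + 1) := ⟨_, rfl⟩
  have hct : 1 ≤ c₀ ^ (2 * t) := one_le_pow₀ hc₀
  have h2d : (1 : ℝ) ≤ 2 ^ (d + 1) := one_le_pow₀ one_le_two
  have hA1 : 1 ≤ A :=
    hA ▸ one_le_mul_of_one_le_of_one_le (one_le_mul_of_one_le_of_one_le hC1 hct) h2d
  obtain ⟨B, hB⟩ : ∃ B : ℝ, B = 3 * Q * Q * A * Q := ⟨_, rfl⟩
  have hQA : 1 ≤ Q * A * Q :=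
    one_le_mul_of_one_le_of_one_le (one_le_mul_of_one_le_of_one_le hQ1 hA1) hQ1
  have hQB : Q ≤ B := by nlinarith
  have hB1 : 1 ≤ B := hQ1.trans hQB
  refine ⟨B ^ 3, c₀, one_le_pow₀ hB1, hc₀, fun j => ?_⟩
  obtain ⟨σ, hσ⟩ : ∃ σ, σ = ∑ i, 4 ^ j i := ⟨_, rfl⟩
  have hσi : ∀ i, 4 ^ j i ≤ σ := fun i =>
    hσ ▸ single_le_sum (f := fun i => 4 ^ j i) (fun _ _ => Nat.zero_le _) (mem_univ i)
  have hσ0 : σ ≠ 0 := by
    have := hσi ⟨0, hm⟩
    have := Nat.one_le_pow (j ⟨0, hm⟩) 4 (by omega)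
    omega
  obtain ⟨lam, hlam⟩ : ∃ lam : ∀ i, Bool → TT d (j i) → ℕ → MM (2 * d) → ℤ,
      ∀ i l τ n ν, lam i l τ n ν = ∑ μ, q (j i) l τ ν μ *
        jet a b (2 * t * 4 ^ j i) ((2 * d + 1) * 4 ^ j i) μ n := ⟨_, fun _ _ _ _ _ => rfl⟩
  have hΛ : ∀ i l τ (n : Fin (2 * t * 4 ^ j i)) (z : Fin (d + 1)) ν',
      |((∑ ν, if p1aux_sh z ν = ν' then lam i l τ n ν else 0 : ℤ) : ℝ)| ≤
        (C1 * c₀ ^ (2 * t)) ^ σ := by
    intro i l τ n z ν'
    calc _ ≤ ∑ ν, ∑ μ, |(q (j i) l τ ν μ : ℝ)| * c₀ ^ (2 * t * 4 ^ j i) := by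
          rw [Int.cast_sum]
          refine (abs_sum_le_sum_abs _ _).trans (sum_le_sum fun ν _ => ?_)
          split_ifs
          · rw [hlam, Int.cast_sum]
            refine (abs_sum_le_sum_abs _ _).trans (sum_le_sum fun μ _ => ?_)
            rw [Int.cast_mul, abs_mul]
            exact mul_le_mul_of_nonneg_left ((hj1 _ _ _ _).trans
              (pow_le_pow_right₀ hc₀ n.2.le)) (abs_nonneg _)
          · rw [Int.cast_zero, abs_zero]
            positivity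
      _ ≤ C1 ^ 4 ^ j i * c₀ ^ (2 * t * 4 ^ j i) := by
          simp only [← sum_mul]
          exact mul_le_mul_of_nonneg_right (hq2 _ _ _) (by positivity)
      _ ≤ _ := by
          rw [pow_mul, ← mul_pow]
          exact pow_le_pow_right₀ (one_le_mul_of_one_le_of_one_le hC1 hct) (hσi i)
  have hΛ2 : ∀ i (τ : TT d (j i)) (n : ℕ) (P : Prop) [Decidable P],
      |((if P then (((ex τ).choose n : ℕ) : ℤ) else 0 : ℤ) : ℝ)| ≤ (2 ^ (d + 1)) ^ σ := by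
    intro i τ n P _
    split_ifs
    · rw [Int.cast_natCast, Nat.abs_cast, ← pow_mul]
      exact_mod_cast (Nat.choose_le_two_pow _ _).trans (Nat.pow_le_pow_right two_pos
        ((ex_le τ).trans (Nat.mul_le_mul_left _ (hσi i))))
    · rw [Int.cast_zero, abs_zero]
      positivity
  obtain ⟨c, hc0, hc1, hc2⟩ := exists_slices (Z := Fin (d + 1) × Fin (d + 1))
    (T := fun i => TT d (j i) × TT d (j i))
    (L := fun i => Bool × (Fin (2 * t * 4 ^ j i) × Fin (2 * t * 4 ^ j i)) ×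
      (MM (3 * d) × Fin (2 * d + 1)))
    (fun i n z τ => (∑ ν, if p1aux_sh z.1 ν = n.2.2.1 then lam i n.1 τ.1 n.2.1.1 ν else 0) *
      if (n.2.2.2 : ℕ) = z.2 + (d - τ.2.1) then (((ex τ.2).choose n.2.1.2 : ℕ) : ℤ) else 0)
    (A ^ σ) (one_le_pow₀ hA1)
    (fun i n z τ => by
      rw [Int.cast_mul, abs_mul, hA, mul_pow]
      exact mul_le_mul (hΛ _ _ _ _ _ _) (hΛ2 _ _ _ _) (abs_nonneg _) (by positivity))
    fun i => q1aux_count hd (j i)
  have hc3 : ∀ z τ, |(c z τ : ℝ)| ≤ B ^ σ := fun z τ => by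
    have h1 : ∏ i, (Fintype.card (TT d (j i) × TT d (j i)) : ℝ) ≤ Q ^ σ := by
      rw [hσ, ← prod_pow_eq_pow_sum, hQ]
      refine prod_le_prod (fun _ _ => Nat.cast_nonneg _) fun i _ => ?_
      rw [q1aux_sq.1]
      exact p1aux_cardT d (j i)
    have h2 : (Fintype.card (Fin (d + 1) × Fin (d + 1)) : ℝ) ≤ (3 * Q) ^ σ :=
      hZ.trans (le_trans (by linarith) (le_self_pow₀ (by linarith) hσ0))
    refine (hc1 z τ).trans ?_
    rw [hB, mul_pow, mul_pow, mul_pow]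
    refine le_trans ?_ (le_mul_of_one_le_right (by positivity) (one_le_pow₀ hQ1))
    gcongr
  have hBσ : 1 ≤ B ^ σ := one_le_pow₀ hB1
  rw [← hσ]
  refine ⟨c, hc0, fun z τ => (hc3 z τ).trans
    (pow_le_pow_left₀ (by linarith) (le_self_pow₀ hB1 (by omega)) _), ?_⟩
  intro R _ na S x y u M U W r l hxy hM hx hy hU hu hW0 hW hr hβ
  have hP : ∀ o, 0 ≤ M o := fun o => zero_le_one.trans (hM _)
  have hG : ∀ i, 3 * Fintype.card (MM ((2 * d + 1) * 4 ^ j i) × TT d (j i)) *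
      2 ^ ((d + 1) * 4 ^ j i) * Fintype.card (TT d (j i)) * C1 ^ 4 ^ j i *
        c₀ ^ (2 * t * 4 ^ j i) ≤ B ^ 4 ^ j i := fun i => by
    have h1 : (Fintype.card (TT d (j i)) : ℝ) ≤ Q ^ 4 ^ j i :=
      hQ ▸ le_trans (Nat.cast_le.2 q1aux_sq.2) (p1aux_cardT d (j i))
    have h2 : (Fintype.card (MM ((2 * d + 1) * 4 ^ j i)) : ℝ) ≤ Q ^ 4 ^ j i :=
      hQ ▸ le_trans (Nat.cast_le.2 q1aux_sq.2) (p1aux_cardM d (j i))
    have h3 : (3 : ℝ) ≤ 3 ^ 4 ^ j i := le_self_pow₀ (by norm_num) (by positivity)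
    rw [Fintype.card_prod (MM _), Nat.cast_mul]
    calc _ ≤ 3 ^ 4 ^ j i * (Q ^ 4 ^ j i * Q ^ 4 ^ j i) * 2 ^ ((d + 1) * 4 ^ j i) * Q ^ 4 ^ j i *
          C1 ^ 4 ^ j i * c₀ ^ (2 * t * 4 ^ j i) := by gcongr
      _ = _ := by
        rw [hB, hA, pow_mul c₀ (2 * t), pow_mul 2 (d + 1)]
        simp only [mul_pow]
        ring
  have main := S.multi
    (fun i (τ : TT d (j i) × TT d (j i)) => arm (a : R) (b : R) d (j i) (x (some i)) (y (some i))
      (x none) (y none) (l i) τ.1 * armT d (j i) (u (some i)) (u none) τ.2)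
    (fun i (n : Fin (2 * t * 4 ^ j i) × Fin (2 * t * 4 ^ j i)) (τ : TT d (j i) × TT d (j i)) =>
      (∑ ν, (lam i (l i) τ.1 n.1 ν : R) * mon (x none) (y none) ν) *
        (u none ^ (d - τ.2.1) * ((ex τ.2).choose n.2 : R)))
    (fun i => E na (B ^ 4 ^ j i) * M none ^ (2 * d) *
      (M (some i) ^ ((2 * d + 1) * 4 ^ j i) * W i * r i ^ (2 * t * 4 ^ j i)))
    (fun i => by
      have := hP none
      have := hP (some i)
      have := hr i
      have := hW0 i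
      have : 0 ≤ E na (B ^ 4 ^ j i) := E_nonneg (by positivity)
      positivity)
    (fun i h H hH hh hJ => by
      have := hP none
      have := hP (some i)
      have := hr i
      have := hW0 i
      simp only [hlam] at hJ
      have e : ∀ τ, arm (a : R) (b : R) d (j i) (x (some i)) (y (some i))
          (x none) (y none) (l i) τ = _ := fun τ =>
        hq3 (j i) (l i) τ R _ _ _ _ (hxy (some i)) (hxy none)
      simp only [e]
      refine (q1aux_block S (w' := (d + 1) * 4 ^ j i) (ex : TT d (j i) → ℕ)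
        (fun β z τ r h H k1 k2 k3 k4 k5 k6 =>
          hj2 R na S β z τ r _ _ _ _ ex h H k1 k2 k3 k4 k5 k6 ex_le)
        (q (j i) (l i)) (hq1 _ _) (hq2 _ _) (one_le_pow₀ hC1) _ _ _ _ (u (some i))
        (fun τ => u none ^ (d - τ.1)) (M (some i)) (M none) (W i)
        (hxy (some i)) (hM _) (hx _) (hy _) (hM _) (hx _) (hy _) (hW0 i) (hW i) (hr i)
        (fun k => ⟨(hβ i k).1, (hβ i k).2.1, fun τ => (hβ i k).2.2 _ (Nat.sub_le _ _)⟩)
        h hH hh hJ).trans ?_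
      have := E_mono (na := na) (hG i)
      gcongr)
    (fun τ => ∑ z, (c z τ : R) * (x none ^ (z.1 : ℕ) * u none ^ (z.2 : ℕ)))
    (E na (B ^ σ * B ^ σ) * (M none ^ d * U ^ d))
    (mul_nonneg (E_nonneg (by positivity)) (mul_nonneg (pow_nonneg (hP none) _) (by positivity)))
    (fun τ => by
      have h0 : 0 ≤ M none ^ d * U ^ d := mul_nonneg (pow_nonneg (hP none) _) (by positivity)
      refine (S.int_sum_le univ _ h0 fun z _ _ => ?_).trans
        (mul_le_mul_of_nonneg_right (E_mono ?_) h0)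
      · exact S.mul_le ((S.pow_le (hx _) _).trans
          (pow_le_pow_right₀ (hM _) (Nat.le_of_lt_succ z.1.2)))
          ((S.pow_le hu _).trans (pow_le_pow_right₀ hU (Nat.le_of_lt_succ z.2.2)))
      · refine (sum_le_card_nsmul _ _ _ fun z _ => hc3 z τ).trans ?_
        rw [nsmul_eq_mul, card_univ]
        exact mul_le_mul_of_nonneg_right (hZ.trans (hQB.trans (le_self_pow₀ hB1 hσ0)))
          (by positivity))
    (fun i n τ => by
      have e : ∀ τ' : TT d (j i) × TT d (j i), ∀ z : Fin (d + 1) × Fin (d + 1),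
          x none ^ (z.1 : ℕ) * u none ^ (z.2 : ℕ) *
            ((∑ ν, (lam i (l i) τ'.1 n.1 ν : R) * mon (x none) (y none) ν) *
              (u none ^ (d - τ'.2.1) * ((ex τ'.2).choose n.2 : R))) =
            ∑ ν' : MM (3 * d) × Fin (2 * d + 1),
            (((∑ ν, if p1aux_sh z.1 ν = ν'.1 then lam i (l i) τ'.1 n.1 ν else 0) *
              if (ν'.2 : ℕ) = z.2 + (d - τ'.2.1) then (((ex τ'.2).choose n.2 : ℕ) : ℤ) else 0 : ℤ) :
              R) * (mon (x none) (y none) ν'.1 * u none ^ (ν'.2 : ℕ)) := fun τ' z => by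
        rw [mul_mul_mul_comm, p1aux_shift, ← mul_assoc (u none ^ _), ← pow_add, mul_comm (u none ^ _),
          ← q1aux_pow (n := 2 * d + 1) _ (by have := z.2.2; omega), sum_mul_sum]
        refine Eq.trans ?_ (Fintype.sum_prod_type _).symm
        refine sum_congr rfl fun _ _ => sum_congr rfl fun _ _ => ?_
        rw [Int.cast_mul, mul_mul_mul_comm]
      exact q1aux_fin (fun z τ' => c z (Function.update τ i τ')) _ _ _ _ e
        fun ν' => hc2 i (l i, n, ν') τ)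
  refine main.trans (le_of_eq ?_)
  rw [prod_mul_distrib, prod_mul_distrib, ← E_prod, prod_pow_eq_pow_sum, ← hσ, prod_const, card_univ,
    Fintype.card_fin, ← pow_mul B, mul_comm 3 σ, pow_mul B, E_pow (B ^ σ), E_mul]
  ring

end Pool.Agent.Lib.MP_8865d3_nt.Gm
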