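import Pool.Agent.Lib.MP_8865d3_nt.Q1Defs
import Pool.Agent.Lib.MP_651af7_nt.P1Ind

/-! The basic sections are independent. -/

namespace Pool.Agent.Lib.MP_8865d3_nt.Gm

open Finset Pool.Agent.Lib.MP_651af7_nt.Vj.P1

lemma q1ind_poly {T : Type} [Fintype T] (e : T → ℕ) (he : Function.Injective e) (h : T → ℂ)
    (h0 : h ≠ 0) : ∃ u : ℂ, u ≠ 0 ∧ ∑ t, h t * u ^ e t ≠ 0 := by
  by_contra hcon
  push Not at hcon
  have hP : Polynomial.X * ∑ t, Polynomial.C (h t) * Polynomial.X ^ e t = 0 := by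
    refine Polynomial.funext fun u => ?_
    simp only [Polynomial.eval_mul, Polynomial.eval_X, Polynomial.eval_finsetSum,
      Polynomial.eval_C, Polynomial.eval_pow, Polynomial.eval_zero]
    by_cases hu : u = 0
    · rw [hu, zero_mul]
    · rw [hcon u hu, mul_zero]
  have h1 := (mul_eq_zero.1 hP).resolve_left Polynomial.X_ne_zero
  apply h0
  funext t
  have h5 := congrArg (fun P => Polynomial.coeff P (e t)) h1
  simp only [Polynomial.finsetSum_coeff, Polynomial.coeff_C_mul_X_pow,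
    Polynomial.coeff_zero] at h5
  rw [Finset.sum_eq_single t] at h5
  · simpa using h5
  · intro i _ hi
    rw [if_neg]
    exact fun h2 => hi (he h2.symm)
  · simp

lemma q1ind_armT (d j : ℕ) {v : ℂ} (hv : v ≠ 0) (h : TT d j → ℂ) (h0 : h ≠ 0) :
    ∃ u : ℂ, ∑ t, h t * armT d j u v t ≠ 0 := by
  obtain ⟨t0, ht0⟩ := Function.ne_iff.1 h0
  obtain ⟨u, -, hu⟩ := q1ind_poly (ex : TT d j → ℕ) ex_injective
    (fun t => h t * v ^ (d - t.1))
    (Function.ne_iff.2 ⟨t0, mul_ne_zero ht0 (pow_ne_zero _ hv)⟩)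
  refine ⟨u, ?_⟩
  convert hu using 2 with t
  unfold armT
  ring

lemma q1ind_pair {T T' Z Z' : Type} [Fintype T] [Fintype T'] (p : Z → T → ℂ) (q : Z' → T' → ℂ)
    (hp : ∀ h : T → ℂ, h ≠ 0 → ∃ z, ∑ t, h t * p z t ≠ 0)
    (hq : ∀ h : T' → ℂ, h ≠ 0 → ∃ z, ∑ t, h t * q z t ≠ 0) (h : T × T' → ℂ) (h0 : h ≠ 0) :
    ∃ z : Z × Z', ∑ t, h t * (p z.1 t.1 * q z.2 t.2) ≠ 0 := by
  obtain ⟨t0, ht0⟩ := Function.ne_iff.1 h0
  obtain ⟨z', hz'⟩ := hq (fun t' => h (t0.1, t')) (Function.ne_iff.2 ⟨t0.2, ht0⟩)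
  obtain ⟨z, hz⟩ := hp (fun t => ∑ t', h (t, t') * q z' t') (Function.ne_iff.2 ⟨t0.1, hz'⟩)
  refine ⟨(z, z'), ?_⟩
  rw [Fintype.sum_prod_type]
  convert hz using 2 with t
  rw [Finset.sum_mul]
  exact Finset.sum_congr rfl fun t' _ => by ring

/- Sketch. As GG_ne_zero in P1Ind (reuse p1ind_arm, p1ind_arm_zero, p1ind_sqrt, arm_indep, tens_ne_zero). Let z1 be maximal with
c (z1, z2) tau <> 0 for some z2, tau. Choose u none <> 0 that is not a root of the nonzero polynomial sum_z2 c (z1, z2) tau X ^ z2.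
For each arm a nonzero array on TT x TT is detected by some (x, u): arm_indep for the first factor and
ex_injective (a nonzero polynomial in u) for the second. Then x none = 1 / beta with beta small. -/
theorem GT_ne_zero {m : ℕ} (a b : ℤ) (hD : 4 * a ^ 3 + 27 * b ^ 2 ≠ 0) (d : ℕ) (j : Fin m → ℕ)
    (c : Fin (d + 1) × Fin (d + 1) → (∀ i, TT d (j i) × TT d (j i)) → ℤ) (hc : c ≠ 0) :
    ∃ x y u : Option (Fin m) → ℂ, (∀ p, y p ^ 2 = fc (a : ℂ) b (x p)) ∧
      ∀ sg : Option (Fin m) → ℤˣ,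
        GT a b d j c (fun _ => false) x (fun p => ((sg p : ℤ) : ℂ) * y p) u ≠ 0 := by
  classical
  obtain ⟨r, hr, hr0⟩ := p1ind_sqrt
  obtain ⟨z00, hz00⟩ := Function.ne_iff.1 hc
  obtain ⟨τ0, hτ0⟩ := Function.ne_iff.1 hz00
  obtain ⟨v, hv, hv1⟩ := q1ind_poly (fun z2 : Fin (d + 1) => (z2 : ℕ)) Fin.val_injective
    (fun z2 => (c (z00.1, z2) τ0 : ℂ))
    (Function.ne_iff.2 ⟨z00.2, by simpa using hτ0⟩)
  let c1 : Fin (d + 1) → (∀ i, TT d (j i) × TT d (j i)) → ℂ :=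
    fun z τ => ∑ z2 : Fin (d + 1), (c (z, z2) τ : ℂ) * v ^ (z2 : ℕ)
  obtain ⟨z0, hz0, hmax⟩ := Finset.exists_max_image (univ.filter fun z => c1 z ≠ 0)
    (fun z : Fin (d + 1) => (z : ℕ))
    ⟨z00.1, Finset.mem_filter.2 ⟨Finset.mem_univ _, Function.ne_iff.2 ⟨τ0, hv1⟩⟩⟩
  obtain ⟨x0, htop⟩ := tens_ne_zero (ι := Fin m) (T := fun i => TT d (j i) × TT d (j i))
    (Z := fun _ => ℂ × ℂ)
    (fun i x τ => p1indArm a b d (j i) x.1 0 0 0 τ.1 * armT d (j i) x.2 v τ.2)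
    (fun i h hh => q1ind_pair (fun x t => p1indArm a b d (j i) x 0 0 0 t)
      (fun u t => armT d (j i) u v t)
      (fun g hg => by
        simp only [p1ind_arm_zero]
        exact arm_indep _ _ (by exact_mod_cast hD) d (j i) g hg)
      (fun g hg => q1ind_armT d (j i) hv g hg) h hh) _ (Finset.mem_filter.1 hz0).2
  let F : (Option (Fin m) → ℤˣ) → ℂ × ℂ → ℂ := fun sg p =>
    ∑ τ : ∀ i, TT d (j i) × TT d (j i), (∑ z, c1 z τ * p.1 ^ ((z0 : ℕ) - z)) *
      ∏ i, (p1indArm a b d (j i) (x0 i).1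
        (((sg (some i) : ℤ) : ℂ) * r (fc (a : ℂ) b (x0 i).1)) p.1
        (((sg none : ℤ) : ℂ) * p.2) (τ i).1 * armT d (j i) (x0 i).2 v (τ i).2)
  have hFc : ∀ sg, Continuous (F sg) := by
    intro sg
    simp only [F, p1indArm]
    fun_prop
  have hF0 : ∀ sg, F sg 0 ≠ 0 := by
    intro sg
    convert htop using 1
    refine Finset.sum_congr rfl fun τ _ => ?_
    congr 1
    · rw [Finset.sum_eq_single z0]
      · simp
      · intro z _ hz
        by_cases h : c1 z = 0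
        · simp [h]
        · have h1 := hmax z (by simpa using h)
          have h2 : (z : ℕ) ≠ z0 := fun h3 => hz (Fin.ext h3)
          have h3 : (z0 : ℕ) - z ≠ 0 := by omega
          simp [h3]
      · simp
    · simp [p1ind_arm_zero]
  let g : ℂ → ℂ := fun β => β + a * β ^ 3 + b * β ^ 4
  have hlim : Filter.Tendsto (fun β : ℂ => (β, r (g β))) (nhds 0) (nhds 0) := by
    rw [← Prod.mk_zero_zero, nhds_prod_eq]
    refine Filter.tendsto_id.prodMk (hr0.comp ?_)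
    have h1 : Continuous g := by
      simp only [g]
      fun_prop
    simpa [g] using h1.tendsto 0
  have hev : ∀ᶠ β in nhds (0 : ℂ), ∀ sg, F sg (β, r (g β)) ≠ 0 :=
    Filter.eventually_all.2 fun sg => hlim.eventually ((hFc sg).continuousAt.eventually_ne (hF0 sg))
  obtain ⟨β, hβ, hβ0⟩ := ((hev.filter_mono nhdsWithin_le_nhds).and
    (self_mem_nhdsWithin (s := {0}ᶜ))).exists
  have hβ1 : β ≠ 0 := hβ0
  refine ⟨fun p => p.elim β⁻¹ fun i => (x0 i).1,
    fun p => p.elim (r (g β) * β⁻¹ ^ 2) fun i => r (fc (a : ℂ) b (x0 i).1),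
    fun p => p.elim v fun i => (x0 i).2, ?_, fun sg => ?_⟩
  · rintro (_ | i)
    · simp only [Option.elim_none, mul_pow, hr, g, fc]
      field_simp
    · exact hr _
  · have key : GT a b d j c (fun _ => false) (fun p => p.elim β⁻¹ fun i => (x0 i).1)
        (fun p => ((sg p : ℤ) : ℂ) *
          p.elim (r (g β) * β⁻¹ ^ 2) fun i => r (fc (a : ℂ) b (x0 i).1))
        (fun p => p.elim v fun i => (x0 i).2) =
        (β⁻¹ ^ (z0 : ℕ) * ∏ _i : Fin m, (β⁻¹ ^ 2) ^ d) * F sg (β, r (g β)) := by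
      simp only [GT, F, Option.elim_none, Option.elim_some]
      rw [Finset.mul_sum]
      refine Finset.sum_congr rfl fun τ _ => ?_
      rw [mul_mul_mul_comm, ← Finset.prod_mul_distrib]
      congr 1
      · rw [Finset.mul_sum, Fintype.sum_prod_type]
        refine Finset.sum_congr rfl fun z _ => ?_
        have h0 : ∑ z2 : Fin (d + 1), (c (z, z2) τ : ℂ) * (β⁻¹ ^ (z : ℕ) * v ^ (z2 : ℕ)) =
            c1 z τ * β⁻¹ ^ (z : ℕ) := by
          rw [Finset.sum_mul]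
          exact Finset.sum_congr rfl fun z2 _ => by ring
        rw [h0]
        by_cases h : c1 z = 0
        · simp [h]
        · obtain ⟨k, hk⟩ := Nat.exists_eq_add_of_le (hmax z (by simpa using h))
          have h2 : β⁻¹ ^ k * β ^ k = 1 := by rw [← mul_pow, inv_mul_cancel₀ hβ1, one_pow]
          rw [hk, Nat.add_sub_cancel_left, pow_add β⁻¹ (z : ℕ) k]
          linear_combination (-(c1 z τ) * β⁻¹ ^ (z : ℕ)) * h2
      · refine Finset.prod_congr rfl fun i _ => ?_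
        rw [← mul_assoc ((sg none : ℤ) : ℂ), p1ind_arm _ _ _ _ _ _ _ _ hβ1, mul_assoc]
    rw [key]
    refine mul_ne_zero (mul_ne_zero (pow_ne_zero _ (inv_ne_zero hβ1)) ?_) (hβ sg)
    exact Finset.prod_ne_zero_iff.2 fun _ _ => pow_ne_zero _ (pow_ne_zero _ (inv_ne_zero hβ1))

end Pool.Agent.Lib.MP_8865d3_nt.Gm
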