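import Pool.Agent.Lib.MP_8865d3_nt.Q1Defs
import Pool.Agent.Lib.MP_651af7_nt.P1Poly

/-! The auxiliary section as an integral polynomial. -/

namespace Pool.Agent.Lib.MP_8865d3_nt.Gm

open Finset MvPolynomial Pool.Agent.Lib.MP_651af7_nt.Vj.P1 Pool.Agent.Lib.Common.Subspace

section poly

variable {σ : Type}

private lemma ql_len_mul {p q : MvPolynomial σ ℚ} {s t : ℝ} (hp : len p ≤ s) (hq : len q ≤ t) :
    len (p * q) ≤ s * t :=
  (nrm_mul_le (fun _ => zero_le_one) p q).trans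
    (mul_le_mul hp hq (len_nonneg q) ((len_nonneg p).trans hp))

private lemma ql_len_sum {I : Type} (S : Finset I) {f : I → MvPolynomial σ ℚ} {t : I → ℝ}
    (h : ∀ i, len (f i) ≤ t i) : len (∑ i ∈ S, f i) ≤ ∑ i ∈ S, t i :=
  (nrm_sum_le (fun _ => zero_le_one) S f).trans (sum_le_sum fun i _ => h i)

private lemma ql_len_prod {I : Type} (S : Finset I) {f : I → MvPolynomial σ ℚ} {t : I → ℝ}
    (h : ∀ i, len (f i) ≤ t i) : len (∏ i ∈ S, f i) ≤ ∏ i ∈ S, t i :=
  (nrm_prod_le (fun _ => zero_le_one) S f).trans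
    (prod_le_prod (fun i _ => len_nonneg (f i)) fun i _ => h i)

private lemma ql_len_X_pow (s : σ) (n : ℕ) : len (X s ^ n : MvPolynomial σ ℚ) ≤ 1 := by
  simpa [len, nrm_X] using nrm_pow_le (v := Rat.AbsoluteValue.real) (ρ := fun _ : σ => (1 : ℝ))
    (fun _ => zero_le_one) (X s) n

private lemma ql_len_int (z : ℤ) : len (z : MvPolynomial σ ℚ) ≤ |(z : ℝ)| := by
  rw [← map_intCast (C : ℚ →+* MvPolynomial σ ℚ), len, nrm_C]
  simp [Rat.AbsoluteValue.real_eq_abs]

private lemma ql_int_int (z : ℤ) : IsInt (z : MvPolynomial σ ℚ) := by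
  rw [← map_intCast (C : ℚ →+* MvPolynomial σ ℚ)]
  exact isInt_C z

private lemma ql_int_X_pow (s : σ) (n : ℕ) : IsInt (X s ^ n : MvPolynomial σ ℚ) := by
  simpa using isInt_prod (range n) (fun _ => (X s : MvPolynomial σ ℚ)) fun _ _ => isInt_X s

private lemma ql_deg_int (p : σ) (z : ℤ) : degreeOf p (z : MvPolynomial σ ℚ) = 0 := by
  rw [← map_intCast (C : ℚ →+* MvPolynomial σ ℚ), degreeOf_C]

private lemma ql_deg_sum {I : Type} (S : Finset I) (p : σ) {f : I → MvPolynomial σ ℚ} {n : ℕ}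
    (h : ∀ i, degreeOf p (f i) ≤ n) : degreeOf p (∑ i ∈ S, f i) ≤ n :=
  (degreeOf_sum_le p S f).trans (Finset.sup_le fun i _ => h i)

private lemma ql_deg_X_pow {V : Type} [DecidableEq V] (cl : σ → V) (p q : σ) {n N : ℕ}
    (h : n ≤ N) : degreeOf p (X q ^ n : MvPolynomial σ ℚ) ≤ if cl p = cl q then N else 0 := by
  classical
  split_ifs with e
  · refine (degreeOf_pow_le _ _ _).trans ?_
    rw [degreeOf_X]
    split_ifs <;> omega
  · exact (degreeOf_X_pow_of_ne n fun e' => e (by rw [e'])).le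

private lemma ql_deg_mon {V : Type} [DecidableEq V] (cl : σ → V) (p q q' : σ) (e : cl q' = cl q)
    {w N : ℕ} (μ : MM w) (h : (μ.1 : ℕ) + 2 * μ.2 ≤ N) :
    degreeOf p (mon (X q) (X q') μ : MvPolynomial σ ℚ) ≤ if cl p = cl q then N else 0 := by
  refine (degreeOf_mul_le _ _ _).trans ((add_le_add (ql_deg_X_pow cl p q le_rfl)
    (ql_deg_X_pow cl p q' le_rfl)).trans ?_)
  rw [e]
  split_ifs <;> omega

end poly

/- Sketch. As exists_poly in P1Poly (its helper lemmas are private: copy them). Variables: inl (o, false) = x o,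
inl (o, true) = u o, inr o = y o. The degree in u (some i) is at most (d + 1) 4 ^ j i (ex_le), in u none at most (m + 1) d. -/
theorem exists_polyT (a b : ℤ) {m : ℕ} (hm : 0 < m) (d : ℕ) : ∃ C : ℝ, 1 ≤ C ∧
    ∀ (j : Fin m → ℕ) (c : Fin (d + 1) × Fin (d + 1) → (∀ i, TT d (j i) × TT d (j i)) → ℤ) (Γ : ℝ),
      (∀ z τ, |(c z τ : ℝ)| ≤ Γ) →
      ∃ G : MvPolynomial (VV m ⊕ Option (Fin m)) ℚ, IsInt G ∧ len G ≤ Γ * C ^ (∑ i, 4 ^ j i) ∧
        (∀ i s, G.degreeOf (.inl (some i, s)) ≤ (2 * d + 1) * 4 ^ j i) ∧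
        (∀ i, G.degreeOf (.inr (some i)) ≤ (2 * d + 1) * 4 ^ j i) ∧
        (∀ s, G.degreeOf (.inl (none, s)) ≤ (2 * m + 1) * d) ∧
        G.degreeOf (.inr none) ≤ (2 * m + 1) * d ∧
        ∀ (R : Type) [CommRing R] (φ : MvPolynomial (VV m ⊕ Option (Fin m)) ℚ →+* R),
          (∀ p, φ (X (.inr p)) ^ 2 = fc (a : R) b (φ (X (.inl (p, false))))) →
          φ G = GT a b d j c (fun _ => false) (fun p => φ (X (.inl (p, false))))
            (fun p => φ (X (.inr p))) (fun p => φ (X (.inl (p, true)))) := by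
  classical
  obtain ⟨C, hC, h⟩ := exists_arr a b d
  choose r h1 h2 h3 using h
  have hd : (1 : ℝ) ≤ d + 1 := by linarith [d.cast_nonneg (α := ℝ)]
  have hd2 : (1 : ℝ) ≤ (d + 1) ^ 2 := one_le_pow₀ hd
  have hC' : (1 : ℝ) ≤ (2 * (d + 1)) ^ 2 * C :=
    one_le_mul_of_one_le_of_one_le (one_le_pow₀ (by linarith)) hC
  refine ⟨(d + 1) ^ 2 * ((2 * (d + 1)) ^ 2 * C), one_le_mul_of_one_le_of_one_le hd2 hC', ?_⟩
  intro j c Γ hΓ
  let A : ∀ i, TT d (j i) → MvPolynomial (VV m ⊕ Option (Fin m)) ℚ := fun i t =>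
    ∑ ν, ∑ μ, (r (j i) false t ν μ : MvPolynomial (VV m ⊕ Option (Fin m)) ℚ) *
      mon (X (.inl (none, false))) (X (.inr none)) ν *
      mon (X (.inl (some i, false))) (X (.inr (some i))) μ
  let cl : VV m ⊕ Option (Fin m) → VV m := Sum.elim id fun o => (o, false)
  have hdeg : ∀ p : VV m ⊕ Option (Fin m), degreeOf p (∑ τ : ∀ i, TT d (j i) × TT d (j i),
      (∑ z, (c z τ : MvPolynomial (VV m ⊕ Option (Fin m)) ℚ) *
        (X (.inl (none, false)) ^ (z.1 : ℕ) * X (.inl (none, true)) ^ (z.2 : ℕ))) *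
        ∏ i, (A i (τ i).1 * armT d (j i) (X (.inl (some i, true))) (X (.inl (none, true)))
          (τ i).2)) ≤ ((if cl p = (none, false) then d else 0) +
            if cl p = (none, true) then d else 0) +
          ∑ i, (((if cl p = (none, false) then 2 * d else 0) +
            if cl p = (some i, false) then (2 * d + 1) * 4 ^ j i else 0) +
            ((if cl p = (some i, true) then (2 * d + 1) * 4 ^ j i else 0) +
            if cl p = (none, true) then 2 * d else 0)) := fun p => by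
    refine ql_deg_sum _ _ fun τ => (degreeOf_mul_le _ _ _).trans (add_le_add ?_ ?_)
    · refine ql_deg_sum _ _ fun z => (degreeOf_mul_le _ _ _).trans ?_
      rw [ql_deg_int, zero_add]
      exact (degreeOf_mul_le _ _ _).trans (add_le_add
        (ql_deg_X_pow cl p _ (Nat.lt_succ_iff.1 z.1.2)) (ql_deg_X_pow cl p _ (Nat.lt_succ_iff.1 z.2.2)))
    · refine (degreeOf_prod_le _ _ _).trans (sum_le_sum fun i _ => (degreeOf_mul_le _ _ _).trans
        (add_le_add (ql_deg_sum _ _ fun ν => ql_deg_sum _ _ fun μ => ?_) ?_))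
      · by_cases h0 : r (j i) false (τ i).1 ν μ = 0
        · simp [h0]
        obtain ⟨k1, k2⟩ := h1 _ _ _ ν μ h0
        refine (degreeOf_mul_le _ _ _).trans (add_le_add ((degreeOf_mul_le _ _ _).trans ?_)
          (ql_deg_mon cl p (.inl (some i, false)) (.inr (some i)) rfl μ k2))
        rw [ql_deg_int, zero_add]
        exact ql_deg_mon cl p (.inl (none, false)) (.inr none) rfl ν k1
      · refine (degreeOf_mul_le _ _ _).trans (add_le_add (ql_deg_X_pow cl p _
          ((ex_le _).trans (Nat.mul_le_mul_right _ (by omega)))) (ql_deg_X_pow cl p _ (by omega)))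
  refine ⟨_, ?_, ?_, fun i s => (hdeg _).trans ?_, fun i => (hdeg _).trans ?_,
    fun s => (hdeg _).trans ?_, (hdeg _).trans ?_, ?_⟩
  · refine isInt_sum _ _ fun τ _ => IsInt.mul (isInt_sum _ _ fun z _ => (ql_int_int _).mul
      ((ql_int_X_pow _ _).mul (ql_int_X_pow _ _))) (isInt_prod _ _ fun i _ => IsInt.mul
        (isInt_sum _ _ fun ν _ => isInt_sum _ _ fun μ _ => ?_)
        ((ql_int_X_pow _ _).mul (ql_int_X_pow _ _)))
    exact ((ql_int_int _).mul ((ql_int_X_pow _ _).mul (ql_int_X_pow _ _))).mul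
      ((ql_int_X_pow _ _).mul (ql_int_X_pow _ _))
  · have hΓ0 : 0 ≤ Γ := (abs_nonneg _).trans
      (hΓ (0, 0) fun i => ((0, ⟨0, by positivity⟩), (0, ⟨0, by positivity⟩)))
    have hA : ∀ i t, len (A i t) ≤ C ^ 4 ^ j i := fun i t =>
      le_trans (ql_len_sum _ fun ν => ql_len_sum _ fun μ => by
        simpa [mon] using ql_len_mul (ql_len_mul (ql_len_int _) (ql_len_mul (ql_len_X_pow _ _)
          (ql_len_X_pow _ _))) (ql_len_mul (ql_len_X_pow _ _) (ql_len_X_pow _ _)))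
        (h2 (j i) false t)
    refine (ql_len_sum _ (t := fun _ => (∑ _z : Fin (d + 1) × Fin (d + 1), Γ * (1 * 1)) *
      ∏ i, (C ^ 4 ^ j i * (1 * 1))) fun τ => ql_len_mul (ql_len_sum _ fun z => ql_len_mul
        ((ql_len_int _).trans (hΓ z τ)) (ql_len_mul (ql_len_X_pow _ _) (ql_len_X_pow _ _)))
        (ql_len_prod _ fun i => ql_len_mul (hA i _)
          (ql_len_mul (ql_len_X_pow _ _) (ql_len_X_pow _ _)))).trans ?_
    have hS : 1 ≤ ∑ i, 4 ^ j i := le_trans (Nat.one_le_pow _ _ (by norm_num))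
      (single_le_sum (f := fun i => 4 ^ j i) (fun _ _ => Nat.zero_le _) (mem_univ ⟨0, hm⟩))
    have e1 : ((d : ℝ) + 1) ^ 2 ≤ ((d + 1) ^ 2) ^ ∑ i, 4 ^ j i := le_self_pow₀ hd2 (by omega)
    have e2 : ∏ i, ((((d : ℝ) + 1) * 4 ^ j i) ^ 2 * C ^ 4 ^ j i) ≤
        ((2 * (d + 1)) ^ 2 * C) ^ ∑ i, 4 ^ j i := by
      rw [← prod_pow_eq_pow_sum]
      refine prod_le_prod (fun i _ => by positivity) fun i _ => ?_
      rw [mul_pow _ C, ← pow_mul, mul_comm 2 (4 ^ j i), pow_mul]
      refine mul_le_mul_of_nonneg_right (pow_le_pow_left₀ (by positivity) ?_ 2) (by positivity)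
      rw [mul_pow, mul_comm ((2 : ℝ) ^ _)]
      refine mul_le_mul (le_self_pow₀ hd (by positivity)) ?_ (by positivity) (by positivity)
      exact_mod_cast (Nat.lt_two_pow_self).le
    calc _ = Γ * (((d : ℝ) + 1) ^ 2 * ∏ i, ((((d : ℝ) + 1) * 4 ^ j i) ^ 2 * C ^ 4 ^ j i)) := by
          simp only [prod_mul_distrib, sum_const, card_univ, Fintype.card_pi, Fintype.card_prod,
            Fintype.card_fin, nsmul_eq_mul, mul_one, sq]
          push_cast
          ring
      _ ≤ _ := by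
          rw [mul_pow _ (_ * C)]
          exact mul_le_mul_of_nonneg_left (mul_le_mul e1 e2 (prod_nonneg fun i _ => by positivity)
            (by positivity)) hΓ0
  · cases s <;> simp [cl]
  · simp [cl]
  · cases s <;> simp [cl] <;> nlinarith
  · simp [cl]
    nlinarith
  · intro R _ φ hφ
    simp only [GT, A, mon, map_sum, map_mul, map_prod, map_pow, map_intCast, map_armT]
    refine sum_congr rfl fun τ _ => congrArg _ (prod_congr rfl fun i _ => ?_)
    rw [h3 (j i) false (τ i).1 R _ _ _ _ (hφ (some i)) (hφ none)]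
    rfl

end Pool.Agent.Lib.MP_8865d3_nt.Gm
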