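import Pool.Agent.Lib.MP_8865d3_nt.Q1Defs
import Pool.Agent.Lib.MP_651af7_nt.P1Ser

/-! Formal branches on the product of the curve and the torus. -/

namespace Pool.Agent.Lib.MP_8865d3_nt.Gm

open Finset MvPowerSeries Pool.Agent.Lib.MP_651af7_nt.Vj.P1

/- Sketch. As exists_branch in P1Ser (reuse ser_one, ser_fc, exists_SN, exists_fix) for the variables (o, false). For the variables
(o, true) the radius is the inverse of the second displayed factor, so it is at most v (u0 o) and v (u0 o - 1). -/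
theorem exists_branchT {K O : Type} [Field K] [CharZero K] [Fintype O] (a b : ℤ) :
    ∃ c : ℝ, 2 ≤ c ∧ ∀ x₀ y₀ u₀ : O → K, (∀ p, y₀ p ^ 2 = fc (a : K) b (x₀ p)) →
      (∀ p, y₀ p ≠ 0) → (∀ p, u₀ p ≠ 0) → (∀ p, u₀ p ≠ 1) →
      ∃ y : O → MvPowerSeries (O × Bool) K,
        (∀ p, y p ^ 2 = fc (a : MvPowerSeries (O × Bool) K) b (C (x₀ p) + X (p, false))) ∧
        (∀ p, constantCoeff (y p) = y₀ p) ∧
        ∀ (v : AbsoluteValue K ℝ) (κ : O × Bool →₀ ℕ),
          ∃ S : SN (MvPowerSeries (O × Bool) K) (IsNonarchimedean v),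
            (∀ f, v (coeff κ f) ≤ S.N f * ∏ p,
              ((E (IsNonarchimedean v) c * max 1 (v (x₀ p)) ^ 2 *
                max 1 (v (4 * y₀ p ^ 2)⁻¹)) ^ κ (p, false) *
              (max 1 (v (u₀ p)⁻¹) * max 1 (v (u₀ p - 1)⁻¹)) ^ κ (p, true))) ∧
            ∀ p, S.N (C (x₀ p) + X (p, false)) ≤ E (IsNonarchimedean v) c * max 1 (v (x₀ p)) ∧
              S.N (y p) ≤ (E (IsNonarchimedean v) c * max 1 (v (x₀ p))) ^ 2 ∧
              (1 < v (x₀ p) → ∃ β, (C (x₀ p) + X (p, false)) * β = 1 ∧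
                S.N β * v (x₀ p) ≤ E (IsNonarchimedean v) c ∧
                S.N (y p * β ^ 2) ^ 2 * v (x₀ p) ≤ E (IsNonarchimedean v) c) ∧
              S.N (C (u₀ p) + X (p, true)) ≤ E (IsNonarchimedean v) c * v (u₀ p) ∧
              S.N (C (u₀ p) + X (p, true) - 1) ≤ E (IsNonarchimedean v) c * v (u₀ p - 1) := by
  classical
  have hA : 1 + |(a : ℝ)| + |(b : ℝ)| ≤ 1 + |(a : ℝ)| + |(b : ℝ)| := le_rfl
  have hA1 : (1 : ℝ) ≤ 1 + |(a : ℝ)| + |(b : ℝ)| := by
    have := abs_nonneg (a : ℝ)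
    have := abs_nonneg (b : ℝ)
    linarith
  generalize hAe : 1 + |(a : ℝ)| + |(b : ℝ)| = A at hA1
  rw [show (1 + |(a : ℝ)| + |(b : ℝ)| ≤ 1 + |(a : ℝ)| + |(b : ℝ)|) =
    (1 + |(a : ℝ)| + |(b : ℝ)| ≤ A) by rw [hAe]] at hA
  refine ⟨144 * A, by linarith, fun x₀ y₀ u₀ hy hy0 hu0 hu1 => ?_⟩
  choose η hη e using fun p : O => exists_fix (C (4 * y₀ p ^ 2)⁻¹ * X (p, false) *
    (3 * C (x₀ p) ^ 2 + (a : MvPowerSeries (O × Bool) K) + 3 * (C (x₀ p) * X (p, false)) +
      X (p, false) ^ 2)) (by simp)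
  refine ⟨fun p => C (y₀ p) * (1 + 2 * η p), fun p => ?_, fun p => by simp [hη], fun v κ => ?_⟩
  · have h1 := congrArg (C : K →+* MvPowerSeries (O × Bool) K) (hy p)
    rw [map_fc, map_pow, map_intCast, map_intCast] at h1
    have h2 : (4 * C (y₀ p) ^ 2 : MvPowerSeries (O × Bool) K) * C (4 * y₀ p ^ 2)⁻¹ = 1 := by
      rw [← map_pow, ← map_ofNat (C : K →+* MvPowerSeries (O × Bool) K) 4, ← map_mul, ← map_mul,
        mul_inv_cancel₀ (mul_ne_zero (by norm_num : (4 : K) ≠ 0) (pow_ne_zero 2 (hy0 p))), map_one]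
    simp only [fc] at h1 ⊢
    linear_combination h1 + 4 * C (y₀ p) ^ 2 * e p + X (p, false) *
      (3 * C (x₀ p) ^ 2 + (a : MvPowerSeries (O × Bool) K) + 3 * (C (x₀ p) * X (p, false)) +
        X (p, false) ^ 2) * h2
  · obtain ⟨r, hr0, hr1⟩ : ∃ r : O × Bool → ℝ,
        (∀ p, r (p, false) = E (IsNonarchimedean v) (144 * A) * max 1 (v (x₀ p)) ^ 2 *
          max 1 (v (4 * y₀ p ^ 2)⁻¹)) ∧
        ∀ p, r (p, true) = max 1 (v (u₀ p)⁻¹) * max 1 (v (u₀ p - 1)⁻¹) :=
      ⟨fun q => if q.2 = true then max 1 (v (u₀ q.1)⁻¹) * max 1 (v (u₀ q.1 - 1)⁻¹) else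
        E (IsNonarchimedean v) (144 * A) * max 1 (v (x₀ q.1)) ^ 2 * max 1 (v (4 * y₀ q.1 ^ 2)⁻¹),
        fun p => by simp, fun p => by simp⟩
    have hE : 0 < E (IsNonarchimedean v) (144 * A) := E_pos (by linarith)
    have hpos : ∀ q, 0 < r q := by
      rintro ⟨p, _ | _⟩
      · rw [hr0]
        positivity
      · rw [hr1]
        positivity
    obtain ⟨S, h1, h2, h3, h4⟩ := exists_SN v _ (fun q => (inv_pos.2 (hpos q)).le) κ
    have key : ∀ (p : O) (w : K), w ≠ 0 → v w⁻¹ ≤ r (p, true) →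
        S.N (C w + X (p, true)) ≤ E (IsNonarchimedean v) (144 * A) * v w := by
      intro p w hw hle
      have hw0 : 0 < v w := v.pos hw
      have h5 : S.N (X (p, true)) ≤ v w := by
        refine (h3 _).trans ?_
        rw [map_inv₀] at hle
        exact inv_le_of_inv_le₀ hw0 hle
      refine (S.add_le (s := 1) (t := 1) (M := v w) (by rw [E_one, one_mul]; exact h2 w)
        (by rwa [E_one, one_mul])).trans ?_
      exact mul_le_mul_of_nonneg_right (E_mono (by linarith)) hw0.le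
    refine ⟨S, fun f => ?_, fun p => ?_⟩
    · have h5 := h1 f
      simp only [inv_pow, prod_inv_distrib] at h5
      refine ((mul_inv_le_iff₀ (prod_pos fun p _ => pow_pos (hpos p) _)).1 h5).trans
        (le_of_eq ?_)
      congr 1
      rw [Fintype.prod_prod_type]
      refine prod_congr rfl fun p _ => ?_
      rw [Fintype.prod_bool, hr0, hr1, mul_comm]
    · have hy2 : v (y₀ p) ^ 2 ≤ E (IsNonarchimedean v) A * max 1 (v (x₀ p)) ^ 3 := by
        rw [← v.map_pow, hy]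
        exact (ser_fc (serAbs v) a b (le_max_left _ _) (le_max_right _ _)).trans
          (mul_le_mul_of_nonneg_right (E_mono hA) (by positivity))
      obtain ⟨k1, k2, k3⟩ := ser_one S h4 h2
        ((le_add_of_nonneg_right (abs_nonneg _)).trans hA) hy2 (by simp) (hη p) (e p)
        (hr0 p ▸ h3 (p, false))
      refine ⟨k1, k2, k3, key p _ (hu0 p) ?_, ?_⟩
      · rw [hr1]
        exact (le_max_right _ _).trans
          (le_mul_of_one_le_right (le_trans zero_le_one (le_max_left _ _)) (le_max_left _ _))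
      · rw [show C (u₀ p) + X (p, true) - 1 =
          (C (u₀ p - 1) + X (p, true) : MvPowerSeries (O × Bool) K) by
            rw [map_sub, map_one]; ring]
        refine key p _ (sub_ne_zero.2 (hu1 p)) ?_
        rw [hr1]
        exact (le_max_right _ _).trans
          (le_mul_of_one_le_left (le_trans zero_le_one (le_max_left _ _)) (le_max_left _ _))

end Pool.Agent.Lib.MP_8865d3_nt.Gm
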