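import Pool.Agent.Lib.MP_8865d3_nt.Q1Aux
import Pool.Agent.Lib.MP_8865d3_nt.Q1Poly
import Pool.Agent.Lib.MP_8865d3_nt.Q1Norm
import Pool.Agent.Lib.MP_8865d3_nt.Q1Ind
import Pool.Agent.Lib.MP_8865d3_nt.Q1Ser
import Pool.Agent.Lib.MP_651af7_nt.P1Core

/-! The height inequality given by the auxiliary section. -/

namespace Pool.Agent.Lib.MP_8865d3_nt.Gm

open Finset Height Pool.Agent.Lib.MP_e97e2b_nt Pool.Agent.Lib.MP_651af7_nt.Iv
  Pool.Agent.Lib.MP_651af7_nt.Vj Pool.Agent.Lib.MP_651af7_nt.Vj.P1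
  Pool.Agent.Lib.Common.Subspace Pool.Agent.Lib.Common.ZeroLemma

/-- Degrees in the torus variables after normalisation. -/
def mm {m : ℕ} (d : ℕ) (j : Fin m → ℕ) : Option (Fin m) → ℕ
  | none => d
  | some i => 4 ^ j i

section

variable {R : Type} [CommRing R] {na : Prop} (S : SN R na) {c s s' : ℝ}

lemma armT_le (hc : 1 ≤ c) (hs : 0 ≤ s) (hs' : 0 < s') {u u' : R} (h : S.N u ≤ E na c * s)
    (h' : S.N u' ≤ E na c * s') {d j : ℕ} (t : TT d j) : S.N (armT d j u u' t) ≤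
      E na c ^ ((d + 1) * 4 ^ j + d) * s' ^ d * max 1 (s ^ 4 ^ j / s') ^ d * max 1 s ^ 4 ^ j := by
  have hE := one_le_E (na := na) hc
  refine (S.mul_le (S.pow_le h _) (S.pow_le h' _)).trans ?_
  obtain ⟨k, hk⟩ := Nat.exists_eq_add_of_le (Nat.lt_succ_iff.1 t.1.2)
  have e1 : (E na c * s) ^ ex t * (E na c * s') ^ (d - t.1) =
      E na c ^ (ex t + (d - t.1)) * s' ^ d * (s ^ 4 ^ j / s') ^ (t.1 : ℕ) * s ^ (t.2 : ℕ) := by
    rw [show d - (t.1 : ℕ) = k by omega, show s' ^ d = s' ^ ((t.1 : ℕ) + k) by rw [← hk], ex,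
      div_pow]
    field_simp
    ring
  rw [e1]
  have e2 : E na c ^ (ex t + (d - t.1)) ≤ E na c ^ ((d + 1) * 4 ^ j + d) :=
    pow_le_pow_right₀ hE (add_le_add (ex_le t) (Nat.sub_le _ _))
  have e3 : (s ^ 4 ^ j / s') ^ (t.1 : ℕ) ≤ max 1 (s ^ 4 ^ j / s') ^ d :=
    (pow_le_pow_left₀ (by positivity) (le_max_right _ _) _).trans
      (pow_le_pow_right₀ (le_max_left _ _) (by omega))
  have e4 : s ^ (t.2 : ℕ) ≤ max 1 s ^ 4 ^ j :=
    (pow_le_pow_left₀ hs (le_max_right _ _) _).trans (pow_le_pow_right₀ (le_max_left _ _) t.2.2.le)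
  gcongr

lemma centre_le (hc : 1 ≤ c) (hs' : 0 < s') {u' : R} (h : 1 ≤ E na c * s)
    (h' : S.N u' ≤ E na c * s') {d e : ℕ} (j : ℕ) (he : e ≤ d) : S.N (u' ^ e) ≤
      E na c ^ ((d + 1) * 4 ^ j + d) * s' ^ d * max 1 (s ^ 4 ^ j / s') ^ d * max 1 s ^ 4 ^ j := by
  have hE := one_le_E (na := na) hc
  have e0 : 1 ≤ E na c ^ 4 ^ j := one_le_pow₀ hE
  have e1 : 1 ≤ E na c ^ 4 ^ j * (s' * max 1 (s ^ 4 ^ j / s')) := by
    refine (one_le_pow₀ h (n := 4 ^ j)).trans ?_
    rw [mul_pow]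
    refine mul_le_mul_of_nonneg_left ?_ (by positivity)
    rw [← div_le_iff₀' hs']
    exact le_max_right _ _
  have e2 : s' ≤ E na c ^ 4 ^ j * (s' * max 1 (s ^ 4 ^ j / s')) :=
    (le_mul_of_one_le_right hs'.le (le_max_left _ _)).trans
      (le_mul_of_one_le_left (by positivity) e0)
  refine (S.pow_le (h'.trans (mul_le_mul_of_nonneg_left e2 (by positivity))) e).trans ?_
  refine (pow_le_pow_right₀ (one_le_mul_of_one_le_of_one_le hE e1) he).trans ?_
  have e3 : 1 ≤ E na c ^ 4 ^ j * max 1 s ^ 4 ^ j :=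
    one_le_mul_of_one_le_of_one_le e0 (one_le_pow₀ (le_max_left _ _))
  refine (le_mul_of_one_le_right (by positivity) e3).trans_eq ?_
  rw [mul_pow, mul_pow, mul_pow, ← pow_mul]
  ring

end

lemma loc_algT {m : ℕ} (d t : ℕ) (j : Fin m → ℕ) (κ : VV m → ℕ) (Γ c : ℝ) (na : Prop)
    (hc : 1 ≤ c) (M Y U A B : Option (Fin m) → ℝ) (hY : ∀ p, 0 ≤ Y p) (hA : ∀ p, 0 ≤ A p)
    (hB : ∀ p, 0 ≤ B p) (q W : Fin m → ℝ) (hq : ∀ i, 1 ≤ q i) (N g s : ℝ) (hs : 0 < s)
    (h1 : g ≤ N * ∏ p, ((E na c * M p ^ 2 * Y p) ^ κ (p, false) * (A p * B p) ^ κ (p, true)))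
    (h2 : N ≤ E na Γ * (E na c * M none) ^ ((2 * m + 1) * d) * (E na c * U none) ^ d *
      ∏ i, ((E na c * M (some i)) ^ ((2 * d + 1) * 4 ^ j i) *
        (E na c ^ ((d + 1) * 4 ^ j i + d) * s ^ d * W i ^ d * U (some i) ^ 4 ^ j i) *
        (E na c / √(q i)) ^ (2 * t * 4 ^ j i))) :
    g / s ^ (d * m) * ∏ i, q i ^ (t * 4 ^ j i) ≤
      E na (Γ * c ^ (∑ p, (nn d j p + κ (p, false)) + d +
          ∑ i, ((d + 1) * 4 ^ j i + d + 2 * t * 4 ^ j i))) *
        ((∏ p, (M p ^ (nn d j p + 2 * κ (p, false)) * Y p ^ κ (p, false) * U p ^ mm d j p *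
          A p ^ κ (p, true) * B p ^ κ (p, true))) * ∏ i, W i ^ d) := by
  have hE := one_le_E (na := na) hc
  have h3 : ∀ i, (E na c / √(q i)) ^ (2 * t * 4 ^ j i) * q i ^ (t * 4 ^ j i) =
      E na c ^ (2 * t * 4 ^ j i) := fun i => by
    have h0 : 0 < q i := by linarith [hq i]
    rw [mul_assoc 2, pow_mul, pow_mul (E na c), ← mul_pow, div_pow, Real.sq_sqrt h0.le,
      div_mul_cancel₀ _ h0.ne']
  have h4 : 0 ≤ ∏ p, ((E na c * M p ^ 2 * Y p) ^ κ (p, false) * (A p * B p) ^ κ (p, true)) :=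
    prod_nonneg fun p _ => mul_nonneg (pow_nonneg (mul_nonneg (by positivity) (hY p)) _)
      (pow_nonneg (mul_nonneg (hA p) (hB p)) _)
  have h5 : 0 ≤ ∏ i, q i ^ (t * 4 ^ j i) :=
    prod_nonneg fun i _ => pow_nonneg (by linarith [hq i]) _
  rw [div_mul_eq_mul_div, div_le_iff₀ (by positivity)]
  refine (mul_le_mul_of_nonneg_right (h1.trans (mul_le_mul_of_nonneg_right h2 h4)) h5).trans_eq ?_
  have h6 : (∏ i, ((E na c * M (some i)) ^ ((2 * d + 1) * 4 ^ j i) *
      (E na c ^ ((d + 1) * 4 ^ j i + d) * s ^ d * W i ^ d * U (some i) ^ 4 ^ j i) *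
      (E na c / √(q i)) ^ (2 * t * 4 ^ j i))) * ∏ i, q i ^ (t * 4 ^ j i) =
      (∏ i, ((E na c * M (some i)) ^ ((2 * d + 1) * 4 ^ j i) * U (some i) ^ 4 ^ j i)) *
        E na c ^ (∑ i, ((d + 1) * 4 ^ j i + d + 2 * t * 4 ^ j i)) * (∏ i, W i ^ d) *
        s ^ (d * m) := by
    rw [show s ^ (d * m) = ∏ _i : Fin m, s ^ d by simp [pow_mul], ← prod_mul_distrib,
      ← prod_pow_eq_pow_sum, ← prod_mul_distrib, ← prod_mul_distrib, ← prod_mul_distrib]
    refine prod_congr rfl fun i _ => ?_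
    rw [mul_assoc, h3]
    ring
  have h7 : (E na c * M none) ^ ((2 * m + 1) * d) * U none ^ d *
      ∏ i, ((E na c * M (some i)) ^ ((2 * d + 1) * 4 ^ j i) * U (some i) ^ 4 ^ j i) =
      ∏ p, ((E na c * M p) ^ nn d j p * U p ^ mm d j p) := by
    rw [Fintype.prod_option]
    rfl
  have h8 : (∏ p, ((E na c * M p) ^ nn d j p * U p ^ mm d j p)) *
      ∏ p, ((E na c * M p ^ 2 * Y p) ^ κ (p, false) * (A p * B p) ^ κ (p, true)) =
      E na c ^ (∑ p, (nn d j p + κ (p, false))) *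
        ∏ p, (M p ^ (nn d j p + 2 * κ (p, false)) * Y p ^ κ (p, false) * U p ^ mm d j p *
          A p ^ κ (p, true) * B p ^ κ (p, true)) := by
    rw [← prod_pow_eq_pow_sum, ← prod_mul_distrib, ← prod_mul_distrib]
    exact prod_congr rfl fun p _ => by ring
  rw [E_mul, E_pow, pow_add, pow_add]
  calc _ = E na Γ * (E na c * M none) ^ ((2 * m + 1) * d) * (E na c * U none) ^ d *
        ((∏ i, ((E na c * M (some i)) ^ ((2 * d + 1) * 4 ^ j i) *
          (E na c ^ ((d + 1) * 4 ^ j i + d) * s ^ d * W i ^ d * U (some i) ^ 4 ^ j i) *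
          (E na c / √(q i)) ^ (2 * t * 4 ^ j i))) * ∏ i, q i ^ (t * 4 ^ j i)) *
        ∏ p, ((E na c * M p ^ 2 * Y p) ^ κ (p, false) * (A p * B p) ^ κ (p, true)) := by ring
    _ = E na Γ * E na c ^ d * E na c ^ (∑ i, ((d + 1) * 4 ^ j i + d + 2 * t * 4 ^ j i)) *
        (∏ i, W i ^ d) * s ^ (d * m) *
        (((E na c * M none) ^ ((2 * m + 1) * d) * U none ^ d *
          ∏ i, ((E na c * M (some i)) ^ ((2 * d + 1) * 4 ^ j i) * U (some i) ^ 4 ^ j i)) *
        ∏ p, ((E na c * M p ^ 2 * Y p) ^ κ (p, false) * (A p * B p) ^ κ (p, true))) := by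
      rw [h6]; ring
    _ = _ := by rw [h7, h8]; ring

variable {K : Type} [Field K] [NumberField K]

omit [NumberField K] in
lemma near_one {c c₀ s : ℝ} (hc : 2 ≤ c) (hc₀ : 1 ≤ c₀) (v : AbsoluteValue K ℝ) {u : K}
    (h : E (IsNonarchimedean v) c₀ * (E (IsNonarchimedean v) c / √(max 1 (min s (v (u - 1)⁻¹)))) <
      1) : 1 ≤ E (IsNonarchimedean v) c * v u := by
  obtain ⟨h1, h2⟩ := near_bound (by linarith) hc₀ h (Or.inr rfl)
  have hE := one_le_E (na := IsNonarchimedean v) (show 1 ≤ c by linarith)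
  have hE₀ := one_le_E (na := IsNonarchimedean v) hc₀
  have h0 : u - 1 ≠ 0 := fun e => by
    rw [e, inv_zero, map_zero] at h1
    linarith
  have h3 := h2 (E (IsNonarchimedean v) c * v (u - 1)) (by positivity)
    (by rw [mul_assoc, ← map_mul, mul_inv_cancel₀ h0, map_one, mul_one])
  have h4 : 0 ≤ E (IsNonarchimedean v) c / √(max 1 (min s (v (u - 1)⁻¹))) := by positivity
  generalize E (IsNonarchimedean v) c / √(max 1 (min s (v (u - 1)⁻¹))) = r at *
  have h5 : r < 1 := by nlinarith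
  have h6 : E (IsNonarchimedean v) c * v (u - 1) < 1 := by nlinarith
  have h7 : (1 : K) = u + -(u - 1) := by ring
  by_cases hv : IsNonarchimedean v
  · rw [E_pos_case hv, one_mul] at *
    have := hv u (-(u - 1))
    rw [← h7, map_one, v.map_neg] at this
    exact (le_max_iff.1 this).resolve_right (not_le.2 h6)
  · rw [E_neg_case hv] at *
    have := v.add_le u (-(u - 1))
    rw [← h7, map_one, v.map_neg] at this
    nlinarith

/-- The local inequalities for a minimal coefficient of the auxiliary section. -/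
theorem exists_localT (a b : ℤ) {m d t : ℕ} (hm : 0 < m)
    (hd : 1152 * m * t ^ 2 ≤ (d + 1) ^ 2) : ∃ C c₁ : ℝ, 1 ≤ C ∧ 1 ≤ c₁ ∧ ∀ j : Fin m → ℕ,
    ∃ c : Fin (d + 1) × Fin (d + 1) → (∀ i, TT d (j i) × TT d (j i)) → ℤ, c ≠ 0 ∧
      (∀ z τ, |(c z τ : ℝ)| ≤ C ^ (∑ i, 4 ^ j i)) ∧
      ∀ (P : Option (Fin m) → Pt (a : K) (b : K)) (u : Option (Fin m) → K), (∀ p, P p ≠ 0) →
        (∀ p, yc (P p) ≠ 0) → (∀ p, u p ≠ 0) → (∀ p, u p ≠ 1) →
        (∀ i, 2 ^ j i • P (some i) ≠ 0) → (∀ i, 2 ^ j i • P (some i) + P none ≠ 0) →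
        ∃ y : Option (Fin m) → MvPowerSeries (VV m) K,
          (∀ p, y p ^ 2 = fc (a : MvPowerSeries (VV m) K) b
            (MvPowerSeries.C (xc (P p)) + MvPowerSeries.X (p, false))) ∧
          (∀ p, y p ≠ 0) ∧ ∀ κ : VV m →₀ ℕ,
          MvPowerSeries.coeff κ (GT a b d j c (fun _ => false)
            (fun p => MvPowerSeries.C (xc (P p)) + MvPowerSeries.X (p, false)) y
            (fun p => MvPowerSeries.C (u p) + MvPowerSeries.X (p, true))) ≠ 0 →
          ∃ κ' ≤ κ, ∃ g : K, g ≠ 0 ∧ ∀ v : AbsoluteValue K ℝ,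
            v g * (∏ i, max 1 (v (xc (2 ^ j i • P (some i) + P none))) ^ d) *
              ∏ i, max 1 (min (v (xc (P (some i)))) (v (u (some i) - 1)⁻¹)) ^ (t * 4 ^ j i) ≤
            E (IsNonarchimedean v) (C ^ (∑ i, 4 ^ j i) *
              c₁ ^ (∑ p, (nn d j p + κ' (p, false)) + d +
                ∑ i, ((d + 1) * 4 ^ j i + d + 2 * t * 4 ^ j i))) *
              ∏ p : Option (Fin m) × Fin 5 ⊕ Fin m, max 1 (v (Sum.elim
                (fun p => ![xc (P p.1), (4 * yc (P p.1) ^ 2)⁻¹, u p.1, (u p.1)⁻¹, (u p.1 - 1)⁻¹] p.2)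
                (fun i => u (some i) ^ 4 ^ j i / u none) p)) ^
                  Sum.elim (fun p => ![nn d j p.1 + 2 * κ' (p.1, false), κ' (p.1, false),
                    mm d j p.1, κ' (p.1, true), κ' (p.1, true)] p.2) (fun _ => d) p := by
  obtain ⟨C, c₀, hC, hc₀, H⟩ := exists_auxT a b hm hd
  obtain ⟨c₁, hc₂, H₁⟩ := exists_branchT (K := K) (O := Option (Fin m)) a b
  have hc₁ : 1 ≤ c₁ := by linarith
  refine ⟨C, c₁, hC, hc₁, fun j => ?_⟩
  obtain ⟨c, hc0, hc1, hc2⟩ := H j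
  refine ⟨c, hc0, hc1, fun P u hP hy hu0 hu1 h2 h3 => ?_⟩
  choose hns hpt using fun p => pt_spec (hP p)
  obtain ⟨y, e1, e2, e3⟩ :=
    H₁ (fun p => xc (P p)) (fun p => yc (P p)) u (fun p => (hns p).1) hy hu0 hu1
  refine ⟨y, e1, fun p h => hy p (by rw [← e2, h, map_zero]), fun κ hκ => ?_⟩
  set x : Option (Fin m) → MvPowerSeries (VV m) K :=
    fun p => MvPowerSeries.C (xc (P p)) + MvPowerSeries.X (p, false) with hx
  set w : Option (Fin m) → MvPowerSeries (VV m) K :=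
    fun p => MvPowerSeries.C (u p) + MvPowerSeries.X (p, true) with hw
  obtain ⟨κ', k1, k2, k3⟩ := exists_min_coeff _ κ hκ
  refine ⟨κ', k1, _, div_ne_zero k2 (pow_ne_zero (d * m) (hu0 none)), fun v => ?_⟩
  have hπ : ∀ p, MvPowerSeries.constantCoeff (x p) = xc (P p) := fun p => by simp [hx]
  have hξ : ∀ i, ∃ ξ : MvPowerSeries (VV m) K, MvPowerSeries.constantCoeff ξ =
      xc (2 ^ j i • P (some i) + P none) ∧
      (law (a : MvPowerSeries (VV m) K) b (j i) (x (some i)) (y (some i)) (x none)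
        (y none) true).1 = ξ * (law (a : MvPowerSeries (VV m) K) b (j i) (x (some i))
          (y (some i)) (x none) (y none) false).1 ∧
      (law (a : MvPowerSeries (VV m) K) b (j i) (x (some i)) (y (some i)) (x none)
        (y none) true).2 = ξ * (law (a : MvPowerSeries (VV m) K) b (j i) (x (some i))
          (y (some i)) (x none) (y none) false).2 := by
    intro i
    have := exists_xplus (F := K) MvPowerSeries.constantCoeff
      (fun f hf => MvPowerSeries.isUnit_iff_constantCoeff.2 (isUnit_iff_ne_zero.2 hf))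
      (e1 (some i)) (e1 none)
    have f1 := hπ (some i)
    have f2 := hπ none
    have f3 := e2 (some i)
    have f4 := e2 none
    have f5 : MvPowerSeries.constantCoeff (a : MvPowerSeries (VV m) K) = (a : K) := by simp
    have f6 : MvPowerSeries.constantCoeff (b : MvPowerSeries (VV m) K) = (b : K) := by simp
    simp only [hx] at f1 f2
    rw [f1, f2, f3, f4, f5, f6] at this
    have g1 := hpt (some i)
    have g2 := hpt none
    have := this (hns (some i)) (hns none) (j i) (by rw [← g1]; exact h2 i)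
      (by rw [← g1, ← g2]; exact h3 i)
    rw [← g1, ← g2] at this
    exact this
  choose ξ x1 x2 using hξ
  obtain ⟨S, s1, s2⟩ := e3 v κ'
  let l : Fin m → Bool := fun i => decide (1 < v (xc (2 ^ j i • P (some i) + P none)))
  have hE := one_le_E (na := IsNonarchimedean v) hc₁
  have hv0 : 0 < v (u none) := v.pos (hu0 none)
  have b1 := hc2 _ _ S x y w (fun p => E (IsNonarchimedean v) c₁ * max 1 (v (xc (P p))))
    (E (IsNonarchimedean v) c₁ * max 1 (v (u none)))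
    (fun i => E (IsNonarchimedean v) c₁ ^ ((d + 1) * 4 ^ j i + d) * v (u none) ^ d *
      max 1 (v (u (some i)) ^ 4 ^ j i / v (u none)) ^ d * max 1 (v (u (some i))) ^ 4 ^ j i)
    (fun i => E (IsNonarchimedean v) c₁ /
      √(max 1 (min (v (xc (P (some i)))) (v (u (some i) - 1)⁻¹)))) l e1
    (fun p => one_le_mul_of_one_le_of_one_le hE (le_max_left _ _)) (fun p => (s2 p).1)
    (fun p => (s2 p).2.1) (one_le_mul_of_one_le_of_one_le hE (le_max_left _ _))
    ((s2 none).2.2.2.1.trans (mul_le_mul_of_nonneg_left (le_max_right _ _) (by positivity)))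
    (fun i => by positivity)
    (fun i s => armT_le S hc₁ (v.nonneg _) hv0 (s2 (some i)).2.2.2.1 (s2 none).2.2.2.1 s)
    (fun i => by positivity) (fun i hi => by
      obtain ⟨n1, n2⟩ := near_bound hc₁ hc₀ hi (Or.inl rfl)
      obtain ⟨n6, n7⟩ := near_bound hc₁ hc₀ hi (Or.inr rfl)
      obtain ⟨β, n3, n4, n5⟩ := (s2 (some i)).2.2.1 n1
      refine ⟨⟨β, n3, n2 _ (S.nonneg _) n4, ?_⟩, ?_, fun e he => centre_le S hc₁ hv0
        (near_one hc₂ hc₀ v hi) (s2 none).2.2.2.1 (j i) he⟩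
      · exact (pow_le_pow_iff_left₀ (S.nonneg _) (by positivity) two_ne_zero).1
          (n2 _ (by positivity) n5)
      · refine (n7 _ (S.nonneg _) ?_).trans ?_
        · refine (mul_le_mul_of_nonneg_right (s2 (some i)).2.2.2.2 (v.nonneg _)).trans_eq ?_
          rw [mul_assoc, ← map_mul, mul_inv_cancel₀ (sub_ne_zero.2 (hu1 _)), map_one, mul_one]
        · have n8 := one_le_E (na := IsNonarchimedean v) hc₀
          have n9 : 0 ≤ E (IsNonarchimedean v) c₁ /
            √(max 1 (min (v (xc (P (some i)))) (v (u (some i) - 1)⁻¹))) := by positivity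
          nlinarith)
  have b2 := s1 (GT a b d j c l x y w)
  rw [GT_law a b d j c l x y w ξ x2, k3, ← GT_law a b d j c l x y w ξ x2, map_mul] at b2
  have b3 : v (MvPowerSeries.constantCoeff (∏ i, if l i = true then ξ i ^ d else 1)) =
      ∏ i, max 1 (v (xc (2 ^ j i • P (some i) + P none))) ^ d := by
    rw [map_prod, map_prod]
    refine prod_congr rfl fun i _ => ?_
    split_ifs with h
    · rw [map_pow, map_pow, x1, max_eq_right (of_decide_eq_true h).le]
    · rw [max_eq_left (not_lt.1 fun h' => h (decide_eq_true h'))]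
      simp
  rw [b3, mul_comm] at b2
  rw [map_div₀, map_pow, div_mul_eq_mul_div]
  refine (loc_algT d t j κ' _ c₁ _ hc₁ (fun p => max 1 (v (xc (P p))))
    (fun p => max 1 (v (4 * yc (P p) ^ 2)⁻¹)) (fun p => max 1 (v (u p)))
    (fun p => max 1 (v (u p)⁻¹)) (fun p => max 1 (v (u p - 1)⁻¹)) (fun p => by positivity)
    (fun p => by positivity) (fun p => by positivity) _ _ (fun i => le_max_left _ _) _ _ _ hv0
    b2 b1).trans_eq ?_
  congr 1
  rw [Fintype.prod_sum_type, Fintype.prod_prod_type]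
  congr 1
  · exact prod_congr rfl fun p _ => by simp [Fin.prod_univ_five]
  · exact prod_congr rfl fun i _ => by simp

/-- Either the height inequality holds with a small error, or a block lies on a small curve. -/
theorem core_ineqT (a b : ℤ) (hD : 4 * a ^ 3 + 27 * b ^ 2 ≠ 0) {m d t : ℕ}
    (hm : 0 < m) (hd : 1152 * m * t ^ 2 ≤ (d + 1) ^ 2) (θ : ℝ) (hθ : 0 < θ) :
    ∃ (B : ℕ) (η C : ℝ), 0 < η ∧ 1 ≤ C ∧ ∀ (ε : ℝ) (j : Fin m → ℕ)
      (P : Option (Fin m) → Pt (a : K) (b : K)) (u : Option (Fin m) → K) (w : Option (Fin m) → ℝ)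
      (D : ℝ), 0 < ε → (∀ p, P p ≠ 0) → (∀ p, yc (P p) ≠ 0) → (∀ p, u p ≠ 0) → (∀ p, u p ≠ 1) →
      (∀ i, 2 ^ j i • P (some i) ≠ 0) → (∀ i, 2 ^ j i • P (some i) + P none ≠ 0) →
      (∀ o, C ≤ ε * w o) → (∀ o o', o ≠ o' → w o ≤ η * w o' ∨ w o' ≤ η * w o) →
      (∀ o, w o * nn d j o ≤ D) → C * (∑ i, 4 ^ j i : ℕ) ≤ ε * D →
      (∃ κ : VV m → ℕ, ∑ p, (κ p : ℝ) * w p.1 < θ * D ∧
        d * ∑ i, ht (2 ^ j i • P (some i) + P none) +
          ∑ i, (t * 4 ^ j i : ℕ) * gg (xc (P (some i))) (u (some i) - 1)⁻¹ ≤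
        C * (∑ i, 4 ^ j i : ℕ) + ∑ p, (nn d j p * ht (P p) + mm d j p * logHeight₁ (u p)) +
          d * ∑ i, logHeight₁ (u none / u (some i) ^ 4 ^ j i) +
          ∑ p, κ p * (5 * (ht (P p.1) + logHeight₁ (u p.1)) + C)) ∨
      ∃ (o : Option (Fin m)) (g : MvPolynomial (Fin 2) ℚ), Irreducible g ∧ IsInt g ∧
        (∀ i, g.degreeOf i ≤ B) ∧ len g ≤ Real.exp (B * ε * w o) ∧
        MvPolynomial.aeval ![xc (P o), u o] g = 0 := by
  classical
  obtain ⟨C₁, c₁, hC₁, hc₁, H₁⟩ := exists_localT (K := K) a b hm hd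
  obtain ⟨C₂, hC₂, H₂⟩ := exists_polyT a b hm d
  obtain ⟨C₃, H₃⟩ := height_y_le (K := K) a b
  obtain ⟨B, η, hη, H₄⟩ := nonvanishing (K := K) (σ := VV m ⊕ Option (Fin m)) (τ := VV m)
    (e := Sum.inl) Sum.inl_injective Prod.fst 3 (Fintype.card (Option (Fin m))) θ hθ
  have l₁ := Real.log_nonneg hC₁
  have l₂ := Real.log_nonneg hC₂
  have l₃ := Real.log_nonneg hc₁
  have l₄ : 0 ≤ Real.log 2 := Real.log_nonneg one_le_two
  set n : ℝ := (totalWeight K : ℝ) with hn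
  have hn0 : 0 ≤ n := Nat.cast_nonneg _
  set e : ℝ := (2 * m + 2) * d + (4 * d + 2 + 2 * t) with he
  have he0 : 0 ≤ e := by positivity
  set C : ℝ := 1 + Real.log C₁ + Real.log C₂ + n * (Real.log C₁ + e * Real.log c₁) +
    n * Real.log c₁ + |C₃| + (2 + |(a : ℝ)| + |(b : ℝ)|) + n * Real.log 2 with hC
  have p₁ : 0 ≤ n * (Real.log C₁ + e * Real.log c₁) := by positivity
  have p₂ : 0 ≤ n * Real.log c₁ := by positivity
  have p₃ : 0 ≤ n * Real.log 2 := by positivity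
  have p₄ : 0 ≤ 2 + |(a : ℝ)| + |(b : ℝ)| := by positivity
  have p₅ := abs_nonneg C₃
  have hC1 : 1 ≤ C := by linarith
  refine ⟨B, η, C, hη, hC1, fun ε j P u w D hε hP hy hu0 hu1 h2 h3 hw hr hdeg hlen => ?_⟩
  obtain ⟨c, hc0, hc1, H₅⟩ := H₁ j
  obtain ⟨y, e1, e2, H₆⟩ := H₅ P u hP hy hu0 hu1 h2 h3
  obtain ⟨G, g1, g2, g3, g3', g4, g4', g5⟩ := H₂ j c _ hc1
  obtain ⟨x₀, y₀, u₀, z1, z2⟩ := GT_ne_zero a b hD d j c hc0
  set T : ℕ := ∑ i, 4 ^ j i with hT
  have hT1 : (1 : ℝ) ≤ T := by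
    have : 4 ^ j ⟨0, hm⟩ ≤ T := single_le_sum (f := fun i => 4 ^ j i) (fun _ _ => Nat.zero_le _)
      (mem_univ _)
    exact_mod_cast (Nat.one_le_pow _ _ (by norm_num)).trans this
  have hT2 : (m : ℝ) ≤ T := by
    have : ∑ _i : Fin m, 1 ≤ T := sum_le_sum fun i _ => Nat.one_le_pow _ _ (by norm_num)
    simpa using this
  let ξ : VV m → K := fun p => cond p.2 (u p.1) (xc (P p.1))
  let ev : MvPolynomial (VV m ⊕ Option (Fin m)) ℚ →+* MvPowerSeries (VV m) K :=
    MvPolynomial.eval₂Hom (algebraMap ℚ _)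
      (Sum.elim (fun p => MvPowerSeries.C (ξ p) + MvPowerSeries.X p) y)
  have v1 : ∀ p, ev (MvPolynomial.X (.inl p)) = MvPowerSeries.C (ξ p) + MvPowerSeries.X p :=
    fun p => by simp [ev]
  have v2 : ∀ p, ev (MvPolynomial.X (.inr p)) = y p := fun p => by simp [ev]
  have v3 : ∀ p, ev (MvPolynomial.X (.inr p)) ^ 2 = fc (a : MvPowerSeries (VV m) K) b
      (ev (MvPolynomial.X (.inl (p, false)))) := fun p => by rw [v1, v2, e1]; rfl
  have v4 : ev G ≠ 0 := by
    refine ev_ne_zeroT (fun o => (o, false)) a b G (fun p => cond p.2 (u₀ p.1) (x₀ p.1)) y₀ z1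
      (fun sg => ?_) ξ ev v1 v3
    rw [g5]
    · simpa using z2 sg
    · intro p
      have : ((sg p : ℤ) : ℂ) ^ 2 = 1 := by
        rcases Int.units_eq_one_or (sg p) with h | h <;> simp [h]
      simp [mul_pow, this, z1]
  have hw0 : ∀ o, 0 ≤ w o := fun o => ((mul_pos_iff_of_pos_left hε).1 (by linarith [hw o])).le
  have : IsDomain (MvPowerSeries (VV m) K) := NoZeroDivisors.to_isDomain _
  have : CharZero (MvPowerSeries (VV m) K) := algebraRat.charZero _
  have hG : Sm (fun q : VV m ⊕ Option (Fin m) => w (Sum.elim Prod.fst id q)) ε D G := by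
    refine ⟨g1, fun μ hμ q => le_trans (mul_le_mul_of_nonneg_left ?_ (hw0 _)) (hdeg _),
      g2.trans ?_⟩
    · refine Nat.cast_le.2 ((MvPolynomial.monomial_le_degreeOf q hμ).trans ?_)
      rcases q with ⟨_ | i, s⟩ | _ | i
      · exact g4 s
      · exact g3 i s
      · exact g4'
      · exact g3' i
    · rw [← mul_pow, ← Real.exp_log (show 0 < C₁ * C₂ by positivity), ← Real.exp_nat_mul,
        Real.exp_le_exp, Real.log_mul (by positivity) (by positivity)]
      nlinarith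
  rcases H₄ ε (fun q => w (Sum.elim Prod.fst id q)) hε (fun q => hC1.trans (hw _))
    (fun p q h => by simp [h]) (fun p q h => hr _ _ h) ξ ev v1
    ((univ : Finset (Option (Fin m))).toList.map Sum.inr)
    (Sum.elim (fun _ => 0) (eqnT (fun o => (o, false)) a b)) (by simp)
    (by rintro (p | p) <;> simp) (eqnT_pairwise _ a b) (fun q hq => by
      obtain ⟨p, -, rfl⟩ := List.mem_map.1 hq
      rw [Sum.elim_inr]
      refine eqnT_rel (fun o => (o, false)) a b p ev _ ε rfl ?_ (v3 p) (by rw [v2]; exact e2 p)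
      have h4 : 2 + |(a : ℝ)| + |(b : ℝ)| ≤ Real.exp (ε * w p) := by
        linarith [hw p, Real.add_one_le_exp (ε * w p)]
      exact h4)
    D (by nlinarith) G hG v4 with ⟨κ, k1, k2⟩ | ⟨p, g, q1, q2, q3, q4, q5⟩
  · left
    rw [g5 _ ev v3] at k2
    simp only [v1, v2] at k2
    obtain ⟨κ', k3, g, hg, k4⟩ := H₆ κ k2
    have hΓ : 1 ≤ C₁ ^ T * c₁ ^ (∑ p, (nn d j p + κ' (p, false)) + d +
        ∑ i, ((d + 1) * 4 ^ j i + d + 2 * t * 4 ^ j i)) :=
      one_le_mul_of_one_le_of_one_le (one_le_pow₀ hC₁) (one_le_pow₀ hc₁)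
    have k5 := height_ineq g hg _ _ _ _ _ _ _ _ hΓ k4
    refine ⟨κ', lt_of_le_of_lt ?_ k1, ?_⟩
    · rw [Finsupp.weight_apply, Finsupp.sum_fintype _ _ (by simp)]
      refine sum_le_sum fun p _ => ?_
      rw [nsmul_eq_mul]
      exact mul_le_mul_of_nonneg_right (Nat.cast_le.2 (k3 p)) (hw0 _)
    rw [mul_sum]
    refine k5.trans ?_
    rw [Real.log_mul (by positivity) (by positivity), Real.log_pow, Real.log_pow,
      Fintype.sum_sum_type, Fintype.sum_prod_type, sum_add_distrib]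
    have k6 : ((∑ p, nn d j p : ℕ) : ℝ) + d +
        (∑ i, ((d + 1) * 4 ^ j i + d + 2 * t * 4 ^ j i) : ℕ) ≤ e * T := by
      rw [Fintype.sum_option]
      simp only [nn, sum_add_distrib, sum_const, card_univ, Fintype.card_fin, smul_eq_mul,
        ← mul_sum, ← hT]
      push_cast
      have : (0 : ℝ) ≤ (2 * m + 2) * d := by positivity
      have : (0 : ℝ) ≤ d := by positivity
      nlinarith
    have k7 : ∑ p, ∑ k : Fin 5, ((![nn d j p + 2 * κ' (p, false), κ' (p, false), mm d j p,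
        κ' (p, true), κ' (p, true)] k : ℕ) : ℝ) *
          logHeight₁ (![xc (P p), (4 * yc (P p) ^ 2)⁻¹, u p, (u p)⁻¹, (u p - 1)⁻¹] k) +
        n * Real.log c₁ * (∑ p, κ' (p, false) : ℕ) ≤
        ∑ p, (nn d j p * ht (P p) + mm d j p * logHeight₁ (u p)) +
          ∑ p, κ' p * (5 * (ht (P p.1) + logHeight₁ (u p.1)) + C) := by
      rw [Nat.cast_sum, mul_sum, Fintype.sum_prod_type, ← sum_add_distrib, ← sum_add_distrib]
      refine sum_le_sum fun p _ => ?_
      obtain ⟨h', -⟩ := pt_spec (hP p)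
      have k8 := H₃ _ _ h'.1
      have k9 : logHeight₁ (4 * yc (P p) ^ 2)⁻¹ + n * Real.log c₁ ≤ 3 * ht (P p) + C := by
        have := le_abs_self C₃
        unfold ht
        linarith
      have k10 : logHeight₁ (u p - 1) ≤ logHeight₁ (u p) + C := by
        have := logHeight₁_sub_le (u p) 1
        rw [logHeight₁_one] at this
        linarith
      have k11 := mul_le_mul_of_nonneg_left k9 (Nat.cast_nonneg (α := ℝ) (κ' (p, false)))
      have k12 := mul_le_mul_of_nonneg_left k10 (Nat.cast_nonneg (α := ℝ) (κ' (p, true)))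
      have k13 := mul_nonneg (Nat.cast_nonneg (α := ℝ) (κ' (p, false))) (zero_le_logHeight₁ (u p))
      have k14 := mul_nonneg (Nat.cast_nonneg (α := ℝ) (κ' (p, true))) (zero_le_logHeight₁ (u p))
      have k15 := mul_nonneg (Nat.cast_nonneg (α := ℝ) (κ' (p, true))) (ht_nonneg (P p))
      rw [Fin.sum_univ_five, Fintype.sum_bool]
      simp only [Matrix.cons_val, logHeight₁_inv (u p), logHeight₁_inv (u p - 1)]
      unfold ht at *
      push_cast
      linarith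
    have k8 := mul_le_mul_of_nonneg_left k6 p₂
    have k9 : n * (Real.log C₁ + e * Real.log c₁) * T ≤ C * T :=
      mul_le_mul_of_nonneg_right (by linarith) (by linarith)
    have k10 : ∑ i, (d : ℝ) * logHeight₁ (u (some i) ^ 4 ^ j i / u none) =
        d * ∑ i, logHeight₁ (u none / u (some i) ^ 4 ^ j i) := by
      rw [mul_sum]
      exact sum_congr rfl fun i _ => by rw [← inv_div, logHeight₁_inv]
    simp only [Sum.elim_inl, Sum.elim_inr]
    rw [k10]
    push_cast at k7 k8 k9 ⊢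
    linarith
  · right
    obtain ⟨g', r1, r2, r3, r4, r5⟩ := exit_two p.1 g q1 q2 B q3 _ q5
    exact ⟨p.1, g', r1, r2, r3, r4.trans q4, r5⟩

end Pool.Agent.Lib.MP_8865d3_nt.Gm
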