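import Pool.Agent.Lib.MP_8865d3_nt.GmIface
import Pool.Agent.Lib.MP_651af7_nt.P1Defs

/-! The auxiliary section on the powers of the product of an elliptic curve and a torus. -/

namespace Pool.Agent.Lib.MP_8865d3_nt.Gm

open Finset Pool.Agent.Lib.MP_651af7_nt.Vj.P1

variable {R : Type} [CommRing R]

/-- The exponent of the arm variable. -/
def ex {d j : ℕ} (t : TT d j) : ℕ := 4 ^ j * t.1 + t.2

/-- The torus factor `(u ^ 4 ^ j / v) ^ t.1 * u ^ t.2 * v ^ d`. -/
def armT (d j : ℕ) (u v : R) (t : TT d j) : R := u ^ ex t * v ^ (d - t.1)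

/-- The auxiliary section in the presentation `l`; `none` is the centre. -/
def GT {m : ℕ} (a b : ℤ) (d : ℕ) (j : Fin m → ℕ)
    (c : Fin (d + 1) × Fin (d + 1) → (∀ i, TT d (j i) × TT d (j i)) → ℤ) (l : Fin m → Bool)
    (x y u : Option (Fin m) → R) : R :=
  ∑ τ : ∀ i, TT d (j i) × TT d (j i),
    (∑ z, (c z τ : R) * (x none ^ (z.1 : ℕ) * u none ^ (z.2 : ℕ))) *
    ∏ i, (arm (a : R) (b : R) d (j i) (x (some i)) (y (some i)) (x none) (y none) (l i) (τ i).1 *
      armT d (j i) (u (some i)) (u none) (τ i).2)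

lemma ex_le {d j : ℕ} (t : TT d j) : ex t ≤ (d + 1) * 4 ^ j := by
  have h1 := t.1.2
  have h2 := t.2.2
  unfold ex
  nlinarith

lemma ex_injective {d j : ℕ} : Function.Injective (ex : TT d j → ℕ) := by
  rintro ⟨s, t⟩ ⟨s', t'⟩ h
  have h1 := congrArg (· / 4 ^ j) h
  have h2 := congrArg (· % 4 ^ j) h
  have h0 : 0 < 4 ^ j := by positivity
  simp only [ex, Nat.mul_add_div h0, Nat.div_eq_of_lt t.2, Nat.div_eq_of_lt t'.2, add_zero,
    Nat.mul_add_mod, Nat.mod_eq_of_lt t.2, Nat.mod_eq_of_lt t'.2] at h1 h2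
  exact Prod.ext (Fin.ext h1) (Fin.ext h2)

variable {R' : Type} [CommRing R'] (φ : R →+* R')

lemma map_armT (d j : ℕ) (u v : R) (t : TT d j) :
    φ (armT d j u v t) = armT d j (φ u) (φ v) t := by simp [armT]

lemma map_GT {m : ℕ} (a b : ℤ) (d : ℕ) (j : Fin m → ℕ)
    (c : Fin (d + 1) × Fin (d + 1) → (∀ i, TT d (j i) × TT d (j i)) → ℤ) (l : Fin m → Bool)
    (x y u : Option (Fin m) → R) : φ (GT a b d j c l x y u) =
      GT a b d j c l (fun p => φ (x p)) (fun p => φ (y p)) (fun p => φ (u p)) := by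
  simp [GT, map_arm, map_armT]

lemma GT_law {m : ℕ} (a b : ℤ) (d : ℕ) (j : Fin m → ℕ)
    (c : Fin (d + 1) × Fin (d + 1) → (∀ i, TT d (j i) × TT d (j i)) → ℤ) (l : Fin m → Bool)
    (x y u : Option (Fin m) → R) (ξ : Fin m → R)
    (hξ : ∀ i, (law (a : R) b (j i) (x (some i)) (y (some i)) (x none) (y none) true).1 =
        ξ i * (law (a : R) b (j i) (x (some i)) (y (some i)) (x none) (y none) false).1 ∧
      (law (a : R) b (j i) (x (some i)) (y (some i)) (x none) (y none) true).2 =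
        ξ i * (law (a : R) b (j i) (x (some i)) (y (some i)) (x none) (y none) false).2) :
    GT a b d j c l x y u =
      (∏ i, if l i = true then ξ i ^ d else 1) * GT a b d j c (fun _ => false) x y u := by
  unfold GT
  rw [mul_sum]
  refine sum_congr rfl fun τ _ => ?_
  rw [mul_left_comm, ← prod_mul_distrib]
  congr 1
  refine prod_congr rfl fun i _ => ?_
  rw [← mul_assoc]
  congr 1
  cases l i
  · simp
  · obtain ⟨k, hk⟩ := Nat.exists_eq_add_of_le (Nat.lt_succ_iff.1 (τ i).1.1.2)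
    simp only [arm, (hξ i).1, (hξ i).2, if_true]
    rw [show d - ((τ i).1.1 : ℕ) = k by omega]
    conv_rhs => rw [show ξ i ^ d = ξ i ^ (((τ i).1.1 : ℕ) + k) by rw [← hk]]
    ring

end Pool.Agent.Lib.MP_8865d3_nt.Gm
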