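import Pool.Agent.Lib.MP_8865d3_nt.Q1Defs
import Pool.Agent.Lib.MP_651af7_nt.P1Jet

/-! The gain from vanishing jets at the origin of the curve and at the unit of the torus. -/

namespace Pool.Agent.Lib.MP_8865d3_nt.Gm

open Finset Pool.Agent.Lib.MP_651af7_nt.Vj.P1

lemma sum_choose_ext {A : Type} [CommRing A] (τ : A) (e k : ℕ) :
    (1 + τ) ^ e = ∑ l ∈ range (k + (e + 1)), (e.choose l : A) * τ ^ l := by
  rw [add_comm 1 τ, add_pow]
  simp only [one_pow, mul_one]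
  refine (sum_congr rfl fun l _ => mul_comm _ _).trans
    (Finset.sum_subset (range_subset_range.2 (by omega)) fun l _ hl => ?_)
  rw [Nat.choose_eq_zero_of_lt (by simpa using hl), Nat.cast_zero, zero_mul]

lemma binom_approx {R : Type} [CommRing R] {na : Prop} (S : SN R na) {c r : ℝ} (hc : 4 ≤ c)
    (h0 : 0 ≤ r) (hr : E na c * r ≤ 1) {τ : R} (hτ : S.N τ ≤ r) (k : ℕ) {e w' : ℕ} (he : e ≤ w') :
    S.N ((1 + τ) ^ e) ≤ E na (2 ^ w') ∧
    S.N ((1 + τ) ^ e - ∑ l : Fin k, (e.choose l : R) * τ ^ (l : ℕ)) ≤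
      E na (2 ^ w') * (E na c * r) ^ k := by
  have hr1 := jet_r_le hc h0 hr
  have hE : 0 ≤ E na c * r := mul_nonneg (E_nonneg (by linarith)) h0
  have h2 : (2 : ℝ) ^ e ≤ 2 ^ w' := pow_le_pow_right₀ (by norm_num) he
  constructor
  · have h1 : S.N (1 + τ) ≤ E na (1 + 1) * 1 :=
      S.add_le (by simpa [E_one] using S.one) (by simpa [E_one] using hτ.trans hr1)
    rw [mul_one, one_add_one_eq_two] at h1
    refine (S.pow_le h1 e).trans ?_
    rw [← E_pow]
    exact E_mono h2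
  · rw [Fin.sum_univ_eq_sum_range fun l => (e.choose l : R) * τ ^ l, sum_choose_ext τ e k,
      ← Finset.sum_range_add_sum_Ico _ (Nat.le_add_right k _), add_sub_cancel_left]
    refine (S.sum_le _ (t := fun l => (e.choose l : ℝ)) (pow_nonneg hE k) fun l hl => ?_).trans
      (mul_le_mul_of_nonneg_right (E_mono (le_trans ?_ h2)) (pow_nonneg hE k))
    · refine (S.mul_le (S.natCast_le _) (S.pow_le hτ l)).trans
        (mul_le_mul_of_nonneg_left ?_ (E_nonneg (by positivity)))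
      exact (pow_le_pow_of_le_one h0 hr1 (mem_Ico.1 hl).1).trans
        (pow_le_pow_left₀ h0 (le_mul_of_one_le_left h0 (one_le_E (by linarith))) k)
    · have h3 := sum_choose_ext (1 : ℝ) e k
      simp only [one_pow, mul_one, one_add_one_eq_two] at h3
      rw [h3]
      exact Finset.sum_le_sum_of_subset_of_nonneg
        (fun l hl => mem_range.2 (mem_Ico.1 hl).2) fun l _ _ => by positivity

/- Sketch. As exists_jet of P1Jet (reuse jet_approx, jet_part, jetN_le_one): the first factor is replaced by its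
polynomial approximation in z, the second factor is exactly (1 + tau) ^ n = sum choose n l * tau ^ l, with
N ((1 + tau) ^ n) <= E (2 ^ w') and sum_l choose n l / c ^ l <= 2 ^ w'. -/
theorem exists_jetT (a b : ℤ) : ∃ c : ℝ, 1 ≤ c ∧
    (∀ k w μ n, |(jet a b k w μ n : ℝ)| ≤ c ^ n) ∧
    ∀ (R : Type) [CommRing R] (na : Prop) (S : SN R na) (β z τ : R) (r : ℝ) (k w w' : ℕ)
      (T : Type) [Fintype T] (e : T → ℕ) (h : MM w × T → R) (H : ℝ), 0 ≤ r → E na c * r ≤ 1 →
      z ^ 2 = β + (a : R) * β ^ 3 + (b : R) * β ^ 4 → S.N β ≤ r ^ 2 → S.N z ≤ r → S.N τ ≤ r →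
      (∀ t, e t ≤ w') → 0 ≤ H → (∀ μ, S.N (h μ) ≤ H) →
      (∀ n : Fin k × Fin k, ∑ μ, h μ * ((jet a b k w μ.1 n.1 : R) * ((e μ.2).choose n.2 : R)) = 0) →
      S.N (∑ μ, h μ * (β ^ (w - μ.1.1 - 2 * μ.1.2) * z ^ (μ.1.2 : ℕ) * (1 + τ) ^ e μ.2)) ≤
        E na (3 * Fintype.card (MM w × T) * 2 ^ w') * H * (E na c * r) ^ k := by
  have ha := abs_nonneg (a : ℝ)
  have hb := abs_nonneg (b : ℝ)
  set c : ℝ := 4 + 32 * (|(a : ℝ)| + |(b : ℝ)|) with hcd
  have hc : 4 ≤ c := by linarith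
  have hab : 32 * (|(a : ℝ)| + |(b : ℝ)|) ≤ c := by linarith
  refine ⟨c, by linarith, fun k w μ n => ?_, ?_⟩
  · have h2 := (jetN_ge (by positivity) _ {n}).trans
      (jetN_le_one hc hab k (w - μ.1 - 2 * μ.2) μ.2)
    rw [sum_singleton, inv_pow, ← div_eq_mul_inv, div_le_one (by positivity)] at h2
    exact h2
  intro R _ na S β z τ r k w w' T _ e h H h0 hr he hβ hz hτ hw hH hh hj
  have hE : 0 ≤ E na c * r := mul_nonneg (E_nonneg (by linarith)) h0
  have h2 : ∑ μ, h μ * ((∑ n : Fin k, (jet a b k w μ.1 n : R) * z ^ (n : ℕ)) *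
      ∑ l : Fin k, ((e μ.2).choose l : R) * τ ^ (l : ℕ)) = 0 := by
    have h4 : ∀ μ : MM w × T, h μ * ((∑ n : Fin k, (jet a b k w μ.1 n : R) * z ^ (n : ℕ)) *
        ∑ l : Fin k, ((e μ.2).choose l : R) * τ ^ (l : ℕ)) = ∑ n : Fin k × Fin k,
        h μ * ((jet a b k w μ.1 n.1 : R) * z ^ (n.1 : ℕ) *
          (((e μ.2).choose n.2 : R) * τ ^ (n.2 : ℕ))) := fun μ => by
      rw [Finset.sum_mul_sum, ← Finset.mul_sum, Fintype.sum_prod_type]
    rw [sum_congr rfl fun μ _ => h4 μ, Finset.sum_comm]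
    refine Finset.sum_eq_zero fun n _ => ?_
    have h3 := congrArg (· * (z ^ (n.1 : ℕ) * τ ^ (n.2 : ℕ))) (hj n)
    simp only [zero_mul, Finset.sum_mul] at h3
    rw [← h3]
    exact sum_congr rfl fun μ _ => by ring
  rw [← sub_zero (∑ μ, _), ← h2, ← Finset.sum_sub_distrib]
  refine (S.sum_le_card univ (M := H * (E na (3 * 2 ^ w') * (E na c * r) ^ k))
    (mul_nonneg hH (mul_nonneg (E_nonneg (by positivity)) (pow_nonneg hE k))) fun μ _ => ?_).trans
    (le_of_eq (by rw [E_mul, E_mul, E_mul, card_univ]; ring))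
  rw [← mul_sub]
  refine S.mul_le (hh μ) ?_
  obtain ⟨a1, a2⟩ := jet_approx S hc hab h0 hr hz hβ he k w μ.1
  obtain ⟨b1, b2⟩ := binom_approx S hc h0 hr hτ k (hw μ.2)
  have c1 := S.mul_le a2 b1
  have c2 := S.mul_le a1 b2
  rw [mul_right_comm, ← E_mul] at c1
  rw [one_mul] at c2
  have c3 := (S.add_le c1 c2).trans (mul_le_mul_of_nonneg_right
    (E_mono (t := 3 * 2 ^ w') (by have : (0 : ℝ) ≤ 2 ^ w' := by positivity
                                  linarith)) (pow_nonneg hE k))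
  refine le_trans (le_of_eq (congrArg S.N ?_)) c3
  ring

end Pool.Agent.Lib.MP_8865d3_nt.Gm
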