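import Pool.Agent.Lib.MP_8865d3_nt.Lead

/-! Gaussian elimination at a point, and the moving subspace theorem normalised by determinants. -/

namespace Pool.Agent.Lib.MP_8865d3_nt

open Finset Matrix MvPolynomial Pool.Agent.Lib.Common.Subspace
open Pool.Agent.Lib.MP_651af7_nt.Moving

variable {σ ι : Type} [Fintype σ] [DecidableEq σ] [Fintype ι] [DecidableEq ι]

/-- Every monomial of `P` has degree `d - c`. -/
def Hom (P : MvPolynomial σ ℤ) (c d : ℕ) : Prop := ∀ μ ∈ P.support, μ.degree + c = d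

omit [Fintype σ] in
theorem Hom.mul {P Q : MvPolynomial σ ℤ} {c d c' d' : ℕ} (h : Hom P c d) (h' : Hom Q c' d') :
    Hom (P * Q) (c + c') (d + d') := fun μ hμ => by
  obtain ⟨α, hα, β, hβ, rfl⟩ := mem_add.1 (support_mul P Q hμ)
  have := h α hα
  have := h' β hβ
  rw [map_add]
  omega

/-- Each row is homogeneous. -/
def RowHom (a : ι → ℕ) (G : Matrix ι ι (MvPolynomial σ ℤ)) : Prop :=
  ∀ r, ∃ d, ∀ i, Hom (G r i) (a i) d

/-- The linear forms given by the rows of `G`, at the point `(u, x)`. -/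
noncomputable def frm (G : Matrix ι ι (MvPolynomial σ ℤ)) (u : σ → ℤ) (x : ι → ℤ) (r : ι) : ℤ :=
  ∑ i, eval u (G r i) * x i

omit [Fintype σ] in
theorem tri_aux (a : ι → ℕ) (m : ℕ) : ∀ (G : Matrix ι ι (MvPolynomial σ ℤ)) (A : Finset ι)
    (π : ι → ι) (rk : ι → ℕ), #Aᶜ = m → Set.InjOn π A → Set.InjOn rk A → (∀ r ∈ A, rk r < #A) →
    (∀ r' ∈ A, ∀ r, (r ∉ A ∨ rk r' < rk r) → G r (π r') = 0) → RowHom a G →
    ∃ FF : Finset (Matrix ι ι (MvPolynomial σ ℤ)),
      (∀ Y ∈ FF, RowHom a Y ∧ ∃ rk : ι → ℕ, Function.Injective rk ∧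
        ∀ r i, rk i < rk r → Y r i = 0) ∧
      ∀ (v : AbsoluteValue ℚ ℝ) (u : σ → ℤ) (x : ι → ℤ), eval u G.det ≠ 0 →
        ∃ Y ∈ FF, eval u Y.det ≠ 0 ∧ (∏ r, v (frm Y u x r)) * v (eval u G.det : ℤ) ≤
          (2 ^ Fintype.card ι) ^ m * (∏ r, v (frm G u x r)) * v (eval u Y.det : ℤ) := by
  classical
  induction m with
  | zero =>
    intro G A π rk hm hπ hrk _ hinv hG
    have hA : A = univ := by simpa using hm
    subst hA
    have hπ' : Function.Injective π := by simpa using hπ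
    have hrk' : Function.Injective rk := by simpa using hrk
    let e : Equiv.Perm ι := Equiv.ofBijective π (Finite.injective_iff_bijective.1 hπ')
    refine ⟨{G.submatrix e.symm id}, ?_, fun v u x h => ⟨_, mem_singleton_self _, ?_⟩⟩
    · intro Y hY
      rw [mem_singleton.1 hY]
      refine ⟨fun r => hG _, rk ∘ e.symm, hrk'.comp e.symm.injective, fun r i h => ?_⟩
      have := hinv (e.symm i) (mem_univ _) (e.symm r) (Or.inr h)
      rwa [show π (e.symm i) = i from e.apply_symm_apply i] at this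
    · have h1 : (G.submatrix e.symm id).det = G.det ∨ (G.submatrix e.symm id).det = -G.det := by
        rw [det_permute]
        rcases Int.units_eq_one_or (Equiv.Perm.sign e.symm) with h | h <;> simp [h]
      have h2 : ∏ r, v (frm (G.submatrix e.symm id) u x r) = ∏ r, v (frm G u x r) :=
        Equiv.prod_comp e.symm fun r => v (frm G u x r)
      rw [h2]
      rcases h1 with h1 | h1 <;> rw [h1] <;> simp [h]
  | succ m ih =>
    intro G A π rk hm hπ hrk hlt hinv hG
    let G' : ι × ι → Matrix ι ι (MvPolynomial σ ℤ) := fun p => Matrix.of fun r j =>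
      if r ∈ insert p.1 A then G r j else G p.1 p.2 * G r j - G r p.2 * G p.1 j
    have key : ∀ p : ι × ι, p.1 ∉ A → G p.1 p.2 ≠ 0 → _ := fun p h1 h2 =>
      ih (G' p) (insert p.1 A) (Function.update π p.1 p.2) (Function.update rk p.1 #A)
        (by rw [card_compl, card_insert_of_notMem h1]; rw [card_compl] at hm; omega)
        (by
          have h3 : ∀ r ∈ A, π r ≠ p.2 := fun r hr h => h2 (h ▸ hinv r hr p.1 (Or.inl h1))
          intro r hr r' hr' h
          rcases mem_insert.1 hr with rfl | hr <;> rcases mem_insert.1 hr' with h4 | hr'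
          · exact h4.symm
          · rw [Function.update_self, Function.update_of_ne (ne_of_mem_of_not_mem hr' h1)] at h
            exact absurd h.symm (h3 r' hr')
          · rw [h4, Function.update_self, Function.update_of_ne (ne_of_mem_of_not_mem hr h1)] at h
            exact absurd h (h3 r hr)
          · rw [Function.update_of_ne (ne_of_mem_of_not_mem hr h1),
              Function.update_of_ne (ne_of_mem_of_not_mem hr' h1)] at h
            exact hπ hr hr' h)
        (by
          intro r hr r' hr' h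
          rcases mem_insert.1 hr with rfl | hr <;> rcases mem_insert.1 hr' with h4 | hr'
          · exact h4.symm
          · rw [Function.update_self, Function.update_of_ne (ne_of_mem_of_not_mem hr' h1)] at h
            exact absurd h.symm (hlt r' hr').ne
          · rw [h4, Function.update_self, Function.update_of_ne (ne_of_mem_of_not_mem hr h1)] at h
            exact absurd h (hlt r hr).ne
          · rw [Function.update_of_ne (ne_of_mem_of_not_mem hr h1),
              Function.update_of_ne (ne_of_mem_of_not_mem hr' h1)] at h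
            exact hrk hr hr' h)
        (by
          intro r hr
          rw [card_insert_of_notMem h1]
          rcases mem_insert.1 hr with rfl | hr
          · rw [Function.update_self]; omega
          · rw [Function.update_of_ne (ne_of_mem_of_not_mem hr h1)]
            have := hlt r hr
            omega)
        (by
          intro r' hr' r h
          simp only [G', of_apply]
          rcases mem_insert.1 hr' with rfl | hr'
          · rw [Function.update_self]
            rcases h with h | h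
            · rw [if_neg h]; ring
            · rw [Function.update_self] at h
              split_ifs with h4
              · rcases mem_insert.1 h4 with h5 | h5
                · rw [h5, Function.update_self] at h; omega
                · rw [Function.update_of_ne (ne_of_mem_of_not_mem h5 h1)] at h
                  have := hlt r h5
                  omega
              · ring
          · rw [Function.update_of_ne (ne_of_mem_of_not_mem hr' h1)] at h ⊢
            split_ifs with h4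
            · rcases mem_insert.1 h4 with h5 | h5
              · exact hinv r' hr' r (Or.inl (h5 ▸ h1))
              · rw [Function.update_of_ne (ne_of_mem_of_not_mem h5 h1)] at h
                exact hinv r' hr' r (Or.inr (h.resolve_left (not_not.2 h4)))
            · rw [hinv r' hr' r (Or.inl fun h => h4 (mem_insert_of_mem h)),
                hinv r' hr' p.1 (Or.inl h1)]
              ring)
        (by
          intro r
          by_cases h4 : r ∈ insert p.1 A
          · simpa only [G', of_apply, if_pos h4] using hG r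
          · obtain ⟨d, hd⟩ := hG r
            obtain ⟨d', hd'⟩ := hG p.1
            refine ⟨d + d' - a p.2, fun j μ hμ => ?_⟩
            simp only [G', of_apply, if_neg h4] at hμ
            rcases mem_union.1 (support_sub _ _ _ hμ) with h5 | h5
            · have := (hd' p.2).mul (hd j) μ h5
              omega
            · have := (hd p.2).mul (hd' j) μ h5
              omega)
    choose! FF hFF1 hFF2 using key
    refine ⟨(univ.filter fun p : ι × ι => p.1 ∉ A ∧ G p.1 p.2 ≠ 0).biUnion FF, ?_,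
      fun v u x hdet => ?_⟩
    · intro Y hY
      obtain ⟨p, hp, hY⟩ := mem_biUnion.1 hY
      exact hFF1 p (mem_filter.1 hp).2.1 (mem_filter.1 hp).2.2 Y hY
    have hne : (univ.filter fun p : ι × ι => p.1 ∉ A ∧ eval u (G p.1 p.2) ≠ 0).Nonempty := by
      obtain ⟨r, hr⟩ := card_pos.1 (show 0 < #Aᶜ by omega)
      rw [RingHom.map_det] at hdet
      obtain ⟨i, hi⟩ := Function.ne_iff.1 (row_ne_zero hdet r)
      exact ⟨(r, i), mem_filter.2 ⟨mem_univ _, mem_compl.1 hr, hi⟩⟩
    obtain ⟨p, hp, hmin⟩ := exists_min_image _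
      (fun p : ι × ι => v (frm G u x p.1) / v (eval u (G p.1 p.2) : ℤ)) hne
    obtain ⟨-, hp1, hp2⟩ := mem_filter.1 hp
    have hp3 : G p.1 p.2 ≠ 0 := fun h => hp2 (by rw [h, map_zero])
    have ha0 : 0 < v (eval u (G p.1 p.2) : ℤ) := v.pos (by exact_mod_cast hp2)
    let dd : ι → MvPolynomial σ ℤ := fun r => if r ∈ insert p.1 A then 1 else G p.1 p.2
    have hdd : (G' p).det = (∏ r, dd r) * G.det := by
      rw [← det_mul_column]
      refine det_eq_of_forall_row_eq_smul_add_const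
        (fun r => if r ∈ insert p.1 A then 0 else -G r p.2) p.1 (by simp) fun r j => ?_
      simp only [G', dd, of_apply, mem_insert_self, if_true]
      split_ifs <;> ring
    have hdd0 : ∀ r, 0 < v (eval u (dd r) : ℤ) := fun r => by
      simp only [dd]
      split_ifs
      · simp
      · exact ha0
    have hdv : v (eval u (G' p).det : ℤ) = (∏ r, v (eval u (dd r) : ℤ)) * v (eval u G.det : ℤ) := by
      rw [hdd, map_mul, map_prod, Int.cast_mul, Int.cast_prod, map_mul, map_prod]
    have hG0 : 0 < v (eval u G.det : ℤ) := v.pos (by exact_mod_cast hdet)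
    have hG'0 : 0 < v (eval u (G' p).det : ℤ) :=
      hdv ▸ mul_pos (prod_pos fun r _ => hdd0 r) hG0
    obtain ⟨Y, hY, hY0, hle⟩ := hFF2 p hp1 hp3 v u x (by exact_mod_cast v.pos_iff.1 hG'0)
    refine ⟨Y, mem_biUnion.2 ⟨p, mem_filter.2 ⟨mem_univ _, hp1, hp3⟩, hY⟩, hY0, ?_⟩
    have h1 : ∀ r, v (frm (G' p) u x r) ≤ 2 * (v (eval u (dd r) : ℤ) * v (frm G u x r)) := by
      intro r
      by_cases h4 : r ∈ insert p.1 A
      · have : frm (G' p) u x r = frm G u x r := by simp only [frm, G', of_apply, if_pos h4]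
        simp only [this, dd, if_pos h4, map_one, Int.cast_one, one_mul]
        linarith [v.nonneg (frm G u x r : ℤ)]
      · have h5 : frm (G' p) u x r = eval u (G p.1 p.2) * frm G u x r -
            eval u (G r p.2) * frm G u x p.1 := by
          simp only [frm, G', of_apply, if_neg h4, mul_sum, ← sum_sub_distrib, map_sub, map_mul]
          exact sum_congr rfl fun i _ => by ring
        have h6 : v (eval u (G r p.2) : ℤ) * v (frm G u x p.1) ≤
            v (eval u (G p.1 p.2) : ℤ) * v (frm G u x r) := by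
          by_cases h7 : eval u (G r p.2) = 0
          · rw [h7, Int.cast_zero, map_zero, zero_mul]
            exact mul_nonneg ha0.le (v.nonneg _)
          · have h8 := hmin (r, p.2) (mem_filter.2 ⟨mem_univ _,
              fun h => h4 (mem_insert_of_mem h), h7⟩)
            rw [div_le_div_iff₀ ha0 (v.pos (by exact_mod_cast h7))] at h8
            linarith
        simp only [dd, if_neg h4]
        rw [h5, Int.cast_sub, Int.cast_mul, Int.cast_mul]
        refine (v.sub_le_add _ _).trans ?_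
        rw [map_mul, map_mul]
        linarith
    have h2 := prod_le_prod (fun r (_ : r ∈ univ) => v.nonneg _) fun r _ => h1 r
    rw [prod_mul_distrib, prod_mul_distrib, prod_const, card_univ] at h2
    refine le_of_mul_le_mul_right ?_ (prod_pos fun r (_ : r ∈ univ) => hdd0 r)
    have h3 := v.nonneg (eval u Y.det : ℤ)
    calc _ = (∏ r, v (frm Y u x r)) * v (eval u (G' p).det : ℤ) := by rw [hdv]; ring
      _ ≤ _ := hle
      _ ≤ (2 ^ Fintype.card ι) ^ m * (2 ^ Fintype.card ι * ((∏ r, v (eval u (dd r) : ℤ)) *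
          ∏ r, v (frm G u x r))) * v (eval u Y.det : ℤ) := by gcongr
      _ = _ := by ring

omit [DecidableEq σ] in
theorem eval_le_lead (v : AbsoluteValue ℚ ℝ) (hv : ∀ z : ℤ, v z ≤ |(z : ℝ)|)
    (p : MvPolynomial σ ℤ) (u : σ → ℤ) {B : ℝ}
    (h : ∀ κ ∈ p.support, ∏ t, v (u t) ^ κ t ≤ B) :
    v (eval u p : ℤ) ≤ (∑ κ ∈ p.support, |((coeff κ p : ℤ) : ℝ)|) * B := by
  rw [eval_eq', Int.cast_sum, sum_mul]
  refine (v.sum_le _ _).trans (sum_le_sum fun κ hκ => ?_)
  rw [Int.cast_mul, map_mul]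
  refine mul_le_mul (hv _) (le_trans (le_of_eq ?_) (h κ hκ)) (v.nonneg _) (abs_nonneg _)
  push_cast
  rw [map_prod]
  simp only [map_pow]

omit [DecidableEq σ] in
theorem exp_weight (v : AbsoluteValue ℚ ℝ) {u : σ → ℤ} (hu : ∀ t, u t ≠ 0) (κ : σ →₀ ℕ) :
    Real.exp (Finsupp.weight (fun t => Real.log (v (u t))) κ) = ∏ t, v (u t) ^ κ t := by
  rw [Finsupp.weight_eq_sum, Real.exp_sum]
  refine prod_congr rfl fun t _ => ?_
  rw [nsmul_eq_mul, Real.exp_nat_mul, Real.exp_log (v.pos (by exact_mod_cast hu t))]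

omit [DecidableEq σ] in
theorem exists_lead_at [LinearOrder σ] (v : AbsoluteValue ℚ ℝ) {u : σ → ℤ} (hu : ∀ t, u t ≠ 0)
    {p : MvPolynomial σ ℤ} (hp : p ≠ 0) :
    ∃ γ, (∃ w, Lead w p γ) ∧ ∀ κ ∈ p.support, ∏ t, v (u t) ^ κ t ≤ ∏ t, v (u t) ^ γ t := by
  obtain ⟨γ, h1, h2⟩ := exists_lead (fun t => Real.log (v (u t))) hp
  refine ⟨γ, ⟨_, h1⟩, fun κ hκ => ?_⟩
  rw [← exp_weight v hu, ← exp_weight v hu]
  exact Real.exp_le_exp.2 (h2 κ hκ)

theorem mdet [LinearOrder σ] [Nonempty σ] [Nonempty ι] {Φ : Type} [Fintype Φ] (a : ι → ℕ)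
    (G : Φ → Matrix ι ι (MvPolynomial σ ℤ)) (hG : ∀ φ, RowHom a (G φ)) {ε : ℝ} (hε : 0 < ε) :
    ∃ (c b : ℕ) (W : Finset (Idx σ a b → ℤ)), (∀ i, a i ≤ b) ∧ (∀ w ∈ W, w ≠ 0) ∧
    ∀ (S : Finset ℕ) (hS : ∀ p ∈ S, p.Prime), ∃ C : ℝ, ∀ (u : σ → ℤ) (x : ι → ℤ),
      (∀ t, u t ≠ 0) → (∀ i, x i ≠ 0) → (∀ w ∈ W, w ⬝ᵥ mvec a b u x ≠ 0) →
      ∀ φ : Option S → Φ, (∀ o, eval u (G (φ o)).det ≠ 0) →
      1 ≤ Real.exp (C + ε * (Real.log ‖u‖ + Real.log ‖x‖)) *
        (∏ t, ∏ o, place S hS o (u t)) ^ c *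
        ∏ o, (∏ r, place S hS o (frm (G (φ o)) u x r)) /
          place S hS o (eval u (G (φ o)).det : ℤ) := by
  classical
  choose FF hFF1 hFF2 using fun φ => tri_aux a (Fintype.card ι) (G φ) ∅ id (fun _ => 0)
    (by simp) (by simp) (by simp) (by simp) (by simp) (hG φ)
  let T : Finset (Σ _ : Matrix ι ι (MvPolynomial σ ℤ), ι → σ →₀ ℕ) :=
    ((univ.biUnion FF).sigma fun Y => Fintype.piFinset fun r => (Y r r).support).filter
      fun q => ∀ r, ∃ w, Lead w (q.1 r r) (q.2 r)
  have hT : ∀ q : T, RowHom a q.1.1 ∧ ∃ rk : ι → ℕ, Function.Injective rk ∧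
      ∀ r i, rk i < rk r → q.1.1 r i = 0 := fun q => by
    obtain ⟨φ, -, h⟩ := mem_biUnion.1 (mem_sigma.1 (mem_filter.1 q.2).1).1
    exact hFF1 φ _ h
  obtain ⟨c, b, W, hb, hW, h⟩ := ml0 a (fun q : T => q.1.2) (fun q => q.1.1) (fun q r i μ hμ => by
    obtain ⟨d, hd⟩ := (hT q).1 r
    obtain ⟨w, hw, -⟩ := (mem_filter.1 q.2).2 r
    rw [hd i μ hμ, hd r _ (mem_support_iff.2 hw)]) (fun q => (hT q).2)
    (fun q => (mem_filter.1 q.2).2) hε
  set C₀ : ℝ := 1 + ∑ q : T × ι, ∑ κ ∈ (q.1.1.1 q.2 q.2).support,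
    |((coeff κ (q.1.1.1 q.2 q.2) : ℤ) : ℝ)| with hC₀
  have hC1 : 1 ≤ C₀ := le_add_of_nonneg_right (by positivity)
  have hC : ∀ (q : T) r, ∑ κ ∈ (q.1.1 r r).support, |((coeff κ (q.1.1 r r) : ℤ) : ℝ)| ≤ C₀ :=
    fun q r => (single_le_sum (f := fun q : T × ι => ∑ κ ∈ (q.1.1.1 q.2 q.2).support,
      |((coeff κ (q.1.1.1 q.2 q.2) : ℤ) : ℝ)|) (fun _ _ => by positivity)
      (mem_univ (q, r))).trans (by linarith)
  set C₁ : ℝ := C₀ ^ Fintype.card ι * (2 ^ Fintype.card ι) ^ Fintype.card ι with hC₁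
  have hC₁0 : 0 < C₁ := by positivity
  refine ⟨c, b, W, hb, hW, fun S hS => ?_⟩
  obtain ⟨C, hC'⟩ := h S hS
  refine ⟨C + Fintype.card (Option S) * Real.log C₁, fun u x hu hx hw φ hφ => ?_⟩
  have h1 : ∀ o : Option S, ∃ q : T, ∏ r, place S hS o ((∑ i, eval u (q.1.1 r i) * x i : ℤ) : ℚ) /
      ∏ t, place S hS o (u t) ^ q.1.2 r t ≤ C₁ * ((∏ r, place S hS o (frm (G (φ o)) u x r)) /
        place S hS o (eval u (G (φ o)).det : ℤ)) := by
    intro o
    set v := place S hS o with hv
    obtain ⟨Y, hY, hY0, hle⟩ := hFF2 (φ o) v u x (hφ o)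
    obtain ⟨-, rk, hrk, htri⟩ := hFF1 _ _ hY
    have hdet : Y.det = ∏ r, Y r r := by
      let _ := LinearOrder.lift' rk hrk
      convert det_of_isUpperTriangular (M := Y) fun r i h => htri r i h
    have h2 : ∀ r, eval u (Y r r) ≠ 0 := by
      rw [hdet, map_prod] at hY0
      exact fun r => prod_ne_zero_iff.1 hY0 r (mem_univ _)
    choose γ hγ1 hγ2 using fun r => exists_lead_at v hu (p := Y r r)
      fun h => h2 r (by rw [h, map_zero])
    let q : T := ⟨⟨Y, γ⟩, mem_filter.2 ⟨mem_sigma.2 ⟨mem_biUnion.2 ⟨_, mem_univ _, hY⟩,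
      Fintype.mem_piFinset.2 fun r => mem_support_iff.2 (hγ1 r).choose_spec.1⟩, hγ1⟩⟩
    refine ⟨q, ?_⟩
    have h3 : ∀ r, v (eval u (Y r r) : ℤ) ≤ C₀ * ∏ t, v (u t) ^ γ r t := fun r =>
      (eval_le_lead v ((places_place S hS).1 o) _ u (hγ2 r)).trans
        (mul_le_mul_of_nonneg_right (hC q r) (prod_nonneg fun t _ => pow_nonneg (v.nonneg _) _))
    have h4 := prod_le_prod (fun r (_ : r ∈ univ) => v.nonneg _) fun r _ => h3 r
    rw [prod_mul_distrib, prod_const, card_univ, ← map_prod, ← Int.cast_prod, ← map_prod,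
      ← hdet] at h4
    have h5 : 0 < ∏ r, ∏ t, v (u t) ^ γ r t :=
      prod_pos fun r _ => prod_pos fun t _ => pow_pos (v.pos (by exact_mod_cast hu t)) _
    have h6 : 0 < v (eval u (G (φ o)).det : ℤ) := v.pos (by exact_mod_cast hφ o)
    rw [prod_div_distrib, ← mul_div_assoc, div_le_div_iff₀ h5 h6]
    refine hle.trans ?_
    have h7 : 0 ≤ ∏ r, v (frm (G (φ o)) u x r) := prod_nonneg fun r _ => v.nonneg _
    calc _ ≤ (2 ^ Fintype.card ι) ^ Fintype.card ι * (∏ r, v (frm (G (φ o)) u x r)) *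
          (C₀ ^ Fintype.card ι * ∏ r, ∏ t, v (u t) ^ γ r t) := by gcongr
      _ = _ := by rw [hC₁]; ring
  choose q hq using h1
  refine (hC' u x hu hx hw q).trans ?_
  have h2 := prod_le_prod (fun o (_ : o ∈ univ) => prod_nonneg fun r _ => div_nonneg
    ((place S hS o).nonneg _) (prod_nonneg fun t _ => pow_nonneg ((place S hS o).nonneg _) _))
    fun o _ => hq o
  rw [prod_mul_distrib, prod_const, card_univ] at h2
  have hA0 : 0 ≤ ∏ t, ∏ o, place S hS o (u t) :=
    prod_nonneg fun t _ => prod_nonneg fun o _ => (place S hS o).nonneg _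
  refine (mul_le_mul_of_nonneg_left h2 (by positivity)).trans (le_of_eq ?_)
  rw [add_right_comm C, Real.exp_add _ (_ * Real.log C₁), Real.exp_nat_mul, Real.exp_log hC₁0]
  ring

/-- Values of a form at almost `S`-units are comparable with the largest monomial. -/
theorem mlead [LinearOrder σ] [Nonempty σ] {h : MvPolynomial σ ℤ} (h0 : h ≠ 0) {d : ℕ}
    (hd : Hom h 0 d) {ε : ℝ} (hε : 0 < ε) :
    ∃ (c b : ℕ) (W : Finset (Idx σ (fun _ : Unit => 0) b → ℤ)), (∀ w ∈ W, w ≠ 0) ∧
    ∀ (S : Finset ℕ) (hS : ∀ p ∈ S, p.Prime), ∃ C : ℝ, ∀ u : σ → ℤ,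
      (∀ t, u t ≠ 0) → (∀ w ∈ W, w ⬝ᵥ mvec (fun _ : Unit => 0) b u 1 ≠ 0) →
      ∃ γ : Option S → σ →₀ ℕ, (∀ o, γ o ∈ h.support ∧ ∀ κ ∈ h.support,
        ∏ t, place S hS o (u t) ^ κ t ≤ ∏ t, place S hS o (u t) ^ γ o t) ∧
      1 ≤ Real.exp (C + ε * Real.log ‖u‖) * (∏ t, ∏ o, place S hS o (u t)) ^ c *
        ∏ o, place S hS o (eval u h : ℤ) / ∏ t, place S hS o (u t) ^ γ o t := by
  classical
  obtain ⟨c, b, W, -, hW, H⟩ := ml0 (Φ := h.support.filter fun γ => ∃ w, Lead w h γ)
    (fun _ : Unit => 0) (fun q _ => q.1) (fun _ => Matrix.of fun _ _ => h)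
    (fun q _ _ μ hμ => by rw [hd μ hμ, hd _ (mem_filter.1 q.2).1])
    (fun _ => ⟨fun _ => 0, fun _ _ _ => rfl, fun _ _ h => absurd h (lt_irrefl _)⟩)
    (fun q _ => (mem_filter.1 q.2).2) hε
  refine ⟨c, b, W, hW, fun S hS => ?_⟩
  obtain ⟨C, hC⟩ := H S hS
  refine ⟨C, fun u hu hw => ?_⟩
  choose γ hγ1 hγ2 using fun o : Option S => exists_lead_at (place S hS o) hu h0
  have h1 : ∀ o, γ o ∈ h.support := fun o => mem_support_iff.2 (hγ1 o).choose_spec.1
  refine ⟨γ, fun o => ⟨h1 o, hγ2 o⟩, ?_⟩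
  simpa using hC u 1 hu (fun _ => one_ne_zero) hw fun o => ⟨γ o, mem_filter.2 ⟨h1 o, hγ1 o⟩⟩

end Pool.Agent.Lib.MP_8865d3_nt
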